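import Pool.Agent.Lib.MP_0f5a55_nt.D0

open Complex MeasureTheory Set Filter Topology
open scoped ComplexConjugate

namespace LZ

theorem A01_cpow_eq (x : ℝ) (hx : 0 < x) (w : ℂ) : (x : ℂ) ^ w = exp ((Real.log x : ℂ) * w) := by
  rw [cpow_def_of_ne_zero (by exact_mod_cast hx.ne'), ofReal_log hx.le]

theorem A01_WW (ε : ℝ) (h k : ℕ) (hh : 1 ≤ h) (hk : 1 ≤ k) :
    WW ε h k = exp ((Real.log (2 * Real.pi) + Real.log h - Real.log k : ℝ) +
      ((Real.pi / 2 - ε : ℝ) : ℂ) * I) := by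
  have hp : (0:ℝ) < 2 * Real.pi := by positivity
  have hh' : (0:ℝ) < h := by exact_mod_cast hh
  have hk' : (0:ℝ) < k := by exact_mod_cast hk
  have e1 : exp ((Real.log (2 * Real.pi) + Real.log h - Real.log k : ℝ) : ℂ) =
      2 * Real.pi * h / k := by
    rw [← ofReal_exp, Real.exp_sub, Real.exp_add, Real.exp_log hp, Real.exp_log hh',
      Real.exp_log hk']
    push_cast
    ring
  have e2 : exp (((Real.pi / 2 - ε : ℝ) : ℂ) * I) = I * exp (-(ε * I)) := by
    have : ((Real.pi / 2 - ε : ℝ) : ℂ) * I = Real.pi / 2 * I + -(ε * I) := by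
      push_cast
      ring
    rw [this, exp_add, exp_pi_div_two_mul_I]
  rw [exp_add, e1, e2]
  unfold WW
  ring

theorem A01_log (ε : ℝ) (hε : 0 < ε) (hε1 : ε ≤ 1/2) (h k : ℕ) (hh : 1 ≤ h) (hk : 1 ≤ k) :
    log (WW ε h k) = (Real.log (2 * Real.pi) + Real.log h - Real.log k : ℝ) +
      ((Real.pi / 2 - ε : ℝ) : ℂ) * I := by
  have hpi := Real.pi_gt_three
  rw [A01_WW ε h k hh hk]
  have him : (((Real.log (2 * Real.pi) + Real.log h - Real.log k : ℝ) : ℂ) +
      ((Real.pi / 2 - ε : ℝ) : ℂ) * I).im = Real.pi / 2 - ε := by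
    simp only [add_im, ofReal_im, zero_add, mul_im, ofReal_re, I_im, mul_one, I_re, mul_zero,
      add_zero]
  refine log_exp ?_ ?_
  · rw [him]; linarith
  · rw [him]; linarith

/-- kernel identity. riemannZeta_one_sub, 2cos(pi s/2) = exp(-i pi s/2)(1+exp(i pi s)), 1+exp(i pi s) <> 0 for Im s > 0,
log (WW eps h k) = log(2 pi h/k) + i(pi/2-eps). -/
theorem kernel_id (ε : ℝ) (hε : 0 < ε) (hε1 : ε ≤ 1/2) (h k : ℕ) (hh : 1 ≤ h) (hk : 1 ≤ k) (s : ℂ)
    (hs : 1 ≤ s.im) :
    riemannZeta (1 - s) * ((h : ℂ) ^ (-s) * (k : ℂ) ^ s) * exp (ε * s * I) * (1 + exp (Real.pi * s * I))⁻¹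
      = riemannZeta s * Gamma s * (WW ε h k) ^ (-s) := by
  have hp : (0:ℝ) < 2 * Real.pi := by positivity
  have hh' : (0:ℝ) < h := by exact_mod_cast hh
  have hk' : (0:ℝ) < k := by exact_mod_cast hk
  have hs1 : ∀ n : ℕ, s ≠ -n := by
    intro n hn
    rw [hn] at hs
    simp only [neg_im, natCast_im, neg_zero] at hs
    linarith
  have hs2 : s ≠ 1 := by
    intro hn
    rw [hn] at hs
    simp only [one_im] at hs
    linarith
  have hne : (1 : ℂ) + exp (Real.pi * s * I) ≠ 0 := by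
    intro h0
    have h1 : ‖exp (Real.pi * s * I)‖ = 1 := by
      have : exp (Real.pi * s * I) = -1 := by linear_combination h0
      rw [this, norm_neg, norm_one]
    rw [norm_exp] at h1
    have h2 : ((Real.pi : ℂ) * s * I).re = -(Real.pi * s.im) := by
      simp only [mul_re, ofReal_re, ofReal_im, zero_mul, sub_zero, I_re, mul_zero, mul_im,
        add_zero, I_im, mul_one, zero_sub]
    rw [h2, Real.exp_eq_one_iff] at h1
    have : 0 < Real.pi * s.im := mul_pos Real.pi_pos (by linarith)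
    linarith
  have hcos : Complex.cos (Real.pi * s / 2) =
      exp (-(Real.pi * s / 2 * I)) * (1 + exp (Real.pi * s * I)) / 2 := by
    have h3 : exp (-(Real.pi * s / 2 * I)) * exp (Real.pi * s * I) = exp (Real.pi * s / 2 * I) := by
      rw [← exp_add]
      congr 1
      ring
    rw [mul_add, h3, mul_one]
    unfold Complex.cos
    rw [show -(Real.pi * s / 2) * I = -(Real.pi * s / 2 * I) by ring]
    ring
  have hWne : WW ε h k ≠ 0 := by
    rw [A01_WW ε h k hh hk]
    exact exp_ne_zero _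
  have hW : (WW ε h k) ^ (-s) = (2 * Real.pi : ℂ) ^ (-s) * ((h : ℂ) ^ (-s) * (k : ℂ) ^ s) *
      exp (ε * s * I) * exp (-(Real.pi * s / 2 * I)) := by
    have q1 := A01_cpow_eq (2 * Real.pi) hp (-s)
    have q2 := A01_cpow_eq h hh' (-s)
    have q3 := A01_cpow_eq k hk' s
    rw [ofReal_natCast] at q2 q3
    rw [show ((2 * Real.pi : ℝ) : ℂ) = 2 * Real.pi by push_cast; ring] at q1
    rw [cpow_def_of_ne_zero hWne, A01_log ε hε hε1 h k hh hk, q1, q2, q3, ← exp_add, ← exp_add,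
      ← exp_add, ← exp_add]
    congr 1
    push_cast
    ring
  rw [riemannZeta_one_sub hs1 hs2, hcos, hW]
  field_simp

end LZ
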