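import Mathlib

namespace LZX
open Complex MeasureTheory Filter Topology Set
open scoped Real ComplexConjugate

theorem intg_exp_abs {k : ℝ} (hk : 0 < k) : Integrable (fun y : ℝ => Real.exp (-(k * |y|))) := by
  refine Integrable.of_integral_ne_zero ?_
  have h1 : ∫ y : ℝ, Real.exp (-(k * |y|)) = 2 * ∫ y in Ioi (0:ℝ), Real.exp (-(k * y)) :=
    integral_comp_abs (f := fun x => Real.exp (-(k * x)))
  have h2 : ∫ y in Ioi (0:ℝ), Real.exp (-(k * y)) = 1 / k := by
    have := Real.integral_rpow_mul_exp_neg_mul_Ioi (a := 1) (r := k) one_pos hk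
    simpa using this
  rw [h1, h2]
  positivity

theorem exp_int_intg {s : ℂ} (hs : 0 < s.re) {W : ℂ} (hW : 0 < W.re) :
    IntegrableOn (fun x : ℝ => (x : ℂ) ^ (s - 1) * cexp (-(W * x))) (Ioi 0) := by
  have h1 : IntegrableOn (fun x : ℝ => x ^ (s.re - 1) * Real.exp (-W.re * x ^ (1:ℝ))) (Ioi 0) :=
    integrableOn_rpow_mul_exp_neg_mul_rpow (by linarith) one_pos hW
  refine Integrable.mono' h1 ?_ ?_
  · refine ContinuousOn.aestronglyMeasurable (fun x hx => ?_) measurableSet_Ioi
    have hx' : (x : ℂ) ∈ slitPlane := by simpa [mem_slitPlane_iff] using hx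
    exact ((continuousAt_ofReal_cpow_const x (s - 1) (Or.inr (ne_of_gt hx))).mul
      (by fun_prop)).continuousWithinAt
  · refine (ae_restrict_mem measurableSet_Ioi).mono (fun x hx => ?_)
    have hx : 0 < x := hx
    rw [norm_mul, norm_cpow_eq_rpow_re_of_pos hx, norm_exp]
    simp [hx]

theorem exp_int {s : ℂ} (hs : 0 < s.re) {W : ℂ} (hW : 0 < W.re) :
    ∫ x in Ioi (0:ℝ), (x:ℂ) ^ (s - 1) * cexp (-(W * x)) = W ^ (-s) * Gamma s := by
  set U : Set ℂ := {W | 0 < W.re} with hU
  have hUo : IsOpen U := isOpen_lt continuous_const continuous_re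
  have hUc : IsPreconnected U := (convex_halfSpace_re_gt 0).isPreconnected
  have hf : AnalyticOnNhd ℂ (fun W : ℂ => ∫ x in Ioi (0:ℝ), (x:ℂ) ^ (s - 1) * cexp (-(W * x))) U := by
    refine DifferentiableOn.analyticOnNhd (fun W0 hW0 => ?_) hUo
    have hW0 : 0 < W0.re := hW0
    have hb : Metric.ball W0 (W0.re / 2) ∈ 𝓝 W0 := Metric.ball_mem_nhds _ (by linarith)
    have key := hasDerivAt_integral_of_dominated_loc_of_deriv_le
      (μ := volume.restrict (Ioi (0:ℝ))) (x₀ := W0)
      (F := fun (W : ℂ) (x : ℝ) => (x:ℂ) ^ (s - 1) * cexp (-(W * x)))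
      (F' := fun (W : ℂ) (x : ℝ) => (x:ℂ) ^ (s - 1) * (cexp (-(W * x)) * (-x)))
      (bound := fun x : ℝ => x ^ s.re * Real.exp (-(W0.re / 2) * x ^ (1:ℝ))) hb ?_ ?_ ?_ ?_ ?_ ?_
    · exact key.2.differentiableAt.differentiableWithinAt
    · filter_upwards [hUo.mem_nhds hW0] with W hW
      exact (exp_int_intg hs hW).aestronglyMeasurable
    · exact exp_int_intg hs hW0
    · refine ContinuousOn.aestronglyMeasurable (fun x hx => ?_) measurableSet_Ioi
      exact ((continuousAt_ofReal_cpow_const x (s - 1) (Or.inr (ne_of_gt hx))).mul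
        (by fun_prop)).continuousWithinAt
    · refine (ae_restrict_mem measurableSet_Ioi).mono (fun x hx W hW => ?_)
      have hx : 0 < x := hx
      rw [norm_mul, norm_cpow_eq_rpow_re_of_pos hx, norm_mul, norm_exp]
      have h1 : W0.re / 2 ≤ W.re := by
        have := abs_re_le_norm (W - W0)
        rw [Metric.mem_ball, dist_eq] at hW
        have h2 := abs_le.mp (this.trans hW.le)
        simp at h2
        linarith [h2.1]
      have h2 : x ^ s.re = x ^ (s.re - 1) * x := by
        rw [← Real.rpow_add_one hx.ne']; ring_nf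
      have h3 : (-(W * (x:ℂ))).re ≤ -(W0.re / 2) * x ^ (1:ℝ) := by
        simp
        nlinarith
      have h4 := Real.exp_le_exp.mpr h3
      have h5 : ‖-(x:ℂ)‖ = x := by rw [norm_neg, norm_real, Real.norm_of_nonneg hx.le]
      rw [h5, h2]
      have h6 : (s - 1).re = s.re - 1 := by simp
      rw [h6]
      calc x ^ (s.re - 1) * (Real.exp (-(W * (x:ℂ))).re * x) = x ^ (s.re - 1) * x * Real.exp (-(W * (x:ℂ))).re := by ring
        _ ≤ _ := by gcongr
    · exact integrableOn_rpow_mul_exp_neg_mul_rpow (by linarith) one_pos (by linarith)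
    · refine Eventually.of_forall (fun x W _ => ?_)
      have : HasDerivAt (fun W : ℂ => -(W * (x:ℂ))) (-(1 * (x:ℂ))) W := ((hasDerivAt_id W).mul_const _).neg
      simp only [one_mul] at this
      exact this.cexp.const_mul _
  have hg : AnalyticOnNhd ℂ (fun W : ℂ => W ^ (-s) * Gamma s) U := by
    refine DifferentiableOn.analyticOnNhd (fun W0 hW0 => ?_) hUo
    have hW0 : 0 < W0.re := hW0
    have : W0 ∈ slitPlane := Or.inl hW0
    exact ((differentiableAt_id.cpow_const this).mul_const _).differentiableWithinAt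
  have h1U : (1:ℂ) ∈ U := by simp [hU]
  have hfreq : ∃ᶠ z in 𝓝[≠] (1:ℂ), (fun W : ℂ => ∫ x in Ioi (0:ℝ), (x:ℂ) ^ (s - 1) * cexp (-(W * x))) z
      = (fun W : ℂ => W ^ (-s) * Gamma s) z := by
    have ht : Tendsto (fun r : ℝ => (r : ℂ)) (𝓝[≠] (1:ℝ)) (𝓝[≠] (1:ℂ)) := by
      refine tendsto_nhdsWithin_iff.mpr ⟨?_, ?_⟩
      · exact (continuous_ofReal.tendsto 1).mono_left nhdsWithin_le_nhds |>.congr (fun _ => rfl)
      · refine eventually_mem_nhdsWithin.mono (fun r hr => ?_)
        intro h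
        exact hr (by simpa using h)
    refine ht.frequently (Eventually.frequently ?_)
    have hpos : ∀ᶠ r : ℝ in 𝓝[≠] (1:ℝ), 0 < r :=
      nhdsWithin_le_nhds (lt_mem_nhds one_pos)
    refine hpos.mono (fun r hr => ?_)
    have := integral_cpow_mul_exp_neg_mul_Ioi (a := s) (r := r) hs hr
    simp only
    rw [this, one_div, inv_cpow _ _ (by rw [arg_ofReal_of_nonneg hr.le]; exact Real.pi_pos.ne), cpow_neg]
  exact hf.eqOn_of_preconnected_of_frequently_eq hg hUc h1U hfreq hW

theorem Gamma_tau {τ : ℝ} (hτ : |τ| < π / 2) {s : ℂ} (hs : 0 < s.re) :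
    ‖Gamma s‖ * Real.exp (τ * s.im) ≤ (1 / Real.cos τ) ^ s.re * Real.Gamma s.re := by
  have hcos : 0 < Real.cos τ := Real.cos_pos_of_mem_Ioo (abs_lt.mp hτ)
  have hτ' := abs_lt.mp hτ
  have hW : 0 < (cexp (τ * I)).re := by
    rw [exp_ofReal_mul_I_re]; exact hcos
  have e := exp_int hs hW
  have hn : ‖cexp (τ * I) ^ (-s)‖ = Real.exp (τ * s.im) := by
    rw [cpow_def_of_ne_zero (exp_ne_zero _), log_exp (by simp; linarith [Real.pi_pos]) (by simp; linarith [Real.pi_pos]),
      norm_exp]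
    simp
  have h2 : ‖∫ x in Ioi (0:ℝ), (x:ℂ) ^ (s - 1) * cexp (-(cexp (τ * I) * x))‖ ≤
      ∫ x in Ioi (0:ℝ), x ^ (s.re - 1) * Real.exp (-(Real.cos τ * x)) := by
    refine (norm_integral_le_integral_norm _).trans (le_of_eq ?_)
    refine setIntegral_congr_fun measurableSet_Ioi (fun x hx => ?_)
    have hx : 0 < x := hx
    rw [norm_mul, norm_cpow_eq_rpow_re_of_pos hx, norm_exp]
    have : (-(cexp (τ * I) * (x:ℂ))).re = -(Real.cos τ * x) := by
      rw [neg_re, re_mul_ofReal, exp_ofReal_mul_I_re]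
    rw [this]
    simp
  rw [e, norm_mul, hn, Real.integral_rpow_mul_exp_neg_mul_Ioi hs hcos] at h2
  linarith [mul_comm (Real.exp (τ * s.im)) ‖Gamma s‖]

theorem Gamma_decay {θ : ℝ} (h0 : 0 < θ) (h1 : θ < π / 2) {a b : ℝ} (ha : 0 < a) :
    ∃ C : ℝ, ∀ s : ℂ, a ≤ s.re → s.re ≤ b → ‖Gamma s‖ ≤ C * Real.exp (-(θ * |s.im|)) := by
  have hcos : 0 < Real.cos θ := Real.cos_pos_of_mem_Ioo ⟨by linarith, h1⟩
  -- the basic bound
  have key : ∀ τ : ℝ, |τ| = θ → ∀ s : ℂ, 0 < s.re →
      ‖Gamma s‖ * Real.exp (τ * s.im) ≤ (1 / Real.cos θ) ^ s.re * Real.Gamma s.re := by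
    intro τ hτ s hs
    have hcτ : Real.cos τ = Real.cos θ := by rw [← Real.cos_abs, hτ]
    rw [← hcτ]
    exact Gamma_tau (by rw [hτ]; exact h1) hs
  have hcont : ContinuousOn (fun σ : ℝ => (1 / Real.cos θ) ^ σ * Real.Gamma σ) (Icc a b) := by
    refine ContinuousOn.mul ?_ ?_
    · exact (Real.continuous_const_rpow (by positivity)).continuousOn
    · intro σ hσ
      have hσ0 : 0 < σ := lt_of_lt_of_le ha hσ.1
      exact (Real.differentiableAt_Gamma (fun m => by
        have : (0:ℝ) ≤ m := Nat.cast_nonneg m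
        linarith)).continuousAt.continuousWithinAt
  obtain ⟨C, hC⟩ := isCompact_Icc.exists_bound_of_continuousOn hcont
  refine ⟨C, fun s hs1 hs2 => ?_⟩
  have hs0 : 0 < s.re := lt_of_lt_of_le ha hs1
  have hb : ∀ τ : ℝ, |τ| = θ → ‖Gamma s‖ * Real.exp (τ * s.im) ≤ C := fun τ hτ =>
    (key τ hτ s hs0).trans ((le_abs_self _).trans (by simpa using hC s.re ⟨hs1, hs2⟩))
  have hfin : ‖Gamma s‖ * Real.exp (θ * |s.im|) ≤ C := by
    rcases abs_cases s.im with ⟨h, _⟩ | ⟨h, _⟩
    · rw [h]; exact hb θ (abs_of_pos h0)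
    · rw [h, mul_neg, ← neg_mul]; exact hb (-θ) (by rw [abs_neg, abs_of_pos h0])
  rw [Real.exp_neg, ← div_eq_mul_inv, le_div_iff₀ (Real.exp_pos _)]
  exact hfin

end LZX

namespace LZX
open Complex MeasureTheory Filter Topology Set
open scoped Real ComplexConjugate

theorem exp_mellin {c : ℝ} (hc : 0 < c) {W : ℂ} (hW : 0 < W.re) :
    Integrable (fun y : ℝ => Gamma (c + y * I) * W ^ (-(c + y * I : ℂ))) ∧
    (1 / (2 * π)) * ∫ y : ℝ, Gamma (c + y * I) * W ^ (-(c + y * I : ℂ)) = cexp (-W) := by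
  have hW0 : W ≠ 0 := by rintro rfl; simp at hW
  have hre : ∀ y : ℝ, ((c : ℂ) + y * I).re = c := fun y => by simp
  have him : ∀ y : ℝ, ((c : ℂ) + y * I).im = y := fun y => by simp
  have hint : Integrable (fun y : ℝ => Gamma (c + y * I) * W ^ (-(c + y * I : ℂ))) := by
    have harg : |W.arg| < π / 2 := abs_arg_lt_pi_div_two_iff.mpr (Or.inl hW)
    obtain ⟨θ, hθ1, hθ2⟩ := exists_between harg
    have hθ0 : 0 < θ := lt_of_le_of_lt (abs_nonneg _) hθ1
    obtain ⟨C, hC⟩ := Gamma_decay (a := c) (b := c) hθ0 hθ2 hc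
    have hdec : Integrable (fun y : ℝ => C * ‖W‖ ^ (-c) * Real.exp (-((θ - |W.arg|) * |y|))) := by
      refine Integrable.const_mul ?_ _
      have hk : 0 < θ - |W.arg| := by linarith
      exact intg_exp_abs hk
    refine Integrable.mono' hdec ?_ (Eventually.of_forall fun y => ?_)
    · refine Continuous.aestronglyMeasurable ?_
      refine Continuous.mul ?_ ?_
      · refine continuous_iff_continuousAt.mpr (fun y => ?_)
        have : ContinuousAt Gamma ((c : ℂ) + y * I) := (differentiableAt_Gamma _ (fun m h => by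
          have := congrArg Complex.re h
          rw [hre] at this
          have h2 : (0:ℝ) ≤ m := Nat.cast_nonneg m
          simp at this
          linarith)).continuousAt
        exact ContinuousAt.comp (f := fun y : ℝ => (c : ℂ) + y * I) (g := Gamma) this (by fun_prop)
      · exact Continuous.const_cpow (by fun_prop) (Or.inl hW0)
    · rw [norm_mul]
      have h1 := hC (c + y * I) (by rw [hre]) (by rw [hre])
      rw [him] at h1
      have h2 : ‖W ^ (-(c + y * I : ℂ))‖ = ‖W‖ ^ (-c) * Real.exp (W.arg * y) := by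
        rw [norm_cpow_of_ne_zero hW0]
        simp [Real.exp_neg]
      have h3 : Real.exp (W.arg * y) ≤ Real.exp (|W.arg| * |y|) := by
        refine Real.exp_le_exp.mpr ?_
        rw [← abs_mul]; exact le_abs_self _
      have hp : 0 ≤ ‖W‖ ^ (-c) := by positivity
      calc ‖Gamma (c + y * I)‖ * ‖W ^ (-(c + y * I : ℂ))‖
          ≤ (C * Real.exp (-(θ * |y|))) * (‖W‖ ^ (-c) * Real.exp (|W.arg| * |y|)) := by
            rw [h2]
            refine mul_le_mul h1 (by gcongr) (by positivity) ((norm_nonneg _).trans h1)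
        _ = C * ‖W‖ ^ (-c) * (Real.exp (-(θ * |y|)) * Real.exp (|W.arg| * |y|)) := by ring
        _ = _ := by rw [← Real.exp_add]; ring_nf
  refine ⟨hint, ?_⟩
  have hm : ∀ y : ℝ, mellin (fun x : ℝ => cexp (-(W * x))) (c + y * I) =
      Gamma (c + y * I) * W ^ (-(c + y * I : ℂ)) := by
    intro y
    have := exp_int (s := c + y * I) (by rw [hre]; exact hc) hW
    rw [mul_comm (Gamma _), ← this]
    rfl
  have h1 : mellinInv c (mellin (fun x : ℝ => cexp (-(W * x)))) 1 = cexp (-(W * (1:ℝ))) := by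
    refine mellinInv_mellin_eq c _ one_pos ?_ ?_ (by fun_prop)
    · have := exp_int_intg (s := c) (by simpa using hc) hW
      exact this
    · unfold VerticalIntegrable
      simp_rw [hm]
      exact hint
  rw [mellinInv] at h1
  simp only [ofReal_one, one_cpow, one_smul, mul_one, hm] at h1
  rw [← h1, real_smul]
  push_cast
  rfl

end LZX
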