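import Pool.Agent.Lib.MP_0f5a55_nt.D0
import Pool.Agent.Lib.MP_0f5a55_nt.X0

open Complex MeasureTheory Set Filter Topology
open scoped ComplexConjugate

namespace LZ

private theorem A02_mulcpow {r : ℝ} (hr : 0 < r) {V : ℂ} (hV : V ≠ 0) (s : ℂ) :
    ((r : ℂ) * V) ^ s = (r : ℂ) ^ s * V ^ s := by
  have hr' : (r : ℂ) ≠ 0 := ofReal_ne_zero.mpr hr.ne'
  rw [cpow_def_of_ne_zero (mul_ne_zero hr' hV), cpow_def_of_ne_zero hr', cpow_def_of_ne_zero hV,
    log_ofReal_mul hr hV, ← exp_add, ofReal_log hr.le]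
  congr 1
  ring

private theorem A02_zeta (s : ℂ) (hs : 1 < s.re) :
    riemannZeta s = ∑' n : ℕ, ((n : ℂ) + 1) ^ (-s) := by
  rw [zeta_eq_tsum_one_div_nat_add_one_cpow hs]
  refine tsum_congr (fun n => ?_)
  rw [cpow_neg, one_div]

private theorem A02_norm (n : ℕ) (s : ℂ) : ‖((n : ℂ) + 1) ^ (-s)‖ = ((n : ℝ) + 1) ^ (-s.re) := by
  have h : ((n : ℂ) + 1) = (((n : ℝ) + 1 : ℝ) : ℂ) := by push_cast; ring
  rw [h, norm_cpow_eq_rpow_re_of_pos (by positivity), neg_re]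

private theorem A02_sum (a : ℝ) (ha : 1 < a) : Summable (fun n : ℕ => ((n : ℝ) + 1) ^ (-a)) := by
  have h := (Real.summable_nat_rpow (p := -a)).mpr (by linarith)
  have h2 := (summable_nat_add_iff 1).mpr h
  simpa using h2

private theorem A02_geom (m : ℕ) (W : ℂ) (hW : 0 < W.re) :
    ∑' n : ℕ, exp (-(((m : ℂ) + 1) * ((n : ℂ) + 1) * W)) = (exp (((m : ℂ) + 1) * W) - 1)⁻¹ := by
  set q : ℂ := exp (-(((m : ℂ) + 1) * W)) with hq
  have hre : 0 < (((m : ℂ) + 1) * W).re := by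
    have h : ((m : ℂ) + 1) = (((m : ℝ) + 1 : ℝ) : ℂ) := by push_cast; ring
    rw [h, re_ofReal_mul]
    positivity
  have hq1 : ‖q‖ < 1 := by
    rw [hq, norm_exp, neg_re]
    rw [Real.exp_lt_one_iff]
    linarith
  have hq0 : q ≠ 0 := exp_ne_zero _
  have h1 : ∀ n : ℕ, exp (-(((m : ℂ) + 1) * ((n : ℂ) + 1) * W)) = q * q ^ n := by
    intro n
    rw [← pow_succ', hq, ← exp_nat_mul]
    congr 1
    push_cast
    ring
  simp_rw [h1]
  rw [tsum_mul_left, tsum_geometric_of_norm_lt_one hq1]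
  have h2 : exp (((m : ℂ) + 1) * W) = q⁻¹ := by
    rw [hq, exp_neg, inv_inv]
  rw [h2]
  have h3 : (1 - q) ≠ 0 := by
    intro h
    have : q = 1 := by linear_combination -h
    rw [this] at hq1
    simp at hq1
  have h4 : q⁻¹ - 1 = q⁻¹ * (1 - q) := by
    field_simp
  rw [h4, mul_inv, inv_inv]

private theorem A02_cont (a : ℂ) (ha : 1 < a.re) :
    Continuous (fun y : ℝ => riemannZeta (a + y * I)) := by
  rw [continuous_iff_continuousAt]
  intro y
  have hne : a + y * I ≠ 1 := by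
    intro h
    have h2 := congrArg Complex.re h
    simp at h2
    linarith
  have h1 : ContinuousAt riemannZeta (a + y * I) :=
    (differentiableAt_riemannZeta hne).continuousAt
  have h2 : ContinuousAt (fun y : ℝ => a + (y : ℂ) * I) y := by fun_prop
  exact ContinuousAt.comp (f := fun y : ℝ => a + (y : ℂ) * I) h1 h2

private theorem A02_bd (a : ℂ) (ha : 1 < a.re) (y : ℝ) :
    ‖riemannZeta (a + y * I)‖ ≤ ∑' n : ℕ, ((n : ℝ) + 1) ^ (-a.re) := by
  rw [A02_zeta _ (by simpa using ha)]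
  refine (norm_tsum_le_tsum_norm ?_).trans ?_
  · simp_rw [A02_norm]
    simpa using A02_sum a.re ha
  · simp_rw [A02_norm]
    simp

/-- (3.1). Expand both zetas (absolutely convergent), LZX.exp_mellin (X0) with W replaced by mnW,
sum over n: sum exp(-mnW) = 1/(exp(mW)-1). -/
theorem mellin_DD (η W : ℂ) (hη : |η.re| ≤ 1/2) (hW : 0 < W.re) :
    Integrable (fun y : ℝ => riemannZeta (2 + y * I + η) * riemannZeta (2 + y * I) * Gamma (2 + y * I) *
      W ^ (-(2 + y * I : ℂ))) ∧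
    ∫ y : ℝ, riemannZeta (2 + y * I + η) * riemannZeta (2 + y * I) * Gamma (2 + y * I) *
      W ^ (-(2 + y * I : ℂ)) = 2 * Real.pi * DD η W := by
  have hη' := abs_le.mp hη
  have hW0 : W ≠ 0 := by rintro rfl; simp at hW
  have hg : ∀ V : ℂ, 0 < V.re → Integrable (fun y : ℝ => Gamma (2 + y * I) * V ^ (-(2 + y * I : ℂ))) ∧
      ∫ y : ℝ, Gamma (2 + y * I) * V ^ (-(2 + y * I : ℂ)) = 2 * Real.pi * exp (-V) := by
    intro V hV
    have h := LZX.exp_mellin (c := 2) two_pos hV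
    have e : ((2 : ℝ) : ℂ) = 2 := by norm_num
    rw [e] at h
    refine ⟨h.1, ?_⟩
    rw [← h.2]
    have hpi : (Real.pi : ℂ) ≠ 0 := ofReal_ne_zero.mpr Real.pi_ne_zero
    rw [← mul_assoc]
    have e2 : (2 * Real.pi * (1 / (2 * Real.pi)) : ℂ) = 1 := by field_simp
    rw [e2, one_mul]
  have ha : 1 < ((2 : ℂ) + η).re := by simp; linarith
  have hb : 1 < (2 : ℂ).re := by norm_num
  have hI : Integrable (fun y : ℝ => riemannZeta (2 + y * I + η) * riemannZeta (2 + y * I) * Gamma (2 + y * I) *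
      W ^ (-(2 + y * I : ℂ))) := by
    have h1 := (hg W hW).1
    have hc : Continuous (fun y : ℝ => riemannZeta (2 + y * I + η) * riemannZeta (2 + y * I)) := by
      have e : (fun y : ℝ => riemannZeta (2 + y * I + η) * riemannZeta (2 + y * I)) =
          fun y : ℝ => riemannZeta ((2 + η) + y * I) * riemannZeta (2 + y * I) := by
        funext y
        congr 2
        ring
      rw [e]
      exact (A02_cont _ ha).mul (A02_cont _ hb)
    have h2 := h1.bdd_mul (c := (∑' n : ℕ, ((n : ℝ) + 1) ^ (-((2 : ℂ) + η).re)) *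
      (∑' n : ℕ, ((n : ℝ) + 1) ^ (-(2 : ℂ).re))) hc.aestronglyMeasurable
      (Eventually.of_forall (fun y => by
        rw [norm_mul]
        have e : (2 : ℂ) + y * I + η = (2 + η) + y * I := by ring
        rw [e]
        refine mul_le_mul (A02_bd _ ha y) (A02_bd _ hb y) (norm_nonneg _) ?_
        exact tsum_nonneg (fun n => by positivity)))
    refine h2.congr (Eventually.of_forall (fun y => ?_))
    simp only
    ring
  refine ⟨hI, ?_⟩
  -- the terms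
  set F : ℕ × ℕ → ℝ → ℂ := fun p y =>
    (((p.1 : ℂ) + 1) ^ (-(2 + y * I + η)) * ((p.2 : ℂ) + 1) ^ (-(2 + y * I : ℂ))) *
      (Gamma (2 + y * I) * W ^ (-(2 + y * I : ℂ))) with hF
  have hre1 : ∀ y : ℝ, ((2 : ℂ) + y * I + η).re = 2 + η.re := fun y => by simp
  have hre2 : ∀ y : ℝ, ((2 : ℂ) + y * I).re = 2 := fun y => by simp
  have hnF : ∀ p : ℕ × ℕ, ∀ y : ℝ, ‖F p y‖ = (((p.1 : ℝ) + 1) ^ (-(2 + η.re)) * ((p.2 : ℝ) + 1) ^ (-(2 : ℝ))) *
      ‖Gamma (2 + y * I) * W ^ (-(2 + y * I : ℂ))‖ := by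
    intro p y
    rw [hF]
    simp only
    rw [norm_mul, norm_mul, A02_norm, A02_norm, hre1, hre2]
  -- each term equals m^(-eta) times the kernel at mnW
  have hFe : ∀ p : ℕ × ℕ, ∀ y : ℝ, F p y = ((p.1 : ℂ) + 1) ^ (-η) * (Gamma (2 + y * I) *
      (((p.1 : ℂ) + 1) * ((p.2 : ℂ) + 1) * W) ^ (-(2 + y * I : ℂ))) := by
    intro p y
    have e1 : ((p.1 : ℂ) + 1) = (((p.1 : ℝ) + 1 : ℝ) : ℂ) := by push_cast; ring
    have e2 : ((p.2 : ℂ) + 1) = (((p.2 : ℝ) + 1 : ℝ) : ℂ) := by push_cast; ring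
    have hp1 : (0:ℝ) < (p.1 : ℝ) + 1 := by positivity
    have hp2 : (0:ℝ) < (p.2 : ℝ) + 1 := by positivity
    have h1 : (((p.1 : ℂ) + 1) * ((p.2 : ℂ) + 1) * W) ^ (-(2 + y * I : ℂ)) =
        ((p.1 : ℂ) + 1) ^ (-(2 + y * I : ℂ)) * (((p.2 : ℂ) + 1) ^ (-(2 + y * I : ℂ)) *
          W ^ (-(2 + y * I : ℂ))) := by
      rw [e1, e2, mul_assoc, A02_mulcpow hp1 (mul_ne_zero (ofReal_ne_zero.mpr hp2.ne') hW0),
        A02_mulcpow hp2 hW0]
    have h2 : ((p.1 : ℂ) + 1) ^ (-(2 + y * I + η)) =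
        ((p.1 : ℂ) + 1) ^ (-(2 + y * I : ℂ)) * ((p.1 : ℂ) + 1) ^ (-η) := by
      rw [← cpow_add _ _ (by rw [e1]; exact ofReal_ne_zero.mpr hp1.ne')]
      congr 1
      ring
    rw [hF]
    simp only
    rw [h1, h2]
    ring
  have hmn : ∀ p : ℕ × ℕ, 0 < (((p.1 : ℂ) + 1) * ((p.2 : ℂ) + 1) * W).re := by
    intro p
    have e : ((p.1 : ℂ) + 1) * ((p.2 : ℂ) + 1) = ((((p.1 : ℝ) + 1) * ((p.2 : ℝ) + 1) : ℝ) : ℂ) := by
      push_cast; ring
    rw [e, re_ofReal_mul]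
    positivity
  have hFint : ∀ p : ℕ × ℕ, Integrable (F p) := by
    intro p
    refine (((hg _ (hmn p)).1).const_mul (((p.1 : ℂ) + 1) ^ (-η))).congr
      (Eventually.of_forall (fun y => ?_))
    rw [hFe p y]
  have hFval : ∀ p : ℕ × ℕ, ∫ y, F p y = ((p.1 : ℂ) + 1) ^ (-η) *
      (2 * Real.pi * exp (-(((p.1 : ℂ) + 1) * ((p.2 : ℂ) + 1) * W))) := by
    intro p
    rw [← (hg _ (hmn p)).2, ← integral_const_mul]
    exact integral_congr_ae (Eventually.of_forall (fun y => hFe p y))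
  have hs1 : Summable (fun n : ℕ => ((n : ℝ) + 1) ^ (-(2 + η.re))) := A02_sum _ (by linarith)
  have hs2 : Summable (fun n : ℕ => ((n : ℝ) + 1) ^ (-(2:ℝ))) := A02_sum _ (by norm_num)
  have hs12 : Summable (fun p : ℕ × ℕ => ((p.1 : ℝ) + 1) ^ (-(2 + η.re)) * ((p.2 : ℝ) + 1) ^ (-(2 : ℝ))) :=
    hs1.mul_of_nonneg hs2 (fun n => by positivity) (fun n => by positivity)
  have hFn : ∀ p : ℕ × ℕ, ∫ y, ‖F p y‖ = (((p.1 : ℝ) + 1) ^ (-(2 + η.re)) * ((p.2 : ℝ) + 1) ^ (-(2 : ℝ))) *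
      ∫ y : ℝ, ‖Gamma (2 + y * I) * W ^ (-(2 + y * I : ℂ))‖ := by
    intro p
    rw [← integral_const_mul]
    exact integral_congr_ae (Eventually.of_forall (fun y => hnF p y))
  have hFsum : Summable (fun p : ℕ × ℕ => ∫ y, ‖F p y‖) := by
    simp_rw [hFn]
    exact hs12.mul_right _
  have key := integral_tsum_of_summable_integral_norm hFint hFsum
  -- the pointwise sum
  have hpt : ∀ y : ℝ, ∑' p : ℕ × ℕ, F p y = riemannZeta (2 + y * I + η) * riemannZeta (2 + y * I) *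
      Gamma (2 + y * I) * W ^ (-(2 + y * I : ℂ)) := by
    intro y
    have z1 := A02_zeta (2 + y * I + η) (by rw [hre1]; linarith)
    have z2 := A02_zeta (2 + y * I) (by rw [hre2]; norm_num)
    have n1 : Summable (fun n : ℕ => ‖((n : ℂ) + 1) ^ (-(2 + y * I + η))‖) := by
      simp_rw [A02_norm, hre1]
      exact hs1
    have n2 : Summable (fun n : ℕ => ‖((n : ℂ) + 1) ^ (-(2 + y * I : ℂ))‖) := by
      simp_rw [A02_norm, hre2]
      exact hs2
    rw [hF]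
    simp only
    rw [tsum_mul_right, z1, z2, tsum_mul_tsum_of_summable_norm n1 n2]
    ring
  have hL : ∫ y : ℝ, ∑' p : ℕ × ℕ, F p y = ∫ y : ℝ, riemannZeta (2 + y * I + η) * riemannZeta (2 + y * I) *
      Gamma (2 + y * I) * W ^ (-(2 + y * I : ℂ)) :=
    integral_congr_ae (Eventually.of_forall hpt)
  rw [← hL, ← key]
  simp_rw [hFval]
  have hsumm : Summable (fun p : ℕ × ℕ => ((p.1 : ℂ) + 1) ^ (-η) *
      (2 * Real.pi * exp (-(((p.1 : ℂ) + 1) * ((p.2 : ℂ) + 1) * W)))) := by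
    simp_rw [← hFval]
    exact Summable.of_norm_bounded hFsum (fun p => norm_integral_le_integral_norm _)
  rw [hsumm.tsum_prod]
  simp only
  rw [DD, ← tsum_mul_left]
  refine tsum_congr (fun m => ?_)
  rw [tsum_mul_left, tsum_mul_left, A02_geom m W hW]
  ring

end LZ
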