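import Mathlib

namespace LZX
open Filter Topology Complex Set

/-- Euler–Maclaurin term. -/
noncomputable def vt (n : ℕ) (s : ℂ) : ℂ :=
  (s - 1) * ((n : ℂ) + 1) ^ (-s) + (((n : ℂ) + 2) ^ (1 - s) - ((n : ℂ) + 1) ^ (1 - s))

lemma cast_add_ne (n : ℕ) (a : ℝ) (ha : 0 < a) : ((n : ℂ) + a) ≠ 0 := by
  have : ((n : ℂ) + a) = ((n + a : ℝ) : ℂ) := by push_cast; ring
  rw [this]
  exact_mod_cast (by positivity : (n:ℝ) + a ≠ 0)

lemma vt_differentiable (n : ℕ) : Differentiable ℂ (vt n) := by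
  unfold vt
  have h1 : ((n : ℂ) + 1) ≠ 0 := by simpa using cast_add_ne n 1 one_pos
  have h2 : ((n : ℂ) + 2) ≠ 0 := by simpa using cast_add_ne n 2 two_pos
  refine Differentiable.add (Differentiable.mul (by fun_prop) ?_) (Differentiable.sub ?_ ?_)
  · exact fun s => (DifferentiableAt.const_cpow (by fun_prop) (Or.inl h1))
  · exact fun s => (DifferentiableAt.const_cpow (by fun_prop) (Or.inl h2))
  · exact fun s => (DifferentiableAt.const_cpow (by fun_prop) (Or.inl h1))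

lemma hasDerivAt_cpow_line (n : ℕ) (x : ℝ) (hx : 0 ≤ x) (c : ℂ) :
    HasDerivAt (fun x : ℝ => ((n : ℂ) + 1 + x) ^ c) (c * ((n : ℂ) + 1 + x) ^ (c - 1)) x := by
  have h1 : HasDerivAt (fun x : ℝ => ((n : ℂ) + 1 + x)) 1 x := by
    simpa using (Complex.ofRealCLM.hasDerivAt (x := x)).const_add ((n : ℂ) + 1)
  have h2 : ((n : ℂ) + 1 + x) ∈ slitPlane := by
    left
    have : ((n : ℂ) + 1 + x).re = (n : ℝ) + 1 + x := by simp
    rw [this]; positivity
  have h3 : HasDerivAt (fun z : ℂ => z ^ c) (c * ((n : ℂ) + 1 + x) ^ (c - 1) * 1) ((n : ℂ) + 1 + x) :=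
    (hasDerivAt_id _).cpow_const h2
  have h4 := h3.comp_of_eq x h1 rfl
  rw [mul_one, mul_one] at h4
  exact h4

lemma norm_cpow_line (n : ℕ) (x : ℝ) (hx : 0 ≤ x) (c : ℂ) :
    ‖((n : ℂ) + 1 + x) ^ c‖ = ((n : ℝ) + 1 + x) ^ c.re := by
  have : ((n : ℂ) + 1 + x) = (((n : ℝ) + 1 + x : ℝ) : ℂ) := by push_cast; ring
  rw [this, Complex.norm_cpow_eq_rpow_re_of_pos (by positivity)]

lemma vt_bound (n : ℕ) (s : ℂ) (hs : -1 ≤ s.re) :
    ‖vt n s‖ ≤ ‖s - 1‖ * ‖s‖ * ((n : ℝ) + 1) ^ (-s.re - 1) := by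
  -- inner difference
  have h1 : ∀ x : ℝ, x ∈ Icc (0:ℝ) 1 →
      ‖((n : ℂ) + 1 + x) ^ (-s) - ((n : ℂ) + 1) ^ (-s)‖ ≤ ‖s‖ * ((n : ℝ) + 1) ^ (-s.re - 1) := by
    intro x hx
    have h2 := Convex.norm_image_sub_le_of_norm_hasDerivWithin_le (𝕜 := ℝ)
      (f := fun x : ℝ => ((n : ℂ) + 1 + x) ^ (-s)) (f' := fun x : ℝ => -s * ((n : ℂ) + 1 + x) ^ (-s - 1))
      (s := Icc (0:ℝ) 1) (x := 0) (y := x) (C := ‖s‖ * ((n : ℝ) + 1) ^ (-s.re - 1))
      (fun y hy => (hasDerivAt_cpow_line n y hy.1 (-s)).hasDerivWithinAt)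
      (fun y hy => by
        rw [norm_mul, norm_neg, norm_cpow_line n y hy.1]
        apply mul_le_mul_of_nonneg_left _ (norm_nonneg _)
        have h3 : (-s - 1).re = -s.re - 1 := by simp
        rw [h3]
        apply Real.rpow_le_rpow_of_nonpos (by positivity) (by linarith [hy.1]) (by linarith))
      (convex_Icc 0 1) (by simp) hx
    simp only [ofReal_zero, add_zero] at h2
    refine h2.trans ?_
    have h4 : ‖x - 0‖ ≤ 1 := by
      rw [sub_zero, Real.norm_eq_abs, abs_of_nonneg hx.1]; exact hx.2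
    calc ‖s‖ * ((n : ℝ) + 1) ^ (-s.re - 1) * ‖x - 0‖
        ≤ ‖s‖ * ((n : ℝ) + 1) ^ (-s.re - 1) * 1 := by gcongr
      _ = _ := mul_one _
  have h5 : vt n s = (fun x : ℝ => (s - 1) * ((n : ℂ) + 1) ^ (-s) * x + ((n : ℂ) + 1 + x) ^ (1 - s)) 1 -
      (fun x : ℝ => (s - 1) * ((n : ℂ) + 1) ^ (-s) * x + ((n : ℂ) + 1 + x) ^ (1 - s)) 0 := by
    simp only [vt, ofReal_one, ofReal_zero, mul_one, mul_zero, add_zero, zero_add]
    rw [show (n : ℂ) + 1 + 1 = n + 2 by ring]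
    ring
  rw [h5]
  have hmain := Convex.norm_image_sub_le_of_norm_hasDerivWithin_le (𝕜 := ℝ)
    (f := fun x : ℝ => (s - 1) * ((n : ℂ) + 1) ^ (-s) * x + ((n : ℂ) + 1 + x) ^ (1 - s))
    (f' := fun x : ℝ => (s - 1) * ((n : ℂ) + 1) ^ (-s) + (1 - s) * ((n : ℂ) + 1 + x) ^ (1 - s - 1))
    (s := Icc (0:ℝ) 1) (x := 0) (y := 1) (C := ‖s - 1‖ * ‖s‖ * ((n : ℝ) + 1) ^ (-s.re - 1))
    ?_ ?_ (convex_Icc 0 1) (by simp) (by simp)
  · simpa using hmain
  · intro x hx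
    have h6 := hasDerivAt_cpow_line n x hx.1 (1 - s)
    have h7 : HasDerivAt (fun x : ℝ => (s - 1) * ((n : ℂ) + 1) ^ (-s) * (x : ℂ))
        ((s - 1) * ((n : ℂ) + 1) ^ (-s)) x := by
      simpa using (Complex.ofRealCLM.hasDerivAt (x := x)).const_mul ((s - 1) * ((n : ℂ) + 1) ^ (-s))
    exact (h7.add h6).hasDerivWithinAt
  · intro x hx
    have h8 : (s - 1) * ((n : ℂ) + 1) ^ (-s) + (1 - s) * ((n : ℂ) + 1 + x) ^ (1 - s - 1) =
        -((s - 1) * (((n : ℂ) + 1 + x) ^ (-s) - ((n : ℂ) + 1) ^ (-s))) := by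
      rw [show (1 - s - 1) = -s by ring]; ring
    rw [h8, norm_neg, norm_mul, mul_assoc]
    exact mul_le_mul_of_nonneg_left (h1 x hx) (norm_nonneg _)

lemma rpow_summable {σ : ℝ} (hσ : 0 < σ) : Summable fun n : ℕ => ((n : ℝ) + 1) ^ (-σ - 1) := by
  have h := (summable_nat_add_iff 1).2 (Real.summable_nat_rpow.2 (show -σ - 1 < -1 by linarith))
  refine h.congr ?_
  intro n; push_cast; rfl

lemma vt_summable {s : ℂ} (hs : 0 < s.re) : Summable fun n => vt n s :=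
  Summable.of_norm_bounded ((rpow_summable hs).mul_left (‖s - 1‖ * ‖s‖))
    (fun n => vt_bound n s (by linarith))

lemma vt_tsum_differentiableAt {s₀ : ℂ} (hs : 0 < s₀.re) :
    DifferentiableAt ℂ (fun s => ∑' n, vt n s) s₀ := by
  set V : Set ℂ := {s : ℂ | s₀.re / 2 < s.re} ∩ Metric.ball 0 (‖s₀‖ + 1) with hV
  have hVo : IsOpen V := (isOpen_lt continuous_const continuous_re).inter Metric.isOpen_ball
  have hmem : s₀ ∈ V := by
    refine ⟨?_, ?_⟩
    · show s₀.re / 2 < s₀.re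
      linarith
    · rw [mem_ball_zero_iff]; linarith
  have h1 : DifferentiableOn ℂ (fun s => ∑' n, vt n s) V := by
    refine Complex.differentiableOn_tsum_of_summable_norm
      (u := fun n : ℕ => (‖s₀‖ + 2) * (‖s₀‖ + 1) * ((n : ℝ) + 1) ^ (-(s₀.re / 2) - 1))
      ((rpow_summable (by linarith)).mul_left _) (fun n => (vt_differentiable n).differentiableOn) hVo ?_
    intro n w hw
    have hw1 : s₀.re / 2 < w.re := hw.1
    have hw2 : ‖w‖ < ‖s₀‖ + 1 := by simpa using hw.2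
    refine (vt_bound n w (by linarith)).trans ?_
    have h2 : ‖w - 1‖ ≤ ‖s₀‖ + 2 := by
      calc ‖w - 1‖ ≤ ‖w‖ + ‖(1:ℂ)‖ := norm_sub_le _ _
        _ ≤ _ := by rw [norm_one]; linarith
    have h3 : ((n : ℝ) + 1) ^ (-w.re - 1) ≤ ((n : ℝ) + 1) ^ (-(s₀.re / 2) - 1) :=
      Real.rpow_le_rpow_of_exponent_le (by linarith [Nat.cast_nonneg (α := ℝ) n]) (by linarith)
    gcongr
  exact (h1 s₀ hmem).differentiableAt (hVo.mem_nhds hmem)

lemma vt_tsum_of_one_lt {s : ℂ} (hs : 1 < s.re) :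
    ∑' n, vt n s = (s - 1) * riemannZeta s - 1 := by
  have hs0 : 0 < s.re := by linarith
  have h1 : HasSum (fun n : ℕ => (s - 1) * ((n : ℂ) + 1) ^ (-s)) ((s - 1) * riemannZeta s) := by
    rw [zeta_eq_tsum_one_div_nat_add_one_cpow hs]
    have h2 : Summable fun n : ℕ => 1 / ((n : ℂ) + 1) ^ s := by
      have := (summable_nat_add_iff 1).2 (Complex.summable_one_div_nat_cpow.2 hs)
      refine this.congr ?_
      intro n; push_cast; rfl
    refine (h2.hasSum.mul_left (s - 1)).congr_fun ?_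
    intro n
    rw [cpow_neg, one_div]
  have h3 : Summable fun n : ℕ => (((n : ℂ) + 2) ^ (1 - s) - ((n : ℂ) + 1) ^ (1 - s)) := by
    refine ((vt_summable hs0).sub h1.summable).congr ?_
    intro n; unfold vt; ring
  have h4 : HasSum (fun n : ℕ => (((n : ℂ) + 2) ^ (1 - s) - ((n : ℂ) + 1) ^ (1 - s))) (0 - 1) := by
    rw [h3.hasSum_iff_tendsto_nat]
    have h5 : ∀ N : ℕ, ∑ n ∈ Finset.range N, (((n : ℂ) + 2) ^ (1 - s) - ((n : ℂ) + 1) ^ (1 - s)) =
        ((N : ℂ) + 1) ^ (1 - s) - 1 := by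
      intro N
      have := Finset.sum_range_sub (fun n : ℕ => ((n : ℂ) + 1) ^ (1 - s)) N
      simp only [Nat.cast_zero, zero_add, one_cpow] at this
      rw [← this]
      refine Finset.sum_congr rfl fun n _ => ?_
      push_cast
      rw [show (n : ℂ) + 1 + 1 = n + 2 by ring]
    simp only [h5]
    refine Tendsto.sub_const ?_ 1
    rw [tendsto_zero_iff_norm_tendsto_zero]
    have h6 : ∀ N : ℕ, ‖((N : ℂ) + 1) ^ (1 - s)‖ = ((N : ℝ) + 1) ^ (-(s.re - 1)) := by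
      intro N
      have := norm_cpow_line N 0 le_rfl (1 - s)
      simp only [ofReal_zero, add_zero] at this
      rw [this]; congr 1; simp
    simp only [h6]
    have h7 : Tendsto (fun N : ℕ => (N : ℝ) + 1) atTop atTop :=
      tendsto_atTop_add_const_right _ _ tendsto_natCast_atTop_atTop
    exact (tendsto_rpow_neg_atTop (by linarith : 0 < s.re - 1)).comp h7
  have h8 := h1.add h4
  rw [show (s - 1) * riemannZeta s - 1 = (s - 1) * riemannZeta s + (0 - 1) by ring]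
  exact h8.tsum_eq

lemma zeta_formula {s : ℂ} (hs : 0 < s.re) (h1 : s ≠ 1) :
    (s - 1) * riemannZeta s = 1 + ∑' n, vt n s := by
  have hU : IsOpen {s : ℂ | 0 < s.re} := isOpen_lt continuous_const continuous_re
  have hA : AnalyticOnNhd ℂ riemannZeta₁ {s : ℂ | 0 < s.re} :=
    (differentiable_riemannZeta₁.differentiableOn).analyticOnNhd hU
  have hB : AnalyticOnNhd ℂ (fun s => 1 + ∑' n, vt n s) {s : ℂ | 0 < s.re} := by
    refine DifferentiableOn.analyticOnNhd ?_ hU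
    intro z hz
    exact ((vt_tsum_differentiableAt hz).const_add 1).differentiableWithinAt
  have hpre : IsPreconnected {s : ℂ | 0 < s.re} := (convex_halfSpace_re_gt 0).isPreconnected
  have hmem : (2 : ℂ) ∈ {s : ℂ | 0 < s.re} := by simp
  have heq : riemannZeta₁ =ᶠ[𝓝 2] fun s => 1 + ∑' n, vt n s := by
    have : {s : ℂ | 1 < s.re} ∈ 𝓝 (2 : ℂ) :=
      (isOpen_lt continuous_const continuous_re).mem_nhds (by simp)
    filter_upwards [this] with z hz
    have hz1 : z ≠ 1 := by rintro rfl; simp at hz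
    rw [vt_tsum_of_one_lt hz]
    rw [riemannZeta_eq_inv_sub_mul hz1]
    have : z - 1 ≠ 0 := sub_ne_zero.2 hz1
    field_simp
    ring
  have h2 := hA.eqOn_of_preconnected_of_eventuallyEq hB hpre hmem heq hs
  simp only at h2
  rw [← h2, riemannZeta_eq_inv_sub_mul h1]
  have : s - 1 ≠ 0 := sub_ne_zero.2 h1
  field_simp

/-- Polynomial growth of `ζ` in the half plane `Re s ≥ 1/2`. -/
lemma zeta_growth : ∃ C : ℝ, 1 ≤ C ∧ ∀ s : ℂ, 1/2 ≤ s.re → s ≠ 1 →
    ‖riemannZeta s‖ ≤ 1 / ‖s - 1‖ + C * ‖s‖ := by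
  set C := ∑' n : ℕ, ((n : ℝ) + 1) ^ (-(1/2 : ℝ) - 1) with hC
  have hsum := rpow_summable (show (0:ℝ) < 1/2 by norm_num)
  refine ⟨C, ?_, ?_⟩
  · have := hsum.le_tsum 0 (fun n _ => by positivity)
    simpa [hC] using this
  · intro s hs h1
    have hs0 : 0 < s.re := by linarith
    have hne : 0 < ‖s - 1‖ := norm_pos_iff.2 (sub_ne_zero.2 h1)
    have h2 : ‖(s - 1) * riemannZeta s‖ ≤ 1 + ‖s - 1‖ * ‖s‖ * C := by
      rw [zeta_formula hs0 h1]
      refine (norm_add_le _ _).trans ?_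
      rw [norm_one]
      gcongr
      rw [hC, ← tsum_mul_left]
      refine tsum_of_norm_bounded (hsum.mul_left _).hasSum ?_
      intro n
      refine (vt_bound n s (by linarith)).trans ?_
      have : ((n : ℝ) + 1) ^ (-s.re - 1) ≤ ((n : ℝ) + 1) ^ (-(1/2:ℝ) - 1) :=
        Real.rpow_le_rpow_of_exponent_le (by linarith [Nat.cast_nonneg (α := ℝ) n]) (by linarith)
      gcongr
    rw [norm_mul] at h2
    have h3 : ‖riemannZeta s‖ ≤ (1 + ‖s - 1‖ * ‖s‖ * C) / ‖s - 1‖ := by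
      rw [le_div_iff₀ hne, mul_comm]; exact h2
    refine h3.trans (le_of_eq ?_)
    field_simp

/-- `‖ζ(s)‖ ≤ C‖s‖` for `Re s ≥ 1/2`, away from `1`. -/
lemma zeta_growth' : ∃ C : ℝ, 1 ≤ C ∧ ∀ s : ℂ, 1/2 ≤ s.re → 1/2 ≤ ‖s - 1‖ →
    ‖riemannZeta s‖ ≤ C * ‖s‖ := by
  obtain ⟨C, hC1, hC⟩ := zeta_growth
  refine ⟨C + 4, by linarith, ?_⟩
  intro s hs h1
  have hne : s ≠ 1 := by rintro rfl; norm_num at h1
  refine (hC s hs hne).trans ?_
  have h2 : 1 / ‖s - 1‖ ≤ 2 := by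
    rw [div_le_iff₀ (by linarith)]; linarith
  have h3 : 1/2 ≤ ‖s‖ := hs.trans ((le_abs_self _).trans (abs_re_le_norm s))
  nlinarith

end LZX
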