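import Pool.Agent.Lib.MP_0f5a55_nt.D0
import Pool.Agent.Lib.MP_0f5a55_nt.X1

open Complex MeasureTheory Set Filter Topology
open scoped ComplexConjugate

namespace LZ

/-- from zeta_formula and vt_bound (LZX, file X1): |zeta s| <= 1/|s-1| + |s| sum (n+1)^(-Re s-1) for Re s <= 3,
and |zeta s| <= zeta(3) beyond. -/
theorem zeta_pol : ∃ C : ℝ, 0 < C ∧ ∀ s : ℂ, 5/16 ≤ s.re → 1/4 ≤ ‖s - 1‖ →
    ‖riemannZeta s‖ ≤ C * (1 + |s.im|) := by
  set C1 := ∑' n : ℕ, ((n : ℝ) + 1) ^ (-(5/16 : ℝ) - 1) with hC1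
  set C2 := ∑' n : ℕ, ((n : ℝ) + 1) ^ (-(2 : ℝ) - 1) with hC2
  have hsum1 := LZX.rpow_summable (show (0:ℝ) < 5/16 by norm_num)
  have hsum2 := LZX.rpow_summable (show (0:ℝ) < 2 by norm_num)
  have hC10 : 0 ≤ C1 := tsum_nonneg (fun n => by positivity)
  have hC20 : 0 ≤ C2 := tsum_nonneg (fun n => by positivity)
  refine ⟨4 + 3 * C1 + C2, by positivity, ?_⟩
  intro s hs hs1
  have him : 0 ≤ |s.im| := abs_nonneg _
  have hne : s ≠ 1 := by rintro rfl; norm_num at hs1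
  by_cases h3 : s.re ≤ 3
  · have hs0 : 0 < s.re := by linarith
    have hnp : 0 < ‖s - 1‖ := norm_pos_iff.2 (sub_ne_zero.2 hne)
    have h2 : ‖(s - 1) * riemannZeta s‖ ≤ 1 + ‖s - 1‖ * ‖s‖ * C1 := by
      rw [LZX.zeta_formula hs0 hne]
      refine (norm_add_le _ _).trans ?_
      rw [norm_one]
      gcongr
      rw [hC1, ← tsum_mul_left]
      refine tsum_of_norm_bounded (hsum1.mul_left _).hasSum ?_
      intro n
      refine (LZX.vt_bound n s (by linarith)).trans ?_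
      have : ((n : ℝ) + 1) ^ (-s.re - 1) ≤ ((n : ℝ) + 1) ^ (-(5/16:ℝ) - 1) :=
        Real.rpow_le_rpow_of_exponent_le (by linarith [Nat.cast_nonneg (α := ℝ) n]) (by linarith)
      gcongr
    rw [norm_mul] at h2
    have h4 : ‖riemannZeta s‖ ≤ 1 / ‖s - 1‖ + ‖s‖ * C1 := by
      have h5 : ‖riemannZeta s‖ ≤ (1 + ‖s - 1‖ * ‖s‖ * C1) / ‖s - 1‖ := by
        rw [le_div_iff₀ hnp, mul_comm]; exact h2
      refine h5.trans (le_of_eq ?_)
      field_simp
    have h6 : 1 / ‖s - 1‖ ≤ 4 := by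
      rw [div_le_iff₀ hnp]; linarith
    have h7 : ‖s‖ ≤ 3 + |s.im| := by
      refine (Complex.norm_le_abs_re_add_abs_im s).trans ?_
      rw [abs_of_pos hs0]; linarith
    have h8 : ‖s‖ * C1 ≤ (3 + |s.im|) * C1 := mul_le_mul_of_nonneg_right h7 hC10
    have h9 : 0 ≤ C1 * |s.im| := mul_nonneg hC10 him
    have h10 : 0 ≤ C2 * |s.im| := mul_nonneg hC20 him
    nlinarith
  · have h1 : 1 < s.re := by linarith [not_le.mp h3]
    have h4 : ‖riemannZeta s‖ ≤ C2 := by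
      rw [zeta_eq_tsum_one_div_nat_add_one_cpow h1]
      refine tsum_of_norm_bounded hsum2.hasSum ?_
      intro n
      have hc : ((n : ℂ) + 1) = (((n : ℝ) + 1 : ℝ) : ℂ) := by push_cast; ring
      rw [norm_div, norm_one, hc, Complex.norm_cpow_eq_rpow_re_of_pos (by positivity), one_div,
        ← Real.rpow_neg (by positivity)]
      apply Real.rpow_le_rpow_of_exponent_le (by linarith [Nat.cast_nonneg (α := ℝ) n])
      linarith [not_le.mp h3]
    have h9 : 0 ≤ C1 * |s.im| := mul_nonneg hC10 him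
    have h10 : 0 ≤ C2 * |s.im| := mul_nonneg hC20 him
    nlinarith

end LZ
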