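import Pool.Agent.Lib.MP_0f5a55_nt.D0
import Pool.Agent.Lib.MP_0f5a55_nt.A03
import Pool.Agent.Lib.MP_0f5a55_nt.A04

open Complex MeasureTheory Set Filter Topology
open scoped ComplexConjugate

namespace LZ

theorem A05_polar (ε : ℝ) (h k : ℕ) : WW ε h k =
    ((2 * Real.pi * (h / k) : ℝ) : ℂ) *
      (Complex.cos ((Real.pi / 2 - ε : ℝ) : ℂ) + Complex.sin ((Real.pi / 2 - ε : ℝ) : ℂ) * I) := by
  have h1 : exp (-((ε : ℂ) * I)) = (Real.cos ε : ℂ) - (Real.sin ε : ℂ) * I := by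
    have h2 : -((ε : ℂ) * I) = ((-ε : ℝ) : ℂ) * I := by push_cast; ring
    rw [h2, Complex.exp_mul_I, ← Complex.ofReal_cos, ← Complex.ofReal_sin, Real.cos_neg,
      Real.sin_neg]
    push_cast; ring
  have h3 : Complex.cos ((Real.pi / 2 - ε : ℝ) : ℂ) = (Real.sin ε : ℂ) := by
    rw [← Complex.ofReal_cos, Real.cos_pi_div_two_sub]
  have h4 : Complex.sin ((Real.pi / 2 - ε : ℝ) : ℂ) = (Real.cos ε : ℂ) := by
    rw [← Complex.ofReal_sin, Real.sin_pi_div_two_sub]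
  unfold WW
  rw [h1, h3, h4]
  push_cast
  linear_combination (-(2 * (Real.pi : ℂ) * (h / k) * Complex.sin ε)) * Complex.I_mul_I

/-- the norm of `WW ^ (-s)` -/
theorem A05_norm {ε : ℝ} (hε : 0 < ε) (hε1 : ε ≤ 1/2) {h k : ℕ} (hh : 1 ≤ h) (hk : 1 ≤ k) (s : ℂ) :
    ‖(WW ε h k) ^ (-s)‖ = (2 * Real.pi * (h / k)) ^ (-s.re) * Real.exp ((Real.pi / 2 - ε) * s.im) := by
  have h4 : (0 : ℝ) < h := by exact_mod_cast hh
  have h5 : (0 : ℝ) < k := by exact_mod_cast hk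
  have hr : 0 < 2 * Real.pi * ((h : ℝ) / k) := by positivity
  have hpi := Real.pi_gt_three
  have harg : (WW ε h k).arg = Real.pi / 2 - ε := by
    rw [A05_polar]
    exact Complex.arg_mul_cos_add_sin_mul_I hr ⟨by linarith, by linarith⟩
  have hnorm : ‖WW ε h k‖ = 2 * Real.pi * ((h : ℝ) / k) := by
    rw [A05_polar, norm_mul, Complex.norm_real, Complex.norm_cos_add_sin_mul_I, mul_one,
      Real.norm_of_nonneg hr.le]
  have hne : WW ε h k ≠ 0 := by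
    intro h0
    rw [h0, norm_zero] at hnorm
    linarith
  rw [Complex.norm_cpow_of_ne_zero hne, harg, hnorm, neg_re, neg_im, div_eq_mul_inv, ← Real.exp_neg]
  congr 2
  ring

/-- for `0 ≤ Re s ≤ 2` -/
theorem A05_norm_le {ε : ℝ} (hε : 0 < ε) (hε1 : ε ≤ 1/2) {h k : ℕ} (hh : 1 ≤ h) (hk : 1 ≤ k) (s : ℂ)
    (hs0 : 0 ≤ s.re) (hs2 : s.re ≤ 2) :
    ‖(WW ε h k) ^ (-s)‖ ≤ ((h : ℝ) * k) ^ 2 * Real.exp ((Real.pi / 2 - ε) * s.im) := by
  rw [A05_norm hε hε1 hh hk]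
  apply mul_le_mul_of_nonneg_right _ (Real.exp_nonneg _)
  have h4 : (1 : ℝ) ≤ h := by exact_mod_cast hh
  have h5 : (1 : ℝ) ≤ k := by exact_mod_cast hk
  have hpi := Real.pi_gt_three
  have hr : 0 < 2 * Real.pi * ((h : ℝ) / k) := by positivity
  rw [Real.rpow_neg hr.le, ← Real.inv_rpow hr.le]
  have h6 : (2 * Real.pi * ((h : ℝ) / k))⁻¹ ≤ (h : ℝ) * k := by
    rw [inv_le_iff_one_le_mul₀ hr]
    have h7 : (h : ℝ) * k * (2 * Real.pi * ((h : ℝ) / k)) = 2 * Real.pi * ((h : ℝ) * h) := by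
      field_simp
    rw [h7]
    nlinarith
  have hhk : (1 : ℝ) ≤ (h : ℝ) * k := by nlinarith
  calc ((2 * Real.pi * ((h : ℝ) / k))⁻¹) ^ s.re ≤ ((h : ℝ) * k) ^ s.re :=
        Real.rpow_le_rpow (by positivity) h6 hs0
    _ ≤ ((h : ℝ) * k) ^ (2 : ℝ) := Real.rpow_le_rpow_of_exponent_le hhk hs2
    _ = ((h : ℝ) * k) ^ 2 := Real.rpow_two _

/-- growth in the half strip; |WW^(-s)| = (2 pi h/k)^(-Re s) exp((pi/2-eps) Im s). -/
theorem G_bound (U : ℝ) (hU : 0 ≤ U) : ∃ C : ℝ, 0 < C ∧ ∀ ε : ℝ, 0 < ε → ε ≤ 1/2 → ∀ h k : ℕ, 1 ≤ h → 1 ≤ k →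
    ∀ η : ℂ, |η.re| ≤ 1/8 → |η.im| ≤ 2 * U → ∀ s : ℂ, 7/16 ≤ s.re → s.re ≤ 2 → 2 * U + 2 ≤ s.im →
    ‖riemannZeta (s + η) * riemannZeta s * Gamma s * (WW ε h k) ^ (-s)‖ ≤
      C * ((h : ℝ) * k) ^ 2 * (1 + s.im) ^ 5 * Real.exp (-(ε * s.im)) := by
  obtain ⟨C0, hC0, hz⟩ := zeta_pol
  obtain ⟨C4, hC4, hG⟩ := Gamma_strip
  refine ⟨2 * C0 ^ 2 * C4, by positivity, ?_⟩
  intro ε hε hε1 h k hh hk η hηre hηim s hs1 hs2 hs3
  have hη1 := abs_le.mp hηre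
  have hη2 := abs_le.mp hηim
  have hy0 : 0 ≤ s.im := by linarith
  have a1 : ‖riemannZeta (s + η)‖ ≤ C0 * (2 * (1 + s.im)) := by
    refine (hz (s + η) (by rw [add_re]; linarith) ?_).trans ?_
    · have h1 := Complex.abs_im_le_norm (s + η - 1)
      rw [sub_im, add_im, one_im, sub_zero, abs_of_nonneg (by linarith)] at h1
      linarith
    · rw [add_im, abs_of_nonneg (by linarith)]
      apply mul_le_mul_of_nonneg_left _ hC0.le
      linarith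
  have a2 : ‖riemannZeta s‖ ≤ C0 * (1 + s.im) := by
    refine (hz s (by linarith) ?_).trans ?_
    · have h1 := Complex.abs_im_le_norm (s - 1)
      rw [sub_im, one_im, sub_zero, abs_of_nonneg hy0] at h1
      linarith
    · rw [abs_of_nonneg hy0]
  have a3 : ‖Gamma s‖ ≤ C4 * (1 + s.im) ^ 3 * Real.exp (-(Real.pi / 2 * s.im)) := by
    have h1 := hG s.re s.im (by linarith) (by linarith)
    rw [Complex.re_add_im, abs_of_nonneg hy0] at h1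
    exact h1
  have a4 := A05_norm_le hε hε1 hh hk s (by linarith) hs2
  rw [norm_mul, norm_mul, norm_mul]
  calc ‖riemannZeta (s + η)‖ * ‖riemannZeta s‖ * ‖Gamma s‖ * ‖(WW ε h k) ^ (-s)‖
      ≤ (C0 * (2 * (1 + s.im))) * (C0 * (1 + s.im)) *
        (C4 * (1 + s.im) ^ 3 * Real.exp (-(Real.pi / 2 * s.im))) *
        (((h : ℝ) * k) ^ 2 * Real.exp ((Real.pi / 2 - ε) * s.im)) := by
        gcongr
    _ = 2 * C0 ^ 2 * C4 * ((h : ℝ) * k) ^ 2 * (1 + s.im) ^ 5 *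
        (Real.exp (-(Real.pi / 2 * s.im)) * Real.exp ((Real.pi / 2 - ε) * s.im)) := by ring
    _ = _ := by
        rw [← Real.exp_add]
        congr 2
        ring

end LZ
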