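import Pool.Agent.Lib.MP_0f5a55_nt.D0

open Complex MeasureTheory Set Filter Topology
open scoped ComplexConjugate

namespace LZ

theorem A06_bd {ε : ℝ} (hε : 0 < ε) (Y : ℝ) : ∃ K : ℝ, 0 ≤ K ∧ ∀ y : ℝ, Y ≤ y →
    (1 + |y|) ^ 5 * Real.exp (-(ε * y)) ≤ K * Real.exp (-(ε / 2) * y) := by
  refine ⟨(10 / ε) ^ 5 * Real.exp (ε / 2 + ε * |Y|), by positivity, ?_⟩
  intro y hy
  have h0 : 0 ≤ |y| := abs_nonneg y
  have h1 : ε / 10 * (1 + |y|) ≤ Real.exp (ε / 10 * (1 + |y|)) := by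
    have := Real.add_one_le_exp (ε / 10 * (1 + |y|)); linarith
  have h2 : 1 + |y| ≤ 10 / ε * Real.exp (ε / 10 * (1 + |y|)) := by
    have h3 : 1 + |y| = 10 / ε * (ε / 10 * (1 + |y|)) := by field_simp
    calc 1 + |y| = 10 / ε * (ε / 10 * (1 + |y|)) := h3
      _ ≤ _ := mul_le_mul_of_nonneg_left h1 (by positivity)
  have h4 : (1 + |y|) ^ 5 ≤ (10 / ε) ^ 5 * Real.exp (ε / 2 * (1 + |y|)) := by
    calc (1 + |y|) ^ 5 ≤ (10 / ε * Real.exp (ε / 10 * (1 + |y|))) ^ 5 :=
          pow_le_pow_left₀ (by linarith) h2 5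
      _ = (10 / ε) ^ 5 * Real.exp (ε / 2 * (1 + |y|)) := by
        rw [mul_pow, ← Real.exp_nat_mul]
        congr 2
        push_cast; ring
  have h5 : |y| ≤ y + 2 * |Y| := by
    rcases le_or_gt 0 y with h | h
    · rw [abs_of_nonneg h]; linarith [abs_nonneg Y]
    · rw [abs_of_neg h]
      have : -Y ≤ |Y| := neg_le_abs Y
      linarith
  calc (1 + |y|) ^ 5 * Real.exp (-(ε * y))
      ≤ ((10 / ε) ^ 5 * Real.exp (ε / 2 * (1 + |y|))) * Real.exp (-(ε * y)) := by gcongr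
    _ = (10 / ε) ^ 5 * Real.exp (ε / 2 * (1 + |y|) + -(ε * y)) := by rw [mul_assoc, ← Real.exp_add]
    _ ≤ (10 / ε) ^ 5 * Real.exp ((ε / 2 + ε * |Y|) + -(ε / 2) * y) := by
      apply mul_le_mul_of_nonneg_left _ (by positivity)
      rw [Real.exp_le_exp]
      nlinarith
    _ = _ := by rw [Real.exp_add, mul_assoc]

/-- shift of a half line; Cauchy on the rectangle [a,b] x [Y,R], R to infinity. -/
theorem half_shift {a b Y : ℝ} (hab : a ≤ b) {F : ℂ → ℂ}
    (hF : ∀ s : ℂ, a ≤ s.re → s.re ≤ b → Y ≤ s.im → DifferentiableAt ℂ F s) {C ε : ℝ} (hε : 0 < ε)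
    (hC : ∀ s : ℂ, a ≤ s.re → s.re ≤ b → Y ≤ s.im → ‖F s‖ ≤ C * (1 + |s.im|) ^ 5 * Real.exp (-(ε * s.im)))
    {D : ℝ} (hD : ∀ x ∈ Icc a b, ‖F (x + Y * I)‖ ≤ D) :
    ‖(∫ y in Ioi Y, F (a + y * I)) - ∫ y in Ioi Y, F (b + y * I)‖ ≤ (b - a) * D := by
  obtain ⟨K, hK0, hK⟩ := A06_bd hε Y
  have hre : ∀ x y : ℝ, ((x : ℂ) + y * I).re = x := fun x y => by simp
  have him : ∀ x y : ℝ, ((x : ℂ) + y * I).im = y := fun x y => by simp
  have hC0 : 0 ≤ C := by
    have h1 := hC (a + Y * I) (by rw [hre]) (by rw [hre]; exact hab) (by rw [him])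
    by_contra hneg
    push Not at hneg
    have h2 : C * (1 + |((a : ℂ) + Y * I).im|) ^ 5 * Real.exp (-(ε * ((a : ℂ) + Y * I).im)) < 0 := by
      rw [him, mul_assoc]
      have h3 : 0 < (1 + |Y|) ^ 5 * Real.exp (-(ε * Y)) := by positivity
      exact mul_neg_of_neg_of_pos hneg h3
    linarith [norm_nonneg (F (a + Y * I))]
  have hbd : ∀ x ∈ Icc a b, ∀ y : ℝ, Y ≤ y → ‖F (x + y * I)‖ ≤ C * K * Real.exp (-(ε / 2) * y) := by
    intro x hx y hy
    have h1 := hC (x + y * I) (by rw [hre]; exact hx.1) (by rw [hre]; exact hx.2) (by rw [him]; exact hy)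
    rw [him] at h1
    calc ‖F (x + y * I)‖ ≤ C * ((1 + |y|) ^ 5 * Real.exp (-(ε * y))) := by rw [← mul_assoc]; exact h1
      _ ≤ C * (K * Real.exp (-(ε / 2) * y)) := mul_le_mul_of_nonneg_left (hK y hy) hC0
      _ = _ := by ring
  have hint : ∀ x ∈ Icc a b, IntegrableOn (fun y : ℝ => F (x + y * I)) (Ioi Y) := by
    intro x hx
    refine Integrable.mono' ((exp_neg_integrableOn_Ioi Y (half_pos hε)).const_mul (C * K)) ?_ ?_
    · refine ContinuousOn.aestronglyMeasurable (fun y hy => ?_) measurableSet_Ioi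
      have h1 : DifferentiableAt ℂ F (x + y * I) :=
        hF _ (by rw [hre]; exact hx.1) (by rw [hre]; exact hx.2) (by rw [him]; exact le_of_lt hy)
      exact (ContinuousAt.comp (f := fun y : ℝ => (x : ℂ) + y * I) (g := F) h1.continuousAt
        (by fun_prop)).continuousWithinAt
    · rw [ae_restrict_iff' measurableSet_Ioi]
      exact Filter.Eventually.of_forall (fun y hy => hbd x hx y (le_of_lt hy))
  have hrect : ∀ R : ℝ, Y ≤ R →
      (∫ x in a..b, F (x + Y * I)) - (∫ x in a..b, F (x + R * I)) =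
        I * ((∫ y in Y..R, F (a + y * I)) - ∫ y in Y..R, F (b + y * I)) := by
    intro R hR
    have h1 := integral_boundary_rect_eq_zero_of_differentiableOn F (a + Y * I) (b + R * I) ?_
    · rw [hre, hre, him, him, smul_eq_mul, smul_eq_mul] at h1
      linear_combination h1
    · rw [hre, hre, him, him, uIcc_of_le hab, uIcc_of_le hR]
      intro s hs
      exact (hF s hs.1.1 hs.1.2 hs.2.1).differentiableWithinAt
  have ha : a ∈ Icc a b := left_mem_Icc.mpr hab
  have hb : b ∈ Icc a b := right_mem_Icc.mpr hab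
  have l1 : Tendsto (fun R : ℝ => ∫ y in Y..R, F (a + y * I)) atTop (𝓝 (∫ y in Ioi Y, F (a + y * I))) :=
    intervalIntegral_tendsto_integral_Ioi Y (hint a ha) tendsto_id
  have l2 : Tendsto (fun R : ℝ => ∫ y in Y..R, F (b + y * I)) atTop (𝓝 (∫ y in Ioi Y, F (b + y * I))) :=
    intervalIntegral_tendsto_integral_Ioi Y (hint b hb) tendsto_id
  have l3 : Tendsto (fun R : ℝ => ∫ x in a..b, F (x + R * I)) atTop (𝓝 0) := by
    rw [tendsto_zero_iff_norm_tendsto_zero]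
    have h1 : Tendsto (fun R : ℝ => C * K * Real.exp (-(ε / 2) * R) * |b - a|) atTop (𝓝 0) := by
      have h2 : Tendsto (fun R : ℝ => Real.exp (-(ε / 2) * R)) atTop (𝓝 0) := by
        rw [Real.tendsto_exp_comp_nhds_zero]
        exact tendsto_id.const_mul_atTop_of_neg (by linarith)
      have h3 := (h2.const_mul (C * K)).mul_const (|b - a|)
      simpa using h3
    refine squeeze_zero' (Filter.Eventually.of_forall (fun R => norm_nonneg _)) ?_ h1
    filter_upwards [eventually_ge_atTop Y] with R hR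
    apply intervalIntegral.norm_integral_le_of_norm_le_const
    intro x hx
    rw [uIoc_of_le hab] at hx
    exact hbd x ⟨le_of_lt hx.1, hx.2⟩ R hR
  have l4 : Tendsto (fun R : ℝ => (∫ x in a..b, F (x + Y * I)) - (∫ x in a..b, F (x + R * I))) atTop
      (𝓝 ((∫ x in a..b, F (x + Y * I)) - 0)) := l3.const_sub _
  have l5 : Tendsto (fun R : ℝ => I * ((∫ y in Y..R, F (a + y * I)) - ∫ y in Y..R, F (b + y * I))) atTop
      (𝓝 (I * ((∫ y in Ioi Y, F (a + y * I)) - ∫ y in Ioi Y, F (b + y * I)))) :=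
    (l1.sub l2).const_mul I
  have l6 : Tendsto (fun R : ℝ => (∫ x in a..b, F (x + Y * I)) - (∫ x in a..b, F (x + R * I))) atTop
      (𝓝 (I * ((∫ y in Ioi Y, F (a + y * I)) - ∫ y in Ioi Y, F (b + y * I)))) := by
    refine l5.congr' ?_
    filter_upwards [eventually_ge_atTop Y] with R hR
    exact (hrect R hR).symm
  have heq := tendsto_nhds_unique l4 l6
  rw [sub_zero] at heq
  have hnorm : ‖(∫ y in Ioi Y, F (a + y * I)) - ∫ y in Ioi Y, F (b + y * I)‖ =
      ‖∫ x in a..b, F (x + Y * I)‖ := by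
    rw [heq, norm_mul, norm_I, one_mul]
  rw [hnorm]
  have hfin : ‖∫ x in a..b, F (x + Y * I)‖ ≤ D * |b - a| := by
    apply intervalIntegral.norm_integral_le_of_norm_le_const
    intro x hx
    rw [uIoc_of_le hab] at hx
    exact hD x ⟨le_of_lt hx.1, hx.2⟩
  rw [abs_of_nonneg (by linarith : 0 ≤ b - a)] at hfin
  linarith

end LZ
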