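import Pool.Agent.Lib.MP_0f5a55_nt.D0
import Pool.Agent.Lib.MP_0f5a55_nt.A05
import Pool.Agent.Lib.MP_0f5a55_nt.A06

open Complex MeasureTheory Set Filter Topology
open scoped ComplexConjugate

namespace LZ

/-- (3.2) upper half lines: half_shift between Re = sigma and Re = 2 at height 2U+2. -/
theorem G_shift (U : ℝ) (hU : 0 ≤ U) : ∃ C : ℝ, 0 < C ∧ ∀ ε : ℝ, 0 < ε → ε ≤ 1/2 → ∀ h k : ℕ, 1 ≤ h → 1 ≤ k →
    ∀ η : ℂ, |η.re| ≤ 1/8 → |η.im| ≤ 2 * U → ∀ σ : ℝ, 7/16 ≤ σ → σ ≤ 2 →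
    ‖(∫ y in Ioi (2 * U + 2), riemannZeta (σ + y * I + η) * riemannZeta (σ + y * I) * Gamma (σ + y * I) *
        (WW ε h k) ^ (-(σ + y * I : ℂ))) -
      ∫ y in Ioi (2 * U + 2), riemannZeta (2 + y * I + η) * riemannZeta (2 + y * I) * Gamma (2 + y * I) *
        (WW ε h k) ^ (-(2 + y * I : ℂ))‖ ≤ C * ((h : ℝ) * k) ^ 2 := by
  obtain ⟨C, hC, hG⟩ := G_bound U hU
  refine ⟨2 * (C * (2 * U + 3) ^ 5), by positivity, ?_⟩
  intro ε hε hε1 h k hh hk η hηre hηim σ hσ1 hσ2
  have hη2 := abs_le.mp hηim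
  have hW : WW ε h k ≠ 0 := by
    have h4 : (0 : ℝ) < h := by exact_mod_cast hh
    have h5 : (0 : ℝ) < k := by exact_mod_cast hk
    unfold WW
    have h6 : (h : ℂ) ≠ 0 := by exact_mod_cast h4.ne'
    have h7 : (k : ℂ) ≠ 0 := by exact_mod_cast h5.ne'
    have h8 : (Real.pi : ℂ) ≠ 0 := by exact_mod_cast Real.pi_ne_zero
    exact div_ne_zero (mul_ne_zero (mul_ne_zero (mul_ne_zero (mul_ne_zero two_ne_zero h8) I_ne_zero)
      (exp_ne_zero _)) h6) h7
  have hmain := half_shift (a := σ) (b := 2) (Y := 2 * U + 2) hσ2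
    (F := fun s => riemannZeta (s + η) * riemannZeta s * Gamma s * (WW ε h k) ^ (-s))
    (C := C * ((h : ℝ) * k) ^ 2) (ε := ε) (D := C * ((h : ℝ) * k) ^ 2 * (2 * U + 3) ^ 5) ?_ hε ?_ ?_
  · simp only [Complex.ofReal_ofNat] at hmain
    refine hmain.trans ?_
    have h1 : 0 ≤ C * ((h : ℝ) * k) ^ 2 * (2 * U + 3) ^ 5 := by positivity
    calc (2 - σ) * (C * ((h : ℝ) * k) ^ 2 * (2 * U + 3) ^ 5)
        ≤ 2 * (C * ((h : ℝ) * k) ^ 2 * (2 * U + 3) ^ 5) :=
          mul_le_mul_of_nonneg_right (by linarith) h1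
      _ = _ := by ring
  · intro s hs1 hs2 hs3
    have h1 : s + η ≠ 1 := by
      intro h0
      have := congrArg Complex.im h0
      rw [add_im, one_im] at this
      linarith [hη2.1]
    have h2 : s ≠ 1 := by
      intro h0
      have := congrArg Complex.im h0
      rw [one_im] at this
      linarith
    have h3 : ∀ m : ℕ, s ≠ -m := by
      intro m h0
      have := congrArg Complex.im h0
      simp at this
      linarith
    have d1 : DifferentiableAt ℂ (fun s => riemannZeta (s + η)) s :=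
      DifferentiableAt.comp (f := fun s : ℂ => s + η) (g := riemannZeta) s
        (differentiableAt_riemannZeta h1) (by fun_prop)
    have d4 : DifferentiableAt ℂ (fun s => (WW ε h k) ^ (-s)) s :=
      DifferentiableAt.const_cpow (by fun_prop) (Or.inl hW)
    exact ((d1.mul (differentiableAt_riemannZeta h2)).mul (differentiableAt_Gamma s h3)).mul d4
  · intro s hs1 hs2 hs3
    have h0 : 0 ≤ s.im := by linarith
    rw [abs_of_nonneg h0]
    exact hG ε hε hε1 h k hh hk η hηre hηim s (by linarith) hs2 hs3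
  · intro x hx
    have hre : ((x : ℂ) + ((2 * U + 2 : ℝ) : ℂ) * I).re = x := by simp
    have him : ((x : ℂ) + ((2 * U + 2 : ℝ) : ℂ) * I).im = 2 * U + 2 := by simp
    have h1 := hG ε hε hε1 h k hh hk η hηre hηim (x + ((2 * U + 2 : ℝ) : ℂ) * I)
      (by rw [hre]; linarith [hx.1]) (by rw [hre]; exact hx.2) (by rw [him])
    rw [him] at h1
    refine h1.trans ?_
    have h2 : Real.exp (-(ε * (2 * U + 2))) ≤ 1 := by
      rw [Real.exp_le_one_iff]
      have : 0 ≤ ε * (2 * U + 2) := by positivity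
      linarith
    calc C * ((h : ℝ) * k) ^ 2 * (1 + (2 * U + 2)) ^ 5 * Real.exp (-(ε * (2 * U + 2)))
        ≤ C * ((h : ℝ) * k) ^ 2 * (1 + (2 * U + 2)) ^ 5 * 1 :=
          mul_le_mul_of_nonneg_left h2 (by positivity)
      _ = _ := by ring

end LZ
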