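import Pool.Agent.Lib.MP_0f5a55_nt.D0
import Pool.Agent.Lib.MP_0f5a55_nt.A01
import Pool.Agent.Lib.MP_0f5a55_nt.A02
import Pool.Agent.Lib.MP_0f5a55_nt.A03
import Pool.Agent.Lib.MP_0f5a55_nt.A07
import Pool.Agent.Lib.MP_0f5a55_nt.A08

open Complex MeasureTheory Set Filter Topology
open scoped ComplexConjugate

namespace LZ

/-- the function on the vertical lines -/
noncomputable def A09_G (η W s : ℂ) : ℂ := riemannZeta (s + η) * riemannZeta s * Gamma s * W ^ (-s)

/-- the integrand -/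
noncomputable def A09_F (ε : ℝ) (h k : ℕ) (α β : ℂ) (t : ℝ) : ℂ :=
  riemannZeta (1/2 + α + t * I) * riemannZeta (1/2 + β - t * I) *
          ((h : ℂ) ^ (-(t * I)) * (k : ℂ) ^ (t * I)) * (Real.exp (-(ε * t)) : ℂ)

/-- the constant factor -/
noncomputable def A09_K (ε : ℝ) (h k : ℕ) (β : ℂ) : ℂ :=
  (h : ℂ) ^ (-(1/2 - β)) * (k : ℂ) ^ (1/2 - β) * exp (ε * (1/2 - β) * I)

theorem A09_WW_re {ε : ℝ} (hε : 0 < ε) (hε1 : ε ≤ 1/2) {h k : ℕ} (hh : 1 ≤ h) (hk : 1 ≤ k) :
    0 < (WW ε h k).re := by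
  have h1 : exp (-((ε : ℂ) * I)) = (Real.cos ε : ℂ) - (Real.sin ε : ℂ) * I := by
    have h2 : -((ε : ℂ) * I) = ((-ε : ℝ) : ℂ) * I := by push_cast; ring
    rw [h2, Complex.exp_mul_I, ← Complex.ofReal_cos, ← Complex.ofReal_sin, Real.cos_neg,
      Real.sin_neg]
    push_cast; ring
  have h2 : WW ε h k = ((2 * Real.pi * (h / k) * Real.sin ε : ℝ) : ℂ) +
      ((2 * Real.pi * (h / k) * Real.cos ε : ℝ) : ℂ) * I := by
    unfold WW
    rw [h1]
    push_cast
    linear_combination (-(2 * (Real.pi : ℂ) * (h / k) * Complex.sin ε)) * Complex.I_mul_I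
  rw [h2]
  simp only [add_re, ofReal_re, mul_re, I_re, mul_zero, ofReal_im, I_im, mul_one, sub_self, add_zero]
  have h3 : 0 < Real.sin ε := Real.sin_pos_of_pos_of_lt_pi hε (by linarith [Real.pi_gt_three])
  have h4 : (0 : ℝ) < h := by exact_mod_cast hh
  have h5 : (0 : ℝ) < k := by exact_mod_cast hk
  positivity

theorem A09_form (ε : ℝ) {h k : ℕ} (hh : 1 ≤ h) (hk : 1 ≤ k) (α β : ℂ) (t : ℝ) :
    A09_F ε h k α β t * A09_K ε h k β =
      riemannZeta ((1/2 - β + t * I) + (α + β)) * riemannZeta (1 - (1/2 - β + t * I)) *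
        ((h : ℂ) ^ (-(1/2 - β + t * I)) * (k : ℂ) ^ (1/2 - β + t * I)) *
        exp (ε * (1/2 - β + t * I) * I) := by
  have hh0 : (h : ℂ) ≠ 0 := by exact_mod_cast (by omega : h ≠ 0)
  have hk0 : (k : ℂ) ≠ 0 := by exact_mod_cast (by omega : k ≠ 0)
  have e1 : (1/2 - β + t * I) + (α + β) = 1/2 + α + t * I := by ring
  have e2 : 1 - (1/2 - β + t * I) = 1/2 + β - t * I := by ring
  have e3 : (h : ℂ) ^ (-(1/2 - β + t * I)) = (h : ℂ) ^ (-(1/2 - β)) * (h : ℂ) ^ (-(t * I)) := by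
    rw [← Complex.cpow_add _ _ hh0]; congr 1; ring
  have e4 : (k : ℂ) ^ (1/2 - β + t * I) = (k : ℂ) ^ (1/2 - β) * (k : ℂ) ^ (t * I) := by
    rw [← Complex.cpow_add _ _ hk0]
  have e5 : exp (ε * (1/2 - β + t * I) * I) = exp (ε * (1/2 - β) * I) * (Real.exp (-(ε * t)) : ℂ) := by
    rw [Complex.ofReal_exp, ← Complex.exp_add]
    congr 1
    push_cast
    linear_combination (ε * t : ℂ) * Complex.I_mul_I
  rw [e1, e2, e3, e4, e5]
  unfold A09_F A09_K
  ring

theorem A09_exp_norm (s : ℂ) : ‖exp (Real.pi * s * I)‖ = Real.exp (-(Real.pi * s.im)) := by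
  rw [Complex.norm_exp]
  congr 1
  simp [mul_re, mul_im]

theorem A09_point {ε : ℝ} (hε : 0 < ε) (hε1 : ε ≤ 1/2) {h k : ℕ} (hh : 1 ≤ h) (hk : 1 ≤ k) (α β : ℂ)
    (t : ℝ) (ht : 1 ≤ (1/2 - β + t * I).im) :
    A09_F ε h k α β t * A09_K ε h k β =
      A09_G (α + β) (WW ε h k) (1/2 - β + t * I) +
      exp (Real.pi * (1/2 - β + t * I) * I) * A09_G (α + β) (WW ε h k) (1/2 - β + t * I) := by
  rw [A09_form ε hh hk]
  set s : ℂ := 1/2 - β + t * I with hs
  have hk1 := kernel_id ε hε hε1 h k hh hk s ht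
  have hne : 1 + exp (Real.pi * s * I) ≠ 0 := by
    intro h0
    have h1 : exp (Real.pi * s * I) = -1 := by linear_combination h0
    have h2 := A09_exp_norm s
    rw [h1, norm_neg, norm_one] at h2
    have h3 : Real.exp (-(Real.pi * s.im)) < 1 := by
      rw [Real.exp_lt_one_iff]
      have := Real.pi_pos
      nlinarith
    linarith
  have hk2 : riemannZeta (1 - s) * ((h : ℂ) ^ (-s) * (k : ℂ) ^ s) * exp (ε * s * I) =
      riemannZeta s * Gamma s * (WW ε h k) ^ (-s) * (1 + exp (Real.pi * s * I)) := by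
    rw [← hk1, mul_assoc _ _ (1 + exp (Real.pi * s * I)), inv_mul_cancel₀ hne, mul_one]
  unfold A09_G
  linear_combination (riemannZeta (s + (α + β))) * hk2

/-- elementary: `(1+y)^5 ≤ (5/a)^5 e^{a(1+y)}` -/
theorem A09_pow {a y : ℝ} (ha : 0 < a) (hy : 0 ≤ y) :
    (1 + y) ^ 5 ≤ (5 / a) ^ 5 * Real.exp (a * (1 + y)) := by
  have h1 : a / 5 * (1 + y) ≤ Real.exp (a / 5 * (1 + y)) := by
    have := Real.add_one_le_exp (a / 5 * (1 + y)); linarith
  have h2 : 1 + y ≤ 5 / a * Real.exp (a / 5 * (1 + y)) := by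
    have h3 : 1 + y = 5 / a * (a / 5 * (1 + y)) := by field_simp
    calc 1 + y = 5 / a * (a / 5 * (1 + y)) := h3
      _ ≤ _ := mul_le_mul_of_nonneg_left h1 (by positivity)
  calc (1 + y) ^ 5 ≤ (5 / a * Real.exp (a / 5 * (1 + y))) ^ 5 := pow_le_pow_left₀ (by linarith) h2 5
    _ = (5 / a) ^ 5 * Real.exp (a * (1 + y)) := by
      rw [mul_pow, ← Real.exp_nat_mul]
      congr 2
      push_cast; ring

theorem A09_int {ε Y : ℝ} (hε : 0 < ε) (hY : 0 ≤ Y) :
    IntegrableOn (fun y : ℝ => (1 + y) ^ 5 * Real.exp (-(ε * y))) (Ioi Y) := by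
  have h1 : IntegrableOn (fun y : ℝ => (10 / ε) ^ 5 * Real.exp (ε / 2) * Real.exp (-(ε / 2) * y))
      (Ioi Y) := (exp_neg_integrableOn_Ioi Y (by positivity : 0 < ε / 2)).const_mul _
  refine Integrable.mono' h1 (by fun_prop) ?_
  rw [ae_restrict_iff' measurableSet_Ioi]
  refine Filter.Eventually.of_forall (fun y hy => ?_)
  have hy0 : 0 ≤ y := hY.trans (le_of_lt hy)
  rw [Real.norm_of_nonneg (by positivity)]
  have h2 := A09_pow (a := ε / 2) (by positivity) hy0
  calc (1 + y) ^ 5 * Real.exp (-(ε * y))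
      ≤ ((5 / (ε / 2)) ^ 5 * Real.exp (ε / 2 * (1 + y))) * Real.exp (-(ε * y)) := by gcongr
    _ = (10 / ε) ^ 5 * Real.exp (ε / 2) * Real.exp (-(ε / 2) * y) := by
      have e1 : 5 / (ε / 2) = 10 / ε := by field_simp; norm_num
      rw [e1, mul_assoc, ← Real.exp_add, mul_assoc, ← Real.exp_add]
      congr 2; ring

theorem A09_zeta_cont (a : ℂ) (ha : a.re ≠ 1) :
    Continuous (fun t : ℝ => riemannZeta (a + t * I)) := by
  rw [continuous_iff_continuousAt]
  intro t
  have h1 : a + t * I ≠ 1 := by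
    intro h
    apply ha
    have := congrArg Complex.re h
    simpa using this
  exact ContinuousAt.comp (f := fun t : ℝ => a + t * I) (g := riemannZeta)
    (differentiableAt_riemannZeta h1).continuousAt (by fun_prop)

theorem A09_F_cont (ε : ℝ) {h k : ℕ} (hh : 1 ≤ h) (hk : 1 ≤ k) {α β : ℂ} (hα : |α.re| ≤ 1/16)
    (hβ : |β.re| ≤ 1/16) : Continuous (A09_F ε h k α β) := by
  have hh0 : (h : ℂ) ≠ 0 := by exact_mod_cast (by omega : h ≠ 0)
  have hk0 : (k : ℂ) ≠ 0 := by exact_mod_cast (by omega : k ≠ 0)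
  have h1 : Continuous (fun t : ℝ => riemannZeta (1/2 + α + t * I)) := by
    apply A09_zeta_cont
    have := (abs_le.mp hα).2
    simp only [add_re, one_div, inv_re, re_ofNat, normSq_ofNat]
    norm_num
    intro h; linarith
  have h2 : Continuous (fun t : ℝ => riemannZeta (1/2 + β - t * I)) := by
    have h3 : Continuous (fun t : ℝ => riemannZeta (1/2 + β + t * I)) := by
      apply A09_zeta_cont
      have := (abs_le.mp hβ).2
      simp only [add_re, one_div, inv_re, re_ofNat, normSq_ofNat]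
      norm_num
      intro h; linarith
    have h4 := h3.comp continuous_neg
    refine h4.congr (fun t => ?_)
    simp only [Function.comp]
    congr 1
    push_cast; ring
  have h3 : Continuous (fun t : ℝ => (h : ℂ) ^ (-(t * I))) :=
    Continuous.const_cpow (by fun_prop) (Or.inl hh0)
  have h4 : Continuous (fun t : ℝ => (k : ℂ) ^ (t * I)) :=
    Continuous.const_cpow (by fun_prop) (Or.inl hk0)
  unfold A09_F
  exact ((h1.mul h2).mul (h3.mul h4)).mul (by fun_prop)

theorem A09_G_cont {U : ℝ} (hU : 0 ≤ U) {η W : ℂ} (hη : |η.im| ≤ 2 * U) (hW : W ≠ 0) {σ : ℝ} :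
    ContinuousOn (fun y : ℝ => A09_G η W (σ + y * I)) (Ioi (2 * U + 2)) := by
  intro y hy
  rw [mem_Ioi] at hy
  have hηi := abs_le.mp hη
  have him : ((σ : ℂ) + y * I).im = y := by simp
  have hre : ((σ : ℂ) + y * I).re = σ := by simp
  have h1 : (σ : ℂ) + y * I + η ≠ 1 := by
    intro h
    have := congrArg Complex.im h
    rw [add_im, him, one_im] at this
    linarith [hηi.1]
  have h2 : (σ : ℂ) + y * I ≠ 1 := by
    intro h
    have := congrArg Complex.im h
    rw [him, one_im] at this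
    linarith
  have h3 : ∀ m : ℕ, (σ : ℂ) + y * I ≠ -m := by
    intro m h
    have := congrArg Complex.im h
    rw [him] at this
    simp at this
    linarith
  have hc : ContinuousAt (fun y : ℝ => (σ : ℂ) + y * I) y := by fun_prop
  have d1 : ContinuousAt (fun y : ℝ => riemannZeta ((σ : ℂ) + y * I + η)) y :=
    ContinuousAt.comp (f := fun y : ℝ => (σ : ℂ) + y * I + η) (g := riemannZeta)
      (differentiableAt_riemannZeta h1).continuousAt (by fun_prop)
  have d2 : ContinuousAt (fun y : ℝ => riemannZeta ((σ : ℂ) + y * I)) y :=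
    ContinuousAt.comp (f := fun y : ℝ => (σ : ℂ) + y * I) (g := riemannZeta)
      (differentiableAt_riemannZeta h2).continuousAt hc
  have d3 : ContinuousAt (fun y : ℝ => Gamma ((σ : ℂ) + y * I)) y :=
    ContinuousAt.comp (f := fun y : ℝ => (σ : ℂ) + y * I) (g := Gamma)
      (differentiableAt_Gamma _ h3).continuousAt hc
  have d4 : ContinuousAt (fun y : ℝ => W ^ (-((σ : ℂ) + y * I))) y :=
    (Continuous.const_cpow (by fun_prop) (Or.inl hW)).continuousAt
  exact (((d1.mul d2).mul d3).mul d4).continuousWithinAt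

set_option maxHeartbeats 1000000 in
/-- (3.3). s = 1/2-beta+it. For Im s > 2U+2 kernel_id turns zeta(s+eta)zeta(1-s)h^(-s)k^s exp(i eps s)/(1+exp(i pi s)) into
zeta zeta Gamma WW^(-s); 1/(1+exp(i pi s)) - 1 = O(exp(-pi Im s)); the part Im s <= 2U+2 of the left integral is bounded
(zeta_pol). All errors O((hk)^2); zeta_pol for zeta(1/2+beta-it) too. -/
theorem tsm_exact (U : ℝ) (hU : 0 ≤ U) : ∃ C : ℝ, 0 < C ∧ ∀ ε : ℝ, 0 < ε → ε ≤ 1/2 → ∀ h k : ℕ, 1 ≤ h → 1 ≤ k →
    ∀ α β : ℂ, |α.re| ≤ 1/16 → |β.re| ≤ 1/16 → |α.im| ≤ U → |β.im| ≤ U →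
    ‖(∫ t in Ioi (0:ℝ), riemannZeta (1/2 + α + t * I) * riemannZeta (1/2 + β - t * I) *
          ((h : ℂ) ^ (-(t * I)) * (k : ℂ) ^ (t * I)) * (Real.exp (-(ε * t)) : ℂ)) *
        ((h : ℂ) ^ (-(1/2 - β)) * (k : ℂ) ^ (1/2 - β) * exp (ε * (1/2 - β) * I)) -
      2 * Real.pi * DD (α + β) (WW ε h k)‖ ≤ C * ((h : ℝ) * k) ^ 2 := by
  obtain ⟨C0, hC0, hz⟩ := zeta_pol
  obtain ⟨C1, hC1, hG⟩ := G_bound U hU
  obtain ⟨C2, hC2, hS⟩ := G_shift U hU
  obtain ⟨C3, hC3, hL⟩ := G_low U hU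
  refine ⟨C0 ^ 2 * (4 * U + 3) ^ 2 * Real.exp U * (3 * U + 2) + C1 * (5 ^ 5 * Real.exp 1) + C2 + C3,
    by positivity, ?_⟩
  intro ε hε hε1 h k hh hk α β hα hβ hαi hβi
  have hα' := abs_le.mp hα
  have hβ' := abs_le.mp hβ
  have hαi' := abs_le.mp hαi
  have hβi' := abs_le.mp hβi
  set W := WW ε h k with hWdef
  set η := α + β with hη
  have hWre : 0 < W.re := A09_WW_re hε hε1 hh hk
  have hW0 : W ≠ 0 := by
    intro h0; rw [h0] at hWre; simp at hWre
  have hηre : |η.re| ≤ 1/8 := by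
    rw [hη, add_re, abs_le]; constructor <;> linarith
  have hηim : |η.im| ≤ 2 * U := by
    rw [hη, add_im, abs_le]; constructor <;> linarith
  have hh1 : (1 : ℝ) ≤ h := by exact_mod_cast hh
  have hk1 : (1 : ℝ) ≤ k := by exact_mod_cast hk
  have hhk1 : (1 : ℝ) ≤ (h : ℝ) * k := by nlinarith
  have hhk2 : (h : ℝ) * k ≤ ((h : ℝ) * k) ^ 2 := by nlinarith
  set σ : ℝ := 1/2 - β.re with hσ
  have hσ1 : 7/16 ≤ σ := by rw [hσ]; linarith
  have hσ2 : σ ≤ 2 := by rw [hσ]; linarith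
  set Y : ℝ := 2 * U + 2 with hY
  have hY0 : 0 ≤ Y := by rw [hY]; linarith
  set t0 : ℝ := Y + β.im with ht0
  have ht00 : 0 ≤ t0 := by rw [ht0, hY]; linarith
  have ht01 : t0 ≤ 3 * U + 2 := by rw [ht0, hY]; linarith
  -- s
  have hs_eq : ∀ y : ℝ, (1/2 - β + ((y + β.im : ℝ) : ℂ) * I : ℂ) = (σ : ℂ) + y * I := by
    intro y
    apply Complex.ext
    · simp [hσ]
    · simp
  have hFc := A09_F_cont ε hh hk hα hβ
  have hFKc : Continuous (fun t => A09_F ε h k α β t * A09_K ε h k β) := hFc.mul continuous_const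
  -- bound of G
  have hGb : ∀ y : ℝ, Y < y → ‖A09_G η W (σ + y * I)‖ ≤
      C1 * ((h : ℝ) * k) ^ 2 * ((1 + y) ^ 5 * Real.exp (-(ε * y))) := by
    intro y hy
    have := hG ε hε hε1 h k hh hk η hηre hηim (σ + y * I) (by simpa using hσ1) (by simpa using hσ2)
      (by simpa using le_of_lt hy)
    simp only [add_im, ofReal_im, mul_im, ofReal_re, I_im, mul_one, I_re, mul_zero, add_zero,
      zero_add] at this
    unfold A09_G
    refine this.trans (le_of_eq (by ring))
  have hGint : IntegrableOn (fun y : ℝ => A09_G η W (σ + y * I)) (Ioi Y) := by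
    refine Integrable.mono' ((A09_int hε hY0).const_mul (C1 * ((h : ℝ) * k) ^ 2))
      ((A09_G_cont hU hηim hW0).aestronglyMeasurable measurableSet_Ioi) ?_
    rw [ae_restrict_iff' measurableSet_Ioi]
    exact Filter.Eventually.of_forall (fun y hy => hGb y hy)
  -- second error term
  have hEb : ∀ y : ℝ, Y < y → ‖exp (Real.pi * ((σ : ℂ) + y * I) * I) * A09_G η W (σ + y * I)‖ ≤
      C1 * ((h : ℝ) * k) ^ 2 * (5 ^ 5 * Real.exp 1) * Real.exp (-y) := by
    intro y hy
    have hy0 : 0 < y := lt_of_le_of_lt hY0 hy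
    rw [norm_mul, A09_exp_norm]
    have e1 : ((σ : ℂ) + y * I).im = y := by simp
    rw [e1]
    have h1 := hGb y hy
    have h2 := A09_pow (a := 1) one_pos hy0.le
    rw [div_one, one_mul] at h2
    have h3 : Real.exp (-(ε * y)) ≤ 1 := by
      rw [Real.exp_le_one_iff]; nlinarith
    calc Real.exp (-(Real.pi * y)) * ‖A09_G η W (σ + y * I)‖
        ≤ Real.exp (-(Real.pi * y)) *
          (C1 * ((h : ℝ) * k) ^ 2 * ((5 ^ 5 * Real.exp (1 + y)) * 1)) := by
          apply mul_le_mul_of_nonneg_left _ (Real.exp_nonneg _)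
          refine h1.trans ?_
          gcongr
      _ = C1 * ((h : ℝ) * k) ^ 2 * (5 ^ 5 * (Real.exp (-(Real.pi * y)) * Real.exp (1 + y))) := by ring
      _ ≤ C1 * ((h : ℝ) * k) ^ 2 * (5 ^ 5 * (Real.exp 1 * Real.exp (-y))) := by
          have h5 : Real.exp (-(Real.pi * y)) * Real.exp (1 + y) ≤ Real.exp 1 * Real.exp (-y) := by
            rw [← Real.exp_add, ← Real.exp_add, Real.exp_le_exp]
            have h6 : 2 * y ≤ Real.pi * y :=
              mul_le_mul_of_nonneg_right (by linarith [Real.pi_gt_three]) hy0.le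
            linarith
          exact mul_le_mul_of_nonneg_left (mul_le_mul_of_nonneg_left h5 (by positivity)) (by positivity)
      _ = _ := by ring
  have hexpint : IntegrableOn (fun y : ℝ => C1 * ((h : ℝ) * k) ^ 2 * (5 ^ 5 * Real.exp 1) *
      Real.exp (-y)) (Ioi Y) := by
    have := (exp_neg_integrableOn_Ioi Y one_pos).const_mul (C1 * ((h : ℝ) * k) ^ 2 * (5 ^ 5 * Real.exp 1))
    refine this.congr (Filter.Eventually.of_forall (fun y => ?_))
    simp
  have hEcont : ContinuousOn (fun y : ℝ => exp (Real.pi * ((σ : ℂ) + y * I) * I) *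
      A09_G η W (σ + y * I)) (Ioi Y) :=
    ContinuousOn.mul (by fun_prop) (A09_G_cont hU hηim hW0)
  have hEint : IntegrableOn (fun y : ℝ => exp (Real.pi * ((σ : ℂ) + y * I) * I) *
      A09_G η W (σ + y * I)) (Ioi Y) := by
    refine Integrable.mono' hexpint (hEcont.aestronglyMeasurable measurableSet_Ioi) ?_
    rw [ae_restrict_iff' measurableSet_Ioi]
    exact Filter.Eventually.of_forall (fun y hy => hEb y hy)
  -- the shifted integral
  have hpt : ∀ y : ℝ, Y < y → A09_F ε h k α β (y + β.im) * A09_K ε h k β =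
      A09_G η W (σ + y * I) + exp (Real.pi * ((σ : ℂ) + y * I) * I) * A09_G η W (σ + y * I) := by
    intro y hy
    have h1 := A09_point hε hε1 hh hk α β (y + β.im) (by
      rw [hs_eq]
      simp
      rw [hY] at hy
      linarith)
    rw [hs_eq] at h1
    exact h1
  have hpre : (fun y : ℝ => y + β.im) ⁻¹' (Ioi t0) = Ioi Y := by
    ext y; simp [ht0]
  have hmp : MeasurePreserving (fun y : ℝ => y + β.im) volume volume :=
    measurePreserving_add_right volume β.im
  have hemb : MeasurableEmbedding (fun y : ℝ => y + β.im) := measurableEmbedding_addRight β.im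
  have hintY : IntegrableOn (fun y : ℝ => A09_F ε h k α β (y + β.im) * A09_K ε h k β) (Ioi Y) := by
    refine (hGint.add hEint).congr ?_
    rw [Filter.EventuallyEq, ae_restrict_iff' measurableSet_Ioi]
    exact Filter.Eventually.of_forall (fun y hy => (hpt y hy).symm)
  have hint_t0 : IntegrableOn (fun t => A09_F ε h k α β t * A09_K ε h k β) (Ioi t0) := by
    rw [← hmp.integrableOn_comp_preimage hemb, hpre]
    exact hintY
  have hchange : ∫ t in Ioi t0, A09_F ε h k α β t * A09_K ε h k β =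
      ∫ y in Ioi Y, A09_F ε h k α β (y + β.im) * A09_K ε h k β := by
    rw [← hmp.setIntegral_preimage_emb hemb, hpre]
  have hsplit2 : ∫ y in Ioi Y, A09_F ε h k α β (y + β.im) * A09_K ε h k β =
      (∫ y in Ioi Y, A09_G η W (σ + y * I)) +
      ∫ y in Ioi Y, exp (Real.pi * ((σ : ℂ) + y * I) * I) * A09_G η W (σ + y * I) := by
    rw [← integral_add hGint hEint]
    exact setIntegral_congr_fun measurableSet_Ioi (fun y hy => hpt y hy)
  have hcompact : IntegrableOn (fun t => A09_F ε h k α β t * A09_K ε h k β) (Ioc 0 t0) :=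
    (hFKc.integrableOn_Icc).mono_set Ioc_subset_Icc_self
  have hsplit1 : ∫ t in Ioi (0:ℝ), A09_F ε h k α β t * A09_K ε h k β =
      (∫ t in Ioc 0 t0, A09_F ε h k α β t * A09_K ε h k β) +
      ∫ t in Ioi t0, A09_F ε h k α β t * A09_K ε h k β := by
    rw [← setIntegral_union (Ioc_disjoint_Ioi le_rfl) measurableSet_Ioi hcompact hint_t0,
      Ioc_union_Ioi_eq_Ioi ht00]
  -- the full line
  obtain ⟨hmint, hmel⟩ := mellin_DD η W (by linarith) hWre
  have hline : (∫ y in Iic Y, A09_G η W (2 + y * I)) + ∫ y in Ioi Y, A09_G η W (2 + y * I) =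
      2 * Real.pi * DD η W := by
    rw [← hmel]
    have h1 : Integrable (fun y : ℝ => A09_G η W (2 + y * I)) := hmint
    exact intervalIntegral.integral_Iic_add_Ioi h1.integrableOn h1.integrableOn
  -- first error
  have herr1 : ‖∫ t in Ioc 0 t0, A09_F ε h k α β t * A09_K ε h k β‖ ≤
      C0 ^ 2 * (4 * U + 3) ^ 2 * Real.exp U * (3 * U + 2) * ((h : ℝ) * k) ^ 2 := by
    have hb : ∀ t ∈ Ioc 0 t0, ‖A09_F ε h k α β t * A09_K ε h k β‖ ≤
        C0 ^ 2 * (4 * U + 3) ^ 2 * Real.exp U * ((h : ℝ) * k) ^ 2 := by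
      intro t ht
      have ht1 : 0 < t := ht.1
      have ht2 : t ≤ 3 * U + 2 := ht.2.trans ht01
      rw [A09_form ε hh hk]
      rw [norm_mul, norm_mul, norm_mul, norm_mul]
      have a1 : ‖riemannZeta ((1/2 - β + t * I) + (α + β))‖ ≤ C0 * (4 * U + 3) := by
        have e1 : ((1/2 - β + t * I) + (α + β)) = (1/2 + α + t * I : ℂ) := by ring
        rw [e1]
        have hre1 : (1/2 + α + t * I : ℂ).re = 1/2 + α.re := by simp
        have him1 : (1/2 + α + t * I : ℂ).im = α.im + t := by simp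
        refine (hz _ (by rw [hre1]; linarith) ?_).trans ?_
        · have h1 := Complex.abs_re_le_norm ((1/2 + α + t * I : ℂ) - 1)
          rw [sub_re, hre1, one_re, abs_of_neg (by linarith)] at h1
          linarith
        · rw [him1]
          have : |α.im + t| ≤ 4 * U + 2 := by rw [abs_le]; constructor <;> linarith
          apply mul_le_mul_of_nonneg_left _ hC0.le
          linarith
      have a2 : ‖riemannZeta (1 - (1/2 - β + t * I))‖ ≤ C0 * (4 * U + 3) := by
        have e1 : (1 - (1/2 - β + t * I)) = (1/2 + β - t * I : ℂ) := by ring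
        rw [e1]
        have hre1 : (1/2 + β - t * I : ℂ).re = 1/2 + β.re := by simp
        have him1 : (1/2 + β - t * I : ℂ).im = β.im - t := by simp
        refine (hz _ (by rw [hre1]; linarith) ?_).trans ?_
        · have h1 := Complex.abs_re_le_norm ((1/2 + β - t * I : ℂ) - 1)
          rw [sub_re, hre1, one_re, abs_of_neg (by linarith)] at h1
          linarith
        · rw [him1]
          have : |β.im - t| ≤ 4 * U + 2 := by rw [abs_le]; constructor <;> linarith
          apply mul_le_mul_of_nonneg_left _ hC0.le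
          linarith
      have hre2 : (1/2 - β + t * I : ℂ).re = σ := by simp [hσ]
      have a3 : ‖(h : ℂ) ^ (-(1/2 - β + t * I))‖ ≤ h := by
        rw [Complex.norm_natCast_cpow_of_pos (by omega), neg_re, hre2]
        calc (h : ℝ) ^ (-σ) ≤ (h : ℝ) ^ (1 : ℝ) :=
              Real.rpow_le_rpow_of_exponent_le hh1 (by linarith)
          _ = h := Real.rpow_one _
      have a4 : ‖(k : ℂ) ^ (1/2 - β + t * I)‖ ≤ k := by
        rw [Complex.norm_natCast_cpow_of_pos (by omega), hre2]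
        calc (k : ℝ) ^ σ ≤ (k : ℝ) ^ (1 : ℝ) :=
              Real.rpow_le_rpow_of_exponent_le hk1 (by rw [hσ]; linarith)
          _ = k := Real.rpow_one _
      have a5 : ‖exp (ε * (1/2 - β + t * I) * I)‖ ≤ Real.exp U := by
        rw [Complex.norm_exp, Real.exp_le_exp]
        have e1 : ((ε : ℂ) * (1/2 - β + t * I) * I).re = ε * (β.im - t) := by
          simp [mul_re, mul_im]; ring
        rw [e1]
        have h8 : ε * (β.im - t) ≤ ε * U := mul_le_mul_of_nonneg_left (by linarith) hε.le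
        have h9 : ε * U ≤ 1 * U := mul_le_mul_of_nonneg_right (by linarith) hU
        linarith
      calc _ ≤ (C0 * (4 * U + 3)) * (C0 * (4 * U + 3)) * ((h : ℝ) * k) * Real.exp U := by
            gcongr
        _ ≤ C0 ^ 2 * (4 * U + 3) ^ 2 * Real.exp U * ((h : ℝ) * k) ^ 2 := by
            have h5 : 0 ≤ C0 ^ 2 * (4 * U + 3) ^ 2 * Real.exp U := by positivity
            calc (C0 * (4 * U + 3)) * (C0 * (4 * U + 3)) * ((h : ℝ) * k) * Real.exp U
                = C0 ^ 2 * (4 * U + 3) ^ 2 * Real.exp U * ((h : ℝ) * k) := by ring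
              _ ≤ _ := mul_le_mul_of_nonneg_left hhk2 h5
    have h6 := norm_setIntegral_le_of_norm_le_const (μ := volume) (s := Ioc 0 t0)
      (by rw [Real.volume_Ioc]; exact ENNReal.ofReal_lt_top) hb
    refine h6.trans ?_
    rw [Real.volume_real_Ioc_of_le ht00, sub_zero]
    calc C0 ^ 2 * (4 * U + 3) ^ 2 * Real.exp U * ((h : ℝ) * k) ^ 2 * t0
        ≤ C0 ^ 2 * (4 * U + 3) ^ 2 * Real.exp U * ((h : ℝ) * k) ^ 2 * (3 * U + 2) := by gcongr
      _ = _ := by ring
  have herr2 : ‖∫ y in Ioi Y, exp (Real.pi * ((σ : ℂ) + y * I) * I) * A09_G η W (σ + y * I)‖ ≤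
      C1 * (5 ^ 5 * Real.exp 1) * ((h : ℝ) * k) ^ 2 := by
    refine (norm_integral_le_of_norm_le hexpint ?_).trans ?_
    · rw [ae_restrict_iff' measurableSet_Ioi]
      exact Filter.Eventually.of_forall (fun y hy => hEb y hy)
    · rw [integral_const_mul, integral_exp_neg_Ioi]
      have h7 : Real.exp (-Y) ≤ 1 := by rw [Real.exp_le_one_iff]; linarith
      calc C1 * ((h : ℝ) * k) ^ 2 * (5 ^ 5 * Real.exp 1) * Real.exp (-Y)
          ≤ C1 * ((h : ℝ) * k) ^ 2 * (5 ^ 5 * Real.exp 1) * 1 := by gcongr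
        _ = _ := by ring
  have herr3 : ‖(∫ y in Ioi Y, A09_G η W (σ + y * I)) - ∫ y in Ioi Y, A09_G η W (2 + y * I)‖ ≤
      C2 * ((h : ℝ) * k) ^ 2 := hS ε hε hε1 h k hh hk η hηre hηim σ hσ1 hσ2
  have herr4 : ‖∫ y in Iic Y, A09_G η W (2 + y * I)‖ ≤ C3 * ((h : ℝ) * k) ^ 2 :=
    hL ε hε hε1 h k hh hk η hηre
  have hmain : (∫ t in Ioi (0:ℝ), A09_F ε h k α β t) * A09_K ε h k β - 2 * Real.pi * DD η W =
      (∫ t in Ioc 0 t0, A09_F ε h k α β t * A09_K ε h k β) +
      (∫ y in Ioi Y, exp (Real.pi * ((σ : ℂ) + y * I) * I) * A09_G η W (σ + y * I)) +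
      ((∫ y in Ioi Y, A09_G η W (σ + y * I)) - ∫ y in Ioi Y, A09_G η W (2 + y * I)) -
      ∫ y in Iic Y, A09_G η W (2 + y * I) := by
    rw [← integral_mul_const, hsplit1, hchange, hsplit2, ← hline]
    ring
  change ‖(∫ t in Ioi (0:ℝ), A09_F ε h k α β t) * A09_K ε h k β - 2 * Real.pi * DD η W‖ ≤ _
  rw [hmain]
  refine (norm_sub_le _ _).trans ?_
  refine (add_le_add (norm_add_le _ _) le_rfl).trans ?_
  refine (add_le_add (add_le_add (norm_add_le _ _) le_rfl) le_rfl).trans ?_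
  calc _ ≤ C0 ^ 2 * (4 * U + 3) ^ 2 * Real.exp U * (3 * U + 2) * ((h : ℝ) * k) ^ 2 +
        C1 * (5 ^ 5 * Real.exp 1) * ((h : ℝ) * k) ^ 2 + C2 * ((h : ℝ) * k) ^ 2 +
        C3 * ((h : ℝ) * k) ^ 2 := by gcongr
    _ = _ := by ring

end LZ
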