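import Pool.Agent.Lib.MP_0f5a55_nt.D0

open Complex MeasureTheory Set Filter Topology
open scoped ComplexConjugate

namespace LZ

private lemma A10_e1 {t : ℝ} (ht : 0 < t) : Real.exp (-t) * (1 + t) ^ 3 ≤ 27 := by
  have h1 : (1 + t) ^ 3 ≤ 27 * (1 + t / 3) ^ 3 := by nlinarith [pow_pos ht 2, pow_pos ht 3]
  have h2 : (1 + t / 3) ^ 3 ≤ Real.exp t := by
    have h3 : 1 + t / 3 ≤ Real.exp (t / 3) := by linarith [Real.add_one_le_exp (t / 3)]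
    calc (1 + t / 3) ^ 3 ≤ (Real.exp (t / 3)) ^ 3 := pow_le_pow_left₀ (by positivity) h3 3
      _ = Real.exp t := by rw [← Real.exp_nat_mul]; congr 1; push_cast; ring
  have h4 : Real.exp (-t) * Real.exp t = 1 := by rw [← Real.exp_add]; simp
  calc Real.exp (-t) * (1 + t) ^ 3 ≤ Real.exp (-t) * (27 * Real.exp t) := by
        apply mul_le_mul_of_nonneg_left _ (Real.exp_pos _).le
        linarith
    _ = 27 * (Real.exp (-t) * Real.exp t) := by ring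
    _ = 27 := by rw [h4]; ring

private lemma A10_e2 {t : ℝ} (ht : 0 < t) : t / (1 + t) ≤ 1 - Real.exp (-t) := by
  have h1 : 1 + t ≤ Real.exp t := by linarith [Real.add_one_le_exp t]
  have h2 : Real.exp (-t) ≤ 1 / (1 + t) := by
    rw [Real.exp_neg, ← one_div]
    exact one_div_le_one_div_of_le (by positivity) h1
  have h3 : t / (1 + t) = 1 - 1 / (1 + t) := by field_simp; ring
  rw [h3]; linarith

private lemma A10_p {a : ℂ} {t : ℝ} (ht : 0 < t) (ha : t ≤ a.re) :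
    (exp a - 1)⁻¹ = exp (-a) * (1 - exp (-a))⁻¹ ∧ t / (1 + t) ≤ ‖1 - exp (-a)‖ ∧ ‖exp (-a)‖ ≤ Real.exp (-t) := by
  have h1 : ‖exp (-a)‖ ≤ Real.exp (-t) := by
    rw [norm_exp]; apply Real.exp_le_exp.mpr; simp; exact ha
  have h2 : t / (1 + t) ≤ ‖1 - exp (-a)‖ := by
    have h3 := norm_sub_norm_le (1 : ℂ) (exp (-a))
    rw [norm_one] at h3
    linarith [A10_e2 ht]
  refine ⟨?_, h2, h1⟩
  have h4 : (1 - exp (-a)) ≠ 0 := by
    rw [← norm_pos_iff]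
    exact lt_of_lt_of_le (by positivity) h2
  have h5 : exp a - 1 = exp a * (1 - exp (-a)) := by
    rw [mul_sub, ← exp_add]; simp
  rw [h5, mul_inv, ← exp_neg]

private lemma A10_f1 {a : ℂ} {t : ℝ} (ht : 0 < t) (ha : t ≤ a.re) : ‖(exp a - 1)⁻¹‖ ≤ 27 / t ^ 2 := by
  obtain ⟨h1, h2, h3⟩ := A10_p ht ha
  rw [h1, norm_mul, norm_inv]
  have h4 : ‖1 - exp (-a)‖⁻¹ ≤ (1 + t) / t := by
    rw [← inv_div]
    exact inv_anti₀ (by positivity) h2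
  calc ‖exp (-a)‖ * ‖1 - exp (-a)‖⁻¹ ≤ Real.exp (-t) * ((1 + t) / t) :=
        mul_le_mul h3 h4 (by positivity) (Real.exp_pos _).le
    _ = (Real.exp (-t) * ((1 + t) * t)) / t ^ 2 := by field_simp
    _ ≤ 27 / t ^ 2 := by
        apply div_le_div_of_nonneg_right _ (by positivity)
        refine le_trans ?_ (A10_e1 ht)
        apply mul_le_mul_of_nonneg_left _ (Real.exp_pos _).le
        nlinarith [pow_pos ht 2, pow_pos ht 3]

private lemma A10_exp {a b : ℂ} {t : ℝ} (ha : t ≤ a.re) (hb : t ≤ b.re) :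
    ‖exp (-a) - exp (-b)‖ ≤ Real.exp (-t) * ‖a - b‖ := by
  have h1 : Convex ℝ {z : ℂ | z.re ≤ -t} := convex_halfSpace_re_le _
  have h2 := h1.norm_image_sub_le_of_norm_hasDerivWithin_le (f := exp) (f' := exp) (C := Real.exp (-t))
    (x := -b) (y := -a) (fun x _ => (hasDerivAt_exp x).hasDerivWithinAt)
    (fun x hx => by
      rw [norm_exp]
      exact Real.exp_le_exp.mpr hx)
    (by show (-b).re ≤ -t; simp; exact hb) (by show (-a).re ≤ -t; simp; exact ha)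
  refine h2.trans (le_of_eq ?_)
  congr 1
  rw [show -a - -b = -(a - b) by ring, norm_neg]

private lemma A10_f2 {a b : ℂ} {t : ℝ} (ht : 0 < t) (ha : t ≤ a.re) (hb : t ≤ b.re) :
    ‖(exp a - 1)⁻¹ - (exp b - 1)⁻¹‖ ≤ ‖a - b‖ * (27 * t ^ (-(9/4) : ℝ)) := by
  obtain ⟨h1, h2, h3⟩ := A10_p ht ha
  obtain ⟨k1, k2, k3⟩ := A10_p ht hb
  have h4 : (1 - exp (-a)) ≠ 0 := by
    rw [← norm_pos_iff]
    exact lt_of_lt_of_le (by positivity) h2
  have k4 : (1 - exp (-b)) ≠ 0 := by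
    rw [← norm_pos_iff]
    exact lt_of_lt_of_le (by positivity) k2
  have h5 : (exp a - 1)⁻¹ - (exp b - 1)⁻¹ =
      (exp (-a) - exp (-b)) * ((1 - exp (-a))⁻¹ * (1 - exp (-b))⁻¹) := by
    rw [h1, k1]; field_simp; ring
  rw [h5, norm_mul, norm_mul, norm_inv, norm_inv]
  have h6 : ‖1 - exp (-a)‖⁻¹ ≤ (1 + t) / t := by
    rw [← inv_div]
    exact inv_anti₀ (by positivity) h2
  have k6 : ‖1 - exp (-b)‖⁻¹ ≤ (1 + t) / t := by
    rw [← inv_div]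
    exact inv_anti₀ (by positivity) k2
  have h7 : t ^ (-(9/4) : ℝ) = (t ^ 2)⁻¹ * t ^ (-(1/4) : ℝ) := by
    rw [show (-(9/4) : ℝ) = -((2 : ℕ) : ℝ) + (-(1/4)) by norm_num, Real.rpow_add ht, Real.rpow_neg ht.le,
      Real.rpow_natCast]
  have h8 : (1 : ℝ) ≤ (1 + t) * t ^ (-(1/4) : ℝ) := by
    rw [Real.rpow_neg ht.le, ← div_eq_mul_inv, le_div_iff₀ (by positivity), one_mul]
    calc t ^ ((1/4) : ℝ) ≤ (1 + t) ^ ((1/4) : ℝ) := Real.rpow_le_rpow ht.le (by linarith) (by norm_num)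
      _ ≤ (1 + t) ^ (1 : ℝ) := Real.rpow_le_rpow_of_exponent_le (by linarith) (by norm_num)
      _ = 1 + t := Real.rpow_one _
  calc ‖exp (-a) - exp (-b)‖ * (‖1 - exp (-a)‖⁻¹ * ‖1 - exp (-b)‖⁻¹)
      ≤ (Real.exp (-t) * ‖a - b‖) * (((1 + t) / t) * ((1 + t) / t)) := by
        apply mul_le_mul (A10_exp ha hb) _ (by positivity) (by positivity)
        exact mul_le_mul h6 k6 (by positivity) (by positivity)
    _ = ‖a - b‖ * ((Real.exp (-t) * (1 + t) ^ 2 * 1) * (t ^ 2)⁻¹) := by field_simp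
    _ ≤ ‖a - b‖ * ((Real.exp (-t) * (1 + t) ^ 2 * ((1 + t) * t ^ (-(1/4) : ℝ))) * (t ^ 2)⁻¹) := by
        gcongr
    _ = ‖a - b‖ * ((Real.exp (-t) * (1 + t) ^ 3) * ((t ^ 2)⁻¹ * t ^ (-(1/4) : ℝ))) := by ring
    _ ≤ ‖a - b‖ * (27 * t ^ (-(9/4) : ℝ)) := by
        rw [h7]
        have := A10_e1 ht
        gcongr

private lemma A10_cp {η : ℂ} (hη : |η.re| ≤ 1/8) (m : ℕ) :
    ‖((m : ℂ) + 1) ^ (-η)‖ ≤ ((m : ℝ) + 1) ^ ((1/8) : ℝ) := by
  have h1 : ((m : ℂ) + 1) = (((m : ℝ) + 1 : ℝ) : ℂ) := by push_cast; rfl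
  rw [h1, norm_cpow_eq_rpow_re_of_pos (by positivity)]
  apply Real.rpow_le_rpow_of_exponent_le
  · have : (0 : ℝ) ≤ m := Nat.cast_nonneg m
    linarith
  · have := (abs_le.mp hη).1
    simp; linarith

private lemma A10_sm (s : ℝ) (hs : 1 < s) : Summable (fun m : ℕ => ((m : ℝ) + 1) ^ (-s)) := by
  have h1 : Summable (fun m : ℕ => (m : ℝ) ^ (-s)) := Real.summable_nat_rpow.mpr (by linarith)
  have h2 := (summable_nat_add_iff 1).mpr h1
  simpa using h2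

private lemma A10_summable {η W : ℂ} (hη : |η.re| ≤ 1/8) {x : ℝ} (hx : 0 < x) (hW : x ≤ W.re) :
    Summable (fun m : ℕ => ((m : ℂ) + 1) ^ (-η) * (exp (((m : ℂ) + 1) * W) - 1)⁻¹) := by
  apply Summable.of_norm_bounded (g := fun m : ℕ => (27 / x ^ 2) * ((m : ℝ) + 1) ^ (-(15/8) : ℝ))
    ((A10_sm (15/8) (by norm_num)).mul_left _)
  intro m
  have hm : (0 : ℝ) < (m : ℝ) + 1 := by positivity
  rw [norm_mul]
  have h1 := A10_cp hη m
  have h2 : ‖(exp (((m : ℂ) + 1) * W) - 1)⁻¹‖ ≤ 27 / (((m : ℝ) + 1) * x) ^ 2 := by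
    apply A10_f1 (by positivity)
    have h3 : (((m : ℂ) + 1) * W).re = ((m : ℝ) + 1) * W.re := by
      have h1 : ((m : ℂ) + 1) = (((m : ℝ) + 1 : ℝ) : ℂ) := by push_cast; rfl
      rw [h1, re_ofReal_mul]
    rw [h3]
    exact mul_le_mul_of_nonneg_left hW hm.le
  calc ‖((m : ℂ) + 1) ^ (-η)‖ * ‖(exp (((m : ℂ) + 1) * W) - 1)⁻¹‖
      ≤ ((m : ℝ) + 1) ^ ((1/8) : ℝ) * (27 / (((m : ℝ) + 1) * x) ^ 2) :=
        mul_le_mul h1 h2 (norm_nonneg _) (by positivity)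
    _ = (27 / x ^ 2) * (((m : ℝ) + 1) ^ ((1/8) : ℝ) * (((m : ℝ) + 1) ^ 2)⁻¹) := by
        field_simp
    _ = (27 / x ^ 2) * ((m : ℝ) + 1) ^ (-(15/8) : ℝ) := by
        congr 1
        rw [show (-(15/8) : ℝ) = (1/8) + (-((2 : ℕ) : ℝ)) by norm_num, Real.rpow_add hm, Real.rpow_neg hm.le,
          Real.rpow_natCast]

private lemma A10_diff {η W V : ℂ} (hη : |η.re| ≤ 1/8) {x : ℝ} (hx : 0 < x) (hW : x ≤ W.re) (hV : x ≤ V.re) :
    ‖DD η W - DD η V‖ ≤ ‖W - V‖ * (27 * x ^ (-(9/4) : ℝ)) * ∑' m : ℕ, ((m : ℝ) + 1) ^ (-(9/8) : ℝ) := by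
  unfold DD
  rw [← (A10_summable hη hx hW).tsum_sub (A10_summable hη hx hV), ← tsum_mul_left]
  apply tsum_of_norm_bounded ((A10_sm (9/8) (by norm_num)).mul_left _).hasSum
  intro m
  have hm : (0 : ℝ) < (m : ℝ) + 1 := by positivity
  have hre : ∀ Z : ℂ, (((m : ℂ) + 1) * Z).re = ((m : ℝ) + 1) * Z.re := by
    intro Z
    have h1 : ((m : ℂ) + 1) = (((m : ℝ) + 1 : ℝ) : ℂ) := by push_cast; rfl
    rw [h1, re_ofReal_mul]
  rw [← mul_sub, norm_mul]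
  have h1 := A10_cp hη m
  have h2 : ‖(exp (((m : ℂ) + 1) * W) - 1)⁻¹ - (exp (((m : ℂ) + 1) * V) - 1)⁻¹‖ ≤
      ‖((m : ℂ) + 1) * W - ((m : ℂ) + 1) * V‖ * (27 * (((m : ℝ) + 1) * x) ^ (-(9/4) : ℝ)) := by
    apply A10_f2 (by positivity)
    · rw [hre]; exact mul_le_mul_of_nonneg_left hW hm.le
    · rw [hre]; exact mul_le_mul_of_nonneg_left hV hm.le
  have h3 : ‖((m : ℂ) + 1) * W - ((m : ℂ) + 1) * V‖ = ((m : ℝ) + 1) * ‖W - V‖ := by
    have h1 : ((m : ℂ) + 1) = (((m : ℝ) + 1 : ℝ) : ℂ) := by push_cast; rfl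
    rw [← mul_sub, norm_mul, h1, norm_real, Real.norm_of_nonneg hm.le]
  rw [h3] at h2
  calc ‖((m : ℂ) + 1) ^ (-η)‖ * ‖(exp (((m : ℂ) + 1) * W) - 1)⁻¹ - (exp (((m : ℂ) + 1) * V) - 1)⁻¹‖
      ≤ ((m : ℝ) + 1) ^ ((1/8) : ℝ) * ((((m : ℝ) + 1) * ‖W - V‖) * (27 * (((m : ℝ) + 1) * x) ^ (-(9/4) : ℝ))) :=
        mul_le_mul h1 h2 (norm_nonneg _) (by positivity)
    _ = ‖W - V‖ * (27 * x ^ (-(9/4) : ℝ)) * (((m : ℝ) + 1) ^ ((1/8) : ℝ) * ((m : ℝ) + 1) *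
          ((m : ℝ) + 1) ^ (-(9/4) : ℝ)) := by
        rw [Real.mul_rpow hm.le hx.le]; ring
    _ = ‖W - V‖ * (27 * x ^ (-(9/4) : ℝ)) * ((m : ℝ) + 1) ^ (-(9/8) : ℝ) := by
        congr 1
        rw [show (-(9/8) : ℝ) = (1/8) + 1 + (-(9/4)) by norm_num, Real.rpow_add hm, Real.rpow_add hm,
          Real.rpow_one]

/-- (3.4). Expand 1/(exp(mW)-1) as sum over n of exp(-mnW), both W; |exp(-a)-exp(-b)| <= |a-b| exp(-min(Re a, Re b));
|WW - (2 pi i h/k + 2 pi eps h/k)| <= 2 pi eps^2 h/k, Re WW = 2 pi (h/k) sin eps >= pi eps h/k;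
(mn)^(9/8) exp(-mn x/2) <= C x^(-35/16) (mn)^(-17/16). -/
theorem DD_real : ∃ C : ℝ, 0 < C ∧ ∀ ε : ℝ, 0 < ε → ε ≤ 1/2 → ∀ h k : ℕ, 1 ≤ h → 1 ≤ k → ∀ η : ℂ, |η.re| ≤ 1/8 →
    ‖DD η (WW ε h k) - DD η (((2 * Real.pi * ε * h / k : ℝ) : ℂ) + 2 * Real.pi * I * h / k)‖ ≤
      C * ((h : ℝ) * k) ^ 4 * ε ^ (-(1/4) : ℝ) := by
  set S : ℝ := ∑' m : ℕ, ((m : ℝ) + 1) ^ (-(9/8) : ℝ) with hS
  have hS0 : 0 ≤ S := tsum_nonneg (fun m => by positivity)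
  refine ⟨2 * Real.pi * 27 * S + 1, by positivity, ?_⟩
  intro ε hε hε2 h k hh hk η hη
  have hh0 : (0 : ℝ) < h := by exact_mod_cast hh
  have hk0 : (0 : ℝ) < k := by exact_mod_cast hk
  have hh1 : (1 : ℝ) ≤ h := by exact_mod_cast hh
  have hk1 : (1 : ℝ) ≤ k := by exact_mod_cast hk
  have hpi := Real.pi_pos
  set q : ℝ := (h : ℝ) / k with hq
  have hq0 : 0 < q := by positivity
  have hWeq : WW ε h k = (((2 * Real.pi * q * Real.sin ε : ℝ)) : ℂ) + ((2 * Real.pi * q * Real.cos ε : ℝ) : ℂ) * I := by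
    unfold WW
    have h1 : exp (-((ε : ℂ) * I)) = Real.cos ε - Real.sin ε * I := by
      rw [show -((ε : ℂ) * I) = ((-ε : ℝ) : ℂ) * I by push_cast; ring, exp_mul_I, ← ofReal_cos, ← ofReal_sin,
        Real.cos_neg, Real.sin_neg]
      push_cast; ring
    rw [h1, hq]
    push_cast
    ring_nf
    rw [I_sq]; ring
  have hVeq : (((2 * Real.pi * ε * h / k : ℝ) : ℂ) + 2 * Real.pi * I * h / k) =
      ((2 * Real.pi * q * ε : ℝ) : ℂ) + ((2 * Real.pi * q : ℝ) : ℂ) * I := by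
    rw [hq]; push_cast; ring
  have hsin1 : ε / 2 ≤ Real.sin ε := by
    have h1 := Real.mul_le_sin hε.le (by linarith [Real.pi_gt_three])
    have h2 : ε / 2 ≤ 2 / Real.pi * ε := by
      rw [div_mul_eq_mul_div, div_le_div_iff₀ (by norm_num) hpi]
      nlinarith [Real.pi_le_four]
    linarith
  have hx : 0 < Real.pi * q * ε := by positivity
  have hWre : Real.pi * q * ε ≤ (WW ε h k).re := by
    rw [hWeq]
    simp only [add_re, ofReal_re, mul_re, I_re, ofReal_im, I_im, mul_zero, mul_one, zero_mul, sub_self, add_zero]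
    have : 0 < Real.pi * q := by positivity
    nlinarith
  have hVre : Real.pi * q * ε ≤ (((2 * Real.pi * ε * h / k : ℝ) : ℂ) + 2 * Real.pi * I * h / k).re := by
    rw [hVeq]
    simp only [add_re, ofReal_re, mul_re, I_re, ofReal_im, I_im, mul_zero, mul_one, zero_mul, sub_self, add_zero]
    nlinarith
  have h1 := A10_diff hη hx hWre hVre
  have h2 : ‖WW ε h k - (((2 * Real.pi * ε * h / k : ℝ) : ℂ) + 2 * Real.pi * I * h / k)‖ ≤ 2 * Real.pi * q * ε ^ 2 := by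
    rw [hWeq, hVeq]
    have h3 : (((2 * Real.pi * q * Real.sin ε : ℝ)) : ℂ) + ((2 * Real.pi * q * Real.cos ε : ℝ) : ℂ) * I -
        (((2 * Real.pi * q * ε : ℝ) : ℂ) + ((2 * Real.pi * q : ℝ) : ℂ) * I) =
        ((2 * Real.pi * q : ℝ) : ℂ) * (((Real.sin ε - ε : ℝ) : ℂ) + ((Real.cos ε - 1 : ℝ) : ℂ) * I) := by
      push_cast; ring
    rw [h3, norm_mul, norm_real, Real.norm_of_nonneg (by positivity)]
    apply mul_le_mul_of_nonneg_left _ (by positivity)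
    have h4 : |Real.sin ε - ε| ≤ ε ^ 2 / 4 := by
      have h5 := Real.sin_gt_sub_cube hε
      have h6 := Real.sin_lt hε
      rw [abs_le]
      constructor
      · nlinarith [mul_pos hε hε, mul_pos (mul_pos hε hε) hε]
      · nlinarith [mul_pos hε hε]
    have h7 : |Real.cos ε - 1| ≤ ε ^ 2 / 2 := by
      have h8 := Real.one_sub_sq_div_two_le_cos (x := ε)
      have h9 := Real.cos_le_one ε
      rw [abs_le]
      constructor
      · linarith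
      · have : 0 ≤ ε ^ 2 / 2 := by positivity
        linarith
    calc ‖((Real.sin ε - ε : ℝ) : ℂ) + ((Real.cos ε - 1 : ℝ) : ℂ) * I‖
        ≤ ‖((Real.sin ε - ε : ℝ) : ℂ)‖ + ‖((Real.cos ε - 1 : ℝ) : ℂ) * I‖ := norm_add_le _ _
      _ = |Real.sin ε - ε| + |Real.cos ε - 1| := by
          rw [norm_mul, norm_I, mul_one, norm_real, norm_real, Real.norm_eq_abs, Real.norm_eq_abs]
      _ ≤ ε ^ 2 := by nlinarith [mul_pos hε hε]
  have h3 : (Real.pi * q * ε) ^ (-(9/4) : ℝ) ≤ (q * ε) ^ (-(9/4) : ℝ) := by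
    apply Real.rpow_le_rpow_of_nonpos (by positivity) _ (by norm_num)
    have : 0 < q * ε := by positivity
    nlinarith [Real.pi_gt_three]
  have h4 : q * ε ^ 2 * (q * ε) ^ (-(9/4) : ℝ) = q ^ (-(5/4) : ℝ) * ε ^ (-(1/4) : ℝ) := by
    rw [Real.mul_rpow hq0.le hε.le]
    rw [show (-(5/4) : ℝ) = 1 + (-(9/4)) by norm_num, Real.rpow_add hq0, Real.rpow_one]
    rw [show (-(1/4) : ℝ) = ((2 : ℕ) : ℝ) + (-(9/4)) by norm_num, Real.rpow_add hε, Real.rpow_natCast]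
    ring
  have h5 : q ^ (-(5/4) : ℝ) ≤ ((h : ℝ) * k) ^ 4 := by
    have h6 : q ^ (-(5/4) : ℝ) = ((k : ℝ) / h) ^ ((5/4) : ℝ) := by
      rw [Real.rpow_neg hq0.le, ← Real.inv_rpow hq0.le, hq, inv_div]
    rw [h6]
    have h7 : (k : ℝ) / h ≤ (h : ℝ) * k := by
      rw [div_le_iff₀ hh0]
      nlinarith [mul_le_mul hh1 hh1 (by norm_num) hh0.le]
    have h8 : 1 ≤ (h : ℝ) * k := by nlinarith
    calc ((k : ℝ) / h) ^ ((5/4) : ℝ) ≤ ((h : ℝ) * k) ^ ((5/4) : ℝ) :=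
          Real.rpow_le_rpow (by positivity) h7 (by norm_num)
      _ ≤ ((h : ℝ) * k) ^ ((4 : ℕ) : ℝ) := Real.rpow_le_rpow_of_exponent_le h8 (by norm_num)
      _ = ((h : ℝ) * k) ^ 4 := Real.rpow_natCast _ _
  calc ‖DD η (WW ε h k) - DD η (((2 * Real.pi * ε * h / k : ℝ) : ℂ) + 2 * Real.pi * I * h / k)‖
      ≤ (2 * Real.pi * q * ε ^ 2) * (27 * (q * ε) ^ (-(9/4) : ℝ)) * S := by
        refine h1.trans ?_
        gcongr
    _ = 2 * Real.pi * 27 * S * (q * ε ^ 2 * (q * ε) ^ (-(9/4) : ℝ)) := by ring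
    _ = 2 * Real.pi * 27 * S * (q ^ (-(5/4) : ℝ) * ε ^ (-(1/4) : ℝ)) := by rw [h4]
    _ ≤ (2 * Real.pi * 27 * S + 1) * (((h : ℝ) * k) ^ 4 * ε ^ (-(1/4) : ℝ)) := by
        gcongr
        linarith
    _ = (2 * Real.pi * 27 * S + 1) * ((h : ℝ) * k) ^ 4 * ε ^ (-(1/4) : ℝ) := by ring

end LZ
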