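import Pool.Agent.Lib.MP_0f5a55_nt.D0

open Complex MeasureTheory Set Filter Topology
open scoped ComplexConjugate

namespace LZ

private lemma A11_loc {g g' : ℝ → ℂ} {a : ℝ} (hg : ∀ x : ℝ, a ≤ x → HasDerivAt g (g' x) x)
    (hi' : IntegrableOn g' (Ioi a)) {b c : ℝ} (hab : a ≤ b) (hbc : b ≤ c) :
    ‖((c - b : ℝ) : ℂ) * g b - ∫ x in Ioc b c, g x‖ ≤ (c - b) * ∫ x in Ioc b c, ‖g' x‖ := by
  have hcont : ContinuousOn g (Icc b c) := fun x hx => (hg x (hab.trans hx.1)).continuousAt.continuousWithinAt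
  have hgi : IntegrableOn g (Ioc b c) := (hcont.integrableOn_Icc).mono_set Ioc_subset_Icc_self
  have hi2 : IntegrableOn g' (Ioc b c) := hi'.mono_set (fun x hx => lt_of_le_of_lt hab hx.1)
  have hvol : (volume (Ioc b c)).toReal = c - b := by
    rw [Real.volume_Ioc, ENNReal.toReal_ofReal (by linarith)]
  have h1 : ((c - b : ℝ) : ℂ) * g b = ∫ x in Ioc b c, g b := by
    rw [setIntegral_const, measureReal_def, hvol]
    simp
  rw [h1, ← integral_sub (by simp) hgi]
  have h2 : ∀ x ∈ Ioc b c, ‖g b - g x‖ ≤ ∫ x in Ioc b c, ‖g' x‖ := by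
    intro x hx
    have h3 : ∫ y in b..x, g' y = g x - g b := by
      apply intervalIntegral.integral_eq_sub_of_hasDerivAt
      · intro y hy
        rw [uIcc_of_le hx.1.le] at hy
        exact hg y (hab.trans hy.1)
      · rw [intervalIntegrable_iff_integrableOn_Ioc_of_le hx.1.le]
        exact hi2.mono_set (Ioc_subset_Ioc_right hx.2)
    rw [norm_sub_rev, ← h3, intervalIntegral.integral_of_le hx.1.le]
    refine (norm_integral_le_integral_norm _).trans ?_
    apply setIntegral_mono_set hi2.norm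
    · exact Filter.Eventually.of_forall fun y => norm_nonneg _
    · exact (Ioc_subset_Ioc_right hx.2).eventuallyLE
  have h4 := norm_setIntegral_le_of_norm_le_const (μ := volume) (s := Ioc b c) (f := fun x => g b - g x)
    (C := ∫ x in Ioc b c, ‖g' x‖) (by rw [Real.volume_Ioc]; exact ENNReal.ofReal_lt_top) h2
  rw [measureReal_def, hvol] at h4
  linarith

private lemma A11_union (a : ℝ) (k : ℕ) (hk : 1 ≤ k) :
    ⋃ j : ℕ, Ioc (a + j * k) (a + ((j + 1 : ℕ) : ℝ) * k) = Ioi a := by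
  have hk0 : (0 : ℝ) < k := by exact_mod_cast hk
  ext x
  rw [mem_iUnion, mem_Ioi]
  constructor
  · rintro ⟨j, hj⟩
    have : (0 : ℝ) ≤ (j : ℝ) * k := by positivity
    linarith [hj.1]
  · intro hx
    have hq : 0 < (x - a) / k := div_pos (by linarith) hk0
    have h1 : 0 < ⌈(x - a) / k⌉₊ := Nat.ceil_pos.mpr hq
    refine ⟨⌈(x - a) / k⌉₊ - 1, ?_, ?_⟩
    · have h2 := Nat.ceil_lt_add_one hq.le
      rw [Nat.cast_sub h1, Nat.cast_one]
      have h3 : ((⌈(x - a) / k⌉₊ : ℝ) - 1) < (x - a) / k := by linarith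
      rw [lt_div_iff₀ hk0] at h3
      linarith
    · rw [Nat.sub_add_cancel h1]
      have h2 := Nat.le_ceil ((x - a) / k)
      rw [div_le_iff₀ hk0] at h2
      linarith

private lemma A11_disj (a : ℝ) (k : ℕ) :
    Pairwise (Function.onFun Disjoint (fun j : ℕ => Ioc (a + j * k) (a + ((j + 1 : ℕ) : ℝ) * k))) := by
  have hmono : Monotone (fun j : ℕ => a + (j : ℝ) * k) := by
    intro i j hij
    have h1 : (i : ℝ) ≤ j := by exact_mod_cast hij
    have h2 : (0 : ℝ) ≤ k := Nat.cast_nonneg k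
    show a + (i : ℝ) * k ≤ a + (j : ℝ) * k
    nlinarith
  exact hmono.pairwise_disjoint_on_Ioc_succ

/-- sum versus integral: on [a+jk, a+(j+1)k] compare g with its value at the left end point. -/
theorem sum_int {g g' : ℝ → ℂ} {a : ℝ} (k : ℕ) (hk : 1 ≤ k) (hg : ∀ x : ℝ, a ≤ x → HasDerivAt g (g' x) x)
    (hi : IntegrableOn g (Ioi a)) (hi' : IntegrableOn g' (Ioi a)) :
    Summable (fun j : ℕ => g (a + j * k)) ∧
    ‖∑' j : ℕ, g (a + j * k) - (1 / (k : ℂ)) * ∫ x in Ioi a, g x‖ ≤ ∫ x in Ioi a, ‖g' x‖ := by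
  have hk0 : (0 : ℝ) < k := by exact_mod_cast hk
  have hkC : (k : ℂ) ≠ 0 := by exact_mod_cast hk0.ne'
  have hm : ∀ j : ℕ, MeasurableSet (Ioc (a + j * k) (a + ((j + 1 : ℕ) : ℝ) * k)) := fun j => measurableSet_Ioc
  have hU := A11_union a k hk
  have hD := A11_disj a k
  have s1 : HasSum (fun j : ℕ => ∫ x in Ioc (a + j * k) (a + ((j + 1 : ℕ) : ℝ) * k), g x) (∫ x in Ioi a, g x) := by
    have := hasSum_integral_iUnion (μ := volume) (f := g) hm hD (by rw [hU]; exact hi)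
    rwa [hU] at this
  have s2 : HasSum (fun j : ℕ => ∫ x in Ioc (a + j * k) (a + ((j + 1 : ℕ) : ℝ) * k), ‖g' x‖)
      (∫ x in Ioi a, ‖g' x‖) := by
    have := hasSum_integral_iUnion (μ := volume) (f := fun x => ‖g' x‖) hm hD (by rw [hU]; exact hi'.norm)
    rwa [hU] at this
  have hloc : ∀ j : ℕ, ‖g (a + j * k) - (1 / (k : ℂ)) * ∫ x in Ioc (a + j * k) (a + ((j + 1 : ℕ) : ℝ) * k), g x‖ ≤
      ∫ x in Ioc (a + j * k) (a + ((j + 1 : ℕ) : ℝ) * k), ‖g' x‖ := by
    intro j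
    have hj0 : (0 : ℝ) ≤ (j : ℝ) * k := by positivity
    have h1 := A11_loc hg hi' (b := a + j * k) (c := a + ((j + 1 : ℕ) : ℝ) * k) (by linarith)
      (by push_cast; linarith)
    have h2 : a + ((j + 1 : ℕ) : ℝ) * k - (a + j * k) = k := by push_cast; ring
    rw [h2] at h1
    have h3 : g (a + j * k) - (1 / (k : ℂ)) * ∫ x in Ioc (a + j * k) (a + ((j + 1 : ℕ) : ℝ) * k), g x =
        (1 / (k : ℂ)) * (((k : ℝ) : ℂ) * g (a + j * k) -
          ∫ x in Ioc (a + j * k) (a + ((j + 1 : ℕ) : ℝ) * k), g x) := by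
      push_cast; field_simp
    rw [h3, norm_mul, norm_div, norm_one, norm_natCast, one_div, inv_mul_le_iff₀ hk0]
    exact h1
  have s3 : Summable (fun j : ℕ => g (a + j * k) -
      (1 / (k : ℂ)) * ∫ x in Ioc (a + j * k) (a + ((j + 1 : ℕ) : ℝ) * k), g x) :=
    Summable.of_norm_bounded s2.summable hloc
  have s4 := s1.mul_left (1 / (k : ℂ))
  have s5 : Summable (fun j : ℕ => g (a + j * k)) := by
    have := s3.add s4.summable
    refine this.congr (fun j => ?_)
    ring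
  refine ⟨s5, ?_⟩
  have h6 : ∑' j : ℕ, g (a + j * k) - (1 / (k : ℂ)) * ∫ x in Ioi a, g x =
      ∑' j : ℕ, (g (a + j * k) - (1 / (k : ℂ)) * ∫ x in Ioc (a + j * k) (a + ((j + 1 : ℕ) : ℝ) * k), g x) := by
    rw [s5.tsum_sub s4.summable, s4.tsum_eq]
  rw [h6]
  exact tsum_of_norm_bounded s2 hloc

end LZ
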