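import Pool.Agent.Lib.MP_0f5a55_nt.D0

open Complex MeasureTheory Set Filter Topology
open scoped ComplexConjugate

namespace LZ

theorem A12_sin {k b : ℕ} (hb : 1 ≤ b) (hbk : b < k) : 2 / (k : ℝ) ≤ Real.sin (Real.pi * b / k) := by
  have hk : (0:ℝ) < k := by exact_mod_cast (by omega : 0 < k)
  have hb1 : (1:ℝ) ≤ b := by exact_mod_cast hb
  have hbk1 : (b:ℝ) + 1 ≤ k := by exact_mod_cast hbk
  have hpi := Real.pi_pos
  rcases le_total (2 * (b:ℝ)) k with h | h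
  · have h1 := Real.mul_le_sin (x := Real.pi * b / k) (by positivity) (by
      rw [div_le_div_iff₀ hk (by norm_num)]
      nlinarith)
    refine le_trans ?_ h1
    have : 2 / Real.pi * (Real.pi * b / k) = 2 * b / k := by field_simp
    rw [this]
    gcongr
    linarith
  · have h1 := Real.mul_le_sin (x := Real.pi * (k - b) / k) (by
      have : 0 ≤ (k:ℝ) - b := by linarith
      positivity) (by
      rw [div_le_div_iff₀ hk (by norm_num)]
      nlinarith)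
    have h2 : Real.sin (Real.pi * b / k) = Real.sin (Real.pi * (k - b) / k) := by
      rw [← Real.sin_pi_sub]
      congr 1
      field_simp
    rw [h2]
    refine le_trans ?_ h1
    have : 2 / Real.pi * (Real.pi * (k - b) / k) = 2 * (k - b) / k := by field_simp
    rw [this]
    gcongr
    linarith

/-- |exp(y+2 pi i b/k)-1|^2 = (e^y-1)^2+4e^y sin^2(pi b/k) >= max((e^y-1)^2, 16 e^y/k^2). -/
theorem fz_off {k b : ℕ} (hb : 1 ≤ b) (hbk : b < k) {y : ℝ} (hy : 0 ≤ y) :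
    exp ((y : ℂ) + 2 * Real.pi * I * b / k) - 1 ≠ 0 ∧
    ‖(exp ((y : ℂ) + 2 * Real.pi * I * b / k) - 1)⁻¹‖ ≤ 4 * (k : ℝ) ^ 2 * Real.exp (-y / 2) ∧
    ‖exp ((y : ℂ) + 2 * Real.pi * I * b / k) / (exp ((y : ℂ) + 2 * Real.pi * I * b / k) - 1) ^ 2‖ ≤
      4 * (k : ℝ) ^ 2 * Real.exp (-y / 2) := by
  have hk2 : (2:ℝ) ≤ k := by exact_mod_cast (by omega : 2 ≤ k)
  have hk : (0:ℝ) < k := by linarith
  set w : ℂ := exp ((y : ℂ) + 2 * Real.pi * I * b / k) with hw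
  set r : ℝ := Real.exp (y / 2) with hr
  have hr1 : 1 ≤ r := Real.one_le_exp (by linarith)
  have hrinv : Real.exp (-y / 2) = r⁻¹ := by
    rw [hr, ← Real.exp_neg]
    congr 1
    ring
  have hE : Real.exp y = r ^ 2 := by
    rw [hr, sq, ← Real.exp_add]
    congr 1
    ring
  set θ : ℝ := 2 * (Real.pi * b / k) with hθ
  have hwE : w = (Real.exp y : ℂ) * (Real.cos θ + Real.sin θ * I) := by
    rw [hw, ofReal_exp, ofReal_cos, ofReal_sin, ← exp_mul_I, ← exp_add]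
    congr 1
    rw [hθ]
    push_cast
    ring
  have hwn : ‖w‖ = r ^ 2 := by
    rw [hw, norm_exp, ← hE]
    congr 1
    have : ((y : ℂ) + 2 * Real.pi * I * b / k) = (y : ℂ) + (θ : ℂ) * I := by
      rw [hθ]
      push_cast
      ring
    rw [this]
    simp
  have hsq : ‖w - 1‖ ^ 2 = (r ^ 2 - 1) ^ 2 + 4 * r ^ 2 * Real.sin (Real.pi * b / k) ^ 2 := by
    have hwc : w - 1 = ((r ^ 2 * Real.cos θ - 1 : ℝ) : ℂ) + ((r ^ 2 * Real.sin θ : ℝ) : ℂ) * I := by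
      rw [hwE, hE]
      push_cast
      ring
    have hre : (w - 1).re = r ^ 2 * Real.cos θ - 1 := by
      rw [hwc, add_re, ofReal_re, mul_re, I_re, I_im, ofReal_im]
      ring
    have him : (w - 1).im = r ^ 2 * Real.sin θ := by
      rw [hwc, add_im, ofReal_im, mul_im, I_re, I_im, ofReal_re]
      ring
    rw [Complex.sq_norm, normSq_apply, hre, him]
    have h1 : Real.cos θ = 1 - 2 * Real.sin (Real.pi * b / k) ^ 2 := by
      rw [hθ, Real.cos_two_mul, Real.cos_sq']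
      ring
    have h2 := Real.sin_sq_add_cos_sq θ
    have h3 : (r ^ 2 * Real.cos θ - 1) * (r ^ 2 * Real.cos θ - 1) +
        r ^ 2 * Real.sin θ * (r ^ 2 * Real.sin θ) = (r ^ 2 - 1) ^ 2 + 2 * r ^ 2 * (1 - Real.cos θ) := by
      linear_combination r ^ 4 * h2
    rw [h3, h1]
    ring
  have hs := A12_sin hb hbk
  have hlow : 16 * r ^ 2 / (k : ℝ) ^ 2 + (r ^ 2 - 1) ^ 2 ≤ ‖w - 1‖ ^ 2 := by
    have h1 : (2 / (k : ℝ)) ^ 2 ≤ Real.sin (Real.pi * b / k) ^ 2 :=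
      pow_le_pow_left₀ (by positivity) hs 2
    have h2 : 16 * r ^ 2 / (k : ℝ) ^ 2 = 4 * r ^ 2 * (2 / (k : ℝ)) ^ 2 := by
      field_simp
      norm_num
    rw [hsq, h2]
    have : 4 * r ^ 2 * (2 / (k : ℝ)) ^ 2 ≤ 4 * r ^ 2 * Real.sin (Real.pi * b / k) ^ 2 := by gcongr
    linarith
  have hposn : 0 < ‖w - 1‖ := by
    by_contra h
    have h0 : ‖w - 1‖ = 0 := le_antisymm (not_lt.mp h) (norm_nonneg _)
    rw [h0] at hlow
    have : 0 < 16 * r ^ 2 / (k : ℝ) ^ 2 := by positivity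
    nlinarith [sq_nonneg (r ^ 2 - 1)]
  refine ⟨norm_pos_iff.mp hposn, ?_, ?_⟩
  · rw [norm_inv, hrinv, inv_le_comm₀ hposn (by positivity)]
    have h1 : (4 * r / k) ^ 2 ≤ ‖w - 1‖ ^ 2 := by
      refine le_trans ?_ hlow
      have : (4 * r / k) ^ 2 = 16 * r ^ 2 / (k : ℝ) ^ 2 := by ring
      rw [this]
      linarith [sq_nonneg (r ^ 2 - 1)]
    have h2 : 4 * r / k ≤ ‖w - 1‖ := by
      exact le_of_sq_le_sq h1 (norm_nonneg _)
    refine le_trans ?_ h2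
    rw [mul_inv, inv_inv, mul_inv]
    have h3 : (4:ℝ)⁻¹ * ((k : ℝ) ^ 2)⁻¹ * r = r / (4 * k ^ 2) := by
      field_simp
    rw [h3, div_le_div_iff₀ (by positivity) hk]
    have : r * k ≤ 4 * r * (4 * k ^ 2) := by nlinarith [mul_pos (by linarith : 0 < r) hk]
    exact this
  · rw [norm_div, norm_pow, hwn, hrinv, div_le_iff₀ (by positivity)]
    have key : r ^ 3 ≤ 4 * (k : ℝ) ^ 2 * ‖w - 1‖ ^ 2 := by
      have h1 : 4 * (k : ℝ) ^ 2 * (16 * r ^ 2 / (k : ℝ) ^ 2 + (r ^ 2 - 1) ^ 2) ≤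
          4 * (k : ℝ) ^ 2 * ‖w - 1‖ ^ 2 := by gcongr
      refine le_trans ?_ h1
      have h2 : 4 * (k : ℝ) ^ 2 * (16 * r ^ 2 / (k : ℝ) ^ 2 + (r ^ 2 - 1) ^ 2) =
          64 * r ^ 2 + 4 * (k : ℝ) ^ 2 * (r ^ 2 - 1) ^ 2 := by
        field_simp
        ring
      rw [h2]
      rcases le_total r 64 with h | h
      · have : r ^ 3 ≤ 64 * r ^ 2 := by nlinarith [sq_nonneg r]
        have h4 : 0 ≤ 4 * (k : ℝ) ^ 2 * (r ^ 2 - 1) ^ 2 := by positivity
        linarith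
      · have h4 : r ^ 3 ≤ (r ^ 2 - 1) ^ 2 := by
          have h5 : r ≤ r ^ 2 - 1 := by nlinarith
          have h6 : r ^ 2 ≤ 2 * (r ^ 2 - 1) := by nlinarith
          have h7 : r * r ^ 2 ≤ r * (2 * (r ^ 2 - 1)) := mul_le_mul_of_nonneg_left h6 (by linarith)
          have h8 : 2 * r ≤ r ^ 2 - 1 := by nlinarith
          have h9 : 2 * r * (r ^ 2 - 1) ≤ (r ^ 2 - 1) * (r ^ 2 - 1) :=
            mul_le_mul_of_nonneg_right h8 (by linarith)
          nlinarith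
        have h5 : (r ^ 2 - 1) ^ 2 ≤ 4 * (k : ℝ) ^ 2 * (r ^ 2 - 1) ^ 2 := by
          refine le_mul_of_one_le_left (sq_nonneg _) ?_
          nlinarith
        have h6 : 0 ≤ 64 * r ^ 2 := by positivity
        linarith
    have hr0 : 0 < r := by linarith
    calc r ^ 2 = r ^ 3 * r⁻¹ := by field_simp
      _ ≤ (4 * (k : ℝ) ^ 2 * ‖w - 1‖ ^ 2) * r⁻¹ := by gcongr
      _ = _ := by ring

end LZ
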