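import Pool.Agent.Lib.MP_0f5a55_nt.D0

open Complex MeasureTheory Set Filter Topology
open scoped ComplexConjugate

namespace LZ

private lemma A13_small {y : ℝ} (hy : 0 < y) (hy1 : y ≤ 1) :
    |(Real.exp y - 1) ^ 2 - y ^ 2 * Real.exp y| ≤ y ^ 4 := by
  have h1 : 1 + y + y ^ 2 / 2 ≤ Real.exp y := Real.quadratic_le_exp_of_nonneg hy.le
  have h2 := Real.exp_bound' hy.le hy1 (n := 3) (by norm_num)
  have h3 : Real.exp y ≤ 1 + y + y ^ 2 / 2 + y ^ 3 * (2/9) := by
    refine h2.trans (le_of_eq ?_)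
    simp [Finset.sum_range_succ, Nat.factorial]
    ring
  set r := Real.exp y - (1 + y + y ^ 2 / 2) with hr
  have hr0 : 0 ≤ r := by linarith
  have hr1 : r ≤ y ^ 3 * (2/9) := by linarith
  have he : Real.exp y = 1 + y + y ^ 2 / 2 + r := by linarith
  have h4 : (Real.exp y - 1) ^ 2 - y ^ 2 * Real.exp y = -(y ^ 4) / 4 + 2 * r * y + r ^ 2 := by
    rw [he]; ring
  have hy3 : 0 < y ^ 3 := by positivity
  have hy4 : 0 < y ^ 4 := by positivity
  have h5 : r * y ≤ y ^ 4 * (2/9) := by
    calc r * y ≤ (y ^ 3 * (2/9)) * y := mul_le_mul_of_nonneg_right hr1 hy.le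
      _ = y ^ 4 * (2/9) := by ring
  have h6 : r ^ 2 ≤ r * y := by
    have : r ≤ y := by
      have : y ^ 3 ≤ y := by
        calc y ^ 3 = y * y ^ 2 := by ring
          _ ≤ y * 1 := mul_le_mul_of_nonneg_left (by nlinarith) hy.le
          _ = y := mul_one y
      nlinarith
    nlinarith
  have h7 : 0 ≤ r * y := by positivity
  rw [h4, abs_le]
  constructor <;> nlinarith [sq_nonneg r]

private lemma A13_m {y : ℝ} (hy : 0 < y) : 0 < Real.exp y - 1 := by
  have := Real.add_one_lt_exp hy.ne'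
  linarith

private lemma A13_big {y : ℝ} (hy : 1 ≤ y) : Real.exp y / 2 ≤ Real.exp y - 1 := by
  have := Real.add_one_le_exp y
  linarith

private lemma A13_kexp {k : ℕ} (hk : 1 ≤ k) {y : ℝ} (hy : 0 < y) : Real.exp (-(k * y)) ≤ Real.exp (-y) := by
  apply Real.exp_le_exp.mpr
  have : (1 : ℝ) ≤ k := by exact_mod_cast hk
  nlinarith

/-- the class of multiples of k: phi(y) = 1/(e^y-1) - exp(-ky)/y and its derivative.
|e^(-x)(1+x)-1| <= x^2/2, 0 <= 1/y^2 - e^y/(e^y-1)^2 <= 1/12, 0 <= 1/y - 1/(e^y-1) <= 1; for y >= 1 crude. -/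
theorem phi0_bounds : ∃ C : ℝ, 0 < C ∧ ∀ k : ℕ, 1 ≤ k → ∀ y : ℝ, 0 < y →
    HasDerivAt (fun y : ℝ => 1 / (Real.exp y - 1) - Real.exp (-(k * y)) / y)
      (-Real.exp y / (Real.exp y - 1) ^ 2 + k * Real.exp (-(k * y)) / y + Real.exp (-(k * y)) / y ^ 2) y ∧
    |1 / (Real.exp y - 1) - Real.exp (-(k * y)) / y| ≤ C * (k : ℝ) ^ 2 * Real.exp (-y / 2) ∧
    |-Real.exp y / (Real.exp y - 1) ^ 2 + k * Real.exp (-(k * y)) / y + Real.exp (-(k * y)) / y ^ 2| ≤
      C * (k : ℝ) ^ 2 * Real.exp (-y / 2) := by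
  refine ⟨12, by norm_num, ?_⟩
  intro k hk y hy
  have hk1 : (1 : ℝ) ≤ k := by exact_mod_cast hk
  have hk2 : (1 : ℝ) ≤ (k : ℝ) ^ 2 := by nlinarith
  have hkk : (k : ℝ) ≤ (k : ℝ) ^ 2 := by nlinarith
  have hm := A13_m hy
  refine ⟨?_, ?_, ?_⟩
  · have h1 : HasDerivAt (fun y : ℝ => Real.exp y - 1) (Real.exp y) y := (Real.hasDerivAt_exp y).sub_const 1
    have h2 := h1.inv hm.ne'
    have h3 : HasDerivAt (fun y : ℝ => -((k : ℝ) * y)) (-(k : ℝ)) y := by
      have h0 := ((hasDerivAt_id y).const_mul (k : ℝ)).neg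
      exact (h0.congr_deriv (by simp)).congr_of_eventuallyEq (Filter.Eventually.of_forall fun z => by simp)
    have h4 := h3.exp.div (hasDerivAt_id y) hy.ne'
    have h5 := h2.sub h4
    refine (h5.congr_deriv ?_).congr_of_eventuallyEq (Filter.Eventually.of_forall fun z => ?_)
    · simp only [id]
      field_simp
      ring
    · simp
  · rcases le_total y 1 with h | h
    · have h1 : 1 / (Real.exp y - 1) ≤ 1 / y := by
        apply one_div_le_one_div_of_le hy
        linarith [Real.add_one_le_exp y]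
      have h2 : 1 / y - 1 ≤ 1 / (Real.exp y - 1) := by
        have h3 : 1 - y ≤ Real.exp (-y) := by linarith [Real.add_one_le_exp (-y)]
        have h4 : Real.exp y * (1 - y) ≤ 1 := by
          calc Real.exp y * (1 - y) ≤ Real.exp y * Real.exp (-y) :=
                mul_le_mul_of_nonneg_left h3 (Real.exp_pos _).le
            _ = 1 := by rw [← Real.exp_add]; simp
        have h5 : 1 / y - 1 = (1 - y) / y := by field_simp
        rw [h5, div_le_div_iff₀ hy hm]
        linarith
      have h3 : Real.exp (-(k * y)) / y ≤ 1 / y := by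
        apply div_le_div_of_nonneg_right _ hy.le
        exact Real.exp_le_one_iff.mpr (by have : 0 < (k : ℝ) * y := by positivity
                                          linarith)
      have h4 : 1 / y - k ≤ Real.exp (-(k * y)) / y := by
        have h5 : 1 - k * y ≤ Real.exp (-(k * y)) := by linarith [Real.add_one_le_exp (-((k : ℝ) * y))]
        have h6 : 1 / y - k = (1 - k * y) / y := by field_simp
        rw [h6]
        exact div_le_div_of_nonneg_right h5 hy.le
      have h7 : |1 / (Real.exp y - 1) - Real.exp (-(k * y)) / y| ≤ k := by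
        rw [abs_le]
        constructor <;> linarith
      have h8 : (1 : ℝ) ≤ 2 * Real.exp (-y / 2) := by
        have := Real.add_one_le_exp (-y / 2)
        linarith
      calc |1 / (Real.exp y - 1) - Real.exp (-(k * y)) / y| ≤ k := h7
        _ ≤ (k : ℝ) ^ 2 * (2 * Real.exp (-y / 2)) := by nlinarith
        _ ≤ 12 * (k : ℝ) ^ 2 * Real.exp (-y / 2) := by
            have : 0 ≤ (k : ℝ) ^ 2 * Real.exp (-y / 2) := by positivity
            linarith
    · have hb := A13_big h
      have h1 : 1 / (Real.exp y - 1) ≤ 2 * Real.exp (-y) := by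
        rw [Real.exp_neg, div_le_iff₀ hm]
        have : 2 * (Real.exp y)⁻¹ * (Real.exp y / 2) = 1 := by field_simp
        calc (1 : ℝ) = 2 * (Real.exp y)⁻¹ * (Real.exp y / 2) := this.symm
          _ ≤ 2 * (Real.exp y)⁻¹ * (Real.exp y - 1) := mul_le_mul_of_nonneg_left hb (by positivity)
      have h2 : Real.exp (-(k * y)) / y ≤ Real.exp (-y) := by
        calc Real.exp (-(k * y)) / y ≤ Real.exp (-(k * y)) := div_le_self (Real.exp_pos _).le h
          _ ≤ Real.exp (-y) := A13_kexp hk hy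
      have h3 : 0 ≤ 1 / (Real.exp y - 1) := by positivity
      have h4 : 0 ≤ Real.exp (-(k * y)) / y := by positivity
      have h5 : Real.exp (-y) ≤ Real.exp (-y / 2) := Real.exp_le_exp.mpr (by linarith)
      have h6 : 0 < Real.exp (-y / 2) := Real.exp_pos _
      calc |1 / (Real.exp y - 1) - Real.exp (-(k * y)) / y| ≤ 3 * Real.exp (-y / 2) := by
            rw [abs_le]
            constructor <;> linarith
        _ ≤ 12 * (k : ℝ) ^ 2 * Real.exp (-y / 2) := by nlinarith
  · rcases le_total y 1 with h | h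
    · have h0 := A13_small hy h
      have hy2 : y ^ 2 ≤ (Real.exp y - 1) ^ 2 := by
        apply pow_le_pow_left₀ hy.le
        linarith [Real.add_one_le_exp y]
      have h1 : |1 / y ^ 2 - Real.exp y / (Real.exp y - 1) ^ 2| ≤ 1 := by
        have h2 : 1 / y ^ 2 - Real.exp y / (Real.exp y - 1) ^ 2 =
            ((Real.exp y - 1) ^ 2 - y ^ 2 * Real.exp y) / (y ^ 2 * (Real.exp y - 1) ^ 2) := by
          field_simp
        rw [h2, abs_div, abs_of_pos (show 0 < y ^ 2 * (Real.exp y - 1) ^ 2 by positivity),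
          div_le_one (by positivity)]
        calc |(Real.exp y - 1) ^ 2 - y ^ 2 * Real.exp y| ≤ y ^ 4 := h0
          _ = y ^ 2 * y ^ 2 := by ring
          _ ≤ y ^ 2 * (Real.exp y - 1) ^ 2 := mul_le_mul_of_nonneg_left hy2 (by positivity)
      have h2 : |k * Real.exp (-(k * y)) / y + Real.exp (-(k * y)) / y ^ 2 - 1 / y ^ 2| ≤ (k : ℝ) ^ 2 := by
        have h3 : k * Real.exp (-(k * y)) / y + Real.exp (-(k * y)) / y ^ 2 - 1 / y ^ 2 =
            (Real.exp (-(k * y)) * (1 + k * y) - 1) / y ^ 2 := by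
          field_simp; ring
        have hx : 0 < (k : ℝ) * y := by positivity
        have h4 : Real.exp (-(k * y)) * (1 + k * y) ≤ 1 := by
          calc Real.exp (-(k * y)) * (1 + k * y) ≤ Real.exp (-(k * y)) * Real.exp (k * y) :=
                mul_le_mul_of_nonneg_left (by linarith [Real.add_one_le_exp ((k : ℝ) * y)]) (Real.exp_pos _).le
            _ = 1 := by rw [← Real.exp_add]; simp
        have h5 : 1 - (k * y) ^ 2 ≤ Real.exp (-(k * y)) * (1 + k * y) := by
          calc 1 - ((k : ℝ) * y) ^ 2 = (1 - k * y) * (1 + k * y) := by ring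
            _ ≤ Real.exp (-(k * y)) * (1 + k * y) :=
                mul_le_mul_of_nonneg_right (by linarith [Real.add_one_le_exp (-((k : ℝ) * y))]) (by linarith)
        rw [h3, abs_div, abs_of_pos (show 0 < y ^ 2 by positivity), div_le_iff₀ (by positivity), abs_le]
        constructor
        · nlinarith
        · have : 0 ≤ (k : ℝ) ^ 2 * y ^ 2 := by positivity
          linarith
      have h3 : -Real.exp y / (Real.exp y - 1) ^ 2 + k * Real.exp (-(k * y)) / y + Real.exp (-(k * y)) / y ^ 2 =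
          (1 / y ^ 2 - Real.exp y / (Real.exp y - 1) ^ 2) +
          (k * Real.exp (-(k * y)) / y + Real.exp (-(k * y)) / y ^ 2 - 1 / y ^ 2) := by ring
      have h8 : (1 : ℝ) ≤ 2 * Real.exp (-y / 2) := by
        have := Real.add_one_le_exp (-y / 2)
        linarith
      rw [h3]
      calc |(1 / y ^ 2 - Real.exp y / (Real.exp y - 1) ^ 2) +
          (k * Real.exp (-(k * y)) / y + Real.exp (-(k * y)) / y ^ 2 - 1 / y ^ 2)|
          ≤ 1 + (k : ℝ) ^ 2 := (abs_add_le _ _).trans (by linarith)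
        _ ≤ 2 * (k : ℝ) ^ 2 * 1 := by linarith
        _ ≤ 2 * (k : ℝ) ^ 2 * (2 * Real.exp (-y / 2)) := mul_le_mul_of_nonneg_left h8 (by positivity)
        _ ≤ 12 * (k : ℝ) ^ 2 * Real.exp (-y / 2) := by
            have : 0 ≤ (k : ℝ) ^ 2 * Real.exp (-y / 2) := by positivity
            linarith
    · have hb := A13_big h
      have h1 : Real.exp y / (Real.exp y - 1) ^ 2 ≤ 4 * Real.exp (-y) := by
        rw [Real.exp_neg, div_le_iff₀ (by positivity)]
        have h2 : (Real.exp y / 2) ^ 2 ≤ (Real.exp y - 1) ^ 2 := pow_le_pow_left₀ (by positivity) hb 2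
        calc Real.exp y = 4 * (Real.exp y)⁻¹ * (Real.exp y / 2) ^ 2 := by field_simp; ring
          _ ≤ 4 * (Real.exp y)⁻¹ * (Real.exp y - 1) ^ 2 := mul_le_mul_of_nonneg_left h2 (by positivity)
      have hke := A13_kexp hk hy
      have h2 : k * Real.exp (-(k * y)) / y ≤ k * Real.exp (-y) := by
        calc k * Real.exp (-(k * y)) / y ≤ k * Real.exp (-(k * y)) := div_le_self (by positivity) h
          _ ≤ k * Real.exp (-y) := mul_le_mul_of_nonneg_left hke (by positivity)
      have h3 : Real.exp (-(k * y)) / y ^ 2 ≤ Real.exp (-y) := by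
        calc Real.exp (-(k * y)) / y ^ 2 ≤ Real.exp (-(k * y)) := div_le_self (by positivity) (by nlinarith)
          _ ≤ Real.exp (-y) := hke
      have h4 : 0 ≤ Real.exp y / (Real.exp y - 1) ^ 2 := by positivity
      have h5 : 0 ≤ k * Real.exp (-(k * y)) / y := by positivity
      have h6 : 0 ≤ Real.exp (-(k * y)) / y ^ 2 := by positivity
      have h7 : Real.exp (-y) ≤ Real.exp (-y / 2) := Real.exp_le_exp.mpr (by linarith)
      have h8 : 0 < Real.exp (-y / 2) := Real.exp_pos _
      have h9 : 0 < Real.exp (-y) := Real.exp_pos _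
      have h10 : (k : ℝ) * Real.exp (-y) ≤ (k : ℝ) ^ 2 * Real.exp (-y / 2) :=
        mul_le_mul hkk h7 h9.le (by positivity)
      have h11 : Real.exp (-y) ≤ (k : ℝ) ^ 2 * Real.exp (-y / 2) := by nlinarith
      rw [neg_div, abs_le]
      constructor <;> linarith

end LZ
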