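import Pool.Agent.Lib.MP_0f5a55_nt.D0

open Complex MeasureTheory Set Filter Topology
open scoped ComplexConjugate

namespace LZ

/-- sum of the powers of the roots of unity -/
private lemma A14_sum {k : ℕ} {ζ : ℂ} (hζ : IsPrimitiveRoot ζ k) {j : ℕ} (hj : j < k) :
    ∑ a ∈ Finset.range k, (ζ ^ a) ^ j = if j = 0 then (k : ℂ) else 0 := by
  split_ifs with h
  · rw [h]
    simp
  · have h1 : ζ ^ j ≠ 1 := hζ.pow_ne_one_of_pos_of_lt h hj
    have h2 : ∑ a ∈ Finset.range k, (ζ ^ a) ^ j = ∑ a ∈ Finset.range k, (ζ ^ j) ^ a := by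
      refine Finset.sum_congr rfl fun a _ => ?_
      rw [← pow_mul, ← pow_mul, mul_comm]
    rw [h2, geom_sum_eq h1, ← pow_mul, mul_comm, pow_mul, hζ.pow_eq_one, one_pow, sub_self, zero_div]

/-- partial fractions over the k-th roots of unity; or: for y>0 expand in geometric series and use orthogonality. -/
theorem roots_sum (k : ℕ) (hk : 1 ≤ k) (y : ℝ) (hy : 0 < y) :
    ∑ a ∈ Finset.range k, (exp ((y : ℂ) + 2 * Real.pi * I * a / k) - 1)⁻¹ =
      k * (exp ((k : ℂ) * y) - 1)⁻¹ := by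
  have hk0 : k ≠ 0 := by omega
  have hζ := Complex.isPrimitiveRoot_exp k hk0
  set ζ : ℂ := exp (2 * Real.pi * I / k) with hζdef
  set z : ℂ := exp (y : ℂ) with hz
  have hzn : ‖z‖ = Real.exp y := by rw [hz, Complex.norm_exp_ofReal]
  have hz1 : 1 < ‖z‖ := by
    rw [hzn]
    exact Real.one_lt_exp_iff.mpr hy
  have hW : exp ((k : ℂ) * y) = z ^ k := by
    rw [hz, ← Complex.exp_nat_mul]
  have hW1 : z ^ k - 1 ≠ 0 := by
    intro h
    have h1 : z ^ k = 1 := sub_eq_zero.mp h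
    have h2 := congrArg norm h1
    rw [norm_pow, norm_one] at h2
    exact absurd h2 (one_lt_pow₀ hz1 hk0).ne'
  have hw : ∀ a : ℕ, exp ((y : ℂ) + 2 * Real.pi * I * a / k) = z * ζ ^ a := by
    intro a
    rw [Complex.exp_add, hζdef, ← Complex.exp_nat_mul]
    congr 2
    ring
  have hζn : ‖ζ‖ = 1 := hζ.norm'_eq_one hk0
  have hinv : ∀ a : ℕ, (z * ζ ^ a - 1)⁻¹ = (∑ j ∈ Finset.range k, z ^ j * (ζ ^ a) ^ j) * (z ^ k - 1)⁻¹ := by
    intro a
    have h1 : z * ζ ^ a ≠ 1 := by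
      intro h
      have h2 := congrArg norm h
      rw [norm_mul, norm_pow, hζn, one_pow, mul_one, norm_one] at h2
      exact absurd h2 hz1.ne'
    have h3 : z * ζ ^ a - 1 ≠ 0 := sub_ne_zero.mpr h1
    have h4 : ∑ j ∈ Finset.range k, z ^ j * (ζ ^ a) ^ j = ((z * ζ ^ a) ^ k - 1) / (z * ζ ^ a - 1) := by
      rw [← geom_sum_eq h1]
      refine Finset.sum_congr rfl fun j _ => ?_
      rw [mul_pow]
    have h5 : (z * ζ ^ a) ^ k = z ^ k := by
      rw [mul_pow, ← pow_mul, mul_comm a k, pow_mul, hζ.pow_eq_one, one_pow, mul_one]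
    rw [h4, h5]
    field_simp
  rw [hW]
  have h6 : ∑ a ∈ Finset.range k, (exp ((y : ℂ) + 2 * Real.pi * I * a / k) - 1)⁻¹
      = ∑ a ∈ Finset.range k, (∑ j ∈ Finset.range k, z ^ j * (ζ ^ a) ^ j) * (z ^ k - 1)⁻¹ := by
    refine Finset.sum_congr rfl fun a _ => ?_
    rw [hw, hinv]
  rw [h6, ← Finset.sum_mul, Finset.sum_comm]
  congr 1
  have h7 : ∀ j ∈ Finset.range k, ∑ a ∈ Finset.range k, z ^ j * (ζ ^ a) ^ j
      = if j = 0 then (k : ℂ) else 0 := by
    intro j hj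
    rw [← Finset.mul_sum, A14_sum hζ (Finset.mem_range.mp hj)]
    split_ifs with h
    · rw [h, pow_zero, one_mul]
    · rw [mul_zero]
  rw [Finset.sum_congr rfl h7, Finset.sum_ite_eq' (Finset.range k) 0 (fun _ => (k : ℂ)),
    if_pos (Finset.mem_range.mpr (by omega))]

end LZ
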