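import Pool.Agent.Lib.MP_0f5a55_nt.D0

open Complex MeasureTheory Set Filter Topology
open scoped ComplexConjugate

namespace LZ

theorem A15_f1 {y : ℝ} (hy : 0 < y) : 0 ≤ f1 y ∧ f1 y ≤ Real.exp (-y) := by
  unfold f1
  rw [Real.exp_neg]
  have h1 : y + 1 ≤ Real.exp y := Real.add_one_le_exp y
  have h2 : 1 - y ≤ (Real.exp y)⁻¹ := by
    rw [← Real.exp_neg]; linarith [Real.add_one_le_exp (-y)]
  set E := Real.exp y with hE
  have hE0 : 0 < E := Real.exp_pos y
  have hE1 : 0 < E - 1 := by linarith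
  have h3 : E * (1 - y) ≤ 1 := by
    calc E * (1 - y) ≤ E * E⁻¹ := by gcongr
      _ = 1 := mul_inv_cancel₀ hE0.ne'
  constructor
  · rw [sub_nonneg, ← one_div, div_div, div_le_div_iff₀ (by positivity) hE1]
    linarith
  · rw [sub_le_iff_le_add, ← one_div, div_div, div_add_div _ _ (by positivity) (by positivity),
      div_le_div_iff₀ hE1 (by positivity)]
    nlinarith [mul_nonneg hE0.le (by linarith : 0 ≤ E - 1 - y)]

/-- |zeta(1+eta)| and |Ac eta|: |Gamma(1-eta)| <= Gamma(1-Re eta), f1 bounded by C exp(-y/2). -/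
theorem zA_bounds (V : ℝ) (hV : 0 ≤ V) : ∃ C : ℝ, 0 < C ∧ ∀ η : ℂ, |η.re| ≤ 1/8 → |η.im| ≤ V → η ≠ 0 →
    ‖riemannZeta (1 + η)‖ ≤ C * (1 + 1 / ‖η‖) ∧ ‖Ac η‖ ≤ C * (1 + 1 / ‖η‖) := by
  set S : Set ℂ := Icc (-(1/8 : ℝ)) (1/8) ×ℂ Icc (-V) V with hS
  have hSc : IsCompact S := isCompact_Icc.reProdIm isCompact_Icc
  have hmem : ∀ η : ℂ, |η.re| ≤ 1/8 → |η.im| ≤ V → η ∈ S := by
    intro η h1 h2
    rw [hS, mem_reProdIm]
    exact ⟨abs_le.1 h1, abs_le.1 h2⟩
  have hre : ∀ η ∈ S, |η.re| ≤ 1/8 := by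
    intro η h
    rw [hS, mem_reProdIm] at h
    exact abs_le.2 h.1
  -- zeta
  obtain ⟨C1, hC1⟩ := hSc.exists_bound_of_continuousOn (f := fun η : ℂ => riemannZeta₁ (1 + η))
    (by
      refine Continuous.continuousOn ?_
      exact differentiable_riemannZeta₁.continuous.comp (by fun_prop))
  obtain ⟨C2, hC2⟩ := hSc.exists_bound_of_continuousOn (f := fun η : ℂ => Gamma (1 - η))
    (by
      intro η hη
      have h1 := abs_le.1 (hre η hη)
      refine ContinuousAt.continuousWithinAt ?_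
      refine ContinuousAt.comp (g := Gamma) (f := fun η : ℂ => 1 - η) ?_ (by fun_prop)
      refine (differentiableAt_Gamma _ ?_).continuousAt
      intro m h
      have h2 := congrArg Complex.re h
      simp only [sub_re, one_re, neg_re, natCast_re] at h2
      have h3 : (0 : ℝ) ≤ m := Nat.cast_nonneg m
      linarith)
  set g : ℝ → ℝ := fun y => y ^ (-(1/8 : ℝ)) * Real.exp (-y) + y ^ (1/8 : ℝ) * Real.exp (-y) with hg
  have hgi : IntegrableOn g (Ioi 0) := by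
    refine Integrable.add ?_ ?_
    · have h := integrableOn_rpow_mul_exp_neg_mul_rpow (s := -(1/8 : ℝ)) (p := 1) (b := 1) (by norm_num) one_pos one_pos
      refine h.congr_fun (fun t _ => ?_) measurableSet_Ioi
      simp only [Real.rpow_one, neg_mul, one_mul]
    · have h := integrableOn_rpow_mul_exp_neg_mul_rpow (s := (1/8 : ℝ)) (p := 1) (b := 1) (by norm_num) one_pos one_pos
      refine h.congr_fun (fun t _ => ?_) measurableSet_Ioi
      simp only [Real.rpow_one, neg_mul, one_mul]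
  set C3 : ℝ := ∫ y in Ioi (0 : ℝ), g y with hC3
  have hint : ∀ η : ℂ, |η.re| ≤ 1/8 → ‖∫ y in Ioi (0:ℝ), (y : ℂ) ^ (-η) * (f1 y : ℂ)‖ ≤ C3 := by
    intro η hη
    refine norm_integral_le_of_norm_le hgi ?_
    refine (ae_restrict_iff' measurableSet_Ioi).2 (Eventually.of_forall fun y hy => ?_)
    have hy0 : (0 : ℝ) < y := hy
    obtain ⟨h1, h2⟩ := A15_f1 hy0
    obtain ⟨h3, h4⟩ := abs_le.1 hη
    rw [norm_mul, Complex.norm_cpow_eq_rpow_re_of_pos hy0, neg_re, Complex.norm_real, Real.norm_of_nonneg h1]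
    have h5 : y ^ (-η.re) ≤ y ^ (-(1/8 : ℝ)) + y ^ (1/8 : ℝ) := by
      rcases le_total 1 y with h | h
      · have := Real.rpow_le_rpow_of_exponent_le h (by linarith : -η.re ≤ 1/8)
        have h6 : 0 ≤ y ^ (-(1/8 : ℝ)) := by positivity
        linarith
      · have := Real.rpow_le_rpow_of_exponent_ge hy0 h (by linarith : -(1/8) ≤ -η.re)
        have h6 : 0 ≤ y ^ (1/8 : ℝ) := by positivity
        linarith
    calc y ^ (-η.re) * f1 y ≤ (y ^ (-(1/8 : ℝ)) + y ^ (1/8 : ℝ)) * Real.exp (-y) := by gcongr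
      _ = g y := by rw [hg]; ring
  have hC3' : 0 ≤ C3 := (norm_nonneg _).trans (hint 0 (by simp))
  refine ⟨|C1| + |C2| + C3 + 1, by positivity, fun η h1 h2 h0 => ?_⟩
  have hn : 0 < ‖η‖ := norm_pos_iff.2 h0
  have hi : 0 < 1 / ‖η‖ := by positivity
  constructor
  · have h3 := hC1 η (hmem η h1 h2)
    have h4 : riemannZeta (1 + η) = riemannZeta₁ (1 + η) / η := by
      have h6 : (1 : ℂ) + η ≠ 1 := by
        intro h
        exact h0 (by simpa using h)
      rw [riemannZeta_eq_inv_sub_mul h6, add_sub_cancel_left, div_eq_inv_mul]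
    rw [h4, norm_div, div_eq_mul_one_div]
    have h5 : ‖riemannZeta₁ (1 + η)‖ ≤ |C1| + |C2| + C3 + 1 := by
      have := le_abs_self C1
      have := abs_nonneg C2
      linarith
    calc ‖riemannZeta₁ (1 + η)‖ * (1 / ‖η‖) ≤ (|C1| + |C2| + C3 + 1) * (1 / ‖η‖) := by gcongr
      _ ≤ (|C1| + |C2| + C3 + 1) * (1 + 1 / ‖η‖) := by gcongr; linarith
  · unfold Ac
    have h3 := hC2 η (hmem η h1 h2)
    refine (norm_add_le _ _).trans ?_
    rw [norm_div, norm_neg, div_eq_mul_one_div]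
    have a1 : ‖Gamma (1 - η)‖ * (1 / ‖η‖) ≤ (|C1| + |C2| + C3 + 1) * (1 / ‖η‖) := by
      gcongr
      have := le_abs_self C2
      have := abs_nonneg C1
      linarith
    have a2 : ‖∫ y in Ioi (0:ℝ), (y : ℂ) ^ (-η) * (f1 y : ℂ)‖ ≤ |C1| + |C2| + C3 + 1 := by
      have := hint η h1
      have := abs_nonneg C1
      have := abs_nonneg C2
      linarith
    calc ‖Gamma (1 - η)‖ * (1 / ‖η‖) + ‖∫ y in Ioi (0:ℝ), (y : ℂ) ^ (-η) * (f1 y : ℂ)‖
        ≤ (|C1| + |C2| + C3 + 1) * (1 / ‖η‖) + (|C1| + |C2| + C3 + 1) := add_le_add a1 a2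
      _ = (|C1| + |C2| + C3 + 1) * (1 + 1 / ‖η‖) := by ring

end LZ
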