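import Pool.Agent.Lib.MP_0f5a55_nt.D0
import Pool.Agent.Lib.MP_0f5a55_nt.X1

open Complex MeasureTheory Set Filter Topology
open scoped ComplexConjugate

namespace LZ

private lemma A16_integrable (η : ℂ) (hη : -1/2 ≤ η.re) :
    IntegrableOn (fun x : ℝ => ((Int.fract x : ℝ) : ℂ) * (x : ℂ) ^ (-2 - η)) (Ioi 1) := by
  have h1 : IntegrableOn (fun x : ℝ => (x : ℂ) ^ (-2 - η)) (Ioi 1) := by
    apply integrableOn_Ioi_cpow_of_lt _ one_pos
    simp only [sub_re, neg_re, re_ofNat]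
    linarith
  refine Integrable.bdd_mul (c := 1) h1 ?_ ?_
  · exact (Complex.measurable_ofReal.comp measurable_fract).aestronglyMeasurable
  · refine Eventually.of_forall fun x => ?_
    rw [Complex.norm_real, Real.norm_eq_abs, abs_of_nonneg (Int.fract_nonneg x)]
    exact (Int.fract_lt_one x).le

private lemma A16_cell (η : ℂ) (hη : -1/2 ≤ η.re) (n : ℕ) :
    LZX.vt n (1 + η) = η * (((n : ℂ) + 1) ^ (-(1 + η)) - ((n : ℂ) + 2) ^ (-(1 + η))) -
      η * (1 + η) * ∫ x in ((n : ℝ) + 1)..((n : ℝ) + 2),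
        ((Int.fract x : ℝ) : ℂ) * (x : ℂ) ^ (-2 - η) := by
  have hn : (0 : ℝ) < (n : ℝ) + 1 := by positivity
  set F : ℝ → ℂ := fun x => -η * (((x : ℂ) - (n + 1)) * (x : ℂ) ^ (-(1 + η))) - (x : ℂ) ^ (-η)
    with hF
  have hint : IntervalIntegrable (fun x : ℝ => η * (1 + η) *
      (((Int.fract x : ℝ) : ℂ) * (x : ℂ) ^ (-2 - η))) volume ((n : ℝ) + 1) ((n : ℝ) + 2) := by
    apply IntervalIntegrable.const_mul
    rw [intervalIntegrable_iff_integrableOn_Ioc_of_le (by linarith)]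
    refine (A16_integrable η hη).mono_set ?_
    intro x hx
    have : (1 : ℝ) ≤ (n : ℝ) + 1 := by
      have : (0 : ℝ) ≤ n := Nat.cast_nonneg n
      linarith
    exact lt_of_le_of_lt this hx.1
  have hder : ∀ x : ℝ, 0 < x → HasDerivAt F (η * (1 + η) *
      (((x : ℂ) - (n + 1)) * (x : ℂ) ^ (-2 - η))) x := by
    intro x hx
    have hx' : (x : ℂ) ∈ slitPlane := by
      left
      simpa using hx
    have hx0 : (x : ℂ) ≠ 0 := by exact_mod_cast hx.ne'
    have h1 : HasDerivAt (fun z : ℂ => -η * ((z - (n + 1)) * z ^ (-(1 + η))) - z ^ (-η))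
        (-η * (1 * (x : ℂ) ^ (-(1 + η)) + ((x : ℂ) - (n + 1)) *
          (-(1 + η) * (x : ℂ) ^ (-(1 + η) - 1) * 1)) - (-η * (x : ℂ) ^ (-η - 1) * 1)) (x : ℂ) :=
      ((((hasDerivAt_id _).sub_const _).mul ((hasDerivAt_id _).cpow_const hx')).const_mul _).sub
        ((hasDerivAt_id _).cpow_const hx')
    have h2 := h1.comp_ofReal
    convert h2 using 1
    have e1 : -(1 + η) - 1 = -2 - η := by ring
    have e2 : -η - 1 = -(1 + η) := by ring
    rw [e1, e2]
    ring
  have hcont : ContinuousOn F (Icc ((n : ℝ) + 1) ((n : ℝ) + 2)) := by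
    intro x hx
    exact (hder x (hn.trans_le hx.1)).continuousAt.continuousWithinAt
  have hFTC := intervalIntegral.integral_eq_sub_of_hasDerivAt_of_le
    (show (n : ℝ) + 1 ≤ (n : ℝ) + 2 by linarith) hcont (f' := fun x : ℝ => η * (1 + η) *
      (((Int.fract x : ℝ) : ℂ) * (x : ℂ) ^ (-2 - η))) (fun x hx => ?_) hint
  · rw [intervalIntegral.integral_const_mul] at hFTC
    rw [hFTC, hF, LZX.vt]
    have e1 : ((((n : ℝ) + 2 : ℝ) : ℂ)) = (n : ℂ) + 2 := by push_cast; ring
    have e2 : ((((n : ℝ) + 1 : ℝ) : ℂ)) = (n : ℂ) + 1 := by push_cast; ring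
    have e3 : (1 : ℂ) - (1 + η) = -η := by ring
    simp only [e1, e2, e3]
    ring
  · have hfr : Int.fract x = x - ((n : ℝ) + 1) := by
      rw [Int.fract_eq_iff]
      refine ⟨by linarith [hx.1], by linarith [hx.2], (n : ℤ) + 1, ?_⟩
      push_cast
      ring
    have h3 := hder x (hn.trans hx.1)
    have e : ((Int.fract x : ℝ) : ℂ) = (x : ℂ) - (n + 1) := by
      rw [hfr]
      push_cast
      ring
    rw [e]
    exact h3

/-- Euler-Maclaurin form of zeta near s = 1: zeta(1+eta) = 1/eta + 1 - (1+eta) int_1^oo {x} x^(-2-eta) dx for Re eta > -1,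
eta <> 0 (from zeta_formula / vt_tsum, or directly by analytic continuation). -/
theorem zeta_frac (η : ℂ) (hη : -1/2 ≤ η.re) (h0 : η ≠ 0) :
    riemannZeta (1 + η) = 1 / η + 1 - (1 + η) * ∫ x in Ioi (1:ℝ), ((Int.fract x : ℝ) : ℂ) * (x : ℂ) ^ (-2 - η) := by
  set g : ℝ → ℂ := fun x => ((Int.fract x : ℝ) : ℂ) * (x : ℂ) ^ (-2 - η) with hg
  have hs : 0 < (1 + η).re := by
    rw [add_re, one_re]
    linarith
  have hs1 : 1 + η ≠ 1 := by
    intro h
    apply h0
    linear_combination h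
  have h1 := LZX.zeta_formula hs hs1
  have h2 : Tendsto (fun N : ℕ => ∑ n ∈ Finset.range N, LZX.vt n (1 + η)) atTop
      (𝓝 (∑' n, LZX.vt n (1 + η))) := (LZX.vt_summable hs).hasSum.tendsto_sum_nat
  have hgi : ∀ n : ℕ, IntervalIntegrable g volume ((n : ℝ) + 1) ((n : ℝ) + 2) := by
    intro n
    rw [intervalIntegrable_iff_integrableOn_Ioc_of_le (by linarith)]
    refine (A16_integrable η hη).mono_set ?_
    intro x hx
    have : (1 : ℝ) ≤ (n : ℝ) + 1 := by
      have : (0 : ℝ) ≤ n := Nat.cast_nonneg n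
      linarith
    exact lt_of_le_of_lt this hx.1
  have h3 : ∀ N : ℕ, ∑ n ∈ Finset.range N, LZX.vt n (1 + η) =
      η * (1 - ((N : ℂ) + 1) ^ (-(1 + η))) - η * (1 + η) * ∫ x in (1 : ℝ)..((N : ℝ) + 1), g x := by
    intro N
    induction N with
    | zero => simp
    | succ N ih =>
      rw [Finset.sum_range_succ, ih, A16_cell η hη N]
      have e1 : ((N + 1 : ℕ) : ℂ) + 1 = (N : ℂ) + 2 := by push_cast; ring
      have e2 : ((N + 1 : ℕ) : ℝ) + 1 = (N : ℝ) + 2 := by push_cast; ring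
      have hN1 : IntervalIntegrable g volume 1 ((N : ℝ) + 1) := by
        have : (1 : ℝ) ≤ (N : ℝ) + 1 := by
          have : (0 : ℝ) ≤ N := Nat.cast_nonneg N
          linarith
        rw [intervalIntegrable_iff_integrableOn_Ioc_of_le this]
        exact (A16_integrable η hη).mono_set (fun x hx => hx.1)
      rw [e1, e2, ← intervalIntegral.integral_add_adjacent_intervals hN1 (hgi N)]
      ring
  have h4 : Tendsto (fun N : ℕ => ∫ x in (1 : ℝ)..((N : ℝ) + 1), g x) atTop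
      (𝓝 (∫ x in Ioi (1:ℝ), g x)) := by
    apply intervalIntegral_tendsto_integral_Ioi 1 (A16_integrable η hη)
    exact tendsto_atTop_add_const_right _ _ tendsto_natCast_atTop_atTop
  have h5 : Tendsto (fun N : ℕ => ((N : ℂ) + 1) ^ (-(1 + η))) atTop (𝓝 0) := by
    rw [tendsto_zero_iff_norm_tendsto_zero]
    have e : ∀ N : ℕ, ‖((N : ℂ) + 1) ^ (-(1 + η))‖ = ((N : ℝ) + 1) ^ (-(1 + η).re) := by
      intro N
      have e1 : ((N : ℂ) + 1) = (((N : ℝ) + 1 : ℝ) : ℂ) := by push_cast; ring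
      rw [e1, Complex.norm_cpow_eq_rpow_re_of_pos (by positivity), neg_re]
    simp only [e]
    have h6 := tendsto_rpow_neg_atTop hs
    exact h6.comp (tendsto_atTop_add_const_right _ _ tendsto_natCast_atTop_atTop)
  have h6 : Tendsto (fun N : ℕ => ∑ n ∈ Finset.range N, LZX.vt n (1 + η)) atTop
      (𝓝 (η * (1 - 0) - η * (1 + η) * ∫ x in Ioi (1:ℝ), g x)) := by
    simp only [h3]
    exact ((h5.const_sub 1).const_mul η).sub (h4.const_mul _)
  have h7 := tendsto_nhds_unique h2 h6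
  rw [h7] at h1
  have e : (1 + η - 1) = η := by ring
  rw [e] at h1
  have h8 : riemannZeta (1 + η) = (1 + (η * (1 - 0) - η * (1 + η) * ∫ x in Ioi (1:ℝ), g x)) / η := by
    rw [eq_div_iff h0, mul_comm]
    exact h1
  rw [h8]
  field_simp
  ring

end LZ
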