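import Pool.Agent.Lib.MP_0f5a55_nt.D0
import Pool.Agent.Lib.MP_0f5a55_nt.A11

open Complex MeasureTheory Set Filter Topology
open scoped ComplexConjugate

namespace LZ

theorem A18_gam {b r : ℝ} (hb : 0 < b) (hr : 0 < r) :
    IntegrableOn (fun x : ℝ => x ^ (b - 1) * Real.exp (-(r * x))) (Ioi 0) ∧
      ∫ x in Ioi (0:ℝ), x ^ (b - 1) * Real.exp (-(r * x)) = (1 / r) ^ b * Real.Gamma b := by
  have h := Real.integral_rpow_mul_exp_neg_mul_Ioi (a := b) (r := r) hb hr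
  refine ⟨?_, h⟩
  refine Integrable.of_integral_ne_zero ?_
  rw [h]
  have := Real.Gamma_pos_of_pos hb
  positivity

theorem A18_pow1 {Y : ℝ} (hY : 0 < Y) (hY1 : Y ≤ 1) :
    (1 / (Y / 2)) ^ (1 / 8 : ℝ) ≤ 2 * Y ^ (-(1/4) : ℝ) := by
  have e : 1 / (Y / 2) = 2 * Y⁻¹ := by field_simp
  rw [e, Real.mul_rpow (by norm_num) (by positivity), Real.inv_rpow hY.le, ← Real.rpow_neg hY.le]
  have h1 : (2 : ℝ) ^ (1 / 8 : ℝ) ≤ 2 ^ (1 : ℝ) :=
    Real.rpow_le_rpow_of_exponent_le (by norm_num) (by norm_num)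
  rw [Real.rpow_one] at h1
  have h2 : Y ^ (-(1 / 8) : ℝ) ≤ Y ^ (-(1/4) : ℝ) :=
    Real.rpow_le_rpow_of_exponent_ge hY hY1 (by norm_num)
  exact mul_le_mul h1 h2 (by positivity) (by norm_num)

theorem A18_pow2 {Y : ℝ} (hY : 0 < Y) (hY1 : Y ≤ 1) :
    Y * (1 / (Y / 2)) ^ (9 / 8 : ℝ) ≤ 4 * Y ^ (-(1/4) : ℝ) := by
  have e : 1 / (Y / 2) = 2 * Y⁻¹ := by field_simp
  rw [e, Real.mul_rpow (by norm_num) (by positivity), Real.inv_rpow hY.le, ← Real.rpow_neg hY.le]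
  have h1 : (2 : ℝ) ^ (9 / 8 : ℝ) ≤ 2 ^ (2 : ℝ) :=
    Real.rpow_le_rpow_of_exponent_le (by norm_num) (by norm_num)
  rw [Real.rpow_two] at h1
  have h3 : Y * Y ^ (-(9 / 8) : ℝ) = Y ^ (-(1 / 8) : ℝ) := by
    nth_rewrite 1 [← Real.rpow_one Y]
    rw [← Real.rpow_add hY]
    norm_num
  have h2 : Y ^ (-(1 / 8) : ℝ) ≤ Y ^ (-(1/4) : ℝ) :=
    Real.rpow_le_rpow_of_exponent_ge hY hY1 (by norm_num)
  calc Y * ((2 : ℝ) ^ (9 / 8 : ℝ) * Y ^ (-(9 / 8) : ℝ))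
      = (2 : ℝ) ^ (9 / 8 : ℝ) * (Y * Y ^ (-(9 / 8) : ℝ)) := by ring
    _ ≤ 4 * Y ^ (-(1/4) : ℝ) := by
      rw [h3]
      exact mul_le_mul (by linarith) h2 (by positivity) (by norm_num)

theorem A18_rpow_le {x t : ℝ} (hx : 1 ≤ x) (ht : |t| ≤ 1/8) : x ^ (-t) ≤ x ^ (9 / 8 - 1 : ℝ) := by
  refine Real.rpow_le_rpow_of_exponent_le hx ?_
  have := (abs_le.1 ht).1
  linarith

theorem A18_rpow_le' {x t : ℝ} (hx : 1 ≤ x) (ht : |t| ≤ 1/8) :
    x ^ (-t - 1) ≤ x ^ (1 / 8 - 1 : ℝ) := by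
  refine Real.rpow_le_rpow_of_exponent_le hx ?_
  have := (abs_le.1 ht).1
  linarith

theorem A18_rpow_small {x t : ℝ} (hx : 0 < x) (ht : |t| ≤ 1/8) :
    x ^ (-t) ≤ x ^ (-(1/8) : ℝ) + x ^ (1/8 : ℝ) := by
  have h := abs_le.1 ht
  rcases le_total x 1 with h1 | h1
  · have : x ^ (-t) ≤ x ^ (-(1/8) : ℝ) :=
      Real.rpow_le_rpow_of_exponent_ge hx h1 (by linarith)
    have : 0 ≤ x ^ (1/8 : ℝ) := by positivity
    linarith
  · have : x ^ (-t) ≤ x ^ (1/8 : ℝ) :=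
      Real.rpow_le_rpow_of_exponent_le h1 (by linarith)
    have : 0 ≤ x ^ (-(1/8) : ℝ) := by positivity
    linarith

/-- one residue class. g(x) = x^(-eta) phi(xY), sum_int; int_a^oo |g'| <= CK k Y^(-1/8); the missing piece (1/k) int_0^a g is
<= CK k; substitution int_0^oo x^(-eta) phi(xY) dx = Y^(eta-1) int_0^oo y^(-eta) phi(y) dy. -/
theorem class_sum (V : ℝ) (hV : 0 ≤ V) : ∃ C : ℝ, 0 < C ∧ ∀ η : ℂ, |η.re| ≤ 1/8 → |η.im| ≤ V →
    ∀ (φ φ' : ℝ → ℂ) (K : ℝ), 0 ≤ K → (∀ y : ℝ, 0 < y → HasDerivAt φ (φ' y) y) →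
    (∀ y : ℝ, 0 < y → ‖φ y‖ ≤ K * Real.exp (-y / 2)) → (∀ y : ℝ, 0 < y → ‖φ' y‖ ≤ K * Real.exp (-y / 2)) →
    ∀ k a : ℕ, 1 ≤ a → a ≤ k → ∀ Y : ℝ, 0 < Y → Y ≤ 1 →
    Summable (fun j : ℕ => ((a : ℂ) + j * k) ^ (-η) * φ (((a : ℝ) + j * k) * Y)) ∧
    ‖∑' j : ℕ, ((a : ℂ) + j * k) ^ (-η) * φ (((a : ℝ) + j * k) * Y) -
      (1 / (k : ℂ)) * (Y : ℂ) ^ (η - 1) * ∫ y in Ioi (0:ℝ), (y : ℂ) ^ (-η) * φ y‖ ≤
      C * K * (k : ℝ) ^ 2 * Y ^ (-(1/4) : ℝ) := by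
  have hG1 : 0 < Real.Gamma (1 / 8) := Real.Gamma_pos_of_pos (by norm_num)
  have hG2 : 0 < Real.Gamma (9 / 8) := Real.Gamma_pos_of_pos (by norm_num)
  refine ⟨(1 / 8 + V) * (2 * Real.Gamma (1 / 8)) + 4 * Real.Gamma (9 / 8) + 3, by positivity, ?_⟩
  intro η hη1 hη2 φ φ' K hK hφ hφb hφb' k a ha hak Y hY hY1
  have hηn : ‖η‖ ≤ 1 / 8 + V := (Complex.norm_le_abs_re_add_abs_im η).trans (add_le_add hη1 hη2)
  have ha1 : (1 : ℝ) ≤ a := by exact_mod_cast ha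
  have hak' : (a : ℝ) ≤ k := by exact_mod_cast hak
  have hk1 : (1 : ℝ) ≤ k := ha1.trans hak'
  have hY4 : 1 ≤ Y ^ (-(1/4) : ℝ) := Real.one_le_rpow_of_pos_of_le_one_of_nonpos hY hY1 (by norm_num)
  obtain ⟨g, hg⟩ : ∃ g : ℝ → ℂ, g = fun x : ℝ => (x : ℂ) ^ (-η) * φ (x * Y) := ⟨_, rfl⟩
  obtain ⟨g', hg'⟩ : ∃ g' : ℝ → ℂ, g' = fun x : ℝ => (-η * (x : ℂ) ^ (-η - 1)) * φ (x * Y) +
    (x : ℂ) ^ (-η) * ((Y : ℂ) * φ' (x * Y)) := ⟨_, rfl⟩
  have hder : ∀ x : ℝ, 0 < x → HasDerivAt g (g' x) x := by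
    intro x hx
    have h1 : HasDerivAt (fun x : ℝ => (x : ℂ) ^ (-η)) (-η * (x : ℂ) ^ (-η - 1)) x := by
      have h2 : HasDerivAt (fun z : ℂ => z ^ (-η)) (-η * (x : ℂ) ^ (-η - 1) * 1) (x : ℂ) :=
        (hasDerivAt_id (x : ℂ)).cpow_const (Or.inl (by simpa using hx))
      rw [mul_one] at h2
      exact h2.comp_ofReal
    have h3 : HasDerivAt (fun x : ℝ => φ (x * Y)) ((Y : ℂ) * φ' (x * Y)) x := by
      have h4 : HasDerivAt (fun x : ℝ => x * Y) (1 * Y) x := (hasDerivAt_id x).mul_const Y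
      have h5 := (hφ (x * Y) (by positivity)).scomp x h4
      rw [one_mul] at h5
      exact h5
    rw [hg, hg']
    exact h1.mul h3
  have hnorm : ∀ x : ℝ, 0 < x → ‖g x‖ ≤ K * (x ^ (-η.re) * Real.exp (-(Y / 2 * x))) := by
    intro x hx
    rw [hg]
    simp only
    rw [norm_mul, norm_cpow_eq_rpow_re_of_pos hx, neg_re]
    have h1 := hφb (x * Y) (by positivity)
    have h2 : -(x * Y) / 2 = -(Y / 2 * x) := by ring
    rw [h2] at h1
    calc x ^ (-η.re) * ‖φ (x * Y)‖ ≤ x ^ (-η.re) * (K * Real.exp (-(Y / 2 * x))) := by gcongr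
      _ = _ := by ring
  have hnorm' : ∀ x : ℝ, 1 ≤ x → ‖g' x‖ ≤
      ((1 / 8 + V) * K) * (x ^ (1 / 8 - 1 : ℝ) * Real.exp (-(Y / 2 * x))) +
        (Y * K) * (x ^ (9 / 8 - 1 : ℝ) * Real.exp (-(Y / 2 * x))) := by
    intro x hx1
    have hx : 0 < x := by linarith
    rw [hg']
    simp only
    have h1 := hφb (x * Y) (by positivity)
    have h1' := hφb' (x * Y) (by positivity)
    have h2 : -(x * Y) / 2 = -(Y / 2 * x) := by ring
    rw [h2] at h1 h1'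
    refine (norm_add_le _ _).trans (add_le_add ?_ ?_)
    · rw [norm_mul, norm_mul, norm_neg, norm_cpow_eq_rpow_re_of_pos hx]
      have h3 : (-η - 1).re = -η.re - 1 := by simp
      rw [h3]
      have h4 := A18_rpow_le' hx1 hη1
      calc ‖η‖ * x ^ (-η.re - 1) * ‖φ (x * Y)‖
          ≤ (1 / 8 + V) * x ^ (1 / 8 - 1 : ℝ) * (K * Real.exp (-(Y / 2 * x))) := by gcongr
        _ = _ := by ring
    · rw [norm_mul, norm_mul, norm_cpow_eq_rpow_re_of_pos hx, neg_re, norm_real,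
        Real.norm_of_nonneg hY.le]
      have h4 := A18_rpow_le hx1 hη1
      calc x ^ (-η.re) * (Y * ‖φ' (x * Y)‖)
          ≤ x ^ (9 / 8 - 1 : ℝ) * (Y * (K * Real.exp (-(Y / 2 * x)))) := by gcongr
        _ = _ := by ring
  have hY2 : 0 < Y / 2 := by positivity
  obtain ⟨i1, v1⟩ := A18_gam (b := 1 / 8) (r := Y / 2) (by norm_num) hY2
  obtain ⟨i2, v2⟩ := A18_gam (b := 9 / 8) (r := Y / 2) (by norm_num) hY2
  have hsub : Ioi (a : ℝ) ⊆ Ioi (0 : ℝ) := Ioi_subset_Ioi (by linarith)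
  have hcont : ContinuousOn g (Ioi 0) := fun x hx => (hder x hx).continuousAt.continuousWithinAt
  have hmeas' : AEStronglyMeasurable g' (volume.restrict (Ioi (a : ℝ))) := by
    refine ((aestronglyMeasurable_deriv g _)).congr ?_
    filter_upwards [ae_restrict_mem measurableSet_Ioi] with x hx
    exact (hder x (hsub hx)).deriv
  have hgi : IntegrableOn g (Ioi (a : ℝ)) := by
    refine Integrable.mono' ((i2.mono_set hsub).const_mul K)
      ((hcont.mono hsub).aestronglyMeasurable measurableSet_Ioi) ?_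
    filter_upwards [ae_restrict_mem measurableSet_Ioi] with x hx
    have hx1 : 1 ≤ x := ha1.trans (le_of_lt hx)
    refine (hnorm x (by linarith)).trans ?_
    have := A18_rpow_le hx1 hη1
    gcongr
  have hbd : IntegrableOn (fun x => ((1 / 8 + V) * K) * (x ^ (1 / 8 - 1 : ℝ) *
      Real.exp (-(Y / 2 * x))) + (Y * K) * (x ^ (9 / 8 - 1 : ℝ) * Real.exp (-(Y / 2 * x))))
      (Ioi (0 : ℝ)) := (i1.const_mul _).add (i2.const_mul _)
  have hgi' : IntegrableOn g' (Ioi (a : ℝ)) := by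
    refine Integrable.mono' (hbd.mono_set hsub) hmeas' ?_
    filter_upwards [ae_restrict_mem measurableSet_Ioi] with x hx
    exact hnorm' x (ha1.trans (le_of_lt hx))
  obtain ⟨hs1, hs2⟩ := sum_int (g := g) (g' := g') (a := (a : ℝ)) k (ha.trans hak)
    (fun x hx => hder x (by linarith)) hgi hgi'
  have hint' : ∫ x in Ioi (a : ℝ), ‖g' x‖ ≤
      ((1 / 8 + V) * (2 * Real.Gamma (1 / 8)) + 4 * Real.Gamma (9 / 8)) * K * Y ^ (-(1/4) : ℝ) := by
    calc ∫ x in Ioi (a : ℝ), ‖g' x‖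
        ≤ ∫ x in Ioi (a : ℝ), (((1 / 8 + V) * K) * (x ^ (1 / 8 - 1 : ℝ) *
            Real.exp (-(Y / 2 * x))) + (Y * K) * (x ^ (9 / 8 - 1 : ℝ) *
            Real.exp (-(Y / 2 * x)))) := by
          refine setIntegral_mono_on hgi'.norm (hbd.mono_set hsub) measurableSet_Ioi ?_
          intro x hx
          exact hnorm' x (ha1.trans (le_of_lt hx))
      _ ≤ ∫ x in Ioi (0 : ℝ), (((1 / 8 + V) * K) * (x ^ (1 / 8 - 1 : ℝ) *
            Real.exp (-(Y / 2 * x))) + (Y * K) * (x ^ (9 / 8 - 1 : ℝ) *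
            Real.exp (-(Y / 2 * x)))) := by
          refine setIntegral_mono_set hbd ?_ (Eventually.of_forall hsub)
          filter_upwards [ae_restrict_mem measurableSet_Ioi] with x hx
          have hx : 0 < x := hx
          simp only [Pi.zero_apply]
          positivity
      _ = ((1 / 8 + V) * K) * ((1 / (Y / 2)) ^ (1 / 8 : ℝ) * Real.Gamma (1 / 8)) +
            K * ((Y * (1 / (Y / 2)) ^ (9 / 8 : ℝ)) * Real.Gamma (9 / 8)) := by
          rw [integral_add (i1.const_mul _) (i2.const_mul _), integral_const_mul,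
            integral_const_mul, v1, v2]
          ring
      _ ≤ ((1 / 8 + V) * K) * ((2 * Y ^ (-(1/4) : ℝ)) * Real.Gamma (1 / 8)) +
            K * ((4 * Y ^ (-(1/4) : ℝ)) * Real.Gamma (9 / 8)) := by
          have e1 := A18_pow1 hY hY1
          have e2 := A18_pow2 hY hY1
          gcongr
      _ = _ := by ring
  -- the missing piece
  have hj0 : IntervalIntegrable (fun x : ℝ => K * (x ^ (-(1/8) : ℝ) + x ^ (1/8 : ℝ))) volume 0 a :=
    ((intervalIntegral.intervalIntegrable_rpow' (by norm_num)).add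
      (intervalIntegral.intervalIntegrable_rpow' (by norm_num))).const_mul K
  have hsm : ∀ x ∈ Ioc (0 : ℝ) a, ‖g x‖ ≤ K * (x ^ (-(1/8) : ℝ) + x ^ (1/8 : ℝ)) := by
    intro x hx
    refine (hnorm x hx.1).trans ?_
    have h1 := A18_rpow_small hx.1 hη1
    have h2 : Real.exp (-(Y / 2 * x)) ≤ 1 := by
      rw [Real.exp_le_one_iff]
      have := hx.1
      have : 0 < Y / 2 * x := by positivity
      linarith
    have h3 : 0 ≤ x ^ (-η.re) := Real.rpow_nonneg hx.1.le _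
    calc K * (x ^ (-η.re) * Real.exp (-(Y / 2 * x))) ≤ K * (x ^ (-η.re) * 1) := by gcongr
      _ ≤ _ := by rw [mul_one]; gcongr
  have hg0a : IntegrableOn g (Ioc (0 : ℝ) a) := by
    refine Integrable.mono' ((intervalIntegrable_iff_integrableOn_Ioc_of_le (by linarith)).1 hj0)
      ((hcont.mono Ioc_subset_Ioi_self).aestronglyMeasurable measurableSet_Ioc) ?_
    filter_upwards [ae_restrict_mem measurableSet_Ioc] with x hx
    exact hsm x hx
  have hpiece : ‖∫ x in Ioc (0 : ℝ) a, g x‖ ≤ 3 * K * (k : ℝ) ^ 2 := by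
    calc ‖∫ x in Ioc (0 : ℝ) a, g x‖ ≤ ∫ x in Ioc (0 : ℝ) a, K * (x ^ (-(1/8) : ℝ) +
          x ^ (1/8 : ℝ)) := by
          refine norm_integral_le_of_norm_le
            ((intervalIntegrable_iff_integrableOn_Ioc_of_le (by linarith)).1 hj0) ?_
          filter_upwards [ae_restrict_mem measurableSet_Ioc] with x hx
          exact hsm x hx
      _ = ∫ x in (0 : ℝ)..a, K * (x ^ (-(1/8) : ℝ) + x ^ (1/8 : ℝ)) := by
          rw [intervalIntegral.integral_of_le (by linarith)]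
      _ = K * (8 / 7 * (a : ℝ) ^ (7 / 8 : ℝ) + 8 / 9 * (a : ℝ) ^ (9 / 8 : ℝ)) := by
          rw [intervalIntegral.integral_const_mul, intervalIntegral.integral_add
            (intervalIntegral.intervalIntegrable_rpow' (by norm_num))
            (intervalIntegral.intervalIntegrable_rpow' (by norm_num)),
            integral_rpow (Or.inl (by norm_num)), integral_rpow (Or.inl (by norm_num)),
            show (-(1/8) + 1 : ℝ) = 7 / 8 by norm_num, show (1/8 + 1 : ℝ) = 9 / 8 by norm_num,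
            Real.zero_rpow (by norm_num), Real.zero_rpow (by norm_num)]
          ring
      _ ≤ K * (8 / 7 * (k : ℝ) ^ 2 + 8 / 9 * (k : ℝ) ^ 2) := by
          have e1 : (a : ℝ) ^ (7 / 8 : ℝ) ≤ (k : ℝ) ^ 2 := by
            rw [← Real.rpow_two]
            exact (Real.rpow_le_rpow_of_exponent_le ha1 (by norm_num)).trans
              (Real.rpow_le_rpow (by linarith) hak' (by norm_num))
          have e2 : (a : ℝ) ^ (9 / 8 : ℝ) ≤ (k : ℝ) ^ 2 := by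
            rw [← Real.rpow_two]
            exact (Real.rpow_le_rpow_of_exponent_le ha1 (by norm_num)).trans
              (Real.rpow_le_rpow (by linarith) hak' (by norm_num))
          gcongr
      _ ≤ 3 * K * (k : ℝ) ^ 2 := by
          have : 0 ≤ K * (k : ℝ) ^ 2 := by positivity
          nlinarith
  -- substitution
  have hsubst : ∫ x in Ioi (0 : ℝ), g x =
      (Y : ℂ) ^ (η - 1) * ∫ y in Ioi (0:ℝ), (y : ℂ) ^ (-η) * φ y := by
    have h1 := integral_comp_mul_right_Ioi (fun y : ℝ => (y : ℂ) ^ (-η) * φ y) 0 hY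
    rw [zero_mul] at h1
    have hYc : (Y : ℂ) ≠ 0 := by exact_mod_cast hY.ne'
    have h2 : ∫ x in Ioi (0 : ℝ), ((x * Y : ℝ) : ℂ) ^ (-η) * φ (x * Y) =
        (Y : ℂ) ^ (-η) * ∫ x in Ioi (0 : ℝ), g x := by
      rw [← integral_const_mul]
      refine setIntegral_congr_fun measurableSet_Ioi fun x hx => ?_
      have hx : 0 < x := hx
      rw [hg]
      simp only
      rw [ofReal_mul, mul_cpow_ofReal_nonneg hx.le hY.le]
      ring
    rw [h2] at h1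
    have h3 : (Y : ℂ) ^ η * (Y : ℂ) ^ (-η) = 1 := by
      rw [← cpow_add _ _ hYc, add_neg_cancel, cpow_zero]
    calc ∫ x in Ioi (0 : ℝ), g x = (Y : ℂ) ^ η * ((Y : ℂ) ^ (-η) * ∫ x in Ioi (0 : ℝ), g x) := by
          rw [← mul_assoc, h3, one_mul]
      _ = _ := by
          rw [h1, cpow_sub _ _ hYc, cpow_one, real_smul, ofReal_inv]
          field_simp
  have hterm : ∀ j : ℕ, ((a : ℂ) + j * k) ^ (-η) * φ (((a : ℝ) + j * k) * Y) =
      g ((a : ℝ) + j * k) := by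
    intro j
    rw [hg]
    push_cast
    rfl
  simp only [hterm]
  refine ⟨hs1, ?_⟩
  have hsplit : ∫ x in Ioi (0 : ℝ), g x =
      (∫ x in Ioc (0 : ℝ) a, g x) + ∫ x in Ioi (a : ℝ), g x := by
    rw [← setIntegral_union Ioc_disjoint_Ioi_same measurableSet_Ioi hg0a hgi,
      Ioc_union_Ioi_eq_Ioi (by linarith)]
  rw [mul_assoc, ← hsubst, hsplit]
  have hkn : ‖(1 / (k : ℂ))‖ ≤ 1 := by
    rw [norm_div, norm_one, Complex.norm_natCast, div_le_one (by linarith)]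
    exact hk1
  calc ‖∑' j : ℕ, g ((a : ℝ) + j * k) - 1 / (k : ℂ) * ((∫ x in Ioc (0 : ℝ) a, g x) +
        ∫ x in Ioi (a : ℝ), g x)‖
      = ‖(∑' j : ℕ, g ((a : ℝ) + j * k) - 1 / (k : ℂ) * ∫ x in Ioi (a : ℝ), g x) -
          1 / (k : ℂ) * ∫ x in Ioc (0 : ℝ) a, g x‖ := by
        congr 1
        ring
    _ ≤ ‖∑' j : ℕ, g ((a : ℝ) + j * k) - 1 / (k : ℂ) * ∫ x in Ioi (a : ℝ), g x‖ +
          ‖1 / (k : ℂ) * ∫ x in Ioc (0 : ℝ) a, g x‖ := norm_sub_le _ _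
    _ ≤ ((1 / 8 + V) * (2 * Real.Gamma (1 / 8)) + 4 * Real.Gamma (9 / 8)) * K *
          Y ^ (-(1/4) : ℝ) + 1 * (3 * K * (k : ℝ) ^ 2) := by
        refine add_le_add (hs2.trans hint') ?_
        rw [norm_mul]
        exact mul_le_mul hkn hpiece (norm_nonneg _) zero_le_one
    _ ≤ ((1 / 8 + V) * (2 * Real.Gamma (1 / 8)) + 4 * Real.Gamma (9 / 8)) * K *
          Y ^ (-(1/4) : ℝ) * (k : ℝ) ^ 2 + (3 * K * (k : ℝ) ^ 2) * Y ^ (-(1/4) : ℝ) := by
        refine add_le_add ?_ ?_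
        · refine le_mul_of_one_le_right (by positivity) ?_
          nlinarith
        · rw [one_mul]
          exact le_mul_of_one_le_right (by positivity) hY4
    _ = _ := by ring

end LZ
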