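import Pool.Agent.Lib.MP_0f5a55_nt.D0
import Pool.Agent.Lib.MP_0f5a55_nt.A12
import Pool.Agent.Lib.MP_0f5a55_nt.A13
import Pool.Agent.Lib.MP_0f5a55_nt.A14
import Pool.Agent.Lib.MP_0f5a55_nt.A15
import Pool.Agent.Lib.MP_0f5a55_nt.A17
import Pool.Agent.Lib.MP_0f5a55_nt.A18
import Pool.Agent.Lib.MP_0f5a55_nt.A19

open Complex MeasureTheory Set Filter Topology
open scoped ComplexConjugate

namespace LZ

/-- integrability of one class -/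
theorem A20_int (η : ℂ) (hη : |η.re| ≤ 1/8) (φ φ' : ℝ → ℂ) (K : ℝ)
    (hd : ∀ y : ℝ, 0 < y → HasDerivAt φ (φ' y) y)
    (hb : ∀ y : ℝ, 0 < y → ‖φ y‖ ≤ K * Real.exp (-y / 2)) :
    IntegrableOn (fun y : ℝ => (y : ℂ) ^ (-η) * φ y) (Ioi 0) := by
  have h1 : IntegrableOn (fun y : ℝ => y ^ (-η.re) * Real.exp (-(1/2) * y ^ (1:ℝ))) (Ioi 0) := by
    apply integrableOn_rpow_mul_exp_neg_mul_rpow
    · have := (abs_le.1 hη).2
      linarith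
    · norm_num
    · norm_num
  refine Integrable.mono' (h1.const_mul K) ?_ ?_
  · apply ContinuousOn.aestronglyMeasurable _ measurableSet_Ioi
    apply ContinuousOn.mul
    · intro y hy
      have hy' : (0:ℝ) < y := hy
      apply ContinuousAt.continuousWithinAt
      have : ContinuousAt (fun z : ℂ => z ^ (-η)) (y : ℂ) :=
        continuousAt_cpow_const (Or.inl (by simpa using hy'))
      exact ContinuousAt.comp (f := fun y : ℝ => (y : ℂ)) (x := y) this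
        Complex.continuous_ofReal.continuousAt
    · intro y hy
      exact (hd y hy).continuousAt.continuousWithinAt
  · refine (ae_restrict_iff' measurableSet_Ioi).2 (Filter.Eventually.of_forall ?_)
    intro y hy
    have hy' : (0:ℝ) < y := hy
    rw [norm_mul, norm_cpow_eq_rpow_re_of_pos hy', neg_re]
    have h2 := hb y hy'
    have h3 : (0:ℝ) ≤ y ^ (-η.re) := Real.rpow_nonneg hy'.le _
    have h4 : Real.exp (-(1/2) * y ^ (1:ℝ)) = Real.exp (-y / 2) := by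
      rw [Real.rpow_one]; ring_nf
    rw [h4]
    calc y ^ (-η.re) * ‖φ y‖ ≤ y ^ (-η.re) * (K * Real.exp (-y / 2)) :=
          mul_le_mul_of_nonneg_left h2 h3
      _ = K * (y ^ (-η.re) * Real.exp (-y / 2)) := by ring

/-- the permutation of residue classes -/
theorem A20_perm (h k : ℕ) (hk : 1 ≤ k) (hc : Nat.Coprime h k) (F : ℕ → ℂ) :
    ∑ a ∈ Finset.Ico 1 k, F ((a * h) % k) = ∑ b ∈ Finset.Ico 1 k, F b := by
  have hmaps : ∀ a ∈ Finset.Ico 1 k, (a * h) % k ∈ Finset.Ico 1 k := by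
    intro a ha
    rw [Finset.mem_Ico] at ha ⊢
    refine ⟨?_, Nat.mod_lt _ (by omega)⟩
    by_contra hcon
    have h0 : (a * h) % k = 0 := by omega
    have h1 : k ∣ a * h := Nat.dvd_of_mod_eq_zero h0
    have h2 : k ∣ a := (Nat.Coprime.dvd_mul_right hc.symm).1 h1
    have h3 := Nat.le_of_dvd (by omega) h2
    omega
  have hinj : Set.InjOn (fun a => (a * h) % k) (Finset.Ico 1 k : Finset ℕ) := by
    intro a ha a' ha' hEq
    rw [Finset.mem_coe, Finset.mem_Ico] at ha ha'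
    have h1 : a * h ≡ a' * h [MOD k] := hEq
    have h2 : a ≡ a' [MOD k] := Nat.ModEq.cancel_right_of_coprime hc.symm h1
    have h3 : a % k = a' % k := h2
    rwa [Nat.mod_eq_of_lt ha.2, Nat.mod_eq_of_lt ha'.2] at h3
  refine Finset.sum_nbij (fun a => (a * h) % k) hmaps hinj ?_ (fun a _ => rfl)
  exact Finset.surjOn_of_injOn_of_card_le _ hmaps hinj le_rfl

/-- sum over the classes -/
theorem A20_phi (k : ℕ) (hk : 1 ≤ k) (y : ℝ) (hy : 0 < y) :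
    (∑ b ∈ Finset.Ico 1 k, (exp ((y : ℂ) + 2 * Real.pi * I * b / k) - 1)⁻¹) +
      ((1 / (Real.exp y - 1) - Real.exp (-(k * y)) / y : ℝ) : ℂ) = k * (f1 (k * y) : ℂ) := by
  have h1 := roots_sum k hk y hy
  rw [Finset.range_eq_Ico, Finset.sum_eq_sum_Ico_succ_bot (by omega)] at h1
  have hk0 : (k : ℂ) ≠ 0 := by
    have : k ≠ 0 := by omega
    exact_mod_cast this
  have hy0 : (y : ℂ) ≠ 0 := by exact_mod_cast hy.ne'
  have h2 : ∑ b ∈ Finset.Ico 1 k, (exp ((y : ℂ) + 2 * Real.pi * I * b / k) - 1)⁻¹ =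
      k * (exp ((k : ℂ) * y) - 1)⁻¹ - (exp (y : ℂ) - 1)⁻¹ := by
    have h3 : (exp ((y : ℂ) + 2 * Real.pi * I * ((0 : ℕ) : ℂ) / k) - 1)⁻¹ = (exp (y : ℂ) - 1)⁻¹ := by
      simp
    rw [h3] at h1
    rw [← h1]
    simp
  rw [h2]
  unfold f1
  push_cast
  rw [one_div, one_div]
  field_simp
  ring

/-- the substitution -/
theorem A20_subst (η : ℂ) (k : ℕ) (hk : 1 ≤ k) :
    (1 / (k : ℂ)) * ∫ y in Ioi (0:ℝ), (y : ℂ) ^ (-η) * (k * (f1 (k * y) : ℂ)) =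
      (k : ℂ) ^ (η - 1) * ∫ y in Ioi (0:ℝ), (y : ℂ) ^ (-η) * (f1 y : ℂ) := by
  have hk0 : (k : ℂ) ≠ 0 := by
    have : k ≠ 0 := by omega
    exact_mod_cast this
  have hkR : (0:ℝ) < k := by
    have : 0 < k := by omega
    exact_mod_cast this
  have h1 := integral_comp_mul_left_Ioi (fun x : ℝ => (x : ℂ) ^ (-η) * (f1 x : ℂ)) 0 hkR
  rw [mul_zero] at h1
  have h2 : ∫ x in Ioi (0:ℝ), (((k : ℝ) * x : ℝ) : ℂ) ^ (-η) * (f1 ((k : ℝ) * x) : ℂ) =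
      (k : ℂ) ^ (-η) * ((1 / (k : ℂ)) * ∫ y in Ioi (0:ℝ), (y : ℂ) ^ (-η) * (k * (f1 (k * y) : ℂ))) := by
    rw [← integral_const_mul, ← integral_const_mul]
    apply setIntegral_congr_fun measurableSet_Ioi
    intro x hx
    have hx' : (0:ℝ) < x := hx
    simp only
    rw [ofReal_mul, mul_cpow_ofReal_nonneg hkR.le hx'.le]
    push_cast
    field_simp
  rw [h2] at h1
  have h3 : (k : ℂ) ^ (-η) ≠ 0 := by
    rw [Ne, cpow_eq_zero_iff]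
    tauto
  have h4 : (k : ℂ) ^ (η - 1) = (k : ℂ) ^ η / k := by
    rw [cpow_sub _ _ hk0, cpow_one]
  have h5 : (k : ℂ) ^ (-η) = ((k : ℂ) ^ η)⁻¹ := cpow_neg _ _
  have h6 : (k : ℂ) ^ η ≠ 0 := by
    rw [Ne, cpow_eq_zero_iff]
    tauto
  rw [h4]
  rw [real_smul, h5] at h1
  push_cast at h1
  have h7 := congrArg (fun z => (k : ℂ) ^ η * z) h1
  beta_reduce at h7
  rw [← mul_assoc, mul_inv_cancel₀ h6, one_mul] at h7
  rw [h7]
  field_simp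

/-- derivative of one class -/
theorem A20_der {k b : ℕ} (hb : 1 ≤ b) (hbk : b < k) {y : ℝ} (hy : 0 < y) :
    HasDerivAt (fun y : ℝ => (exp ((y : ℂ) + 2 * Real.pi * I * b / k) - 1)⁻¹)
      (-exp ((y : ℂ) + 2 * Real.pi * I * b / k) / (exp ((y : ℂ) + 2 * Real.pi * I * b / k) - 1) ^ 2) y := by
  have h0 := (fz_off hb hbk hy.le).1
  have h1 : HasDerivAt (fun y : ℝ => (y : ℂ) + 2 * Real.pi * I * b / k) 1 y :=
    (HasDerivAt.ofReal_comp (hasDerivAt_id y)).add_const _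
  have h2 : HasDerivAt (fun y : ℝ => exp ((y : ℂ) + 2 * Real.pi * I * b / k) - 1)
      (exp ((y : ℂ) + 2 * Real.pi * I * b / k) * 1) y := (h1.cexp).sub_const 1
  rw [mul_one] at h2
  exact h2.inv h0

/-- (3.5). class_sum for every class with K = 4k^2 (fz_off) resp. Ck^2 (phi0_bounds), a -> (a h) mod k is a bijection of
1..k-1, roots_sum: the total main part is (1/k)Y^(eta-1) int y^(-eta)(k/(e^(ky)-1) - exp(-ky)/y) dy =
k^(eta-1) Y^(eta-1) int y^(-eta) f1(y) dy. Last part: lap_zeta with X = k^2 Y. -/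
theorem DD_asymp (V : ℝ) (hV : 0 ≤ V) : ∃ C : ℝ, 0 < C ∧ ∀ η : ℂ, |η.re| ≤ 1/8 → |η.im| ≤ V → η ≠ 0 →
    ∀ h k : ℕ, 1 ≤ h → 1 ≤ k → Nat.Coprime h k → ∀ Y : ℝ, 0 < Y → Y ≤ 1 →
    ‖DD η ((Y : ℂ) + 2 * Real.pi * I * h / k) -
      ((k : ℂ) ^ (-1 - η) * riemannZeta (1 + η) / Y + Ac η * (k : ℂ) ^ (η - 1) * (Y : ℂ) ^ (η - 1))‖ ≤
      C * (1 + 1 / ‖η‖) * (k : ℝ) ^ 6 * Y ^ (-(1/4) : ℝ) := by
  obtain ⟨C0, hC0, h0⟩ := phi0_bounds
  obtain ⟨C1, hC1, h1⟩ := class_sum V hV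
  obtain ⟨C2, hC2, h2⟩ := lap_zeta V hV
  refine ⟨4 * C1 + C1 * C0 + C2, by positivity, ?_⟩
  intro η hη hηi hη0 h k hh hk hc Y hY hY1
  rw [DD_split η hη h k hh hk hc Y hY]
  have hk0 : (k : ℂ) ≠ 0 := by
    have : k ≠ 0 := by omega
    exact_mod_cast this
  have hkR : (0:ℝ) < k := by
    have : 0 < k := by omega
    exact_mod_cast this
  have hk1 : (1:ℝ) ≤ k := by exact_mod_cast hk
  have hY0 : (Y : ℂ) ≠ 0 := by exact_mod_cast hY.ne'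
  set S : ℕ → ℂ := fun a => ∑' j : ℕ, ((a : ℂ) + j * k) ^ (-η) *
        (exp (((((a : ℝ) + j * k) * Y : ℝ) : ℂ) + 2 * Real.pi * I * ((a * h) % k : ℕ) / k) - 1)⁻¹ with hS
  set S0 : ℂ := ∑' j : ℕ, ((k : ℂ) + j * k) ^ (-η) *
        ((1 / (Real.exp (((k : ℝ) + j * k) * Y) - 1) - Real.exp (-(k * (((k : ℝ) + j * k) * Y))) /
          (((k : ℝ) + j * k) * Y) : ℝ) : ℂ) with hS0
  set L : ℂ := ∑' n : ℕ, ((n : ℂ) + 1) ^ (-(1 + η)) *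
        (Real.exp (-(((n : ℝ) + 1) * ((k : ℝ) ^ 2 * Y))) : ℂ) with hL
  set J : ℕ → ℂ := fun b => ∫ y in Ioi (0:ℝ), (y : ℂ) ^ (-η) *
    (exp ((y : ℂ) + 2 * Real.pi * I * b / k) - 1)⁻¹ with hJ
  set J0 : ℂ := ∫ y in Ioi (0:ℝ), (y : ℂ) ^ (-η) *
    ((1 / (Real.exp y - 1) - Real.exp (-(k * y)) / y : ℝ) : ℂ) with hJ0
  set Int : ℂ := ∫ y in Ioi (0:ℝ), (y : ℂ) ^ (-η) * (f1 y : ℂ) with hInt
  set Z : ℝ := Y ^ (-(1/4) : ℝ) with hZ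
  have hZ0 : 0 ≤ Z := Real.rpow_nonneg hY.le _
  -- the classes
  have hb4 : ∀ b : ℕ, 1 ≤ b → b < k → ∀ y : ℝ, 0 < y →
      ‖(exp ((y : ℂ) + 2 * Real.pi * I * b / k) - 1)⁻¹‖ ≤ (4 * (k : ℝ) ^ 2) * Real.exp (-y / 2) :=
    fun b hb hbk y hy => (fz_off hb hbk hy.le).2.1
  have hcl : ∀ a ∈ Finset.Ico 1 k, ‖S a - (1 / (k : ℂ)) * (Y : ℂ) ^ (η - 1) * J ((a * h) % k)‖ ≤
      C1 * (4 * (k : ℝ) ^ 2) * (k : ℝ) ^ 2 * Z := by
    intro a ha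
    rw [Finset.mem_Ico] at ha
    have hbk : (a * h) % k < k := Nat.mod_lt _ (by omega)
    have hb1 : 1 ≤ (a * h) % k := by
      by_contra hcon
      have h0 : (a * h) % k = 0 := by omega
      have h1 : k ∣ a * h := Nat.dvd_of_mod_eq_zero h0
      have h2 : k ∣ a := (Nat.Coprime.dvd_mul_right hc.symm).1 h1
      have h3 := Nat.le_of_dvd (by omega) h2
      omega
    have h5 := (h1 η hη hηi
      (fun y : ℝ => (exp ((y : ℂ) + 2 * Real.pi * I * ((a * h) % k : ℕ) / k) - 1)⁻¹)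
      (fun y : ℝ => -exp ((y : ℂ) + 2 * Real.pi * I * ((a * h) % k : ℕ) / k) /
        (exp ((y : ℂ) + 2 * Real.pi * I * ((a * h) % k : ℕ) / k) - 1) ^ 2)
      (4 * (k : ℝ) ^ 2) (by positivity) (fun y hy => A20_der hb1 hbk hy)
      (fun y hy => hb4 _ hb1 hbk y hy) (fun y hy => by
        have := (fz_off hb1 hbk hy.le).2.2
        rw [neg_div, norm_neg]
        exact this) k a ha.1 ha.2.le Y hY hY1).2
    exact h5
  have hcl0 : ‖S0 - (1 / (k : ℂ)) * (Y : ℂ) ^ (η - 1) * J0‖ ≤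
      C1 * (C0 * (k : ℝ) ^ 2) * (k : ℝ) ^ 2 * Z := by
    have h5 := (h1 η hη hηi
      (fun y : ℝ => ((1 / (Real.exp y - 1) - Real.exp (-(k * y)) / y : ℝ) : ℂ))
      (fun y : ℝ => ((-Real.exp y / (Real.exp y - 1) ^ 2 + k * Real.exp (-(k * y)) / y +
        Real.exp (-(k * y)) / y ^ 2 : ℝ) : ℂ))
      (C0 * (k : ℝ) ^ 2) (by positivity) (fun y hy => (h0 k hk y hy).1.ofReal_comp)
      (fun y hy => by
        have := (h0 k hk y hy).2.1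
        rw [norm_real, Real.norm_eq_abs]
        exact this)
      (fun y hy => by
        have := (h0 k hk y hy).2.2
        rw [norm_real, Real.norm_eq_abs]
        exact this) k k hk le_rfl Y hY hY1).2
    exact h5
  -- total main part
  have hmain : (1 / (k : ℂ)) * ((∑ b ∈ Finset.Ico 1 k, J b) + J0) = (k : ℂ) ^ (η - 1) * Int := by
    rw [hInt, ← A20_subst η k hk]
    congr 1
    have hi : ∀ b ∈ Finset.Ico 1 k, Integrable (fun y : ℝ => (y : ℂ) ^ (-η) *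
        (exp ((y : ℂ) + 2 * Real.pi * I * b / k) - 1)⁻¹) (volume.restrict (Ioi 0)) := by
      intro b hb
      rw [Finset.mem_Ico] at hb
      exact A20_int η hη _ _ (4 * (k : ℝ) ^ 2) (fun y hy => A20_der hb.1 hb.2 hy)
        (fun y hy => hb4 b hb.1 hb.2 y hy)
    have hi0 : Integrable (fun y : ℝ => (y : ℂ) ^ (-η) *
        ((1 / (Real.exp y - 1) - Real.exp (-(k * y)) / y : ℝ) : ℂ)) (volume.restrict (Ioi 0)) :=
      A20_int η hη _ _ (C0 * (k : ℝ) ^ 2) (fun y hy => (h0 k hk y hy).1.ofReal_comp)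
        (fun y hy => by
          have := (h0 k hk y hy).2.1
          rw [norm_real, Real.norm_eq_abs]
          exact this)
    rw [hJ, hJ0]
    beta_reduce
    rw [← integral_finsetSum _ hi, ← integral_add (integrable_finsetSum _ hi) hi0]
    apply setIntegral_congr_fun measurableSet_Ioi
    intro y hy
    beta_reduce
    rw [← Finset.mul_sum, ← mul_add, A20_phi k hk y hy]
  have hperm : ∑ a ∈ Finset.Ico 1 k, J ((a * h) % k) = ∑ b ∈ Finset.Ico 1 k, J b :=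
    A20_perm h k hk hc J
  -- last part
  have hX : (0:ℝ) < (k : ℝ) ^ 2 * Y := by positivity
  have hlap := h2 η hη hηi hη0 ((k : ℝ) ^ 2 * Y) hX
  have hpow : (((k : ℝ) ^ 2 * Y : ℝ) : ℂ) ^ η = (k : ℂ) ^ η * (k : ℂ) ^ η * (Y : ℂ) ^ η := by
    rw [ofReal_mul, mul_cpow_ofReal_nonneg (by positivity) hY.le]
    congr 1
    have : (((k : ℝ) ^ 2 : ℝ) : ℂ) = ((k : ℝ) : ℂ) * ((k : ℝ) : ℂ) := by
      push_cast; ring
    rw [this, mul_cpow_ofReal_nonneg hkR.le hkR.le]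
    simp
  have hkη : (k : ℂ) ^ η ≠ 0 := by
    rw [Ne, cpow_eq_zero_iff]
    tauto
  have e1 : (k : ℂ) ^ (-1 - η) = (k : ℂ)⁻¹ / (k : ℂ) ^ η := by
    rw [cpow_sub _ _ hk0, cpow_neg_one]
  have e2 : (k : ℂ) ^ (η - 1) = (k : ℂ) ^ η / k := by
    rw [cpow_sub _ _ hk0, cpow_one]
  have e3 : (Y : ℂ) ^ (η - 1) = (Y : ℂ) ^ η / Y := by
    rw [cpow_sub _ _ hY0, cpow_one]
  have hid : (∑ a ∈ Finset.Ico 1 k, S a) + S0 + (k : ℂ) ^ (-1 - η) / Y * L -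
      ((k : ℂ) ^ (-1 - η) * riemannZeta (1 + η) / Y + Ac η * (k : ℂ) ^ (η - 1) * (Y : ℂ) ^ (η - 1)) =
      (∑ a ∈ Finset.Ico 1 k, (S a - (1 / (k : ℂ)) * (Y : ℂ) ^ (η - 1) * J ((a * h) % k))) +
      (S0 - (1 / (k : ℂ)) * (Y : ℂ) ^ (η - 1) * J0) +
      (k : ℂ) ^ (-1 - η) / Y * (L - (riemannZeta (1 + η) -
        Gamma (1 - η) / η * (((k : ℝ) ^ 2 * Y : ℝ) : ℂ) ^ η)) := by
    rw [Finset.sum_sub_distrib, ← Finset.mul_sum, hperm, hpow]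
    have hAc : Ac η = -Gamma (1 - η) / η + Int := rfl
    rw [hAc]
    have hm2 : (Y : ℂ) ^ (η - 1) * ((1 / (k : ℂ)) * ((∑ b ∈ Finset.Ico 1 k, J b) + J0)) =
        (Y : ℂ) ^ (η - 1) * ((k : ℂ) ^ (η - 1) * Int) := by rw [hmain]
    have hm3 : (k : ℂ) ^ (-1 - η) / Y * (Gamma (1 - η) / η * ((k : ℂ) ^ η * (k : ℂ) ^ η * (Y : ℂ) ^ η)) =
        Gamma (1 - η) / η * ((k : ℂ) ^ (η - 1) * (Y : ℂ) ^ (η - 1)) := by
      rw [e1, e2, e3]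
      field_simp
    have hm4 : -Gamma (1 - η) / η = -(Gamma (1 - η) / η) := by rw [neg_div]
    rw [hm4]
    linear_combination (-1) * hm3 + hm2
  rw [hid]
  have hE : 1 ≤ 1 + 1 / ‖η‖ := by
    have : 0 ≤ 1 / ‖η‖ := by positivity
    linarith
  have n1 : ‖∑ a ∈ Finset.Ico 1 k, (S a - (1 / (k : ℂ)) * (Y : ℂ) ^ (η - 1) * J ((a * h) % k))‖ ≤
      4 * C1 * (1 + 1 / ‖η‖) * (k : ℝ) ^ 6 * Z := by
    refine (norm_sum_le_of_le _ hcl).trans ?_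
    rw [Finset.sum_const, Nat.card_Ico, nsmul_eq_mul]
    have hc1 : ((k - 1 : ℕ) : ℝ) ≤ (k : ℝ) := by exact_mod_cast Nat.sub_le _ _
    have hk56 : (k : ℝ) ^ 5 ≤ (k : ℝ) ^ 6 := pow_le_pow_right₀ hk1 (by norm_num)
    calc ((k - 1 : ℕ) : ℝ) * (C1 * (4 * (k : ℝ) ^ 2) * (k : ℝ) ^ 2 * Z)
        ≤ (k : ℝ) * (C1 * (4 * (k : ℝ) ^ 2) * (k : ℝ) ^ 2 * Z) := by gcongr
      _ = 4 * C1 * 1 * (k : ℝ) ^ 5 * Z := by ring
      _ ≤ 4 * C1 * (1 + 1 / ‖η‖) * (k : ℝ) ^ 6 * Z := by gcongr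
  have n2 : ‖S0 - (1 / (k : ℂ)) * (Y : ℂ) ^ (η - 1) * J0‖ ≤
      C1 * C0 * (1 + 1 / ‖η‖) * (k : ℝ) ^ 6 * Z := by
    refine hcl0.trans ?_
    have hk46 : (k : ℝ) ^ 4 ≤ (k : ℝ) ^ 6 := pow_le_pow_right₀ hk1 (by norm_num)
    calc C1 * (C0 * (k : ℝ) ^ 2) * (k : ℝ) ^ 2 * Z = C1 * C0 * 1 * (k : ℝ) ^ 4 * Z := by ring
      _ ≤ C1 * C0 * (1 + 1 / ‖η‖) * (k : ℝ) ^ 6 * Z := by gcongr
  have n3 : ‖(k : ℂ) ^ (-1 - η) / Y * (L - (riemannZeta (1 + η) -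
        Gamma (1 - η) / η * (((k : ℝ) ^ 2 * Y : ℝ) : ℂ) ^ η))‖ ≤
      C2 * (1 + 1 / ‖η‖) * (k : ℝ) ^ 6 * Z := by
    rw [norm_mul, norm_div, norm_real, Real.norm_eq_abs, abs_of_pos hY]
    have hkn : ‖(k : ℂ) ^ (-1 - η)‖ ≤ 1 := by
      have : (k : ℂ) = ((k : ℝ) : ℂ) := by simp
      rw [this, norm_cpow_eq_rpow_re_of_pos hkR]
      apply Real.rpow_le_one_of_one_le_of_nonpos hk1
      simp only [sub_re, neg_re, one_re]
      have := (abs_le.1 hη).1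
      linarith
    have hk34 : ((k : ℝ) ^ 2 * Y) ^ (3/4 : ℝ) ≤ (k : ℝ) ^ 2 * Y ^ (3/4 : ℝ) := by
      rw [Real.mul_rpow (by positivity) hY.le]
      apply mul_le_mul_of_nonneg_right _ (Real.rpow_nonneg hY.le _)
      calc ((k : ℝ) ^ 2) ^ (3/4 : ℝ) ≤ ((k : ℝ) ^ 2) ^ (1 : ℝ) :=
            Real.rpow_le_rpow_of_exponent_le (one_le_pow₀ hk1) (by norm_num)
        _ = (k : ℝ) ^ 2 := Real.rpow_one _
    have hZY : Y ^ (3/4 : ℝ) / Y = Z := by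
      rw [hZ]
      have : Y ^ (3/4 : ℝ) / Y = Y ^ (3/4 : ℝ) / Y ^ (1 : ℝ) := by rw [Real.rpow_one]
      rw [this, ← Real.rpow_sub hY]
      norm_num
    have hk26 : (k : ℝ) ^ 2 ≤ (k : ℝ) ^ 6 := pow_le_pow_right₀ hk1 (by norm_num)
    calc ‖(k : ℂ) ^ (-1 - η)‖ / Y * ‖L - (riemannZeta (1 + η) -
          Gamma (1 - η) / η * (((k : ℝ) ^ 2 * Y : ℝ) : ℂ) ^ η)‖
        ≤ 1 / Y * (C2 * (1 + 1 / ‖η‖) * ((k : ℝ) ^ 2 * Y) ^ (3/4 : ℝ)) := by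
          gcongr
      _ ≤ 1 / Y * (C2 * (1 + 1 / ‖η‖) * ((k : ℝ) ^ 2 * Y ^ (3/4 : ℝ))) := by gcongr
      _ = C2 * (1 + 1 / ‖η‖) * (k : ℝ) ^ 2 * (Y ^ (3/4 : ℝ) / Y) := by ring
      _ = C2 * (1 + 1 / ‖η‖) * (k : ℝ) ^ 2 * Z := by rw [hZY]
      _ ≤ C2 * (1 + 1 / ‖η‖) * (k : ℝ) ^ 6 * Z := by gcongr
  refine (norm_add₃_le).trans ?_
  calc _ ≤ 4 * C1 * (1 + 1 / ‖η‖) * (k : ℝ) ^ 6 * Z + C1 * C0 * (1 + 1 / ‖η‖) * (k : ℝ) ^ 6 * Z +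
        C2 * (1 + 1 / ‖η‖) * (k : ℝ) ^ 6 * Z := add_le_add (add_le_add n1 n2) n3
    _ = (4 * C1 + C1 * C0 + C2) * (1 + 1 / ‖η‖) * (k : ℝ) ^ 6 * Z := by ring

end LZ
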