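import Pool.Agent.Lib.MP_0f5a55_nt.D0
import Pool.Agent.Lib.MP_0f5a55_nt.A21

open Complex MeasureTheory Set Filter Topology
open scoped ComplexConjugate

namespace LZ

/-- general h,k: divide by the gcd. -/
theorem tsm (U : ℝ) (hU : 0 ≤ U) : ∃ C T0 : ℝ, 0 < C ∧ 2 ≤ T0 ∧ ∀ T : ℝ, T0 ≤ T → ∀ h k : ℕ, 1 ≤ h → 1 ≤ k →
    ∀ α β : ℂ, |α.re| ≤ 1/16 → |β.re| ≤ 1/16 → |α.im| ≤ U → |β.im| ≤ U → α + β ≠ 0 →
    ‖EE T (fun t => riemannZeta (1/2 + α + t * I) * riemannZeta (1/2 + β - t * I) *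
        ((h : ℂ) ^ (-(t * I)) * (k : ℂ) ^ (t * I))) - mainT T α β h k‖ ≤
      C * (1 + 1 / ‖α + β‖) * ((h : ℝ) * k) ^ 8 * T ^ (-(1/2) : ℝ) := by
  obtain ⟨C, T0, hC, hT0, H⟩ := tsm_coprime U hU
  refine ⟨C, T0, hC, hT0, fun T hT h k hh hk α β h1 h2 h3 h4 h5 => ?_⟩
  obtain ⟨g, h', k', hg0, hcop, rfl, rfl⟩ : ∃ g h' k' : ℕ, 0 < g ∧ Nat.Coprime h' k' ∧
      h = h' * g ∧ k = k' * g :=
    ⟨Nat.gcd h k, h / Nat.gcd h k, k / Nat.gcd h k, Nat.gcd_pos_of_pos_left _ hh,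
      Nat.coprime_div_gcd_div_gcd (Nat.gcd_pos_of_pos_left _ hh),
      (Nat.div_mul_cancel (Nat.gcd_dvd_left h k)).symm,
      (Nat.div_mul_cancel (Nat.gcd_dvd_right h k)).symm⟩
  have hh' : 1 ≤ h' := Nat.pos_of_mul_pos_right hh
  have hk' : 1 ≤ k' := Nat.pos_of_mul_pos_right hk
  have hgcd : Nat.gcd (h' * g) (k' * g) = g := by
    rw [Nat.gcd_mul_right, hcop, one_mul]
  have hmain : mainT T α β (h' * g) (k' * g) = mainT T α β h' k' := by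
    unfold mainT
    rw [hgcd, hcop, Nat.mul_div_cancel _ hg0, Nat.mul_div_cancel _ hg0, Nat.div_one, Nat.div_one]
  have hf : (fun t : ℝ => riemannZeta (1/2 + α + t * I) * riemannZeta (1/2 + β - t * I) *
        (((h' * g : ℕ) : ℂ) ^ (-(t * I)) * ((k' * g : ℕ) : ℂ) ^ (t * I))) =
      fun t : ℝ => riemannZeta (1/2 + α + t * I) * riemannZeta (1/2 + β - t * I) *
        ((h' : ℂ) ^ (-(t * I)) * (k' : ℂ) ^ (t * I)) := by
    funext t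
    have hgc : (g : ℂ) ≠ 0 := by exact_mod_cast hg0.ne'
    have e1 : ((h' * g : ℕ) : ℂ) ^ (-(t * I)) = (h' : ℂ) ^ (-(t * I)) * (g : ℂ) ^ (-(t * I)) := by
      rw [Nat.cast_mul, natCast_mul_natCast_cpow]
    have e2 : ((k' * g : ℕ) : ℂ) ^ (t * I) = (k' : ℂ) ^ (t * I) * (g : ℂ) ^ (t * I) := by
      rw [Nat.cast_mul, natCast_mul_natCast_cpow]
    have e3 : (g : ℂ) ^ (-(t * I)) * (g : ℂ) ^ (t * I) = 1 := by
      rw [← cpow_add _ _ hgc, neg_add_cancel, cpow_zero]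
    rw [e1, e2]
    linear_combination (riemannZeta (1/2 + α + t * I) * riemannZeta (1/2 + β - t * I) *
      (h' : ℂ) ^ (-(t * I)) * (k' : ℂ) ^ (t * I)) * e3
  rw [hf, hmain]
  refine (H T hT h' k' hh' hk' hcop α β h1 h2 h3 h4 h5).trans ?_
  have hT0' : 0 < T := by linarith
  have hle : ((h' : ℝ) * k') ^ 8 ≤ (((h' * g : ℕ) : ℝ) * ((k' * g : ℕ) : ℝ)) ^ 8 := by
    have hg1 : (1 : ℝ) ≤ g := by exact_mod_cast hg0
    have a1 : (h' : ℝ) ≤ ((h' * g : ℕ) : ℝ) := by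
      push_cast
      exact le_mul_of_one_le_right (by positivity) hg1
    have a2 : (k' : ℝ) ≤ ((k' * g : ℕ) : ℝ) := by
      push_cast
      exact le_mul_of_one_le_right (by positivity) hg1
    gcongr
  have hn : 0 ≤ 1 / ‖α + β‖ := by positivity
  have hp : 0 ≤ T ^ (-(1/2) : ℝ) := Real.rpow_nonneg hT0'.le _
  gcongr

end LZ
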