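import Mathlib

open Complex MeasureTheory Set Filter Topology

namespace LZ

/-- weight (1-x)_+^21 -/
noncomputable def wt (x : ℝ) : ℝ := (max 0 (1 - x)) ^ 21

/-- kernel with wt x = integral of kk u * exp (-(1+iu) x), for x at least 0 -/
noncomputable def kk (u : ℝ) : ℂ :=
  (Nat.factorial 21 : ℂ) / (2 * Real.pi) * exp (1 + u * I) * ((1 + u * I) ^ 22)⁻¹

/-- primes at most z -/
def PP (z : ℕ) : Finset ℕ := (Finset.range (z + 1)).filter Nat.Prime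

/-- product of a finite set of numbers -/
def nS (S : Finset ℕ) : ℕ := ∏ p ∈ S, p

/-- mollifier coefficient -/
noncomputable def cf (lam l : ℝ) (S : Finset ℕ) : ℝ :=
  (-lam) ^ S.card * wt (Real.log (nS S) / l)

/-- mollifier; lam = 1 usual, lam = 1/2 Selberg, lam = 0 constant 1. Length exp l. -/
noncomputable def Mol (lam l : ℝ) (s : ℂ) : ℂ :=
  ∑ S ∈ (PP ⌊Real.exp l⌋₊).powerset, (cf lam l S : ℂ) * (nS S : ℂ) ^ (-s)

/-- prime sum -/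
noncomputable def R (s : ℂ) : ℝ := ∑' p : Nat.Primes, ((((p : ℕ) : ℂ)) ^ (-s)).re

/-- truncated prime sum -/
noncomputable def Rz (z : ℕ) (s : ℂ) : ℝ := ∑ p ∈ PP z, ((p : ℂ) ^ (-s)).re

/-- local Euler factor of the four variable gcd sum -/
noncomputable def EP (x : Fin 4 → ℂ) (c : ℂ) : ℂ :=
  (1 + x 0) * (1 + x 1) + (1 + x 2) * (1 + x 3) - 1
    + c * ((x 0 + x 1) * (x 2 + x 3) + (x 0 + x 1) * (x 2 * x 3) + (x 0 * x 1) * (x 2 + x 3))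
    + c ^ 2 * (x 0 * x 1 * x 2 * x 3)

/-- signed combination of values at the exponents -/
noncomputable def SR (F : ℂ → ℝ) (lam : Fin 4 → ℝ) (A : Fin 4 → ℂ) (C : ℂ) : ℝ :=
  -(∑ j, lam j * F (A j)) + (lam 0 * lam 2 * F (A 0 + A 2 - C) + lam 0 * lam 3 * F (A 0 + A 3 - C)
    + lam 1 * lam 2 * F (A 1 + A 2 - C) + lam 1 * lam 3 * F (A 1 + A 3 - C))

/-- mollified gcd sum -/
noncomputable def QQ (z : ℕ) (lam : Fin 4 → ℝ) (l : ℝ) (e : Fin 4 → ℂ) (e4 : ℂ) : ℂ :=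
  ∑ S ∈ Fintype.piFinset (fun _ : Fin 4 => (PP z).powerset),
    (∏ j, (cf (lam j) l (S j) : ℂ) * (nS (S j) : ℂ) ^ (-1 - e j)) *
      ((Nat.gcd (nS (S 0) * nS (S 1)) (nS (S 2) * nS (S 3)) : ℕ) : ℂ) ^ (1 + e4)

/-- exponents after inserting the integral representation of the weights -/
noncomputable def Aex (l : ℝ) (e : Fin 4 → ℂ) (u : Fin 4 → ℝ) (j : Fin 4) : ℂ :=
  1 + e j + (1 + u j * I) / l

/-- mean over (0,oo) with weight exp(-t/T)/T -/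
noncomputable def EE (T : ℝ) (f : ℝ → ℂ) : ℂ :=
  (T : ℂ)⁻¹ * ∫ t in Ioi (0:ℝ), f t * (Real.exp (-t / T) : ℂ)

noncomputable def ER (T : ℝ) (f : ℝ → ℝ) : ℝ :=
  T⁻¹ * ∫ t in Ioi (0:ℝ), f t * Real.exp (-t / T)

noncomputable def f1 (y : ℝ) : ℝ := 1 / (Real.exp y - 1) - Real.exp (-y) / y

noncomputable def Ac (η : ℂ) : ℂ :=
  -Gamma (1 - η) / η + ∫ y in Ioi (0:ℝ), (y : ℂ) ^ (-η) * (f1 y : ℂ)

/-- double series sum over m,n of m^(-eta) exp(-m n W) -/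
noncomputable def DD (η W : ℂ) : ℂ :=
  ∑' m : ℕ, ((m : ℂ) + 1) ^ (-η) * (exp (((m : ℂ) + 1) * W) - 1)⁻¹

/-- 2 pi i exp(-i eps) h / k -/
noncomputable def WW (ε : ℝ) (h k : ℕ) : ℂ := 2 * Real.pi * I * exp (-(ε * I)) * h / k

/-- main term of the twisted second moment -/
noncomputable def mainT (T : ℝ) (α β : ℂ) (h k : ℕ) : ℂ :=
  riemannZeta (1 + (α + β)) * ((h / Nat.gcd h k : ℕ) : ℂ) ^ (-1/2 - β) *
      ((k / Nat.gcd h k : ℕ) : ℂ) ^ (-1/2 - α)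
    + ((2 * Real.pi / T : ℝ) : ℂ) ^ (α + β) * Ac (α + β) *
      ((h / Nat.gcd h k : ℕ) : ℂ) ^ (-1/2 + α) * ((k / Nat.gcd h k : ℕ) : ℂ) ^ (-1/2 + β)

/-- integrand of the master moment -/
noncomputable def XX (lam : Fin 4 → ℝ) (l : ℝ) (α β : ℂ) (τ : Fin 4 → ℂ) (t : ℝ) : ℂ :=
  riemannZeta (1/2 + α + t * I) * riemannZeta (1/2 + β - t * I) *
    (Mol (lam 0) l (1/2 + τ 0 + t * I) * Mol (lam 1) l (1/2 + τ 1 + t * I) *
      Mol (lam 2) l (1/2 + τ 2 - t * I) * Mol (lam 3) l (1/2 + τ 3 - t * I))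

/-- mollified zeta -/
noncomputable def FF (l : ℝ) (s : ℂ) : ℂ := riemannZeta s * Mol 1 l s

/-- convergent Euler product correction for the usual mollifier -/
noncomputable def R1 (A B D : ℂ) : ℂ :=
  ∏' p : Nat.Primes, ((1 - ((p : ℕ) : ℂ) ^ (-A) - ((p : ℕ) : ℂ) ^ (-B) + ((p : ℕ) : ℂ) ^ (-D)) *
    (1 - ((p : ℕ) : ℂ) ^ (-D)) / ((1 - ((p : ℕ) : ℂ) ^ (-A)) * (1 - ((p : ℕ) : ℂ) ^ (-B))))

/-- Selberg correlation -/
noncomputable def KK (T l : ℝ) (v : ℂ) : ℂ :=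
  EE T (XX (fun _ => 1/2) l 0 (-(v * I)) ![0, v * I, 0, -(v * I)])

/-- coefficients of the truncated mollified zeta -/
noncomputable def cN (N : ℕ) (l : ℝ) (n : ℕ) : ℝ :=
  ∑ S ∈ (PP ⌊Real.exp l⌋₊).powerset.filter (fun S => nS S ∣ n ∧ n / nS S ≤ N ∧ 1 ≤ n), cf 1 l S

/-- unimodular phase making zeta real on the critical line -/
noncomputable def uu (t : ℝ) : ℂ := Gammaℝ (1/2 + t * I) / (‖Gammaℝ (1/2 + t * I)‖ : ℂ)

/-- Hardy function times the absolute square of the Selberg mollifier -/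
noncomputable def GG (l : ℝ) (t : ℝ) : ℝ :=
  (uu t * riemannZeta (1/2 + t * I)).re * ‖Mol (1/2) l (1/2 + t * I)‖ ^ 2

/-- ordinates of zeros on the critical line -/
def Gam : Set ℝ := {g : ℝ | riemannZeta (1/2 + g * I) = 0}

/-- d-separated finite set of reals -/
def Sep (d : ℝ) (Y : Finset ℝ) : Prop := ∀ a ∈ Y, ∀ b ∈ Y, a ≠ b → d ≤ |a - b|

end LZ
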