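import Pool.Agent.Lib.MP_0f5a55_nt.D0

open Complex MeasureTheory Set Filter Topology
open scoped ComplexConjugate

namespace LZ

private theorem E01_circle {f : ℂ → ℂ} {c : ℂ} {r ρ : ℝ} (hρ : 0 < ρ) (hρr : ρ ≤ r)
    (hf : ∀ z : ℂ, |(z - c).re| ≤ r → |(z - c).im| ≤ r → DifferentiableAt ℂ f z) :
    2 * Real.pi * ‖f c‖ ^ 2 ≤
      ∫ θ in (-Real.pi)..Real.pi, ‖f (c + ρ * (Real.cos θ + Real.sin θ * I))‖ ^ 2 := by
  have hd : ∀ z ∈ Metric.closedBall c ρ, DifferentiableAt ℂ f z := by
    intro z hz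
    have hz' : ‖z - c‖ ≤ ρ := by rwa [Metric.mem_closedBall, dist_eq_norm] at hz
    exact hf z ((abs_re_le_norm _).trans (hz'.trans hρr)) ((abs_im_le_norm _).trans (hz'.trans hρr))
  have hdc : DiffContOnCl ℂ (fun z => f z ^ 2) (Metric.ball c |ρ|) := by
    rw [abs_of_pos hρ]
    apply DifferentiableOn.diffContOnCl
    intro z hz
    exact ((hd z (Metric.closure_ball_subset_closedBall hz)).pow 2).differentiableWithinAt
  have hav := hdc.circleAverage
  have hcont : Continuous fun θ : ℝ => f (circleMap c ρ θ) := by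
    rw [continuous_iff_continuousAt]
    intro θ
    have h1 : ContinuousAt f (circleMap c ρ θ) :=
      (hd _ (Metric.sphere_subset_closedBall (circleMap_mem_sphere c hρ.le θ))).continuousAt
    exact ContinuousAt.comp (f := circleMap c ρ) h1 (continuous_circleMap c ρ).continuousAt
  have h1 : 2 * Real.pi * ‖f c‖ ^ 2 ≤ ∫ θ in (0:ℝ)..2 * Real.pi, ‖f (circleMap c ρ θ)‖ ^ 2 := by
    have h2 : ‖f c‖ ^ 2 = ‖Real.circleAverage (fun z => f z ^ 2) c ρ‖ := by
      rw [hav, norm_pow]
    rw [h2, Real.circleAverage_def, norm_smul, ← mul_assoc]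
    have h3 : 2 * Real.pi * ‖(2 * Real.pi)⁻¹‖ = 1 := by
      rw [Real.norm_of_nonneg (by positivity)]
      field_simp
    rw [h3, one_mul]
    refine (intervalIntegral.norm_integral_le_integral_norm (by positivity)).trans ?_
    apply le_of_eq
    congr 1
    ext θ
    rw [norm_pow]
  refine h1.trans (le_of_eq ?_)
  have hper : Function.Periodic (fun θ : ℝ => ‖f (circleMap c ρ θ)‖ ^ 2) (2 * Real.pi) := by
    intro θ
    simp only [periodic_circleMap c ρ θ]
  have h4 := hper.intervalIntegral_add_eq 0 (-Real.pi)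
  rw [zero_add, show -Real.pi + 2 * Real.pi = Real.pi by ring] at h4
  rw [h4]
  apply intervalIntegral.integral_congr
  intro θ _
  simp only
  congr 3
  unfold circleMap
  rw [Complex.exp_mul_I]
  push_cast
  ring

/-- (6.1). f(c)^2 is the mean of f^2 over circles |z-c| = rho (Cauchy), integrate rho d rho over (0,r): mean over the disc
(polar coordinates), then enlarge the disc to the square. -/
theorem sub_mean {f : ℂ → ℂ} {c : ℂ} {r : ℝ} (hr : 0 < r)
    (hf : ∀ z : ℂ, |(z - c).re| ≤ r → |(z - c).im| ≤ r → DifferentiableAt ℂ f z) :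
    ‖f c‖ ^ 2 ≤ (Real.pi * r ^ 2)⁻¹ * ∫ σ in (-r)..r, ∫ t in (-r)..r, ‖f (c + σ + t * I)‖ ^ 2 := by
  have hpi := Real.pi_pos
  set g : ℂ → ℝ := fun z => ‖f (c + z)‖ ^ 2 with hg
  have hgd : ∀ z : ℂ, |z.re| ≤ r → |z.im| ≤ r → ContinuousAt g z := by
    intro z h1 h2
    have h3 : DifferentiableAt ℂ f (c + z) := hf (c + z) (by simpa using h1) (by simpa using h2)
    have h4 : ContinuousAt (fun z => f (c + z)) z :=
      ContinuousAt.comp (f := fun z => c + z) h3.continuousAt (by fun_prop)
    exact (h4.norm).pow 2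
  -- polar side
  set P : Set (ℝ × ℝ) := Ioc 0 r ×ˢ Ioo (-Real.pi) Real.pi with hP
  set pc : ℝ × ℝ → ℂ := fun p => p.1 * (Real.cos p.2 + Real.sin p.2 * I) with hpc
  have hpcc : Continuous pc := by
    simp only [hpc]
    fun_prop
  have hpcn : ∀ p : ℝ × ℝ, ‖pc p‖ = |p.1| := by
    intro p
    have := norm_polarCoord_symm p
    rwa [Complex.polarCoord_symm_apply] at this
  have hcontP : ContinuousOn (fun p : ℝ × ℝ => p.1 * g (pc p)) (Icc 0 r ×ˢ Icc (-Real.pi) Real.pi) := by
    intro p hp
    have h1 : |p.1| ≤ r := by rw [abs_of_nonneg hp.1.1]; exact hp.1.2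
    have h2 : ContinuousAt g (pc p) :=
      hgd _ ((abs_re_le_norm _).trans ((hpcn p).le.trans h1)) ((abs_im_le_norm _).trans ((hpcn p).le.trans h1))
    have h3 : ContinuousAt (fun p : ℝ × ℝ => g (pc p)) p :=
      ContinuousAt.comp (f := pc) h2 hpcc.continuousAt
    exact (continuousAt_fst.mul h3).continuousWithinAt
  have hintP : IntegrableOn (fun p : ℝ × ℝ => p.1 * g (pc p)) (Icc 0 r ×ˢ Icc (-Real.pi) Real.pi) :=
    hcontP.integrableOn_compact (isCompact_Icc.prod isCompact_Icc)
  have hPsub : P ⊆ Icc 0 r ×ˢ Icc (-Real.pi) Real.pi :=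
    prod_mono Ioc_subset_Icc_self Ioo_subset_Icc_self
  have hintP' : IntegrableOn (fun p : ℝ × ℝ => p.1 * g (pc p)) P := hintP.mono_set hPsub
  have hlow : Real.pi * r ^ 2 * ‖f c‖ ^ 2 ≤ ∫ p in P, p.1 * g (pc p) := by
    rw [hP, Measure.volume_eq_prod, setIntegral_prod _ (by rw [← Measure.volume_eq_prod]; exact hintP')]
    have h1 : ∫ ρ in Ioc (0:ℝ) r, ρ * (2 * Real.pi * ‖f c‖ ^ 2) = Real.pi * r ^ 2 * ‖f c‖ ^ 2 := by
      rw [← intervalIntegral.integral_of_le hr.le, intervalIntegral.integral_mul_const, integral_id]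
      ring
    rw [← h1]
    apply setIntegral_mono_on
    · rw [← intervalIntegrable_iff_integrableOn_Ioc_of_le hr.le]
      exact (by fun_prop : Continuous fun ρ : ℝ => ρ * (2 * Real.pi * ‖f c‖ ^ 2)).intervalIntegrable _ _
    · have := hintP'
      rw [hP, Measure.volume_eq_prod, IntegrableOn, ← Measure.prod_restrict] at this
      exact this.integral_prod_left
    · exact measurableSet_Ioc
    · intro ρ hρ
      simp only
      rw [integral_const_mul]
      apply mul_le_mul_of_nonneg_left _ hρ.1.le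
      have := E01_circle hρ.1 hρ.2 hf
      rw [intervalIntegral.integral_of_le (by linarith), integral_Ioc_eq_integral_Ioo] at this
      exact this
  have hpolar : ∫ p in P, p.1 * g (pc p) = ∫ z in Metric.closedBall (0:ℂ) r, g z := by
    rw [← integral_indicator Metric.isClosed_closedBall.measurableSet,
      ← Complex.integral_comp_polarCoord_symm]
    have h1 : P ⊆ polarCoord.target := by
      rintro p ⟨h1, h2⟩
      exact ⟨h1.1, h2⟩
    rw [setIntegral_eq_of_subset_of_forall_sdiff_eq_zero (s := P) (t := polarCoord.target)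
      (by exact polarCoord.open_target.measurableSet) h1]
    · apply setIntegral_congr_fun (measurableSet_Ioc.prod measurableSet_Ioo)
      intro p hp
      simp only [smul_eq_mul]
      rw [indicator_of_mem]
      · rw [Complex.polarCoord_symm_apply]
      · rw [mem_closedBall_zero_iff, norm_polarCoord_symm, abs_of_pos hp.1.1]
        exact hp.1.2
    · rintro p ⟨hp1, hp2⟩
      rw [indicator_of_notMem, smul_zero]
      rw [mem_closedBall_zero_iff, norm_polarCoord_symm, abs_of_pos hp1.1]
      intro h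
      exact hp2 ⟨⟨hp1.1, h⟩, hp1.2⟩
  -- the square
  set Sq : Set (ℝ × ℝ) := Icc (-r) r ×ˢ Icc (-r) r with hSq
  set G : ℝ × ℝ → ℝ := fun p => g (p.1 + p.2 * I) with hG
  have hGc : ContinuousOn G Sq := by
    intro p hp
    have h1 : |p.1| ≤ r := abs_le.2 hp.1
    have h2 : |p.2| ≤ r := abs_le.2 hp.2
    have h3 : ContinuousAt g ((p.1 : ℂ) + p.2 * I) := hgd _ (by simpa using h1) (by simpa using h2)
    exact (ContinuousAt.comp (f := fun p : ℝ × ℝ => (p.1 : ℂ) + p.2 * I) h3 (by fun_prop)).continuousWithinAt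
  have hGi : IntegrableOn G Sq := hGc.integrableOn_compact (isCompact_Icc.prod isCompact_Icc)
  have hsq : ∫ z in Metric.closedBall (0:ℂ) r, g z ≤ ∫ p in Sq, G p := by
    have h1 : ∫ z in Metric.closedBall (0:ℂ) r, g z =
        ∫ p in {p : ℝ × ℝ | ‖(p.1 : ℂ) + p.2 * I‖ ≤ r}, G p := by
      rw [← integral_indicator Metric.isClosed_closedBall.measurableSet, ← integral_indicator
        (measurableSet_le (by fun_prop) measurable_const),
        ← (Complex.volume_preserving_equiv_real_prod.symm).integral_comp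
        measurableEquivRealProd.symm.measurableEmbedding]
      congr 1
      ext p
      have hp : (measurableEquivRealProd.symm p : ℂ) = (p.1 : ℂ) + p.2 * I := by
        apply Complex.ext <;> simp [measurableEquivRealProd]
      rw [hp]
      by_cases h : ‖(p.1 : ℂ) + p.2 * I‖ ≤ r
      · rw [indicator_of_mem (by rw [mem_closedBall_zero_iff]; exact h),
          indicator_of_mem (show p ∈ {p : ℝ × ℝ | ‖(p.1 : ℂ) + p.2 * I‖ ≤ r} from h)]
      · rw [indicator_of_notMem (by rw [mem_closedBall_zero_iff]; exact h),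
          indicator_of_notMem (show p ∉ {p : ℝ × ℝ | ‖(p.1 : ℂ) + p.2 * I‖ ≤ r} from h)]
    rw [h1]
    apply setIntegral_mono_set hGi
    · exact Filter.Eventually.of_forall fun p => by simp only [hG, hg]; positivity
    · apply LE.le.eventuallyLE
      intro p hp
      have hp' : ‖(p.1 : ℂ) + p.2 * I‖ ≤ r := hp
      have h2 := (abs_re_le_norm ((p.1 : ℂ) + p.2 * I)).trans hp'
      have h3 := (abs_im_le_norm ((p.1 : ℂ) + p.2 * I)).trans hp'
      simp at h2 h3
      exact ⟨abs_le.1 h2, abs_le.1 h3⟩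
  have hfub : ∫ p in Sq, G p = ∫ σ in (-r)..r, ∫ t in (-r)..r, ‖f (c + σ + t * I)‖ ^ 2 := by
    rw [hSq, Measure.volume_eq_prod, setIntegral_prod _ (by rw [← Measure.volume_eq_prod]; exact hGi),
      intervalIntegral.integral_of_le (by linarith), integral_Icc_eq_integral_Ioc]
    apply setIntegral_congr_fun measurableSet_Ioc
    intro σ _
    simp only
    rw [intervalIntegral.integral_of_le (by linarith), integral_Icc_eq_integral_Ioc]
    simp only [hG, hg, add_assoc]
  rw [← hfub]
  have hfin : Real.pi * r ^ 2 * ‖f c‖ ^ 2 ≤ ∫ p in Sq, G p := hlow.trans (hpolar.le.trans hsq)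
  have hpr : 0 < Real.pi * r ^ 2 := by positivity
  rw [← div_eq_inv_mul, le_div_iff₀ hpr]
  linarith

end LZ
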