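import Pool.Agent.Lib.MP_0f5a55_nt.D0
import Pool.Agent.Lib.MP_0f5a55_nt.E01

open Complex MeasureTheory Set Filter Topology
open scoped ComplexConjugate

namespace LZ

/-- clamp -/
private noncomputable def E02_cl (u v x : ℝ) : ℝ := max u (min x v)

private theorem E02_cl_cont (u v : ℝ) : Continuous (E02_cl u v) := by
  unfold E02_cl
  fun_prop

private theorem E02_cl_mem {u v : ℝ} (h : u ≤ v) (x : ℝ) : u ≤ E02_cl u v x ∧ E02_cl u v x ≤ v :=
  ⟨le_max_left _ _, max_le h (min_le_right _ _)⟩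

private theorem E02_cl_eq {u v x : ℝ} (h1 : u ≤ x) (h2 : x ≤ v) : E02_cl u v x = x := by
  unfold E02_cl
  rw [min_eq_left h2, max_eq_right h1]

/-- sum over disjoint intervals -/
private theorem E02_sum_int {r a b : ℝ} (hr : 0 < r) (hab : a ≤ b) (Y : Finset ℝ)
    (hY : ∀ y ∈ Y, a ≤ y ∧ y ≤ b) (hsep : Sep (2 * r) Y) {g : ℝ → ℝ} (hg : Continuous g)
    (hg0 : ∀ t, 0 ≤ g t) :
    ∑ y ∈ Y, ∫ t in (y - r)..(y + r), g t ≤ ∫ t in (a - r)..(b + r), g t := by
  have h1 : ∑ y ∈ Y, ∫ t in (y - r)..(y + r), g t = ∑ y ∈ Y, ∫ t in Ioc (y - r) (y + r), g t := by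
    refine Finset.sum_congr rfl fun y _ => ?_
    rw [intervalIntegral.integral_of_le (by linarith)]
  have hint : ∀ u v : ℝ, IntegrableOn g (Ioc u v) := fun u v =>
    (hg.integrableOn_Icc (a := u) (b := v)).mono_set Ioc_subset_Icc_self
  rw [h1, intervalIntegral.integral_of_le (by linarith), ← integral_biUnion_finset]
  · refine setIntegral_mono_set (hint _ _) (ae_of_all _ fun t => hg0 t) ?_
    refine LE.le.eventuallyLE ?_
    refine iUnion₂_subset fun y hy => ?_
    exact Ioc_subset_Ioc (by linarith [(hY y hy).1]) (by linarith [(hY y hy).2])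
  · exact fun y _ => measurableSet_Ioc
  · intro y hy z hz hyz
    have h2 := hsep y hy z hz hyz
    rw [Function.onFun, Set.disjoint_left]
    intro t ht1 ht2
    rcases abs_cases (y - z) with ⟨h3, -⟩ | ⟨h3, -⟩
    · have := ht1.1
      have := ht2.2
      linarith
    · have := ht1.2
      have := ht2.1
      linarith
  · exact fun y _ => hint _ _

/-- sum of (6.1) over a 2r-separated set: the t-intervals (y-r,y+r) are disjoint. -/
theorem sum_sep {f : ℂ → ℂ} {r a b : ℝ} (hr : 0 < r) (hab : a ≤ b) (Y : Finset ℝ) (hY : ∀ y ∈ Y, a ≤ y ∧ y ≤ b)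
    (hsep : Sep (2 * r) Y)
    (hf : ∀ z : ℂ, |z.re - 1/2| ≤ r → a - r ≤ z.im → z.im ≤ b + r → DifferentiableAt ℂ f z) :
    ∑ y ∈ Y, ‖f (1/2 + y * I)‖ ^ 2 ≤
      (Real.pi * r ^ 2)⁻¹ * ∫ σ in (-r)..r, ∫ t in (a - r)..(b + r), ‖f (1/2 + σ + t * I)‖ ^ 2 := by
  -- the clamped function
  set G : ℝ → ℝ → ℝ := fun σ t =>
    ‖f (1/2 + (E02_cl (-r) r σ : ℂ) + (E02_cl (a - r) (b + r) t : ℂ) * I)‖ ^ 2 with hG
  have hfc : ContinuousOn f {z : ℂ | |z.re - 1/2| ≤ r ∧ a - r ≤ z.im ∧ z.im ≤ b + r} :=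
    fun z hz => (hf z hz.1 hz.2.1 hz.2.2).continuousAt.continuousWithinAt
  have hGc : Continuous (Function.uncurry G) := by
    have hc : Continuous fun z : ℝ × ℝ =>
        (1/2 + (E02_cl (-r) r z.1 : ℂ) + (E02_cl (a - r) (b + r) z.2 : ℂ) * I) := by
      have h1 := E02_cl_cont (-r) r
      have h2 := E02_cl_cont (a - r) (b + r)
      fun_prop
    have hcomp : Continuous fun z : ℝ × ℝ =>
        f (1/2 + (E02_cl (-r) r z.1 : ℂ) + (E02_cl (a - r) (b + r) z.2 : ℂ) * I) := by
      rw [← continuousOn_univ]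
      refine hfc.comp hc.continuousOn fun z _ => ?_
      have h1 := E02_cl_mem (show -r ≤ r by linarith) z.1
      have h2 := E02_cl_mem (show a - r ≤ b + r by linarith) z.2
      refine ⟨?_, ?_, ?_⟩
      · simp only [add_re, mul_re, ofReal_re, ofReal_im, I_re, I_im, mul_zero, mul_one, zero_mul,
          sub_zero, sub_self, add_zero]
        have : ((1:ℂ)/2).re = 1/2 := by norm_num
        rw [this, abs_le]
        constructor <;> linarith [h1.1, h1.2]
      · simp only [add_im, mul_im, ofReal_re, ofReal_im, I_re, I_im, mul_zero, mul_one, zero_mul,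
          add_zero]
        have : ((1:ℂ)/2).im = 0 := by norm_num
        rw [this]
        linarith [h2.1]
      · simp only [add_im, mul_im, ofReal_re, ofReal_im, I_re, I_im, mul_zero, mul_one, zero_mul,
          add_zero]
        have : ((1:ℂ)/2).im = 0 := by norm_num
        rw [this]
        linarith [h2.2]
    exact hcomp.norm.pow 2
  have hG0 : ∀ σ t, 0 ≤ G σ t := fun σ t => by rw [hG]; positivity
  have hGe : ∀ σ ∈ Icc (-r) r, ∀ t ∈ Icc (a - r) (b + r), ‖f (1/2 + σ + t * I)‖ ^ 2 = G σ t := by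
    intro σ hσ t ht
    simp only [hG]
    rw [E02_cl_eq hσ.1 hσ.2, E02_cl_eq ht.1 ht.2]
  have hnn : 0 ≤ (Real.pi * r ^ 2)⁻¹ := by positivity
  -- each term
  have hterm : ∀ y ∈ Y, ‖f (1/2 + y * I)‖ ^ 2 ≤
      (Real.pi * r ^ 2)⁻¹ * ∫ σ in (-r)..r, ∫ t in (y - r)..(y + r), G σ t := by
    intro y hy
    have h1 := sub_mean (f := f) (c := 1/2 + y * I) hr (fun z hz1 hz2 => by
      have e1 : (z - (1/2 + y * I)).re = z.re - 1/2 := by
        simp only [sub_re, add_re, mul_re, ofReal_re, ofReal_im, I_re, I_im, mul_zero, zero_mul,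
          sub_self, add_zero]
        norm_num
      have e2 : (z - (1/2 + y * I)).im = z.im - y := by
        simp only [sub_im, add_im, mul_im, ofReal_re, ofReal_im, I_re, I_im, mul_zero, mul_one,
          add_zero]
        norm_num
      rw [e1] at hz1
      rw [e2] at hz2
      have h2 := abs_le.1 hz2
      exact hf z hz1 (by linarith [h2.1, (hY y hy).1]) (by linarith [h2.2, (hY y hy).2]))
    refine h1.trans (le_of_eq ?_)
    congr 1
    refine intervalIntegral.integral_congr fun σ hσ => ?_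
    rw [uIcc_of_le (by linarith)] at hσ
    have h3 : ∫ t in (-r)..r, ‖f (1/2 + y * I + σ + t * I)‖ ^ 2 =
        ∫ t in (-r)..r, (fun t => G σ t) (t + y) := by
      refine intervalIntegral.integral_congr fun t ht => ?_
      rw [uIcc_of_le (by linarith)] at ht
      simp only
      rw [← hGe σ hσ (t + y) ⟨by linarith [ht.1, (hY y hy).1], by linarith [ht.2, (hY y hy).2]⟩]
      congr 3
      push_cast
      ring
    rw [h3, intervalIntegral.integral_comp_add_right (fun t => G σ t)]
    congr 1 <;> ring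
  have hcont : ∀ u v : ℝ, Continuous fun σ => ∫ t in u..v, G σ t := fun u v =>
    intervalIntegral.continuous_parametric_intervalIntegral_of_continuous' hGc u v
  calc ∑ y ∈ Y, ‖f (1/2 + y * I)‖ ^ 2
      ≤ ∑ y ∈ Y, (Real.pi * r ^ 2)⁻¹ * ∫ σ in (-r)..r, ∫ t in (y - r)..(y + r), G σ t :=
        Finset.sum_le_sum hterm
    _ = (Real.pi * r ^ 2)⁻¹ * ∫ σ in (-r)..r, ∑ y ∈ Y, ∫ t in (y - r)..(y + r), G σ t := by
        rw [← Finset.mul_sum, intervalIntegral.integral_finsetSum]
        exact fun y _ => (hcont _ _).intervalIntegrable _ _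
    _ ≤ (Real.pi * r ^ 2)⁻¹ * ∫ σ in (-r)..r, ∫ t in (a - r)..(b + r), G σ t := by
        refine mul_le_mul_of_nonneg_left ?_ hnn
        refine intervalIntegral.integral_mono_on (by linarith) ?_ ?_ fun σ _ => ?_
        · exact (continuous_finsetSum _ fun y _ => hcont _ _).intervalIntegrable _ _
        · exact (hcont _ _).intervalIntegrable _ _
        · exact E02_sum_int hr hab Y hY hsep
            (hGc.comp (Continuous.prodMk continuous_const continuous_id)) (fun t => hG0 σ t)
    _ = (Real.pi * r ^ 2)⁻¹ * ∫ σ in (-r)..r, ∫ t in (a - r)..(b + r), ‖f (1/2 + σ + t * I)‖ ^ 2 := by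
        congr 1
        refine intervalIntegral.integral_congr fun σ hσ => ?_
        rw [uIcc_of_le (by linarith)] at hσ
        refine intervalIntegral.integral_congr fun t ht => ?_
        rw [uIcc_of_le (by linarith)] at ht
        exact (hGe σ hσ t ht).symm

end LZ
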