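import Pool.Agent.Lib.MP_0f5a55_nt.D0

open Complex MeasureTheory Set Filter Topology
open scoped ComplexConjugate

namespace LZ

private lemma E03_int (T w : ℝ) (hT : 0 < T) :
    ∫ t : ℝ, cexp (I * (w : ℂ) * t) * cexp (-((Real.pi / T ^ 2 : ℝ) : ℂ) * (t : ℂ) ^ 2) =
      ((T * Real.exp (-(w ^ 2 * T ^ 2 / (4 * Real.pi))) : ℝ) : ℂ) := by
  have hpi := Real.pi_pos
  have hb : 0 < (((Real.pi / T ^ 2 : ℝ) : ℂ)).re := by rw [ofReal_re]; positivity
  rw [fourierIntegral_gaussian hb]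
  have h1 : ((Real.pi : ℂ) / ((Real.pi / T ^ 2 : ℝ) : ℂ)) = ((T ^ 2 : ℝ) : ℂ) := by
    rw [← ofReal_div]; congr 1; field_simp
  rw [h1]
  have h2 : (((T ^ 2 : ℝ) : ℂ)) ^ (1 / 2 : ℂ) = (T : ℂ) := by
    rw [show (1 / 2 : ℂ) = ((1 / 2 : ℝ) : ℂ) by push_cast; ring, ← ofReal_cpow (by positivity)]
    congr 1
    rw [← Real.sqrt_eq_rpow, Real.sqrt_sq hT.le]
  rw [h2, ofReal_mul, ofReal_exp]
  congr 2
  have : (Real.pi : ℂ) ≠ 0 := by exact_mod_cast hpi.ne'
  have hT' : (T : ℂ) ≠ 0 := by exact_mod_cast hT.ne'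
  push_cast
  field_simp

private lemma E03_log {N m n : ℕ} (hm : m ∈ Finset.Ioc N (2 * N)) (hn : n ∈ Finset.Ioc N (2 * N)) :
    |(m : ℝ) - n| / (2 * N) ≤ |Real.log m - Real.log n| := by
  have key : ∀ m n : ℕ, m ∈ Finset.Ioc N (2 * N) → n ∈ Finset.Ioc N (2 * N) → n ≤ m →
      |(m : ℝ) - n| / (2 * N) ≤ |Real.log m - Real.log n| := by
    intro m n hm hn hnm
    rw [Finset.mem_Ioc] at hm hn
    have hm0 : (0 : ℝ) < m := by exact_mod_cast (by omega : 0 < m)
    have hn0 : (0 : ℝ) < n := by exact_mod_cast (by omega : 0 < n)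
    have hmn : (n : ℝ) ≤ m := by exact_mod_cast hnm
    have hm2 : (m : ℝ) ≤ 2 * N := by exact_mod_cast hm.2
    rw [abs_of_nonneg (by linarith)]
    refine le_trans ?_ (le_abs_self _)
    have h1 : Real.log m - Real.log n = -Real.log ((n : ℝ) / m) := by
      rw [Real.log_div hn0.ne' hm0.ne']; ring
    have h2 := Real.log_le_sub_one_of_pos (show 0 < (n : ℝ) / m by positivity)
    have h3 : ((m : ℝ) - n) / (2 * N) ≤ ((m : ℝ) - n) / m :=
      div_le_div_of_nonneg_left (by linarith) hm0 hm2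
    have h4 : ((m : ℝ) - n) / m = 1 - (n : ℝ) / m := by field_simp
    rw [h1]; linarith
  rcases le_total n m with h | h
  · exact key m n hm hn h
  · have := key n m hn hm h
    rw [abs_sub_comm, abs_sub_comm (Real.log m)]
    exact this

private lemma E03_sum (X : ℝ) (hX : 0 < X) (K : ℕ) :
    ∑ k ∈ Finset.range (K + 1), X ^ 2 / (X + k) ^ 2 ≤ 1 + X - X ^ 2 / (X + K) := by
  induction K with
  | zero => simp; field_simp; linarith
  | succ K ih =>
    rw [Finset.sum_range_succ]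
    have h1 : (0 : ℝ) < X + K := by positivity
    have h2 : (0 : ℝ) < X + ((K + 1 : ℕ) : ℝ) := by positivity
    have h3 : X ^ 2 / (X + ((K + 1 : ℕ) : ℝ)) ^ 2 ≤ X ^ 2 / (X + K) - X ^ 2 / (X + ((K + 1 : ℕ) : ℝ)) := by
      have h4 : X ^ 2 / (X + K) - X ^ 2 / (X + ((K + 1 : ℕ) : ℝ)) =
          X ^ 2 / ((X + K) * (X + ((K + 1 : ℕ) : ℝ))) := by
        field_simp; push_cast; ring
      rw [h4]
      apply div_le_div_of_nonneg_left (by positivity) (by positivity)
      rw [sq]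
      apply mul_le_mul_of_nonneg_right _ h2.le
      push_cast; linarith
    linarith

private lemma E03_row (X : ℝ) (hX : 0 < X) {N m : ℕ} (hm : m ∈ Finset.Ioc N (2 * N)) :
    ∑ n ∈ Finset.Ioc N (2 * N), 1 / (1 + (|(m : ℝ) - n| / X) ^ 2) ≤ 4 * (1 + X) := by
  rw [Finset.mem_Ioc] at hm
  set h : ℕ → ℝ := fun k => X ^ 2 / (X + k) ^ 2 with hh
  have hh0 : ∀ k, 0 ≤ h k := fun k => by rw [hh]; positivity
  have hS : ∑ k ∈ Finset.range (N + 1), h k ≤ 1 + X := by
    have := E03_sum X hX N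
    have h2 : 0 ≤ X ^ 2 / (X + N) := by positivity
    linarith
  have hk : ∀ k : ℕ, 1 / (1 + ((k : ℝ) / X) ^ 2) ≤ 2 * h k := by
    intro k
    have hk0 : (0 : ℝ) ≤ k := Nat.cast_nonneg k
    rw [hh]
    have h1 : 1 / (1 + ((k : ℝ) / X) ^ 2) = X ^ 2 / (X ^ 2 + k ^ 2) := by field_simp
    have h2 : 2 * (X ^ 2 / (X + k) ^ 2) = (2 * X ^ 2) / (X + k) ^ 2 := by ring
    rw [h1]
    show _ ≤ 2 * (X ^ 2 / (X + k) ^ 2)
    rw [h2, div_le_div_iff₀ (by positivity) (by positivity)]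
    have h3 : (X + k) ^ 2 ≤ 2 * (X ^ 2 + k ^ 2) := by nlinarith [sq_nonneg (X - k)]
    nlinarith [sq_nonneg X]
  rw [← Finset.sum_filter_add_sum_filter_not (Finset.Ioc N (2 * N)) (fun n => n ≤ m)]
  have hA : ∑ n ∈ (Finset.Ioc N (2 * N)).filter (fun n => n ≤ m), 1 / (1 + (|(m : ℝ) - n| / X) ^ 2) ≤
      2 * (1 + X) := by
    calc ∑ n ∈ (Finset.Ioc N (2 * N)).filter (fun n => n ≤ m), 1 / (1 + (|(m : ℝ) - n| / X) ^ 2)
        ≤ ∑ n ∈ (Finset.Ioc N (2 * N)).filter (fun n => n ≤ m), 2 * h (m - n) := by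
          apply Finset.sum_le_sum
          intro n hn
          rw [Finset.mem_filter] at hn
          have h1 : |(m : ℝ) - n| = ((m - n : ℕ) : ℝ) := by
            rw [Nat.cast_sub hn.2, abs_of_nonneg]
            have : (n : ℝ) ≤ m := by exact_mod_cast hn.2
            linarith
          rw [h1]
          exact hk _
      _ = 2 * ∑ k ∈ ((Finset.Ioc N (2 * N)).filter (fun n => n ≤ m)).image (fun n => m - n), h k := by
          rw [Finset.sum_image, Finset.mul_sum]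
          intro a ha b hb hab
          rw [Finset.mem_coe, Finset.mem_filter] at ha hb
          have hab' : m - a = m - b := hab
          omega
      _ ≤ 2 * ∑ k ∈ Finset.range (N + 1), h k := by
          apply mul_le_mul_of_nonneg_left _ (by norm_num)
          apply Finset.sum_le_sum_of_subset_of_nonneg
          · intro k hk
            rw [Finset.mem_image] at hk
            obtain ⟨n, hn, rfl⟩ := hk
            rw [Finset.mem_filter, Finset.mem_Ioc] at hn
            rw [Finset.mem_range]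
            omega
          · intro k _ _; exact hh0 k
      _ ≤ 2 * (1 + X) := by linarith
  have hB : ∑ n ∈ (Finset.Ioc N (2 * N)).filter (fun n => ¬ n ≤ m), 1 / (1 + (|(m : ℝ) - n| / X) ^ 2) ≤
      2 * (1 + X) := by
    calc ∑ n ∈ (Finset.Ioc N (2 * N)).filter (fun n => ¬ n ≤ m), 1 / (1 + (|(m : ℝ) - n| / X) ^ 2)
        ≤ ∑ n ∈ (Finset.Ioc N (2 * N)).filter (fun n => ¬ n ≤ m), 2 * h (n - m) := by
          apply Finset.sum_le_sum
          intro n hn
          rw [Finset.mem_filter, not_le] at hn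
          have h1 : |(m : ℝ) - n| = ((n - m : ℕ) : ℝ) := by
            rw [Nat.cast_sub hn.2.le, abs_sub_comm, abs_of_nonneg]
            have : (m : ℝ) ≤ n := by exact_mod_cast hn.2.le
            linarith
          rw [h1]
          exact hk _
      _ = 2 * ∑ k ∈ ((Finset.Ioc N (2 * N)).filter (fun n => ¬ n ≤ m)).image (fun n => n - m), h k := by
          rw [Finset.sum_image, Finset.mul_sum]
          intro a ha b hb hab
          rw [Finset.mem_coe, Finset.mem_filter] at ha hb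
          have hab' : a - m = b - m := hab
          omega
      _ ≤ 2 * ∑ k ∈ Finset.range (N + 1), h k := by
          apply mul_le_mul_of_nonneg_left _ (by norm_num)
          apply Finset.sum_le_sum_of_subset_of_nonneg
          · intro k hk
            rw [Finset.mem_image] at hk
            obtain ⟨n, hn, rfl⟩ := hk
            rw [Finset.mem_filter, Finset.mem_Ioc] at hn
            rw [Finset.mem_range]
            omega
          · intro k _ _; exact hh0 k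
      _ ≤ 2 * (1 + X) := by linarith
  linarith

private lemma E03_schur (S : Finset ℕ) (g : ℕ → ℕ → ℝ) (hg : ∀ m n, 0 ≤ g m n) (hs : ∀ m n, g m n = g n m) (B : ℝ)
    (hB : ∀ m ∈ S, ∑ n ∈ S, g m n ≤ B) (a : ℕ → ℝ) :
    ∑ m ∈ S, ∑ n ∈ S, a m * a n * g m n ≤ B * ∑ m ∈ S, a m ^ 2 := by
  have h1 : ∑ m ∈ S, ∑ n ∈ S, a m * a n * g m n ≤
      ∑ m ∈ S, ∑ n ∈ S, (a m ^ 2 * g m n / 2 + a n ^ 2 * g m n / 2) := by
    apply Finset.sum_le_sum; intro m _
    apply Finset.sum_le_sum; intro n _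
    nlinarith [mul_nonneg (sq_nonneg (a m - a n)) (hg m n)]
  have h2 : ∑ m ∈ S, ∑ n ∈ S, (a m ^ 2 * g m n / 2 + a n ^ 2 * g m n / 2) =
      ∑ m ∈ S, ∑ n ∈ S, a m ^ 2 * g m n := by
    simp only [Finset.sum_add_distrib]
    have h3 : ∑ m ∈ S, ∑ n ∈ S, a n ^ 2 * g m n / 2 = ∑ m ∈ S, ∑ n ∈ S, a m ^ 2 * g m n / 2 := by
      rw [Finset.sum_comm]
      apply Finset.sum_congr rfl; intro m _
      apply Finset.sum_congr rfl; intro n _
      rw [hs]
    rw [h3, ← Finset.sum_add_distrib]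
    apply Finset.sum_congr rfl; intro m _
    rw [← Finset.sum_add_distrib]
    apply Finset.sum_congr rfl; intro n _
    ring
  have h3 : ∑ m ∈ S, ∑ n ∈ S, a m ^ 2 * g m n ≤ B * ∑ m ∈ S, a m ^ 2 := by
    rw [Finset.mul_sum]
    apply Finset.sum_le_sum; intro m hm
    rw [← Finset.mul_sum, mul_comm]
    exact mul_le_mul_of_nonneg_right (hB m hm) (sq_nonneg _)
  linarith

/-- (6.2). Insert exp(pi) exp(-pi t^2/T^2); the diagonal-dominated double sum: |log(m/n)| >= |m-n|/(2N) on (N,2N];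
sum over k of exp(-c (T k/N)^2) <= C(1+N/T). -/
theorem dir_mean (r : ℝ) (hr : r ≠ 0) : ∃ C : ℝ, 0 < C ∧ ∀ (T : ℝ) (N : ℕ), 1 ≤ T → 1 ≤ N → ∀ a : ℕ → ℂ,
    ∫ t in (-T)..T, ‖∑ n ∈ Finset.Ioc N (2 * N), a n * (n : ℂ) ^ (-(r * t * I))‖ ^ 2 ≤
      C * (T + N) * ∑ n ∈ Finset.Ioc N (2 * N), ‖a n‖ ^ 2 := by
  have hpi := Real.pi_pos
  set c₁ : ℝ := r ^ 2 / (16 * Real.pi) with hc₁
  have hr2 : 0 < r ^ 2 := by positivity
  have hc1 : 0 < c₁ := by rw [hc₁]; positivity
  set q : ℝ := Real.sqrt c₁ with hq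
  have hq0 : 0 < q := Real.sqrt_pos.mpr hc1
  have hqq : q ^ 2 = c₁ := Real.sq_sqrt hc1.le
  refine ⟨Real.exp Real.pi * (4 * (1 + 1 / q)), by positivity, ?_⟩
  intro T N hT hN a
  have hT0 : 0 < T := by linarith
  have hN0 : (0 : ℝ) < N := by exact_mod_cast hN
  set S := Finset.Ioc N (2 * N) with hS
  set F : ℝ → ℂ := fun t => ∑ n ∈ S, a n * (n : ℂ) ^ (-(r * t * I)) with hF
  set w : ℕ → ℕ → ℝ := fun m n => -(r * (Real.log m - Real.log n)) with hw
  set E : ℕ → ℕ → ℝ → ℂ := fun m n t => cexp (I * ((w m n : ℝ) : ℂ) * t) *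
    cexp (-((Real.pi / T ^ 2 : ℝ) : ℂ) * (t : ℂ) ^ 2) with hE
  have hFc : Continuous F := by
    rw [hF]
    apply continuous_finsetSum
    intro n hn
    have hn0 : (n : ℂ) ≠ 0 := by
      rw [hS, Finset.mem_Ioc] at hn
      exact_mod_cast (by omega : n ≠ 0)
    apply Continuous.mul continuous_const
    apply Continuous.const_cpow _ (Or.inl hn0)
    fun_prop
  have hexp : ∀ t : ℝ, (((‖F t‖ ^ 2 * Real.exp (-(Real.pi / T ^ 2 * t ^ 2)) : ℝ)) : ℂ) =
      ∑ m ∈ S, ∑ n ∈ S, (a m * conj (a n)) * E m n t := by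
    intro t
    have h1 : ((‖F t‖ ^ 2 : ℝ) : ℂ) = F t * conj (F t) := by
      rw [mul_conj, normSq_eq_norm_sq]
    rw [ofReal_mul, h1, hF]
    simp only []
    rw [map_sum, Finset.sum_mul_sum, Finset.sum_mul]
    apply Finset.sum_congr rfl; intro m hm
    rw [Finset.sum_mul]
    apply Finset.sum_congr rfl; intro n hn
    rw [hE]
    simp only []
    rw [hS, Finset.mem_Ioc] at hm hn
    have hm0 : (m : ℂ) ≠ 0 := by exact_mod_cast (by omega : m ≠ 0)
    have hn0 : (n : ℂ) ≠ 0 := by exact_mod_cast (by omega : n ≠ 0)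
    rw [map_mul, cpow_def_of_ne_zero hm0, cpow_def_of_ne_zero hn0, ← exp_conj]
    have h2 : conj (Complex.log (n : ℂ) * -(r * t * I)) = Complex.log (n : ℂ) * (r * t * I) := by
      rw [← natCast_log]
      simp only [map_mul, map_neg, conj_ofReal, conj_I]
      ring
    rw [h2]
    have h3 : ((Real.exp (-(Real.pi / T ^ 2 * t ^ 2)) : ℝ) : ℂ) =
        cexp (-((Real.pi / T ^ 2 : ℝ) : ℂ) * (t : ℂ) ^ 2) := by
      rw [ofReal_exp]; congr 1; push_cast; ring
    have h4 : cexp (Complex.log (m : ℂ) * -(r * t * I)) * cexp (Complex.log (n : ℂ) * (r * t * I)) =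
        cexp (I * ((w m n : ℝ) : ℂ) * t) := by
      rw [← exp_add]
      congr 1
      rw [hw, ← natCast_log, ← natCast_log]
      push_cast
      ring
    rw [h3, ← h4]
    ring
  have hEint : ∀ m n, Integrable (E m n) := by
    intro m n
    have h1 := integrable_cexp_quadratic (b := ((Real.pi / T ^ 2 : ℝ) : ℂ))
      (by rw [ofReal_re]; positivity) (I * ((w m n : ℝ) : ℂ)) 0
    refine h1.congr (Filter.Eventually.of_forall fun t => ?_)
    rw [hE]
    simp only []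
    rw [← exp_add]
    congr 1
    ring
  have hI : Integrable (fun t : ℝ => (((‖F t‖ ^ 2 * Real.exp (-(Real.pi / T ^ 2 * t ^ 2)) : ℝ)) : ℂ)) := by
    simp_rw [hexp]
    apply integrable_finsetSum; intro m _
    apply integrable_finsetSum; intro n _
    exact (hEint m n).const_mul _
  have hIr : Integrable (fun t : ℝ => ‖F t‖ ^ 2 * Real.exp (-(Real.pi / T ^ 2 * t ^ 2))) := by
    refine hI.re.congr (Filter.Eventually.of_forall fun t => ?_)
    exact ofReal_re _
  have hval : (((∫ t : ℝ, ‖F t‖ ^ 2 * Real.exp (-(Real.pi / T ^ 2 * t ^ 2))) : ℝ) : ℂ) =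
      ∑ m ∈ S, ∑ n ∈ S, (a m * conj (a n)) *
        ((T * Real.exp (-(w m n ^ 2 * T ^ 2 / (4 * Real.pi))) : ℝ) : ℂ) := by
    have h0 : ((∫ t : ℝ, ‖F t‖ ^ 2 * Real.exp (-(Real.pi / T ^ 2 * t ^ 2)) : ℝ) : ℂ) =
        ∫ t : ℝ, (((‖F t‖ ^ 2 * Real.exp (-(Real.pi / T ^ 2 * t ^ 2)) : ℝ)) : ℂ) := integral_ofReal.symm
    rw [h0]
    simp_rw [hexp]
    rw [integral_finsetSum]
    · apply Finset.sum_congr rfl; intro m _
      rw [integral_finsetSum]
      · apply Finset.sum_congr rfl; intro n _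
        rw [integral_const_mul, E03_int T (w m n) hT0]
      · intro n _
        exact (hEint m n).const_mul _
    · intro m _
      apply integrable_finsetSum; intro n _
      exact (hEint m n).const_mul _
  set X : ℝ := N / (T * q) with hX
  have hX0 : 0 < X := by positivity
  have hg : ∀ m ∈ S, ∀ n ∈ S, Real.exp (-(w m n ^ 2 * T ^ 2 / (4 * Real.pi))) ≤
      1 / (1 + (|(m : ℝ) - n| / X) ^ 2) := by
    intro m hm n hn
    have h1 := E03_log hm hn
    have h2 : (|(m : ℝ) - n| / X) ^ 2 ≤ w m n ^ 2 * T ^ 2 / (4 * Real.pi) := by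
      have h3 : (|(m : ℝ) - n| / (2 * N)) ^ 2 ≤ |Real.log m - Real.log n| ^ 2 :=
        pow_le_pow_left₀ (by positivity) h1 2
      have h4 : (|(m : ℝ) - n| / X) ^ 2 = (|(m : ℝ) - n| / (2 * N)) ^ 2 * (r ^ 2 * T ^ 2 / (4 * Real.pi)) := by
        rw [hX]
        have : (|(m : ℝ) - n| / (N / (T * q))) ^ 2 = |(m : ℝ) - n| ^ 2 * T ^ 2 * q ^ 2 / N ^ 2 := by
          field_simp
        rw [this, hqq, hc₁]
        field_simp
        ring
      have h5 : w m n ^ 2 * T ^ 2 / (4 * Real.pi) = |Real.log m - Real.log n| ^ 2 * (r ^ 2 * T ^ 2 / (4 * Real.pi)) := by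
        rw [hw, sq_abs]
        ring
      rw [h4, h5]
      exact mul_le_mul_of_nonneg_right h3 (by positivity)
    have h6 := Real.add_one_le_exp (w m n ^ 2 * T ^ 2 / (4 * Real.pi))
    rw [Real.exp_neg, ← one_div]
    apply one_div_le_one_div_of_le (by positivity)
    linarith
  have hbound : ∫ t : ℝ, ‖F t‖ ^ 2 * Real.exp (-(Real.pi / T ^ 2 * t ^ 2)) ≤
      T * (4 * (1 + X)) * ∑ n ∈ S, ‖a n‖ ^ 2 := by
    have h0 : 0 ≤ ∫ t : ℝ, ‖F t‖ ^ 2 * Real.exp (-(Real.pi / T ^ 2 * t ^ 2)) :=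
      integral_nonneg (fun t => by positivity)
    have h1 : ∫ t : ℝ, ‖F t‖ ^ 2 * Real.exp (-(Real.pi / T ^ 2 * t ^ 2)) =
        ‖(((∫ t : ℝ, ‖F t‖ ^ 2 * Real.exp (-(Real.pi / T ^ 2 * t ^ 2))) : ℝ) : ℂ)‖ := by
      rw [norm_real, Real.norm_of_nonneg h0]
    rw [h1, hval]
    calc ‖∑ m ∈ S, ∑ n ∈ S, (a m * conj (a n)) *
        ((T * Real.exp (-(w m n ^ 2 * T ^ 2 / (4 * Real.pi))) : ℝ) : ℂ)‖
        ≤ ∑ m ∈ S, ∑ n ∈ S, ‖a m‖ * ‖a n‖ * (T * (1 / (1 + (|(m : ℝ) - n| / X) ^ 2))) := by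
          refine (norm_sum_le _ _).trans (Finset.sum_le_sum fun m hm => ?_)
          refine (norm_sum_le _ _).trans (Finset.sum_le_sum fun n hn => ?_)
          rw [norm_mul, norm_mul, RCLike.norm_conj, norm_real, Real.norm_of_nonneg (by positivity)]
          apply mul_le_mul_of_nonneg_left _ (by positivity)
          exact mul_le_mul_of_nonneg_left (hg m hm n hn) hT0.le
      _ ≤ (T * (4 * (1 + X))) * ∑ n ∈ S, ‖a n‖ ^ 2 := by
          apply E03_schur S (fun m n => T * (1 / (1 + (|(m : ℝ) - n| / X) ^ 2)))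
            (fun m n => by positivity) (fun m n => by rw [abs_sub_comm]) (T * (4 * (1 + X)))
            _ (fun n => ‖a n‖)
          intro m hm
          rw [← Finset.mul_sum]
          exact mul_le_mul_of_nonneg_left (E03_row X hX0 hm) hT0.le
  have hcut : ∫ t in (-T)..T, ‖F t‖ ^ 2 ≤
      Real.exp Real.pi * ∫ t : ℝ, ‖F t‖ ^ 2 * Real.exp (-(Real.pi / T ^ 2 * t ^ 2)) := by
    rw [intervalIntegral.integral_of_le (by linarith), ← integral_const_mul]
    have hI2 := hIr.const_mul (Real.exp Real.pi)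
    calc ∫ t in Ioc (-T) T, ‖F t‖ ^ 2
        ≤ ∫ t in Ioc (-T) T, Real.exp Real.pi * (‖F t‖ ^ 2 * Real.exp (-(Real.pi / T ^ 2 * t ^ 2))) := by
          apply setIntegral_mono_on
          · exact ((hFc.norm.pow 2).integrableOn_Icc).mono_set Ioc_subset_Icc_self
          · exact hI2.integrableOn
          · exact measurableSet_Ioc
          · intro t ht
            have h1 : t ^ 2 ≤ T ^ 2 := by
              rw [sq_le_sq, abs_of_pos hT0, abs_le]
              exact ⟨ht.1.le, ht.2⟩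
            have h2 : 1 ≤ Real.exp Real.pi * Real.exp (-(Real.pi / T ^ 2 * t ^ 2)) := by
              rw [← Real.exp_add]
              apply Real.one_le_exp
              have h3 : Real.pi / T ^ 2 * t ^ 2 ≤ Real.pi := by
                rw [div_mul_eq_mul_div, div_le_iff₀ (by positivity)]
                exact mul_le_mul_of_nonneg_left h1 hpi.le
              linarith
            nlinarith [sq_nonneg ‖F t‖]
      _ ≤ ∫ t : ℝ, Real.exp Real.pi * (‖F t‖ ^ 2 * Real.exp (-(Real.pi / T ^ 2 * t ^ 2))) := by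
          apply setIntegral_le_integral hI2
          exact Filter.Eventually.of_forall fun t => by positivity
  have hs0 : 0 ≤ ∑ n ∈ S, ‖a n‖ ^ 2 := Finset.sum_nonneg fun n _ => by positivity
  have hTX : T * (4 * (1 + X)) ≤ 4 * (1 + 1 / q) * (T + N) := by
    have h1 : T * X = N * (1 / q) := by rw [hX]; field_simp
    have h2 : 0 < 1 / q := by positivity
    have h3 : T * (4 * (1 + X)) = 4 * (T + T * X) := by ring
    rw [h3, h1]
    nlinarith [mul_pos h2 hT0]
  calc ∫ t in (-T)..T, ‖F t‖ ^ 2 ≤ Real.exp Real.pi * (T * (4 * (1 + X)) * ∑ n ∈ S, ‖a n‖ ^ 2) :=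
        hcut.trans (mul_le_mul_of_nonneg_left hbound (Real.exp_pos _).le)
    _ ≤ Real.exp Real.pi * (4 * (1 + 1 / q) * (T + N) * ∑ n ∈ S, ‖a n‖ ^ 2) := by
        gcongr
    _ = Real.exp Real.pi * (4 * (1 + 1 / q)) * (T + N) * ∑ n ∈ S, ‖a n‖ ^ 2 := by ring

end LZ
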