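import Pool.Agent.Lib.MP_0f5a55_nt.D0
import Pool.Agent.Lib.MP_0f5a55_nt.E04

open Complex MeasureTheory Set Filter Topology
open scoped ComplexConjugate

namespace LZ

private theorem E05_norm_sum_mul_sq (Y : Finset ℝ) (b d : ℝ → ℂ) :
    ‖∑ y ∈ Y, b y * d y‖ ^ 2 ≤ (∑ y ∈ Y, ‖b y‖ ^ 2) * ∑ y ∈ Y, ‖d y‖ ^ 2 := by
  have h1 : ‖∑ y ∈ Y, b y * d y‖ ≤ ∑ y ∈ Y, ‖b y‖ * ‖d y‖ := by
    refine (norm_sum_le _ _).trans (Finset.sum_le_sum fun y _ => ?_)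
    rw [norm_mul]
  calc ‖∑ y ∈ Y, b y * d y‖ ^ 2 ≤ (∑ y ∈ Y, ‖b y‖ * ‖d y‖) ^ 2 :=
        pow_le_pow_left₀ (norm_nonneg _) h1 2
    _ ≤ _ := Finset.sum_mul_sq_le_sq_mul_sq _ _ _

/-- duality (Cauchy-Schwarz). -/
theorem dual_sieve (r d : ℝ) (hr : r ≠ 0) (hd : 0 < d) : ∃ C T0 : ℝ, 0 < C ∧ 2 ≤ T0 ∧ ∀ T : ℝ, T0 ≤ T →
    ∀ Y : Finset ℝ, (∀ y ∈ Y, |y| ≤ T) → Sep (d / Real.log T) Y → ∀ (N : ℕ), 1 ≤ N → (N : ℝ) ≤ T ^ 2 →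
    ∀ b : ℝ → ℂ, ∑ n ∈ Finset.Ioc N (2 * N), ‖∑ y ∈ Y, b y * (n : ℂ) ^ (-(r * y * I))‖ ^ 2 ≤
      C * Real.log T * (T + N) * ∑ y ∈ Y, ‖b y‖ ^ 2 := by
  obtain ⟨C, T0, hC, hT0, H⟩ := primal_sieve r d hr hd
  refine ⟨C, T0, hC, hT0, fun T hT Y hY hS N hN hNT b => ?_⟩
  have hT1 : 1 < T := by linarith
  have hlog : 0 < Real.log T := Real.log_pos hT1
  set Δ : ℝ := C * Real.log T * (T + N) with hΔ
  have hΔ0 : 0 < Δ := by positivity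
  set S : ℝ := ∑ n ∈ Finset.Ioc N (2 * N), ‖∑ y ∈ Y, b y * (n : ℂ) ^ (-(r * y * I))‖ ^ 2 with hSdef
  set c : ℕ → ℂ := fun n => conj (∑ y ∈ Y, b y * (n : ℂ) ^ (-(r * y * I))) with hc
  have hS0 : 0 ≤ S := Finset.sum_nonneg fun n _ => by positivity
  have hcn : ∑ n ∈ Finset.Ioc N (2 * N), ‖c n‖ ^ 2 = S := by
    rw [hSdef]
    refine Finset.sum_congr rfl fun n _ => ?_
    rw [hc]
    simp only [RCLike.norm_conj]
  have hSe : (S : ℂ) = ∑ y ∈ Y, b y * ∑ n ∈ Finset.Ioc N (2 * N), c n * (n : ℂ) ^ (-(r * y * I)) := by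
    have h1 : (S : ℂ) = ∑ n ∈ Finset.Ioc N (2 * N), c n * ∑ y ∈ Y, b y * (n : ℂ) ^ (-(r * y * I)) := by
      rw [hSdef]
      push_cast
      refine Finset.sum_congr rfl fun n _ => ?_
      rw [hc]
      simp only
      rw [← Complex.normSq_eq_conj_mul_self, Complex.normSq_eq_norm_sq]
      push_cast
      rfl
    rw [h1]
    simp only [Finset.mul_sum]
    rw [Finset.sum_comm]
    refine Finset.sum_congr rfl fun y _ => Finset.sum_congr rfl fun n _ => ?_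
    ring
  have hprimal := H T hT Y hY hS N hN hNT c
  rw [hcn] at hprimal
  have hCS := E05_norm_sum_mul_sq Y b
    (fun y => ∑ n ∈ Finset.Ioc N (2 * N), c n * (n : ℂ) ^ (-(r * y * I)))
  rw [← hSe] at hCS
  have hn : ‖(S : ℂ)‖ ^ 2 = S ^ 2 := by
    rw [Complex.norm_real, Real.norm_eq_abs, sq_abs]
  rw [hn] at hCS
  have hB0 : 0 ≤ ∑ y ∈ Y, ‖b y‖ ^ 2 := Finset.sum_nonneg fun y _ => by positivity
  have h2 : S ^ 2 ≤ (∑ y ∈ Y, ‖b y‖ ^ 2) * (Δ * S) :=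
    hCS.trans (mul_le_mul_of_nonneg_left hprimal hB0)
  rcases eq_or_lt_of_le hS0 with h | h
  · rw [← h]; positivity
  · by_contra hcon
    push Not at hcon
    have : (∑ y ∈ Y, ‖b y‖ ^ 2) * (Δ * S) < S ^ 2 := by
      calc (∑ y ∈ Y, ‖b y‖ ^ 2) * (Δ * S) = (Δ * ∑ y ∈ Y, ‖b y‖ ^ 2) * S := by ring
        _ < S * S := mul_lt_mul_of_pos_right hcon h
        _ = S ^ 2 := by ring
    linarith

end LZ
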