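import Pool.Agent.Lib.MP_0f5a55_nt.D0

open Complex MeasureTheory Set Filter Topology
open scoped ComplexConjugate

namespace LZ

theorem E06_floor {a b w : ℝ} (hw : 0 < w) (hab : w ≤ |a - b|) : ⌊a / w⌋ ≠ ⌊b / w⌋ := by
  intro h
  have h1 := Int.abs_sub_lt_one_of_floor_eq_floor h
  rw [← sub_div, abs_div, abs_of_pos hw, div_lt_one hw] at h1
  linarith

theorem E06_card {w T : ℝ} (hw : 0 < w) (hT : 0 ≤ T) {Y : Finset ℝ} (hY : ∀ y ∈ Y, |y| ≤ T)
    (hS : Sep w Y) : (Y.card : ℝ) ≤ 2 * T / w + 2 := by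
  classical
  have hinj : Set.InjOn (fun y : ℝ => ⌊y / w⌋) (Y : Set ℝ) := by
    intro a ha b hb hab
    by_contra hne
    exact E06_floor hw (hS a ha b hb hne) hab
  have h1 : Y.card ≤ (Finset.Icc ⌊-T / w⌋ ⌊T / w⌋).card := by
    rw [← Finset.card_image_of_injOn hinj]
    apply Finset.card_le_card
    intro k hk
    rw [Finset.mem_image] at hk
    obtain ⟨y, hy, rfl⟩ := hk
    have h2 := abs_le.mp (hY y hy)
    rw [Finset.mem_Icc]
    exact ⟨Int.floor_le_floor (div_le_div_of_nonneg_right h2.1 hw.le),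
      Int.floor_le_floor (div_le_div_of_nonneg_right h2.2 hw.le)⟩
  have h3 : ((Finset.Icc ⌊-T / w⌋ ⌊T / w⌋).card : ℝ) ≤ 2 * T / w + 2 := by
    rw [Int.card_Icc]
    have h4 : ⌊-T / w⌋ ≤ ⌊T / w⌋ :=
      Int.floor_le_floor (div_le_div_of_nonneg_right (by linarith) hw.le)
    have h5 : (((⌊T / w⌋ + 1 - ⌊-T / w⌋).toNat : ℤ) : ℝ) = ⌊T / w⌋ + 1 - ⌊-T / w⌋ := by
      rw [Int.toNat_of_nonneg (by linarith)]
      push_cast
      ring
    have h6 : (((⌊T / w⌋ + 1 - ⌊-T / w⌋).toNat : ℕ) : ℝ) = ⌊T / w⌋ + 1 - ⌊-T / w⌋ := by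
      exact_mod_cast h5
    rw [h6]
    have h7 := Int.floor_le (T / w)
    have h8 := Int.lt_floor_add_one (-T / w)
    have h9 : 2 * T / w = T / w - (-T / w) := by ring
    rw [h9]
    linarith
  exact le_trans (by exact_mod_cast h1) h3

/-- the weight of the cell number `j` -/
noncomputable def E06_g (w : ℝ) (j : ℕ) : ℝ := 1 / (1 + w * ((j - 1 : ℕ) : ℝ))

theorem E06_g_nonneg {w : ℝ} (hw : 0 < w) (j : ℕ) : 0 ≤ E06_g w j := by
  unfold E06_g
  positivity

theorem E06_value {v w : ℝ} (hw : 0 < w) : 1 / (1 + |v|) ≤ E06_g w (⌊v / w⌋.natAbs) := by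
  unfold E06_g
  refine one_div_le_one_div_of_le (by positivity) ?_
  have h1 : w * ((⌊v / w⌋.natAbs - 1 : ℕ) : ℝ) ≤ |v| := by
    rcases Nat.eq_zero_or_pos ⌊v / w⌋.natAbs with h0 | h0
    · rw [h0]
      simp
    · have h2 : ((⌊v / w⌋.natAbs - 1 : ℕ) : ℝ) = ((⌊v / w⌋.natAbs : ℕ) : ℝ) - 1 := by
        rw [Nat.cast_sub h0, Nat.cast_one]
      have h3 : ((⌊v / w⌋.natAbs : ℕ) : ℝ) = |((⌊v / w⌋ : ℤ) : ℝ)| := by
        rw [← Int.cast_abs, ← Int.cast_natCast, Int.natCast_natAbs]
      rw [h2, h3]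
      have h4 := Int.floor_le (v / w)
      have h5 := Int.lt_floor_add_one (v / w)
      rw [le_div_iff₀ hw] at h4
      rw [div_lt_iff₀ hw] at h5
      rcases le_total 0 ((⌊v / w⌋ : ℤ) : ℝ) with h6 | h6
      · rw [abs_of_nonneg h6]
        have h7 := le_abs_self v
        nlinarith
      · rw [abs_of_nonpos h6]
        have h7 := neg_abs_le v
        nlinarith
  linarith

/-- the sum over the cells -/
theorem E06_cells {w : ℝ} (hw : 0 < w) (N : ℕ) (K : Finset ℤ) (hK : ∀ k ∈ K, k.natAbs ≤ N) :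
    ∑ k ∈ K, E06_g w k.natAbs ≤ 4 + 2 / w * (1 + Real.log N) := by
  classical
  have h1 : ∑ k ∈ K, E06_g w k.natAbs = ∑ j ∈ Finset.range (N + 1),
      ∑ k ∈ K.filter (fun k => k.natAbs = j), E06_g w k.natAbs := by
    symm
    exact Finset.sum_fiberwise_of_maps_to
      (fun k hk => Finset.mem_range.mpr (Nat.lt_succ_of_le (hK k hk))) _
  have h2 : ∀ j : ℕ, ∑ k ∈ K.filter (fun k => k.natAbs = j), E06_g w k.natAbs ≤
      2 * E06_g w j := by
    intro j
    have h3 : ∑ k ∈ K.filter (fun k => k.natAbs = j), E06_g w k.natAbs =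
        ((K.filter (fun k => k.natAbs = j)).card : ℝ) * E06_g w j := by
      rw [← nsmul_eq_mul, ← Finset.sum_const]
      refine Finset.sum_congr rfl fun k hk => ?_
      rw [(Finset.mem_filter.mp hk).2]
    rw [h3]
    refine mul_le_mul_of_nonneg_right ?_ (E06_g_nonneg hw j)
    have h4 : K.filter (fun k => k.natAbs = j) ⊆ {(j : ℤ), -(j : ℤ)} := by
      intro k hk
      have h5 := (Finset.mem_filter.mp hk).2
      rw [Finset.mem_insert, Finset.mem_singleton]
      omega
    have h6 := (Finset.card_le_card h4).trans Finset.card_le_two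
    exact_mod_cast h6
  have h7 : ∑ j ∈ Finset.range (N + 1), E06_g w j ≤ 2 + 1 / w * (1 + Real.log N) := by
    calc ∑ j ∈ Finset.range (N + 1), E06_g w j ≤ ∑ j ∈ Finset.range (N + 2), E06_g w j :=
          Finset.sum_le_sum_of_subset_of_nonneg (Finset.range_subset_range.mpr (by omega))
            fun j _ _ => E06_g_nonneg hw j
      _ = (∑ j ∈ Finset.range N, E06_g w (j + 2)) + E06_g w 1 + E06_g w 0 := by
          rw [Finset.sum_range_succ', Finset.sum_range_succ']
      _ ≤ (∑ j ∈ Finset.range N, 1 / w * ((j : ℝ) + 1)⁻¹) + 1 + 1 := by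
          refine add_le_add (add_le_add (Finset.sum_le_sum fun j _ => ?_) ?_) ?_
          · unfold E06_g
            have h8 : (((j + 2 - 1 : ℕ)) : ℝ) = (j : ℝ) + 1 := by
              have : j + 2 - 1 = j + 1 := by omega
              rw [this]
              push_cast
              ring
            rw [h8, ← one_div, one_div_mul_one_div]
            refine one_div_le_one_div_of_le (by positivity) ?_
            linarith
          · unfold E06_g
            simp
          · unfold E06_g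
            simp
      _ = 1 / w * (∑ j ∈ Finset.range N, ((j : ℝ) + 1)⁻¹) + 2 := by
          rw [Finset.mul_sum]
          ring
      _ ≤ 1 / w * (1 + Real.log N) + 2 := by
          refine add_le_add (mul_le_mul_of_nonneg_left ?_ (by positivity)) le_rfl
          have h9 := harmonic_le_one_add_log N
          unfold harmonic at h9
          push_cast at h9
          exact h9
      _ = 2 + 1 / w * (1 + Real.log N) := by ring
  rw [h1]
  calc ∑ j ∈ Finset.range (N + 1), ∑ k ∈ K.filter (fun k => k.natAbs = j), E06_g w k.natAbs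
      ≤ ∑ j ∈ Finset.range (N + 1), 2 * E06_g w j := Finset.sum_le_sum fun j _ => h2 j
    _ = 2 * ∑ j ∈ Finset.range (N + 1), E06_g w j := by rw [Finset.mul_sum]
    _ ≤ 2 * (2 + 1 / w * (1 + Real.log N)) := by linarith
    _ = 4 + 2 / w * (1 + Real.log N) := by ring

/-- the sum over a separated set -/
theorem E06_sum {w : ℝ} (hw : 0 < w) (Y : Finset ℝ) (r c : ℝ)
    (hS : ∀ a ∈ Y, ∀ b ∈ Y, a ≠ b → w ≤ |(r * a + c) - (r * b + c)|) :
    ∑ y ∈ Y, 1 / (1 + |r * y + c|) ≤ 4 + 2 / w * (1 + Real.log (Y.card + 1)) + 1 / w := by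
  classical
  have hinj : Set.InjOn (fun y : ℝ => ⌊(r * y + c) / w⌋) (Y : Set ℝ) := by
    intro a ha b hb hab
    by_contra hne
    exact E06_floor hw (hS a ha b hb hne) hab
  obtain ⟨K, hK⟩ : ∃ K, K = Y.image (fun y : ℝ => ⌊(r * y + c) / w⌋) := ⟨_, rfl⟩
  have hKc : K.card = Y.card := by
    rw [hK]
    exact Finset.card_image_of_injOn hinj
  obtain ⟨N, hN⟩ : ∃ N, N = Y.card + 1 := ⟨_, rfl⟩
  have hN0 : (0 : ℝ) < N := by
    rw [hN]
    positivity
  have h1 : ∑ y ∈ Y, 1 / (1 + |r * y + c|) ≤ ∑ k ∈ K, E06_g w k.natAbs := by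
    rw [hK, Finset.sum_image hinj]
    exact Finset.sum_le_sum fun y _ => E06_value hw
  rw [← Finset.sum_filter_add_sum_filter_not K (fun k => k.natAbs ≤ N)] at h1
  have h2 := E06_cells hw N (K.filter (fun k => k.natAbs ≤ N))
    (fun k hk => (Finset.mem_filter.mp hk).2)
  have h3 : ∑ k ∈ K.filter (fun k => ¬ k.natAbs ≤ N), E06_g w k.natAbs ≤ 1 / w := by
    calc ∑ k ∈ K.filter (fun k => ¬ k.natAbs ≤ N), E06_g w k.natAbs
        ≤ ∑ _k ∈ K.filter (fun k => ¬ k.natAbs ≤ N), 1 / (w * N) := by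
          refine Finset.sum_le_sum fun k hk => ?_
          have h4 := (Finset.mem_filter.mp hk).2
          unfold E06_g
          refine one_div_le_one_div_of_le (by positivity) ?_
          have h5 : N ≤ k.natAbs - 1 := by omega
          have h6 : (N : ℝ) ≤ ((k.natAbs - 1 : ℕ) : ℝ) := by exact_mod_cast h5
          nlinarith
      _ = ((K.filter (fun k => ¬ k.natAbs ≤ N)).card : ℝ) * (1 / (w * N)) := by
          rw [Finset.sum_const, nsmul_eq_mul]
      _ ≤ N * (1 / (w * N)) := by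
          refine mul_le_mul_of_nonneg_right ?_ (by positivity)
          have h7 : (K.filter (fun k => ¬ k.natAbs ≤ N)).card ≤ N := by
            refine (Finset.card_le_card (Finset.filter_subset _ _)).trans ?_
            rw [hKc, hN]
            omega
          exact_mod_cast h7
      _ = 1 / w := by field_simp
  have h8 : Real.log N = Real.log (Y.card + 1) := by
    rw [hN]
    push_cast
    rfl
  rw [h8] at h2
  linarith

/-- a d/log T separated subset of [-T,T]: size, and the sum of 1/(1+|ry+c|). -/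
theorem sep_count (r d : ℝ) (hr : r ≠ 0) (hd : 0 < d) : ∃ C T0 : ℝ, 0 < C ∧ 2 ≤ T0 ∧ ∀ T : ℝ, T0 ≤ T →
    ∀ Y : Finset ℝ, (∀ y ∈ Y, |y| ≤ T) → Sep (d / Real.log T) Y → (Y.card : ℝ) ≤ C * T * Real.log T ∧
    ∀ c : ℝ, ∑ y ∈ Y, 1 / (1 + |r * y + c|) ≤ C * Real.log T ^ 2 := by
  obtain ⟨C1, hC1⟩ : ∃ C1, C1 = 2 / d + 2 := ⟨_, rfl⟩
  have hC10 : 0 < C1 := by rw [hC1]; positivity
  have hr' : 0 < |r| := abs_pos.mpr hr
  obtain ⟨C2, hC2⟩ : ∃ C2, C2 = 4 + 9 / (|r| * d) := ⟨_, rfl⟩
  have hC20 : 0 < C2 := by rw [hC2]; positivity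
  have hev : ∀ᶠ T : ℝ in atTop, 2 ≤ T ∧ C1 + 1 ≤ T ∧ 1 ≤ Real.log T := by
    exact (eventually_ge_atTop _).and ((eventually_ge_atTop _).and
      (Real.tendsto_log_atTop.eventually_ge_atTop _))
  obtain ⟨T0, hT0⟩ := Filter.eventually_atTop.mp hev
  refine ⟨C1 + C2, max T0 2, by positivity, le_max_right _ _, ?_⟩
  intro T hT Y hY hS
  obtain ⟨hT2, hTC, hL1⟩ := hT0 T ((le_max_left _ _).trans hT)
  have hT00 : 0 < T := by linarith
  have hL : 0 < Real.log T := by linarith
  have hδ : 0 < d / Real.log T := by positivity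
  have hcard : (Y.card : ℝ) ≤ C1 * T * Real.log T := by
    have h1 := E06_card hδ hT00.le hY hS
    have h2 : 2 * T / (d / Real.log T) = 2 / d * T * Real.log T := by
      field_simp
    rw [h2] at h1
    have h3 : 1 ≤ T * Real.log T := by nlinarith
    calc (Y.card : ℝ) ≤ 2 / d * T * Real.log T + 2 := h1
      _ ≤ 2 / d * T * Real.log T + 2 * (T * Real.log T) := by linarith
      _ = C1 * T * Real.log T := by rw [hC1]; ring
  refine ⟨hcard.trans ?_, ?_⟩
  · have h1 : 0 ≤ T * Real.log T := by positivity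
    nlinarith
  intro c
  obtain ⟨w, hw⟩ : ∃ w, w = |r| * (d / Real.log T) := ⟨_, rfl⟩
  have hw0 : 0 < w := by rw [hw]; positivity
  have hsum := E06_sum hw0 Y r c (by
    intro a ha b hb hab
    have h1 : (r * a + c) - (r * b + c) = r * (a - b) := by ring
    rw [h1, abs_mul, hw]
    exact mul_le_mul_of_nonneg_left (hS a ha b hb hab) hr'.le)
  have hlog : Real.log (Y.card + 1) ≤ 3 * Real.log T := by
    have h1 : ((Y.card : ℝ) + 1) ≤ T ^ 3 := by
      have h2 : Real.log T ≤ T := (Real.log_le_sub_one_of_pos hT00).trans (by linarith)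
      have h3 : C1 * T * Real.log T ≤ C1 * T * T := mul_le_mul_of_nonneg_left h2 (by positivity)
      have h4 : 1 ≤ T ^ 2 := by nlinarith
      calc (Y.card : ℝ) + 1 ≤ C1 * T * T + T ^ 2 := by linarith
        _ = (C1 + 1) * T ^ 2 := by ring
        _ ≤ T * T ^ 2 := mul_le_mul_of_nonneg_right hTC (by positivity)
        _ = T ^ 3 := by ring
    calc Real.log (Y.card + 1) ≤ Real.log (T ^ 3) := Real.log_le_log (by positivity) h1
      _ = 3 * Real.log T := by
          rw [Real.log_pow]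
          norm_num
  have h1w : 1 / w = Real.log T / (|r| * d) := by
    rw [hw]
    field_simp
  have h2w : 2 / w = 2 * (1 / w) := by ring
  rw [h2w, h1w] at hsum
  have hR : 0 ≤ Real.log T / (|r| * d) := by positivity
  have h5 : 2 * (Real.log T / (|r| * d)) * (1 + Real.log (Y.card + 1)) + Real.log T / (|r| * d) ≤
      9 / (|r| * d) * Real.log T ^ 2 := by
    calc 2 * (Real.log T / (|r| * d)) * (1 + Real.log (Y.card + 1)) + Real.log T / (|r| * d)
        = Real.log T / (|r| * d) * (3 + 2 * Real.log (Y.card + 1)) := by ring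
      _ ≤ Real.log T / (|r| * d) * (9 * Real.log T) :=
          mul_le_mul_of_nonneg_left (by linarith) hR
      _ = 9 / (|r| * d) * Real.log T ^ 2 := by ring
  have h6 : 4 ≤ 4 * Real.log T ^ 2 := by nlinarith
  have h7 : C2 * Real.log T ^ 2 = 4 * Real.log T ^ 2 + 9 / (|r| * d) * Real.log T ^ 2 := by
    rw [hC2]
    ring
  have h8 : 0 ≤ C1 * Real.log T ^ 2 := by positivity
  have h9 : (C1 + C2) * Real.log T ^ 2 = C1 * Real.log T ^ 2 + C2 * Real.log T ^ 2 := by ring
  rw [h9, h7]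
  linarith

end LZ
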