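import Pool.Agent.Lib.MP_0f5a55_nt.D0

open Complex MeasureTheory Set Filter Topology
open scoped ComplexConjugate

namespace LZ

private theorem M08_mol (lam l : ℝ) (s : ℂ) : Mol lam l (conj s) = conj (Mol lam l s) := by
  unfold Mol
  rw [map_sum]
  refine Finset.sum_congr rfl fun S _ => ?_
  rw [map_mul, conj_ofReal]
  congr 1
  have h := cpow_conj ((nS S : ℕ) : ℂ) (-s) (by
    rw [natCast_arg]
    exact Real.pi_pos.ne)
  rw [map_neg, conj_natCast] at h
  exact h

private theorem M08_one (l : ℝ) (s : ℂ) : Mol 0 l s = 1 := by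
  unfold Mol
  rw [Finset.sum_eq_single ∅]
  · simp [cf, nS, wt]
  · intro S _ hS
    have h : S.card ≠ 0 := fun h => hS (Finset.card_eq_zero.1 h)
    simp [cf, h]
  · intro h
    exact absurd (Finset.empty_mem_powerset _) h

/-- reflection identities. -/
theorem conj_facts : (∀ s : ℂ, riemannZeta (conj s) = conj (riemannZeta s)) ∧
    (∀ lam l : ℝ, ∀ s : ℂ, Mol lam l (conj s) = conj (Mol lam l s)) ∧
    (∀ l : ℝ, 0 < l → ∀ s : ℂ, Mol 0 l s = 1) ∧
    (∀ (l : ℝ), 0 < l → ∀ σ u1 u2 t : ℝ,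
      XX ![1, 0, 1, 0] l (σ + u1 * I) (σ - u2 * I) ![σ + u1 * I, 0, σ - u2 * I, 0] t =
        FF l (1/2 + σ + (t + u1) * I) * conj (FF l (1/2 + σ + (t + u2) * I))) := by
  refine ⟨fun s => riemannZeta_conj s, M08_mol, fun l _ s => M08_one l s, ?_⟩
  intro l _ σ u1 u2 t
  have e1 : (1/2 + (σ + u1 * I) + t * I : ℂ) = 1/2 + σ + (t + u1) * I := by ring
  have e2 : (1/2 + (σ - u2 * I) - t * I : ℂ) = conj (1/2 + σ + (t + u2) * I) := by
    have h2 : conj (2 : ℂ) = 2 := Complex.conj_ofNat 2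
    simp only [map_add, map_mul, map_div₀, map_one, h2, conj_ofReal, conj_I]
    ring
  unfold XX FF
  simp only [Matrix.cons_val]
  rw [e1, e2, M08_one, M08_one, riemannZeta_conj, M08_mol, map_mul]
  ring

end LZ
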