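import Pool.Agent.Lib.MP_0f5a55_nt.D0

open Complex MeasureTheory Set Filter Topology
open scoped ComplexConjugate

namespace LZ

theorem M01_nS_ne {z : ℕ} {S : Finset ℕ} (hS : S ∈ (PP z).powerset) : (nS S : ℂ) ≠ 0 := by
  rw [Finset.mem_powerset] at hS
  have : nS S ≠ 0 := Finset.prod_ne_zero_iff.2 fun p hp => by
    have := hS hp
    rw [PP, Finset.mem_filter] at this
    exact this.2.ne_zero
  exact_mod_cast this

/-- expand the four mollifiers. -/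
theorem XX_expand (lam : Fin 4 → ℝ) (l : ℝ) (α β : ℂ) (τ : Fin 4 → ℂ) (t : ℝ) :
    XX lam l α β τ t = ∑ S ∈ Fintype.piFinset (fun _ : Fin 4 => (PP ⌊Real.exp l⌋₊).powerset),
      (∏ j, (cf (lam j) l (S j) : ℂ) * (nS (S j) : ℂ) ^ (-(1/2) - τ j)) *
        (riemannZeta (1/2 + α + t * I) * riemannZeta (1/2 + β - t * I) *
          (((nS (S 0) * nS (S 1) : ℕ) : ℂ) ^ (-(t * I)) * ((nS (S 2) * nS (S 3) : ℕ) : ℂ) ^ (t * I))) := by
  set σ : Fin 4 → ℂ := ![t * I, t * I, -(t * I), -(t * I)] with hσ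
  have h1 : XX lam l α β τ t = riemannZeta (1/2 + α + t * I) * riemannZeta (1/2 + β - t * I) *
      ∏ j : Fin 4, ∑ S ∈ (PP ⌊Real.exp l⌋₊).powerset,
        (cf (lam j) l S : ℂ) * (nS S : ℂ) ^ (-(1/2 + τ j + σ j)) := by
    rw [Fin.prod_univ_four]
    unfold XX Mol
    rw [hσ]
    simp only [Matrix.cons_val, sub_eq_add_neg]
  rw [h1, Finset.prod_univ_sum, Finset.mul_sum]
  refine Finset.sum_congr rfl fun S hS => ?_
  rw [Fintype.mem_piFinset] at hS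
  have h2 : ∀ j : Fin 4, (cf (lam j) l (S j) : ℂ) * (nS (S j) : ℂ) ^ (-(1/2 + τ j + σ j)) =
      ((cf (lam j) l (S j) : ℂ) * (nS (S j) : ℂ) ^ (-(1/2) - τ j)) * (nS (S j) : ℂ) ^ (-(σ j)) := by
    intro j
    have : -(1/2 + τ j + σ j) = (-(1/2) - τ j) + -(σ j) := by ring
    rw [this, cpow_add _ _ (M01_nS_ne (hS j))]
    ring
  rw [Finset.prod_congr rfl (fun j _ => h2 j), Finset.prod_mul_distrib]
  have h3 : ∏ j : Fin 4, (nS (S j) : ℂ) ^ (-(σ j)) =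
      ((nS (S 0) * nS (S 1) : ℕ) : ℂ) ^ (-(t * I)) * ((nS (S 2) * nS (S 3) : ℕ) : ℂ) ^ (t * I) := by
    rw [Fin.prod_univ_four]
    push_cast
    rw [natCast_mul_natCast_cpow, natCast_mul_natCast_cpow, hσ]
    simp only [Matrix.cons_val, neg_neg]
    ring
  rw [h3]
  ring

end LZ
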