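import Pool.Agent.Lib.MP_0f5a55_nt.D0

open Complex MeasureTheory Set Filter Topology
open scoped ComplexConjugate

namespace LZ

theorem M02_cpow {x : ℝ} (hx : 0 < x) (a : ℂ) : (x : ℂ) ^ a = exp ((Real.log x : ℂ) * a) := by
  rw [cpow_def_of_ne_zero (by exact_mod_cast hx.ne'), ofReal_log hx.le]

theorem M02_nat {n : ℕ} (hn : 0 < n) (a : ℂ) : (n : ℂ) ^ a = exp ((Real.log n : ℂ) * a) := by
  have h := M02_cpow (x := (n : ℝ)) (by exact_mod_cast hn) a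
  simpa using h

theorem M02_pos {z : ℕ} {S : Finset ℕ} (h : S ∈ (PP z).powerset) : 0 < nS S := by
  unfold nS
  refine Finset.prod_pos fun p hp => ?_
  have := Finset.mem_powerset.mp h hp
  exact (Finset.mem_filter.mp this).2.pos

/-- the term of one quadruple -/
theorem M02_term (T : ℝ) (c : Fin 4 → ℂ) (n : Fin 4 → ℕ) (hn : ∀ j, 0 < n j) (α β : ℂ)
    (τ : Fin 4 → ℂ) :
    (∏ j, c j * (n j : ℂ) ^ (-(1/2) - τ j)) * mainT T α β (n 0 * n 1) (n 2 * n 3) =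
      riemannZeta (1 + (α + β)) * ((∏ j, c j * (n j : ℂ) ^
          (-1 - (![τ 0 + β, τ 1 + β, τ 2 + α, τ 3 + α] : Fin 4 → ℂ) j)) *
        ((Nat.gcd (n 0 * n 1) (n 2 * n 3) : ℕ) : ℂ) ^ (1 + (α + β))) +
      ((2 * Real.pi / T : ℝ) : ℂ) ^ (α + β) * Ac (α + β) * ((∏ j, c j * (n j : ℂ) ^
          (-1 - (![τ 0 - α, τ 1 - α, τ 2 - β, τ 3 - β] : Fin 4 → ℂ) j)) *
        ((Nat.gcd (n 0 * n 1) (n 2 * n 3) : ℕ) : ℂ) ^ (1 + (-(α + β)))) := by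
  set g := Nat.gcd (n 0 * n 1) (n 2 * n 3) with hg
  have hh : 0 < n 0 * n 1 := Nat.mul_pos (hn 0) (hn 1)
  have hk : 0 < n 2 * n 3 := Nat.mul_pos (hn 2) (hn 3)
  have hg0 : 0 < g := Nat.gcd_pos_of_pos_left _ hh
  have hgh : g ∣ n 0 * n 1 := Nat.gcd_dvd_left _ _
  have hgk : g ∣ n 2 * n 3 := Nat.gcd_dvd_right _ _
  have hhg : 0 < n 0 * n 1 / g := Nat.div_pos (Nat.le_of_dvd hh hgh) hg0
  have hkg : 0 < n 2 * n 3 / g := Nat.div_pos (Nat.le_of_dvd hk hgk) hg0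
  have hgR : (g : ℝ) ≠ 0 := by exact_mod_cast hg0.ne'
  have hnR : ∀ j, (n j : ℝ) ≠ 0 := fun j => by exact_mod_cast (hn j).ne'
  have l1 : Real.log ((n 0 * n 1 / g : ℕ) : ℝ) = Real.log (n 0) + Real.log (n 1) - Real.log g := by
    rw [Nat.cast_div hgh hgR, Real.log_div (by exact_mod_cast hh.ne') hgR, Nat.cast_mul,
      Real.log_mul (hnR 0) (hnR 1)]
  have l2 : Real.log ((n 2 * n 3 / g : ℕ) : ℝ) = Real.log (n 2) + Real.log (n 3) - Real.log g := by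
    rw [Nat.cast_div hgk hgR, Real.log_div (by exact_mod_cast hk.ne') hgR, Nat.cast_mul,
      Real.log_mul (hnR 2) (hnR 3)]
  rw [mainT, ← hg]
  simp only [Fin.prod_univ_four, M02_nat (hn 0), M02_nat (hn 1), M02_nat (hn 2), M02_nat (hn 3),
    M02_nat hg0, M02_nat hhg, M02_nat hkg, l1, l2]
  simp only [Matrix.cons_val_zero, Matrix.cons_val_one, Matrix.cons_val, ofReal_add, ofReal_sub]
  set L0 : ℂ := (Real.log (n 0) : ℂ)
  set L1 : ℂ := (Real.log (n 1) : ℂ)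
  set L2 : ℂ := (Real.log (n 2) : ℂ)
  set L3 : ℂ := (Real.log (n 3) : ℂ)
  set G : ℂ := (Real.log g : ℂ)
  have i1 : exp (L0 * (-(1/2) - τ 0)) * exp (L1 * (-(1/2) - τ 1)) * exp (L2 * (-(1/2) - τ 2)) *
      exp (L3 * (-(1/2) - τ 3)) * (exp ((L0 + L1 - G) * (-1/2 - β)) *
        exp ((L2 + L3 - G) * (-1/2 - α))) =
      exp (L0 * (-1 - (τ 0 + β))) * exp (L1 * (-1 - (τ 1 + β))) * exp (L2 * (-1 - (τ 2 + α))) *
        exp (L3 * (-1 - (τ 3 + α))) * exp (G * (1 + (α + β))) := by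
    simp only [← exp_add]
    congr 1
    ring
  have i2 : exp (L0 * (-(1/2) - τ 0)) * exp (L1 * (-(1/2) - τ 1)) * exp (L2 * (-(1/2) - τ 2)) *
      exp (L3 * (-(1/2) - τ 3)) * (exp ((L0 + L1 - G) * (-1/2 + α)) *
        exp ((L2 + L3 - G) * (-1/2 + β))) =
      exp (L0 * (-1 - (τ 0 - α))) * exp (L1 * (-1 - (τ 1 - α))) * exp (L2 * (-1 - (τ 2 - β))) *
        exp (L3 * (-1 - (τ 3 - β))) * exp (G * (1 + -(α + β))) := by
    simp only [← exp_add]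
    congr 1
    ring
  linear_combination (riemannZeta (1 + (α + β)) * (c 0 * c 1 * c 2 * c 3)) * i1 +
    (((2 * Real.pi / T : ℝ) : ℂ) ^ (α + β) * Ac (α + β) * (c 0 * c 1 * c 2 * c 3)) * i2

/-- algebra of the main terms: h = n0 n1, k = n2 n3, g = gcd; (h/g)^(-1/2-beta) = h^(-1/2-beta) g^(1/2+beta) etc. -/
theorem main_alg (T : ℝ) (hT : 0 < T) (lam : Fin 4 → ℝ) (l : ℝ) (α β : ℂ) (τ : Fin 4 → ℂ) (z : ℕ) :
    ∑ S ∈ Fintype.piFinset (fun _ : Fin 4 => (PP z).powerset),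
      (∏ j, (cf (lam j) l (S j) : ℂ) * (nS (S j) : ℂ) ^ (-(1/2) - τ j)) *
        mainT T α β (nS (S 0) * nS (S 1)) (nS (S 2) * nS (S 3)) =
    riemannZeta (1 + (α + β)) * QQ z lam l ![τ 0 + β, τ 1 + β, τ 2 + α, τ 3 + α] (α + β) +
      ((2 * Real.pi / T : ℝ) : ℂ) ^ (α + β) * Ac (α + β) *
        QQ z lam l ![τ 0 - α, τ 1 - α, τ 2 - β, τ 3 - β] (-(α + β)) := by
  unfold QQ
  rw [Finset.mul_sum, Finset.mul_sum, ← Finset.sum_add_distrib]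
  refine Finset.sum_congr rfl fun S hS => ?_
  rw [Fintype.mem_piFinset] at hS
  exact M02_term T (fun j => (cf (lam j) l (S j) : ℂ)) (fun j => nS (S j))
    (fun j => M02_pos (hS j)) α β τ

end LZ
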