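import Pool.Agent.Lib.MP_0f5a55_nt.D0
import Pool.Agent.Lib.MP_0f5a55_nt.A22
import Pool.Agent.Lib.MP_0f5a55_nt.M01
import Pool.Agent.Lib.MP_0f5a55_nt.M02
import Pool.Agent.Lib.MP_0f5a55_nt.M03
import Pool.Agent.Lib.MP_0f5a55_nt.A03

open Complex MeasureTheory Set Filter Topology
open scoped ComplexConjugate

namespace LZ

private lemma M04_nS_pos (z : ℕ) (S : Finset ℕ) (hS : S ∈ (PP z).powerset) : 1 ≤ nS S := by
  unfold nS
  apply Nat.one_le_iff_ne_zero.mpr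
  rw [Finset.prod_ne_zero_iff]
  intro p hp
  have h1 := Finset.mem_powerset.mp hS hp
  unfold PP at h1
  rw [Finset.mem_filter] at h1
  exact h1.2.pos.ne'

private lemma M04_cont_plus (α : ℂ) (hα : |α.re| ≤ 1/16) :
    Continuous (fun t : ℝ => riemannZeta (1/2 + α + t * I)) := by
  rw [continuous_iff_continuousAt]
  intro t
  have hne : (1/2 + α + t * I : ℂ) ≠ 1 := by
    intro h
    have := congrArg Complex.re h
    simp at this
    have h2 := (abs_le.mp hα).2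
    linarith
  have h1 : ContinuousAt riemannZeta (1/2 + α + t * I : ℂ) :=
    (differentiableAt_riemannZeta hne).continuousAt
  have h2 : Continuous (fun t : ℝ => (1/2 + α + t * I : ℂ)) := by fun_prop
  exact ContinuousAt.comp (f := fun t : ℝ => (1/2 + α + t * I : ℂ)) (g := riemannZeta) h1 h2.continuousAt

private lemma M04_cont_minus (β : ℂ) (hβ : |β.re| ≤ 1/16) :
    Continuous (fun t : ℝ => riemannZeta (1/2 + β - t * I)) := by
  have h := (M04_cont_plus β hβ).comp (continuous_neg (G := ℝ))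
  refine h.congr ?_
  intro t
  simp only [Function.comp]
  congr 1
  push_cast
  ring

private lemma M04_zeta_bound (C : ℝ) (hC : ∀ s : ℂ, 5/16 ≤ s.re → 1/4 ≤ ‖s - 1‖ →
    ‖riemannZeta s‖ ≤ C * (1 + |s.im|)) (hC0 : 0 < C) (U : ℝ) (α : ℂ) (hα : |α.re| ≤ 1/16)
    (hαi : |α.im| ≤ U) (t : ℝ) :
    ‖riemannZeta (1/2 + α + t * I)‖ ≤ C * (1 + U + |t|) := by
  have hre : (1/2 + α + t * I : ℂ).re = 1/2 + α.re := by simp
  have him : (1/2 + α + t * I : ℂ).im = α.im + t := by simp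
  have h1 := (abs_le.mp hα).1
  have h2 := (abs_le.mp hα).2
  have hb := hC (1/2 + α + t * I) (by rw [hre]; linarith) (by
    have h3 : |((1/2 + α + t * I : ℂ) - 1).re| ≤ ‖(1/2 + α + t * I : ℂ) - 1‖ := Complex.abs_re_le_norm _
    have h4 : ((1/2 + α + t * I : ℂ) - 1).re = α.re - 1/2 := by
      rw [Complex.sub_re, hre, Complex.one_re]; ring
    rw [h4] at h3
    have h5 : 1/4 ≤ |α.re - 1/2| := by
      rw [abs_of_nonpos (by linarith)]
      linarith
    linarith)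
  rw [him] at hb
  refine hb.trans (mul_le_mul_of_nonneg_left ?_ hC0.le)
  have := abs_add_le α.im t
  linarith

private lemma M04_integrable (C : ℝ) (hC : ∀ s : ℂ, 5/16 ≤ s.re → 1/4 ≤ ‖s - 1‖ →
    ‖riemannZeta s‖ ≤ C * (1 + |s.im|)) (hC0 : 0 < C) (U : ℝ) (hU : 0 ≤ U) (α β : ℂ)
    (hα : |α.re| ≤ 1/16) (hβ : |β.re| ≤ 1/16)
    (hαi : |α.im| ≤ U) (hβi : |β.im| ≤ U) (h k : ℕ) (hh : 1 ≤ h) (hk : 1 ≤ k) (T : ℝ) (hT : 0 < T) :
    IntegrableOn (fun t : ℝ => (riemannZeta (1/2 + α + t * I) * riemannZeta (1/2 + β - t * I) *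
        ((h : ℂ) ^ (-(t * I)) * (k : ℂ) ^ (t * I))) * (Real.exp (-t / T) : ℂ)) (Ioi (0:ℝ)) := by
  have hh0 : (h : ℂ) ≠ 0 := by exact_mod_cast (by omega : h ≠ 0)
  have hk0 : (k : ℂ) ≠ 0 := by exact_mod_cast (by omega : k ≠ 0)
  have hcont : Continuous (fun t : ℝ => (riemannZeta (1/2 + α + t * I) * riemannZeta (1/2 + β - t * I) *
        ((h : ℂ) ^ (-(t * I)) * (k : ℂ) ^ (t * I))) * (Real.exp (-t / T) : ℂ)) := by
    have c1 := M04_cont_plus α hα
    have c2 := M04_cont_minus β hβ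
    have c3 : Continuous (fun t : ℝ => (h : ℂ) ^ (-(t * I))) :=
      Continuous.const_cpow (by fun_prop) (Or.inl hh0)
    have c4 : Continuous (fun t : ℝ => (k : ℂ) ^ (t * I)) :=
      Continuous.const_cpow (by fun_prop) (Or.inl hk0)
    have c5 : Continuous (fun t : ℝ => (Real.exp (-t / T) : ℂ)) := by fun_prop
    exact ((c1.mul c2).mul (c3.mul c4)).mul c5
  have hdom : IntegrableOn (fun t : ℝ => (C * (1 + U + 4 * T)) ^ 2 * Real.exp (-(1 / (2 * T)) * t))
      (Ioi (0:ℝ)) :=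
    (exp_neg_integrableOn_Ioi 0 (by positivity)).const_mul _
  refine Integrable.mono' hdom hcont.aestronglyMeasurable ?_
  filter_upwards [ae_restrict_mem measurableSet_Ioi] with t ht
  have ht0 : (0:ℝ) < t := ht
  have hb1 := M04_zeta_bound C hC hC0 U α hα hαi t
  have hb2 := M04_zeta_bound C hC hC0 U β hβ hβi (-t)
  have e2 : (1/2 + β + ((-t : ℝ) : ℂ) * I) = 1/2 + β - t * I := by push_cast; ring
  rw [e2, abs_neg] at hb2
  rw [abs_of_pos ht0] at hb1 hb2
  have n1 : ‖(h : ℂ) ^ (-(t * I : ℂ))‖ = 1 := by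
    rw [Complex.norm_natCast_cpow_of_pos (by omega)]
    simp
  have n2 : ‖(k : ℂ) ^ ((t * I : ℂ))‖ = 1 := by
    rw [Complex.norm_natCast_cpow_of_pos (by omega)]
    simp
  rw [norm_mul, norm_mul, norm_mul, norm_mul, n1, n2, mul_one, mul_one]
  have n3 : ‖((Real.exp (-t / T) : ℝ) : ℂ)‖ = Real.exp (-t / T) := by
    rw [Complex.norm_real, Real.norm_eq_abs, abs_of_pos (Real.exp_pos _)]
  rw [n3]
  have hlin : 1 + U + t ≤ (1 + U + 4 * T) * Real.exp (t / (4 * T)) := by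
    have h1 : t / (4 * T) + 1 ≤ Real.exp (t / (4 * T)) := Real.add_one_le_exp _
    have h2 : (1 + U + 4 * T) * (t / (4 * T) + 1) ≤ (1 + U + 4 * T) * Real.exp (t / (4 * T)) :=
      mul_le_mul_of_nonneg_left h1 (by positivity)
    have h3 : 1 + U + t ≤ (1 + U + 4 * T) * (t / (4 * T) + 1) := by
      have h4 : (1 + U + 4 * T) * (t / (4 * T) + 1) =
          1 + U + 4 * T + (1 + U) * (t / (4 * T)) + t := by
        field_simp
        ring
      rw [h4]
      have : 0 ≤ (1 + U) * (t / (4 * T)) := by positivity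
      linarith
    linarith
  have hz : ‖riemannZeta (1/2 + α + t * I)‖ * ‖riemannZeta (1/2 + β - t * I)‖ ≤
      (C * (1 + U + 4 * T)) ^ 2 * (Real.exp (t / (4 * T)) * Real.exp (t / (4 * T))) := by
    have h1 : ‖riemannZeta (1/2 + α + t * I)‖ ≤ C * ((1 + U + 4 * T) * Real.exp (t / (4 * T))) :=
      hb1.trans (mul_le_mul_of_nonneg_left hlin hC0.le)
    have h2 : ‖riemannZeta (1/2 + β - t * I)‖ ≤ C * ((1 + U + 4 * T) * Real.exp (t / (4 * T))) :=
      hb2.trans (mul_le_mul_of_nonneg_left hlin hC0.le)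
    calc ‖riemannZeta (1/2 + α + t * I)‖ * ‖riemannZeta (1/2 + β - t * I)‖
        ≤ (C * ((1 + U + 4 * T) * Real.exp (t / (4 * T)))) *
          (C * ((1 + U + 4 * T) * Real.exp (t / (4 * T)))) :=
          mul_le_mul h1 h2 (norm_nonneg _) (by positivity)
      _ = _ := by ring
  calc ‖riemannZeta (1/2 + α + t * I)‖ * ‖riemannZeta (1/2 + β - t * I)‖ * Real.exp (-t / T)
      ≤ (C * (1 + U + 4 * T)) ^ 2 * (Real.exp (t / (4 * T)) * Real.exp (t / (4 * T))) *
        Real.exp (-t / T) := mul_le_mul_of_nonneg_right hz (Real.exp_pos _).le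
    _ = (C * (1 + U + 4 * T)) ^ 2 * Real.exp (-(1 / (2 * T)) * t) := by
      rw [mul_assoc, ← Real.exp_add, ← Real.exp_add]
      congr 2
      field_simp
      ring

private lemma M04_cpow_le (n : ℕ) (hn : 1 ≤ n) (τ : ℂ) (hτ : |τ.re| ≤ 1/16) :
    ‖(n : ℂ) ^ (-(1/2) - τ)‖ ≤ 1 := by
  rw [Complex.norm_natCast_cpow_of_pos (by omega)]
  apply Real.rpow_le_one_of_one_le_of_nonpos
  · exact_mod_cast hn
  · have h1 := (abs_le.mp hτ).1
    have : (-(1/2) - τ : ℂ).re = -(1/2) - τ.re := by simp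
    rw [this]
    linarith

/-- section 4: EE of XX_expand term by term (integrable by zeta_pol), tsm with h = n0 n1, k = n2 n3 <= exp(2l) for the nonzero
terms; total error exp(4l) exp(32 l) T^(-1/2) <= T^(-1/4). -/
theorem master (U : ℝ) (hU : 0 ≤ U) : ∃ C T0 : ℝ, 0 < C ∧ 2 ≤ T0 ∧ ∀ T : ℝ, T0 ≤ T → ∀ l : ℝ, 0 < l →
    l ≤ Real.log T / 1000 → ∀ lam : Fin 4 → ℝ, (∀ j, 0 ≤ lam j ∧ lam j ≤ 1) →
    ∀ (α β : ℂ) (τ : Fin 4 → ℂ), |α.re| ≤ 1/16 → |β.re| ≤ 1/16 → |α.im| ≤ U → |β.im| ≤ U →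
    (∀ j, |(τ j).re| ≤ 1/16) → α + β ≠ 0 →
    ‖EE T (XX lam l α β τ) -
      (riemannZeta (1 + (α + β)) * QQ ⌊Real.exp l⌋₊ lam l ![τ 0 + β, τ 1 + β, τ 2 + α, τ 3 + α] (α + β) +
      ((2 * Real.pi / T : ℝ) : ℂ) ^ (α + β) * Ac (α + β) *
        QQ ⌊Real.exp l⌋₊ lam l ![τ 0 - α, τ 1 - α, τ 2 - β, τ 3 - β] (-(α + β)))‖ ≤
      C * (1 + 1 / ‖α + β‖) * T ^ (-(1/4) : ℝ) := by
  obtain ⟨C, T0, hC, hT0, htsm⟩ := tsm U hU
  obtain ⟨Cz, hCz0, hCz⟩ := zeta_pol
  refine ⟨C, T0, hC, hT0, ?_⟩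
  intro T hT l hl hlT lam hlam α β τ hα hβ hαi hβi hτ hαβ
  have hTpos : 0 < T := by linarith
  set z : ℕ := ⌊Real.exp l⌋₊ with hz
  set P := Fintype.piFinset (fun _ : Fin 4 => (PP z).powerset) with hP
  set a : (Fin 4 → Finset ℕ) → ℂ := fun S =>
    ∏ j, (cf (lam j) l (S j) : ℂ) * (nS (S j) : ℂ) ^ (-(1/2) - τ j) with ha
  set f : (Fin 4 → Finset ℕ) → ℝ → ℂ := fun S t =>
    riemannZeta (1/2 + α + t * I) * riemannZeta (1/2 + β - t * I) *
      (((nS (S 0) * nS (S 1) : ℕ) : ℂ) ^ (-(t * I)) * ((nS (S 2) * nS (S 3) : ℕ) : ℂ) ^ (t * I)) with hf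
  have hmem : ∀ S ∈ P, ∀ j, S j ∈ (PP z).powerset := by
    intro S hS j
    exact (Fintype.mem_piFinset.mp hS) j
  have hnpos : ∀ S ∈ P, ∀ j, 1 ≤ nS (S j) := fun S hS j => M04_nS_pos z _ (hmem S hS j)
  have hX : XX lam l α β τ = fun t => ∑ S ∈ P, a S * f S t := by
    funext t
    exact XX_expand lam l α β τ t
  have hint : ∀ S ∈ P, IntegrableOn (fun t : ℝ => f S t * (Real.exp (-t / T) : ℂ)) (Ioi (0:ℝ)) := by
    intro S hS
    exact M04_integrable Cz hCz hCz0 U hU α β hα hβ hαi hβi _ _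
      (Nat.mul_le_mul (hnpos S hS 0) (hnpos S hS 1)) (Nat.mul_le_mul (hnpos S hS 2) (hnpos S hS 3)) T hTpos
  have hEE : EE T (XX lam l α β τ) = ∑ S ∈ P, a S * EE T (f S) := by
    rw [hX]
    unfold EE
    have h1 : ∀ t : ℝ, (∑ S ∈ P, a S * f S t) * (Real.exp (-t / T) : ℂ) =
        ∑ S ∈ P, a S * (f S t * (Real.exp (-t / T) : ℂ)) := by
      intro t
      rw [Finset.sum_mul]
      refine Finset.sum_congr rfl fun S _ => by ring
    simp_rw [h1]
    rw [integral_finsetSum]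
    · rw [Finset.mul_sum]
      refine Finset.sum_congr rfl fun S _ => ?_
      rw [integral_const_mul]
      ring
    · intro S hS
      exact (hint S hS).const_mul _
  have hmain := main_alg T hTpos lam l α β τ z
  rw [hEE, ← hmain, ← Finset.sum_sub_distrib]
  -- each term
  have hexp32 : Real.exp l ^ 4 = Real.exp (4 * l) := by
    rw [← Real.exp_nat_mul]; norm_num
  have hterm : ∀ S ∈ P, ‖a S * EE T (f S) - (∏ j, (cf (lam j) l (S j) : ℂ) * (nS (S j) : ℂ) ^ (-(1/2) - τ j)) *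
        mainT T α β (nS (S 0) * nS (S 1)) (nS (S 2) * nS (S 3))‖ ≤
      (∏ j, |cf (lam j) l (S j)|) * (C * (1 + 1 / ‖α + β‖) * (Real.exp (4 * l)) ^ 8 * T ^ (-(1/2) : ℝ)) := by
    intro S hS
    have e1 : a S * EE T (f S) - (∏ j, (cf (lam j) l (S j) : ℂ) * (nS (S j) : ℂ) ^ (-(1/2) - τ j)) *
        mainT T α β (nS (S 0) * nS (S 1)) (nS (S 2) * nS (S 3)) =
        a S * (EE T (f S) - mainT T α β (nS (S 0) * nS (S 1)) (nS (S 2) * nS (S 3))) := by
      rw [mul_sub]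
    rw [e1, norm_mul]
    have hna : ‖a S‖ ≤ ∏ j, |cf (lam j) l (S j)| := by
      rw [ha]
      simp only
      rw [norm_prod]
      apply Finset.prod_le_prod
      · intro j _
        exact norm_nonneg _
      · intro j _
        rw [norm_mul, Complex.norm_real, Real.norm_eq_abs]
        have := M04_cpow_le (nS (S j)) (hnpos S hS j) (τ j) (hτ j)
        calc |cf (lam j) l (S j)| * ‖(nS (S j) : ℂ) ^ (-(1/2) - τ j)‖
            ≤ |cf (lam j) l (S j)| * 1 := mul_le_mul_of_nonneg_left this (abs_nonneg _)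
          _ = _ := mul_one _
    by_cases hzero : ∏ j, |cf (lam j) l (S j)| = 0
    · have h0 : ‖a S‖ = 0 := le_antisymm (hna.trans hzero.le) (norm_nonneg _)
      rw [h0, hzero, zero_mul, zero_mul]
    · have hne : ∀ j, cf (lam j) l (S j) ≠ 0 := by
        intro j
        have := (Finset.prod_ne_zero_iff.mp hzero) j (Finset.mem_univ j)
        exact abs_ne_zero.mp this
      have hle : ∀ j, (nS (S j) : ℝ) ≤ Real.exp l := by
        intro j
        exact ((cf_sum (lam j) l (hlam j).1 (hlam j).2 hl z).2.1 (S j) (hmem S hS j) (hne j)).2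
      have hprod : (((nS (S 0) * nS (S 1) : ℕ) : ℝ) * ((nS (S 2) * nS (S 3) : ℕ) : ℝ)) ≤ Real.exp (4 * l) := by
        push_cast
        rw [← hexp32]
        have p : ∀ j, (0:ℝ) ≤ (nS (S j) : ℝ) := fun j => Nat.cast_nonneg _
        have q : (0:ℝ) ≤ Real.exp l := (Real.exp_pos l).le
        calc (nS (S 0) : ℝ) * nS (S 1) * (nS (S 2) * nS (S 3))
            ≤ Real.exp l * Real.exp l * (Real.exp l * Real.exp l) :=
              mul_le_mul (mul_le_mul (hle 0) (hle 1) (p 1) q) (mul_le_mul (hle 2) (hle 3) (p 3) q)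
                (mul_nonneg (p 2) (p 3)) (mul_nonneg q q)
          _ = _ := by ring
      have ht := htsm T hT (nS (S 0) * nS (S 1)) (nS (S 2) * nS (S 3))
        (Nat.mul_le_mul (hnpos S hS 0) (hnpos S hS 1)) (Nat.mul_le_mul (hnpos S hS 2) (hnpos S hS 3))
        α β hα hβ hαi hβi hαβ
      have ht' : ‖EE T (f S) - mainT T α β (nS (S 0) * nS (S 1)) (nS (S 2) * nS (S 3))‖ ≤
          C * (1 + 1 / ‖α + β‖) * (Real.exp (4 * l)) ^ 8 * T ^ (-(1/2) : ℝ) := by
        refine ht.trans ?_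
        apply mul_le_mul_of_nonneg_right _ (Real.rpow_nonneg hTpos.le _)
        apply mul_le_mul_of_nonneg_left _ (by positivity)
        exact pow_le_pow_left₀ (by positivity) hprod 8
      exact mul_le_mul hna ht' (norm_nonneg _) (Finset.prod_nonneg fun j _ => abs_nonneg _)
  have hsumcf : ∑ S ∈ P, ∏ j, |cf (lam j) l (S j)| ≤ Real.exp (4 * l) := by
    have h1 : ∑ S ∈ P, ∏ j, |cf (lam j) l (S j)| = ∏ j, ∑ S ∈ (PP z).powerset, |cf (lam j) l S| := by
      rw [Finset.prod_univ_sum]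
    rw [h1]
    calc ∏ j, ∑ S ∈ (PP z).powerset, |cf (lam j) l S| ≤ ∏ j : Fin 4, Real.exp l := by
          apply Finset.prod_le_prod
          · intro j _
            exact Finset.sum_nonneg fun S _ => abs_nonneg _
          · intro j _
            exact (cf_sum (lam j) l (hlam j).1 (hlam j).2 hl z).2.2
      _ = Real.exp (4 * l) := by
          rw [Finset.prod_const, Finset.card_univ, Fintype.card_fin, hexp32]
  have hK : 0 ≤ C * (1 + 1 / ‖α + β‖) * (Real.exp (4 * l)) ^ 8 * T ^ (-(1/2) : ℝ) := by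
    have := Real.rpow_nonneg hTpos.le (-(1/2) : ℝ)
    positivity
  refine (norm_sum_le _ _).trans ((Finset.sum_le_sum hterm).trans ?_)
  rw [← Finset.sum_mul]
  refine (mul_le_mul_of_nonneg_right hsumcf hK).trans ?_
  -- exp(36 l) T^(-1/2) <= T^(-1/4)
  have hlog : 0 ≤ Real.log T := Real.log_nonneg (by linarith)
  have hfin : Real.exp (4 * l) * (Real.exp (4 * l)) ^ 8 * T ^ (-(1/2) : ℝ) ≤ T ^ (-(1/4) : ℝ) := by
    rw [Real.rpow_def_of_pos hTpos, Real.rpow_def_of_pos hTpos, ← Real.exp_nat_mul, ← Real.exp_add,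
      ← Real.exp_add]
    apply Real.exp_le_exp.mpr
    push_cast
    nlinarith
  have e3 : Real.exp (4 * l) * (C * (1 + 1 / ‖α + β‖) * (Real.exp (4 * l)) ^ 8 * T ^ (-(1/2) : ℝ)) =
      C * (1 + 1 / ‖α + β‖) * (Real.exp (4 * l) * (Real.exp (4 * l)) ^ 8 * T ^ (-(1/2) : ℝ)) := by ring
  rw [e3]
  exact mul_le_mul_of_nonneg_left hfin (by positivity)

end LZ
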