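import Pool.Agent.Lib.MP_0f5a55_nt.D0
import Pool.Agent.Lib.MP_0f5a55_nt.A03
import Pool.Agent.Lib.MP_0f5a55_nt.M03

open Complex MeasureTheory Set Filter Topology
open scoped ComplexConjugate

namespace LZ

theorem M05_nS_pos {z : ℕ} {S : Finset ℕ} (hS : S ∈ (PP z).powerset) : 1 ≤ nS S := by
  unfold nS
  refine Finset.one_le_prod' fun p hp => ?_
  have h1 := Finset.mem_powerset.mp hS hp
  have h2 := (Finset.mem_filter.mp h1).2
  exact h2.one_lt.le

theorem M05_mol {lam l : ℝ} (h0 : 0 ≤ lam) (h1 : lam ≤ 1) (hl : 0 < l) :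
    ∃ M : ℝ, 0 < M ∧ ∀ s : ℂ, 0 ≤ s.re → ‖Mol lam l s‖ ≤ M := by
  refine ⟨Real.exp l + 1, by positivity, fun s hs => ?_⟩
  have hc := (cf_sum lam l h0 h1 hl ⌊Real.exp l⌋₊).2.2
  unfold Mol
  refine (norm_sum_le _ _).trans ?_
  have h2 : ∑ S ∈ (PP ⌊Real.exp l⌋₊).powerset, ‖(cf lam l S : ℂ) * (nS S : ℂ) ^ (-s)‖ ≤
      ∑ S ∈ (PP ⌊Real.exp l⌋₊).powerset, |cf lam l S| := by
    refine Finset.sum_le_sum fun S hS => ?_
    rw [norm_mul, Complex.norm_real, Real.norm_eq_abs]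
    have h3 := M05_nS_pos hS
    have h4 : ‖(nS S : ℂ) ^ (-s)‖ ≤ 1 := by
      rw [Complex.norm_natCast_cpow_of_pos (by omega)]
      apply Real.rpow_le_one_of_one_le_of_nonpos
      · exact_mod_cast h3
      · simpa using hs
    exact mul_le_of_le_one_right (abs_nonneg _) h4
  linarith

theorem M05_mol_cont (lam l : ℝ) : Continuous fun s : ℂ => Mol lam l s := by
  unfold Mol
  refine continuous_finsetSum _ fun S hS => ?_
  refine continuous_const.mul ?_
  have h3 := M05_nS_pos hS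
  have h4 : (nS S : ℂ) ≠ 0 := by
    have : nS S ≠ 0 := by omega
    exact_mod_cast this
  exact (continuous_neg).const_cpow (Or.inl h4)

/-- crude bound of XX uniformly in the parameters (zeta_pol, finite sums). -/
theorem XX_bound (lam : Fin 4 → ℝ) (hl : ∀ j, 0 ≤ lam j ∧ lam j ≤ 1) (l U : ℝ) (hl0 : 0 < l) (hU : 0 ≤ U) :
    ∃ C : ℝ, 0 < C ∧
    ∀ (α β : ℂ) (τ : Fin 4 → ℂ), |α.re| ≤ 1/16 → |β.re| ≤ 1/16 → |α.im| ≤ U → |β.im| ≤ U →
    (∀ j, |(τ j).re| ≤ 1/16) → Continuous (XX lam l α β τ) ∧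
    ∀ t : ℝ, ‖XX lam l α β τ t‖ ≤ C * (1 + |t|) ^ 2 := by
  obtain ⟨Z, hZ, hZb⟩ := zeta_pol
  choose M hM hMb using fun j => M05_mol (hl j).1 (hl j).2 hl0
  refine ⟨(Z * (1 + U)) ^ 2 * (M 0 * M 1 * M 2 * M 3), ?_, ?_⟩
  · have h0 := hM 0
    have h1 := hM 1
    have h2 := hM 2
    have h3 := hM 3
    positivity
  intro α β τ hα hβ hαU hβU hτ
  have hτre : ∀ j, -(1/16) ≤ (τ j).re := fun j => (abs_le.mp (hτ j)).1
  have hzeta : ∀ (γ : ℂ) (ε : ℝ) (t : ℝ), |γ.re| ≤ 1/16 → |ε| = 1 →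
      5/16 ≤ (1/2 + γ + ε * t * I).re ∧ 1/4 ≤ ‖(1/2 + γ + ε * t * I) - 1‖ ∧
      (1/2 + γ + ε * t * I) ≠ 1 := by
    intro γ ε t hγ hε
    have h1 : (1/2 + γ + ε * t * I : ℂ).re = 1/2 + γ.re := by simp
    have h2 := abs_le.mp hγ
    have h3 : ((1/2 + γ + ε * t * I : ℂ) - 1).re = γ.re - 1/2 := by
      rw [Complex.sub_re, h1, Complex.one_re]
      ring
    have h4 : |((1/2 + γ + ε * t * I : ℂ) - 1).re| ≤ ‖(1/2 + γ + ε * t * I : ℂ) - 1‖ :=
      Complex.abs_re_le_norm _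
    have h5 : 1/4 ≤ ‖(1/2 + γ + ε * t * I : ℂ) - 1‖ := by
      refine le_trans ?_ h4
      rw [h3, abs_of_nonpos (by linarith [h2.2])]
      linarith [h2.2]
    refine ⟨by rw [h1]; linarith [h2.1], h5, ?_⟩
    intro h6
    rw [h6, sub_self, norm_zero] at h5
    linarith
  have ha : ∀ t : ℝ, (1/2 + α + t * I : ℂ) = 1/2 + α + ((1 : ℝ) : ℂ) * t * I := by
    intro t
    push_cast
    ring
  have hb : ∀ t : ℝ, (1/2 + β - t * I : ℂ) = 1/2 + β + ((-1 : ℝ) : ℂ) * t * I := by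
    intro t
    push_cast
    ring
  have hcα : Continuous fun t : ℝ => riemannZeta (1/2 + α + t * I) := by
    rw [continuous_iff_continuousAt]
    intro t
    have h1 := (hzeta α 1 t hα (by norm_num)).2.2
    rw [← ha] at h1
    exact (differentiableAt_riemannZeta h1).continuousAt.comp
      (f := fun t : ℝ => (1/2 + α + t * I : ℂ)) (by fun_prop)
  have hcβ : Continuous fun t : ℝ => riemannZeta (1/2 + β - t * I) := by
    rw [continuous_iff_continuousAt]
    intro t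
    have h1 := (hzeta β (-1) t hβ (by norm_num)).2.2
    rw [← hb] at h1
    exact (differentiableAt_riemannZeta h1).continuousAt.comp
      (f := fun t : ℝ => (1/2 + β - t * I : ℂ)) (by fun_prop)
  constructor
  · unfold XX
    refine (hcα.mul hcβ).mul ?_
    refine ((Continuous.mul ?_ ?_).mul ?_).mul ?_
    · exact (M05_mol_cont _ _).comp (by fun_prop)
    · exact (M05_mol_cont _ _).comp (by fun_prop)
    · exact (M05_mol_cont _ _).comp (by fun_prop)
    · exact (M05_mol_cont _ _).comp (by fun_prop)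
  · intro t
    unfold XX
    have hz1 : ‖riemannZeta (1/2 + α + t * I)‖ ≤ Z * (1 + U) * (1 + |t|) := by
      have h1 := hzeta α 1 t hα (by norm_num)
      rw [← ha] at h1
      refine (hZb _ h1.1 h1.2.1).trans ?_
      have h2 : |(1/2 + α + t * I : ℂ).im| ≤ U + |t| := by
        have h3 : (1/2 + α + t * I : ℂ).im = α.im + t := by simp
        rw [h3]
        exact (abs_add_le _ _).trans (add_le_add hαU le_rfl)
      have h4 : 0 ≤ |t| := abs_nonneg t
      have h5 : 1 + |(1/2 + α + t * I : ℂ).im| ≤ (1 + U) * (1 + |t|) := by nlinarith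
      calc Z * (1 + |(1/2 + α + t * I : ℂ).im|) ≤ Z * ((1 + U) * (1 + |t|)) :=
            mul_le_mul_of_nonneg_left h5 hZ.le
        _ = _ := by ring
    have hz2 : ‖riemannZeta (1/2 + β - t * I)‖ ≤ Z * (1 + U) * (1 + |t|) := by
      have h1 := hzeta β (-1) t hβ (by norm_num)
      rw [← hb] at h1
      refine (hZb _ h1.1 h1.2.1).trans ?_
      have h2 : |(1/2 + β - t * I : ℂ).im| ≤ U + |t| := by
        have h3 : (1/2 + β - t * I : ℂ).im = β.im + -t := by
          simp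
          ring
        rw [h3]
        refine (abs_add_le _ _).trans ?_
        rw [abs_neg]
        exact add_le_add hβU le_rfl
      have h4 : 0 ≤ |t| := abs_nonneg t
      have h5 : 1 + |(1/2 + β - t * I : ℂ).im| ≤ (1 + U) * (1 + |t|) := by nlinarith
      calc Z * (1 + |(1/2 + β - t * I : ℂ).im|) ≤ Z * ((1 + U) * (1 + |t|)) :=
            mul_le_mul_of_nonneg_left h5 hZ.le
        _ = _ := by ring
    have hm : ∀ (j : Fin 4) (ε : ℝ), ‖Mol (lam j) l (1/2 + τ j + ε * t * I)‖ ≤ M j := by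
      intro j ε
      apply hMb j
      have h1 : (1/2 + τ j + ε * t * I : ℂ).re = 1/2 + (τ j).re := by simp
      rw [h1]
      linarith [hτre j]
    have hm0 := hm 0 1
    have hm1 := hm 1 1
    have hm2 := hm 2 (-1)
    have hm3 := hm 3 (-1)
    have hm0' : (1/2 + τ 0 + t * I : ℂ) = 1/2 + τ 0 + ((1 : ℝ) : ℂ) * t * I := by
      push_cast
      ring
    have hm1' : (1/2 + τ 1 + t * I : ℂ) = 1/2 + τ 1 + ((1 : ℝ) : ℂ) * t * I := by
      push_cast
      ring
    have hm2' : (1/2 + τ 2 - t * I : ℂ) = 1/2 + τ 2 + ((-1 : ℝ) : ℂ) * t * I := by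
      push_cast
      ring
    have hm3' : (1/2 + τ 3 - t * I : ℂ) = 1/2 + τ 3 + ((-1 : ℝ) : ℂ) * t * I := by
      push_cast
      ring
    rw [← hm0'] at hm0
    rw [← hm1'] at hm1
    rw [← hm2'] at hm2
    rw [← hm3'] at hm3
    have p0 := hM 0
    have p1 := hM 1
    have p2 := hM 2
    have p3 := hM 3
    have hZU : 0 ≤ Z * (1 + U) * (1 + |t|) := by positivity
    rw [norm_mul, norm_mul, norm_mul, norm_mul, norm_mul]
    calc _ ≤ (Z * (1 + U) * (1 + |t|)) * (Z * (1 + U) * (1 + |t|)) * (M 0 * M 1 * M 2 * M 3) := by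
          gcongr
      _ = _ := by ring

end LZ
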