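import Pool.Agent.Lib.MP_0f5a55_nt.D0

open Complex MeasureTheory Set Filter Topology
open scoped ComplexConjugate

namespace LZ

theorem M06_intg {T : ℝ} (hT : 0 < T) :
    IntegrableOn (fun t : ℝ => (1 + |t|) ^ 2 * Real.exp (-t / T)) (Ioi 0) := by
  have hb : 0 < 1 / T := by positivity
  have h0 := integrableOn_rpow_mul_exp_neg_mul_rpow (s := 0) (p := 1) (b := 1 / T) (by norm_num)
    one_pos hb
  have h1 := integrableOn_rpow_mul_exp_neg_mul_rpow (s := 1) (p := 1) (b := 1 / T) (by norm_num)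
    one_pos hb
  have h2 := integrableOn_rpow_mul_exp_neg_mul_rpow (s := 2) (p := 1) (b := 1 / T) (by norm_num)
    one_pos hb
  have h3 := (h0.add (h1.const_mul 2)).add h2
  refine h3.congr_fun (fun t ht => ?_) measurableSet_Ioi
  have ht' : 0 < t := ht
  simp only [Pi.add_apply]
  have h4 : t ^ (2 : ℝ) = t ^ 2 := by norm_cast
  rw [Real.rpow_zero, Real.rpow_one, abs_of_pos ht', h4]
  have h5 : -(1 / T) * t = -t / T := by ring
  rw [h5]
  ring

/-- holomorphy of a parameter integral (Cauchy estimate for the derivative on a small ball, dominated differentiation). -/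
theorem EE_diff {T : ℝ} (hT : 0 < T) {Ω : Set ℂ} (hΩ : IsOpen Ω) {g : ℂ → ℝ → ℂ}
    (hd : ∀ t : ℝ, DifferentiableOn ℂ (fun z => g z t) Ω) (hc : ∀ z ∈ Ω, Continuous (g z)) {C : ℝ}
    (hb : ∀ z ∈ Ω, ∀ t : ℝ, 0 < t → ‖g z t‖ ≤ C * (1 + |t|) ^ 2) :
    DifferentiableOn ℂ (fun z => EE T (g z)) Ω := by
  intro z₀ hz₀
  obtain ⟨ε, hε, hball⟩ := Metric.isOpen_iff.mp hΩ z₀ hz₀
  obtain ⟨r, hr⟩ : ∃ r, r = ε / 3 := ⟨_, rfl⟩
  have hr0 : 0 < r := by rw [hr]; linarith
  have hC0 : 0 ≤ C := by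
    have h1 := (norm_nonneg _).trans (hb z₀ hz₀ 1 one_pos)
    have h2 : (0 : ℝ) < (1 + |(1 : ℝ)|) ^ 2 := by positivity
    exact nonneg_of_mul_nonneg_left h1 h2
  have hmem : ∀ x ∈ Metric.ball z₀ r, Metric.closedBall x r ⊆ Ω := by
    intro x hx y hy
    apply hball
    rw [Metric.mem_ball] at hx ⊢
    rw [Metric.mem_closedBall] at hy
    calc dist y z₀ ≤ dist y x + dist x z₀ := dist_triangle _ _ _
      _ < ε := by rw [hr] at *; linarith
  have hmem' : ∀ x ∈ Metric.ball z₀ r, x ∈ Ω := fun x hx =>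
    hmem x hx (Metric.mem_closedBall_self hr0.le)
  have hda : ∀ x ∈ Metric.ball z₀ r, ∀ t : ℝ, DifferentiableAt ℂ (fun z => g z t) x :=
    fun x hx t => (hd t).differentiableAt (hΩ.mem_nhds (hmem' x hx))
  have hcauchy : ∀ x ∈ Metric.ball z₀ r, ∀ t : ℝ, 0 < t →
      ‖deriv (fun z => g z t) x‖ ≤ C * (1 + |t|) ^ 2 / r := by
    intro x hx t ht
    refine Complex.norm_deriv_le_of_forall_mem_sphere_norm_le hr0 ?_ ?_
    · refine ((hd t).mono ?_).diffContOnCl
      exact (Metric.closure_ball_subset_closedBall).trans (hmem x hx)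
    · intro z hz
      exact hb z (hmem x hx (Metric.sphere_subset_closedBall hz)) t ht
  have hexpc : Continuous (fun t : ℝ => ((Real.exp (-t / T) : ℝ) : ℂ)) := by fun_prop
  have hintb : IntegrableOn (fun t : ℝ => C / r * ((1 + |t|) ^ 2 * Real.exp (-t / T))) (Ioi 0) :=
    (M06_intg hT).const_mul _
  have hintg : IntegrableOn (fun t : ℝ => C * ((1 + |t|) ^ 2 * Real.exp (-t / T))) (Ioi 0) :=
    (M06_intg hT).const_mul _
  have hderiv := hasDerivAt_integral_of_dominated_loc_of_deriv_le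
    (μ := volume.restrict (Ioi (0 : ℝ))) (𝕜 := ℂ) (x₀ := z₀) (s := Metric.ball z₀ r)
    (F := fun z t => g z t * ((Real.exp (-t / T) : ℝ) : ℂ))
    (F' := fun z t => deriv (fun w => g w t) z * ((Real.exp (-t / T) : ℝ) : ℂ))
    (bound := fun t => C / r * ((1 + |t|) ^ 2 * Real.exp (-t / T)))
    (Metric.ball_mem_nhds z₀ hr0) ?_ ?_ ?_ ?_ hintb ?_
  · have h1 : DifferentiableAt ℂ (fun z => EE T (g z)) z₀ := by
      unfold EE
      exact (hderiv.2.const_mul ((T : ℂ)⁻¹)).differentiableAt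
    exact h1.differentiableWithinAt
  · filter_upwards [Metric.ball_mem_nhds z₀ hr0] with x hx
    exact ((hc x (hmem' x hx)).mul hexpc).aestronglyMeasurable
  · refine Integrable.mono' hintg ((hc z₀ hz₀).mul hexpc).aestronglyMeasurable ?_
    refine (ae_restrict_iff' measurableSet_Ioi).mpr (Filter.Eventually.of_forall fun t ht => ?_)
    rw [norm_mul, Complex.norm_real, Real.norm_of_nonneg (Real.exp_pos _).le, ← mul_assoc]
    exact mul_le_mul_of_nonneg_right (hb z₀ hz₀ t ht) (Real.exp_pos _).le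
  · -- measurability of the derivative
    refine AEStronglyMeasurable.mul ?_ hexpc.aestronglyMeasurable
    obtain ⟨h, hh⟩ : ∃ h : ℕ → ℂ, h = fun n : ℕ => ((r / ((n : ℝ) + 2) : ℝ) : ℂ) := ⟨_, rfl⟩
    have hh0 : ∀ n, h n ≠ 0 := by
      intro n
      rw [hh]
      have h5 : (r / ((n : ℝ) + 2) : ℝ) ≠ 0 := by positivity
      show ((r / ((n : ℝ) + 2) : ℝ) : ℂ) ≠ 0
      exact Complex.ofReal_ne_zero.mpr h5
    have hhn : ∀ n, z₀ + h n ∈ Metric.ball z₀ r := by
      intro n
      rw [Metric.mem_ball, dist_eq_norm, add_sub_cancel_left, hh]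
      show ‖((r / ((n : ℝ) + 2) : ℝ) : ℂ)‖ < r
      rw [Complex.norm_real, Real.norm_of_nonneg (by positivity)]
      rw [div_lt_iff₀ (by positivity)]
      nlinarith [Nat.cast_nonneg (α := ℝ) n]
    have hht : Tendsto h atTop (𝓝 0) := by
      rw [hh]
      have h1 : Tendsto (fun n : ℕ => (r / ((n : ℝ) + 2) : ℝ)) atTop (𝓝 0) := by
        have h2 : Tendsto (fun n : ℕ => ((n : ℝ) + 2)) atTop atTop :=
          tendsto_atTop_add_const_right _ _ tendsto_natCast_atTop_atTop
        exact h2.const_div_atTop r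
      have h3 := (Complex.continuous_ofReal.tendsto 0).comp h1
      rw [Complex.ofReal_zero] at h3
      exact h3
    have hht' : Tendsto (fun n => z₀ + h n) atTop (𝓝[≠] z₀) := by
      rw [tendsto_nhdsWithin_iff]
      refine ⟨?_, Filter.Eventually.of_forall fun n => ?_⟩
      · have := hht.const_add z₀
        rwa [add_zero] at this
      · simpa using hh0 n
    refine aestronglyMeasurable_of_tendsto_ae (u := atTop)
      (f := fun (n : ℕ) (t : ℝ) => slope (fun w => g w t) z₀ (z₀ + h n)) (fun n => ?_)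
      (Filter.Eventually.of_forall fun t => ?_)
    · have h1 : (fun t : ℝ => slope (fun w => g w t) z₀ (z₀ + h n)) =
          fun t : ℝ => (h n)⁻¹ * (g (z₀ + h n) t - g z₀ t) := by
        funext t
        rw [slope_def_module, add_sub_cancel_left, smul_eq_mul]
      rw [h1]
      exact (((hc _ (hmem' _ (hhn n))).sub (hc z₀ hz₀)).const_mul _).aestronglyMeasurable
    · have h1 := (hda z₀ (Metric.mem_ball_self hr0) t).hasDerivAt
      exact (hasDerivAt_iff_tendsto_slope.mp h1).comp hht'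
  · refine (ae_restrict_iff' measurableSet_Ioi).mpr (Filter.Eventually.of_forall fun t ht x hx => ?_)
    rw [norm_mul, Complex.norm_real, Real.norm_of_nonneg (Real.exp_pos _).le]
    calc ‖deriv (fun w => g w t) x‖ * Real.exp (-t / T)
        ≤ C * (1 + |t|) ^ 2 / r * Real.exp (-t / T) :=
          mul_le_mul_of_nonneg_right (hcauchy x hx t ht) (Real.exp_pos _).le
      _ = C / r * ((1 + |t|) ^ 2 * Real.exp (-t / T)) := by ring
  · refine Filter.Eventually.of_forall fun t x hx => ?_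
    exact (hda x hx t).hasDerivAt.mul_const _

end LZ
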