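import Pool.Agent.Lib.MP_0f5a55_nt.D0

open Complex MeasureTheory Set Filter Topology
open scoped ComplexConjugate

namespace LZ

/-- (1.1). riemannZeta_eulerProduct_exp_log: zeta(s)=exp(tsum -log(1-p^(-s))); real part of -log(1-x) is
Re x + O(|x|^2) for |x|<=1/2, and sum over primes of p^(-2) converges. -/
theorem R_log : ∃ C : ℝ, 0 ≤ C ∧ ∀ s : ℂ, 1 < s.re → |R s - Real.log ‖riemannZeta s‖| ≤ C := by
  have hsum2 : Summable (fun p : Nat.Primes => (p : ℝ) ^ (-2 : ℝ)) :=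
    Nat.Primes.summable_rpow.2 (by norm_num)
  refine ⟨∑' p : Nat.Primes, (p : ℝ) ^ (-2 : ℝ), tsum_nonneg fun p => by positivity, ?_⟩
  intro s hs
  have hp2 : ∀ p : Nat.Primes, (2 : ℝ) ≤ (p : ℝ) := fun p => by
    exact_mod_cast p.2.two_le
  have hn : ∀ p : Nat.Primes, ‖((p : ℕ) : ℂ) ^ (-s)‖ = (p : ℝ) ^ (-s.re) := by
    intro p
    have h0 : (0:ℝ) < (p : ℝ) := by have := hp2 p; linarith
    have : ((p : ℕ) : ℂ) = ((p : ℝ) : ℂ) := by simp
    rw [this, norm_cpow_eq_rpow_re_of_pos h0, neg_re]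
  have hn1 : ∀ p : Nat.Primes, ‖((p : ℕ) : ℂ) ^ (-s)‖ ≤ (p : ℝ) ^ (-1 : ℝ) := by
    intro p
    rw [hn p]
    apply Real.rpow_le_rpow_of_exponent_le (by have := hp2 p; linarith)
    linarith
  have hn2 : ∀ p : Nat.Primes, ‖((p : ℕ) : ℂ) ^ (-s)‖ ≤ 1 / 2 := by
    intro p
    refine (hn1 p).trans ?_
    rw [Real.rpow_neg_one, one_div]
    exact inv_anti₀ (by norm_num) (hp2 p)
  have hd : ∀ p : Nat.Primes, ‖(-log (1 - ((p : ℕ) : ℂ) ^ (-s))) - ((p : ℕ) : ℂ) ^ (-s)‖ ≤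
      (p : ℝ) ^ (-2 : ℝ) := by
    intro p
    set x : ℂ := ((p : ℕ) : ℂ) ^ (-s) with hx
    have h1 : ‖-x‖ < 1 := by rw [norm_neg]; linarith [hn2 p]
    have h2 := norm_log_one_add_sub_self_le h1
    rw [norm_neg] at h2
    have h3 : (-log (1 - x)) - x = -(log (1 + -x) - -x) := by ring_nf
    rw [h3, norm_neg]
    have h4 : (1 - ‖x‖)⁻¹ ≤ 2 := by
      rw [inv_le_comm₀ (by linarith [hn2 p]) (by norm_num)]
      linarith [hn2 p]
    have h5 : ‖x‖ ^ 2 ≤ (p : ℝ) ^ (-2 : ℝ) := by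
      have h6 : (p : ℝ) ^ (-2 : ℝ) = ((p : ℝ) ^ (-1 : ℝ)) ^ 2 := by
        rw [← Real.rpow_natCast, ← Real.rpow_mul (by have := hp2 p; linarith)]
        norm_num
      rw [h6]
      exact pow_le_pow_left₀ (norm_nonneg _) (hn1 p) 2
    calc _ ≤ ‖x‖ ^ 2 * (1 - ‖x‖)⁻¹ / 2 := h2
      _ ≤ ‖x‖ ^ 2 * 2 / 2 := by gcongr
      _ = ‖x‖ ^ 2 := by ring
      _ ≤ _ := h5
  have hs1 : Summable (fun p : Nat.Primes => ((p : ℕ) : ℂ) ^ (-s)) := by
    apply Summable.of_norm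
    have : Summable (fun p : Nat.Primes => (p : ℝ) ^ (-s.re)) :=
      Nat.Primes.summable_rpow.2 (by linarith)
    exact this.congr fun p => (hn p).symm
  have hs2 : Summable (fun p : Nat.Primes =>
      (-log (1 - ((p : ℕ) : ℂ) ^ (-s))) - ((p : ℕ) : ℂ) ^ (-s)) :=
    Summable.of_norm_bounded hsum2 hd
  have hs3 : Summable (fun p : Nat.Primes => (-log (1 - ((p : ℕ) : ℂ) ^ (-s)))) := by
    have := hs2.add hs1
    simpa using this
  have hz : Real.log ‖riemannZeta s‖ = (∑' p : Nat.Primes, -log (1 - ((p : ℕ) : ℂ) ^ (-s))).re := by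
    rw [← riemannZeta_eulerProduct_exp_log hs, norm_exp, Real.log_exp]
  have hR : R s = (∑' p : Nat.Primes, ((p : ℕ) : ℂ) ^ (-s)).re := by
    unfold R
    rw [re_tsum hs1]
  rw [hz, hR, ← sub_re, ← hs1.tsum_sub hs3]
  refine (abs_re_le_norm _).trans ?_
  refine tsum_of_norm_bounded hsum2.hasSum ?_
  intro p
  rw [norm_sub_rev]
  exact hd p

end LZ
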