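import Pool.Agent.Lib.MP_0f5a55_nt.D0

open Complex MeasureTheory Set Filter Topology
open scoped ComplexConjugate

namespace LZ

/-- zeta(1+w) w is continuous and nonvanishing on the compact set {0<=Re w, |w|<=1} (value 1 at w=0:
riemannZeta_residue_one; nonvanishing riemannZeta_ne_zero_of_one_le_re). -/
theorem zeta_one : ∃ C : ℝ, 0 < C ∧ ∀ w : ℂ, 0 < w.re → ‖w‖ ≤ 1 →
    ‖riemannZeta (1 + w)‖ ≤ C / ‖w‖ ∧ ‖riemannZeta (1 + w)‖⁻¹ ≤ C * ‖w‖ := by
  set h : ℂ → ℂ := Function.update (fun w => w * riemannZeta (1 + w)) 0 1 with hh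
  have hne : ∀ w, w ≠ 0 → h w = w * riemannZeta (1 + w) := fun w hw => by
    rw [hh, Function.update_of_ne hw]
  have h0 : h 0 = 1 := by rw [hh, Function.update_self]
  have hcont : Continuous h := by
    rw [continuous_iff_continuousAt]
    intro w
    by_cases hw : w = 0
    · subst hw
      rw [hh, continuousAt_update_same]
      have h1 := riemannZeta_residue_one
      have h2 : Tendsto (fun w : ℂ => 1 + w) (𝓝[≠] 0) (𝓝[≠] 1) := by
        refine tendsto_nhdsWithin_iff.2 ⟨?_, ?_⟩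
        · have h3 : Tendsto (fun w : ℂ => 1 + w) (𝓝 0) (𝓝 (1 + 0)) :=
            (continuous_const.add continuous_id).tendsto 0
          rw [add_zero] at h3
          exact h3.mono_left nhdsWithin_le_nhds
        · filter_upwards [self_mem_nhdsWithin] with w hw
          intro h4
          apply hw
          have h5 : (1 : ℂ) + w = 1 := h4
          exact left_eq_add.1 h5.symm
      have h6 := h1.comp h2
      refine h6.congr fun w => ?_
      simp
    · have h1 : ContinuousAt (fun w : ℂ => w * riemannZeta (1 + w)) w := by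
        refine continuousAt_id.mul ?_
        have h2 : (1 : ℂ) + w ≠ 1 := fun h => hw (left_eq_add.1 h.symm)
        exact ContinuousAt.comp (f := fun w : ℂ => 1 + w)
          (differentiableAt_riemannZeta h2).continuousAt
          (continuous_const.add continuous_id).continuousAt
      refine h1.congr ?_
      filter_upwards [isOpen_ne.mem_nhds hw] with v hv
      exact (hne v hv).symm
  have hK : IsCompact (Metric.closedBall (0 : ℂ) 1 ∩ {w : ℂ | 0 ≤ w.re}) :=
    (isCompact_closedBall 0 1).inter_right (isClosed_le continuous_const continuous_re)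
  have hKne : (Metric.closedBall (0 : ℂ) 1 ∩ {w : ℂ | 0 ≤ w.re}).Nonempty :=
    ⟨0, by simp, by simp⟩
  have hnz : ∀ w ∈ Metric.closedBall (0 : ℂ) 1 ∩ {w : ℂ | 0 ≤ w.re}, 0 < ‖h w‖ := by
    rintro w ⟨-, hw⟩
    rw [norm_pos_iff]
    by_cases hw0 : w = 0
    · rw [hw0, h0]; exact one_ne_zero
    · rw [hne w hw0]
      refine mul_ne_zero hw0 (riemannZeta_ne_zero_of_one_le_re ?_)
      have hw' : 0 ≤ w.re := hw
      rw [add_re, one_re]
      linarith
  obtain ⟨w1, hw1, hmin⟩ := hK.exists_isMinOn hKne hcont.norm.continuousOn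
  obtain ⟨w2, hw2, hmax⟩ := hK.exists_isMaxOn hKne hcont.norm.continuousOn
  have hm : 0 < ‖h w1‖ := hnz w1 hw1
  have hM : 0 < ‖h w2‖ := hnz w2 hw2
  refine ⟨max ‖h w2‖ (1 / ‖h w1‖), lt_max_of_lt_left hM, fun w hre hw => ?_⟩
  have hw0 : w ≠ 0 := by
    rintro rfl
    simp at hre
  have hwn : 0 < ‖w‖ := norm_pos_iff.2 hw0
  have hwK : w ∈ Metric.closedBall (0 : ℂ) 1 ∩ {w : ℂ | 0 ≤ w.re} :=
    ⟨by simpa using hw, hre.le⟩
  have e1 : ‖h w‖ = ‖w‖ * ‖riemannZeta (1 + w)‖ := by rw [hne w hw0, norm_mul]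
  have b1 : ‖h w‖ ≤ ‖h w2‖ := hmax hwK
  have b2 : ‖h w1‖ ≤ ‖h w‖ := hmin hwK
  have hz : 0 < ‖riemannZeta (1 + w)‖ := by
    have := hnz w hwK
    rw [e1] at this
    exact pos_of_mul_pos_right this hwn.le
  constructor
  · rw [le_div_iff₀ hwn, mul_comm, ← e1]
    exact b1.trans (le_max_left _ _)
  · have h1 : 1 ≤ 1 / ‖h w1‖ * ‖h w‖ := by
      rw [one_div, inv_mul_eq_div, one_le_div hm]
      exact b2
    have h2 : 1 ≤ max ‖h w2‖ (1 / ‖h w1‖) * ‖h w‖ :=
      h1.trans (mul_le_mul_of_nonneg_right (le_max_right _ _) (norm_nonneg _))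
    rw [e1, ← mul_assoc] at h2
    rwa [inv_le_iff_one_le_mul₀ hz]

end LZ
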