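import Pool.Agent.Lib.MP_0f5a55_nt.D0

open Complex MeasureTheory Set Filter Topology
open scoped ComplexConjugate

namespace LZ

theorem P03_norm (p : Nat.Primes) (s : ℂ) :
    |((((p : ℕ) : ℂ)) ^ (-s)).re| ≤ ((p : ℕ) : ℝ) ^ (-s.re) := by
  refine (abs_re_le_norm _).trans (le_of_eq ?_)
  rw [norm_natCast_cpow_of_pos p.2.pos, neg_re]

theorem P03_real (p : ℕ) (x : ℝ) : (((p : ℂ)) ^ (-(x : ℂ))).re = (p : ℝ) ^ (-x) := by
  rw [← ofReal_neg, ← ofReal_natCast, ← ofReal_cpow (Nat.cast_nonneg p), ofReal_re]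

theorem P03_sum {x : ℝ} (hx : 1 < x) : Summable (fun p : Nat.Primes => ((p : ℕ) : ℝ) ^ (-x)) :=
  Nat.Primes.summable_rpow.2 (by linarith)

theorem P03_R (x : ℝ) : R (x : ℂ) = ∑' p : Nat.Primes, ((p : ℕ) : ℝ) ^ (-x) := by
  unfold R
  exact tsum_congr fun p => P03_real p x

theorem P03_summable {s : ℂ} (hs : 1 < s.re) :
    Summable (fun p : Nat.Primes => ((((p : ℕ) : ℂ)) ^ (-s)).re) :=
  Summable.of_norm_bounded (P03_sum hs) (fun p => P03_norm p s)

/-- the primes up to `z` as a finset of `Nat.Primes` -/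
def P03_fin (z : ℕ) : Finset Nat.Primes := Finset.subtype Nat.Prime (PP z)

theorem P03_fin_sum (z : ℕ) (f : ℕ → ℝ) : ∑ p ∈ P03_fin z, f p = ∑ p ∈ PP z, f p := by
  unfold P03_fin
  refine Finset.sum_subtype_of_mem f ?_
  intro p hp
  exact (Finset.mem_filter.1 hp).2

theorem P03_mem_fin (z : ℕ) (p : Nat.Primes) : p ∈ P03_fin z ↔ (p : ℕ) ∈ PP z :=
  Finset.mem_subtype (p := Nat.Prime)

theorem P03_fin_tendsto : Tendsto P03_fin atTop atTop := by
  refine tendsto_atTop_finset_of_monotone ?_ ?_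
  · intro a b hab p hp
    rw [P03_mem_fin] at *
    unfold PP at *
    rw [Finset.mem_filter, Finset.mem_range] at *
    exact ⟨by omega, hp.2⟩
  · intro p
    refine ⟨p, ?_⟩
    rw [P03_mem_fin]
    unfold PP
    rw [Finset.mem_filter, Finset.mem_range]
    exact ⟨by omega, p.2⟩

/-- elementary facts on R (absolute convergence for Re s > 1, |p^(-s)| = p^(-Re s)). -/
theorem Rz_facts : (∀ x : ℝ, 1 < x → 0 ≤ R (x : ℂ)) ∧ (∀ s : ℂ, 1 < s.re → |R s| ≤ R (s.re : ℂ)) ∧
    (∀ (z : ℕ) (s : ℂ), 1 < s.re → |Rz z s| ≤ R (s.re : ℂ)) ∧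
    (∀ s : ℂ, 1 < s.re → Tendsto (fun z : ℕ => Rz z s) atTop (𝓝 (R s))) ∧
    ContinuousOn R {s : ℂ | 1 < s.re} := by
  refine ⟨fun x _ => ?_, fun s hs => ?_, fun z s hs => ?_, fun s hs => ?_, ?_⟩
  · rw [P03_R]
    exact tsum_nonneg fun p => by positivity
  · rw [P03_R]
    have h1 : ‖∑' p : Nat.Primes, ((((p : ℕ) : ℂ)) ^ (-s)).re‖ ≤
        ∑' p : Nat.Primes, ((p : ℕ) : ℝ) ^ (-s.re) :=
      tsum_of_norm_bounded (P03_sum hs).hasSum (fun p => P03_norm p s)
    exact h1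
  · rw [P03_R]
    unfold Rz
    rw [← P03_fin_sum z (fun p => ((p : ℂ) ^ (-s)).re)]
    calc |∑ p ∈ P03_fin z, (((p : ℕ) : ℂ) ^ (-s)).re|
        ≤ ∑ p ∈ P03_fin z, |(((p : ℕ) : ℂ) ^ (-s)).re| := Finset.abs_sum_le_sum_abs _ _
      _ ≤ ∑ p ∈ P03_fin z, ((p : ℕ) : ℝ) ^ (-s.re) :=
          Finset.sum_le_sum fun p _ => P03_norm p s
      _ ≤ _ := (P03_sum hs).sum_le_tsum _ (fun p _ => by positivity)
  · have h1 := (P03_summable hs).hasSum.comp P03_fin_tendsto
    refine h1.congr fun z => ?_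
    exact P03_fin_sum z (fun p => ((p : ℂ) ^ (-s)).re)
  · intro s hs
    have hs' : 1 < s.re := hs
    refine ContinuousAt.continuousWithinAt ?_
    set x : ℝ := (1 + s.re) / 2 with hx
    have hx1 : 1 < x := by rw [hx]; linarith
    have hxs : x < s.re := by rw [hx]; linarith
    have hopen : IsOpen {w : ℂ | x < w.re} := isOpen_lt continuous_const continuous_re
    have hc : ContinuousOn R {w : ℂ | x < w.re} := by
      unfold R
      refine continuousOn_tsum (fun p => ?_) (P03_sum hx1) (fun p w hw => ?_)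
      · refine Continuous.continuousOn ?_
        refine continuous_re.comp ?_
        exact continuous_const.cpow continuous_neg (fun w => Or.inl (by
          rw [natCast_re]
          exact_mod_cast p.2.pos))
      · have hw' : x < w.re := hw
        refine (P03_norm p w).trans ?_
        exact Real.rpow_le_rpow_of_exponent_le (by exact_mod_cast p.2.one_lt.le) (by linarith)
    exact hc.continuousAt (hopen.mem_nhds hxs)

end LZ
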