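import Pool.Agent.Lib.MP_0f5a55_nt.D0
import Pool.Agent.Lib.MP_0f5a55_nt.P01
import Pool.Agent.Lib.MP_0f5a55_nt.P02
import Pool.Agent.Lib.MP_0f5a55_nt.P03

open Complex MeasureTheory Set Filter Topology
open scoped ComplexConjugate

namespace LZ

/-- (1.2) from R_log, zeta_one, Rz_facts (|R(1+w)| <= R(1+Re w)). -/
theorem R_exp : ∃ C : ℝ, 0 < C ∧ ∀ w : ℂ, 0 < w.re → w.re ≤ 1 →
    Real.exp (R (1 + w)) ≤ C / w.re ∧ Real.exp (-R (1 + w)) ≤ C / w.re ∧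
    Real.exp (R ((1 + w.re : ℝ) : ℂ)) ≤ C / w.re ∧
    (‖w‖ ≤ 1 → Real.exp (R (1 + w)) ≤ C / ‖w‖ ∧ Real.exp (-R (1 + w)) ≤ C * ‖w‖) := by
  obtain ⟨C0, hC0, h0⟩ := R_log
  obtain ⟨C1, hC1, h1⟩ := zeta_one
  obtain ⟨-, hR, -, -, -⟩ := Rz_facts
  -- basic estimate in the disc
  have key : ∀ w : ℂ, 0 < w.re → ‖w‖ ≤ 1 →
      Real.exp (R (1 + w)) ≤ Real.exp C0 * C1 / ‖w‖ ∧ Real.exp (-R (1 + w)) ≤ Real.exp C0 * C1 * ‖w‖ := by
    intro w hw hw1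
    have hs : 1 < (1 + w).re := by simp; exact hw
    have hz : 0 < ‖riemannZeta (1 + w)‖ :=
      norm_pos_iff.2 (riemannZeta_ne_zero_of_one_le_re hs.le)
    have h2 := abs_le.1 (h0 (1 + w) hs)
    obtain ⟨h3, h4⟩ := h1 w hw hw1
    constructor
    · calc Real.exp (R (1 + w)) ≤ Real.exp (C0 + Real.log ‖riemannZeta (1 + w)‖) :=
            Real.exp_le_exp.2 (by linarith [h2.2])
        _ = Real.exp C0 * ‖riemannZeta (1 + w)‖ := by rw [Real.exp_add, Real.exp_log hz]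
        _ ≤ Real.exp C0 * (C1 / ‖w‖) := by gcongr
        _ = _ := by ring
    · calc Real.exp (-R (1 + w)) ≤ Real.exp (C0 + -Real.log ‖riemannZeta (1 + w)‖) :=
            Real.exp_le_exp.2 (by linarith [h2.1])
        _ = Real.exp C0 * ‖riemannZeta (1 + w)‖⁻¹ := by
            rw [Real.exp_add, Real.exp_neg, Real.exp_log hz]
        _ ≤ Real.exp C0 * (C1 * ‖w‖) := by gcongr
        _ = _ := by ring
  refine ⟨Real.exp C0 * C1, by positivity, ?_⟩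
  intro w hw hw1
  have hs : 1 < (1 + w).re := by simp; exact hw
  have e1 : (((1 + w).re : ℝ) : ℂ) = 1 + ((w.re : ℝ) : ℂ) := by simp
  have hn : ‖((w.re : ℝ) : ℂ)‖ = w.re := by rw [norm_real, Real.norm_eq_abs, abs_of_pos hw]
  have h5 := (key ((w.re : ℝ) : ℂ) (by simpa using hw) (by rw [hn]; exact hw1)).1
  rw [hn] at h5
  have h6 := hR (1 + w) hs
  rw [e1] at h6
  have h7 := abs_le.1 h6
  refine ⟨?_, ?_, ?_, fun h => key w hw h⟩
  · exact (Real.exp_le_exp.2 h7.2).trans h5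
  · exact (Real.exp_le_exp.2 (by linarith [h7.1])).trans h5
  · have e2 : ((1 + w.re : ℝ) : ℂ) = 1 + ((w.re : ℝ) : ℂ) := by push_cast; ring
    rw [e2]
    exact h5

end LZ
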