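import Pool.Agent.Lib.MP_0f5a55_nt.D0
import Pool.Agent.Lib.MP_0f5a55_nt.P04

open Complex MeasureTheory Set Filter Topology
open scoped ComplexConjugate

namespace LZ

/-- (1.4). w = eta+(1+iu)/l. If |w|<=1 use R_exp: C|w| <= C(l|eta|+1+|u|)/l. If |w|>1 then l <= 2(1+|u|) and
exp(-R) <= C/Re w <= 2Cl. -/
theorem R_neg : ∃ C l0 : ℝ, 0 < C ∧ 1 ≤ l0 ∧ ∀ l : ℝ, l0 ≤ l → ∀ η : ℂ, |η.re| ≤ 1 / (8 * l) → ‖η‖ ≤ 1/4 →
    ∀ u : ℝ, Real.exp (-R (1 + η + (1 + u * I) / l)) ≤ C * (1 + l * ‖η‖) * (1 + |u|) ^ 2 / l := by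
  obtain ⟨C, hC, hR⟩ := R_exp
  refine ⟨3 * C, 2, by positivity, by norm_num, fun l hl η hη1 hη2 u => ?_⟩
  have hl0 : 0 < l := by linarith
  set w : ℂ := η + (1 + u * I) / l with hw
  have e1 : 1 + η + (1 + u * I) / l = 1 + w := by rw [hw]; ring
  rw [e1]
  have hre : w.re = η.re + 1 / l := by
    rw [hw, add_re]
    congr 1
    rw [div_ofReal_re]
    simp
  have h8 : 1 / (8 * l) = (1 / l) / 8 := by field_simp
  rw [h8] at hη1
  have hη1' := abs_le.1 hη1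
  have hinv : 0 < 1 / l := by positivity
  have hinv2 : 1 / l ≤ 1 / 2 := one_div_le_one_div_of_le (by norm_num) hl
  have hwpos : 7 / 8 * (1 / l) ≤ w.re := by rw [hre]; linarith
  have hwpos' : 0 < w.re := lt_of_lt_of_le (by positivity) hwpos
  have hw1 : w.re ≤ 1 := by rw [hre]; linarith
  obtain ⟨-, h2, -, h4⟩ := hR w hwpos' hw1
  have hnum : ‖(1 + u * I : ℂ)‖ ≤ 1 + |u| := by
    refine (norm_add_le _ _).trans ?_
    simp
  have hdiv : ‖(1 + u * I : ℂ) / l‖ ≤ (1 + |u|) / l := by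
    rw [norm_div, Complex.norm_real, Real.norm_eq_abs, abs_of_pos hl0]
    gcongr
  have hwn : ‖w‖ ≤ ‖η‖ + (1 + |u|) / l := (norm_add_le _ _).trans (by gcongr)
  have hu : 0 ≤ |u| := abs_nonneg u
  have hη0 : 0 ≤ ‖η‖ := norm_nonneg η
  rcases le_or_gt ‖w‖ 1 with h | h
  · obtain ⟨-, h5⟩ := h4 h
    refine h5.trans ?_
    have h6 : C * ‖w‖ ≤ C * (‖η‖ + (1 + |u|) / l) := by gcongr
    refine h6.trans ?_
    rw [le_div_iff₀ hl0]
    have e2 : C * (‖η‖ + (1 + |u|) / l) * l = C * (l * ‖η‖ + (1 + |u|)) := by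
      field_simp
    rw [e2]
    have h7 : l * ‖η‖ + (1 + |u|) ≤ 3 * ((1 + l * ‖η‖) * (1 + |u|) ^ 2) := by
      have h8 : 0 ≤ l * ‖η‖ := by positivity
      nlinarith [mul_nonneg h8 hu, mul_nonneg h8 (mul_nonneg hu hu), mul_nonneg hu hu]
    calc C * (l * ‖η‖ + (1 + |u|)) ≤ C * (3 * ((1 + l * ‖η‖) * (1 + |u|) ^ 2)) := by gcongr
      _ = 3 * C * (1 + l * ‖η‖) * (1 + |u|) ^ 2 := by ring
  · have h5 : l < 4 / 3 * (1 + |u|) := by
      have h6 : 3 / 4 < (1 + |u|) / l := by linarith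
      rw [lt_div_iff₀ hl0] at h6
      linarith
    have h6 : C / w.re ≤ C * (8 / 7 * l) := by
      rw [div_le_iff₀ hwpos']
      have h7 : 1 ≤ 8 / 7 * l * w.re := by
        have h8 : 8 / 7 * l * (7 / 8 * (1 / l)) ≤ 8 / 7 * l * w.re := by gcongr
        have h9 : 8 / 7 * l * (7 / 8 * (1 / l)) = 1 := by field_simp
        linarith
      calc C = C * 1 := by ring
        _ ≤ C * (8 / 7 * l * w.re) := by gcongr
        _ = C * (8 / 7 * l) * w.re := by ring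
    refine h2.trans (h6.trans ?_)
    rw [le_div_iff₀ hl0]
    have h7 : l * l ≤ (4 / 3 * (1 + |u|)) * (4 / 3 * (1 + |u|)) :=
      mul_le_mul h5.le h5.le hl0.le (by positivity)
    have h8 : (1 + |u|) ^ 2 ≤ (1 + l * ‖η‖) * (1 + |u|) ^ 2 := by
      have : 0 ≤ l * ‖η‖ * (1 + |u|) ^ 2 := by positivity
      linarith
    calc C * (8 / 7 * l) * l = C * (8 / 7 * (l * l)) := by ring
      _ ≤ C * (8 / 7 * ((4 / 3 * (1 + |u|)) * (4 / 3 * (1 + |u|)))) := by gcongr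
      _ = C * (128 / 63 * (1 + |u|) ^ 2) := by ring
      _ ≤ C * (3 * (1 + |u|) ^ 2) := by
          have : 0 ≤ (1 + |u|) ^ 2 := by positivity
          gcongr
          linarith
      _ ≤ C * (3 * ((1 + l * ‖η‖) * (1 + |u|) ^ 2)) := by gcongr
      _ = 3 * C * (1 + l * ‖η‖) * (1 + |u|) ^ 2 := by ring

end LZ
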