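import Pool.Agent.Lib.MP_0f5a55_nt.D0
import Pool.Agent.Lib.MP_0f5a55_nt.P04

open Complex MeasureTheory Set Filter Topology
open scoped ComplexConjugate

namespace LZ

/-- (1.5). w = eta+(2+iv)/l, Re w >= 1/l. If |w|<=1: R_exp and 1+l|eta| <= 4(1+|v|) l|w|. If |w|>1: exp R <= Cl,
l <= 2(2+|v|), 1+l|eta| <= C(1+|v|). -/
theorem R_pos : ∃ C l0 : ℝ, 0 < C ∧ 1 ≤ l0 ∧ ∀ l : ℝ, l0 ≤ l → ∀ η : ℂ, |η.re| ≤ 1 / l → ‖η‖ ≤ 1/4 →
    ∀ v : ℝ, Real.exp (R (1 + η + (2 + v * I) / l)) ≤ C * l * (1 + |v|) / (1 + l * ‖η‖) := by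
  obtain ⟨C, hC, hR⟩ := R_exp
  refine ⟨4 * C, 3, by linarith, by norm_num, ?_⟩
  intro l hl η hη hη4 v
  have hl0 : 0 < l := by linarith
  have hlc : (l : ℂ) ≠ 0 := by exact_mod_cast hl0.ne'
  set w : ℂ := η + (2 + v * I) / l with hw
  have e1 : 1 + η + (2 + v * I) / l = 1 + w := by rw [hw, add_assoc]
  have hre : w.re = η.re + 2 / l := by
    rw [hw, Complex.add_re, Complex.div_ofReal_re]
    simp
  have hη1 := abs_le.1 hη
  have hw1 : 1 / l ≤ w.re := by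
    rw [hre]
    have : 2 / l = 1 / l + 1 / l := by ring
    linarith [hη1.1]
  have hl1 : 0 < 1 / l := by positivity
  have hw3 : w.re ≤ 1 := by
    rw [hre]
    have h1 : η.re + 2 / l ≤ 3 / l := by
      have : 3 / l = 1 / l + 2 / l := by ring
      linarith [hη1.2]
    have h2 : 3 / l ≤ 1 := by rw [div_le_one hl0]; exact hl
    linarith
  have hw0 : 0 < w.re := by linarith
  have hlw : 1 ≤ l * w.re := by
    have := mul_le_mul_of_nonneg_left hw1 hl0.le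
    rwa [mul_one_div_cancel hl0.ne'] at this
  obtain ⟨h1, _, _, h4⟩ := hR w hw0 hw3
  have hnorm2 : ‖(2 + v * I : ℂ)‖ ≤ 2 + |v| := by
    refine (norm_add_le _ _).trans ?_
    simp
  have hv : 0 ≤ |v| := abs_nonneg v
  have hηn : 0 ≤ ‖η‖ := norm_nonneg _
  have hden : 0 < 1 + l * ‖η‖ := by positivity
  rw [e1]
  rcases le_or_gt ‖w‖ 1 with h | h
  · refine (h4 h).1.trans ?_
    have hwn : w.re ≤ ‖w‖ := Complex.re_le_norm w
    have hwp : 0 < ‖w‖ := hw0.trans_le hwn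
    have h5 : 1 ≤ l * ‖w‖ := hlw.trans (mul_le_mul_of_nonneg_left hwn hl0.le)
    have h6 : l * ‖η‖ ≤ l * ‖w‖ + (2 + |v|) := by
      have h7 : (l : ℂ) * η = l * w - (2 + v * I) := by
        rw [hw]
        field_simp
        ring
      have h8 : ‖(l : ℂ) * η‖ = l * ‖η‖ := by
        rw [norm_mul, Complex.norm_real, Real.norm_eq_abs, abs_of_pos hl0]
      have h9 : ‖(l : ℂ) * w‖ = l * ‖w‖ := by
        rw [norm_mul, Complex.norm_real, Real.norm_eq_abs, abs_of_pos hl0]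
      rw [← h8, ← h9, h7]
      exact (norm_sub_le _ _).trans (by linarith)
    rw [div_le_div_iff₀ hwp hden]
    have h10 : 1 + l * ‖η‖ ≤ 4 * (1 + |v|) * (l * ‖w‖) := by nlinarith
    calc C * (1 + l * ‖η‖) ≤ C * (4 * (1 + |v|) * (l * ‖w‖)) := mul_le_mul_of_nonneg_left h10 hC.le
      _ = 4 * C * l * (1 + |v|) * ‖w‖ := by ring
  · refine h1.trans ?_
    have h5 : C / w.re ≤ C * l := by
      rw [div_le_iff₀ hw0]
      have : C * 1 ≤ C * (l * w.re) := mul_le_mul_of_nonneg_left hlw hC.le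
      linarith
    refine h5.trans ?_
    rw [le_div_iff₀ hden]
    have h6 : ‖w‖ ≤ 1 / 4 + (2 + |v|) / l := by
      rw [hw]
      refine (norm_add_le _ _).trans ?_
      rw [norm_div, Complex.norm_real, Real.norm_eq_abs, abs_of_pos hl0]
      have := div_le_div_of_nonneg_right hnorm2 hl0.le
      linarith
    have h7 : l * (3 / 4) ≤ 2 + |v| := by
      have h8 : 3 / 4 ≤ (2 + |v|) / l := by linarith
      rw [le_div_iff₀ hl0] at h8
      linarith
    have h9 : l * ‖η‖ ≤ l * (1 / 4) := mul_le_mul_of_nonneg_left hη4 hl0.le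
    have h10 : 1 + l * ‖η‖ ≤ 4 * (1 + |v|) := by linarith
    calc C * l * (1 + l * ‖η‖) ≤ C * l * (4 * (1 + |v|)) := mul_le_mul_of_nonneg_left h10 (by positivity)
      _ = 4 * C * l * (1 + |v|) := by ring

end LZ
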