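import Pool.Agent.Lib.MP_0f5a55_nt.D0

open Complex MeasureTheory Set Filter Topology
open scoped ComplexConjugate

namespace LZ

theorem Q05_ne (u : ℝ) : (1 + (u : ℂ) * I) ≠ 0 := by
  intro h
  have := congrArg Complex.re h
  simp at this

theorem Q05_norm (u : ℝ) : ‖(1 + (u : ℂ) * I) ^ 22‖ = (1 + u ^ 2) ^ 11 := by
  have h1 : ‖(1 + (u : ℂ) * I)‖ ^ 2 = 1 + u ^ 2 := by
    rw [← Complex.normSq_eq_norm_sq, Complex.normSq_apply]
    simp
    ring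
  rw [norm_pow]
  calc ‖(1 + (u : ℂ) * I)‖ ^ 22 = (‖(1 + (u : ℂ) * I)‖ ^ 2) ^ 11 := by ring
    _ = _ := by rw [h1]

theorem kk_facts : Continuous kk ∧ Integrable (fun u : ℝ => ‖kk u‖ * (1 + |u|) ^ 16) := by
  have hcont : Continuous kk := by
    unfold kk
    apply Continuous.mul
    · fun_prop
    · apply Continuous.inv₀
      · fun_prop
      · intro u
        exact pow_ne_zero _ (Q05_ne u)
  refine ⟨hcont, ?_⟩
  set C : ℝ := ‖(Nat.factorial 21 : ℂ) / (2 * Real.pi)‖ * Real.exp 1 with hC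
  have hkn : ∀ u : ℝ, ‖kk u‖ = C * ((1 + u ^ 2) ^ 11)⁻¹ := by
    intro u
    unfold kk
    rw [norm_mul, norm_mul, norm_inv, Q05_norm, Complex.norm_exp, hC]
    congr 3
    simp
  have hI := integrable_inv_one_add_sq.const_mul (C * 2 ^ 8)
  apply hI.mono'
  · exact (hcont.norm.mul (by fun_prop)).aestronglyMeasurable
  · filter_upwards with u
    rw [Real.norm_eq_abs, abs_of_nonneg (by positivity), hkn]
    have hC0 : 0 ≤ C := by rw [hC]; positivity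
    have h0 : (0 : ℝ) < 1 + u ^ 2 := by positivity
    have h1 : (1 + |u|) ^ 2 ≤ 2 * (1 + u ^ 2) := by
      have := sq_abs u
      nlinarith [sq_nonneg (1 - |u|)]
    have h2 : (1 + |u|) ^ 16 ≤ (2 * (1 + u ^ 2)) ^ 8 := by
      calc (1 + |u|) ^ 16 = ((1 + |u|) ^ 2) ^ 8 := by ring
        _ ≤ _ := pow_le_pow_left₀ (by positivity) h1 8
    have h3 : ((1 + u ^ 2) ^ 11)⁻¹ * (2 * (1 + u ^ 2)) ^ 8 ≤ 2 ^ 8 * (1 + u ^ 2)⁻¹ := by
      have e : ((1 + u ^ 2) ^ 11)⁻¹ * (2 * (1 + u ^ 2)) ^ 8 = 2 ^ 8 * ((1 + u ^ 2) ^ 3)⁻¹ := by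
        rw [mul_pow]
        field_simp
      rw [e]
      apply mul_le_mul_of_nonneg_left _ (by norm_num)
      apply inv_anti₀ h0
      have h4 : 1 ≤ 1 + u ^ 2 := by nlinarith [sq_nonneg u]
      calc 1 + u ^ 2 = (1 + u ^ 2) ^ 1 := (pow_one _).symm
        _ ≤ _ := pow_le_pow_right₀ h4 (by norm_num)
    calc C * ((1 + u ^ 2) ^ 11)⁻¹ * (1 + |u|) ^ 16 = C * (((1 + u ^ 2) ^ 11)⁻¹ * (1 + |u|) ^ 16) := by
          ring
      _ ≤ C * (((1 + u ^ 2) ^ 11)⁻¹ * (2 * (1 + u ^ 2)) ^ 8) := by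
          apply mul_le_mul_of_nonneg_left _ hC0
          exact mul_le_mul_of_nonneg_left h2 (by positivity)
      _ ≤ C * (2 ^ 8 * (1 + u ^ 2)⁻¹) := mul_le_mul_of_nonneg_left h3 hC0
      _ = _ := by ring

end LZ
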