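import Pool.Agent.Lib.MP_0f5a55_nt.D0

open Complex MeasureTheory Set Filter Topology
open scoped ComplexConjugate

namespace LZ

/-- |1+z| <= exp(Re z + |z|^2/2) -/
theorem Q02_one_add (z : ℂ) : ‖1 + z‖ ≤ Real.exp (z.re + ‖z‖ ^ 2 / 2) := by
  have h1 : ‖1 + z‖ ^ 2 = 1 + (2 * z.re + ‖z‖ ^ 2) := by
    rw [← normSq_eq_norm_sq, ← normSq_eq_norm_sq, normSq_apply, normSq_apply]
    simp only [add_re, one_re, add_im, one_im]
    ring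
  have h2 : 1 + (2 * z.re + ‖z‖ ^ 2) ≤ Real.exp (2 * z.re + ‖z‖ ^ 2) := by
    have := Real.add_one_le_exp (2 * z.re + ‖z‖ ^ 2)
    linarith
  have h3 : Real.exp (2 * z.re + ‖z‖ ^ 2) = Real.exp (z.re + ‖z‖ ^ 2 / 2) ^ 2 := by
    rw [← Real.exp_nat_mul]
    congr 1
    push_cast
    ring
  rw [← h1, h3] at h2
  exact le_of_sq_le_sq h2 (Real.exp_pos _).le

theorem Q02_alg (x : Fin 4 → ℂ) (c : ℂ) (q : ℝ) (hq0 : 0 ≤ q) (hq1 : q ≤ 1) (hx : ∀ j, ‖x j‖ ≤ q)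
    (h02 : ‖c * x 0 * x 2‖ ≤ q) (h03 : ‖c * x 0 * x 3‖ ≤ q) (h12 : ‖c * x 1 * x 2‖ ≤ q)
    (h13 : ‖c * x 1 * x 3‖ ≤ q) :
    ‖EP x c‖ ≤ Real.exp ((x 0 + x 1 + x 2 + x 3 +
      (c * x 0 * x 2 + c * x 0 * x 3 + c * x 1 * x 2 + c * x 1 * x 3)).re + 120 * q ^ 2) := by
  set L := x 0 + x 1 + x 2 + x 3 +
      (c * x 0 * x 2 + c * x 0 * x 3 + c * x 1 * x 2 + c * x 1 * x 3) with hLd
  set E := x 0 * x 1 + x 2 * x 3 + (c * x 0 * x 2) * x 3 + (c * x 1 * x 2) * x 3 +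
      (c * x 0 * x 2) * x 1 + (c * x 0 * x 3) * x 1 + (c * x 0 * x 2) * (c * x 1 * x 3) with hEd
  have hEP : EP x c = 1 + (L + E) := by
    rw [hLd, hEd]
    unfold EP
    ring
  have pr : ∀ a b : ℂ, ‖a‖ ≤ q → ‖b‖ ≤ q → ‖a * b‖ ≤ q ^ 2 := by
    intro a b ha hb
    rw [norm_mul, sq]
    exact mul_le_mul ha hb (norm_nonneg _) hq0
  have hE : ‖E‖ ≤ 7 * q ^ 2 := by
    have := norm_add_le_of_le (norm_add_le_of_le (norm_add_le_of_le (norm_add_le_of_le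
      (norm_add_le_of_le (norm_add_le_of_le (pr _ _ (hx 0) (hx 1)) (pr _ _ (hx 2) (hx 3)))
      (pr _ _ h02 (hx 3))) (pr _ _ h12 (hx 3))) (pr _ _ h02 (hx 1))) (pr _ _ h03 (hx 1)))
      (pr _ _ h02 h13)
    linarith
  have hL : ‖L‖ ≤ 8 * q := by
    have := norm_add_le_of_le (norm_add_le_of_le (norm_add_le_of_le (norm_add_le_of_le
      (hx 0) (hx 1)) (hx 2)) (hx 3)) (norm_add_le_of_le (norm_add_le_of_le (norm_add_le_of_le
      h02 h03) h12) h13)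
    linarith
  have hq2 : q ^ 2 ≤ q := by nlinarith
  have hz : ‖L + E‖ ≤ 15 * q := (norm_add_le _ _).trans (by linarith)
  have hz2 : ‖L + E‖ ^ 2 ≤ 225 * q ^ 2 := by
    have := pow_le_pow_left₀ (norm_nonneg _) hz 2
    linarith
  have hre : (L + E).re ≤ L.re + 7 * q ^ 2 := by
    rw [add_re]
    have := (abs_le.1 (abs_re_le_norm E)).2
    linarith
  rw [hEP]
  refine (Q02_one_add _).trans (Real.exp_le_exp.2 ?_)
  have : (0:ℝ) ≤ q ^ 2 := sq_nonneg q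
  linarith

/-- (2.2). All terms of EP - 1 other than the four x_j and the four c x_i x_j (i in 0,1, j in 2,3) are
O(p^(-15/8)); |1+z| <= exp(Re z + |z|^2/2). -/
theorem EP_bound : ∃ K : ℝ, 0 ≤ K ∧ ∀ p : ℕ, p.Prime → ∀ lam : Fin 4 → ℝ, (∀ j, 0 ≤ lam j ∧ lam j ≤ 1) →
    ∀ (A : Fin 4 → ℂ) (C : ℂ), (∀ j, 15/16 ≤ (A j).re) →
      15/16 ≤ (A 0 + A 2 - C).re → 15/16 ≤ (A 0 + A 3 - C).re → 15/16 ≤ (A 1 + A 2 - C).re →
      15/16 ≤ (A 1 + A 3 - C).re →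
      ‖EP (fun j => -(lam j : ℂ) * (p : ℂ) ^ (-(A j))) ((p : ℂ) ^ C)‖ ≤
        Real.exp (SR (fun s => ((p : ℂ) ^ (-s)).re) lam A C + K * (p : ℝ) ^ (-(15/8) : ℝ)) := by
  refine ⟨120, by norm_num, ?_⟩
  intro p hp lam hlam A C hA h02 h03 h12 h13
  have hpR : (0:ℝ) < p := by exact_mod_cast hp.pos
  have hp1 : (1:ℝ) ≤ p := by exact_mod_cast hp.one_lt.le
  have hp0 : (p : ℂ) ≠ 0 := by exact_mod_cast hp.ne_zero
  set q : ℝ := (p : ℝ) ^ (-(15/16) : ℝ) with hq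
  have hq0 : 0 ≤ q := Real.rpow_nonneg hpR.le _
  have hq1 : q ≤ 1 := Real.rpow_le_one_of_one_le_of_nonpos hp1 (by norm_num)
  have hq2 : (p : ℝ) ^ (-(15/8) : ℝ) = q ^ 2 := by
    rw [hq, ← Real.rpow_natCast, ← Real.rpow_mul hpR.le]
    norm_num
  have hnorm : ∀ s : ℂ, 15/16 ≤ s.re → ‖(p : ℂ) ^ (-s)‖ ≤ q := by
    intro s hs
    have : (p : ℂ) = ((p : ℝ) : ℂ) := by simp
    rw [this, norm_cpow_eq_rpow_re_of_pos hpR, neg_re]
    exact Real.rpow_le_rpow_of_exponent_le hp1 (by linarith)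
  have hx : ∀ j, ‖-(lam j : ℂ) * (p : ℂ) ^ (-(A j))‖ ≤ q := by
    intro j
    rw [norm_mul, norm_neg, norm_real, Real.norm_eq_abs, abs_of_nonneg (hlam j).1]
    calc lam j * ‖(p : ℂ) ^ (-(A j))‖ ≤ 1 * q :=
          mul_le_mul (hlam j).2 (hnorm _ (hA j)) (norm_nonneg _) zero_le_one
      _ = q := one_mul _
  have hpair : ∀ i j, (p : ℂ) ^ C * (-(lam i : ℂ) * (p : ℂ) ^ (-(A i))) *
      (-(lam j : ℂ) * (p : ℂ) ^ (-(A j))) =
      ((lam i * lam j : ℝ) : ℂ) * (p : ℂ) ^ (-(A i + A j - C)) := by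
    intro i j
    have : -(A i + A j - C) = C + -(A i) + -(A j) := by ring
    rw [this, cpow_add _ _ hp0, cpow_add _ _ hp0]
    push_cast
    ring
  have hpn : ∀ i j, 15/16 ≤ (A i + A j - C).re →
      ‖(p : ℂ) ^ C * (-(lam i : ℂ) * (p : ℂ) ^ (-(A i))) * (-(lam j : ℂ) * (p : ℂ) ^ (-(A j)))‖ ≤ q := by
    intro i j hij
    rw [hpair, norm_mul, norm_real, Real.norm_eq_abs,
      abs_of_nonneg (mul_nonneg (hlam i).1 (hlam j).1)]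
    calc lam i * lam j * ‖(p : ℂ) ^ (-(A i + A j - C))‖ ≤ 1 * q :=
          mul_le_mul (mul_le_one₀ (hlam i).2 (hlam j).1 (hlam j).2) (hnorm _ hij)
            (norm_nonneg _) zero_le_one
      _ = q := one_mul _
  have key := Q02_alg (fun j => -(lam j : ℂ) * (p : ℂ) ^ (-(A j))) ((p : ℂ) ^ C) q hq0 hq1 hx
    (hpn 0 2 h02) (hpn 0 3 h03) (hpn 1 2 h12) (hpn 1 3 h13)
  refine key.trans (le_of_eq ?_)
  rw [hq2]
  congr 2
  rw [hpair, hpair, hpair, hpair]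
  unfold SR
  rw [Fin.sum_univ_four]
  simp only [add_re, re_ofReal_mul, neg_mul, neg_re]
  ring

end LZ
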