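import Pool.Agent.Lib.MP_0f5a55_nt.D0
import Pool.Agent.Lib.MP_0f5a55_nt.Q02

open Complex MeasureTheory Set Filter Topology
open scoped ComplexConjugate

namespace LZ

theorem Q03_SR_sum (z : ℕ) (lam : Fin 4 → ℝ) (A : Fin 4 → ℂ) (C : ℂ) :
    ∑ p ∈ PP z, SR (fun s => ((p : ℂ) ^ (-s)).re) lam A C = SR (Rz z) lam A C := by
  unfold SR Rz
  simp only [Finset.sum_add_distrib, Finset.sum_neg_distrib, Finset.mul_sum]
  rw [Finset.sum_comm]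

/-- product of (2.2) over p <= z; sum over p of p^(-15/8) converges; SR is linear in its first argument. -/
theorem prod_bound : ∃ K : ℝ, 0 < K ∧ ∀ (z : ℕ) (lam : Fin 4 → ℝ), (∀ j, 0 ≤ lam j ∧ lam j ≤ 1) →
    ∀ (A : Fin 4 → ℂ) (C : ℂ), (∀ j, 15/16 ≤ (A j).re) →
      15/16 ≤ (A 0 + A 2 - C).re → 15/16 ≤ (A 0 + A 3 - C).re → 15/16 ≤ (A 1 + A 2 - C).re →
      15/16 ≤ (A 1 + A 3 - C).re →
      ‖∏ p ∈ PP z, EP (fun j => -(lam j : ℂ) * (p : ℂ) ^ (-(A j))) ((p : ℂ) ^ C)‖ ≤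
        K * Real.exp (SR (Rz z) lam A C) := by
  obtain ⟨K, hK, h⟩ := EP_bound
  have hsum : Summable (fun n : ℕ => (n : ℝ) ^ (-(15/8) : ℝ)) :=
    Real.summable_nat_rpow.mpr (by norm_num)
  refine ⟨Real.exp (K * ∑' n : ℕ, (n : ℝ) ^ (-(15/8) : ℝ)), Real.exp_pos _, ?_⟩
  intro z lam hlam A C hA h1 h2 h3 h4
  rw [norm_prod]
  have hb : ∀ p ∈ PP z, ‖EP (fun j => -(lam j : ℂ) * (p : ℂ) ^ (-(A j))) ((p : ℂ) ^ C)‖ ≤
      Real.exp (SR (fun s => ((p : ℂ) ^ (-s)).re) lam A C + K * (p : ℝ) ^ (-(15/8) : ℝ)) := by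
    intro p hp
    unfold PP at hp
    rw [Finset.mem_filter] at hp
    exact h p hp.2 lam hlam A C hA h1 h2 h3 h4
  refine (Finset.prod_le_prod (fun p _ => norm_nonneg _) hb).trans ?_
  rw [← Real.exp_sum, Finset.sum_add_distrib, Q03_SR_sum, ← Finset.mul_sum, ← Real.exp_add]
  apply Real.exp_le_exp.mpr
  have h5 : ∑ p ∈ PP z, (p : ℝ) ^ (-(15/8) : ℝ) ≤ ∑' n : ℕ, (n : ℝ) ^ (-(15/8) : ℝ) :=
    hsum.sum_le_tsum _ (fun n _ => Real.rpow_nonneg (Nat.cast_nonneg n) _)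
  have h6 := mul_le_mul_of_nonneg_left h5 hK
  linarith

end LZ
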