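import Pool.Agent.Lib.MP_0f5a55_nt.D0
import Pool.Agent.Lib.MP_0f5a55_nt.X0

open Complex MeasureTheory Set Filter Topology
open scoped ComplexConjugate FourierTransform

namespace LZ

/-- the function `t^21 exp(-t)` on `t > 0` -/
noncomputable def Q04_g (t : ℝ) : ℂ := (((max 0 t) ^ 21 * Real.exp (-t) : ℝ) : ℂ)

/-- its transform -/
noncomputable def Q04_h (u : ℝ) : ℂ := (Nat.factorial 21 : ℂ) * ((1 + (u : ℂ) * I) ^ 22)⁻¹

theorem Q04_g_cont : Continuous Q04_g := by
  unfold Q04_g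
  fun_prop

theorem Q04_g_ind : Q04_g = (Ioi (0 : ℝ)).indicator
    (fun x : ℝ => (x : ℂ) ^ ((22 : ℂ) - 1) * cexp (-(1 * x))) := by
  funext t
  by_cases ht : t ∈ Ioi (0 : ℝ)
  · rw [Set.indicator_of_mem ht]
    have ht0 : 0 < t := ht
    unfold Q04_g
    rw [max_eq_right ht0.le]
    have h1 : (22 : ℂ) - 1 = ((21 : ℕ) : ℂ) := by norm_num
    rw [h1, Complex.cpow_natCast]
    push_cast
    rw [one_mul]
  · rw [Set.indicator_of_notMem ht]
    have ht0 : t ≤ 0 := not_lt.1 ht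
    unfold Q04_g
    rw [max_eq_left ht0]
    simp

theorem Q04_g_int : Integrable Q04_g := by
  rw [Q04_g_ind, integrable_indicator_iff measurableSet_Ioi]
  have h := LZX.exp_int_intg (s := 22) (by norm_num) (W := 1) (by norm_num)
  exact h

theorem Q04_ne (u : ℝ) : (1 + (u : ℂ) * I) ≠ 0 := by
  intro h
  have := congrArg Complex.re h
  simp at this

theorem Q04_h_cont : Continuous Q04_h := by
  unfold Q04_h
  apply Continuous.mul continuous_const
  apply Continuous.inv₀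
  · fun_prop
  · intro u
    exact pow_ne_zero _ (Q04_ne u)

theorem Q04_h_int : Integrable Q04_h := by
  have hI := integrable_inv_one_add_sq.const_mul ‖(Nat.factorial 21 : ℂ)‖
  apply hI.mono' Q04_h_cont.aestronglyMeasurable
  filter_upwards with u
  unfold Q04_h
  rw [norm_mul, norm_inv, norm_pow]
  apply mul_le_mul_of_nonneg_left _ (norm_nonneg _)
  have h1 : ‖(1 + (u : ℂ) * I)‖ ^ 2 = 1 + u ^ 2 := by
    rw [← Complex.normSq_eq_norm_sq, Complex.normSq_apply]
    simp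
    ring
  have h2 : (1 : ℝ) ≤ 1 + u ^ 2 := by nlinarith [sq_nonneg u]
  apply inv_anti₀ (by linarith)
  calc 1 + u ^ 2 = (1 + u ^ 2) ^ 1 := (pow_one _).symm
    _ ≤ (1 + u ^ 2) ^ 11 := pow_le_pow_right₀ h2 (by norm_num)
    _ = ‖(1 + (u : ℂ) * I)‖ ^ 22 := by rw [← h1]; ring

theorem Q04_fourier (w : ℝ) : 𝓕 Q04_g w = Q04_h (2 * Real.pi * w) := by
  rw [Real.fourier_real_eq_integral_exp_smul]
  have h1 : ∀ v : ℝ, cexp (((-2 * Real.pi * v * w : ℝ) : ℂ) * I) • Q04_g v =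
      (Ioi (0 : ℝ)).indicator (fun x : ℝ => (x : ℂ) ^ ((22 : ℂ) - 1) *
        cexp (-((1 + ((2 * Real.pi * w : ℝ) : ℂ) * I) * x))) v := by
    intro v
    rw [Q04_g_ind]
    by_cases hv : v ∈ Ioi (0 : ℝ)
    · rw [Set.indicator_of_mem hv, Set.indicator_of_mem hv, smul_eq_mul]
      have : cexp (-((1 + ((2 * Real.pi * w : ℝ) : ℂ) * I) * v)) =
          cexp (((-2 * Real.pi * v * w : ℝ) : ℂ) * I) * cexp (-(1 * (v : ℂ))) := by
        rw [← Complex.exp_add]
        congr 1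
        push_cast
        ring
      rw [this]; ring
    · rw [Set.indicator_of_notMem hv, Set.indicator_of_notMem hv, smul_zero]
  simp_rw [h1]
  rw [integral_indicator measurableSet_Ioi]
  rw [LZX.exp_int (s := 22) (by norm_num) (W := 1 + ((2 * Real.pi * w : ℝ) : ℂ) * I) (by simp)]
  unfold Q04_h
  have h2 : Gamma (22 : ℂ) = (Nat.factorial 21 : ℂ) := by
    have := Complex.Gamma_nat_eq_factorial 21
    rw [← this]
    congr 1
    norm_num
  have h3 : (1 + ((2 * Real.pi * w : ℝ) : ℂ) * I) ^ (-(22 : ℂ)) =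
      ((1 + ((2 * Real.pi * w : ℝ) : ℂ) * I) ^ 22)⁻¹ := by
    rw [Complex.cpow_neg]
    congr 1
    have : (22 : ℂ) = ((22 : ℕ) : ℂ) := by norm_num
    rw [this, Complex.cpow_natCast]
  rw [h2, h3]
  ring

theorem Q04_inv (X : ℝ) : Q04_g X = ((2 * Real.pi : ℝ) : ℂ)⁻¹ * ∫ u : ℝ, cexp ((u * X : ℝ) * I) * Q04_h u := by
  have hpi : (0 : ℝ) < 2 * Real.pi := Real.two_pi_pos
  have hF : 𝓕 Q04_g = fun w => Q04_h (2 * Real.pi * w) := funext Q04_fourier
  have hFi : Integrable (𝓕 Q04_g) := by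
    rw [hF]
    exact Q04_h_int.comp_mul_left' hpi.ne'
  have h1 := Q04_g_int.fourierInv_fourier_eq hFi (Q04_g_cont.continuousAt (x := X))
  rw [← h1, Real.fourierInv_eq_fourier_neg, Real.fourier_real_eq_integral_exp_smul, hF]
  have h2 : ∀ v : ℝ, cexp (((-2 * Real.pi * v * -X : ℝ) : ℂ) * I) • Q04_h (2 * Real.pi * v) =
      (fun u : ℝ => cexp ((u * X : ℝ) * I) * Q04_h u) (2 * Real.pi * v) := by
    intro v
    simp only [smul_eq_mul]
    congr 2
    push_cast
    ring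
  simp_rw [h2]
  rw [MeasureTheory.Measure.integral_comp_mul_left (fun u : ℝ => cexp ((u * X : ℝ) * I) * Q04_h u),
    abs_of_pos (inv_pos.2 hpi), Complex.real_smul]
  push_cast
  rfl

/-- (0.1): Fourier inversion for g(x) = x^21 exp(-x) on x>0, 0 on x<=0 (continuous, integrable, transform
21!/(1+iu)^22 integrable); with X = 1-x: wt x = integral kk(u) exp(-(1+iu)x) du, for every real x. -/
theorem wt_eq (x : ℝ) : (wt x : ℂ) = ∫ u : ℝ, kk u * exp (-((1 + u * I) * x)) := by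
  have h1 : ∀ u : ℝ, kk u * exp (-((1 + u * I) * x)) =
      cexp (((1 - x : ℝ) : ℂ)) * (((2 * Real.pi : ℝ) : ℂ)⁻¹ *
        (cexp ((u * (1 - x) : ℝ) * I) * Q04_h u)) := by
    intro u
    unfold kk Q04_h
    have h2 : cexp (1 + u * I) * cexp (-((1 + u * I) * x)) =
        cexp (((1 - x : ℝ) : ℂ)) * cexp ((u * (1 - x) : ℝ) * I) := by
      rw [← Complex.exp_add, ← Complex.exp_add]
      congr 1
      push_cast
      ring
    calc _ = (Nat.factorial 21 : ℂ) / (2 * Real.pi) * ((1 + u * I) ^ 22)⁻¹ *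
          (cexp (1 + u * I) * cexp (-((1 + u * I) * x))) := by ring
      _ = _ := by rw [h2]; push_cast; ring
  simp_rw [h1]
  rw [integral_const_mul, integral_const_mul, ← Q04_inv (1 - x)]
  unfold Q04_g wt
  rw [← Complex.ofReal_exp]
  rw [← Complex.ofReal_mul]
  congr 1
  rw [mul_left_comm, ← Real.exp_add]
  simp

end LZ
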