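import Pool.Agent.Lib.MP_0f5a55_nt.D0
import Pool.Agent.Lib.MP_0f5a55_nt.Q01
import Pool.Agent.Lib.MP_0f5a55_nt.Q04
import Pool.Agent.Lib.MP_0f5a55_nt.Q05

open Complex MeasureTheory Set Filter Topology
open scoped ComplexConjugate

namespace LZ

private theorem Q06_kk_int : Integrable kk := by
  obtain ⟨h1, h2⟩ := kk_facts
  refine h2.mono h1.aestronglyMeasurable (Eventually.of_forall fun u => ?_)
  rw [Real.norm_of_nonneg (by positivity)]
  have h3 : (1 : ℝ) ≤ (1 + |u|) ^ 16 := one_le_pow₀ (by linarith [abs_nonneg u])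
  nlinarith [norm_nonneg (kk u)]

private theorem Q06_phi_int (n : ℕ) (hn : 0 < n) (l : ℝ) (e c : ℂ) :
    Integrable (fun u : ℝ => c * (kk u * (n : ℂ) ^ (-(1 + e + (1 + u * I) / l)))) := by
  apply Integrable.const_mul
  have hn0 : (n : ℂ) ≠ 0 := by exact_mod_cast hn.ne'
  have hcont : Continuous (fun u : ℝ => (n : ℂ) ^ (-(1 + e + (1 + u * I) / l))) := by
    refine Continuous.const_cpow ?_ (Or.inl hn0)
    fun_prop
  refine Q06_kk_int.mul_bdd (c := (n : ℝ) ^ (-(1 + e.re + 1 / l))) hcont.aestronglyMeasurable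
    (Eventually.of_forall fun u => ?_)
  rw [Complex.norm_natCast_cpow_of_pos hn]
  apply le_of_eq
  congr 1
  have : ((1 + (u : ℂ) * I) / (l : ℂ)).re = 1 / l := by
    rw [Complex.div_ofReal_re]
    simp
  simp only [neg_re, add_re, one_re, this]

private theorem Q06_phi_val (n : ℕ) (hn : 0 < n) (l : ℝ) (e : ℂ) :
    (wt (Real.log n / l) : ℂ) * (n : ℂ) ^ (-1 - e) =
      ∫ u : ℝ, kk u * (n : ℂ) ^ (-(1 + e + (1 + u * I) / l)) := by
  have hn0 : (n : ℂ) ≠ 0 := by exact_mod_cast hn.ne'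
  rw [wt_eq, ← integral_mul_const]
  refine integral_congr_ae (Eventually.of_forall fun u => ?_)
  simp only
  rw [mul_assoc]
  congr 1
  rw [Complex.cpow_def_of_ne_zero hn0, Complex.cpow_def_of_ne_zero hn0, ← Complex.exp_add]
  congr 1
  have hlog : Complex.log (n : ℂ) = (Real.log n : ℂ) := (Complex.natCast_log).symm
  rw [hlog]
  push_cast
  ring

/-- Insert wt_eq (x = log n/l) for the four weights, exchange the finite sum with the integral over Fin 4 → ℝ
(product of four integrals: integral_fintype_prod_eq_prod) and use euler4. -/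
theorem QQ_integral (z : ℕ) (lam : Fin 4 → ℝ) (l : ℝ) (hl : 0 < l) (e : Fin 4 → ℂ) (e4 : ℂ) :
    QQ z lam l e e4 = ∫ u : Fin 4 → ℝ, (∏ j, kk (u j)) *
      ∏ p ∈ PP z, EP (fun j => -(lam j : ℂ) * (p : ℂ) ^ (-(Aex l e u j))) ((p : ℂ) ^ (1 + e4)) := by
  have hP : ∀ p ∈ PP z, p.Prime := fun p hp => (Finset.mem_filter.1 hp).2
  have hpos : ∀ S ∈ Fintype.piFinset (fun _ : Fin 4 => (PP z).powerset), ∀ j, 0 < nS (S j) := by
    intro S hS j
    have h1 := Fintype.mem_piFinset.1 hS j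
    rw [Finset.mem_powerset] at h1
    exact Finset.prod_pos fun p hp => (hP p (h1 hp)).pos
  set φ : (Fin 4 → Finset ℕ) → Fin 4 → ℝ → ℂ := fun S j u =>
    (((-(lam j)) ^ (S j).card : ℝ) : ℂ) *
      (kk u * (nS (S j) : ℂ) ^ (-(1 + e j + (1 + u * I) / l))) with hφ
  have hint : ∀ S ∈ Fintype.piFinset (fun _ : Fin 4 => (PP z).powerset), ∀ j,
      Integrable (φ S j) := fun S hS j => Q06_phi_int _ (hpos S hS j) l (e j) _
  have hval : ∀ S ∈ Fintype.piFinset (fun _ : Fin 4 => (PP z).powerset), ∀ j,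
      (cf (lam j) l (S j) : ℂ) * (nS (S j) : ℂ) ^ (-1 - e j) = ∫ u : ℝ, φ S j u := by
    intro S hS j
    rw [hφ]
    simp only
    rw [integral_const_mul, ← Q06_phi_val _ (hpos S hS j) l (e j)]
    unfold cf
    push_cast
    ring
  unfold QQ
  have h1 : ∀ S ∈ Fintype.piFinset (fun _ : Fin 4 => (PP z).powerset),
      (∏ j, (cf (lam j) l (S j) : ℂ) * (nS (S j) : ℂ) ^ (-1 - e j)) *
      ((Nat.gcd (nS (S 0) * nS (S 1)) (nS (S 2) * nS (S 3)) : ℕ) : ℂ) ^ (1 + e4) =
      ∫ u : Fin 4 → ℝ, (∏ j, φ S j (u j)) *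
        ((Nat.gcd (nS (S 0) * nS (S 1)) (nS (S 2) * nS (S 3)) : ℕ) : ℂ) ^ (1 + e4) := by
    intro S hS
    rw [integral_mul_const, integral_fintype_prod_volume_eq_prod (fun j u => φ S j u)]
    congr 1
    exact Finset.prod_congr rfl fun j _ => hval S hS j
  rw [Finset.sum_congr rfl h1, ← integral_finset_sum]
  · refine integral_congr_ae (Eventually.of_forall fun u => ?_)
    simp only
    rw [← euler4 (PP z) hP lam (Aex l e u) (1 + e4), Finset.mul_sum]
    refine Finset.sum_congr rfl fun S _ => ?_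
    rw [← mul_assoc, ← Finset.prod_mul_distrib]
    congr 1
    refine Finset.prod_congr rfl fun j _ => ?_
    rw [hφ]
    simp only [Aex]
    ring
  · intro S hS
    apply Integrable.mul_const
    exact Integrable.fintype_prod_dep (μ := fun _ => volume) (fun j => hint S hS j)

end LZ
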