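import Pool.Agent.Lib.MP_0f5a55_nt.D0

open Complex MeasureTheory Set Filter Topology
open scoped ComplexConjugate

namespace LZ

theorem Q07_cf (lam l : ℝ) (hl : 0 < l) (z : ℕ) (S : Finset ℕ) (hS : S ⊆ PP z)
    (p : ℕ) (hp : p ∈ S) (hpl : Real.exp l ≤ p) : cf lam l S = 0 := by
  have hpos : 0 < nS S := by
    unfold nS
    apply Finset.prod_pos
    intro q hq
    have := hS hq
    unfold PP at this
    rw [Finset.mem_filter] at this
    exact this.2.pos
  have h1 : p ≤ nS S := Nat.le_of_dvd hpos (Finset.dvd_prod_of_mem _ hp)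
  have h2 : Real.exp l ≤ nS S := hpl.trans (by exact_mod_cast h1)
  have h3 : l ≤ Real.log (nS S) := by
    rw [Real.le_log_iff_exp_le (by exact_mod_cast hpos)]
    exact h2
  have h4 : 1 ≤ Real.log (nS S) / l := by
    rw [le_div_iff₀ hl]
    linarith
  unfold cf wt
  rw [max_eq_left (by linarith)]
  simp

/-- the weight kills every S with nS S >= exp l, in particular every S containing a prime > exp l. -/
theorem QQ_stable (z : ℕ) (lam : Fin 4 → ℝ) (l : ℝ) (hl : 0 < l) (e : Fin 4 → ℂ) (e4 : ℂ)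
    (hz : ⌊Real.exp l⌋₊ ≤ z) : QQ z lam l e e4 = QQ ⌊Real.exp l⌋₊ lam l e e4 := by
  have hPP : PP ⌊Real.exp l⌋₊ ⊆ PP z := by
    intro p hp
    unfold PP at hp ⊢
    rw [Finset.mem_filter, Finset.mem_range] at hp ⊢
    exact ⟨by omega, hp.2⟩
  unfold QQ
  symm
  apply Finset.sum_subset
  · apply Fintype.piFinset_subset
    intro _
    exact Finset.powerset_mono.mpr hPP
  · intro S hS hnS
    rw [Fintype.mem_piFinset] at hS hnS
    push Not at hnS
    obtain ⟨j, hj⟩ := hnS
    have hSj := Finset.mem_powerset.mp (hS j)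
    rw [Finset.mem_powerset, Finset.not_subset] at hj
    obtain ⟨p, hp1, hp2⟩ := hj
    have hpz := hSj hp1
    have hpl : Real.exp l ≤ p := by
      by_contra h
      push Not at h
      apply hp2
      unfold PP at hpz ⊢
      rw [Finset.mem_filter, Finset.mem_range] at hpz ⊢
      exact ⟨Nat.lt_succ_of_le (Nat.le_floor h.le), hpz.2⟩
    have h0 := Q07_cf (lam j) l hl z (S j) hSj p hp1 hpl
    rw [Finset.prod_eq_zero (Finset.mem_univ j) (by rw [h0]; simp), zero_mul]

end LZ
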