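import Pool.Agent.Lib.MP_0f5a55_nt.D0
import Pool.Agent.Lib.MP_0f5a55_nt.Q03
import Pool.Agent.Lib.MP_0f5a55_nt.Q05
import Pool.Agent.Lib.MP_0f5a55_nt.Q06
import Pool.Agent.Lib.MP_0f5a55_nt.Q07
import Pool.Agent.Lib.MP_0f5a55_nt.P03
import Pool.Agent.Lib.MP_0f5a55_nt.P04

open Complex MeasureTheory Set Filter Topology
open scoped ComplexConjugate

namespace LZ

lemma Q08_Aex_re (l : ℝ) (e : Fin 4 → ℂ) (u : Fin 4 → ℝ) (j : Fin 4) :
    (Aex l e u j).re = 1 + (e j).re + 1 / l := by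
  simp [Aex, Complex.div_ofReal_re]

lemma Q08_kk_int : Integrable (fun u : ℝ => ‖kk u‖) := by
  obtain ⟨hc, hi⟩ := kk_facts
  refine hi.mono' hc.norm.aestronglyMeasurable (Eventually.of_forall fun u => ?_)
  rw [norm_norm]
  have h1 : (1:ℝ) ≤ (1 + |u|) ^ 16 := one_le_pow₀ (by linarith [abs_nonneg u])
  nlinarith [norm_nonneg (kk u)]

lemma Q08_prod_int : Integrable (fun u : Fin 4 → ℝ => ∏ j, ‖kk (u j)‖) :=
  Integrable.fintype_prod (f := fun _ : Fin 4 => fun u : ℝ => ‖kk u‖) (fun _ => Q08_kk_int)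

lemma Q08_SR_le (F : ℂ → ℝ) (G : ℂ → ℝ) (h : ∀ s : ℂ, 1 < s.re → |F s| ≤ G s)
    (lam : Fin 4 → ℝ) (hlam : ∀ j, 0 ≤ lam j ∧ lam j ≤ 1) (A : Fin 4 → ℂ) (C : ℂ)
    (hA : ∀ j, 1 < (A j).re) (h02 : 1 < (A 0 + A 2 - C).re) (h03 : 1 < (A 0 + A 3 - C).re)
    (h12 : 1 < (A 1 + A 2 - C).re) (h13 : 1 < (A 1 + A 3 - C).re) :
    SR F lam A C ≤ (∑ j, G (A j)) + (G (A 0 + A 2 - C) + G (A 0 + A 3 - C) + G (A 1 + A 2 - C)
      + G (A 1 + A 3 - C)) := by
  unfold SR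
  have key : ∀ (a : ℝ), 0 ≤ a → a ≤ 1 → ∀ s : ℂ, 1 < s.re → a * F s ≤ G s ∧ -(a * F s) ≤ G s := by
    intro a ha0 ha1 s hs
    have h1 := h s hs
    have h2 := abs_le.1 h1
    have h3 : |a * F s| ≤ G s := by
      rw [abs_mul, abs_of_nonneg ha0]
      calc a * |F s| ≤ 1 * |F s| := by gcongr
        _ ≤ G s := by rw [one_mul]; exact h1
    exact ⟨(le_abs_self _).trans h3, (neg_le_abs _).trans h3⟩
  have hs : -(∑ j, lam j * F (A j)) ≤ ∑ j, G (A j) := by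
    rw [← Finset.sum_neg_distrib]
    exact Finset.sum_le_sum fun j _ => (key _ (hlam j).1 (hlam j).2 _ (hA j)).2
  have hp : ∀ i j : Fin 4, 0 ≤ lam i * lam j ∧ lam i * lam j ≤ 1 := fun i j =>
    ⟨mul_nonneg (hlam i).1 (hlam j).1, mul_le_one₀ (hlam i).2 (hlam j).1 (hlam j).2⟩
  have e1 := (key _ (hp 0 2).1 (hp 0 2).2 _ h02).1
  have e2 := (key _ (hp 0 3).1 (hp 0 3).2 _ h03).1
  have e3 := (key _ (hp 1 2).1 (hp 1 2).2 _ h12).1
  have e4 := (key _ (hp 1 3).1 (hp 1 3).2 _ h13).1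
  linarith

lemma Q08_Aex_cont (l : ℝ) (e : Fin 4 → ℂ) (j : Fin 4) : Continuous (fun u : Fin 4 → ℝ => Aex l e u j) := by
  unfold Aex
  fun_prop

lemma Q08_SR_tendsto {F : ℕ → ℂ → ℝ} {G : ℂ → ℝ} (h : ∀ s : ℂ, 1 < s.re → Tendsto (fun n => F n s) atTop (𝓝 (G s)))
    (lam : Fin 4 → ℝ) (A : Fin 4 → ℂ) (C : ℂ)
    (hA : ∀ j, 1 < (A j).re) (h02 : 1 < (A 0 + A 2 - C).re) (h03 : 1 < (A 0 + A 3 - C).re)
    (h12 : 1 < (A 1 + A 2 - C).re) (h13 : 1 < (A 1 + A 3 - C).re) :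
    Tendsto (fun n => SR (F n) lam A C) atTop (𝓝 (SR G lam A C)) := by
  unfold SR
  refine Tendsto.add ?_ ?_
  · exact (tendsto_finsetSum _ fun j _ => (h _ (hA j)).const_mul _).neg
  · exact ((((h _ h02).const_mul _).add ((h _ h03).const_mul _)).add ((h _ h12).const_mul _)).add
      ((h _ h13).const_mul _)

/-- (2.3). For z >= exp l: QQ = integral; bound by prod_bound; let z go to infinity with dominated convergence
(Rz_facts; all exponents have Re >= 1+1/(2l), so exp(SR ..) <= C_l uniformly in u). -/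
theorem QQ_bound : ∃ K l0 : ℝ, 0 < K ∧ 1 ≤ l0 ∧ ∀ l : ℝ, l0 ≤ l → ∀ lam : Fin 4 → ℝ,
    (∀ j, 0 ≤ lam j ∧ lam j ≤ 1) → ∀ (e : Fin 4 → ℂ) (e4 : ℂ), (∀ j, |(e j).re| ≤ 1 / (8 * l)) →
    |e4.re| ≤ 1 / (8 * l) →
    Integrable (fun u : Fin 4 → ℝ => (∏ j, ‖kk (u j)‖) * Real.exp (SR R lam (Aex l e u) (1 + e4))) ∧
    ‖QQ ⌊Real.exp l⌋₊ lam l e e4‖ ≤
      K * ∫ u : Fin 4 → ℝ, (∏ j, ‖kk (u j)‖) * Real.exp (SR R lam (Aex l e u) (1 + e4)) := by
  obtain ⟨K, hK, hprod⟩ := prod_bound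
  obtain ⟨hR0, hRabs, hRz, hRt, hRc⟩ := Rz_facts
  refine ⟨K, 16, hK, by norm_num, ?_⟩
  intro l hl lam hlam e e4 he he4
  have hl0 : 0 < l := by linarith
  set δ := 1 / (8 * l) with hδ
  have hδpos : 0 < δ := by positivity
  have hδl : 1 / l = 8 * δ := by rw [hδ]; field_simp
  have hre : ∀ u : Fin 4 → ℝ, ∀ j, (Aex l e u j).re = 1 + (e j).re + 8 * δ := fun u j => by
    rw [Q08_Aex_re, hδl]
  have hA : ∀ u : Fin 4 → ℝ, ∀ j, 1 < (Aex l e u j).re := fun u j => by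
    rw [hre]; have := abs_le.1 (he j); linarith [this.1]
  have hP : ∀ u : Fin 4 → ℝ, ∀ i j, 1 < (Aex l e u i + Aex l e u j - (1 + e4)).re := fun u i j => by
    rw [sub_re, add_re, hre, hre, add_re, one_re]
    have h1 := abs_le.1 (he i); have h2 := abs_le.1 (he j); have h3 := abs_le.1 he4
    linarith [h1.1, h2.1, h3.2]
  -- the uniform bound
  set M : ℝ := (∑ j, R (((1 + (e j).re + 8 * δ : ℝ)) : ℂ)) + (R (((1 + (e 0).re + 8 * δ + (1 + (e 2).re + 8 * δ) - (1 + e4.re) : ℝ)) : ℂ)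
    + R (((1 + (e 0).re + 8 * δ + (1 + (e 3).re + 8 * δ) - (1 + e4.re) : ℝ)) : ℂ)
    + R (((1 + (e 1).re + 8 * δ + (1 + (e 2).re + 8 * δ) - (1 + e4.re) : ℝ)) : ℂ)
    + R (((1 + (e 1).re + 8 * δ + (1 + (e 3).re + 8 * δ) - (1 + e4.re) : ℝ)) : ℂ)) with hM
  have hMle : ∀ F : ℂ → ℝ, (∀ s : ℂ, 1 < s.re → |F s| ≤ R (s.re : ℂ)) → ∀ u : Fin 4 → ℝ,
      SR F lam (Aex l e u) (1 + e4) ≤ M := by
    intro F hF u
    refine (Q08_SR_le F (fun s => R (s.re : ℂ)) hF lam hlam _ _ (hA u) (hP u 0 2) (hP u 0 3) (hP u 1 2)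
      (hP u 1 3)).trans (le_of_eq ?_)
    simp only [hM, sub_re, add_re, one_re, hre]
  have hcontSR : Continuous (fun u : Fin 4 → ℝ => SR R lam (Aex l e u) (1 + e4)) := by
    have hc1 : ∀ j, Continuous (fun u : Fin 4 → ℝ => R (Aex l e u j)) := fun j =>
      hRc.comp_continuous (Q08_Aex_cont l e j) (fun u => hA u j)
    have hc2 : ∀ i j, Continuous (fun u : Fin 4 → ℝ => R (Aex l e u i + Aex l e u j - (1 + e4))) := fun i j =>
      hRc.comp_continuous (((Q08_Aex_cont l e i).add (Q08_Aex_cont l e j)).sub continuous_const) (fun u => hP u i j)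
    unfold SR
    refine Continuous.add ?_ ?_
    · exact (continuous_finsetSum _ fun j _ => continuous_const.mul (hc1 j)).neg
    · exact (((continuous_const.mul (hc2 0 2)).add (continuous_const.mul (hc2 0 3))).add
        (continuous_const.mul (hc2 1 2))).add (continuous_const.mul (hc2 1 3))
  have hkc : Continuous (fun u : Fin 4 → ℝ => ∏ j, ‖kk (u j)‖) :=
    continuous_finsetProd _ fun j _ => (kk_facts.1.comp (continuous_apply j)).norm
  have hdom : Integrable (fun u : Fin 4 → ℝ => (∏ j, ‖kk (u j)‖) * Real.exp M) := Q08_prod_int.mul_const _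
  have hpn : ∀ u : Fin 4 → ℝ, 0 ≤ ∏ j, ‖kk (u j)‖ := fun u => Finset.prod_nonneg fun j _ => norm_nonneg _
  have hbd : ∀ F : ℂ → ℝ, (∀ s : ℂ, 1 < s.re → |F s| ≤ R (s.re : ℂ)) → ∀ u : Fin 4 → ℝ,
      ‖(∏ j, ‖kk (u j)‖) * Real.exp (SR F lam (Aex l e u) (1 + e4))‖ ≤ (∏ j, ‖kk (u j)‖) * Real.exp M := by
    intro F hF u
    rw [Real.norm_of_nonneg (mul_nonneg (hpn u) (Real.exp_pos _).le)]
    exact mul_le_mul_of_nonneg_left (Real.exp_le_exp.2 (hMle F hF u)) (hpn u)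
  have hint : Integrable (fun u : Fin 4 → ℝ => (∏ j, ‖kk (u j)‖) * Real.exp (SR R lam (Aex l e u) (1 + e4))) :=
    hdom.mono' (hkc.mul (Real.continuous_exp.comp hcontSR)).aestronglyMeasurable
      (Eventually.of_forall fun u => hbd R hRabs u)
  refine ⟨hint, ?_⟩
  -- continuity of the truncated sums
  have hRzc : ∀ z : ℕ, Continuous (Rz z) := by
    intro z
    unfold Rz
    refine continuous_finsetSum _ fun p hp => ?_
    have hp0 : (p : ℂ) ≠ 0 := by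
      have : p.Prime := (Finset.mem_filter.1 hp).2
      exact_mod_cast this.ne_zero
    have : Continuous (fun s : ℂ => (p : ℂ) ^ (-s)) := (continuous_neg).const_cpow (Or.inl hp0)
    exact continuous_re.comp this
  have hSRz : ∀ z : ℕ, Continuous (fun u : Fin 4 → ℝ => SR (Rz z) lam (Aex l e u) (1 + e4)) := by
    intro z
    unfold SR
    refine Continuous.add ?_ ?_
    · exact (continuous_finsetSum _ fun j _ => continuous_const.mul ((hRzc z).comp (Q08_Aex_cont l e j))).neg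
    · have hc2 : ∀ i j, Continuous (fun u : Fin 4 → ℝ => Rz z (Aex l e u i + Aex l e u j - (1 + e4))) := fun i j =>
        (hRzc z).comp (((Q08_Aex_cont l e i).add (Q08_Aex_cont l e j)).sub continuous_const)
      exact (((continuous_const.mul (hc2 0 2)).add (continuous_const.mul (hc2 0 3))).add
        (continuous_const.mul (hc2 1 2))).add (continuous_const.mul (hc2 1 3))
  have hz : ∀ z : ℕ, ⌊Real.exp l⌋₊ ≤ z → ‖QQ ⌊Real.exp l⌋₊ lam l e e4‖ ≤
      K * ∫ u : Fin 4 → ℝ, (∏ j, ‖kk (u j)‖) * Real.exp (SR (Rz z) lam (Aex l e u) (1 + e4)) := by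
    intro z hz
    rw [← QQ_stable z lam l hl0 e e4 hz, QQ_integral z lam l hl0 e e4, ← integral_const_mul]
    refine norm_integral_le_of_norm_le ?_ (Eventually.of_forall fun u => ?_)
    · refine Integrable.const_mul ?_ K
      exact hdom.mono' (hkc.mul (Real.continuous_exp.comp (hSRz z))).aestronglyMeasurable
        (Eventually.of_forall fun u => hbd (Rz z) (hRz z) u)
    · rw [norm_mul, norm_prod]
      have h1 : ∀ s : ℂ, 1 < s.re → (15/16 : ℝ) ≤ s.re := fun s hs => by linarith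
      have hb := hprod z lam hlam (Aex l e u) (1 + e4) (fun j => h1 _ (hA u j)) (h1 _ (hP u 0 2))
        (h1 _ (hP u 0 3)) (h1 _ (hP u 1 2)) (h1 _ (hP u 1 3))
      calc (∏ j, ‖kk (u j)‖) * ‖∏ p ∈ PP z, EP (fun j => -(lam j : ℂ) * (p : ℂ) ^ (-(Aex l e u j))) ((p : ℂ) ^ (1 + e4))‖
          ≤ (∏ j, ‖kk (u j)‖) * (K * Real.exp (SR (Rz z) lam (Aex l e u) (1 + e4))) :=
            mul_le_mul_of_nonneg_left hb (hpn u)
        _ = K * ((∏ j, ‖kk (u j)‖) * Real.exp (SR (Rz z) lam (Aex l e u) (1 + e4))) := by ring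
  have hlim : Tendsto (fun z : ℕ => K * ∫ u : Fin 4 → ℝ, (∏ j, ‖kk (u j)‖) *
      Real.exp (SR (Rz z) lam (Aex l e u) (1 + e4))) atTop
      (𝓝 (K * ∫ u : Fin 4 → ℝ, (∏ j, ‖kk (u j)‖) * Real.exp (SR R lam (Aex l e u) (1 + e4)))) := by
    refine Tendsto.const_mul K ?_
    refine tendsto_integral_of_dominated_convergence (fun u => (∏ j, ‖kk (u j)‖) * Real.exp M) ?_ hdom ?_ ?_
    · exact fun z => (hkc.mul (Real.continuous_exp.comp (hSRz z))).aestronglyMeasurable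
    · exact fun z => Eventually.of_forall fun u => hbd (Rz z) (hRz z) u
    · refine Eventually.of_forall fun u => ?_
      refine Tendsto.const_mul _ ?_
      exact (Real.continuous_exp.tendsto _).comp (Q08_SR_tendsto hRt lam _ _ (hA u) (hP u 0 2) (hP u 0 3)
        (hP u 1 2) (hP u 1 3))
  exact ge_of_tendsto hlim (eventually_atTop.2 ⟨⌊Real.exp l⌋₊, hz⟩)

end LZ
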