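import Pool.Agent.Lib.MP_0f5a55_nt.D0

open Complex MeasureTheory Set Filter Topology
open scoped ComplexConjugate

namespace LZ

/-- if lam j = 0 then cf 0 l S = 0 unless S is empty, and nS of the empty set is 1. -/
theorem QQ_congr (z : ℕ) (lam : Fin 4 → ℝ) (l : ℝ) (e e' : Fin 4 → ℂ) (e4 : ℂ)
    (h : ∀ j, lam j = 0 ∨ e j = e' j) : QQ z lam l e e4 = QQ z lam l e' e4 := by
  unfold QQ
  apply Finset.sum_congr rfl
  intro S _
  congr 1
  apply Finset.prod_congr rfl
  intro j _
  rcases h j with h0 | h0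
  · rw [h0]
    by_cases hS : S j = ∅
    · rw [hS]
      unfold nS
      simp
    · have h1 : cf 0 l (S j) = 0 := by
        unfold cf
        rw [neg_zero, zero_pow (Finset.card_ne_zero.mpr (Finset.nonempty_iff_ne_empty.mpr hS)),
          zero_mul]
      rw [h1]
      simp
  · rw [h0]

end LZ
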