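import Pool.Agent.Lib.MP_0f5a55_nt.D0
import Pool.Agent.Lib.MP_0f5a55_nt.Q08
import Pool.Agent.Lib.MP_0f5a55_nt.Q09
import Pool.Agent.Lib.MP_0f5a55_nt.P05
import Pool.Agent.Lib.MP_0f5a55_nt.P06
import Pool.Agent.Lib.MP_0f5a55_nt.P04
import Pool.Agent.Lib.MP_0f5a55_nt.Q05

open Complex MeasureTheory Set Filter Topology
open scoped ComplexConjugate

namespace LZ

/-- (2.4). Replace e 1, e 3 by 0 (QQ_congr). SR = -R(A0)-R(A2)+R(A0+A2-C); R_neg (with |eta| <= 1/(8l)) twice,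
and exp R <= C l by R_exp (Re w >= 1/l). Integrate the product (integral_fintype_prod_eq_prod). -/
theorem QQ_mu : ∃ K l0 : ℝ, 0 < K ∧ 1 ≤ l0 ∧ ∀ l : ℝ, l0 ≤ l → ∀ (e : Fin 4 → ℂ) (e4 : ℂ),
    ‖e 0‖ ≤ 1 / (8 * l) → ‖e 2‖ ≤ 1 / (8 * l) → |e4.re| ≤ 1 / (8 * l) →
    ‖QQ ⌊Real.exp l⌋₊ ![1, 0, 1, 0] l e e4‖ ≤ K / l := by
  obtain ⟨K1, l1, hK1, hl1, hQ⟩ := QQ_bound
  obtain ⟨C5, l5, hC5, hl5, hneg⟩ := R_neg
  obtain ⟨C4, hC4, hexp⟩ := R_exp
  obtain ⟨hkc, hki⟩ := kk_facts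
  set g : ℝ → ℝ := fun u => ‖kk u‖ * (1 + |u|) ^ 16 with hg
  have hG : 0 ≤ ∫ u, g u := integral_nonneg (fun u => by simp only [hg, Pi.zero_apply]; positivity)
  set G : ℝ := ∫ u, g u with hGdef
  refine ⟨K1 * (4 * C5 ^ 2 * C4) * G ^ 4 + 1, max (max l1 l5) 3, by positivity,
    hl1.trans ((le_max_left l1 l5).trans (le_max_left _ 3)), ?_⟩
  intro l hl e e4 h0 h2 h4
  have hll1 : l1 ≤ l := ((le_max_left l1 l5).trans (le_max_left _ 3)).trans hl
  have hll5 : l5 ≤ l := ((le_max_right l1 l5).trans (le_max_left _ 3)).trans hl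
  have hl3 : (3 : ℝ) ≤ l := (le_max_right _ _).trans hl
  have hlpos : 0 < l := by linarith
  have hcongr := QQ_congr ⌊Real.exp l⌋₊ ![1, 0, 1, 0] l e ![e 0, 0, e 2, 0] e4
    (by intro j; fin_cases j <;> simp)
  rw [hcongr]
  have h18 : (0 : ℝ) ≤ 1 / (8 * l) := by positivity
  have hB := hQ l hll1 ![1, 0, 1, 0] (by intro j; fin_cases j <;> simp) ![e 0, 0, e 2, 0] e4
    (by
      intro j
      fin_cases j
      · exact (Complex.abs_re_le_norm _).trans h0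
      · simpa using h18
      · exact (Complex.abs_re_le_norm _).trans h2
      · simpa using h18) h4
  refine hB.2.trans ?_
  have hsmall : 1 / (8 * l) ≤ 1 / 4 := by
    apply one_div_le_one_div_of_le <;> linarith
  have hone : ∀ η : ℂ, ‖η‖ ≤ 1 / (8 * l) → ∀ u : ℝ,
      Real.exp (-R (1 + η + (1 + u * I) / l)) ≤ 2 * C5 * (1 + |u|) ^ 2 / l := by
    intro η hη u
    refine (hneg l hll5 η ((Complex.abs_re_le_norm _).trans hη) (hη.trans hsmall) u).trans ?_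
    have h1 : 1 + l * ‖η‖ ≤ 2 := by
      have : l * ‖η‖ ≤ l * (1 / (8 * l)) := mul_le_mul_of_nonneg_left hη hlpos.le
      have h2 : l * (1 / (8 * l)) = 1 / 8 := by field_simp
      linarith
    have h3 : (0 : ℝ) ≤ (1 + |u|) ^ 2 := by positivity
    rw [div_le_div_iff_of_pos_right hlpos]
    nlinarith [mul_le_mul_of_nonneg_left h1 hC5.le]
  have hw : ∀ x y : ℝ, Real.exp (R (1 + e 0 + (1 + x * I) / l + (1 + e 2 + (1 + y * I) / l)
      - (1 + e4))) ≤ C4 * l := by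
    intro x y
    set w : ℂ := e 0 + e 2 - e4 + (2 + (x + y) * I) / l with hwdef
    have hwe : 1 + e 0 + (1 + x * I) / l + (1 + e 2 + (1 + y * I) / l) - (1 + e4) = 1 + w := by
      rw [hwdef]
      field_simp
      ring
    rw [hwe]
    have hre : w.re = (e 0).re + (e 2).re - e4.re + 2 / l := by
      rw [hwdef]
      simp [Complex.div_ofReal_re]
    have a0 := abs_le.1 ((Complex.abs_re_le_norm (e 0)).trans h0)
    have a2 := abs_le.1 ((Complex.abs_re_le_norm (e 2)).trans h2)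
    have a4 := abs_le.1 h4
    have hq : 1 / (8 * l) = (1 / 8) * (1 / l) := by field_simp
    have hq2 : 2 / l = 2 * (1 / l) := by ring
    have hli : 0 < 1 / l := by positivity
    have hli3 : 1 / l ≤ 1 / 3 := one_div_le_one_div_of_le (by norm_num) hl3
    have hlow : 1 / l ≤ w.re := by
      rw [hre, hq2]
      rw [hq] at a0 a2 a4
      linarith [a0.1, a2.1, a4.2]
    have hup : w.re ≤ 1 := by
      rw [hre, hq2]
      rw [hq] at a0 a2 a4
      linarith [a0.2, a2.2, a4.1]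
    refine (hexp w (lt_of_lt_of_le hli hlow) hup).1.trans ?_
    rw [div_le_iff₀ (lt_of_lt_of_le hli hlow)]
    have : C4 * l * (1 / l) ≤ C4 * l * w.re := mul_le_mul_of_nonneg_left hlow (by positivity)
    have h5 : C4 * l * (1 / l) = C4 := by field_simp
    linarith
  have hkg : ∀ x : ℝ, ‖kk x‖ ≤ g x := by
    intro x
    have h1 : (1 : ℝ) ≤ (1 + |x|) ^ 16 := one_le_pow₀ (by linarith [abs_nonneg x])
    have := mul_le_mul_of_nonneg_left h1 (norm_nonneg (kk x))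
    simpa [hg] using this
  have hkg2 : ∀ x : ℝ, ‖kk x‖ * (1 + |x|) ^ 2 ≤ g x := by
    intro x
    have h1 : (1 + |x|) ^ 2 ≤ (1 + |x|) ^ 16 :=
      pow_le_pow_right₀ (by linarith [abs_nonneg x]) (by norm_num)
    exact mul_le_mul_of_nonneg_left h1 (norm_nonneg (kk x))
  have hg0 : ∀ x, 0 ≤ g x := fun x => (norm_nonneg _).trans (hkg x)
  have hpt : ∀ u : Fin 4 → ℝ, (∏ j, ‖kk (u j)‖) * Real.exp (SR R ![1, 0, 1, 0]
      (Aex l ![e 0, 0, e 2, 0] u) (1 + e4)) ≤ (4 * C5 ^ 2 * C4 / l) * ∏ j, g (u j) := by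
    intro u
    have hSR : SR R ![1, 0, 1, 0] (Aex l ![e 0, 0, e 2, 0] u) (1 + e4) =
        -R (1 + e 0 + (1 + u 0 * I) / l) + -R (1 + e 2 + (1 + u 2 * I) / l)
        + R (1 + e 0 + (1 + u 0 * I) / l + (1 + e 2 + (1 + u 2 * I) / l) - (1 + e4)) := by
      simp only [SR, Fin.sum_univ_four, Aex, Matrix.cons_val_zero, Matrix.cons_val_one,
        Matrix.cons_val]
      ring
    rw [hSR, Real.exp_add, Real.exp_add, Fin.prod_univ_four, Fin.prod_univ_four]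
    have b0 := hone (e 0) h0 (u 0)
    have b2 := hone (e 2) h2 (u 2)
    have b4 := hw (u 0) (u 2)
    calc ‖kk (u 0)‖ * ‖kk (u 1)‖ * ‖kk (u 2)‖ * ‖kk (u 3)‖ *
          (Real.exp (-R (1 + e 0 + (1 + u 0 * I) / l)) * Real.exp (-R (1 + e 2 + (1 + u 2 * I) / l))
            * Real.exp (R (1 + e 0 + (1 + u 0 * I) / l + (1 + e 2 + (1 + u 2 * I) / l) - (1 + e4))))
        ≤ ‖kk (u 0)‖ * ‖kk (u 1)‖ * ‖kk (u 2)‖ * ‖kk (u 3)‖ *
          ((2 * C5 * (1 + |u 0|) ^ 2 / l) * (2 * C5 * (1 + |u 2|) ^ 2 / l) * (C4 * l)) := by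
          gcongr
      _ = (4 * C5 ^ 2 * C4 / l) * ((‖kk (u 0)‖ * (1 + |u 0|) ^ 2) * ‖kk (u 1)‖ *
            (‖kk (u 2)‖ * (1 + |u 2|) ^ 2) * ‖kk (u 3)‖) := by
          field_simp
          ring
      _ ≤ (4 * C5 ^ 2 * C4 / l) * (g (u 0) * g (u 1) * g (u 2) * g (u 3)) := by
          have h1 := hkg2 (u 0)
          have h2 := hkg (u 1)
          have h3 := hkg2 (u 2)
          have h4 := hkg (u 3)
          have g0 := hg0 (u 0)
          have g1 := hg0 (u 1)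
          have g2 := hg0 (u 2)
          have g3 := hg0 (u 3)
          gcongr
  have hint : Integrable (fun u : Fin 4 → ℝ => ∏ j, g (u j)) :=
    Integrable.fintype_prod (f := fun _ : Fin 4 => g) (fun _ => hki)
  have hval : ∫ u : Fin 4 → ℝ, ∏ j, g (u j) = G ^ 4 := by
    have := MeasureTheory.integral_fintype_prod_volume_eq_prod (ι := Fin 4) (fun _ : Fin 4 => g)
    rw [this]
    simp [hGdef]
  calc K1 * ∫ u : Fin 4 → ℝ, (∏ j, ‖kk (u j)‖) * Real.exp (SR R ![1, 0, 1, 0]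
        (Aex l ![e 0, 0, e 2, 0] u) (1 + e4))
      ≤ K1 * ∫ u : Fin 4 → ℝ, (4 * C5 ^ 2 * C4 / l) * ∏ j, g (u j) := by
        apply mul_le_mul_of_nonneg_left _ hK1.le
        exact integral_mono hB.1 (hint.const_mul _) hpt
    _ = K1 * (4 * C5 ^ 2 * C4) * G ^ 4 / l := by
        rw [integral_const_mul, hval]
        ring
    _ ≤ (K1 * (4 * C5 ^ 2 * C4) * G ^ 4 + 1) / l := by
        rw [div_le_div_iff_of_pos_right hlpos]
        linarith

end LZ
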