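import Pool.Agent.Lib.MP_0f5a55_nt.D0
import Pool.Agent.Lib.MP_0f5a55_nt.M04
import Pool.Agent.Lib.MP_0f5a55_nt.M05
import Pool.Agent.Lib.MP_0f5a55_nt.M06
import Pool.Agent.Lib.MP_0f5a55_nt.Q10
import Pool.Agent.Lib.MP_0f5a55_nt.A15

open Complex MeasureTheory Set Filter Topology
open scoped ComplexConjugate

namespace LZ

/-- a power of a small number with a small exponent -/
theorem M07_pow {T : ℝ} (hT : 2 * Real.pi ≤ T) {η : ℂ} {B : ℝ} (h : |η.re| ≤ B / Real.log T) :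
    ‖((2 * Real.pi / T : ℝ) : ℂ) ^ η‖ ≤ Real.exp B := by
  have hpi : (0 : ℝ) < 2 * Real.pi := Real.two_pi_pos
  have hT0 : 0 < T := hpi.trans_le hT
  have hpi1 : (1 : ℝ) < 2 * Real.pi := by linarith [Real.pi_gt_three]
  have hL : 0 < Real.log T := Real.log_pos (hpi1.trans_le hT)
  rw [Complex.norm_cpow_eq_rpow_re_of_pos (div_pos hpi hT0), Real.rpow_def_of_pos (div_pos hpi hT0),
    Real.exp_le_exp]
  have h1 : |Real.log (2 * Real.pi / T)| ≤ Real.log T := by
    rw [Real.log_div hpi.ne' hT0.ne', abs_le]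
    have h2 : 0 < Real.log (2 * Real.pi) := Real.log_pos hpi1
    have h3 : Real.log (2 * Real.pi) ≤ Real.log T := Real.log_le_log hpi hT
    constructor
    · linarith
    · linarith
  calc Real.log (2 * Real.pi / T) * η.re ≤ |Real.log (2 * Real.pi / T) * η.re| := le_abs_self _
    _ = |Real.log (2 * Real.pi / T)| * |η.re| := abs_mul _ _
    _ ≤ Real.log T * (B / Real.log T) := mul_le_mul h1 h (abs_nonneg _) hL.le
    _ = B := by field_simp

/-- mollifiers are entire -/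
theorem M07_mol (lam l : ℝ) : Differentiable ℂ (Mol lam l) := by
  unfold Mol
  refine Differentiable.fun_sum fun S hS => Differentiable.const_mul ?_ _
  have hn : (nS S : ℂ) ≠ 0 := by
    have h1 : nS S ≠ 0 := by
      unfold nS
      rw [Finset.prod_ne_zero_iff]
      intro p hp
      have h2 := Finset.mem_powerset.mp hS hp
      exact (Finset.mem_filter.mp h2).2.ne_zero
    exact_mod_cast h1
  exact Differentiable.const_cpow differentiable_neg (Or.inl hn)

/-- the integrand is holomorphic in the first shift -/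
theorem M07_diff (l : ℝ) (β : ℂ) (t : ℝ) {Ω : Set ℂ} (hΩ : ∀ z ∈ Ω, z.re ≤ 1 / 16) :
    DifferentiableOn ℂ (fun z => XX ![1, 0, 1, 0] l z β ![z, 0, β, 0] t) Ω := by
  intro z hz
  have h1 : DifferentiableAt ℂ (fun z : ℂ => riemannZeta (1/2 + z + t * I)) z := by
    refine DifferentiableAt.comp z (g := riemannZeta) (differentiableAt_riemannZeta ?_)
      (by fun_prop)
    intro h2
    have h3 := congrArg Complex.re h2
    simp at h3
    have := hΩ z hz
    norm_num at h3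
    linarith
  have h2 : DifferentiableAt ℂ (fun z : ℂ => Mol 1 l (1/2 + z + t * I)) z :=
    DifferentiableAt.comp z (g := Mol 1 l) (M07_mol 1 l _) (by fun_prop)
  have h3 : (fun z => XX ![1, 0, 1, 0] l z β ![z, 0, β, 0] t) = fun z : ℂ =>
      riemannZeta (1/2 + z + t * I) * riemannZeta (1/2 + β - t * I) *
      (Mol 1 l (1/2 + z + t * I) * Mol 0 l (1/2 + 0 + t * I) *
      Mol 1 l (1/2 + β - t * I) * Mol 0 l (1/2 + 0 - t * I)) := by
    funext z
    rfl
  rw [h3]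
  exact ((h1.mul_const _).mul (((h2.mul_const _).mul_const _).mul_const _)).differentiableWithinAt

/-- (4.1). First for |alpha+beta| = 3/log T: master with tau = (alpha,0,beta,0), QQ_mu for both terms, zA_bounds,
|(2pi/T)^eta| <= e^4. Then maximum modulus in alpha on the disc |alpha+beta| <= 3/log T (EE_diff, XX_bound). -/
theorem XX_mu_bound (U : ℝ) (hU : 0 ≤ U) : ∃ C T0 : ℝ, 0 < C ∧ 2 ≤ T0 ∧ ∀ T : ℝ, T0 ≤ T → ∀ l : ℝ,
    Real.log T / 2000 ≤ l → l ≤ Real.log T / 1000 → ∀ α β : ℂ, |β.re| ≤ 1 / Real.log T → |β.im| ≤ U →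
    ‖α + β‖ ≤ 3 / Real.log T → ‖EE T (XX ![1, 0, 1, 0] l α β ![α, 0, β, 0])‖ ≤ C := by
  obtain ⟨C, T1, hC, hT1, hmaster⟩ := master (U + 1) (by linarith)
  obtain ⟨K, l1, hK, hl1, hmu⟩ := QQ_mu
  obtain ⟨CA, hCA, hzA⟩ := zA_bounds 1 zero_le_one
  have hev : ∀ᶠ T : ℝ in atTop, (T1 ≤ T ∧ 2 * Real.pi ≤ T) ∧
      (128 ≤ Real.log T ∧ 2000 * l1 ≤ Real.log T) ∧
      Real.log T * T ^ (-(1/4) : ℝ) ≤ 1 := by
    refine Filter.Eventually.and ?_ (Filter.Eventually.and ?_ ?_)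
    · exact (eventually_ge_atTop T1).and (eventually_ge_atTop _)
    · exact (Real.tendsto_log_atTop.eventually_ge_atTop _).and
        (Real.tendsto_log_atTop.eventually_ge_atTop _)
    · have h1 := (isLittleO_log_rpow_atTop (r := 1/4) (by norm_num)).bound (zero_lt_one)
      filter_upwards [h1, eventually_ge_atTop (1 : ℝ)] with T hT hT1
      have hT0 : 0 < T := by linarith
      rw [one_mul, Real.norm_of_nonneg (Real.log_nonneg hT1),
        Real.norm_of_nonneg (Real.rpow_nonneg hT0.le _)] at hT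
      calc Real.log T * T ^ (-(1/4) : ℝ) ≤ T ^ (1/4 : ℝ) * T ^ (-(1/4) : ℝ) :=
            mul_le_mul_of_nonneg_right hT (Real.rpow_nonneg hT0.le _)
        _ = 1 := by rw [← Real.rpow_add hT0]; norm_num
  obtain ⟨T0, hT0⟩ := Filter.eventually_atTop.mp hev
  obtain ⟨C', hC'⟩ : ∃ C', C' = CA * K * 2000 + Real.exp 3 * CA * K * 2000 + C := ⟨_, rfl⟩
  refine ⟨C', max T0 2, by rw [hC']; positivity, le_max_right _ _, ?_⟩
  intro T hT l hl hl' α β hβre hβim hαβ
  obtain ⟨⟨hT1', hTpi⟩, ⟨hL16, hLl1⟩, hTC⟩ := hT0 T ((le_max_left _ _).trans hT)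
  have hL : 0 < Real.log T := by linarith
  have hl00 : 0 < l := by linarith
  have hT00 : 0 < T := by linarith [Real.pi_pos]
  have h3L : 3 / Real.log T ≤ 1 / 32 := by
    rw [div_le_div_iff₀ hL (by norm_num)]
    linarith
  have h1L : 1 / Real.log T ≤ 1 / 64 := by
    rw [div_le_div_iff₀ hL (by norm_num)]
    linarith
  have h3L8 : 3 / Real.log T ≤ 1 / (8 * l) := by
    rw [div_le_div_iff₀ hL (by positivity)]
    linarith
  have hlamj : ∀ j, 0 ≤ (![1, 0, 1, 0] : Fin 4 → ℝ) j ∧ (![1, 0, 1, 0] : Fin 4 → ℝ) j ≤ 1 := by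
    intro j
    fin_cases j <;> simp
  -- shifts in the disc
  have hdisc : ∀ z : ℂ, ‖z + β‖ < 4 / Real.log T → |z.re| ≤ 1 / 16 ∧ |z.im| ≤ U + 1 := by
    intro z hz
    have h4L : 4 / Real.log T ≤ 1 / 32 := by
      rw [div_le_div_iff₀ hL (by norm_num)]
      linarith
    have h1 : |(z + β).re| ≤ 1 / 32 := (Complex.abs_re_le_norm _).trans (hz.le.trans h4L)
    have h2 : |(z + β).im| ≤ 1 / 32 := (Complex.abs_im_le_norm _).trans (hz.le.trans h4L)
    rw [Complex.add_re] at h1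
    rw [Complex.add_im] at h2
    have h3 := hβre.trans h1L
    rw [abs_le] at h1 h2 h3 hβim ⊢
    rw [abs_le]
    constructor
    · constructor <;> linarith
    · constructor <;> linarith
  have hβ16 : |β.re| ≤ 1 / 16 := by linarith [hβre.trans h1L]
  have hβU : |β.im| ≤ U + 1 := by linarith
  have hτ : ∀ z : ℂ, |z.re| ≤ 1 / 16 → ∀ j, |((![z, 0, β, 0] : Fin 4 → ℂ) j).re| ≤ 1 / 16 := by
    intro z hz j
    fin_cases j
    · exact hz
    · show |(0 : ℂ).re| ≤ 1 / 16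
      norm_num
    · exact hβ16
    · show |(0 : ℂ).re| ≤ 1 / 16
      norm_num
  -- the bound on the circle
  have hcircle : ∀ z : ℂ, ‖z + β‖ = 3 / Real.log T →
      ‖EE T (XX ![1, 0, 1, 0] l z β ![z, 0, β, 0])‖ ≤ C' := by
    intro z hz
    have hz4 : ‖z + β‖ < 4 / Real.log T := by
      rw [hz]
      exact div_lt_div_of_pos_right (by norm_num) hL
    obtain ⟨hzre, hzim⟩ := hdisc z hz4
    have hη0 : z + β ≠ 0 := by
      intro h0
      rw [h0, norm_zero] at hz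
      have : 0 < 3 / Real.log T := by positivity
      linarith
    have hm := hmaster T hT1' l hl00 hl' ![1, 0, 1, 0] hlamj z β ![z, 0, β, 0] hzre hβ16 hzim hβU
      (hτ z hzre) hη0
    have hre : |(z + β).re| ≤ 3 / Real.log T := (Complex.abs_re_le_norm _).trans hz.le
    have him : |(z + β).im| ≤ 3 / Real.log T := (Complex.abs_im_le_norm _).trans hz.le
    have h1 := hmu l (by linarith)
      ![(![z, 0, β, 0] : Fin 4 → ℂ) 0 + β, (![z, 0, β, 0] : Fin 4 → ℂ) 1 + β,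
        (![z, 0, β, 0] : Fin 4 → ℂ) 2 + z, (![z, 0, β, 0] : Fin 4 → ℂ) 3 + z] (z + β) (by
        show ‖z + β‖ ≤ _
        rw [hz]
        exact h3L8) (by
        show ‖β + z‖ ≤ _
        rw [add_comm, hz]
        exact h3L8) (hre.trans h3L8)
    have h2 := hmu l (by linarith)
      ![(![z, 0, β, 0] : Fin 4 → ℂ) 0 - z, (![z, 0, β, 0] : Fin 4 → ℂ) 1 - z,
        (![z, 0, β, 0] : Fin 4 → ℂ) 2 - β, (![z, 0, β, 0] : Fin 4 → ℂ) 3 - β] (-(z + β)) (by
        show ‖z - z‖ ≤ _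
        rw [sub_self, norm_zero]
        positivity) (by
        show ‖β - β‖ ≤ _
        rw [sub_self, norm_zero]
        positivity) (by
        rw [Complex.neg_re, abs_neg]
        exact hre.trans h3L8)
    obtain ⟨h3, h4⟩ := hzA (z + β) (by linarith) (by linarith) hη0
    have hD : 1 + 1 / ‖z + β‖ ≤ Real.log T := by
      rw [hz, one_div_div]
      linarith
    have h5 : ‖((2 * Real.pi / T : ℝ) : ℂ) ^ (z + β)‖ ≤ Real.exp 3 := M07_pow hTpi hre
    have h7 : K / l ≤ K * 2000 / Real.log T := by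
      rw [div_le_div_iff₀ hl00 hL]
      nlinarith
    obtain ⟨Q1, hQ1⟩ : ∃ Q1, Q1 = QQ ⌊Real.exp l⌋₊ ![1, 0, 1, 0] l
      ![(![z, 0, β, 0] : Fin 4 → ℂ) 0 + β, (![z, 0, β, 0] : Fin 4 → ℂ) 1 + β,
        (![z, 0, β, 0] : Fin 4 → ℂ) 2 + z, (![z, 0, β, 0] : Fin 4 → ℂ) 3 + z] (z + β) := ⟨_, rfl⟩
    obtain ⟨Q2, hQ2⟩ : ∃ Q2, Q2 = QQ ⌊Real.exp l⌋₊ ![1, 0, 1, 0] l
      ![(![z, 0, β, 0] : Fin 4 → ℂ) 0 - z, (![z, 0, β, 0] : Fin 4 → ℂ) 1 - z,
        (![z, 0, β, 0] : Fin 4 → ℂ) 2 - β, (![z, 0, β, 0] : Fin 4 → ℂ) 3 - β] (-(z + β)) :=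
      ⟨_, rfl⟩
    rw [← hQ1] at h1 hm
    rw [← hQ2] at h2 hm
    have h8 : ‖riemannZeta (1 + (z + β)) * Q1‖ ≤ CA * K * 2000 := by
      rw [norm_mul]
      calc ‖riemannZeta (1 + (z + β))‖ * ‖Q1‖ ≤ (CA * Real.log T) * (K * 2000 / Real.log T) :=
            mul_le_mul (h3.trans (mul_le_mul_of_nonneg_left hD hCA.le)) (h1.trans h7)
              (norm_nonneg _) (by positivity)
        _ = CA * K * 2000 := by field_simp
    have h9 : ‖((2 * Real.pi / T : ℝ) : ℂ) ^ (z + β) * Ac (z + β) * Q2‖ ≤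
        Real.exp 3 * CA * K * 2000 := by
      rw [norm_mul, norm_mul]
      calc ‖((2 * Real.pi / T : ℝ) : ℂ) ^ (z + β)‖ * ‖Ac (z + β)‖ * ‖Q2‖
          ≤ Real.exp 3 * (CA * Real.log T) * (K * 2000 / Real.log T) :=
            mul_le_mul (mul_le_mul h5 (h4.trans (mul_le_mul_of_nonneg_left hD hCA.le))
              (norm_nonneg _) (Real.exp_pos 3).le) (h2.trans h7) (norm_nonneg _) (by positivity)
        _ = Real.exp 3 * CA * K * 2000 := by field_simp
    have h10 : C * (1 + 1 / ‖z + β‖) * T ^ (-(1/4) : ℝ) ≤ C := by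
      calc C * (1 + 1 / ‖z + β‖) * T ^ (-(1/4) : ℝ) ≤ C * Real.log T * T ^ (-(1/4) : ℝ) :=
            mul_le_mul_of_nonneg_right (mul_le_mul_of_nonneg_left hD hC.le)
              (Real.rpow_nonneg hT00.le _)
        _ = C * (Real.log T * T ^ (-(1/4) : ℝ)) := by ring
        _ ≤ C * 1 := mul_le_mul_of_nonneg_left hTC hC.le
        _ = C := mul_one C
    have h11 := hm.trans h10
    obtain ⟨E, hE⟩ : ∃ E, E = EE T (XX ![1, 0, 1, 0] l z β ![z, 0, β, 0]) := ⟨_, rfl⟩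
    rw [← hE] at h11 ⊢
    obtain ⟨R, hR⟩ : ∃ R, R = riemannZeta (1 + (z + β)) * Q1 := ⟨_, rfl⟩
    obtain ⟨R', hR'⟩ : ∃ R', R' = ((2 * Real.pi / T : ℝ) : ℂ) ^ (z + β) * Ac (z + β) * Q2 :=
      ⟨_, rfl⟩
    rw [← hR] at h11 h8
    rw [← hR'] at h11 h9
    calc ‖E‖ = ‖(E - (R + R')) + R + R'‖ := by
          congr 1
          ring
      _ ≤ ‖(E - (R + R')) + R‖ + ‖R'‖ := norm_add_le _ _
      _ ≤ ‖E - (R + R')‖ + ‖R‖ + ‖R'‖ := add_le_add (norm_add_le _ _) le_rfl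
      _ ≤ C + CA * K * 2000 + Real.exp 3 * CA * K * 2000 := add_le_add (add_le_add h11 h8) h9
      _ = C' := by rw [hC']; ring
  -- holomorphy
  obtain ⟨CX, hCX, hXX⟩ := XX_bound ![1, 0, 1, 0] hlamj l (U + 1) hl00 (by linarith)
  have hball : ∀ z ∈ Metric.ball (-β) (4 / Real.log T), ‖z + β‖ < 4 / Real.log T := by
    intro z hz
    rw [Metric.mem_ball, dist_eq_norm, sub_neg_eq_add] at hz
    exact hz
  have hhol : DifferentiableOn ℂ (fun z => EE T (XX ![1, 0, 1, 0] l z β ![z, 0, β, 0]))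
      (Metric.ball (-β) (4 / Real.log T)) := by
    refine EE_diff hT00 Metric.isOpen_ball (g := fun z t => XX ![1, 0, 1, 0] l z β ![z, 0, β, 0] t)
      (C := CX) ?_ ?_ ?_
    · intro t
      exact M07_diff l β t fun z hz => (le_abs_self _).trans (hdisc z (hball z hz)).1
    · intro z hz
      obtain ⟨h1, h2⟩ := hdisc z (hball z hz)
      exact (hXX z β ![z, 0, β, 0] h1 hβ16 h2 hβU (hτ z h1)).1
    · intro z hz t _
      obtain ⟨h1, h2⟩ := hdisc z (hball z hz)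
      exact (hXX z β ![z, 0, β, 0] h1 hβ16 h2 hβU (hτ z h1)).2 t
  have h3pos : (3 / Real.log T) ≠ 0 := by positivity
  have hsub : closure (Metric.ball (-β) (3 / Real.log T)) ⊆ Metric.ball (-β) (4 / Real.log T) := by
    rw [closure_ball _ h3pos]
    exact Metric.closedBall_subset_ball (div_lt_div_of_pos_right (by norm_num) hL)
  refine Complex.norm_le_of_forall_mem_frontier_norm_le (U := Metric.ball (-β) (3 / Real.log T))
    (f := fun z => EE T (XX ![1, 0, 1, 0] l z β ![z, 0, β, 0]))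
    Metric.isBounded_ball (hhol.mono hsub).diffContOnCl ?_ ?_
  · intro z hz
    rw [frontier_ball _ h3pos, Metric.mem_sphere, dist_eq_norm, sub_neg_eq_add] at hz
    exact hcircle z hz
  · rw [closure_ball _ h3pos, Metric.mem_closedBall, dist_eq_norm, sub_neg_eq_add]
    exact hαβ

end LZ
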