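import Pool.Agent.Lib.MP_0f5a55_nt.D0
import Pool.Agent.Lib.MP_0f5a55_nt.M07
import Pool.Agent.Lib.MP_0f5a55_nt.M08

open Complex MeasureTheory Set Filter Topology
open scoped ComplexConjugate

namespace LZ

/-- second moment of the mollified zeta. -/
theorem F_second (U : ℝ) (hU : 0 ≤ U) : ∃ C T0 : ℝ, 0 < C ∧ 2 ≤ T0 ∧ ∀ T : ℝ, T0 ≤ T → ∀ l : ℝ,
    Real.log T / 2000 ≤ l → l ≤ Real.log T / 1000 → ∀ σ u : ℝ, |σ| ≤ 1 / Real.log T → |u| ≤ U →
    ER T (fun t => ‖FF l (1/2 + σ + (t + u) * I)‖ ^ 2) ≤ C := by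
  obtain ⟨C, T0, hC, hT0, h⟩ := XX_mu_bound U hU
  refine ⟨C, T0, hC, hT0, ?_⟩
  intro T hT l hl1 hl2 σ u hσ hu
  have hlog : 0 < Real.log T := Real.log_pos (by linarith)
  have hl0 : 0 < l := lt_of_lt_of_le (by positivity) hl1
  have h1 := h T hT l hl1 hl2 (σ + u * I) (σ - u * I) (by simpa using hσ) (by simpa using hu) (by
    have e1 : (σ : ℂ) + u * I + (σ - u * I) = ((2 * σ : ℝ) : ℂ) := by push_cast; ring
    rw [e1, Complex.norm_real, Real.norm_eq_abs, abs_mul, abs_two]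
    have e2 : 2 * |σ| ≤ 2 * (1 / Real.log T) := by linarith
    have e3 : 2 * (1 / Real.log T) ≤ 3 / Real.log T := by
      rw [mul_one_div]
      exact div_le_div_of_nonneg_right (by norm_num) hlog.le
    linarith)
  have hEE : EE T (XX ![1, 0, 1, 0] l (σ + u * I) (σ - u * I) ![σ + u * I, 0, σ - u * I, 0]) =
      ((ER T (fun t => ‖FF l (1/2 + σ + (t + u) * I)‖ ^ 2) : ℝ) : ℂ) := by
    unfold EE ER
    rw [Complex.ofReal_mul, Complex.ofReal_inv, ← integral_complex_ofReal]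
    congr 1
    apply integral_congr_ae
    refine Filter.Eventually.of_forall (fun t => ?_)
    simp only
    rw [conj_facts.2.2.2 l hl0 σ u u t, Complex.mul_conj']
    push_cast
    ring
  rw [hEE, Complex.norm_real] at h1
  exact (le_abs_self _).trans h1

end LZ
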