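import Pool.Agent.Lib.MP_0f5a55_nt.D0
import Pool.Agent.Lib.MP_0f5a55_nt.E02
import Pool.Agent.Lib.MP_0f5a55_nt.E07

open Complex MeasureTheory Set Filter Topology
open scoped ComplexConjugate

namespace LZ

theorem E08_Mol (l : ℝ) : Differentiable ℂ (Mol 1 l) := by
  unfold Mol
  refine Differentiable.fun_sum (fun S hS => ?_)
  refine (differentiable_const _).mul ?_
  have hne : ((nS S : ℕ) : ℂ) ≠ 0 := by
    have h1 : nS S ≠ 0 := by
      unfold nS
      refine Finset.prod_ne_zero_iff.2 (fun p hp => ?_)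
      have h2 := Finset.mem_powerset.1 hS hp
      unfold PP at h2
      exact (Finset.mem_filter.1 h2).2.ne_zero
    exact_mod_cast h1
  exact differentiable_id.neg.const_cpow (Or.inl hne)

theorem E08_FF {l : ℝ} {s : ℂ} (hs : s ≠ 1) : DifferentiableAt ℂ (FF l) s := by
  unfold FF
  exact (differentiableAt_riemannZeta hs).mul (E08_Mol l s)

/-- f(s) = FF(l, s), points ry+c, separated by |r|d/log T. -/
theorem F_points (r d B : ℝ) (hr : r ≠ 0) (hd : 0 < d) (hB : 1 ≤ B) : ∃ C T0 : ℝ, 0 < C ∧ 2 ≤ T0 ∧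
    ∀ T : ℝ, T0 ≤ T → ∀ Y : Finset ℝ, (∀ y ∈ Y, |y| ≤ T) → Sep (d / Real.log T) Y → ∀ c : ℝ, |c| ≤ B * T →
    ∑ y ∈ Y, ‖FF (Real.log T / 1500) (1/2 + (r * y + c) * I)‖ ^ 2 ≤ C * T * Real.log T := by
  have hr' : 0 < |r| := abs_pos.2 hr
  set κ : ℝ := min (|r| * d / 2) (1 / 2) with hκ
  have hκ0 : 0 < κ := lt_min (by positivity) (by norm_num)
  have hκ1 : κ ≤ |r| * d / 2 := min_le_left _ _
  have hκ2 : κ ≤ 1 / 2 := min_le_right _ _
  obtain ⟨C, T0, hC, hT0, hF⟩ := F_sym (|r| + B + 1) (by linarith)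
  refine ⟨2 * C / (Real.pi * κ), max T0 3, by positivity, hT0.trans (le_max_left _ _), ?_⟩
  intro T hT Y hY hsep c hc
  have hTT0 : T0 ≤ T := (le_max_left _ _).trans hT
  have hT3 : 3 ≤ T := (le_max_right _ _).trans hT
  have hTpos : 0 < T := by linarith
  set L : ℝ := Real.log T with hL
  have hL1 : 1 < L := by
    rw [hL, Real.lt_log_iff_exp_lt hTpos]
    have := Real.exp_one_lt_d9
    linarith
  have hL0 : 0 < L := by linarith
  set ρ : ℝ := κ / L with hρ
  have hρ0 : 0 < ρ := by positivity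
  have hρ1 : ρ ≤ 1 / (2 * L) := by
    rw [hρ, div_le_div_iff₀ hL0 (by positivity)]
    nlinarith
  have hρ2 : ρ < 1 / 2 := by
    refine lt_of_le_of_lt hρ1 ?_
    rw [div_lt_div_iff₀ (by positivity) (by norm_num)]
    linarith
  set f : ℂ → ℂ := FF (L / 1500) with hf
  have hfd : ∀ z : ℂ, |z.re - 1 / 2| ≤ ρ → DifferentiableAt ℂ f z := by
    intro z hz
    apply E08_FF
    rintro rfl
    rw [Complex.one_re] at hz
    norm_num at hz
    linarith
  set b : ℝ := (|r| + B) * T with hb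
  have hb0 : 0 ≤ b := by positivity
  set Y' : Finset ℝ := Y.image (fun y => r * y + c) with hY'
  have hY'b : ∀ y ∈ Y', -b ≤ y ∧ y ≤ b := by
    intro x hx
    obtain ⟨y, hy, rfl⟩ := Finset.mem_image.1 hx
    have h1 : |r * y + c| ≤ b := by
      calc |r * y + c| ≤ |r * y| + |c| := abs_add_le _ _
        _ = |r| * |y| + |c| := by rw [abs_mul]
        _ ≤ |r| * T + B * T := add_le_add (mul_le_mul_of_nonneg_left (hY y hy) hr'.le) hc
        _ = b := by rw [hb]; ring
    exact abs_le.1 h1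
  have hsep' : Sep (2 * ρ) Y' := by
    intro x hx x' hx' hne
    obtain ⟨y, hy, rfl⟩ := Finset.mem_image.1 hx
    obtain ⟨y', hy', rfl⟩ := Finset.mem_image.1 hx'
    have hyy : y ≠ y' := by
      rintro rfl
      exact hne rfl
    have h1 := hsep y hy y' hy' hyy
    have h2 : |r * y + c - (r * y' + c)| = |r| * |y - y'| := by
      rw [← abs_mul]; congr 1; ring
    rw [h2]
    calc 2 * ρ = 2 * κ / L := by rw [hρ]; ring
      _ ≤ |r| * d / L := by
          apply div_le_div_of_nonneg_right _ hL0.le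
          linarith
      _ = |r| * (d / L) := by ring
      _ ≤ |r| * |y - y'| := mul_le_mul_of_nonneg_left h1 hr'.le
  have hmain := sum_sep (f := f) hρ0 (by linarith : -b ≤ b) Y' hY'b hsep'
    (fun z hz _ _ => hfd z hz)
  have hinj : Set.InjOn (fun y : ℝ => r * y + c) (Y : Set ℝ) := by
    intro y _ y' _ h
    have h1 : r * y + c = r * y' + c := h
    exact mul_left_cancel₀ hr (by linarith)
  have hsum : ∑ y ∈ Y, ‖f (1/2 + (r * y + c) * I)‖ ^ 2 =
      ∑ y ∈ Y', ‖f (1/2 + y * I)‖ ^ 2 := by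
    rw [hY', Finset.sum_image hinj]
    refine Finset.sum_congr rfl (fun y _ => ?_)
    push_cast
    rfl
  have hinner : ∀ σ : ℝ, |σ| ≤ ρ →
      ‖∫ t in (-b - ρ)..(b + ρ), ‖f (1/2 + σ + t * I)‖ ^ 2‖ ≤ C * T := by
    intro σ hσ
    have hcont : Continuous (fun t : ℝ => ‖f (1/2 + σ + t * I)‖ ^ 2) := by
      have h1 : Continuous (fun t : ℝ => f (1/2 + σ + t * I)) := by
        rw [continuous_iff_continuousAt]
        intro t
        have h2 : ContinuousAt f (1/2 + σ + t * I) := by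
          apply (hfd _ _).continuousAt
          have h3 : ((1/2 : ℂ) + σ + t * I).re - 1/2 = σ := by simp
          rw [h3]
          exact hσ
        have h4 : ContinuousAt (fun t : ℝ => (1/2 : ℂ) + σ + t * I) t := by fun_prop
        exact ContinuousAt.comp (f := fun t : ℝ => (1/2 : ℂ) + σ + t * I) h2 h4
      exact h1.norm.pow 2
    have hle : -b - ρ ≤ b + ρ := by linarith
    have hnn : 0 ≤ ∫ t in (-b - ρ)..(b + ρ), ‖f (1/2 + σ + t * I)‖ ^ 2 :=
      intervalIntegral.integral_nonneg hle (fun t _ => by positivity)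
    rw [Real.norm_of_nonneg hnn]
    have h1 : ∫ t in (-b - ρ)..(b + ρ), ‖f (1/2 + σ + t * I)‖ ^ 2 ≤
        ∫ t in (-((|r| + B + 1) * T))..((|r| + B + 1) * T), ‖f (1/2 + σ + t * I)‖ ^ 2 := by
      have hρT : ρ ≤ T := by linarith
      have hexp : (|r| + B + 1) * T = b + T := by rw [hb]; ring
      refine intervalIntegral.integral_mono_interval ?_ hle ?_ ?_ (hcont.intervalIntegrable _ _)
      · rw [hexp]; linarith
      · rw [hexp]; linarith
      · exact Eventually.of_forall (fun t => by positivity)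
    exact h1.trans (hF T hTT0 σ (hσ.trans hρ1))
  have houter : ∫ σ in (-ρ)..ρ, ∫ t in (-b - ρ)..(b + ρ), ‖f (1/2 + σ + t * I)‖ ^ 2 ≤
      C * T * (2 * ρ) := by
    have h1 := intervalIntegral.norm_integral_le_of_norm_le_const (a := -ρ) (b := ρ) (C := C * T)
      (f := fun σ : ℝ => ∫ t in (-b - ρ)..(b + ρ), ‖f (1/2 + σ + t * I)‖ ^ 2) (by
        intro σ hσ
        rw [Set.uIoc_of_le (by linarith)] at hσ
        apply hinner
        rw [abs_le]
        exact ⟨hσ.1.le, hσ.2⟩)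
    have h2 : |ρ - -ρ| = 2 * ρ := by
      rw [abs_of_nonneg (by linarith)]; ring
    rw [h2] at h1
    exact (le_abs_self _).trans h1
  rw [hsum]
  calc ∑ y ∈ Y', ‖f (1/2 + y * I)‖ ^ 2 ≤ (Real.pi * ρ ^ 2)⁻¹ *
        ∫ σ in (-ρ)..ρ, ∫ t in (-b - ρ)..(b + ρ), ‖f (1/2 + σ + t * I)‖ ^ 2 := hmain
    _ ≤ (Real.pi * ρ ^ 2)⁻¹ * (C * T * (2 * ρ)) :=
        mul_le_mul_of_nonneg_left houter (by positivity)
    _ = 2 * C / (Real.pi * κ) * T * L := by
        rw [hρ]
        field_simp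

end LZ
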