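import Pool.Agent.Lib.MP_0f5a55_nt.D0
import Pool.Agent.Lib.MP_0f5a55_nt.X1

open Complex MeasureTheory Set Filter Topology
open scoped ComplexConjugate

namespace LZ

private theorem F01_trap (n : ℕ) (s : ℂ) (hs : 0 ≤ s.re) :
    ‖LZX.vt n s - (s - 1) / 2 * (((n : ℂ) + 1) ^ (-s) - ((n : ℂ) + 2) ^ (-s))‖ ≤
      ‖s - 1‖ * ‖s‖ * ‖s + 1‖ / 2 * ((n : ℝ) + 1) ^ (-s.re - 2) := by
  set M : ℝ := ‖s - 1‖ * ‖s‖ * ‖s + 1‖ * ((n : ℝ) + 1) ^ (-s.re - 2) with hM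
  have hMn : 0 ≤ M := by positivity
  have d0 : ∀ x : ℝ, 0 ≤ x → HasDerivAt (fun x : ℝ => ((n : ℂ) + 1 + x) ^ (1 - s))
      ((1 - s) * ((n : ℂ) + 1 + x) ^ (-s)) x := by
    intro x hx
    have := LZX.hasDerivAt_cpow_line n x hx (1 - s)
    rwa [show 1 - s - 1 = -s by ring] at this
  have d1 : ∀ x : ℝ, 0 ≤ x → HasDerivAt (fun x : ℝ => (1 - s) * ((n : ℂ) + 1 + x) ^ (-s))
      ((1 - s) * (-s * ((n : ℂ) + 1 + x) ^ (-s - 1))) x := fun x hx =>
    (LZX.hasDerivAt_cpow_line n x hx (-s)).const_mul (1 - s)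
  have d2 : ∀ x : ℝ, 0 ≤ x → HasDerivAt (fun x : ℝ => (1 - s) * (-s * ((n : ℂ) + 1 + x) ^ (-s - 1)))
      ((1 - s) * (-s * ((-s - 1) * ((n : ℂ) + 1 + x) ^ (-s - 2)))) x := by
    intro x hx
    have := ((LZX.hasDerivAt_cpow_line n x hx (-s - 1)).const_mul (-s)).const_mul (1 - s)
    rwa [show -s - 1 - 1 = -s - 2 by ring] at this
  set F1 : ℝ → ℂ := fun x => (1 - s) * ((n : ℂ) + 1 + x) ^ (-s) with hF1
  set F2 : ℝ → ℂ := fun x => (1 - s) * (-s * ((n : ℂ) + 1 + x) ^ (-s - 1)) with hF2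
  set F3 : ℝ → ℂ := fun x => (1 - s) * (-s * ((-s - 1) * ((n : ℂ) + 1 + x) ^ (-s - 2))) with hF3
  have hF3b : ∀ x : ℝ, 0 ≤ x → ‖F3 x‖ ≤ M := by
    intro x hx
    simp only [hF3, hM]
    rw [norm_mul, norm_mul, norm_mul, norm_neg, LZX.norm_cpow_line n x hx,
      show (1 - s : ℂ) = -(s - 1) by ring, norm_neg, show (-s - 1 : ℂ) = -(s + 1) by ring, norm_neg]
    have h1 : (-s - 2).re = -s.re - 2 := by simp
    rw [h1, mul_assoc, mul_assoc]
    gcongr ‖s - 1‖ * (‖s‖ * (‖s + 1‖ * ?_))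
    exact Real.rpow_le_rpow_of_nonpos (by positivity) (by linarith) (by linarith)
  -- first application
  have hK : ∀ x : ℝ, x ∈ Icc (0:ℝ) 1 → ‖F1 x - F1 0 - x * F2 x‖ ≤ M := by
    intro x hx
    have h2 := Convex.norm_image_sub_le_of_norm_hasDerivWithin_le (𝕜 := ℝ)
      (f := fun x : ℝ => F1 x - F1 0 - x * F2 x) (f' := fun x : ℝ => F2 x - (1 * F2 x + x * F3 x))
      (s := Icc (0:ℝ) 1) (x := 0) (y := x) (C := M)
      (fun y hy => by
        have e1 : HasDerivAt (fun y : ℝ => (y : ℂ)) 1 y := Complex.ofRealCLM.hasDerivAt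
        exact (((d1 y hy.1).sub_const _).sub (e1.mul (d2 y hy.1))).hasDerivWithinAt)
      (fun y hy => by
        have e1 : F2 y - (1 * F2 y + y * F3 y) = -(y * F3 y) := by ring
        rw [e1, norm_neg, norm_mul, Complex.norm_real, Real.norm_of_nonneg hy.1]
        calc y * ‖F3 y‖ ≤ 1 * ‖F3 y‖ := mul_le_mul_of_nonneg_right hy.2 (norm_nonneg _)
          _ ≤ M := by rw [one_mul]; exact hF3b y hy.1)
      (convex_Icc 0 1) (by simp) hx
    simp only [ofReal_zero, zero_mul, sub_zero, sub_self] at h2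
    refine h2.trans ?_
    rw [Real.norm_of_nonneg hx.1]
    calc M * x ≤ M * 1 := mul_le_mul_of_nonneg_left hx.2 hMn
      _ = M := mul_one M
  -- second application
  have h3 := Convex.norm_image_sub_le_of_norm_hasDerivWithin_le (𝕜 := ℝ)
      (f := fun x : ℝ => ((n : ℂ) + 1 + x) ^ (1 - s) - x * ((F1 0 + F1 x) / 2))
      (f' := fun x : ℝ => F1 x - (1 * ((F1 0 + F1 x) / 2) + x * (F2 x / 2)))
      (s := Icc (0:ℝ) 1) (x := 0) (y := 1) (C := M / 2)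
      (fun y hy => by
        have e1 : HasDerivAt (fun y : ℝ => (y : ℂ)) 1 y := Complex.ofRealCLM.hasDerivAt
        exact ((d0 y hy.1).sub (e1.mul (((d1 y hy.1).const_add _).div_const 2))).hasDerivWithinAt)
      (fun y hy => by
        have e1 : F1 y - (1 * ((F1 0 + F1 y) / 2) + y * (F2 y / 2)) = (F1 y - F1 0 - y * F2 y) / 2 := by
          ring
        rw [e1, norm_div, Complex.norm_two]
        exact div_le_div_of_nonneg_right (hK y hy) (by norm_num))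
      (convex_Icc 0 1) (by simp) (by simp)
  simp only [ofReal_zero, ofReal_one, zero_mul, sub_zero, one_mul, add_zero, norm_one, mul_one] at h3
  have h4 : M / 2 = ‖s - 1‖ * ‖s‖ * ‖s + 1‖ / 2 * ((n : ℝ) + 1) ^ (-s.re - 2) := by rw [hM]; ring
  rw [h4] at h3
  refine le_trans (le_of_eq ?_) h3
  congr 1
  have h5 : (n : ℂ) + 1 + 1 = (n : ℂ) + 2 := by ring
  simp only [hF1, LZX.vt, ofReal_zero, ofReal_one, add_zero]
  rw [h5]
  ring

private theorem F01_inv_sum (k M : ℕ) :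
    ∑ n ∈ Finset.range M, 1 / (((n + k : ℕ) : ℝ) + 1) ^ 2 ≤ 2 / ((k : ℝ) + 1) := by
  have h : ∀ M : ℕ, ∑ n ∈ Finset.range M, 1 / (((n + k : ℕ) : ℝ) + 1) ^ 2 ≤
      2 / ((k : ℝ) + 1) - 2 / (((M + k : ℕ) : ℝ) + 1) := by
    intro M
    induction M with
    | zero => simp
    | succ M ih =>
      rw [Finset.sum_range_succ]
      have h1 : 1 / (((M + k : ℕ) : ℝ) + 1) ^ 2 ≤
          2 / (((M + k : ℕ) : ℝ) + 1) - 2 / (((M + 1 + k : ℕ) : ℝ) + 1) := by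
        have e : ((M + 1 + k : ℕ) : ℝ) = ((M + k : ℕ) : ℝ) + 1 := by push_cast; ring
        rw [e]
        set a : ℝ := ((M + k : ℕ) : ℝ) with ha
        have ha0 : 0 ≤ a := Nat.cast_nonneg _
        rw [div_sub_div _ _ (by positivity) (by positivity), div_le_div_iff₀ (by positivity) (by positivity)]
        nlinarith [sq_nonneg (a + 1), mul_nonneg ha0 (sq_nonneg (a + 1))]
      linarith
  refine (h M).trans ?_
  have : 0 ≤ 2 / (((M + k : ℕ) : ℝ) + 1) := by positivity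
  linarith

/-- (7.1) second order Euler-Maclaurin. -/
theorem zeta_em : ∃ C : ℝ, 0 < C ∧ ∀ (t : ℝ) (N : ℕ), 1 ≤ N →
    ‖riemannZeta (1/2 + t * I) - (∑ n ∈ Finset.Icc 1 N, (n : ℂ) ^ (-(1/2 + t * I)) +
      (N : ℂ) ^ (1 - (1/2 + t * I)) / ((1/2 + t * I) - 1) - (N : ℂ) ^ (-(1/2 + t * I)) / 2)‖ ≤
      C * (1 + |t|) ^ 2 * (N : ℝ) ^ (-(3/2) : ℝ) := by
  refine ⟨2, by norm_num, ?_⟩
  intro t N hN
  obtain ⟨k, rfl⟩ : ∃ k, N = k + 1 := ⟨N - 1, by omega⟩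
  set s : ℂ := 1/2 + t * I with hs
  have hre : s.re = 1/2 := by simp [hs]
  have hne : s ≠ 1 := by
    intro h
    rw [h] at hre
    norm_num at hre
  have hne' : s - 1 ≠ 0 := sub_ne_zero.2 hne
  have hne'' : 0 < ‖s - 1‖ := norm_pos_iff.2 hne'
  have hk0 : (0 : ℝ) < (k : ℝ) + 1 := by positivity
  set g : ℕ → ℂ := fun n => (((n + k : ℕ) : ℂ) + 1) ^ (-s) with hg
  -- partial sums
  have hsumm := LZX.vt_summable (s := s) (by rw [hre]; norm_num)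
  have hz := LZX.zeta_formula (s := s) (by rw [hre]; norm_num) hne
  have hsplit := hsumm.sum_add_tsum_nat_add k
  have hfirst : ∀ k : ℕ, ∑ n ∈ Finset.range k, LZX.vt n s =
      (s - 1) * ∑ n ∈ Finset.range k, ((n : ℂ) + 1) ^ (-s) + (((k : ℂ) + 1) ^ (1 - s) - 1) := by
    intro k
    induction k with
    | zero => simp
    | succ k ih =>
      rw [Finset.sum_range_succ, ih, Finset.sum_range_succ]
      simp only [LZX.vt]
      have h5 : ((k + 1 : ℕ) : ℂ) + 1 = (k : ℂ) + 2 := by push_cast; ring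
      rw [h5]
      ring
  -- the tail
  have hpow : ∀ m : ℕ, ((m : ℝ) + 1) ^ (-s.re - 2) = 1 / (Real.sqrt ((m : ℝ) + 1)) * (1 / ((m : ℝ) + 1) ^ 2) := by
    intro m
    have hm : (0 : ℝ) < (m : ℝ) + 1 := by positivity
    rw [hre, show (-(1/2 : ℝ) - 2) = -(1/2) + (-2) by norm_num, Real.rpow_add hm, Real.rpow_neg hm.le,
      ← Real.sqrt_eq_rpow, Real.rpow_neg hm.le, Real.rpow_two]
    rw [one_div, one_div]
  set D : ℝ := ‖s - 1‖ * ‖s‖ * ‖s + 1‖ * ((k : ℝ) + 1) ^ (-(3/2) : ℝ) with hD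
  have htail : ∀ M : ℕ, ‖∑ n ∈ Finset.range M, LZX.vt (n + k) s - (s - 1) / 2 * (g 0 - g M)‖ ≤ D := by
    intro M
    have e1 : ∑ n ∈ Finset.range M, LZX.vt (n + k) s - (s - 1) / 2 * (g 0 - g M) =
        ∑ n ∈ Finset.range M, (LZX.vt (n + k) s - (s - 1) / 2 *
          ((((n + k : ℕ) : ℂ) + 1) ^ (-s) - (((n + k : ℕ) : ℂ) + 2) ^ (-s))) := by
      rw [Finset.sum_sub_distrib, ← Finset.mul_sum]
      congr 2
      rw [← Finset.sum_range_sub' g M]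
      apply Finset.sum_congr rfl
      intro n _
      simp only [hg]
      congr 2
      push_cast
      ring
    rw [e1]
    refine (norm_sum_le _ _).trans ?_
    refine (Finset.sum_le_sum fun n _ => F01_trap (n + k) s (by rw [hre]; norm_num)).trans ?_
    rw [← Finset.mul_sum]
    have e2 : ∑ n ∈ Finset.range M, (((n + k : ℕ) : ℝ) + 1) ^ (-s.re - 2) ≤
        2 * ((k : ℝ) + 1) ^ (-(3/2) : ℝ) := by
      have e3 : ∀ n ∈ Finset.range M, (((n + k : ℕ) : ℝ) + 1) ^ (-s.re - 2) ≤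
          1 / Real.sqrt ((k : ℝ) + 1) * (1 / (((n + k : ℕ) : ℝ) + 1) ^ 2) := by
        intro n _
        rw [hpow]
        apply mul_le_mul_of_nonneg_right _ (by positivity)
        apply one_div_le_one_div_of_le (Real.sqrt_pos.2 hk0)
        apply Real.sqrt_le_sqrt
        push_cast
        linarith [Nat.cast_nonneg (α := ℝ) n]
      refine (Finset.sum_le_sum e3).trans ?_
      rw [← Finset.mul_sum]
      refine (mul_le_mul_of_nonneg_left (F01_inv_sum k M) (by positivity)).trans (le_of_eq ?_)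
      rw [show (-(3/2) : ℝ) = -(1/2) + (-1) by norm_num, Real.rpow_add hk0, Real.rpow_neg hk0.le,
        ← Real.sqrt_eq_rpow, Real.rpow_neg_one]
      ring
    calc ‖s - 1‖ * ‖s‖ * ‖s + 1‖ / 2 * ∑ n ∈ Finset.range M, (((n + k : ℕ) : ℝ) + 1) ^ (-s.re - 2) ≤
        ‖s - 1‖ * ‖s‖ * ‖s + 1‖ / 2 * (2 * ((k : ℝ) + 1) ^ (-(3/2) : ℝ)) :=
          mul_le_mul_of_nonneg_left e2 (by positivity)
      _ = D := by rw [hD]; ring
  have hglim : Tendsto g atTop (𝓝 0) := by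
    rw [tendsto_zero_iff_norm_tendsto_zero]
    have e1 : ∀ n : ℕ, ‖g n‖ = (((n + k : ℕ) : ℝ) + 1) ^ (-(1/2) : ℝ) := by
      intro n
      have := LZX.norm_cpow_line (n + k) 0 le_rfl (-s)
      simp only [ofReal_zero, add_zero, neg_re, hre] at this
      simp only [hg]
      exact this
    have e2 : Tendsto (fun n : ℕ => (((n + k : ℕ) : ℝ) + 1) ^ (-(1/2) : ℝ)) atTop (𝓝 0) := by
      apply (tendsto_rpow_neg_atTop (by norm_num : (0:ℝ) < 1/2)).comp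
      apply tendsto_atTop_add_const_right
      exact tendsto_natCast_atTop_atTop.comp (tendsto_add_atTop_nat k)
    exact e2.congr fun n => (e1 n).symm
  have hsumk : Summable fun n => LZX.vt (n + k) s := (summable_nat_add_iff k).2 hsumm
  have hlim : Tendsto (fun M : ℕ => ‖∑ n ∈ Finset.range M, LZX.vt (n + k) s - (s - 1) / 2 * (g 0 - g M)‖)
      atTop (𝓝 ‖∑' n, LZX.vt (n + k) s - (s - 1) / 2 * (g 0 - 0)‖) := by
    apply Tendsto.norm
    apply Tendsto.sub hsumk.hasSum.tendsto_sum_nat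
    apply Tendsto.const_mul
    exact tendsto_const_nhds.sub hglim
  have hfin : ‖∑' n, LZX.vt (n + k) s - (s - 1) / 2 * (g 0 - 0)‖ ≤ D :=
    le_of_tendsto hlim (Filter.Eventually.of_forall htail)
  rw [sub_zero] at hfin
  have hg0 : g 0 = ((k : ℂ) + 1) ^ (-s) := by simp [hg]
  -- conclusion
  have hIcc : ∑ n ∈ Finset.Icc 1 (k + 1), (n : ℂ) ^ (-s) =
      ∑ n ∈ Finset.range k, ((n : ℂ) + 1) ^ (-s) + ((k : ℂ) + 1) ^ (-s) := by
    rw [← Finset.sum_range_succ]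
    have h1 : ∑ x ∈ Finset.Ico 0 (k + 1), ((x + 1 : ℕ) : ℂ) ^ (-s) =
        ∑ x ∈ Finset.Ico (0 + 1) (k + 1 + 1), (x : ℂ) ^ (-s) :=
      Finset.sum_Ico_add' (fun n : ℕ => (n : ℂ) ^ (-s)) 0 (k + 1) 1
    have h2 : Finset.Icc 1 (k + 1) = Finset.Ico (0 + 1) (k + 1 + 1) := by
      ext x
      simp only [Finset.mem_Icc, Finset.mem_Ico]
      omega
    rw [h2, ← h1, Finset.range_eq_Ico]
    apply Finset.sum_congr rfl
    intro x _
    push_cast
    rfl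
  have hkey : (s - 1) * (riemannZeta s - (∑ n ∈ Finset.Icc 1 (k + 1), (n : ℂ) ^ (-s) +
      ((k + 1 : ℕ) : ℂ) ^ (1 - s) / (s - 1) - ((k + 1 : ℕ) : ℂ) ^ (-s) / 2)) =
      ∑' n, LZX.vt (n + k) s - (s - 1) / 2 * g 0 := by
    rw [mul_sub, hz, ← hsplit, hfirst k, hIcc, hg0]
    push_cast
    field_simp
    ring
  have hnorm : ‖s - 1‖ * ‖riemannZeta s - (∑ n ∈ Finset.Icc 1 (k + 1), (n : ℂ) ^ (-s) +
      ((k + 1 : ℕ) : ℂ) ^ (1 - s) / (s - 1) - ((k + 1 : ℕ) : ℂ) ^ (-s) / 2)‖ ≤ D := by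
    rw [← norm_mul, hkey]
    exact hfin
  have hns : ‖s‖ ≤ 1 + |t| := by
    have h1 : ‖s‖ ≤ ‖(1/2 : ℂ)‖ + ‖(t : ℂ) * I‖ := norm_add_le _ _
    rw [norm_mul, Complex.norm_I, mul_one, Complex.norm_real, Real.norm_eq_abs] at h1
    have h2 : ‖(1/2 : ℂ)‖ = 1/2 := by norm_num
    rw [h2] at h1
    linarith
  have hns1 : ‖s + 1‖ ≤ 2 * (1 + |t|) := by
    have h1 : ‖s + 1‖ ≤ ‖s‖ + ‖(1 : ℂ)‖ := norm_add_le _ _
    rw [norm_one] at h1
    linarith [abs_nonneg t]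
  have hcast : (((k + 1 : ℕ) : ℝ)) = (k : ℝ) + 1 := by push_cast; ring
  rw [hcast]
  have hD2 : D ≤ ‖s - 1‖ * (2 * (1 + |t|) ^ 2 * ((k : ℝ) + 1) ^ (-(3/2) : ℝ)) := by
    rw [hD]
    have h1 : ‖s‖ * ‖s + 1‖ ≤ (1 + |t|) * (2 * (1 + |t|)) :=
      mul_le_mul hns hns1 (norm_nonneg _) (by positivity)
    have h2 : 0 ≤ ((k : ℝ) + 1) ^ (-(3/2) : ℝ) := by positivity
    calc ‖s - 1‖ * ‖s‖ * ‖s + 1‖ * ((k : ℝ) + 1) ^ (-(3/2) : ℝ) =
        ‖s - 1‖ * ((‖s‖ * ‖s + 1‖) * ((k : ℝ) + 1) ^ (-(3/2) : ℝ)) := by ring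
      _ ≤ ‖s - 1‖ * (((1 + |t|) * (2 * (1 + |t|))) * ((k : ℝ) + 1) ^ (-(3/2) : ℝ)) := by
          apply mul_le_mul_of_nonneg_left _ (norm_nonneg _)
          exact mul_le_mul_of_nonneg_right h1 h2
      _ = _ := by ring
  exact le_of_mul_le_mul_left (hnorm.trans hD2) hne''

end LZ
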