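import Pool.Agent.Lib.MP_0f5a55_nt.D0
import Pool.Agent.Lib.MP_0f5a55_nt.M03

open Complex MeasureTheory Set Filter Topology
open scoped ComplexConjugate

namespace LZ

private theorem F02_prime {z : ℕ} {S : Finset ℕ} (hS : S ∈ (PP z).powerset) : ∀ p ∈ S, p.Prime := by
  intro p hp
  have := Finset.mem_powerset.1 hS hp
  unfold PP at this
  exact (Finset.mem_filter.1 this).2

private theorem F02_inj {z : ℕ} {S S' : Finset ℕ} (hS : S ∈ (PP z).powerset)
    (hS' : S' ∈ (PP z).powerset) (h : nS S = nS S') : S = S' := by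
  have h1 := Nat.primeFactors_prod (F02_prime hS)
  have h2 := Nat.primeFactors_prod (F02_prime hS')
  unfold nS at h
  rw [← h1, ← h2, h]

private theorem F02_pos {z : ℕ} {S : Finset ℕ} (hS : S ∈ (PP z).powerset) : 0 < nS S := by
  unfold nS
  exact Finset.prod_pos fun p hp => (F02_prime hS p hp).pos

private theorem F02_cf_empty (l : ℝ) : cf 1 l ∅ = 1 := by
  simp [cf, nS, wt]

private theorem F02_one (N : ℕ) (l : ℝ) (hN : 1 ≤ N) : cN N l 1 = 1 := by
  unfold cN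
  have : (PP ⌊Real.exp l⌋₊).powerset.filter (fun S => nS S ∣ 1 ∧ 1 / nS S ≤ N ∧ 1 ≤ 1) = {∅} := by
    ext S
    simp only [Finset.mem_filter, Finset.mem_singleton]
    constructor
    · rintro ⟨hS, h1, -⟩
      rw [Nat.dvd_one] at h1
      apply F02_inj hS (by simp)
      rw [h1]; simp [nS]
    · rintro rfl
      refine ⟨by simp, by simp [nS], ?_, le_rfl⟩
      simpa [nS] using hN
  rw [this, Finset.sum_singleton, F02_cf_empty]

private theorem F02_abs (N : ℕ) (l : ℝ) (n : ℕ) (hl : 0 < l) : |cN N l n| ≤ n.divisors.card := by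
  unfold cN
  have h1 := (cf_sum 1 l (by norm_num) le_rfl hl 0).1
  refine (Finset.abs_sum_le_sum_abs _ _).trans ?_
  refine (Finset.sum_le_sum fun S _ => h1 S).trans ?_
  rw [Finset.sum_const, nsmul_eq_mul, mul_one]
  have : ((PP ⌊Real.exp l⌋₊).powerset.filter (fun S => nS S ∣ n ∧ n / nS S ≤ N ∧ 1 ≤ n)).card ≤
      n.divisors.card := by
    apply Finset.card_le_card_of_injOn nS
    · intro S hS
      have hS' := Finset.mem_filter.1 (Finset.mem_coe.1 hS)
      rw [Finset.mem_coe, Nat.mem_divisors]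
      exact ⟨hS'.2.1, by have := hS'.2.2.2; omega⟩
    · intro S hS S' hS' h
      exact F02_inj (Finset.mem_filter.1 (Finset.mem_coe.1 hS)).1
        (Finset.mem_filter.1 (Finset.mem_coe.1 hS')).1 h
  exact_mod_cast this

private theorem F02_lim (n : ℕ) (hn : 2 ≤ n) (δ : ℝ) (hδ : 0 < δ) :
    ∃ l0 : ℝ, 1 ≤ l0 ∧ ∀ l : ℝ, l0 ≤ l → ∀ N : ℕ, n ≤ N → |cN N l n| ≤ δ := by
  have hne : n.primeFactors.Nonempty := Nat.nonempty_primeFactors.2 (by omega)
  have hwt0 : wt 0 = 1 := by simp [wt]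
  have hwc : Continuous wt := by
    unfold wt
    fun_prop
  have hlim : Tendsto (fun l : ℝ => ∑ S ∈ n.primeFactors.powerset, cf 1 l S) atTop (𝓝 0) := by
    have h0 : (0 : ℝ) = ∑ S ∈ n.primeFactors.powerset, (-1 : ℝ) ^ S.card * wt 0 := by
      rw [← Finset.sum_mul, hwt0, mul_one]
      have := Finset.sum_powerset_neg_one_pow_card_of_nonempty hne
      have h2 : ((∑ m ∈ n.primeFactors.powerset, (-1 : ℤ) ^ m.card : ℤ) : ℝ) = 0 := by
        rw [this]; simp
      push_cast at h2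
      exact h2.symm
    rw [h0]
    apply tendsto_finsetSum
    intro S _
    unfold cf
    apply Tendsto.const_mul
    apply (hwc.tendsto 0).comp
    exact tendsto_const_nhds.div_atTop tendsto_id
  have hev : ∀ᶠ l : ℝ in atTop, |∑ S ∈ n.primeFactors.powerset, cf 1 l S| ≤ δ := by
    have := (hlim.abs).eventually (Iic_mem_nhds (show |(0:ℝ)| < δ by simpa using hδ))
    exact this
  obtain ⟨l1, hl1⟩ := Filter.eventually_atTop.1 hev
  refine ⟨max (max 1 l1) (Real.log n), le_trans (le_max_left _ _) (le_max_left _ _), ?_⟩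
  intro l hl N hN
  have hl1' : l1 ≤ l := le_trans (le_trans (le_max_right _ _) (le_max_left _ _)) hl
  have hll : Real.log n ≤ l := le_trans (le_max_right _ _) hl
  have hn0 : (0 : ℝ) < n := by positivity
  have hnz : n ≤ ⌊Real.exp l⌋₊ := by
    rw [Nat.le_floor_iff (Real.exp_pos l).le]
    calc (n : ℝ) = Real.exp (Real.log n) := (Real.exp_log hn0).symm
      _ ≤ _ := Real.exp_le_exp.2 hll
  have hset : (PP ⌊Real.exp l⌋₊).powerset.filter (fun S => nS S ∣ n ∧ n / nS S ≤ N ∧ 1 ≤ n) =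
      n.primeFactors.powerset := by
    ext S
    simp only [Finset.mem_filter]
    constructor
    · rintro ⟨hS, h1, -⟩
      rw [Finset.mem_powerset]
      intro p hp
      rw [Nat.mem_primeFactors]
      refine ⟨F02_prime hS p hp, (Finset.dvd_prod_of_mem _ hp).trans h1, by omega⟩
    · intro hS
      rw [Finset.mem_powerset] at hS
      refine ⟨?_, ?_, (Nat.div_le_self _ _).trans hN, by omega⟩
      · rw [Finset.mem_powerset]
        intro p hp
        have h1 := Nat.mem_primeFactors.1 (hS hp)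
        unfold PP
        rw [Finset.mem_filter, Finset.mem_range]
        refine ⟨?_, h1.1⟩
        have := Nat.le_of_dvd (by omega) h1.2.1
        omega
      · exact (Finset.prod_dvd_prod_of_subset _ _ _ hS).trans (Nat.prod_primeFactors_dvd n)
  unfold cN
  rw [hset]
  exact hl1 l hl1'

private theorem F02_prod (N : ℕ) (l : ℝ) (s : ℂ) (hl : 0 < l) :
      (∑ n ∈ Finset.Icc 1 N, (n : ℂ) ^ (-s)) * Mol 1 l s =
        ∑ n ∈ Finset.Icc 1 (N * ⌊Real.exp l⌋₊), (cN N l n : ℂ) * (n : ℂ) ^ (-s) := by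
  unfold Mol cN
  rw [Finset.sum_mul_sum]
  have hR : ∀ n ∈ Finset.Icc 1 (N * ⌊Real.exp l⌋₊),
      ((∑ S ∈ (PP ⌊Real.exp l⌋₊).powerset.filter (fun S => nS S ∣ n ∧ n / nS S ≤ N ∧ 1 ≤ n),
        cf 1 l S : ℝ) : ℂ) * (n : ℂ) ^ (-s) =
      ∑ S ∈ (PP ⌊Real.exp l⌋₊).powerset, if (nS S ∣ n ∧ n / nS S ≤ N ∧ 1 ≤ n) then
        (cf 1 l S : ℂ) * (n : ℂ) ^ (-s) else 0 := by
    intro n _
    rw [← Finset.sum_filter]
    push_cast
    rw [Finset.sum_mul]
  rw [Finset.sum_congr rfl hR]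
  refine Finset.sum_comm.trans (Eq.trans ?_ Finset.sum_comm)
  apply Finset.sum_congr rfl
  intro S hS
  by_cases hcf : cf 1 l S = 0
  · simp [hcf]
  have hle := ((cf_sum 1 l (by norm_num) le_rfl hl ⌊Real.exp l⌋₊).2.1 S hS hcf).2
  have hle' : nS S ≤ ⌊Real.exp l⌋₊ := (Nat.le_floor_iff (Real.exp_pos l).le).2 hle
  have hpos := F02_pos hS
  rw [← Finset.sum_filter]
  refine Finset.sum_nbij' (fun m => m * nS S) (fun n => n / nS S) ?_ ?_ ?_ ?_ ?_
  · intro m hm
    rw [Finset.mem_Icc] at hm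
    rw [Finset.mem_filter, Finset.mem_Icc]
    have h1 : 1 ≤ m * nS S := Nat.mul_pos (by omega) hpos
    refine ⟨⟨h1, Nat.mul_le_mul hm.2 hle'⟩, Dvd.intro_left _ rfl, ?_, h1⟩
    rw [Nat.mul_div_cancel _ hpos]
    exact hm.2
  · intro n hn
    rw [Finset.mem_filter, Finset.mem_Icc] at hn
    rw [Finset.mem_Icc]
    refine ⟨?_, hn.2.2.1⟩
    exact Nat.div_pos (Nat.le_of_dvd (by omega) hn.2.1) hpos
  · intro m _
    exact Nat.mul_div_cancel _ hpos
  · intro n hn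
    rw [Finset.mem_filter] at hn
    exact Nat.div_mul_cancel hn.2.1
  · intro m _
    rw [Nat.cast_mul, Complex.natCast_mul_natCast_cpow]
    ring

/-- coefficients of (sum over n <= N) times the mollifier. -/
theorem cN_facts : (∀ (N : ℕ) (l : ℝ), 1 ≤ N → 0 < l → cN N l 1 = 1) ∧
    (∀ (N : ℕ) (l : ℝ) (n : ℕ), 0 < l → |cN N l n| ≤ n.divisors.card) ∧
    (∀ n : ℕ, 2 ≤ n → ∀ δ : ℝ, 0 < δ → ∃ l0 : ℝ, 1 ≤ l0 ∧ ∀ l : ℝ, l0 ≤ l → ∀ N : ℕ, n ≤ N → |cN N l n| ≤ δ) ∧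
    (∀ (N : ℕ) (l : ℝ) (s : ℂ), 1 ≤ N → 0 < l →
      (∑ n ∈ Finset.Icc 1 N, (n : ℂ) ^ (-s)) * Mol 1 l s =
        ∑ n ∈ Finset.Icc 1 (N * ⌊Real.exp l⌋₊), (cN N l n : ℂ) * (n : ℂ) ^ (-s)) :=
  ⟨fun N l hN _ => F02_one N l hN, F02_abs, F02_lim, fun N l s _ hl => F02_prod N l s hl⟩

end LZ
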