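import Pool.Agent.Lib.MP_0f5a55_nt.D0

open Complex MeasureTheory Set Filter Topology
open scoped ComplexConjugate

namespace LZ

theorem F03_two (a : ℕ) : ((a : ℝ) + 1) ≤ 12 * (2 : ℝ) ^ ((a : ℝ) / 8) := by
  have h1 : (2 : ℝ) ^ ((a : ℝ) / 8) = Real.exp (Real.log 2 * ((a : ℝ) / 8)) :=
    Real.rpow_def_of_pos two_pos _
  have h2 := Real.add_one_le_exp (Real.log 2 * ((a : ℝ) / 8))
  have h3 := Real.log_two_gt_d9
  have ha : (0 : ℝ) ≤ a := Nat.cast_nonneg a
  rw [h1]
  nlinarith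

theorem F03_big (a p : ℕ) (hp : 256 ≤ p) : ((a : ℝ) + 1) ≤ ((p : ℝ) ^ a) ^ (1 / 8 : ℝ) := by
  have h1 : ((256 : ℝ) ^ a) ^ (1 / 8 : ℝ) ≤ ((p : ℝ) ^ a) ^ (1 / 8 : ℝ) := by
    apply Real.rpow_le_rpow (by positivity) _ (by norm_num)
    exact pow_le_pow_left₀ (by norm_num) (by exact_mod_cast hp) a
  have h2 : ((256 : ℝ) ^ a) ^ (1 / 8 : ℝ) = 2 ^ a := by
    have h3 : (256 : ℝ) ^ a = ((2 : ℝ) ^ a) ^ (8 : ℕ) := by
      rw [← pow_mul, mul_comm a 8, pow_mul]
      norm_num
    have h4 : (1 / 8 : ℝ) = ((8 : ℕ) : ℝ)⁻¹ := by norm_num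
    rw [h3, h4]
    exact Real.pow_rpow_inv_natCast (by positivity) (by norm_num)
  rw [h2] at h1
  refine le_trans ?_ h1
  have h5 : a + 1 ≤ 2 ^ a := Nat.lt_two_pow_self
  exact_mod_cast h5

/-- divisor bound with exponent 1/8 (d(n)/n^(1/8) is a product over p^a of (a+1)/p^(a/8)). -/
theorem div_bound : ∃ C : ℝ, 0 < C ∧ ∀ n : ℕ, 1 ≤ n → (n.divisors.card : ℝ) ≤ C * (n : ℝ) ^ (1/8 : ℝ) := by
  classical
  refine ⟨12 ^ 256, by positivity, fun n hn => ?_⟩
  have hn0 : n ≠ 0 := by omega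
  rw [Nat.card_divisors hn0]
  push_cast
  have h1 : ∀ p ∈ n.primeFactors, ((n.factorization p : ℝ) + 1) ≤
      (if p < 256 then 12 else 1) * ((p : ℝ) ^ (n.factorization p)) ^ (1 / 8 : ℝ) := by
    intro p hp
    have hpp := Nat.prime_of_mem_primeFactors hp
    split_ifs with h
    · refine (F03_two _).trans (mul_le_mul_of_nonneg_left ?_ (by norm_num))
      have h2 : (2 : ℝ) ^ ((n.factorization p : ℝ) / 8) =
          ((2 : ℝ) ^ (n.factorization p)) ^ (1 / 8 : ℝ) := by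
        rw [← Real.rpow_natCast, ← Real.rpow_mul (by norm_num)]
        congr 1
        ring
      rw [h2]
      apply Real.rpow_le_rpow (by positivity) _ (by norm_num)
      exact pow_le_pow_left₀ (by norm_num) (by exact_mod_cast hpp.two_le) _
    · rw [one_mul]
      exact F03_big _ _ (by omega)
  have h2 : (∏ p ∈ n.primeFactors, ((n.factorization p : ℝ) + 1)) ≤
      ∏ p ∈ n.primeFactors, ((if p < 256 then 12 else 1) *
        ((p : ℝ) ^ (n.factorization p)) ^ (1 / 8 : ℝ)) :=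
    Finset.prod_le_prod (fun p _ => by positivity) h1
  refine h2.trans ?_
  rw [Finset.prod_mul_distrib]
  have h3 : ∏ p ∈ n.primeFactors, ((p : ℝ) ^ (n.factorization p)) ^ (1 / 8 : ℝ) =
      (n : ℝ) ^ (1 / 8 : ℝ) := by
    rw [Real.finset_prod_rpow _ _ (fun p _ => by positivity)]
    congr 1
    have h4 := Nat.factorization_prod_pow_eq_self hn0
    rw [Finsupp.prod] at h4
    rw [Nat.support_factorization] at h4
    exact_mod_cast h4
  rw [h3]
  refine mul_le_mul_of_nonneg_right ?_ (by positivity)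
  rw [Finset.prod_ite, Finset.prod_const_one, mul_one, Finset.prod_const]
  refine pow_le_pow_right₀ (by norm_num) ?_
  calc (n.primeFactors.filter fun p => p < 256).card ≤ (Finset.range 256).card := by
        refine Finset.card_le_card fun p hp => ?_
        rw [Finset.mem_range]
        exact (Finset.mem_filter.mp hp).2
    _ = 256 := Finset.card_range 256

end LZ
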