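import Pool.Agent.Lib.MP_0f5a55_nt.D0
import Pool.Agent.Lib.MP_0f5a55_nt.E05
import Pool.Agent.Lib.MP_0f5a55_nt.E06
import Pool.Agent.Lib.MP_0f5a55_nt.F02
import Pool.Agent.Lib.MP_0f5a55_nt.F03

open Complex MeasureTheory Set Filter Topology
open scoped ComplexConjugate

namespace LZ

/-- the exponential sum over a set of points -/
private noncomputable def SS (r : ℝ) (Y : Finset ℝ) (n : ℕ) : ℂ :=
  ∑ y ∈ Y, (n : ℂ) ^ (-(r * y * I))

private lemma f04_norm_phase (r y : ℝ) {n : ℕ} (hn : 1 ≤ n) : ‖(n : ℂ) ^ (-(r * y * I : ℂ))‖ = 1 := by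
  rw [Complex.norm_natCast_cpow_of_pos (by omega)]
  simp

private lemma f04_SS_le (r : ℝ) (Y : Finset ℝ) {n : ℕ} (hn : 1 ≤ n) : ‖SS r Y n‖ ≤ Y.card := by
  unfold SS
  refine (norm_sum_le _ _).trans ?_
  rw [Finset.sum_congr rfl fun y _ => f04_norm_phase r y hn]
  simp

private lemma f04_split (r1 r2 x y1 y2 : ℝ) {n : ℕ} (hn : 1 ≤ n) :
    (n : ℂ) ^ (-(1/2 + (r1 * y1 + r2 * y2 + x) * I : ℂ)) =
      (n : ℂ) ^ (-(1/2 + x * I : ℂ)) * ((n : ℂ) ^ (-(r1 * y1 * I : ℂ)) *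
        (n : ℂ) ^ (-(r2 * y2 * I : ℂ))) := by
  have hn0 : (n : ℂ) ≠ 0 := by exact_mod_cast (by omega : n ≠ 0)
  rw [← Complex.cpow_add _ _ hn0, ← Complex.cpow_add _ _ hn0]
  congr 1
  ring

private lemma f04_cs (K1 K2 L T M : ℝ) (n1 n2 : ℝ) (hL : 0 ≤ L) (hT : 0 ≤ T) (hM : 0 ≤ M)
    (hK1 : 0 ≤ K1) (hK2 : 0 ≤ K2) (c1 c2 : ℝ) (hc1 : 0 ≤ c1) (hc2 : 0 ≤ c2)
    (h1 : n1 ≤ c1 * T * L) (h2 : n2 ≤ c2 * T * L) (a b : ℝ)
    (ha : a ≤ K1 * L * (T + M) * n1) (hb : b ≤ K2 * L * (T + M) * n2) :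
    Real.sqrt a * Real.sqrt b ≤ Real.sqrt (K1 * c1) * Real.sqrt (K2 * c2) * ((T + M) * (T * L ^ 2))
    := by
  have e1 : Real.sqrt a ≤ Real.sqrt (K1 * c1) * (L * Real.sqrt ((T + M) * T)) := by
    rw [← Real.sqrt_sq hL, ← Real.sqrt_mul (by positivity), ← Real.sqrt_mul (by positivity)]
    apply Real.sqrt_le_sqrt
    refine ha.trans ?_
    calc K1 * L * (T + M) * n1 ≤ K1 * L * (T + M) * (c1 * T * L) :=
          mul_le_mul_of_nonneg_left h1 (by positivity)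
      _ = K1 * c1 * (L ^ 2 * ((T + M) * T)) := by ring
  have e2 : Real.sqrt b ≤ Real.sqrt (K2 * c2) * (L * Real.sqrt ((T + M) * T)) := by
    rw [← Real.sqrt_sq hL, ← Real.sqrt_mul (by positivity), ← Real.sqrt_mul (by positivity)]
    apply Real.sqrt_le_sqrt
    refine hb.trans ?_
    calc K2 * L * (T + M) * n2 ≤ K2 * L * (T + M) * (c2 * T * L) :=
          mul_le_mul_of_nonneg_left h2 (by positivity)
      _ = K2 * c2 * (L ^ 2 * ((T + M) * T)) := by ring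
  have e3 : Real.sqrt ((T + M) * T) * Real.sqrt ((T + M) * T) = (T + M) * T :=
    Real.mul_self_sqrt (by positivity)
  calc Real.sqrt a * Real.sqrt b ≤ (Real.sqrt (K1 * c1) * (L * Real.sqrt ((T + M) * T))) *
        (Real.sqrt (K2 * c2) * (L * Real.sqrt ((T + M) * T))) :=
        mul_le_mul e1 e2 (Real.sqrt_nonneg _) (by positivity)
    _ = Real.sqrt (K1 * c1) * Real.sqrt (K2 * c2) * (L ^ 2 *
        (Real.sqrt ((T + M) * T) * Real.sqrt ((T + M) * T))) := by ring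
    _ = _ := by rw [e3]; ring

/-- the dyadic block -/
private lemma f04_block (r1 r2 d : ℝ) (h1 : r1 ≠ 0) (h2 : r2 ≠ 0) (hd : 0 < d) :
    ∃ K T0 : ℝ, 0 < K ∧ 2 ≤ T0 ∧ ∀ T : ℝ, T0 ≤ T → ∀ Y1 Y2 : Finset ℝ, (∀ y ∈ Y1, |y| ≤ T) →
      (∀ y ∈ Y2, |y| ≤ T) → Sep (d / Real.log T) Y1 → Sep (d / Real.log T) Y2 →
      (Y1.card : ℝ) ≤ K * T * Real.log T ∧ (Y2.card : ℝ) ≤ K * T * Real.log T ∧
      ∀ M : ℕ, 1 ≤ M → (M : ℝ) ≤ T ^ 2 → ∀ c : ℕ → ℝ, (∀ n, |c n| ≤ n.divisors.card) →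
        ∑ n ∈ Finset.Ioc M (2 * M), |c n| * (n : ℝ) ^ (-(1/2) : ℝ) *
          (‖SS r1 Y1 n‖ * ‖SS r2 Y2 n‖) ≤
          K * (M : ℝ) ^ (-(3/8) : ℝ) * ((T + M) * (T * Real.log T ^ 2)) := by
  obtain ⟨Ca, Ta, hCa, hTa, ha⟩ := dual_sieve r1 d h1 hd
  obtain ⟨Cb, Tb, hCb, hTb, hb⟩ := dual_sieve r2 d h2 hd
  obtain ⟨Cc, Tc, hCc, hTc, hc⟩ := sep_count r1 d h1 hd
  obtain ⟨Ce, Te, hCe, hTe, he⟩ := sep_count r2 d h2 hd
  obtain ⟨Cd, hCd, hdiv⟩ := div_bound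
  set K : ℝ := Cc + Ce + Cd * (Real.sqrt (Ca * Cc) * Real.sqrt (Cb * Ce)) with hK
  have hKs : 0 ≤ Cd * (Real.sqrt (Ca * Cc) * Real.sqrt (Cb * Ce)) := by positivity
  refine ⟨K, max (max Ta Tb) (max Tc Te), by positivity,
    hTa.trans ((le_max_left _ _).trans (le_max_left _ _)), ?_⟩
  intro T hT Y1 Y2 hY1 hY2 hs1 hs2
  have hT1 : Ta ≤ T := (le_max_left _ _).trans ((le_max_left _ _).trans hT)
  have hT2 : Tb ≤ T := (le_max_right _ _).trans ((le_max_left _ _).trans hT)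
  have hT3 : Tc ≤ T := (le_max_left _ _).trans ((le_max_right _ _).trans hT)
  have hT4 : Te ≤ T := (le_max_right _ _).trans ((le_max_right _ _).trans hT)
  have hT0 : 0 < T := by linarith
  have hL : 0 ≤ Real.log T := Real.log_nonneg (by linarith)
  have n1 := (hc T hT3 Y1 hY1 hs1).1
  have n2 := (he T hT4 Y2 hY2 hs2).1
  refine ⟨n1.trans ?_, n2.trans ?_, ?_⟩
  · refine mul_le_mul_of_nonneg_right (mul_le_mul_of_nonneg_right ?_ hT0.le) hL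
    rw [hK]
    linarith
  · refine mul_le_mul_of_nonneg_right (mul_le_mul_of_nonneg_right ?_ hT0.le) hL
    rw [hK]
    linarith
  · intro M hM hMT c hcd
    have s1 := ha T hT1 Y1 hY1 hs1 M hM hMT (fun _ => 1)
    have s2 := hb T hT2 Y2 hY2 hs2 M hM hMT (fun _ => 1)
    simp only [one_mul, norm_one, one_pow, Finset.sum_const, nsmul_eq_mul, mul_one] at s1 s2
    have hM0 : (0 : ℝ) < M := by exact_mod_cast hM
    have hcoef : ∀ n ∈ Finset.Ioc M (2 * M), |c n| * (n : ℝ) ^ (-(1/2) : ℝ) ≤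
        Cd * (M : ℝ) ^ (-(3/8) : ℝ) := by
      intro n hn
      rw [Finset.mem_Ioc] at hn
      have hn1 : 1 ≤ n := by omega
      have hn0 : (0 : ℝ) < n := by exact_mod_cast hn1
      have hMn : (M : ℝ) ≤ n := by exact_mod_cast hn.1.le
      calc |c n| * (n : ℝ) ^ (-(1/2) : ℝ) ≤ (Cd * (n : ℝ) ^ (1/8 : ℝ)) * (n : ℝ) ^ (-(1/2) : ℝ) :=
            mul_le_mul_of_nonneg_right ((hcd n).trans (hdiv n hn1)) (by positivity)
        _ = Cd * (n : ℝ) ^ (-(3/8) : ℝ) := by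
            rw [mul_assoc, ← Real.rpow_add hn0]
            norm_num
        _ ≤ Cd * (M : ℝ) ^ (-(3/8) : ℝ) :=
            mul_le_mul_of_nonneg_left
              (Real.rpow_le_rpow_of_nonpos hM0 hMn (by norm_num)) hCd.le
    have hstep1 : ∑ n ∈ Finset.Ioc M (2 * M), |c n| * (n : ℝ) ^ (-(1/2) : ℝ) *
          (‖SS r1 Y1 n‖ * ‖SS r2 Y2 n‖) ≤
        Cd * (M : ℝ) ^ (-(3/8) : ℝ) *
          ∑ n ∈ Finset.Ioc M (2 * M), ‖SS r1 Y1 n‖ * ‖SS r2 Y2 n‖ := by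
      rw [Finset.mul_sum]
      exact Finset.sum_le_sum fun n hn => mul_le_mul_of_nonneg_right (hcoef n hn) (by positivity)
    have hstep2 := Real.sum_mul_le_sqrt_mul_sqrt (Finset.Ioc M (2 * M))
      (fun n => ‖SS r1 Y1 n‖) (fun n => ‖SS r2 Y2 n‖)
    have hstep3 := f04_cs Ca Cb (Real.log T) T M _ _ hL hT0.le hM0.le hCa.le hCb.le Cc Ce hCc.le
      hCe.le n1 n2 _ _ s1 s2
    have hMr : 0 ≤ (M : ℝ) ^ (-(3/8) : ℝ) := by positivity
    have hpos : 0 ≤ (T + M) * (T * Real.log T ^ 2) := by positivity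
    calc _ ≤ Cd * (M : ℝ) ^ (-(3/8) : ℝ) *
          ∑ n ∈ Finset.Ioc M (2 * M), ‖SS r1 Y1 n‖ * ‖SS r2 Y2 n‖ := hstep1
      _ ≤ Cd * (M : ℝ) ^ (-(3/8) : ℝ) * (Real.sqrt (Ca * Cc) * Real.sqrt (Cb * Ce) *
          ((T + M) * (T * Real.log T ^ 2))) :=
          mul_le_mul_of_nonneg_left (hstep2.trans hstep3) (by positivity)
      _ = (Cd * (Real.sqrt (Ca * Cc) * Real.sqrt (Cb * Ce))) * ((M : ℝ) ^ (-(3/8) : ℝ) *
          ((T + M) * (T * Real.log T ^ 2))) := by ring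
      _ ≤ K * ((M : ℝ) ^ (-(3/8) : ℝ) * ((T + M) * (T * Real.log T ^ 2))) :=
          mul_le_mul_of_nonneg_right (by rw [hK]; linarith) (by positivity)
      _ = _ := by ring

private lemma f04_ratio : (2 : ℝ) ^ (-(3/8) : ℝ) ≤ 4 / 5 := by
  have h1 : ((2 : ℝ) ^ (-(3/8) : ℝ)) ^ 8 ≤ (4 / 5) ^ 8 := by
    rw [← Real.rpow_natCast, ← Real.rpow_mul (by norm_num)]
    have h2 : (-(3/8) : ℝ) * ((8 : ℕ) : ℝ) = -3 := by norm_num
    rw [h2, Real.rpow_neg (by norm_num)]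
    have h3 : (2 : ℝ) ^ (3 : ℝ) = 8 := by
      have := Real.rpow_natCast (2 : ℝ) 3
      norm_num at this ⊢
    rw [h3]
    norm_num
  exact le_of_pow_le_pow_left₀ (by norm_num) (by norm_num) h1

private lemma f04_geom (r : ℝ) (h0 : 0 ≤ r) (h1 : r ≤ 4 / 5) (n : ℕ) :
    ∑ i ∈ Finset.range n, r ^ i ≤ 5 := by
  have h2 := mul_neg_geom_sum r n
  have h3 : 0 ≤ r ^ n := by positivity
  have h4 : 0 ≤ ∑ i ∈ Finset.range n, r ^ i := Finset.sum_nonneg fun i _ => by positivity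
  nlinarith

/-- sum over the dyadic blocks -/
private lemma f04_dyadic (W : ℕ → ℝ) (hW : ∀ n, 0 ≤ W n) (X0 Z : ℕ) (hX0 : 1 ≤ X0) (A B : ℝ)
    (hA : 0 ≤ A) (hB : 0 ≤ B) (I : ℕ) (hI : Z ≤ X0 * 2 ^ I)
    (hblock : ∀ i < I, ∑ n ∈ Finset.Ioc (X0 * 2 ^ i) (2 * (X0 * 2 ^ i)), W n ≤
      A * ((X0 * 2 ^ i : ℕ) : ℝ) ^ (-(3/8) : ℝ) + B) :
    ∑ n ∈ Finset.Ioc X0 Z, W n ≤ 5 * A * (X0 : ℝ) ^ (-(3/8) : ℝ) + I * B := by
  have hX00 : (0 : ℝ) < X0 := by exact_mod_cast hX0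
  have hsum : ∀ J : ℕ, ∑ n ∈ Finset.Ioc X0 (X0 * 2 ^ J), W n =
      ∑ i ∈ Finset.range J, ∑ n ∈ Finset.Ioc (X0 * 2 ^ i) (2 * (X0 * 2 ^ i)), W n := by
    intro J
    induction J with
    | zero => simp
    | succ J ih =>
      rw [Finset.sum_range_succ, ← ih]
      have h1 : X0 ≤ X0 * 2 ^ J := Nat.le_mul_of_pos_right _ (by positivity)
      have h2 : X0 * 2 ^ J ≤ X0 * 2 ^ (J + 1) := Nat.mul_le_mul_left _ (Nat.pow_le_pow_right
        (by norm_num) (by omega))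
      have h3 : X0 * 2 ^ (J + 1) = 2 * (X0 * 2 ^ J) := by ring
      rw [← h3]
      exact (Finset.sum_Ioc_consecutive W h1 h2).symm
  have h4 : ∑ n ∈ Finset.Ioc X0 Z, W n ≤ ∑ n ∈ Finset.Ioc X0 (X0 * 2 ^ I), W n :=
    Finset.sum_le_sum_of_subset_of_nonneg (Finset.Ioc_subset_Ioc_right hI) fun n _ _ => hW n
  refine h4.trans ?_
  rw [hsum]
  have h5 : ∑ i ∈ Finset.range I, ∑ n ∈ Finset.Ioc (X0 * 2 ^ i) (2 * (X0 * 2 ^ i)), W n ≤
      ∑ i ∈ Finset.range I, (A * (X0 : ℝ) ^ (-(3/8) : ℝ) * ((2 : ℝ) ^ (-(3/8) : ℝ)) ^ i + B) := by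
    refine Finset.sum_le_sum fun i hi => (hblock i (Finset.mem_range.mp hi)).trans (le_of_eq ?_)
    push_cast
    rw [Real.mul_rpow hX00.le (by positivity), ← Real.rpow_natCast 2 i,
      ← Real.rpow_mul (by norm_num), mul_comm (i : ℝ), Real.rpow_mul (by norm_num),
      Real.rpow_natCast]
    ring
  refine h5.trans ?_
  rw [Finset.sum_add_distrib, Finset.sum_const, Finset.card_range, nsmul_eq_mul,
    ← Finset.mul_sum]
  have h6 := f04_geom ((2 : ℝ) ^ (-(3/8) : ℝ)) (by positivity) f04_ratio I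
  have h7 : 0 ≤ A * (X0 : ℝ) ^ (-(3/8) : ℝ) := by positivity
  nlinarith [mul_le_mul_of_nonneg_left h6 h7]

private lemma f04_event (κ K δ : ℝ) (hκ : 0 < κ) (hK : 0 < K) (hδ : 0 < δ) (X0 : ℕ) :
    ∀ᶠ T : ℝ in atTop, 2 ≤ T ∧ 1 ≤ Real.log T ∧ K * (4 * Real.log T * T ^ (19/20 : ℝ)) ≤ κ * T ∧
      ∀ n ∈ Finset.Ioc 1 X0, |cN ⌊T ^ (3/2 : ℝ)⌋₊ (Real.log T / 1500) n| ≤ δ := by
  have e1 := eventually_ge_atTop (2 : ℝ)
  have e2 := Real.tendsto_log_atTop.eventually_ge_atTop (1 : ℝ)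
  have e3 : ∀ᶠ T : ℝ in atTop, K * (4 * Real.log T * T ^ (19/20 : ℝ)) ≤ κ * T := by
    have h := (isLittleO_log_rpow_atTop (show (0 : ℝ) < 1 / 20 by norm_num)).bound
      (show (0 : ℝ) < κ / (4 * K) by positivity)
    filter_upwards [h, e1, e2] with T h1 h2 h3
    have hT0 : 0 < T := by linarith
    rw [Real.norm_of_nonneg (by linarith), Real.norm_of_nonneg (by positivity)] at h1
    have h4 : T = T ^ (1 / 20 : ℝ) * T ^ (19/20 : ℝ) := by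
      rw [← Real.rpow_add hT0]
      norm_num
    have h5 : 0 < T ^ (19/20 : ℝ) := by positivity
    calc K * (4 * Real.log T * T ^ (19/20 : ℝ)) = (4 * K) * Real.log T * T ^ (19/20 : ℝ) := by ring
      _ ≤ (4 * K) * (κ / (4 * K) * T ^ (1 / 20 : ℝ)) * T ^ (19/20 : ℝ) :=
          mul_le_mul_of_nonneg_right (mul_le_mul_of_nonneg_left h1 (by positivity)) h5.le
      _ = κ * (T ^ (1 / 20 : ℝ) * T ^ (19/20 : ℝ)) := by field_simp
      _ = κ * T := by rw [← h4]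
  have e4 : ∀ᶠ T : ℝ in atTop, ∀ n ∈ Finset.Ioc 1 X0,
      |cN ⌊T ^ (3/2 : ℝ)⌋₊ (Real.log T / 1500) n| ≤ δ := by
    rw [Filter.eventually_all_finset]
    intro n hn
    rw [Finset.mem_Ioc] at hn
    obtain ⟨l0, hl0, hl⟩ := cN_facts.2.2.1 n (by omega) δ hδ
    have f1 := Real.tendsto_log_atTop.eventually_ge_atTop (1500 * l0)
    have f2 := (tendsto_rpow_atTop (show (0 : ℝ) < 3 / 2 by norm_num)).eventually_ge_atTop (n : ℝ)
    filter_upwards [f1, f2] with T g1 g2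
    exact hl _ (by linarith) _ (Nat.le_floor g2)
  filter_upwards [e1, e2, e3, e4] with T h1 h2 h3 h4
  exact ⟨h1, h2, h3, h4⟩

/-- the exact formula for the double sum -/
private lemma f04_exact (r1 r2 x l : ℝ) (N : ℕ) (hN : 1 ≤ N) (hl : 0 < l) (Y1 Y2 : Finset ℝ) :
    ∑ y1 ∈ Y1, ∑ y2 ∈ Y2, ((∑ n ∈ Finset.Icc 1 N,
      (n : ℂ) ^ (-(1/2 + (r1 * y1 + r2 * y2 + x) * I : ℂ))) *
      Mol 1 l (1/2 + (r1 * y1 + r2 * y2 + x) * I)) - (Y1.card : ℂ) * Y2.card =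
      ∑ n ∈ Finset.Ioc 1 (N * ⌊Real.exp l⌋₊), (cN N l n : ℂ) * (n : ℂ) ^ (-(1/2 + x * I : ℂ)) *
        (SS r1 Y1 n * SS r2 Y2 n) := by
  have hz : 1 ≤ ⌊Real.exp l⌋₊ := Nat.le_floor (by
    push_cast
    exact Real.one_le_exp hl.le)
  have h1 : ∑ y1 ∈ Y1, ∑ y2 ∈ Y2, ((∑ n ∈ Finset.Icc 1 N,
      (n : ℂ) ^ (-(1/2 + (r1 * y1 + r2 * y2 + x) * I : ℂ))) *
      Mol 1 l (1/2 + (r1 * y1 + r2 * y2 + x) * I)) =
      ∑ n ∈ Finset.Icc 1 (N * ⌊Real.exp l⌋₊), (cN N l n : ℂ) * (n : ℂ) ^ (-(1/2 + x * I : ℂ)) *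
        (SS r1 Y1 n * SS r2 Y2 n) := by
    have h2 : ∀ y1 y2 : ℝ, (∑ n ∈ Finset.Icc 1 N,
      (n : ℂ) ^ (-(1/2 + (r1 * y1 + r2 * y2 + x) * I : ℂ))) *
      Mol 1 l (1/2 + (r1 * y1 + r2 * y2 + x) * I) =
      ∑ n ∈ Finset.Icc 1 (N * ⌊Real.exp l⌋₊), (cN N l n : ℂ) *
        (n : ℂ) ^ (-(1/2 + (r1 * y1 + r2 * y2 + x) * I : ℂ)) := fun y1 y2 =>
      cN_facts.2.2.2 N l _ hN hl
    simp_rw [h2]
    rw [Finset.sum_congr rfl fun y1 _ => Finset.sum_comm, Finset.sum_comm]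
    refine Finset.sum_congr rfl fun n hn => ?_
    have hn1 : 1 ≤ n := (Finset.mem_Icc.mp hn).1
    unfold SS
    rw [Finset.sum_mul_sum, Finset.mul_sum]
    refine Finset.sum_congr rfl fun y1 _ => ?_
    rw [Finset.mul_sum]
    refine Finset.sum_congr rfl fun y2 _ => ?_
    rw [f04_split r1 r2 x y1 y2 hn1]
    ring
  rw [h1, ← Finset.sum_Ioc_add_eq_sum_Icc (Nat.one_le_iff_ne_zero.mpr
    (Nat.mul_ne_zero (by omega) (by omega)))]
  have h3 : SS r1 Y1 1 = Y1.card := by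
    unfold SS
    simp
  have h4 : SS r2 Y2 1 = Y2.card := by
    unfold SS
    simp
  rw [cN_facts.1 N l hN hl, h3, h4]
  simp

/-- (7.2), polynomial part: N = floor(T^(3/2)), l = log T/1500. n = 1 gives |Y1||Y2|; 2 <= n <= X0: coefficients -> 0;
n > X0: dyadic blocks Ioc M (2M), M = X0 2^i <= T^2, Cauchy-Schwarz and dual_sieve (b y = exp(..) of modulus 1). -/
theorem poly_sum (r1 r2 d : ℝ) (h1 : r1 ≠ 0) (h2 : r2 ≠ 0) (hd : 0 < d) : ∀ κ : ℝ, 0 < κ → ∃ T0 : ℝ, 2 ≤ T0 ∧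
    ∀ T : ℝ, T0 ≤ T → ∀ Y1 Y2 : Finset ℝ, (∀ y ∈ Y1, |y| ≤ T) → (∀ y ∈ Y2, |y| ≤ T) → Sep (d / Real.log T) Y1 →
    Sep (d / Real.log T) Y2 → ∀ x : ℝ,
    ‖∑ y1 ∈ Y1, ∑ y2 ∈ Y2, ((∑ n ∈ Finset.Icc 1 ⌊T ^ (3/2 : ℝ)⌋₊, (n : ℂ) ^ (-(1/2 + (r1 * y1 + r2 * y2 + x) * I))) *
      Mol 1 (Real.log T / 1500) (1/2 + (r1 * y1 + r2 * y2 + x) * I)) - (Y1.card : ℂ) * Y2.card‖ ≤
      κ * (T * Real.log T) ^ 2 := by
  classical
  intro κ hκ
  obtain ⟨K, T1, hK, hT1, hblk⟩ := f04_block r1 r2 d h1 h2 hd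
  -- choice of X0
  have hx := ((tendsto_rpow_neg_atTop (show (0 : ℝ) < 3 / 8 by norm_num)).comp
    tendsto_natCast_atTop_atTop).eventually (gt_mem_nhds (show (0 : ℝ) < κ / (15 * K) by positivity))
  obtain ⟨X0, hX0, hX1⟩ := (hx.and (eventually_ge_atTop 1)).exists
  simp only [Function.comp_apply] at hX0
  set δ : ℝ := κ / (3 * (X0 + 1) * K ^ 2) with hδdef
  have hδ : 0 < δ := by positivity
  obtain ⟨T2, hT2⟩ := eventually_atTop.mp (f04_event (κ / 3) K δ (by positivity) hK hδ X0)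
  refine ⟨max T1 T2, hT1.trans (le_max_left _ _), ?_⟩
  intro T hT Y1 Y2 hY1 hY2 hs1 hs2 x
  obtain ⟨hTt, hL1, hTK, hcsmall⟩ := hT2 T ((le_max_right _ _).trans hT)
  obtain ⟨hn1, hn2, hM⟩ := hblk T ((le_max_left _ _).trans hT) Y1 Y2 hY1 hY2 hs1 hs2
  have hT0 : 0 < T := by linarith
  set L := Real.log T with hL
  set N := ⌊T ^ (3/2 : ℝ)⌋₊ with hN
  have hl : 0 < L / 1500 := by linarith
  have hN1 : 1 ≤ N := Nat.le_floor (by
    push_cast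
    exact Real.one_le_rpow (by linarith) (by norm_num))
  rw [f04_exact r1 r2 x (L / 1500) N hN1 hl Y1 Y2]
  set z := ⌊Real.exp (L / 1500)⌋₊ with hz
  set W : ℕ → ℝ := fun n => |cN N (L / 1500) n| * (n : ℝ) ^ (-(1/2) : ℝ) *
    (‖SS r1 Y1 n‖ * ‖SS r2 Y2 n‖) with hW
  have hW0 : ∀ n, 0 ≤ W n := fun n => by
    rw [hW]
    positivity
  have hnorm : ‖∑ n ∈ Finset.Ioc 1 (N * z), (cN N (L / 1500) n : ℂ) *
      (n : ℂ) ^ (-(1/2 + x * I : ℂ)) * (SS r1 Y1 n * SS r2 Y2 n)‖ ≤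
      ∑ n ∈ Finset.Ioc 1 (N * z), W n := by
    refine (norm_sum_le _ _).trans (Finset.sum_le_sum fun n hn => le_of_eq ?_)
    rw [Finset.mem_Ioc] at hn
    rw [norm_mul, norm_mul, norm_mul, Complex.norm_real, Real.norm_eq_abs,
      Complex.norm_natCast_cpow_of_pos (by omega)]
    have h3 : (-(1/2 + x * I : ℂ)).re = (-(1/2) : ℝ) := by simp
    rw [h3]
  refine hnorm.trans ?_
  -- the range of the sum
  have hNle : (N : ℝ) ≤ T ^ (3/2 : ℝ) := Nat.floor_le (by positivity)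
  have hzle : (z : ℝ) ≤ T ^ (1/1500 : ℝ) := by
    have h3 : (z : ℝ) ≤ Real.exp (L / 1500) := Nat.floor_le (Real.exp_pos _).le
    rw [Real.rpow_def_of_pos hT0]
    have h4 : Real.log T * (1 / 1500) = L / 1500 := by ring
    rw [h4]
    exact h3
  have hNz : ((N * z : ℕ) : ℝ) ≤ T ^ (38/25 : ℝ) := by
    push_cast
    calc (N : ℝ) * z ≤ T ^ (3/2 : ℝ) * T ^ (1/1500 : ℝ) :=
          mul_le_mul hNle hzle (Nat.cast_nonneg _) (by positivity)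
      _ = T ^ (3/2 + 1/1500 : ℝ) := (Real.rpow_add hT0 _ _).symm
      _ ≤ T ^ (38/25 : ℝ) := Real.rpow_le_rpow_of_exponent_le (by linarith) (by norm_num)
  have hNz2 : ((N * z : ℕ) : ℝ) ≤ T ^ 2 := by
    refine hNz.trans ?_
    rw [← Real.rpow_natCast T 2]
    exact Real.rpow_le_rpow_of_exponent_le (by linarith) (by norm_num)
  -- number of blocks
  have hexI : ∃ I : ℕ, N * z ≤ X0 * 2 ^ I := by
    refine ⟨N * z, ?_⟩
    calc N * z ≤ 2 ^ (N * z) := Nat.lt_two_pow_self.le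
      _ ≤ X0 * 2 ^ (N * z) := Nat.le_mul_of_pos_left _ (by omega)
  set I0 := Nat.find hexI with hI0
  have hI0spec : N * z ≤ X0 * 2 ^ I0 := Nat.find_spec hexI
  have hI0min : ∀ i < I0, X0 * 2 ^ i < N * z := fun i hi => by
    have := Nat.find_min hexI hi
    omega
  have hI0le : (I0 : ℝ) ≤ 4 * L := by
    rcases Nat.eq_zero_or_pos I0 with h0 | hpos
    · rw [h0]
      push_cast
      linarith
    · have h3 := hI0min (I0 - 1) (by omega)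
      have h4 : 2 ^ (I0 - 1) ≤ X0 * 2 ^ (I0 - 1) := Nat.le_mul_of_pos_left _ (by omega)
      have h5 : ((2 : ℝ)) ^ (I0 - 1) ≤ T ^ 2 := by
        have h6 : ((2 ^ (I0 - 1) : ℕ) : ℝ) ≤ ((N * z : ℕ) : ℝ) := by
          exact_mod_cast h4.trans h3.le
        push_cast at h6 hNz2
        linarith
      have h7 := Real.log_le_log (by positivity) h5
      rw [Real.log_pow, Real.log_pow] at h7
      have h8 := Real.log_two_gt_d9
      have h9 : ((I0 - 1 : ℕ) : ℝ) = (I0 : ℝ) - 1 := by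
        rw [Nat.cast_sub hpos]
        simp
      rw [h9] at h7
      push_cast at h7
      have h10 : (1 : ℝ) ≤ I0 := by exact_mod_cast hpos
      nlinarith
  -- blocks
  have hTL : 0 ≤ T * L ^ 2 := by positivity
  have hdy := f04_dyadic W hW0 X0 (N * z) hX1 (K * (T * (T * L ^ 2)))
    (K * (T ^ (19/20 : ℝ) * (T * L ^ 2))) (by positivity) (by positivity) I0 hI0spec (by
    intro i hi
    have hM1 : 1 ≤ X0 * 2 ^ i := Nat.one_le_iff_ne_zero.mpr (by positivity)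
    have h3 := hI0min i hi
    have h4 : ((X0 * 2 ^ i : ℕ) : ℝ) ≤ ((N * z : ℕ) : ℝ) := by exact_mod_cast h3.le
    have hb := hM (X0 * 2 ^ i) hM1 (h4.trans hNz2) (fun n => cN N (L / 1500) n)
      (fun n => cN_facts.2.1 N (L / 1500) n hl)
    refine hb.trans ?_
    have hMpos : (0 : ℝ) < ((X0 * 2 ^ i : ℕ) : ℝ) := by exact_mod_cast hM1
    set M := ((X0 * 2 ^ i : ℕ) : ℝ) with hMdef
    have h5 : M ^ (-(3/8) : ℝ) * M ≤ T ^ (19/20 : ℝ) := by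
      have h6 : M ^ (-(3/8) : ℝ) * M = M ^ (5/8 : ℝ) := by
        conv_lhs => rw [← Real.rpow_one M]
        rw [← Real.rpow_mul hMpos.le, ← Real.rpow_add hMpos]
        norm_num
      rw [h6]
      calc M ^ (5/8 : ℝ) ≤ (T ^ (38/25 : ℝ)) ^ (5/8 : ℝ) :=
            Real.rpow_le_rpow hMpos.le (h4.trans hNz) (by norm_num)
        _ = T ^ (19/20 : ℝ) := by
            rw [← Real.rpow_mul hT0.le]
            norm_num
    have h7 : K * M ^ (-(3/8) : ℝ) * ((T + M) * (T * L ^ 2)) =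
        K * (T * (T * L ^ 2)) * M ^ (-(3/8) : ℝ) +
          K * ((M ^ (-(3/8) : ℝ) * M) * (T * L ^ 2)) := by ring
    rw [h7]
    have h8 := mul_le_mul_of_nonneg_left (mul_le_mul_of_nonneg_right h5 hTL) hK.le
    linarith)
  -- small n
  have hsmall : ∑ n ∈ Finset.Ioc 1 X0, W n ≤ κ / 3 * (T * L) ^ 2 := by
    have h3 : ∀ n ∈ Finset.Ioc 1 X0, W n ≤ δ * (K * T * L * (K * T * L)) := by
      intro n hn
      have hn' := Finset.mem_Ioc.mp hn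
      have h4 := hcsmall n hn
      have h5 : (n : ℝ) ^ (-(1/2) : ℝ) ≤ 1 :=
        Real.rpow_le_one_of_one_le_of_nonpos (by exact_mod_cast hn'.1.le) (by norm_num)
      have h6 : ‖SS r1 Y1 n‖ ≤ K * T * L := (f04_SS_le r1 Y1 (by omega)).trans hn1
      have h7 : ‖SS r2 Y2 n‖ ≤ K * T * L := (f04_SS_le r2 Y2 (by omega)).trans hn2
      have h8 : |cN N (L / 1500) n| * (n : ℝ) ^ (-(1/2) : ℝ) ≤ δ := by
        calc |cN N (L / 1500) n| * (n : ℝ) ^ (-(1/2) : ℝ) ≤ δ * 1 :=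
              mul_le_mul h4 h5 (by positivity) hδ.le
          _ = δ := mul_one _
      exact mul_le_mul h8 (mul_le_mul h6 h7 (norm_nonneg _) (by positivity)) (by positivity) hδ.le
    refine (Finset.sum_le_sum h3).trans ?_
    rw [Finset.sum_const, nsmul_eq_mul, Nat.card_Ioc]
    have h9 : ((X0 - 1 : ℕ) : ℝ) ≤ X0 + 1 := by
      have : X0 - 1 ≤ X0 + 1 := by omega
      exact_mod_cast this
    calc ((X0 - 1 : ℕ) : ℝ) * (δ * (K * T * L * (K * T * L))) ≤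
          (X0 + 1) * (δ * (K * T * L * (K * T * L))) :=
          mul_le_mul_of_nonneg_right h9 (by positivity)
      _ = κ / 3 * (T * L) ^ 2 := by
          rw [hδdef]
          field_simp
  -- splitting
  have hsplit : ∑ n ∈ Finset.Ioc 1 (N * z), W n ≤
      ∑ n ∈ Finset.Ioc 1 X0, W n + ∑ n ∈ Finset.Ioc X0 (N * z), W n := by
    rcases le_total X0 (N * z) with h3 | h3
    · rw [Finset.sum_Ioc_consecutive W hX1 h3]
    · have h4 : ∑ n ∈ Finset.Ioc 1 (N * z), W n ≤ ∑ n ∈ Finset.Ioc 1 X0, W n :=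
        Finset.sum_le_sum_of_subset_of_nonneg (Finset.Ioc_subset_Ioc_right h3) fun n _ _ => hW0 n
      have h5 : 0 ≤ ∑ n ∈ Finset.Ioc X0 (N * z), W n := Finset.sum_nonneg fun n _ => hW0 n
      linarith
  refine hsplit.trans ?_
  have hmain1 : 5 * (K * (T * (T * L ^ 2))) * (X0 : ℝ) ^ (-(3/8) : ℝ) ≤ κ / 3 * (T * L) ^ 2 := by
    have h3 : 5 * K * (X0 : ℝ) ^ (-(3/8) : ℝ) ≤ κ / 3 := by
      have h4 : 5 * K * (X0 : ℝ) ^ (-(3/8) : ℝ) ≤ 5 * K * (κ / (15 * K)) :=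
        mul_le_mul_of_nonneg_left hX0.le (by positivity)
      refine h4.trans (le_of_eq ?_)
      field_simp
      norm_num
    calc 5 * (K * (T * (T * L ^ 2))) * (X0 : ℝ) ^ (-(3/8) : ℝ) =
          (5 * K * (X0 : ℝ) ^ (-(3/8) : ℝ)) * (T * L) ^ 2 := by ring
      _ ≤ κ / 3 * (T * L) ^ 2 := mul_le_mul_of_nonneg_right h3 (by positivity)
  have hmain2 : (I0 : ℝ) * (K * (T ^ (19/20 : ℝ) * (T * L ^ 2))) ≤ κ / 3 * (T * L) ^ 2 := by
    calc (I0 : ℝ) * (K * (T ^ (19/20 : ℝ) * (T * L ^ 2))) ≤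
          (4 * L) * (K * (T ^ (19/20 : ℝ) * (T * L ^ 2))) :=
          mul_le_mul_of_nonneg_right hI0le (by positivity)
      _ = (K * (4 * L * T ^ (19/20 : ℝ))) * (T * L ^ 2) := by ring
      _ ≤ (κ / 3 * T) * (T * L ^ 2) := mul_le_mul_of_nonneg_right hTK hTL
      _ = κ / 3 * (T * L) ^ 2 := by ring
  linarith

end LZ
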