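import Pool.Agent.Lib.MP_0f5a55_nt.D0
import Pool.Agent.Lib.MP_0f5a55_nt.F01
import Pool.Agent.Lib.MP_0f5a55_nt.F04
import Pool.Agent.Lib.MP_0f5a55_nt.E06
import Pool.Agent.Lib.MP_0f5a55_nt.M03

open Complex MeasureTheory Set Filter Topology
open scoped ComplexConjugate

namespace LZ

/-- the mollifier on the critical line -/
theorem F05_mol {l : ℝ} (hl : 0 < l) (t : ℝ) : ‖Mol 1 l (1/2 + t * I)‖ ≤ Real.exp l := by
  obtain ⟨_, _, h3⟩ := cf_sum 1 l zero_le_one le_rfl hl ⌊Real.exp l⌋₊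
  refine le_trans ?_ h3
  unfold Mol
  refine norm_sum_le_of_le _ fun S hS => ?_
  have h1 : 0 < nS S := by
    unfold nS
    refine Finset.prod_pos fun p hp => ?_
    have h2 := Finset.mem_powerset.mp hS hp
    exact (Finset.mem_filter.mp h2).2.pos
  have h4 : ‖(nS S : ℂ) ^ (-(1/2 + (t : ℂ) * I))‖ ≤ 1 := by
    rw [Complex.norm_natCast_cpow_of_pos h1]
    have h5 : (-(1/2 + (t : ℂ) * I)).re = -(1/2) := by simp
    rw [h5]
    exact Real.rpow_le_one_of_one_le_of_nonpos (by exact_mod_cast h1) (by norm_num)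
  calc ‖(cf 1 l S : ℂ) * (nS S : ℂ) ^ (-(1/2 + (t : ℂ) * I))‖
      = |cf 1 l S| * ‖(nS S : ℂ) ^ (-(1/2 + (t : ℂ) * I))‖ := by
        rw [norm_mul, Complex.norm_real, Real.norm_eq_abs]
    _ ≤ |cf 1 l S| * 1 := mul_le_mul_of_nonneg_left h4 (abs_nonneg _)
    _ = |cf 1 l S| := mul_one _

/-- the distance to the pole -/
theorem F05_pole (t : ℝ) : (1 + |t|) / 3 ≤ ‖(1/2 + (t : ℂ) * I) - 1‖ := by
  have h1 : ‖(1/2 + (t : ℂ) * I) - 1‖ ^ 2 = 1/4 + t ^ 2 := by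
    rw [Complex.sq_norm, Complex.normSq_apply]
    simp
    ring
  have h2 : ((1 + |t|) / 3) ^ 2 ≤ ‖(1/2 + (t : ℂ) * I) - 1‖ ^ 2 := by
    rw [h1]
    nlinarith [sq_abs t, abs_nonneg t, sq_nonneg (2 * |t| - 1/2)]
  exact (sq_le_sq₀ (by positivity) (norm_nonneg _)).mp h2

/-- one value -/
theorem F05_point {Cz : ℝ} (hz : ∀ (t : ℝ) (N : ℕ), 1 ≤ N →
    ‖riemannZeta (1/2 + t * I) - (∑ n ∈ Finset.Icc 1 N, (n : ℂ) ^ (-(1/2 + t * I)) +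
      (N : ℂ) ^ (1 - (1/2 + t * I)) / ((1/2 + t * I) - 1) - (N : ℂ) ^ (-(1/2 + t * I)) / 2)‖ ≤
      Cz * (1 + |t|) ^ 2 * (N : ℝ) ^ (-(3/2) : ℝ)) {l : ℝ} (hl : 0 < l) (t : ℝ) {N : ℕ}
    (hN : 1 ≤ N) :
    ‖FF l (1/2 + t * I) - (∑ n ∈ Finset.Icc 1 N, (n : ℂ) ^ (-(1/2 + t * I))) *
      Mol 1 l (1/2 + t * I)‖ ≤ (3 * (N : ℝ) ^ (1/2 : ℝ) * (1 / (1 + |t|)) +
        (N : ℝ) ^ (-(1/2) : ℝ) / 2 + Cz * (1 + |t|) ^ 2 * (N : ℝ) ^ (-(3/2) : ℝ)) * Real.exp l := by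
  have hN0 : 0 < N := hN
  obtain ⟨s, hs⟩ : ∃ s : ℂ, s = 1/2 + t * I := ⟨_, rfl⟩
  obtain ⟨Sm, hSm⟩ : ∃ Sm : ℂ, Sm = ∑ n ∈ Finset.Icc 1 N, (n : ℂ) ^ (-s) := ⟨_, rfl⟩
  have h0 := hz t N hN
  have hmol := F05_mol hl t
  have hpole := F05_pole t
  rw [← hs] at h0 hmol hpole ⊢
  rw [← hSm] at h0 ⊢
  have h1 : ‖(N : ℂ) ^ (1 - s) / (s - 1)‖ ≤ 3 * (N : ℝ) ^ (1/2 : ℝ) * (1 / (1 + |t|)) := by
    rw [norm_div, Complex.norm_natCast_cpow_of_pos hN0]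
    have h2 : (1 - s).re = 1/2 := by
      rw [hs]
      simp
      norm_num
    rw [h2]
    have h3 : 0 < 1 + |t| := by positivity
    rw [div_le_iff₀ (by linarith)]
    have h4 : 0 ≤ (N : ℝ) ^ (1/2 : ℝ) := Real.rpow_nonneg (Nat.cast_nonneg _) _
    calc (N : ℝ) ^ (1/2 : ℝ) = 3 * (N : ℝ) ^ (1/2 : ℝ) * (1 / (1 + |t|)) * ((1 + |t|) / 3) := by
          field_simp
      _ ≤ 3 * (N : ℝ) ^ (1/2 : ℝ) * (1 / (1 + |t|)) * ‖s - 1‖ :=
          mul_le_mul_of_nonneg_left hpole (by positivity)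
  have h5 : ‖(N : ℂ) ^ (-s) / 2‖ = (N : ℝ) ^ (-(1/2) : ℝ) / 2 := by
    rw [norm_div, Complex.norm_natCast_cpow_of_pos hN0]
    have h2 : (-s).re = -(1/2) := by
      rw [hs]
      simp
    rw [h2]
    norm_num
  have h6 : ‖riemannZeta s - Sm‖ ≤ 3 * (N : ℝ) ^ (1/2 : ℝ) * (1 / (1 + |t|)) +
        (N : ℝ) ^ (-(1/2) : ℝ) / 2 + Cz * (1 + |t|) ^ 2 * (N : ℝ) ^ (-(3/2) : ℝ) := by
    have h7 : riemannZeta s - Sm = (N : ℂ) ^ (1 - s) / (s - 1) - (N : ℂ) ^ (-s) / 2 +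
        (riemannZeta s - (Sm + (N : ℂ) ^ (1 - s) / (s - 1) - (N : ℂ) ^ (-s) / 2)) := by ring
    rw [h7]
    refine (norm_add_le _ _).trans (add_le_add ((norm_sub_le _ _).trans ?_) h0)
    exact add_le_add h1 h5.le
  have h8 : FF l s - Sm * Mol 1 l s = (riemannZeta s - Sm) * Mol 1 l s := by
    unfold FF
    ring
  rw [h8, norm_mul]
  exact mul_le_mul h6 hmol (norm_nonneg _) ((norm_nonneg _).trans h6)

/-- (7.2) complete: zeta_em, |Mol| <= exp(l), pole term with sep_count. -/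
theorem main_sum (r1 r2 d B : ℝ) (h1 : r1 ≠ 0) (h2 : r2 ≠ 0) (hd : 0 < d) (hB : 1 ≤ B) : ∀ κ : ℝ, 0 < κ →
    ∃ T0 : ℝ, 2 ≤ T0 ∧
    ∀ T : ℝ, T0 ≤ T → ∀ Y1 Y2 : Finset ℝ, (∀ y ∈ Y1, |y| ≤ T) → (∀ y ∈ Y2, |y| ≤ T) → Sep (d / Real.log T) Y1 →
    Sep (d / Real.log T) Y2 → ∀ x : ℝ, |x| ≤ B * T →
    ‖∑ y1 ∈ Y1, ∑ y2 ∈ Y2, FF (Real.log T / 1500) (1/2 + (r1 * y1 + r2 * y2 + x) * I) - (Y1.card : ℂ) * Y2.card‖ ≤
      κ * (T * Real.log T) ^ 2 := by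
  intro κ hκ
  obtain ⟨Cz, hCz, hz⟩ := zeta_em
  obtain ⟨C, T1, hC, hT1, hsep⟩ := sep_count r2 d h2 hd
  obtain ⟨T2, hT2, hpoly⟩ := poly_sum r1 r2 d h1 h2 hd (κ / 2) (by linarith)
  obtain ⟨B', hB'⟩ : ∃ B', B' = 1 + |r1| + |r2| + B := ⟨_, rfl⟩
  have hB'0 : 0 < B' := by rw [hB']; positivity
  obtain ⟨D, hD⟩ : ∃ D, D = 1 + 3 * Cz * B' ^ 2 := ⟨_, rfl⟩
  have hD0 : 0 < D := by rw [hD]; positivity
  have hev : ∀ᶠ T : ℝ in atTop, (T1 ≤ T ∧ T2 ≤ T ∧ 2 ≤ T) ∧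
      (1 ≤ Real.log T ∧ D ≤ Real.log T) ∧ Real.log T ≤ T ^ (1/16 : ℝ) ∧
      C ^ 2 * 4 * T ^ (-(1/16) : ℝ) ≤ κ / 2 := by
    refine Filter.Eventually.and ?_ (Filter.Eventually.and ?_ (Filter.Eventually.and ?_ ?_))
    · exact (eventually_ge_atTop T1).and ((eventually_ge_atTop _).and (eventually_ge_atTop _))
    · exact (Real.tendsto_log_atTop.eventually_ge_atTop _).and
        (Real.tendsto_log_atTop.eventually_ge_atTop _)
    · have h1 := (isLittleO_log_rpow_atTop (r := 1/16) (by norm_num)).bound (zero_lt_one)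
      filter_upwards [h1, eventually_ge_atTop (1 : ℝ)] with T hT hT1
      have hT0 : 0 < T := by linarith
      rw [one_mul, Real.norm_of_nonneg (Real.log_nonneg hT1),
        Real.norm_of_nonneg (Real.rpow_nonneg hT0.le _)] at hT
      exact hT
    · have h1 : Tendsto (fun T : ℝ => C ^ 2 * 4 * T ^ (-(1/16) : ℝ)) atTop
          (𝓝 (C ^ 2 * 4 * 0)) := (tendsto_rpow_neg_atTop (by norm_num)).const_mul _
      rw [mul_zero] at h1
      exact (h1.eventually_le_const (by positivity))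
  obtain ⟨T0, hT0⟩ := Filter.eventually_atTop.mp hev
  refine ⟨max T0 2, le_max_right _ _, ?_⟩
  intro T hT Y1 Y2 hY1 hY2 hS1 hS2 x hx
  obtain ⟨⟨hTT1, hTT2, hT2'⟩, ⟨hL1, hLD⟩, hLT, hTκ⟩ := hT0 T ((le_max_left _ _).trans hT)
  have hT00 : 0 < T := by linarith
  have hT11 : 1 ≤ T := by linarith
  have hL : 0 < Real.log T := by linarith
  obtain ⟨N, hN⟩ : ∃ N, N = ⌊T ^ (3/2 : ℝ)⌋₊ := ⟨_, rfl⟩
  have hTN1 : 1 ≤ T ^ (3/2 : ℝ) := Real.one_le_rpow hT11 (by norm_num)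
  have hNle : (N : ℝ) ≤ T ^ (3/2 : ℝ) := by
    rw [hN]
    exact Nat.floor_le (by positivity)
  have hN1 : 1 ≤ N := by
    rw [hN]
    exact Nat.le_floor (by exact_mod_cast hTN1)
  have hN0 : (0 : ℝ) < N := by exact_mod_cast hN1
  have hNge : T ^ (3/2 : ℝ) / 2 ≤ N := by
    have h3 : T ^ (3/2 : ℝ) < N + 1 := by
      rw [hN]
      exact Nat.lt_floor_add_one _
    have h4 : (1 : ℝ) ≤ N := by exact_mod_cast hN1
    linarith
  -- powers of N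
  have hNa : (N : ℝ) ^ (1/2 : ℝ) ≤ T ^ (3/4 : ℝ) := by
    calc (N : ℝ) ^ (1/2 : ℝ) ≤ (T ^ (3/2 : ℝ)) ^ (1/2 : ℝ) :=
          Real.rpow_le_rpow hN0.le hNle (by norm_num)
      _ = T ^ (3/4 : ℝ) := by
          rw [← Real.rpow_mul hT00.le]
          norm_num
  have h2p : ∀ a : ℝ, 0 ≤ a → (N : ℝ) ^ (-a) ≤ 2 ^ a * T ^ (-(3/2 * a)) := by
    intro a ha
    calc (N : ℝ) ^ (-a) ≤ (T ^ (3/2 : ℝ) / 2) ^ (-a) :=
          Real.rpow_le_rpow_of_nonpos (by positivity) hNge (by linarith)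
      _ = 2 ^ a * T ^ (-(3/2 * a)) := by
          rw [Real.div_rpow (by positivity) (by norm_num), ← Real.rpow_mul hT00.le,
            Real.rpow_neg (by norm_num) a, div_inv_eq_mul, mul_comm]
          congr 2
          ring
  have hNb : (N : ℝ) ^ (-(1/2) : ℝ) / 2 ≤ T ^ (-(1/4) : ℝ) := by
    have h3 := h2p (1/2) (by norm_num)
    have h4 : (2 : ℝ) ^ (1/2 : ℝ) ≤ 2 := by
      calc (2 : ℝ) ^ (1/2 : ℝ) ≤ 2 ^ (1 : ℝ) :=
            Real.rpow_le_rpow_of_exponent_le (by norm_num) (by norm_num)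
        _ = 2 := Real.rpow_one 2
    have h5 : T ^ (-(3/2 * (1/2)) : ℝ) ≤ T ^ (-(1/4) : ℝ) :=
      Real.rpow_le_rpow_of_exponent_le hT11 (by norm_num)
    have h6 : (2 : ℝ) ^ (1/2 : ℝ) * T ^ (-(3/2 * (1/2)) : ℝ) ≤ 2 * T ^ (-(1/4) : ℝ) :=
      mul_le_mul h4 h5 (by positivity) (by norm_num)
    linarith
  have hNc : (N : ℝ) ^ (-(3/2) : ℝ) ≤ 3 * T ^ (-(9/4) : ℝ) := by
    have h3 := h2p (3/2) (by norm_num)
    have h4 : (2 : ℝ) ^ (3/2 : ℝ) ≤ 3 := by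
      have h5 : ((2 : ℝ) ^ (3/2 : ℝ)) ^ 2 ≤ 3 ^ 2 := by
        rw [← Real.rpow_natCast, ← Real.rpow_mul (by norm_num)]
        norm_num
      exact (sq_le_sq₀ (by positivity) (by norm_num)).mp h5
    have h5 : T ^ (-(3/2 * (3/2)) : ℝ) = T ^ (-(9/4) : ℝ) := by
      congr 1
      norm_num
    rw [h5] at h3
    exact h3.trans (mul_le_mul_of_nonneg_right h4 (by positivity))
  have hlpos : 0 < Real.log T / 1500 := by positivity
  have hexp : Real.exp (Real.log T / 1500) = T ^ (1/1500 : ℝ) := by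
    rw [Real.rpow_def_of_pos hT00]
    congr 1
    ring
  -- the pointwise bound
  have hpt : ∀ y1 ∈ Y1, ∀ y2 ∈ Y2,
      ‖FF (Real.log T / 1500) (1/2 + (r1 * y1 + r2 * y2 + x) * I) -
        (∑ n ∈ Finset.Icc 1 N, (n : ℂ) ^ (-(1/2 + (r1 * y1 + r2 * y2 + x) * I))) *
          Mol 1 (Real.log T / 1500) (1/2 + (r1 * y1 + r2 * y2 + x) * I)‖ ≤
      (3 * T ^ (3/4 : ℝ) * (1 / (1 + |r2 * y2 + (r1 * y1 + x)|)) + D * T ^ (-(1/4) : ℝ)) *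
        T ^ (1/1500 : ℝ) := by
    intro y1 hy1 y2 hy2
    obtain ⟨t, ht⟩ : ∃ t : ℝ, t = r1 * y1 + r2 * y2 + x := ⟨_, rfl⟩
    have htc : ((r1 : ℂ) * y1 + r2 * y2 + x) = (t : ℂ) := by
      rw [ht]
      push_cast
      ring
    have ht' : r2 * y2 + (r1 * y1 + x) = t := by
      rw [ht]
      ring
    rw [htc, ht', ← hexp]
    refine (F05_point hz hlpos t hN1).trans ?_
    refine mul_le_mul_of_nonneg_right ?_ (Real.exp_pos _).le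
    have h3 : |t| ≤ (|r1| + |r2| + B) * T := by
      rw [ht]
      calc |r1 * y1 + r2 * y2 + x| ≤ |r1 * y1| + |r2 * y2| + |x| := abs_add_three _ _ _
        _ ≤ |r1| * T + |r2| * T + B * T := by
            rw [abs_mul, abs_mul]
            exact add_le_add (add_le_add (mul_le_mul_of_nonneg_left (hY1 y1 hy1) (abs_nonneg _))
              (mul_le_mul_of_nonneg_left (hY2 y2 hy2) (abs_nonneg _))) hx
        _ = (|r1| + |r2| + B) * T := by ring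
    have h4 : (1 + |t|) ^ 2 ≤ B' ^ 2 * T ^ 2 := by
      rw [← mul_pow]
      refine pow_le_pow_left₀ (by positivity) ?_ 2
      rw [hB']
      linarith
    have h5 : (3 * (N : ℝ) ^ (1/2 : ℝ)) * (1 / (1 + |t|)) ≤
        3 * T ^ (3/4 : ℝ) * (1 / (1 + |t|)) :=
      mul_le_mul_of_nonneg_right (mul_le_mul_of_nonneg_left hNa (by norm_num)) (by positivity)
    have h6 : Cz * (1 + |t|) ^ 2 * (N : ℝ) ^ (-(3/2) : ℝ) ≤
        3 * Cz * B' ^ 2 * T ^ (-(1/4) : ℝ) := by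
      calc Cz * (1 + |t|) ^ 2 * (N : ℝ) ^ (-(3/2) : ℝ)
          ≤ Cz * (B' ^ 2 * T ^ 2) * (3 * T ^ (-(9/4) : ℝ)) :=
            mul_le_mul (mul_le_mul_of_nonneg_left h4 hCz.le) hNc (by positivity) (by positivity)
        _ = 3 * Cz * B' ^ 2 * (T ^ 2 * T ^ (-(9/4) : ℝ)) := by ring
        _ = 3 * Cz * B' ^ 2 * T ^ (-(1/4) : ℝ) := by
            congr 1
            rw [← Real.rpow_natCast, ← Real.rpow_add hT00]
            congr 1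
            norm_num
    have h7 : D * T ^ (-(1/4) : ℝ) = T ^ (-(1/4) : ℝ) + 3 * Cz * B' ^ 2 * T ^ (-(1/4) : ℝ) := by
      rw [hD]
      ring
    rw [h7]
    linarith
  -- counting
  obtain ⟨hc1, _⟩ := hsep T hTT1 Y1 hY1 hS1
  obtain ⟨hc2, hr2⟩ := hsep T hTT1 Y2 hY2 hS2
  have hE0 : 0 < T ^ (1/1500 : ℝ) := Real.rpow_pos_of_pos hT00 _
  have hsum : ‖∑ y1 ∈ Y1, ∑ y2 ∈ Y2,
      (FF (Real.log T / 1500) (1/2 + (r1 * y1 + r2 * y2 + x) * I) -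
        (∑ n ∈ Finset.Icc 1 N, (n : ℂ) ^ (-(1/2 + (r1 * y1 + r2 * y2 + x) * I))) *
          Mol 1 (Real.log T / 1500) (1/2 + (r1 * y1 + r2 * y2 + x) * I))‖ ≤
      κ / 2 * (T * Real.log T) ^ 2 := by
    calc ‖∑ y1 ∈ Y1, ∑ y2 ∈ Y2,
      (FF (Real.log T / 1500) (1/2 + (r1 * y1 + r2 * y2 + x) * I) -
        (∑ n ∈ Finset.Icc 1 N, (n : ℂ) ^ (-(1/2 + (r1 * y1 + r2 * y2 + x) * I))) *
          Mol 1 (Real.log T / 1500) (1/2 + (r1 * y1 + r2 * y2 + x) * I))‖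
        ≤ ∑ y1 ∈ Y1, ∑ y2 ∈ Y2, (3 * T ^ (3/4 : ℝ) * (1 / (1 + |r2 * y2 + (r1 * y1 + x)|)) +
            D * T ^ (-(1/4) : ℝ)) * T ^ (1/1500 : ℝ) :=
          norm_sum_le_of_le _ fun y1 hy1 => norm_sum_le_of_le _ fun y2 hy2 => hpt y1 hy1 y2 hy2
      _ ≤ ∑ y1 ∈ Y1, (3 * T ^ (3/4 : ℝ) * (C * Real.log T ^ 2) +
            (C * T * Real.log T) * (D * T ^ (-(1/4) : ℝ))) * T ^ (1/1500 : ℝ) := by
          refine Finset.sum_le_sum fun y1 hy1 => ?_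
          rw [← Finset.sum_mul]
          refine mul_le_mul_of_nonneg_right ?_ hE0.le
          rw [Finset.sum_add_distrib, ← Finset.mul_sum, Finset.sum_const, nsmul_eq_mul]
          refine add_le_add (mul_le_mul_of_nonneg_left (hr2 _) (by positivity)) ?_
          exact mul_le_mul_of_nonneg_right hc2 (by positivity)
      _ = Y1.card * ((3 * T ^ (3/4 : ℝ) * (C * Real.log T ^ 2) +
            (C * T * Real.log T) * (D * T ^ (-(1/4) : ℝ))) * T ^ (1/1500 : ℝ)) := by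
          rw [Finset.sum_const, nsmul_eq_mul]
      _ ≤ (C * T * Real.log T) * ((3 * T ^ (3/4 : ℝ) * (C * Real.log T ^ 2) +
            (C * T * Real.log T) * (D * T ^ (-(1/4) : ℝ))) * T ^ (1/1500 : ℝ)) :=
          mul_le_mul_of_nonneg_right hc1 (by positivity)
      _ = C ^ 2 * ((3 * Real.log T + D) * (T ^ (-(1/4) : ℝ) * T ^ (1/1500 : ℝ))) *
            (T * Real.log T) ^ 2 := by
          have h3 : T ^ (3/4 : ℝ) = T * T ^ (-(1/4) : ℝ) := by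
            nth_rewrite 2 [← Real.rpow_one T]
            rw [← Real.rpow_add hT00]
            norm_num
          rw [h3]
          ring
      _ ≤ κ / 2 * (T * Real.log T) ^ 2 := by
          refine mul_le_mul_of_nonneg_right ?_ (sq_nonneg _)
          have h3 : (3 * Real.log T + D) ≤ 4 * T ^ (1/16 : ℝ) := by linarith
          have h4 : T ^ (1/16 : ℝ) * (T ^ (-(1/4) : ℝ) * T ^ (1/1500 : ℝ)) ≤
              T ^ (-(1/16) : ℝ) := by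
            rw [← Real.rpow_add hT00, ← Real.rpow_add hT00]
            exact Real.rpow_le_rpow_of_exponent_le hT11 (by norm_num)
          calc C ^ 2 * ((3 * Real.log T + D) * (T ^ (-(1/4) : ℝ) * T ^ (1/1500 : ℝ)))
              ≤ C ^ 2 * ((4 * T ^ (1/16 : ℝ)) * (T ^ (-(1/4) : ℝ) * T ^ (1/1500 : ℝ))) :=
                mul_le_mul_of_nonneg_left (mul_le_mul_of_nonneg_right h3 (by positivity))
                  (by positivity)
            _ = C ^ 2 * 4 * (T ^ (1/16 : ℝ) * (T ^ (-(1/4) : ℝ) * T ^ (1/1500 : ℝ))) := by ring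
            _ ≤ C ^ 2 * 4 * T ^ (-(1/16) : ℝ) := mul_le_mul_of_nonneg_left h4 (by positivity)
            _ ≤ κ / 2 := hTκ
  have hp := hpoly T hTT2 Y1 Y2 hY1 hY2 hS1 hS2 x
  rw [← hN] at hp
  have hsplit : ∑ y1 ∈ Y1, ∑ y2 ∈ Y2,
      FF (Real.log T / 1500) (1/2 + (r1 * y1 + r2 * y2 + x) * I) - (Y1.card : ℂ) * Y2.card =
      (∑ y1 ∈ Y1, ∑ y2 ∈ Y2,
      (FF (Real.log T / 1500) (1/2 + (r1 * y1 + r2 * y2 + x) * I) -
        (∑ n ∈ Finset.Icc 1 N, (n : ℂ) ^ (-(1/2 + (r1 * y1 + r2 * y2 + x) * I))) *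
          Mol 1 (Real.log T / 1500) (1/2 + (r1 * y1 + r2 * y2 + x) * I))) +
      (∑ y1 ∈ Y1, ∑ y2 ∈ Y2,
        ((∑ n ∈ Finset.Icc 1 N, (n : ℂ) ^ (-(1/2 + (r1 * y1 + r2 * y2 + x) * I))) *
          Mol 1 (Real.log T / 1500) (1/2 + (r1 * y1 + r2 * y2 + x) * I)) -
        (Y1.card : ℂ) * Y2.card) := by
    simp only [Finset.sum_sub_distrib]
    ring
  rw [hsplit]
  calc _ ≤ κ / 2 * (T * Real.log T) ^ 2 + κ / 2 * (T * Real.log T) ^ 2 :=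
        (norm_add_le _ _).trans (add_le_add hsum hp)
    _ = κ * (T * Real.log T) ^ 2 := by ring

end LZ
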