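import Pool.Agent.Lib.MP_0f5a55_nt.D0
import Pool.Agent.Lib.MP_0f5a55_nt.F05
import Pool.Agent.Lib.MP_0f5a55_nt.E08
import Pool.Agent.Lib.MP_0f5a55_nt.E06

open Complex MeasureTheory Set Filter Topology
open scoped ComplexConjugate

namespace LZ

/-- robust form of Theorem I (Cauchy-Schwarz, 7.3). -/
theorem robust (r1 r2 d δ B : ℝ) (h1 : r1 ≠ 0) (h2 : r2 ≠ 0) (hd : 0 < d) (hδ : 0 < δ) (hB : 1 ≤ B) :
    ∃ c T0 : ℝ, 0 < c ∧ 2 ≤ T0 ∧ ∀ T : ℝ, T0 ≤ T → ∀ Y1 Y2 : Finset ℝ, (∀ y ∈ Y1, |y| ≤ T) → (∀ y ∈ Y2, |y| ≤ T) →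
    Sep (d / Real.log T) Y1 → Sep (d / Real.log T) Y2 → δ * T * Real.log T ≤ Y1.card → δ * T * Real.log T ≤ Y2.card →
    ∀ x : ℝ, |x| ≤ B * T →
    c * (T * Real.log T) ^ 2 ≤
      ((Y1 ×ˢ Y2).filter (fun y => riemannZeta (1/2 + (r1 * y.1 + r2 * y.2 + x) * I) ≠ 0)).card := by
  have hB' : 1 ≤ B + |r1| := by linarith [abs_nonneg r1]
  obtain ⟨TA, hTA, HA⟩ := main_sum r1 r2 d B h1 h2 hd hB (δ ^ 2 / 2) (by positivity)
  obtain ⟨C1, TB, hC1, hTB, HB⟩ := F_points r2 d (B + |r1|) h2 hd hB'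
  obtain ⟨C2, TC, hC2, hTC, HC⟩ := sep_count r1 d h1 hd
  refine ⟨(δ ^ 2 / 2) ^ 2 / (C1 * C2), max TA (max TB TC), by positivity, hTA.trans (le_max_left _ _),
    fun T hT Y1 Y2 hY1 hY2 hS1 hS2 hc1 hc2 x hx => ?_⟩
  have hTA' : TA ≤ T := (le_max_left _ _).trans hT
  have hTB' : TB ≤ T := ((le_max_left _ _).trans (le_max_right _ _)).trans hT
  have hTC' : TC ≤ T := ((le_max_right _ _).trans (le_max_right _ _)).trans hT
  have hT2 : 2 ≤ T := hTA.trans hTA'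
  have hL0 : 0 < Real.log T := Real.log_pos (by linarith)
  have hT0 : 0 < T := by linarith
  set P : ℝ := T * Real.log T with hP
  have hP0 : 0 < P := by positivity
  have hmain := HA T hTA' Y1 Y2 hY1 hY2 hS1 hS2 x hx
  have hcard := (HC T hTC' Y1 hY1 hS1).1
  set F : ℝ × ℝ → ℂ := fun y => FF (Real.log T / 1500) (1/2 + (r1 * y.1 + r2 * y.2 + x) * I) with hF
  set Z := (Y1 ×ˢ Y2).filter (fun y => riemannZeta (1/2 + (r1 * y.1 + r2 * y.2 + x) * I) ≠ 0) with hZ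
  -- total sum equals the sum over Z
  have hsum : ∑ y1 ∈ Y1, ∑ y2 ∈ Y2, FF (Real.log T / 1500) (1/2 + (r1 * y1 + r2 * y2 + x) * I) =
      ∑ y ∈ Z, F y := by
    rw [hZ, Finset.sum_filter_of_ne, Finset.sum_product]
    intro y _ hy hz
    apply hy
    rw [hF]
    simp only [FF]
    rw [hz, zero_mul]
  rw [hsum] at hmain
  -- second moment
  have hsq : ∑ y ∈ Z, ‖F y‖ ^ 2 ≤ C1 * C2 * P ^ 2 := by
    calc ∑ y ∈ Z, ‖F y‖ ^ 2 ≤ ∑ y ∈ Y1 ×ˢ Y2, ‖F y‖ ^ 2 :=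
          Finset.sum_le_sum_of_subset_of_nonneg (Finset.filter_subset _ _) fun _ _ _ => by positivity
      _ = ∑ y1 ∈ Y1, ∑ y2 ∈ Y2, ‖F (y1, y2)‖ ^ 2 := by rw [Finset.sum_product]
      _ ≤ ∑ y1 ∈ Y1, C1 * T * Real.log T := by
          refine Finset.sum_le_sum fun y1 hy1 => ?_
          have hc : |r1 * y1 + x| ≤ (B + |r1|) * T := by
            calc |r1 * y1 + x| ≤ |r1 * y1| + |x| := abs_add_le _ _
              _ ≤ |r1| * T + B * T := by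
                  rw [abs_mul]
                  gcongr
                  exact hY1 y1 hy1
              _ = (B + |r1|) * T := by ring
          have := HB T hTB' Y2 hY2 hS2 (r1 * y1 + x) hc
          refine le_trans (le_of_eq ?_) this
          refine Finset.sum_congr rfl fun y2 _ => ?_
          have e3 : (1/2 + ((r1:ℂ) * y1 + r2 * y2 + x) * I) =
              1/2 + ((r2:ℂ) * y2 + ((r1 * y1 + x : ℝ) : ℂ)) * I := by
            push_cast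
            ring
          simp only [hF]
          rw [e3]
      _ = Y1.card * (C1 * T * Real.log T) := by rw [Finset.sum_const, nsmul_eq_mul]
      _ ≤ (C2 * T * Real.log T) * (C1 * T * Real.log T) := by gcongr
      _ = C1 * C2 * P ^ 2 := by rw [hP]; ring
  -- Cauchy-Schwarz
  have hCS : ‖∑ y ∈ Z, F y‖ ^ 2 ≤ (Z.card : ℝ) * ∑ y ∈ Z, ‖F y‖ ^ 2 := by
    calc ‖∑ y ∈ Z, F y‖ ^ 2 ≤ (∑ y ∈ Z, ‖F y‖) ^ 2 :=
          pow_le_pow_left₀ (norm_nonneg _) (norm_sum_le _ _) 2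
      _ ≤ _ := sq_sum_le_card_mul_sum_sq
  have hlow : δ ^ 2 / 2 * P ^ 2 ≤ ‖∑ y ∈ Z, F y‖ := by
    have h3 : (δ * P) ^ 2 ≤ (Y1.card : ℝ) * Y2.card := by
      have e1 : δ * P ≤ Y1.card := by rw [hP, ← mul_assoc]; exact hc1
      have e2 : δ * P ≤ Y2.card := by rw [hP, ← mul_assoc]; exact hc2
      rw [sq]
      exact mul_le_mul e1 e2 (by positivity) (Nat.cast_nonneg _)
    have h4 : ‖(Y1.card : ℂ) * Y2.card‖ = (Y1.card : ℝ) * Y2.card := by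
      rw [norm_mul, Complex.norm_natCast, Complex.norm_natCast]
    have h5 := norm_sub_norm_le ((Y1.card : ℂ) * Y2.card) (∑ y ∈ Z, F y)
    rw [norm_sub_rev, h4] at h5
    nlinarith
  have hlow2 : (δ ^ 2 / 2 * P ^ 2) ^ 2 ≤ (Z.card : ℝ) * (C1 * C2 * P ^ 2) :=
    (pow_le_pow_left₀ (by positivity) hlow 2).trans
      (hCS.trans (mul_le_mul_of_nonneg_left hsq (Nat.cast_nonneg _)))
  have hfin : (δ ^ 2 / 2) ^ 2 * P ^ 2 ≤ (Z.card : ℝ) * (C1 * C2) := by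
    have hP2 : 0 < P ^ 2 := by positivity
    have : ((δ ^ 2 / 2) ^ 2 * P ^ 2) * P ^ 2 ≤ ((Z.card : ℝ) * (C1 * C2)) * P ^ 2 := by
      calc ((δ ^ 2 / 2) ^ 2 * P ^ 2) * P ^ 2 = (δ ^ 2 / 2 * P ^ 2) ^ 2 := by ring
        _ ≤ (Z.card : ℝ) * (C1 * C2 * P ^ 2) := hlow2
        _ = ((Z.card : ℝ) * (C1 * C2)) * P ^ 2 := by ring
    exact le_of_mul_le_mul_right this hP2
  rw [div_mul_eq_mul_div, div_le_iff₀ (by positivity)]
  exact hfin

end LZ
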