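import Pool.Agent.Lib.MP_0f5a55_nt.D0
import Pool.Agent.Lib.MP_0f5a55_nt.Q08
import Pool.Agent.Lib.MP_0f5a55_nt.P05
import Pool.Agent.Lib.MP_0f5a55_nt.P06

open Complex MeasureTheory Set Filter Topology
open scoped ComplexConjugate

namespace LZ

theorem Q11_g : Integrable (fun u : ℝ => ‖kk u‖ * (1 + |u|) ^ 2) := by
  obtain ⟨hc, hi⟩ := kk_facts
  refine hi.mono' ?_ (Eventually.of_forall fun u => ?_)
  · exact (hc.norm.mul ((continuous_const.add continuous_abs).pow 2)).aestronglyMeasurable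
  · have h1 : (1 : ℝ) ≤ 1 + |u| := by linarith [abs_nonneg u]
    rw [Real.norm_of_nonneg (by positivity)]
    exact mul_le_mul_of_nonneg_left (pow_le_pow_right₀ h1 (by norm_num)) (norm_nonneg _)

theorem Q11_q (a b : ℝ) : 1 + |a + b| ≤ (1 + |a|) * (1 + |b|) := by
  have h1 := abs_add_le a b
  have h2 := mul_nonneg (abs_nonneg a) (abs_nonneg b)
  nlinarith

theorem Q11_alg {C₁ C₂ l x : ℝ} (h1 : 0 < C₁) (h2 : 0 < C₂) (hl : 0 < l) (hx : 1 ≤ x)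
    (p0 p1 p2 p3 q02 q03 q12 q13 : ℝ) (hp0 : 1 ≤ p0) (hp1 : 1 ≤ p1) (hp2 : 1 ≤ p2)
    (hp3 : 1 ≤ p3) (g02 : 0 ≤ q02) (g03 : 0 ≤ q03) (g12 : 0 ≤ q12) (g13 : 0 ≤ q13)
    (k02 : q02 ≤ p0 * p2) (k03 : q03 ≤ p0 * p3) (k12 : q12 ≤ p1 * p2) (k13 : q13 ≤ p1 * p3) :
    (C₁ * x * p0 ^ 2 / l) * (C₁ * x * p0 ^ 2 / l) * (C₁ * p1 ^ 2 / l) * (C₁ * p1 ^ 2 / l) *
      (C₁ * p2 ^ 2 / l) * (C₁ * p2 ^ 2 / l) * (C₁ * x * p3 ^ 2 / l) * (C₁ * x * p3 ^ 2 / l) *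
      (C₂ * l * q02) * (C₂ * l * q03 / x) * (C₂ * l * q12 / x) * (C₂ * l * q13) ≤
    (C₁ ^ 2 * C₂ * (Real.sqrt x / l) * (p0 ^ 2 * p1 ^ 2 * p2 ^ 2 * p3 ^ 2)) ^ 4 := by
  have hx0 : 0 < x := by linarith
  have hs : Real.sqrt x ^ 4 = x ^ 2 := by
    have : Real.sqrt x ^ 4 = (Real.sqrt x ^ 2) ^ 2 := by ring
    rw [this, Real.sq_sqrt hx0.le]
  have e1 : (C₁ * x * p0 ^ 2 / l) * (C₁ * x * p0 ^ 2 / l) * (C₁ * p1 ^ 2 / l) *
      (C₁ * p1 ^ 2 / l) *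
      (C₁ * p2 ^ 2 / l) * (C₁ * p2 ^ 2 / l) * (C₁ * x * p3 ^ 2 / l) * (C₁ * x * p3 ^ 2 / l) *
      (C₂ * l * q02) * (C₂ * l * q03 / x) * (C₂ * l * q12 / x) * (C₂ * l * q13) =
      (C₁ ^ 8 * C₂ ^ 4 * x ^ 2 / l ^ 4 * (p0 * p1 * p2 * p3) ^ 4) * (q02 * q03 * q12 * q13) := by
    field_simp
  have e2 : (C₁ ^ 2 * C₂ * (Real.sqrt x / l) * (p0 ^ 2 * p1 ^ 2 * p2 ^ 2 * p3 ^ 2)) ^ 4 =
      (C₁ ^ 8 * C₂ ^ 4 * x ^ 2 / l ^ 4 * (p0 * p1 * p2 * p3) ^ 4) *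
        (p0 * p1 * p2 * p3) ^ 4 := by
    rw [← hs]
    field_simp
  rw [e1, e2]
  refine mul_le_mul_of_nonneg_left ?_ (by positivity)
  have h0 : 0 ≤ p0 := by linarith
  have h1' : 0 ≤ p1 := by linarith
  have h2' : 0 ≤ p2 := by linarith
  have h3' : 0 ≤ p3 := by linarith
  have hP : 1 ≤ p0 * p1 * p2 * p3 := by
    have a1 : 1 ≤ p0 * p1 := one_le_mul_of_one_le_of_one_le hp0 hp1
    have a2 : 1 ≤ p0 * p1 * p2 := one_le_mul_of_one_le_of_one_le a1 hp2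
    exact one_le_mul_of_one_le_of_one_le a2 hp3
  calc q02 * q03 * q12 * q13 ≤ (p0 * p2) * (p0 * p3) * (p1 * p2) * (p1 * p3) := by
        gcongr
    _ = (p0 * p1 * p2 * p3) ^ 2 := by ring
    _ ≤ (p0 * p1 * p2 * p3) ^ 4 := pow_le_pow_right₀ hP (by norm_num)

/-- (2.5): exponents: A0,A3 carry eta; pairs 02: 0, 03: eta, 12: -eta, 13: 0. Use R_neg to the power 1/2 and
R_pos to the power 1/4. (1+l|eta|)^(1-1/2) l^(-2+1). -/
theorem QQ_half : ∃ K l0 : ℝ, 0 < K ∧ 1 ≤ l0 ∧ ∀ l : ℝ, l0 ≤ l → ∀ η : ℂ, |η.re| ≤ 1 / (8 * l) → ‖η‖ ≤ 1/4 →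
    ‖QQ ⌊Real.exp l⌋₊ (fun _ => 1/2) l ![η, 0, 0, η] η‖ ≤ K * Real.sqrt (1 + l * ‖η‖) / l := by
  obtain ⟨K, l0, hK, hl0, hQ⟩ := QQ_bound
  obtain ⟨C₁, l1, hC₁, hl1, hN⟩ := R_neg
  obtain ⟨C₂, l2, hC₂, hl2, hP⟩ := R_pos
  set J : ℝ := ∫ u : ℝ, ‖kk u‖ * (1 + |u|) ^ 2 with hJ
  have hJ0 : 0 ≤ J := integral_nonneg fun u => by positivity
  refine ⟨K * (C₁ ^ 2 * C₂ * J ^ 4) + 1, max l0 (max l1 l2), by positivity,
    hl0.trans (le_max_left _ _), fun l hl η hη hη4 => ?_⟩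
  have hll0 : l0 ≤ l := (le_max_left _ _).trans hl
  have hll1 : l1 ≤ l := (le_max_left _ _).trans ((le_max_right _ _).trans hl)
  have hll2 : l2 ≤ l := (le_max_right _ _).trans ((le_max_right _ _).trans hl)
  have hl1' : 1 ≤ l := hl0.trans hll0
  have hlpos : 0 < l := by linarith
  have h8 : 1 / (8 * l) ≤ 1 / l := by
    apply one_div_le_one_div_of_le hlpos
    linarith
  set x : ℝ := 1 + l * ‖η‖ with hx
  have hx1 : 1 ≤ x := by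
    have : 0 ≤ l * ‖η‖ := by positivity
    rw [hx]; linarith
  obtain ⟨hint, hle⟩ := hQ l hll0 (fun _ => 1/2) (fun _ => by norm_num) ![η, 0, 0, η] η
    (fun j => by
      fin_cases j
      · exact hη
      · simp only [Fin.mk_one, Matrix.cons_val_one, Matrix.cons_val_zero, zero_re, abs_zero]
        positivity
      · simp only [Fin.reduceFinMk, Matrix.cons_val, zero_re, abs_zero]
        positivity
      · exact hη) hη
  -- pointwise bound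
  have hpt : ∀ u : Fin 4 → ℝ,
      (∏ j, ‖kk (u j)‖) * Real.exp (SR R (fun _ => 1/2) (Aex l ![η, 0, 0, η] u) (1 + η)) ≤
      (C₁ ^ 2 * C₂ * (Real.sqrt x / l)) * ∏ j, (‖kk (u j)‖ * (1 + |u j|) ^ 2) := by
    intro u
    have hexp : Real.exp (SR R (fun _ => 1/2) (Aex l ![η, 0, 0, η] u) (1 + η)) ≤
        C₁ ^ 2 * C₂ * (Real.sqrt x / l) *
          ((1 + |u 0|) ^ 2 * (1 + |u 1|) ^ 2 * (1 + |u 2|) ^ 2 * (1 + |u 3|) ^ 2) := by
      have n0 := hN l hll1 η hη hη4 (u 0)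
      have n3 := hN l hll1 η hη hη4 (u 3)
      have z8 : |(0 : ℂ).re| ≤ 1 / (8 * l) := by
        rw [zero_re, abs_zero]; positivity
      have z4 : ‖(0 : ℂ)‖ ≤ 1 / 4 := by rw [norm_zero]; norm_num
      have n1 := hN l hll1 0 z8 z4 (u 1)
      have n2 := hN l hll1 0 z8 z4 (u 2)
      have b02 := hP l hll2 0 (z8.trans h8) z4 (u 0 + u 2)
      have b03 := hP l hll2 η (hη.trans h8) hη4 (u 0 + u 3)
      have b12 := hP l hll2 (-η) (by rw [neg_re, abs_neg]; exact hη.trans h8)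
        (by rw [norm_neg]; exact hη4) (u 1 + u 2)
      have b13 := hP l hll2 0 (z8.trans h8) z4 (u 1 + u 3)
      have hz : (1 : ℝ) + l * ‖(0 : ℂ)‖ = 1 := by simp
      rw [hz, div_one] at b02 b13
      rw [norm_neg] at b12
      rw [hz, mul_one] at n1 n2
      rw [← hx] at n0 n3 b03 b12
      have a0 : Aex l ![η, 0, 0, η] u 0 = 1 + η + (1 + u 0 * I) / l := by simp [Aex]
      have a1 : Aex l ![η, 0, 0, η] u 1 = 1 + 0 + (1 + u 1 * I) / l := by simp [Aex]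
      have a2 : Aex l ![η, 0, 0, η] u 2 = 1 + 0 + (1 + u 2 * I) / l := by simp [Aex]
      have a3 : Aex l ![η, 0, 0, η] u 3 = 1 + η + (1 + u 3 * I) / l := by simp [Aex]
      have c02 : Aex l ![η, 0, 0, η] u 0 + Aex l ![η, 0, 0, η] u 2 - (1 + η) =
          1 + 0 + (2 + ((u 0 + u 2 : ℝ) : ℂ) * I) / l := by
        rw [a0, a2]; push_cast; ring
      have c03 : Aex l ![η, 0, 0, η] u 0 + Aex l ![η, 0, 0, η] u 3 - (1 + η) =
          1 + η + (2 + ((u 0 + u 3 : ℝ) : ℂ) * I) / l := by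
        rw [a0, a3]; push_cast; ring
      have c12 : Aex l ![η, 0, 0, η] u 1 + Aex l ![η, 0, 0, η] u 2 - (1 + η) =
          1 + -η + (2 + ((u 1 + u 2 : ℝ) : ℂ) * I) / l := by
        rw [a1, a2]; push_cast; ring
      have c13 : Aex l ![η, 0, 0, η] u 1 + Aex l ![η, 0, 0, η] u 3 - (1 + η) =
          1 + 0 + (2 + ((u 1 + u 3 : ℝ) : ℂ) * I) / l := by
        rw [a1, a3]; push_cast; ring
      have hSR : SR R (fun _ => 1/2) (Aex l ![η, 0, 0, η] u) (1 + η) * 4 =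
          -R (1 + η + (1 + u 0 * I) / l) + -R (1 + η + (1 + u 0 * I) / l) +
          -R (1 + 0 + (1 + u 1 * I) / l) + -R (1 + 0 + (1 + u 1 * I) / l) +
          -R (1 + 0 + (1 + u 2 * I) / l) + -R (1 + 0 + (1 + u 2 * I) / l) +
          -R (1 + η + (1 + u 3 * I) / l) + -R (1 + η + (1 + u 3 * I) / l) +
          R (1 + 0 + (2 + ((u 0 + u 2 : ℝ) : ℂ) * I) / l) +
          R (1 + η + (2 + ((u 0 + u 3 : ℝ) : ℂ) * I) / l) +
          R (1 + -η + (2 + ((u 1 + u 2 : ℝ) : ℂ) * I) / l) +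
          R (1 + 0 + (2 + ((u 1 + u 3 : ℝ) : ℂ) * I) / l) := by
        unfold SR
        rw [Fin.sum_univ_four, c02, c03, c12, c13, a0, a1, a2, a3]
        ring
      have hpow : Real.exp (SR R (fun _ => 1/2) (Aex l ![η, 0, 0, η] u) (1 + η)) ^ 4 ≤
          (C₁ ^ 2 * C₂ * (Real.sqrt x / l) *
          ((1 + |u 0|) ^ 2 * (1 + |u 1|) ^ 2 * (1 + |u 2|) ^ 2 * (1 + |u 3|) ^ 2)) ^ 4 := by
        rw [← Real.exp_nat_mul, mul_comm]
        have h4 : ((4 : ℕ) : ℝ) = 4 := by norm_num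
        rw [h4, hSR]
        simp only [Real.exp_add]
        refine le_trans ?_ (Q11_alg hC₁ hC₂ hlpos hx1 (1 + |u 0|) (1 + |u 1|) (1 + |u 2|)
          (1 + |u 3|) (1 + |u 0 + u 2|) (1 + |u 0 + u 3|) (1 + |u 1 + u 2|) (1 + |u 1 + u 3|)
          (by linarith [abs_nonneg (u 0)]) (by linarith [abs_nonneg (u 1)])
          (by linarith [abs_nonneg (u 2)]) (by linarith [abs_nonneg (u 3)])
          (by positivity) (by positivity) (by positivity) (by positivity)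
          (Q11_q _ _) (Q11_q _ _) (Q11_q _ _) (Q11_q _ _))
        gcongr
      exact le_of_pow_le_pow_left₀ (by norm_num) (by positivity) hpow
    rw [Finset.prod_mul_distrib]
    have hprod : ∏ j : Fin 4, (1 + |u j|) ^ 2 =
        (1 + |u 0|) ^ 2 * (1 + |u 1|) ^ 2 * (1 + |u 2|) ^ 2 * (1 + |u 3|) ^ 2 := by
      rw [Fin.prod_univ_four]
    rw [hprod]
    calc (∏ j, ‖kk (u j)‖) * Real.exp (SR R (fun _ => 1/2) (Aex l ![η, 0, 0, η] u) (1 + η))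
        ≤ (∏ j, ‖kk (u j)‖) * (C₁ ^ 2 * C₂ * (Real.sqrt x / l) *
          ((1 + |u 0|) ^ 2 * (1 + |u 1|) ^ 2 * (1 + |u 2|) ^ 2 * (1 + |u 3|) ^ 2)) :=
          mul_le_mul_of_nonneg_left hexp (Finset.prod_nonneg fun _ _ => norm_nonneg _)
      _ = _ := by ring
  have hgi : Integrable (fun u : Fin 4 → ℝ => ∏ j, (‖kk (u j)‖ * (1 + |u j|) ^ 2)) :=
    Integrable.fintype_prod (fun _ => Q11_g)
  have hgJ : ∫ u : Fin 4 → ℝ, ∏ j, (‖kk (u j)‖ * (1 + |u j|) ^ 2) = J ^ 4 := by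
    have h1 := integral_fintype_prod_eq_prod (𝕜 := ℝ) (ι := Fin 4) (E := fun _ => ℝ)
      (μ := fun _ => volume)
      (fun _ : Fin 4 => fun u : ℝ => ‖kk u‖ * (1 + |u|) ^ 2)
    rw [Finset.prod_const, Finset.card_univ, Fintype.card_fin] at h1
    exact h1
  calc ‖QQ ⌊Real.exp l⌋₊ (fun _ => 1/2) l ![η, 0, 0, η] η‖
      ≤ K * ∫ u : Fin 4 → ℝ, (∏ j, ‖kk (u j)‖) *
        Real.exp (SR R (fun _ => 1/2) (Aex l ![η, 0, 0, η] u) (1 + η)) := hle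
    _ ≤ K * ∫ u : Fin 4 → ℝ, (C₁ ^ 2 * C₂ * (Real.sqrt x / l)) *
        ∏ j, (‖kk (u j)‖ * (1 + |u j|) ^ 2) :=
        mul_le_mul_of_nonneg_left (integral_mono hint (hgi.const_mul _) hpt) hK.le
    _ = K * (C₁ ^ 2 * C₂ * J ^ 4) * (Real.sqrt x / l) := by
        rw [integral_const_mul, hgJ]; ring
    _ ≤ (K * (C₁ ^ 2 * C₂ * J ^ 4) + 1) * (Real.sqrt x / l) :=
        mul_le_mul_of_nonneg_right (by linarith) (by positivity)
    _ = _ := by ring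

end LZ
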