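import Pool.Agent.Lib.MP_0f5a55_nt.D0

open Complex MeasureTheory Set Filter Topology
open scoped ComplexConjugate

namespace LZ

/-- reindex the sum by swapping 0 with 1 and 2 with 3. -/
theorem QQ_swap (z : ℕ) (c l : ℝ) (a b c' d e4 : ℂ) :
    QQ z (fun _ => c) l ![a, b, c', d] e4 = QQ z (fun _ => c) l ![b, a, d, c'] e4 := by
  classical
  unfold QQ
  set σ : Equiv.Perm (Fin 4) := Equiv.swap 0 1 * Equiv.swap 2 3 with hσ
  have hσ0 : σ 0 = 1 := by decide
  have hσ1 : σ 1 = 0 := by decide
  have hσ2 : σ 2 = 3 := by decide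
  have hσ3 : σ 3 = 2 := by decide
  refine Finset.sum_nbij' (fun S => fun j => S (σ j)) (fun S => fun j => S (σ j)) ?_ ?_ ?_ ?_ ?_
  · intro S hS
    rw [Fintype.mem_piFinset] at hS ⊢
    exact fun j => hS (σ j)
  · intro S hS
    rw [Fintype.mem_piFinset] at hS ⊢
    exact fun j => hS (σ j)
  · intro S _
    funext j
    have : σ (σ j) = j := by
      revert j
      decide
    simp only [this]
  · intro S _
    funext j
    have : σ (σ j) = j := by
      revert j
      decide
    simp only [this]
  · intro S _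
    rw [Fin.prod_univ_four, Fin.prod_univ_four]
    simp only [hσ0, hσ1, hσ2, hσ3]
    have e1 : nS (S 1) * nS (S 0) = nS (S 0) * nS (S 1) := mul_comm _ _
    have e2 : nS (S 3) * nS (S 2) = nS (S 2) * nS (S 3) := mul_comm _ _
    rw [e1, e2]
    simp only [Matrix.cons_val_zero, Matrix.cons_val_one, Matrix.cons_val]
    ring

end LZ
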