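import Pool.Agent.Lib.MP_0f5a55_nt.D0
import Pool.Agent.Lib.MP_0f5a55_nt.M04
import Pool.Agent.Lib.MP_0f5a55_nt.Q11
import Pool.Agent.Lib.MP_0f5a55_nt.Q12
import Pool.Agent.Lib.MP_0f5a55_nt.A15

open Complex MeasureTheory Set Filter Topology
open scoped ComplexConjugate

namespace LZ

private theorem M13_pow (T : ℝ) (hT : 7 ≤ T) (η : ℂ) (h : |η.re| ≤ 1 / Real.log T) :
    ‖((2 * Real.pi / T : ℝ) : ℂ) ^ η‖ ≤ Real.exp 1 := by
  have hT0 : (0:ℝ) < T := by linarith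
  have hpi : 0 < 2 * Real.pi / T := by positivity
  rw [Complex.norm_cpow_eq_rpow_re_of_pos hpi, Real.rpow_def_of_pos hpi]
  apply Real.exp_le_exp.2
  have hlogT : 0 < Real.log T := Real.log_pos (by linarith)
  have h2pi : 1 ≤ 2 * Real.pi := by linarith [Real.pi_gt_three]
  have e1 : Real.log (2 * Real.pi / T) = Real.log (2 * Real.pi) - Real.log T := by
    rw [Real.log_div (by positivity) (by positivity)]
  have h0 : 0 ≤ Real.log (2 * Real.pi) := Real.log_nonneg h2pi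
  have h1 : Real.log (2 * Real.pi) ≤ Real.log T :=
    Real.log_le_log (by positivity) (by linarith [Real.pi_lt_d2])
  have habs : |Real.log (2 * Real.pi / T)| ≤ Real.log T := by
    rw [e1, abs_le]
    constructor <;> linarith
  calc Real.log (2 * Real.pi / T) * η.re ≤ |Real.log (2 * Real.pi / T) * η.re| := le_abs_self _
    _ = |Real.log (2 * Real.pi / T)| * |η.re| := abs_mul _ _
    _ ≤ Real.log T * (1 / Real.log T) := mul_le_mul habs h (abs_nonneg _) hlogT.le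
    _ = 1 := by field_simp

private theorem M13_alg (L l n C1 K E : ℝ) (hL : 0 < L) (hl : L / 2000 ≤ l) (hl' : l ≤ L / 1000)
    (hn : 0 < n) (hn1 : n ≤ 1) (hLn : 1 ≤ L * n) (hC1 : 0 < C1) (hK : 0 < K) (hE : 0 ≤ E) :
    C1 * (1 + 1 / n) * (K * Real.sqrt (1 + l * n) / l) * E ≤
      (C1 * K * 8000 * E) / Real.sqrt (L * n) := by
  have hlpos : 0 < l := by linarith
  have hs : Real.sqrt (1 + l * n) ≤ 2 * Real.sqrt (L * n) := by
    have h4 : 2 * Real.sqrt (L * n) = Real.sqrt (4 * (L * n)) := by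
      rw [Real.sqrt_mul (by norm_num : (0:ℝ) ≤ 4) (L * n)]
      congr 1
      rw [show (4:ℝ) = 2 ^ 2 by norm_num, Real.sqrt_sq (by norm_num)]
    rw [h4]
    apply Real.sqrt_le_sqrt
    nlinarith
  have h1n : 1 + 1 / n ≤ 2 / n := by
    rw [show (2:ℝ) / n = 1 / n + 1 / n by ring]
    have : 1 ≤ 1 / n := by rw [le_div_iff₀ hn]; linarith
    linarith
  have hil : 1 / l ≤ 2000 / L := by
    rw [div_le_div_iff₀ hlpos hL]
    linarith
  have hLn0 : 0 < L * n := by positivity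
  have hsq : Real.sqrt (L * n) * Real.sqrt (L * n) = L * n := Real.mul_self_sqrt hLn0.le
  have hspos : 0 < Real.sqrt (L * n) := Real.sqrt_pos.2 hLn0
  have key : (1 + 1 / n) * (Real.sqrt (1 + l * n) / l) ≤ 8000 / Real.sqrt (L * n) := by
    calc (1 + 1 / n) * (Real.sqrt (1 + l * n) / l)
        = (1 + 1 / n) * (Real.sqrt (1 + l * n) * (1 / l)) := by ring
      _ ≤ (2 / n) * ((2 * Real.sqrt (L * n)) * (2000 / L)) := by
        apply mul_le_mul h1n _ (by positivity) (by positivity)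
        exact mul_le_mul hs hil (by positivity) (by positivity)
      _ = 8000 * Real.sqrt (L * n) / (L * n) := by field_simp; ring
      _ = 8000 * Real.sqrt (L * n) / (Real.sqrt (L * n) * Real.sqrt (L * n)) := by rw [hsq]
      _ = 8000 / Real.sqrt (L * n) := by field_simp
  calc C1 * (1 + 1 / n) * (K * Real.sqrt (1 + l * n) / l) * E
      = (C1 * K * E) * ((1 + 1 / n) * (Real.sqrt (1 + l * n) / l)) := by ring
    _ ≤ (C1 * K * E) * (8000 / Real.sqrt (L * n)) :=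
        mul_le_mul_of_nonneg_left key (by positivity)
    _ = (C1 * K * 8000 * E) / Real.sqrt (L * n) := by ring

/-- (4.3): master with alpha = 0, beta = -iv = eta, tau = (0,iv,0,-iv): first vector (eta,0,0,eta), second (0,-eta,-eta,0)
(QQ_swap, QQ_half with -eta). 1+l|eta| <= 2 log T |v|, l >= log T/2000. -/
theorem K_large : ∃ C : ℝ, 0 < C ∧ ∀ Λ : ℝ, 1 ≤ Λ → ∃ T0 : ℝ, 2 ≤ T0 ∧ ∀ T : ℝ, T0 ≤ T → ∀ l : ℝ,
    Real.log T / 2000 ≤ l → l ≤ Real.log T / 1000 → ∀ v : ℂ, |v.im| ≤ 1 / Real.log T →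
    1 / Real.log T ≤ ‖v‖ → ‖v‖ ≤ Λ / Real.log T →
    ‖KK T l v‖ ≤ C / Real.sqrt (Real.log T * ‖v‖) := by
  obtain ⟨Cm, Tm, hCm, hTm, hmaster⟩ := master 1 zero_le_one
  obtain ⟨K, l0, hK, hl0, hQ⟩ := QQ_half
  obtain ⟨C1, hC1, hzA⟩ := zA_bounds 1 zero_le_one
  refine ⟨C1 * K * 8000 * (1 + Real.exp 1) + 1, by positivity, ?_⟩
  intro Λ hΛ
  have hc : 0 < 1 / (2 * Cm * Real.sqrt Λ) := by positivity
  have hev1 := (isLittleO_log_rpow_atTop (by norm_num : (0:ℝ) < 1/4)).def hc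
  have hev2 : ∀ᶠ T : ℝ in atTop, 2000 * l0 + 16 * Λ + 16 ≤ Real.log T :=
    Real.tendsto_log_atTop.eventually_ge_atTop _
  have hev := ((hev1.and hev2).and (eventually_ge_atTop (max Tm 7)))
  rw [Filter.eventually_atTop] at hev
  obtain ⟨T1, hT1⟩ := hev
  refine ⟨max T1 2, le_max_right _ _, ?_⟩
  intro T hT l hl hl' v hv1 hv2 hv3
  obtain ⟨⟨hlogle, hlogbig⟩, hTmax⟩ := hT1 T (le_trans (le_max_left _ _) hT)
  have hTm' : Tm ≤ T := le_trans (le_max_left _ _) hTmax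
  have hT7 : 7 ≤ T := le_trans (le_max_right _ _) hTmax
  have hT0 : (0:ℝ) < T := by linarith
  set L := Real.log T with hLdef
  have hL16 : 16 ≤ L := by linarith
  have hL0 : 0 < L := by linarith
  have hll0 : l0 ≤ l := by linarith
  have hlpos : 0 < l := by linarith
  have hn0 : 0 < ‖v‖ := lt_of_lt_of_le (by positivity) hv2
  have hLn : 1 ≤ L * ‖v‖ := by
    rw [div_le_iff₀ hL0] at hv2
    linarith
  have hLnΛ : L * ‖v‖ ≤ Λ := by
    rw [le_div_iff₀ hL0] at hv3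
    linarith
  have h16 : 1 / L ≤ 1 / 16 := one_div_le_one_div_of_le (by norm_num) hL16
  have hn16 : ‖v‖ ≤ 1 / 16 := by
    refine le_trans hv3 ?_
    rw [div_le_div_iff₀ hL0 (by norm_num)]
    linarith
  -- eta
  set η : ℂ := -(v * I) with hη
  have hηre : η.re = v.im := by simp [hη]
  have hηim : η.im = -v.re := by simp [hη]
  have hηn : ‖η‖ = ‖v‖ := by simp [hη]
  have hη0 : η ≠ 0 := by
    intro h
    rw [h, norm_zero] at hηn
    linarith
  have hvre : |v.re| ≤ ‖v‖ := Complex.abs_re_le_norm v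
  have hηre' : |η.re| ≤ 1 / L := by rw [hηre]; exact hv1
  have hηre8 : |η.re| ≤ 1 / (8 * l) := by
    refine le_trans hηre' (one_div_le_one_div_of_le (by positivity) ?_)
    linarith
  have hηim1 : |η.im| ≤ 1 := by rw [hηim, abs_neg]; linarith
  have hM := hmaster T hTm' l hlpos hl' (fun _ => 1/2) (fun _ => by norm_num) 0 η
    ![0, v * I, 0, -(v * I)] (by norm_num) (by linarith) (by norm_num) hηim1
    (by
      intro j
      fin_cases j
      · norm_num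
      · simp only [Fin.mk_one, Matrix.cons_val_one, Matrix.cons_val_zero]
        have : (v * I).re = -v.im := by simp
        rw [this, abs_neg]; linarith
      · norm_num
      · show |(-(v * I)).re| ≤ 1/16
        rw [← hη, hηre]; linarith) (by rw [zero_add]; exact hη0)
  have hv1' : (![(![0, v * I, 0, -(v * I)] : Fin 4 → ℂ) 0 + η, (![0, v * I, 0, -(v * I)] : Fin 4 → ℂ) 1 + η,
      (![0, v * I, 0, -(v * I)] : Fin 4 → ℂ) 2 + 0, (![0, v * I, 0, -(v * I)] : Fin 4 → ℂ) 3 + 0] : Fin 4 → ℂ)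
      = ![η, 0, 0, η] := by
    funext j
    fin_cases j
    · show (0:ℂ) + η = η
      rw [zero_add]
    · show v * I + η = 0
      rw [hη]; ring
    · show (0:ℂ) + 0 = 0
      rw [zero_add]
    · show -(v * I) + 0 = η
      rw [hη, add_zero]
  have hv2' : (![(![0, v * I, 0, -(v * I)] : Fin 4 → ℂ) 0 - 0, (![0, v * I, 0, -(v * I)] : Fin 4 → ℂ) 1 - 0,
      (![0, v * I, 0, -(v * I)] : Fin 4 → ℂ) 2 - η, (![0, v * I, 0, -(v * I)] : Fin 4 → ℂ) 3 - η] : Fin 4 → ℂ)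
      = ![0, -η, -η, 0] := by
    funext j
    fin_cases j
    · show (0:ℂ) - 0 = 0
      rw [sub_zero]
    · show v * I - 0 = -η
      rw [hη]; ring
    · show (0:ℂ) - η = -η
      rw [zero_sub]
    · show -(v * I) - η = 0
      rw [hη]; ring
  rw [hv1', hv2', zero_add, QQ_swap ⌊Real.exp l⌋₊ (1/2) l 0 (-η) (-η) 0 (-η)] at hM
  have hQ1 := hQ l hll0 η hηre8 (by rw [hηn]; linarith)
  have hQ2 := hQ l hll0 (-η) (by rw [neg_re, abs_neg]; exact hηre8) (by rw [norm_neg, hηn]; linarith)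
  rw [norm_neg] at hQ2
  obtain ⟨hz, hA⟩ := hzA η (by linarith) hηim1 hη0
  have hpow := M13_pow T hT7 η hηre'
  rw [hηn] at hM hQ1 hQ2 hz hA
  have hKK : KK T l v = EE T (XX (fun _ => 1/2) l 0 η ![0, v * I, 0, -(v * I)]) := rfl
  rw [← hKK] at hM
  have hn1 : ‖v‖ ≤ 1 := by linarith
  have hQb : 0 ≤ K * Real.sqrt (1 + l * ‖v‖) / l := by positivity
  have hzb : 0 ≤ C1 * (1 + 1 / ‖v‖) := by positivity
  -- first term
  have t1 : ‖riemannZeta (1 + η) * QQ ⌊Real.exp l⌋₊ (fun _ => 1/2) l ![η, 0, 0, η] η‖ ≤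
      C1 * (1 + 1 / ‖v‖) * (K * Real.sqrt (1 + l * ‖v‖) / l) := by
    rw [norm_mul]
    exact mul_le_mul hz hQ1 (norm_nonneg _) hzb
  have t2 : ‖((2 * Real.pi / T : ℝ) : ℂ) ^ η * Ac η *
      QQ ⌊Real.exp l⌋₊ (fun _ => 1/2) l ![-η, 0, 0, -η] (-η)‖ ≤
      Real.exp 1 * (C1 * (1 + 1 / ‖v‖)) * (K * Real.sqrt (1 + l * ‖v‖) / l) := by
    rw [norm_mul, norm_mul]
    refine mul_le_mul ?_ hQ2 (norm_nonneg _) (by positivity)
    exact mul_le_mul hpow hA (norm_nonneg _) (Real.exp_pos _).le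
  -- error term
  have t3 : Cm * (1 + 1 / ‖v‖) * T ^ (-(1/4) : ℝ) ≤ 1 / Real.sqrt (L * ‖v‖) := by
    have hTp : 0 < T ^ ((1:ℝ)/4) := Real.rpow_pos_of_pos hT0 _
    rw [Real.norm_of_nonneg hL0.le, Real.norm_of_nonneg hTp.le] at hlogle
    have h1n : 1 + 1 / ‖v‖ ≤ 2 * L := by
      have : 1 / ‖v‖ ≤ L := by
        rw [div_le_iff₀ hn0]; exact hLn
      linarith
    have hneg : T ^ (-(1/4) : ℝ) = 1 / T ^ ((1:ℝ)/4) := by
      rw [Real.rpow_neg hT0.le, inv_eq_one_div]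
    rw [hneg]
    have hΛ0 : 0 < Real.sqrt Λ := Real.sqrt_pos.2 (by linarith)
    calc Cm * (1 + 1 / ‖v‖) * (1 / T ^ ((1:ℝ)/4))
        ≤ Cm * (2 * L) * (1 / T ^ ((1:ℝ)/4)) := by
          apply mul_le_mul_of_nonneg_right _ (by positivity)
          exact mul_le_mul_of_nonneg_left h1n hCm.le
      _ ≤ Cm * (2 * (1 / (2 * Cm * Real.sqrt Λ) * T ^ ((1:ℝ)/4))) * (1 / T ^ ((1:ℝ)/4)) := by
          apply mul_le_mul_of_nonneg_right _ (by positivity)
          apply mul_le_mul_of_nonneg_left _ hCm.le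
          linarith
      _ = 1 / Real.sqrt Λ := by
          generalize Real.sqrt Λ = x at hΛ0
          generalize T ^ ((1:ℝ)/4) = y at hTp
          have hx : x ≠ 0 := hΛ0.ne'
          have hy : y ≠ 0 := hTp.ne'
          have hC : Cm ≠ 0 := hCm.ne'
          field_simp
      _ ≤ 1 / Real.sqrt (L * ‖v‖) := by
          apply one_div_le_one_div_of_le
          · exact Real.sqrt_pos.2 (by positivity)
          · exact Real.sqrt_le_sqrt hLnΛ
  have hsum := M13_alg L l ‖v‖ C1 K (1 + Real.exp 1) hL0 hl hl' hn0 hn1 hLn hC1 hK (by positivity)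
  have htri : ‖KK T l v‖ ≤ ‖KK T l v -
      (riemannZeta (1 + η) * QQ ⌊Real.exp l⌋₊ (fun _ => 1/2) l ![η, 0, 0, η] η +
      ((2 * Real.pi / T : ℝ) : ℂ) ^ η * Ac η *
        QQ ⌊Real.exp l⌋₊ (fun _ => 1/2) l ![-η, 0, 0, -η] (-η))‖ +
      (‖riemannZeta (1 + η) * QQ ⌊Real.exp l⌋₊ (fun _ => 1/2) l ![η, 0, 0, η] η‖ +
      ‖((2 * Real.pi / T : ℝ) : ℂ) ^ η * Ac η *
        QQ ⌊Real.exp l⌋₊ (fun _ => 1/2) l ![-η, 0, 0, -η] (-η)‖) := by
    refine le_trans ?_ (add_le_add_right (norm_add_le _ _) _)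
    refine le_trans ?_ (norm_add_le _ _)
    rw [sub_add_cancel]
  calc ‖KK T l v‖ ≤ _ := htri
    _ ≤ 1 / Real.sqrt (L * ‖v‖) + (C1 * (1 + 1 / ‖v‖) * (K * Real.sqrt (1 + l * ‖v‖) / l) +
        Real.exp 1 * (C1 * (1 + 1 / ‖v‖)) * (K * Real.sqrt (1 + l * ‖v‖) / l)) := by
        exact add_le_add (le_trans hM t3) (add_le_add t1 t2)
    _ = C1 * (1 + 1 / ‖v‖) * (K * Real.sqrt (1 + l * ‖v‖) / l) * (1 + Real.exp 1)
        + 1 / Real.sqrt (L * ‖v‖) := by ring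
    _ ≤ C1 * K * 8000 * (1 + Real.exp 1) / Real.sqrt (L * ‖v‖) + 1 / Real.sqrt (L * ‖v‖) :=
        add_le_add_left hsum _
    _ = (C1 * K * 8000 * (1 + Real.exp 1) + 1) / Real.sqrt (L * ‖v‖) := by ring

end LZ
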