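import Pool.Agent.Lib.MP_0f5a55_nt.D0
import Pool.Agent.Lib.MP_0f5a55_nt.M13
import Pool.Agent.Lib.MP_0f5a55_nt.M05
import Pool.Agent.Lib.MP_0f5a55_nt.M06

open Complex MeasureTheory Set Filter Topology Metric
open scoped ComplexConjugate

namespace LZ

theorem M14_nS {z : ℕ} {S : Finset ℕ} (hS : S ∈ (PP z).powerset) : (nS S : ℂ) ≠ 0 := by
  have h : nS S ≠ 0 := by
    unfold nS
    refine Finset.prod_ne_zero_iff.2 fun p hp => ?_
    have h1 := Finset.mem_powerset.1 hS hp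
    unfold PP at h1
    exact (Finset.mem_filter.1 h1).2.ne_zero
  exact_mod_cast h

theorem M14_mol (lam l : ℝ) : Differentiable ℂ (Mol lam l) := by
  intro s
  unfold Mol
  refine DifferentiableAt.fun_sum fun S hS => ?_
  exact (differentiableAt_id.neg.const_cpow (Or.inl (M14_nS hS))).const_mul _

theorem M14_zeta (t : ℝ) (v : ℂ) (hv : |v.im| ≤ 1 / 16) :
    DifferentiableAt ℂ (fun v : ℂ => riemannZeta (1 / 2 + -(v * I) - t * I)) v := by
  have h1 : (1 / 2 + -(v * I) - t * I : ℂ) ≠ 1 := by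
    intro h
    have h2 := congrArg Complex.re h
    simp at h2
    have h3 := abs_le.1 hv
    linarith [h3.1, h3.2]
  have h2 : DifferentiableAt ℂ (fun v : ℂ => (1 / 2 + -(v * I) - t * I : ℂ)) v := by fun_prop
  exact DifferentiableAt.comp v (differentiableAt_riemannZeta h1) h2

theorem M14_diff (l : ℝ) (t : ℝ) (v : ℂ) (hv : |v.im| ≤ 1 / 16) :
    DifferentiableAt ℂ (fun v : ℂ => XX (fun _ => 1/2) l 0 (-(v * I)) ![0, v * I, 0, -(v * I)] t) v := by
  have h1 : DifferentiableAt ℂ (fun v : ℂ => Mol (1 / 2) l (1 / 2 + v * I + t * I)) v :=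
    DifferentiableAt.comp (g := Mol (1 / 2) l) (f := fun v : ℂ => 1 / 2 + v * I + t * I) v (M14_mol _ _ _) (by fun_prop)
  have h2 : DifferentiableAt ℂ (fun v : ℂ => Mol (1 / 2) l (1 / 2 + -(v * I) - t * I)) v :=
    DifferentiableAt.comp (g := Mol (1 / 2) l) (f := fun v : ℂ => 1 / 2 + -(v * I) - t * I) v (M14_mol _ _ _) (by fun_prop)
  have h3 := M14_zeta t v hv
  exact (h3.const_mul (riemannZeta (1 / 2 + 0 + t * I))).mul
    ((((h1.const_mul (Mol (1 / 2) l (1 / 2 + 0 + t * I)))).mul_const (Mol (1 / 2) l (1 / 2 + 0 - t * I))).mul h2)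

/-- maximum modulus on |v| <= 1/log T. -/
theorem K_small : ∃ C T0 : ℝ, 0 < C ∧ 2 ≤ T0 ∧ ∀ T : ℝ, T0 ≤ T → ∀ l : ℝ,
    Real.log T / 2000 ≤ l → l ≤ Real.log T / 1000 → ∀ v : ℂ, ‖v‖ ≤ 1 / Real.log T → ‖KK T l v‖ ≤ C := by
  obtain ⟨C, hC, hK⟩ := K_large
  obtain ⟨T1, hT1, hK1⟩ := hK 1 le_rfl
  refine ⟨C, max T1 (Real.exp 32), hC, hT1.trans (le_max_left _ _), ?_⟩
  intro T hT l hl1 hl2 v hv
  have hTT1 : T1 ≤ T := (le_max_left _ _).trans hT
  have hT0 : 0 < T := by linarith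
  have hlog : 32 ≤ Real.log T := by
    rw [Real.le_log_iff_exp_le hT0]
    exact (le_max_right _ _).trans hT
  have hL0 : 0 < Real.log T := by linarith
  have hρ0 : 0 < 1 / Real.log T := by positivity
  have hρ : 1 / Real.log T ≤ 1 / 32 := one_div_le_one_div_of_le (by norm_num) hlog
  have hl0 : 0 < l := by linarith
  have hsub : ∀ z ∈ ball (0 : ℂ) (1 / 16), ‖z‖ < 1 / 16 := fun z hz => by simpa using hz
  obtain ⟨C2, hC2, hX⟩ := XX_bound (fun _ => 1 / 2) (fun _ => by norm_num) l 1 hl0 zero_le_one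
  have hX' : ∀ z ∈ ball (0 : ℂ) (1 / 16), Continuous (XX (fun _ => 1/2) l 0 (-(z * I)) ![0, z * I, 0, -(z * I)]) ∧
      ∀ t : ℝ, ‖XX (fun _ => 1/2) l 0 (-(z * I)) ![0, z * I, 0, -(z * I)] t‖ ≤ C2 * (1 + |t|) ^ 2 := by
    intro z hz
    have h1 := hsub z hz
    have hre := Complex.abs_re_le_norm z
    have him := Complex.abs_im_le_norm z
    refine hX 0 (-(z * I)) ![0, z * I, 0, -(z * I)] ?_ ?_ ?_ ?_ ?_
    · simp
    · simp; linarith
    · simp
    · simp; linarith
    · intro j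
      fin_cases j
      · simp
      · simp; linarith
      · simp
      · simp; linarith
  have hdiff : DifferentiableOn ℂ (fun z => EE T (XX (fun _ => 1/2) l 0 (-(z * I)) ![0, z * I, 0, -(z * I)]))
      (ball (0 : ℂ) (1 / 16)) := by
    refine EE_diff hT0 isOpen_ball (g := fun z => XX (fun _ => 1/2) l 0 (-(z * I)) ![0, z * I, 0, -(z * I)])
      (C := C2) ?_ ?_ ?_
    · intro t z hz
      have h1 := hsub z hz
      exact (M14_diff l t z ((Complex.abs_im_le_norm z).trans h1.le)).differentiableWithinAt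
    · exact fun z hz => (hX' z hz).1
    · exact fun z hz t _ => (hX' z hz).2 t
  have hcl : closure (ball (0 : ℂ) (1 / Real.log T)) ⊆ ball 0 (1 / 16) := by
    rw [closure_ball _ hρ0.ne']
    exact closedBall_subset_ball (by linarith)
  refine Complex.norm_le_of_forall_mem_frontier_norm_le (f := fun z => KK T l z) (U := ball (0 : ℂ) (1 / Real.log T))
    isBounded_ball (hdiff.mono hcl).diffContOnCl ?_ ?_
  · intro z hz
    rw [frontier_ball _ hρ0.ne'] at hz
    have hz1 : ‖z‖ = 1 / Real.log T := by simpa using hz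
    have h1 := hK1 T hTT1 l hl1 hl2 z ((Complex.abs_im_le_norm z).trans hz1.le) hz1.ge hz1.le
    rw [hz1, mul_one_div_cancel hL0.ne', Real.sqrt_one, div_one] at h1
    exact h1
  · rw [closure_ball _ hρ0.ne']
    simpa using hv

end LZ
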