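import Pool.Agent.Lib.MP_0f5a55_nt.D0
import Pool.Agent.Lib.MP_0f5a55_nt.X2

open Complex MeasureTheory Set Filter Topology
open scoped ComplexConjugate

namespace LZ

theorem Z01_exp_sub_one (z : ℂ) : ‖exp z - 1‖ ≤ ‖z‖ * Real.exp ‖z‖ := by
  have h := Complex.norm_exp_sub_sum_le_norm_mul_exp z 1
  simpa using h

/-- the reference logarithm -/
noncomputable def Z01_L (t : ℝ) : ℂ := Real.log (t / 2) + (Real.pi / 2) * I

theorem Z01_log_close {t : ℝ} (ht : 8 ≤ t) {s : ℂ} (hre : s.re = 1/4) (h1 : t / 2 ≤ s.im)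
    (h2 : s.im ≤ (t + 1) / 2) : ‖log s - Z01_L t‖ ≤ 3 / t := by
  have ht0 : (0:ℝ) < t := by linarith
  have htc : (t : ℂ) ≠ 0 := by exact_mod_cast ht0.ne'
  set z : ℂ := s / ((t / 2 : ℝ) * I) - 1 with hz
  have hden : ((t / 2 : ℝ) : ℂ) * I ≠ 0 := by
    refine mul_ne_zero ?_ I_ne_zero
    exact_mod_cast (by positivity : t / 2 ≠ 0)
  have e1 : s = ((t / 2 : ℝ) * I) * (1 + z) := by
    rw [hz]
    generalize ((t / 2 : ℝ) : ℂ) * I = D at hden
    field_simp
    ring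
  have hnum : ‖s - (t / 2 : ℝ) * I‖ ≤ 3 / 4 := by
    have := Complex.norm_le_abs_re_add_abs_im (s - (t / 2 : ℝ) * I)
    have hr : (s - (t / 2 : ℝ) * I).re = 1 / 4 := by simp [hre]
    have hi : (s - (t / 2 : ℝ) * I).im = s.im - t / 2 := by simp
    rw [hr, hi, abs_of_nonneg (by norm_num : (0:ℝ) ≤ 1 / 4),
      abs_of_nonneg (by linarith : (0:ℝ) ≤ s.im - t / 2)] at this
    linarith
  have hz1 : ‖z‖ ≤ 3 / (2 * t) := by
    have e2 : z = (s - (t / 2 : ℝ) * I) / ((t / 2 : ℝ) * I) := by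
      rw [hz, sub_div, div_self hden]
    rw [e2, norm_div, norm_mul, norm_I, mul_one, Complex.norm_real, Real.norm_eq_abs,
      abs_of_pos (by positivity)]
    rw [div_le_iff₀ (by positivity)]
    have : 3 / (2 * t) * (t / 2) = 3 / 4 := by field_simp; norm_num
    rw [this]
    exact hnum
  have hz2 : 3 / (2 * t) ≤ 3 / 16 := by
    rw [div_le_div_iff₀ (by positivity) (by norm_num)]
    linarith
  have hz34 : ‖z‖ ≤ 3 / 4 := by linarith
  have hre1 : 0 < (1 + z).re := by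
    have := (abs_le.1 ((abs_re_le_norm z).trans hz34)).1
    rw [add_re, one_re]; linarith
  have l1 : log s = log ((t / 2 : ℝ) * I) + log (1 + z) := by
    rw [e1]
    exact LZX.log_mul_I (by simpa using ht0) (by simp) hre1
  have l2 : log (((t / 2 : ℝ) : ℂ) * I) = Z01_L t := by
    rw [log_ofReal_mul (by positivity) I_ne_zero, log_I, Z01_L]
  rw [l1, l2, add_sub_cancel_left]
  have b1 := LZX.log_one_add_sub_le hz34
  have b2 : ‖log (1 + z)‖ ≤ ‖z‖ + 2 * ‖z‖ ^ 2 := by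
    calc ‖log (1 + z)‖ = ‖z + (log (1 + z) - z)‖ := by congr 1; ring
      _ ≤ ‖z‖ + ‖log (1 + z) - z‖ := norm_add_le _ _
      _ ≤ _ := by linarith
  have b3 : 2 * ‖z‖ ^ 2 ≤ ‖z‖ := by nlinarith [norm_nonneg z]
  have b4 : 2 * (3 / (2 * t)) = 3 / t := by field_simp
  linarith

theorem Z01_far {t : ℝ} (ht : 8 ≤ t) {s : ℂ} (hre : s.re = 1/4) (h1 : t / 2 ≤ s.im)
    (h2 : s.im ≤ (t + 1) / 2) {n : ℕ} (hn : 2 * (t + 2) * t ≤ n) :
    ‖(Real.log n : ℂ) - log (s + (n + 1 : ℕ))‖ ≤ 1 / t := by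
  have ht0 : (0:ℝ) < t := by linarith
  have hn0 : (0:ℝ) < n := lt_of_lt_of_le (by positivity) hn
  have hnc : (n : ℂ) ≠ 0 := by exact_mod_cast hn0.ne'
  set z : ℂ := (s + 1) / n with hz
  have e1 : s + (n + 1 : ℕ) = ((n : ℝ) : ℂ) * (1 + z) := by
    rw [hz]
    push_cast
    field_simp
    ring
  have hs1 : ‖s + 1‖ ≤ t + 2 := by
    have := Complex.norm_le_abs_re_add_abs_im (s + 1)
    have hr : (s + 1).re = 5 / 4 := by simp [hre]; norm_num
    have hi : (s + 1).im = s.im := by simp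
    rw [hr, hi, abs_of_nonneg (by norm_num : (0:ℝ) ≤ 5 / 4),
      abs_of_nonneg (by linarith : (0:ℝ) ≤ s.im)] at this
    linarith
  have hz1 : ‖z‖ ≤ 1 / (2 * t) := by
    rw [hz, norm_div, Complex.norm_natCast, div_le_div_iff₀ hn0 (by positivity)]
    nlinarith
  have hz2 : 1 / (2 * t) ≤ 1 / 16 := by
    rw [div_le_div_iff₀ (by positivity) (by norm_num)]
    linarith
  have hz34 : ‖z‖ ≤ 3 / 4 := by linarith
  have hne : 1 + z ≠ 0 := by
    intro h
    have : z = -1 := by linear_combination h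
    rw [this, norm_neg, norm_one] at hz34
    norm_num at hz34
  rw [e1, log_ofReal_mul hn0 hne, sub_add_cancel_left, norm_neg]
  have b1 := LZX.log_one_add_sub_le hz34
  have b2 : ‖log (1 + z)‖ ≤ ‖z‖ + 2 * ‖z‖ ^ 2 := by
    calc ‖log (1 + z)‖ = ‖z + (log (1 + z) - z)‖ := by congr 1; ring
      _ ≤ ‖z‖ + ‖log (1 + z) - z‖ := norm_add_le _ _
      _ ≤ _ := by linarith
  have b3 : 2 * ‖z‖ ^ 2 ≤ ‖z‖ := by nlinarith [norm_nonneg z]
  have b4 : 2 * (1 / (2 * t)) = 1 / t := by field_simp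
  linarith

theorem Z01_LG {t v : ℝ} (ht : 8 ≤ t) (hv0 : 0 ≤ v) (hv1 : v ≤ 1) {n : ℕ}
    (hn : 2 * (t + 2) * t ≤ n) :
    ‖LZX.LG n (1/4 + (((t + v) / 2 : ℝ) : ℂ) * I) - LZX.LG n (1/4 + ((t / 2 : ℝ) : ℂ) * I) -
      ((v / 2 : ℝ) : ℂ) * I * Z01_L t‖ ≤ 10 / t := by
  have ht0 : (0:ℝ) < t := by linarith
  -- along the segment
  have key := (convex_Icc (0:ℝ) (v / 2)).norm_image_sub_le_of_norm_hasDerivWithin_le
    (f := fun y : ℝ => LZX.LG n (1/4 + ((t / 2 + y : ℝ) : ℂ) * I) -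
      ((y : ℝ) : ℂ) * I * Z01_L t)
    (f' := fun y : ℝ => (Real.log n - ∑ j ∈ Finset.range (n + 1),
      (1/4 + ((t / 2 + y : ℝ) : ℂ) * I + j)⁻¹ : ℂ) * I - I * Z01_L t)
    (C := 20 / t) (x := 0) (y := v / 2) ?_ ?_ ?_ ?_
  · simp only [add_zero, ofReal_zero, zero_mul, sub_zero] at key
    have e1 : t / 2 + v / 2 = (t + v) / 2 := by ring
    rw [e1] at key
    have e2 : ‖v / 2‖ = v / 2 := Real.norm_of_nonneg (by linarith)
    rw [e2] at key
    have e3 : LZX.LG n (1/4 + (((t + v) / 2 : ℝ) : ℂ) * I) - LZX.LG n (1/4 + ((t / 2 : ℝ) : ℂ) * I) -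
        ((v / 2 : ℝ) : ℂ) * I * Z01_L t = LZX.LG n (1/4 + (((t + v) / 2 : ℝ) : ℂ) * I) -
        ((v / 2 : ℝ) : ℂ) * I * Z01_L t - LZX.LG n (1/4 + ((t / 2 : ℝ) : ℂ) * I) := by ring
    rw [e3]
    refine key.trans ?_
    have : 20 / t * (v / 2) = 10 / t * v := by ring
    rw [this]
    exact mul_le_of_le_one_right (by positivity) hv1
  · intro y hy
    have hs : 0 < (1/4 + ((t / 2 + y : ℝ) : ℂ) * I).re := by
      simp
    have h1 := LZX.hasDerivAt_LG n hs
    have h2 : HasDerivAt (fun y : ℝ => (1/4 + ((t / 2 + y : ℝ) : ℂ) * I)) I y := by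
      have h3 : HasDerivAt (fun y : ℝ => ((t / 2 + y : ℝ) : ℂ)) 1 y := by
        have := ((hasDerivAt_id y).const_add (t / 2)).ofReal_comp
        simpa using this
      simpa using (h3.mul_const I).const_add (1/4 : ℂ)
    have h4 := h1.comp_of_eq y h2 rfl
    have h5 : HasDerivAt (fun y : ℝ => ((y : ℝ) : ℂ) * I * Z01_L t) (I * Z01_L t) y := by
      have h6 : HasDerivAt (fun y : ℝ => (y : ℂ)) 1 y := by
        simpa using (hasDerivAt_id y).ofReal_comp
      have := (h6.mul_const I).mul_const (Z01_L t)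
      simpa using this
    exact (h4.sub h5).hasDerivWithinAt
  · intro y hy
    set s : ℂ := 1/4 + ((t / 2 + y : ℝ) : ℂ) * I with hs
    have hre : s.re = 1/4 := by simp [hs]
    have him : s.im = t / 2 + y := by simp [hs]
    have hy0 := hy.1
    have hy1 := hy.2
    have h1 : t / 2 ≤ s.im := by rw [him]; linarith
    have h2 : s.im ≤ (t + 1) / 2 := by rw [him]; linarith
    have him2 : |s.im| = s.im := abs_of_nonneg (by linarith)
    have b1 := LZX.sum_inv_bound' (s := s) (by rw [hre]; norm_num) (by rw [him2]; linarith) (n + 1)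
    have b2 := Z01_log_close ht hre h1 h2
    have b3 := Z01_far ht hre h1 h2 hn
    have b4 : 8 / |s.im| ≤ 16 / t := by
      rw [him2, div_le_div_iff₀ (by linarith) ht0]
      linarith
    have e : (Real.log n - ∑ j ∈ Finset.range (n + 1), (s + j)⁻¹ : ℂ) * I - I * Z01_L t =
        (((Real.log n : ℂ) - log (s + (n + 1 : ℕ))) + (log s - Z01_L t) -
          ((∑ j ∈ Finset.range (n + 1), (s + j)⁻¹) - (log (s + (n + 1 : ℕ)) - log s))) * I := by
      ring
    rw [e, norm_mul, norm_I, mul_one]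
    refine (norm_sub_le _ _).trans ?_
    have b5 := norm_add_le ((Real.log n : ℂ) - log (s + (n + 1 : ℕ))) (log s - Z01_L t)
    have b6 : 20 / t = 16 / t + (3 / t + 1 / t) := by ring
    rw [b6]
    linarith
  · exact ⟨le_refl _, by linarith⟩
  · exact ⟨by linarith, le_refl _⟩

theorem Z01_Gamma {t v : ℝ} (ht : 8 ≤ t) (hv0 : 0 ≤ v) (hv1 : v ≤ 1) :
    ∃ ρ : ℂ, ‖ρ - 1‖ ≤ 40 / t ∧
      Gamma (1/4 + (((t + v) / 2 : ℝ) : ℂ) * I) =
        Gamma (1/4 + ((t / 2 : ℝ) : ℂ) * I) * exp (((v / 2 : ℝ) : ℂ) * I * Z01_L t) * ρ := by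
  have ht0 : (0:ℝ) < t := by linarith
  set a : ℂ := 1/4 + ((t / 2 : ℝ) : ℂ) * I with ha
  set b : ℂ := 1/4 + (((t + v) / 2 : ℝ) : ℂ) * I with hb
  set E : ℂ := exp (((v / 2 : ℝ) : ℂ) * I * Z01_L t) with hE
  have hE0 : E ≠ 0 := exp_ne_zero _
  have hare : 0 < a.re := by simp [ha]
  have hbre : 0 < b.re := by simp [hb]
  have hGa : Gamma a ≠ 0 := Gamma_ne_zero_of_re_pos hare
  refine ⟨Gamma b / (Gamma a * E), ?_, ?_⟩
  · have lim : Tendsto (fun n : ℕ => ‖GammaSeq b n / (GammaSeq a n * E) - 1‖) atTop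
        (𝓝 ‖Gamma b / (Gamma a * E) - 1‖) :=
      (((GammaSeq_tendsto_Gamma b).div ((GammaSeq_tendsto_Gamma a).mul_const E)
        (mul_ne_zero hGa hE0)).sub_const 1).norm
    refine le_of_tendsto lim ?_
    obtain ⟨N, hN⟩ := exists_nat_ge (2 * (t + 2) * t)
    filter_upwards [Filter.eventually_ge_atTop (max N 1)] with n hn
    have hn1 : 1 ≤ n := (le_max_right _ _).trans hn
    have hnN : 2 * (t + 2) * t ≤ n := hN.trans (by exact_mod_cast (le_max_left _ _).trans hn)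
    have key := Z01_LG ht hv0 hv1 hnN
    rw [← ha, ← hb] at key
    have e1 : GammaSeq b n / (GammaSeq a n * E) =
        exp (LZX.LG n b - LZX.LG n a - ((v / 2 : ℝ) : ℂ) * I * Z01_L t) := by
      rw [← LZX.exp_LG hn1 hare, ← LZX.exp_LG hn1 hbre, hE, ← exp_add, ← exp_sub]
      congr 1
      ring
    rw [e1]
    refine (Z01_exp_sub_one _).trans ?_
    have h3 : 10 / t ≤ 10 / 8 := by
      rw [div_le_div_iff₀ ht0 (by norm_num)]
      linarith
    have h4 : Real.exp (10 / 8) ≤ 4 := by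
      have h5 : Real.exp 1 < 2.7182818286 := Real.exp_one_lt_d9
      have h6 : Real.exp (10 / 8) = Real.exp 1 * Real.exp (1 / 4) := by
        rw [← Real.exp_add]; norm_num
      have h7 : Real.exp (1 / 4) ≤ 4 / 3 := by
        have := Real.exp_bound_div_one_sub_of_interval (x := 1 / 4) (by norm_num) (by norm_num)
        refine this.trans ?_
        norm_num
      rw [h6]
      have h8 : 0 < Real.exp (1 / 4) := Real.exp_pos _
      nlinarith
    calc _ ≤ (10 / t) * Real.exp (10 / 8) :=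
          mul_le_mul key (Real.exp_le_exp.mpr (key.trans h3)) (Real.exp_pos _).le (by positivity)
      _ ≤ (10 / t) * 4 := by gcongr
      _ = 40 / t := by ring
  · field_simp

/-- digamma estimate integrated: log-derivative of Gamma at s = 1/4+ix/2 is log s + O(1/x) (sum_inv_bound and exp_LG /
hasDerivAt_LG of X2, namespace LZX; n to infinity as in outputs/live ...MP_069854_nt/Stir2.lean rr_sub_one). Gammaℝ s = pi^(-s/2) Gamma(s/2). -/
theorem Gamma_quot : ∃ C : ℝ, 0 < C ∧ ∀ t v : ℝ, 8 ≤ t → 0 ≤ v → v ≤ 1 → ∃ ρ : ℂ, ‖ρ - 1‖ ≤ C / t ∧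
    Gammaℝ (1/2 + (t + v) * I) =
      Gammaℝ (1/2 + t * I) * exp ((v / 2 * Real.log (t / (2 * Real.pi))) * I - Real.pi * v / 4) * ρ := by
  refine ⟨40, by norm_num, fun t v ht hv0 hv1 => ?_⟩
  have ht0 : (0:ℝ) < t := by linarith
  obtain ⟨ρ, hρ, h⟩ := Z01_Gamma ht hv0 hv1
  refine ⟨ρ, hρ, ?_⟩
  have e1 : ((1/2 : ℂ) + (t + v) * I) / 2 = 1/4 + (((t + v) / 2 : ℝ) : ℂ) * I := by
    push_cast
    ring
  have e2 : ((1/2 : ℂ) + t * I) / 2 = 1/4 + ((t / 2 : ℝ) : ℂ) * I := by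
    push_cast
    ring
  rw [Gammaℝ_def, Gammaℝ_def, e1, e2, h]
  have hpi : (Real.pi : ℂ) ≠ 0 := by exact_mod_cast Real.pi_ne_zero
  have e3 : (Real.pi : ℂ) ^ (-(1/2 + (t + v) * I : ℂ) / 2) =
      (Real.pi : ℂ) ^ (-(1/2 + t * I : ℂ) / 2) * exp (-(v / 2 * Real.log Real.pi) * I) := by
    rw [cpow_def_of_ne_zero hpi, cpow_def_of_ne_zero hpi, ← exp_add, ← ofReal_log Real.pi_pos.le]
    congr 1
    ring
  have e4 : exp (((v / 2 : ℝ) : ℂ) * I * Z01_L t) * exp (-(v / 2 * Real.log Real.pi) * I) =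
      exp ((v / 2 * Real.log (t / (2 * Real.pi))) * I - Real.pi * v / 4) := by
    rw [← exp_add]
    congr 1
    have h1 : Real.log (t / (2 * Real.pi)) = Real.log (t / 2) - Real.log Real.pi := by
      rw [← Real.log_div (by positivity) Real.pi_ne_zero]
      congr 1
      field_simp
    rw [h1, Z01_L]
    push_cast
    linear_combination (v * Real.pi / 4 : ℂ) * I_mul_I
  rw [e3, ← e4]
  ring

end LZ
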