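import Pool.Agent.Lib.MP_0f5a55_nt.D0
import Pool.Agent.Lib.MP_0f5a55_nt.Z01

open Complex MeasureTheory Set Filter Topology
open scoped ComplexConjugate

namespace LZ

/-- (5.1). -/
theorem uu_phase : ∃ C : ℝ, 0 < C ∧ ∀ t v : ℝ, 8 ≤ t → 0 ≤ v → v ≤ 1 →
    ‖uu t * conj (uu (t + v)) - exp (-(v / 2 * Real.log (t / (2 * Real.pi)) : ℝ) * I)‖ ≤ C / t := by
  obtain ⟨C, hC, H⟩ := Gamma_quot
  refine ⟨2 * C, by positivity, fun t v ht hv0 hv1 => ?_⟩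
  obtain ⟨ρ, hρ, hq⟩ := H t v ht hv0 hv1
  have hz : ∀ s : ℝ, Gammaℝ (1/2 + s * I) ≠ 0 := by
    intro s
    apply Gammaℝ_ne_zero_of_re_pos
    simp
  have hcast : ((t + v : ℝ) : ℂ) = (t : ℂ) + (v : ℂ) := by push_cast; rfl
  set z := Gammaℝ (1/2 + t * I) with hzdef
  have hz0 : z ≠ 0 := hz t
  have hz' : Gammaℝ (1/2 + ((t + v : ℝ) : ℂ) * I) ≠ 0 := hz (t + v)
  set θ : ℝ := v / 2 * Real.log (t / (2 * Real.pi)) with hθ
  set r : ℝ := Real.exp (-(Real.pi * v / 4)) with hr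
  have hr0 : 0 < r := Real.exp_pos _
  have hexp : exp ((v / 2 * Real.log (t / (2 * Real.pi))) * I - Real.pi * v / 4) =
      exp ((θ : ℂ) * I) * (r : ℂ) := by
    rw [hr, ofReal_exp, ← exp_add]
    congr 1
    rw [hθ]
    push_cast
    ring
  rw [hexp] at hq
  have hq' : Gammaℝ (1/2 + ((t + v : ℝ) : ℂ) * I) = z * (exp ((θ : ℂ) * I) * (r : ℂ)) * ρ := by
    rw [hcast]; exact hq
  have hρ0 : ρ ≠ 0 := by
    rintro rfl
    rw [hq', mul_zero] at hz'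
    exact hz' rfl
  have hnexp : ‖exp ((θ : ℂ) * I)‖ = 1 := Complex.norm_exp_ofReal_mul_I θ
  have hn : ‖Gammaℝ (1/2 + ((t + v : ℝ) : ℂ) * I)‖ = ‖z‖ * r * ‖ρ‖ := by
    rw [hq', norm_mul, norm_mul, norm_mul, hnexp, one_mul, Complex.norm_real, Real.norm_eq_abs,
      abs_of_pos hr0]
  have hzn : (‖z‖ : ℂ) ≠ 0 := by exact_mod_cast (norm_pos_iff.2 hz0).ne'
  have hρn : (‖ρ‖ : ℂ) ≠ 0 := by exact_mod_cast (norm_pos_iff.2 hρ0).ne'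
  have hrc : (r : ℂ) ≠ 0 := by exact_mod_cast hr0.ne'
  have hu' : uu (t + v) = z / ‖z‖ * exp ((θ : ℂ) * I) * (ρ / ‖ρ‖) := by
    unfold uu
    rw [hn, hq']
    push_cast
    field_simp
  have hu : uu t = z / ‖z‖ := rfl
  have hzz : z / ‖z‖ * conj (z / ‖z‖) = 1 := by
    rw [mul_conj, normSq_eq_norm_sq, norm_div, Complex.norm_real, norm_norm,
      div_self (norm_pos_iff.2 hz0).ne']
    simp
  have hce : conj (exp ((θ : ℂ) * I)) = exp (-(θ : ℂ) * I) := by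
    rw [← exp_conj]
    congr 1
    simp
  have hmain : uu t * conj (uu (t + v)) = exp (-(θ : ℂ) * I) * conj (ρ / ‖ρ‖) := by
    rw [hu', hu, map_mul, map_mul, hce]
    calc z / ‖z‖ * (conj (z / ‖z‖) * exp (-(θ : ℂ) * I) * conj (ρ / ‖ρ‖))
        = (z / ‖z‖ * conj (z / ‖z‖)) * (exp (-(θ : ℂ) * I) * conj (ρ / ‖ρ‖)) := by ring
      _ = _ := by rw [hzz, one_mul]
  have hexp2 : exp (-(θ : ℂ) * I) * conj (ρ / ‖ρ‖) - exp (-(θ : ℂ) * I) =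
      exp (-(θ : ℂ) * I) * conj (ρ / ‖ρ‖ - 1) := by
    rw [map_sub, map_one]; ring
  have hne : ‖exp (-(θ : ℂ) * I)‖ = 1 := by
    have := Complex.norm_exp_ofReal_mul_I (-θ)
    rwa [ofReal_neg] at this
  rw [hmain, hexp2, norm_mul, hne, one_mul, RCLike.norm_conj]
  have h1 : ρ / ‖ρ‖ - 1 = (ρ / ‖ρ‖) * (1 - ‖ρ‖) + (ρ - 1) := by
    field_simp
    ring
  have h2 : ‖ρ / (‖ρ‖ : ℂ)‖ = 1 := by
    rw [norm_div, Complex.norm_real, norm_norm, div_self (norm_pos_iff.2 hρ0).ne']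
  have h3 : ‖(1 - ‖ρ‖ : ℂ)‖ ≤ ‖ρ - 1‖ := by
    have e : (1 - ‖ρ‖ : ℂ) = ((1 - ‖ρ‖ : ℝ) : ℂ) := by push_cast; rfl
    rw [e, Complex.norm_real, Real.norm_eq_abs]
    have := abs_norm_sub_norm_le (1 : ℂ) ρ
    rw [norm_one, norm_sub_rev] at this
    exact this
  calc ‖ρ / ‖ρ‖ - 1‖ ≤ ‖(ρ / ‖ρ‖) * (1 - ‖ρ‖)‖ + ‖ρ - 1‖ := by
        rw [h1]; exact norm_add_le _ _
    _ ≤ ‖ρ - 1‖ + ‖ρ - 1‖ := by
        rw [norm_mul, h2, one_mul]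
        gcongr
    _ ≤ C / t + C / t := by gcongr
    _ = 2 * C / t := by ring

end LZ
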