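import Pool.Agent.Lib.MP_0f5a55_nt.D0
import Pool.Agent.Lib.MP_0f5a55_nt.M08

open Complex MeasureTheory Set Filter Topology
open scoped ComplexConjugate

namespace LZ

theorem Z03_re (t : ℝ) : ((1/2 : ℂ) + t * I).re = 1/2 := by
  simp only [add_re, mul_re, ofReal_re, I_re, mul_zero, ofReal_im, I_im, zero_mul, sub_zero,
    add_zero]
  norm_num

theorem Z03_ne (t : ℝ) : Gammaℝ (1/2 + t * I) ≠ 0 :=
  Gammaℝ_ne_zero_of_re_pos (by rw [Z03_re]; norm_num)

theorem Z03_cont : Continuous (fun t : ℝ => Gammaℝ (1/2 + t * I)) := by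
  have h1 : Continuous (fun t : ℝ => (Gammaℝ (1/2 + t * I))⁻¹) :=
    differentiable_Gammaℝ_inv.continuous.comp
      (continuous_const.add (continuous_ofReal.mul continuous_const))
  have h2 := h1.inv₀ (fun t => inv_ne_zero (Z03_ne t))
  refine h2.congr (fun t => ?_)
  exact inv_inv _

theorem Z03_Gammaℝ_conj (s : ℂ) : Gammaℝ (conj s) = conj (Gammaℝ s) := by
  rw [Gammaℝ_def, Gammaℝ_def, map_mul]
  have h1 : conj s / 2 = conj (s / 2) := by
    rw [map_div₀, Complex.conj_ofNat]
  have h2 : -conj s / 2 = conj (-s / 2) := by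
    rw [map_div₀, map_neg, Complex.conj_ofNat]
  rw [h1, h2, Gamma_conj]
  congr 1
  have h3 := A_aux (-s / 2)
  exact h3
where
  A_aux (w : ℂ) : ((Real.pi : ℂ)) ^ (conj w) = conj ((Real.pi : ℂ) ^ w) := by
    rw [cpow_def_of_ne_zero (by exact_mod_cast Real.pi_ne_zero),
      cpow_def_of_ne_zero (by exact_mod_cast Real.pi_ne_zero), ← exp_conj, map_mul,
      ← ofReal_log Real.pi_pos.le, conj_ofReal]

theorem Z03_completed_real (t : ℝ) :
    conj (completedRiemannZeta (1/2 + t * I)) = completedRiemannZeta (1/2 + t * I) := by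
  have hne : ((1:ℂ)/2 + t * I) ≠ 0 := by
    intro h
    have := congrArg Complex.re h
    rw [Z03_re, zero_re] at this
    norm_num at this
  have hc : conj ((1:ℂ)/2 + t * I) = 1 - (1/2 + t * I) := by
    simp only [map_add, map_mul, conj_ofReal, conj_I, map_div₀, map_one]
    rw [Complex.conj_ofNat]
    ring
  have hne2 : conj ((1:ℂ)/2 + t * I) ≠ 0 := by
    intro h
    rw [map_eq_zero] at h
    exact hne h
  have e1 : completedRiemannZeta (1/2 + t * I) = riemannZeta (1/2 + t * I) * Gammaℝ (1/2 + t * I) := by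
    rw [riemannZeta_def_of_ne_zero hne]
    exact (div_mul_cancel₀ _ (Z03_ne t)).symm
  have e2 : completedRiemannZeta (conj ((1:ℂ)/2 + t * I)) =
      riemannZeta (conj ((1:ℂ)/2 + t * I)) * Gammaℝ (conj ((1:ℂ)/2 + t * I)) := by
    rw [riemannZeta_def_of_ne_zero hne2]
    refine (div_mul_cancel₀ _ ?_).symm
    rw [Z03_Gammaℝ_conj]
    intro h
    rw [map_eq_zero] at h
    exact Z03_ne t h
  have e3 : completedRiemannZeta (conj ((1:ℂ)/2 + t * I)) =
      conj (completedRiemannZeta (1/2 + t * I)) := by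
    rw [e2, riemannZeta_conj, Z03_Gammaℝ_conj, ← map_mul, ← e1]
  rw [← e3, hc, completedRiemannZeta_one_sub]

/-- completedRiemannZeta (1/2+it) is real, riemannZeta s = completedRiemannZeta s / Gammaℝ s. -/
theorem uu_facts : (∀ t : ℝ, ‖uu t‖ = 1) ∧ Continuous uu ∧ (∀ t : ℝ, (uu t * riemannZeta (1/2 + t * I)).im = 0) := by
  refine ⟨fun t => ?_, ?_, fun t => ?_⟩
  · unfold uu
    rw [norm_div, norm_real, norm_norm, div_self]
    exact norm_ne_zero_iff.2 (Z03_ne t)
  · unfold uu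
    refine Z03_cont.div (continuous_ofReal.comp Z03_cont.norm) (fun t => ?_)
    exact_mod_cast norm_ne_zero_iff.2 (Z03_ne t)
  · have hne : ((1:ℂ)/2 + t * I) ≠ 0 := by
      intro h
      have := congrArg Complex.re h
      rw [Z03_re, zero_re] at this
      norm_num at this
    rw [← conj_eq_iff_im]
    unfold uu
    rw [riemannZeta_def_of_ne_zero hne]
    have h1 : Gammaℝ (1/2 + t * I) / (‖Gammaℝ (1/2 + t * I)‖ : ℂ) *
        (completedRiemannZeta (1/2 + t * I) / Gammaℝ (1/2 + t * I)) =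
        completedRiemannZeta (1/2 + t * I) / (‖Gammaℝ (1/2 + t * I)‖ : ℂ) := by
      rw [div_mul_div_comm, mul_comm (‖Gammaℝ (1/2 + t * I)‖ : ℂ), mul_div_mul_left _ _ (Z03_ne t)]
    rw [h1, map_div₀, conj_ofReal, Z03_completed_real]

end LZ
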