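import Pool.Agent.Lib.MP_0f5a55_nt.D0
import Pool.Agent.Lib.MP_0f5a55_nt.Z03
import Pool.Agent.Lib.MP_0f5a55_nt.M03
import Pool.Agent.Lib.MP_0f5a55_nt.A03
import Pool.Agent.Lib.MP_0f5a55_nt.M08

open Complex MeasureTheory Set Filter Topology
open scoped ComplexConjugate

namespace LZ

private theorem z04_nS_pos {z : ℕ} {S : Finset ℕ} (hS : S ∈ (PP z).powerset) : 0 < nS S := by
  unfold nS
  refine Finset.prod_pos (fun p hp => ?_)
  have h1 := Finset.mem_powerset.1 hS hp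
  exact (Finset.mem_filter.1 h1).2.pos

private theorem z04_mol_cont (lam l : ℝ) : Continuous (fun t : ℝ => Mol lam l (1/2 + t * I)) := by
  unfold Mol
  refine continuous_finsetSum _ (fun S hS => ?_)
  have h0 : ((nS S : ℕ) : ℂ) ≠ 0 := by
    exact_mod_cast (z04_nS_pos hS).ne'
  refine continuous_const.mul ?_
  refine Continuous.const_cpow ?_ (Or.inl h0)
  fun_prop

private theorem z04_ne_one (t : ℝ) : (1/2 + t * I : ℂ) ≠ 1 := by
  intro h
  have := congrArg Complex.re h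
  simp at this

private theorem z04_zeta_cont : Continuous (fun t : ℝ => riemannZeta (1/2 + t * I)) := by
  rw [continuous_iff_continuousAt]
  intro t
  have h1 : ContinuousAt riemannZeta (1/2 + t * I) :=
    (differentiableAt_riemannZeta (z04_ne_one t)).continuousAt
  have h2 : ContinuousAt (fun t : ℝ => (1/2 + t * I : ℂ)) t := by fun_prop
  exact ContinuousAt.comp (f := fun t : ℝ => (1/2 + t * I : ℂ)) h1 h2

private theorem z04_mol_norm {l : ℝ} (hl : 0 < l) (t : ℝ) :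
    ‖Mol (1/2) l (1/2 + t * I)‖ ≤ Real.exp l := by
  have h := (cf_sum (1/2) l (by norm_num) (by norm_num) hl ⌊Real.exp l⌋₊).2.2
  refine le_trans ?_ h
  unfold Mol
  refine (norm_sum_le _ _).trans (Finset.sum_le_sum (fun S hS => ?_))
  have hpos : 0 < nS S := z04_nS_pos hS
  have h1 : ‖((nS S : ℕ) : ℂ) ^ (-(1/2 + t * I : ℂ))‖ ≤ 1 := by
    rw [norm_natCast_cpow_of_pos hpos]
    have hre : (-(1/2 + t * I : ℂ)).re = -(1/2) := by simp
    rw [hre]
    refine Real.rpow_le_one_of_one_le_of_nonpos ?_ (by norm_num)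
    exact_mod_cast hpos
  rw [norm_mul]
  have h2 : ‖((cf (1/2) l S : ℝ) : ℂ)‖ = |cf (1/2) l S| := by
    rw [norm_real, Real.norm_eq_abs]
  rw [h2]
  exact mul_le_of_le_one_right (abs_nonneg _) h1

private theorem z04_real (l t : ℝ) : ((GG l t : ℝ) : ℂ) =
    uu t * riemannZeta (1/2 + t * I) *
      (Mol (1/2) l (1/2 + t * I) * conj (Mol (1/2) l (1/2 + t * I))) := by
  have him := uu_facts.2.2 t
  have h1 : (((uu t * riemannZeta (1/2 + t * I)).re : ℝ) : ℂ) = uu t * riemannZeta (1/2 + t * I) := by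
    apply Complex.ext
    · simp
    · rw [him]; simp
  unfold GG
  rw [ofReal_mul, h1, mul_conj, normSq_eq_norm_sq]

/-- facts on GG: continuity, absolute value, growth, product formula with XX (v real). -/
theorem GG_facts : (∀ l : ℝ, Continuous (GG l)) ∧
    (∀ l t : ℝ, |GG l t| = ‖riemannZeta (1/2 + t * I) * Mol (1/2) l (1/2 + t * I) ^ 2‖) ∧
    (∀ l t v : ℝ, ((GG l t * GG l (t + v) : ℝ) : ℂ) = uu t * conj (uu (t + v)) *
      XX (fun _ => 1/2) l 0 (-(v * I)) ![0, v * I, 0, -(v * I)] t) ∧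
    (∃ C : ℝ, 0 < C ∧ ∀ l t : ℝ, 0 < l → 0 ≤ t → |GG l t| ≤ C * Real.exp (2 * l) * (1 + t)) := by
  have habs : ∀ l t : ℝ, |GG l t| = ‖riemannZeta (1/2 + t * I) * Mol (1/2) l (1/2 + t * I) ^ 2‖ := by
    intro l t
    have h1 : |GG l t| = ‖((GG l t : ℝ) : ℂ)‖ := by rw [norm_real, Real.norm_eq_abs]
    rw [h1, z04_real, norm_mul, norm_mul, norm_mul, norm_mul, norm_pow, uu_facts.1 t, one_mul,
      norm_conj, pow_two]
  refine ⟨?_, habs, ?_, ?_⟩
  · intro l
    unfold GG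
    refine Continuous.mul ?_ ?_
    · exact continuous_re.comp (uu_facts.2.1.mul z04_zeta_cont)
    · exact (z04_mol_cont (1/2) l).norm.pow 2
  · intro l t v
    have h1 : ((GG l (t + v) : ℝ) : ℂ) = conj ((GG l (t + v) : ℝ) : ℂ) := (conj_ofReal _).symm
    rw [ofReal_mul, z04_real l t, h1, z04_real l (t + v)]
    simp only [map_mul, conj_conj]
    unfold XX
    have e1 : (1/2 + 0 + (t : ℂ) * I) = 1/2 + t * I := by ring
    have e2 : (1/2 + -((v : ℂ) * I) - (t : ℂ) * I) = conj (1/2 + ((t + v : ℝ) : ℂ) * I) := by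
      simp only [map_add, map_mul, conj_ofReal, conj_I, map_div₀, map_one, map_ofNat, ofReal_add]
      ring
    have e3 : (1/2 + (v : ℂ) * I + (t : ℂ) * I) = 1/2 + ((t + v : ℝ) : ℂ) * I := by
      push_cast; ring
    have e4 : (1/2 + 0 - (t : ℂ) * I) = conj (1/2 + (t : ℂ) * I) := by
      simp only [map_add, map_mul, conj_ofReal, conj_I, map_div₀, map_one, map_ofNat]
      ring
    have v0 : (![(0 : ℂ), v * I, 0, -(v * I)] : Fin 4 → ℂ) 0 = 0 := rfl
    have v1 : (![(0 : ℂ), v * I, 0, -(v * I)] : Fin 4 → ℂ) 1 = v * I := rfl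
    have v2 : (![(0 : ℂ), v * I, 0, -(v * I)] : Fin 4 → ℂ) 2 = 0 := rfl
    have v3 : (![(0 : ℂ), v * I, 0, -(v * I)] : Fin 4 → ℂ) 3 = -(v * I) := rfl
    rw [v0, v1, v2, v3, e1, e2, e3, e4, conj_facts.1, conj_facts.2.1, conj_facts.2.1]
    ring
  · obtain ⟨C, hC, hz⟩ := zeta_pol
    refine ⟨C, hC, fun l t hl ht => ?_⟩
    rw [habs, norm_mul, norm_pow]
    have h1 : ‖riemannZeta (1/2 + t * I)‖ ≤ C * (1 + t) := by
      have h2 := hz (1/2 + t * I) (by simp; norm_num) (by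
        have h3 : |(1/2 + t * I - 1 : ℂ).re| ≤ ‖(1/2 + t * I - 1 : ℂ)‖ := abs_re_le_norm _
        have h4 : (1/2 + t * I - 1 : ℂ).re = -(1/2) := by simp; norm_num
        rw [h4] at h3
        rw [abs_neg, abs_of_pos (by norm_num : (0:ℝ) < 1/2)] at h3
        linarith)
      have h5 : (1/2 + t * I : ℂ).im = t := by simp
      rw [h5, abs_of_nonneg ht] at h2
      exact h2
    have h6 := z04_mol_norm hl t
    have h7 : ‖Mol (1/2) l (1/2 + t * I)‖ ^ 2 ≤ Real.exp (2 * l) := by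
      have h8 : Real.exp (2 * l) = Real.exp l ^ 2 := by
        rw [← Real.exp_nat_mul]; norm_num
      rw [h8]
      exact pow_le_pow_left₀ (norm_nonneg _) h6 2
    calc ‖riemannZeta (1/2 + t * I)‖ * ‖Mol (1/2) l (1/2 + t * I)‖ ^ 2
        ≤ (C * (1 + t)) * Real.exp (2 * l) :=
          mul_le_mul h1 h7 (by positivity) (by positivity)
      _ = C * Real.exp (2 * l) * (1 + t) := by ring

end LZ
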