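import Pool.Agent.Lib.MP_0f5a55_nt.D0
import Pool.Agent.Lib.MP_0f5a55_nt.Z04
import Pool.Agent.Lib.MP_0f5a55_nt.M14

open Complex MeasureTheory Set Filter Topology
open scoped ComplexConjugate

namespace LZ

private theorem Z05_uu (t : ℝ) : uu t * conj (uu t) = 1 := by
  have h1 : Gammaℝ (1/2 + t * I) ≠ 0 := Gammaℝ_ne_zero_of_re_pos (by simp)
  have h2 : ‖uu t‖ = 1 := by
    unfold uu
    rw [norm_div, Complex.norm_real, norm_norm]
    exact div_self (norm_ne_zero_iff.2 h1)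
  rw [Complex.mul_conj, Complex.normSq_eq_norm_sq, h2]
  norm_num

/-- second moment of GG (K_small, v = 0). -/
theorem G_sq : ∃ C T0 : ℝ, 0 < C ∧ 2 ≤ T0 ∧ ∀ T : ℝ, T0 ≤ T → ∀ l : ℝ,
    Real.log T / 2000 ≤ l → l ≤ Real.log T / 1000 → ER T (fun t => GG l t ^ 2) ≤ C := by
  obtain ⟨C, T0, hC, hT0, h⟩ := K_small
  refine ⟨C, T0, hC, hT0, fun T hT l hl1 hl2 => ?_⟩
  have hlog : 0 ≤ Real.log T := Real.log_nonneg (by linarith)
  have h1 := h T hT l hl1 hl2 0 (by
    rw [norm_zero]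
    positivity)
  obtain ⟨-, -, h3, -⟩ := GG_facts
  have h4 : KK T l 0 = ((ER T (fun t => GG l t ^ 2) : ℝ) : ℂ) := by
    unfold KK EE ER
    push_cast
    congr 1
    rw [← integral_complex_ofReal]
    refine integral_congr_ae (Eventually.of_forall fun t => ?_)
    have h5 := h3 l t 0
    simp only [add_zero, Complex.ofReal_zero] at h5
    rw [Z05_uu t, one_mul] at h5
    simp only
    rw [← h5]
    push_cast
    ring
  rw [h4, Complex.norm_real] at h1
  exact (le_abs_self _).trans h1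

end LZ
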