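import Pool.Agent.Lib.MP_0f5a55_nt.D0
import Pool.Agent.Lib.MP_0f5a55_nt.Z04
import Pool.Agent.Lib.MP_0f5a55_nt.Z05

open Complex MeasureTheory Set Filter Topology
open scoped ComplexConjugate

namespace LZ

theorem Z06_int {f : ℝ → ℝ} (hf : Continuous f) {C : ℝ}
    (hb : ∀ t : ℝ, 0 ≤ t → |f t| ≤ C * (1 + t) ^ 2) {b : ℝ} (hb0 : 0 < b) :
    IntegrableOn (fun t => f t * Real.exp (-t / b)) (Ioi 0) := by
  set c : ℝ := max 1 (4 * b) with hc
  have hc1 : 1 ≤ c := le_max_left _ _
  have hc2 : 4 * b ≤ c := le_max_right _ _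
  have hC : 0 ≤ C := by
    have := (abs_nonneg _).trans (hb 0 le_rfl)
    simpa using this
  have hexp : IntegrableOn (fun t => C * c ^ 2 * Real.exp (-(1 / (2 * b)) * t)) (Ioi 0) :=
    (exp_neg_integrableOn_Ioi 0 (by positivity)).const_mul _
  refine Integrable.mono' hexp ?_ ?_
  · exact (hf.mul (by fun_prop)).aestronglyMeasurable
  · rw [ae_restrict_iff' measurableSet_Ioi]
    refine Filter.Eventually.of_forall fun t ht => ?_
    have ht0 : 0 ≤ t := le_of_lt ht
    rw [Real.norm_eq_abs, abs_mul, abs_of_pos (Real.exp_pos _)]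
    have h1 : 1 + t ≤ c * Real.exp (t / (4 * b)) := by
      have h2 := Real.add_one_le_exp (t / (4 * b))
      have h3 : t ≤ c * (t / (4 * b)) := by
        rw [mul_div_assoc', le_div_iff₀ (by positivity)]
        nlinarith
      nlinarith
    have h4 : (1 + t) ^ 2 ≤ c ^ 2 * Real.exp (t / (2 * b)) := by
      have h5 := pow_le_pow_left₀ (by positivity) h1 2
      have h6 : (c * Real.exp (t / (4 * b))) ^ 2 = c ^ 2 * Real.exp (t / (2 * b)) := by
        rw [mul_pow, ← Real.exp_nat_mul]
        congr 2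
        push_cast
        field_simp
        ring
      rwa [h6] at h5
    calc |f t| * Real.exp (-t / b) ≤ C * (1 + t) ^ 2 * Real.exp (-t / b) :=
          mul_le_mul_of_nonneg_right (hb t ht0) (Real.exp_pos _).le
      _ ≤ C * (c ^ 2 * Real.exp (t / (2 * b))) * Real.exp (-t / b) := by
          gcongr
      _ = C * c ^ 2 * Real.exp (-(1 / (2 * b)) * t) := by
          rw [mul_assoc, mul_assoc, ← Real.exp_add, ← mul_assoc]
          congr 2
          field_simp
          ring

theorem Z06_GG_int {l b : ℝ} (hl : 0 < l) (hb : 0 < b) :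
    IntegrableOn (fun t => GG l t ^ 2 * Real.exp (-t / b)) (Ioi 0) := by
  obtain ⟨hc, -, -, C, hC, hg⟩ := GG_facts
  refine Z06_int ((hc l).pow 2) (C := (C * Real.exp (2 * l)) ^ 2) ?_ hb
  intro t ht
  have h1 := hg l t hl ht
  rw [Pi.pow_apply, abs_pow]
  calc |GG l t| ^ 2 ≤ (C * Real.exp (2 * l) * (1 + t)) ^ 2 :=
        pow_le_pow_left₀ (abs_nonneg _) h1 2
    _ = _ := by ring

/-- (5.2) truncations: G_sq with T replaced by eta T and 2T and l = log T/1500. -/
theorem G_trunc : ∃ C : ℝ, 0 < C ∧ ∀ η B : ℝ, 0 < η → η ≤ 1 → 1 ≤ B → ∃ T0 : ℝ, 2 ≤ T0 ∧ ∀ T : ℝ, T0 ≤ T →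
    T⁻¹ * ∫ t in Ioc 0 (η * T), GG (Real.log T / 1500) t ^ 2 * Real.exp (-t / T) ≤ C * η ∧
    T⁻¹ * ∫ t in Ioi (B * T), GG (Real.log T / 1500) t ^ 2 * Real.exp (-t / T) ≤ C * Real.exp (-B / 2) := by
  obtain ⟨C0, T0, hC0, hT0, hG⟩ := G_sq
  refine ⟨3 * C0, by positivity, fun η B hη hη1 hB => ?_⟩
  refine ⟨max 8 (max (T0 / η) (1 / η ^ 3)), (by norm_num : (2 : ℝ) ≤ 8).trans (le_max_left _ _),
    fun T hT => ?_⟩
  have hT8 : 8 ≤ T := (le_max_left _ _).trans hT
  have hTη : T0 / η ≤ T := ((le_max_left _ _).trans (le_max_right _ _)).trans hT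
  have hTη3 : 1 / η ^ 3 ≤ T := ((le_max_right _ _).trans (le_max_right _ _)).trans hT
  have hTpos : 0 < T := by linarith
  have hηT : T0 ≤ η * T := by
    rw [div_le_iff₀ hη] at hTη
    linarith [mul_comm T η]
  have hηTpos : 0 < η * T := by positivity
  set l := Real.log T / 1500 with hl
  have hlogT : 0 < Real.log T := Real.log_pos (by linarith)
  have hl0 : 0 < l := by positivity
  have hlogη : Real.log (η * T) = Real.log η + Real.log T := Real.log_mul hη.ne' hTpos.ne'
  have hlogη0 : Real.log η ≤ 0 := Real.log_nonpos hη.le hη1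
  have hlog3 : -(3 * Real.log η) ≤ Real.log T := by
    have h1 := Real.log_le_log (by positivity) hTη3
    rw [one_div, Real.log_inv, Real.log_pow] at h1
    push_cast at h1
    exact h1
  have hlog8 : 3 * Real.log 2 ≤ Real.log T := by
    have h1 := Real.log_le_log (by norm_num) hT8
    have h2 : Real.log 8 = 3 * Real.log 2 := by
      rw [show (8 : ℝ) = 2 ^ 3 by norm_num, Real.log_pow]
      norm_num
    linarith
  have hlog2 : Real.log (2 * T) = Real.log 2 + Real.log T := Real.log_mul two_ne_zero hTpos.ne'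
  have hlog2pos : 0 < Real.log 2 := Real.log_pos (by norm_num)
  have hA := hG (η * T) hηT l (by rw [hlogη, hl]; linarith) (by rw [hlogη, hl]; linarith)
  have hηT' : T0 ≤ 2 * T := by nlinarith
  have hB' := hG (2 * T) hηT' l (by rw [hlog2, hl]; linarith) (by rw [hlog2, hl]; linarith)
  unfold ER at hA hB'
  have hi1 := Z06_GG_int hl0 hηTpos
  have hi2 := Z06_GG_int hl0 (show 0 < 2 * T by positivity)
  have hiT := Z06_GG_int hl0 hTpos
  constructor
  · have h1 : ∫ t in Ioc 0 (η * T), GG l t ^ 2 * Real.exp (-t / T) ≤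
        ∫ t in Ioc 0 (η * T), Real.exp 1 * (GG l t ^ 2 * Real.exp (-t / (η * T))) := by
      refine setIntegral_mono_on (hiT.mono_set Ioc_subset_Ioi_self)
        ((hi1.mono_set Ioc_subset_Ioi_self).const_mul _) measurableSet_Ioc fun t ht => ?_
      have h2 : Real.exp (-t / T) ≤ Real.exp 1 * Real.exp (-t / (η * T)) := by
        rw [← Real.exp_add]
        apply Real.exp_le_exp.mpr
        have h3 : t / (η * T) ≤ 1 := by
          rw [div_le_one hηTpos]
          exact ht.2
        have h4 : 0 ≤ t / T := div_nonneg ht.1.le hTpos.le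
        rw [neg_div, neg_div]
        linarith
      calc GG l t ^ 2 * Real.exp (-t / T) ≤ GG l t ^ 2 * (Real.exp 1 * Real.exp (-t / (η * T))) :=
            mul_le_mul_of_nonneg_left h2 (sq_nonneg _)
        _ = _ := by ring
    have h5 : ∫ t in Ioc 0 (η * T), Real.exp 1 * (GG l t ^ 2 * Real.exp (-t / (η * T))) ≤
        ∫ t in Ioi 0, Real.exp 1 * (GG l t ^ 2 * Real.exp (-t / (η * T))) := by
      refine setIntegral_mono_set (hi1.const_mul _) ?_
        (Filter.Eventually.of_forall fun t ht => (Ioc_subset_Ioi_self ht : t ∈ Ioi 0))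
      exact Filter.Eventually.of_forall fun t => by positivity
    have h6 := h1.trans h5
    rw [integral_const_mul] at h6
    have h7 : ∫ t in Ioi 0, GG l t ^ 2 * Real.exp (-t / (η * T)) ≤ C0 * (η * T) := by
      rw [inv_mul_le_iff₀ hηTpos] at hA
      linarith [mul_comm C0 (η * T)]
    have h8 : Real.exp 1 < 3 := lt_trans Real.exp_one_lt_d9 (by norm_num)
    rw [inv_mul_le_iff₀ hTpos]
    have h9 : 0 ≤ C0 * (η * T) := by positivity
    calc _ ≤ Real.exp 1 * ∫ t in Ioi 0, GG l t ^ 2 * Real.exp (-t / (η * T)) := h6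
      _ ≤ Real.exp 1 * (C0 * (η * T)) := mul_le_mul_of_nonneg_left h7 (Real.exp_pos _).le
      _ ≤ 3 * (C0 * (η * T)) := mul_le_mul_of_nonneg_right h8.le h9
      _ = T * (3 * C0 * η) := by ring
  · have hBT : 0 ≤ B * T := by positivity
    have hsub : Ioi (B * T) ⊆ Ioi 0 := Ioi_subset_Ioi hBT
    have h1 : ∫ t in Ioi (B * T), GG l t ^ 2 * Real.exp (-t / T) ≤
        ∫ t in Ioi (B * T), Real.exp (-B / 2) * (GG l t ^ 2 * Real.exp (-t / (2 * T))) := by
      refine setIntegral_mono_on (hiT.mono_set hsub)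
        ((hi2.mono_set hsub).const_mul _) measurableSet_Ioi fun t ht => ?_
      have h2 : Real.exp (-t / T) ≤ Real.exp (-B / 2) * Real.exp (-t / (2 * T)) := by
        rw [← Real.exp_add]
        apply Real.exp_le_exp.mpr
        have h3 : B ≤ t / T := by
          rw [le_div_iff₀ hTpos]
          exact le_of_lt ht
        have h4 : t / (2 * T) = t / T / 2 := by
          field_simp
        rw [neg_div, neg_div, neg_div, h4]
        linarith
      calc GG l t ^ 2 * Real.exp (-t / T) ≤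
            GG l t ^ 2 * (Real.exp (-B / 2) * Real.exp (-t / (2 * T))) :=
            mul_le_mul_of_nonneg_left h2 (sq_nonneg _)
        _ = _ := by ring
    have h5 : ∫ t in Ioi (B * T), Real.exp (-B / 2) * (GG l t ^ 2 * Real.exp (-t / (2 * T))) ≤
        ∫ t in Ioi 0, Real.exp (-B / 2) * (GG l t ^ 2 * Real.exp (-t / (2 * T))) := by
      refine setIntegral_mono_set (hi2.const_mul _) ?_
        (Filter.Eventually.of_forall fun t ht => hsub ht)
      exact Filter.Eventually.of_forall fun t => by positivity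
    have h6 := h1.trans h5
    rw [integral_const_mul] at h6
    have h7 : ∫ t in Ioi 0, GG l t ^ 2 * Real.exp (-t / (2 * T)) ≤ C0 * (2 * T) := by
      rw [inv_mul_le_iff₀ (show 0 < 2 * T by positivity)] at hB'
      linarith [mul_comm C0 (2 * T)]
    rw [inv_mul_le_iff₀ hTpos]
    have h9 : 0 ≤ C0 * T * Real.exp (-B / 2) := by positivity
    calc _ ≤ Real.exp (-B / 2) * ∫ t in Ioi 0, GG l t ^ 2 * Real.exp (-t / (2 * T)) := h6
      _ ≤ Real.exp (-B / 2) * (C0 * (2 * T)) :=
          mul_le_mul_of_nonneg_left h7 (Real.exp_pos _).le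
      _ ≤ T * (3 * C0 * Real.exp (-B / 2)) := by nlinarith

end LZ
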