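import Pool.Agent.Lib.MP_0f5a55_nt.D0

open Complex MeasureTheory Set Filter Topology
open scoped ComplexConjugate

namespace LZ

/-- integrability of functions of quadratic growth -/
lemma Z07_integrable {T : ℝ} (hT : 0 < T) {f : ℝ → ℝ} (hf : Continuous f) {C : ℝ}
    (hb : ∀ t : ℝ, 0 ≤ t → |f t| ≤ C * (1 + t) ^ 2) :
    IntegrableOn (fun t => f t * Real.exp (-t / T)) (Ioi 0) := by
  have hC : 0 ≤ C := by
    have h := hb 0 le_rfl
    have h2 := (abs_nonneg _).trans h
    simpa using h2
  have hdom : IntegrableOn (fun t : ℝ => (C * (2 + 16 * T ^ 2)) * Real.exp (-(1 / (2 * T)) * t)) (Ioi 0) :=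
    (exp_neg_integrableOn_Ioi 0 (by positivity)).const_mul _
  refine Integrable.mono' hdom ?_ ?_
  · exact (hf.mul (by fun_prop)).aestronglyMeasurable
  · refine (ae_restrict_iff' measurableSet_Ioi).mpr (Eventually.of_forall fun t ht => ?_)
    have ht0 : 0 < t := ht
    rw [norm_mul, Real.norm_eq_abs, Real.norm_of_nonneg (Real.exp_pos _).le]
    have hq := Real.quadratic_le_exp_of_nonneg (x := t / (2 * T)) (by positivity)
    have h1 : t ^ 2 ≤ 8 * T ^ 2 * Real.exp (t / (2 * T)) := by
      have e : t ^ 2 = 8 * T ^ 2 * ((t / (2 * T)) ^ 2 / 2) := by field_simp; ring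
      have hpos : 0 ≤ t / (2 * T) := by positivity
      calc t ^ 2 = 8 * T ^ 2 * ((t / (2 * T)) ^ 2 / 2) := e
        _ ≤ _ := mul_le_mul_of_nonneg_left (by linarith) (by positivity)
    have h2 : 1 ≤ Real.exp (t / (2 * T)) := Real.one_le_exp (by positivity)
    have h3 : (1 + t) ^ 2 ≤ (2 + 16 * T ^ 2) * Real.exp (t / (2 * T)) := by
      nlinarith [sq_nonneg (t - 1)]
    have h4 : Real.exp (t / (2 * T)) * Real.exp (-t / T) = Real.exp (-(1 / (2 * T)) * t) := by
      rw [← Real.exp_add]
      congr 1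
      field_simp
      ring
    calc |f t| * Real.exp (-t / T) ≤ (C * ((2 + 16 * T ^ 2) * Real.exp (t / (2 * T)))) * Real.exp (-t / T) := by
          refine mul_le_mul_of_nonneg_right ?_ (Real.exp_pos _).le
          exact (hb t ht0.le).trans (mul_le_mul_of_nonneg_left h3 hC)
      _ = _ := by rw [← h4]; ring

/-- shift of the mean. -/
theorem ER_shift {T : ℝ} (hT : 0 < T) {f : ℝ → ℝ} (hf : Continuous f) {C : ℝ}
    (hb : ∀ t : ℝ, 0 ≤ t → |f t| ≤ C * (1 + t) ^ 2) {a : ℝ} (ha : 0 ≤ a) :
    ER T (fun t => f (t + a)) = Real.exp (a / T) * (ER T f - T⁻¹ * ∫ t in (0:ℝ)..a, f t * Real.exp (-t / T)) := by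
  have hint := Z07_integrable hT hf hb
  have hint' : IntegrableOn (fun t => f t * Real.exp (-t / T)) (Ioi a) :=
    hint.mono_set (Ioi_subset_Ioi ha)
  have hadd := intervalIntegral.integral_interval_add_Ioi hint hint'
  have hshift : ∫ t in Ioi (0:ℝ), f (t + a) * Real.exp (-(t + a) / T) =
      ∫ s in Ioi a, f s * Real.exp (-s / T) := by
    have h := (measurePreserving_add_right (volume : Measure ℝ) a).setIntegral_preimage_emb
      (measurableEmbedding_addRight a) (fun s => f s * Real.exp (-s / T)) (Ioi a)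
    have e : (fun x : ℝ => x + a) ⁻¹' Ioi a = Ioi 0 := by
      ext t
      simp
    rw [e] at h
    exact h
  have hfac : ∫ t in Ioi (0:ℝ), f (t + a) * Real.exp (-t / T) =
      Real.exp (a / T) * ∫ t in Ioi (0:ℝ), f (t + a) * Real.exp (-(t + a) / T) := by
    rw [← integral_const_mul]
    congr 1
    ext t
    have e : Real.exp (-t / T) = Real.exp (a / T) * Real.exp (-(t + a) / T) := by
      rw [← Real.exp_add]
      congr 1
      field_simp
      ring
    rw [e]
    ring
  unfold ER
  rw [hfac, hshift, ← hadd]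
  ring

end LZ
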