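import Pool.Agent.Lib.MP_0f5a55_nt.D0
import Pool.Agent.Lib.MP_0f5a55_nt.Z02
import Pool.Agent.Lib.MP_0f5a55_nt.Z04
import Pool.Agent.Lib.MP_0f5a55_nt.Z05
import Pool.Agent.Lib.MP_0f5a55_nt.Z06
import Pool.Agent.Lib.MP_0f5a55_nt.Z07
import Pool.Agent.Lib.MP_0f5a55_nt.M13
import Pool.Agent.Lib.MP_0f5a55_nt.M14

open Complex MeasureTheory Set Filter Topology
open scoped ComplexConjugate

namespace LZ

lemma Z08_poly {T t : ℝ} (hT : 0 < T) (ht : 0 ≤ t) :
    (1 + t) ^ 2 * Real.exp (-t / T) ≤ (2 + 16 * T ^ 2) * Real.exp (-(1 / (2 * T)) * t) := by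
  have h1 : (1 + t) ^ 2 ≤ (2 + 16 * T ^ 2) * Real.exp (t / (2 * T)) := by
    have hx : 0 ≤ t / (2 * T) := by positivity
    have h2 := Real.quadratic_le_exp_of_nonneg hx
    have h3 : (1 + t) ^ 2 ≤ (2 + 16 * T ^ 2) * (1 + (t / (2 * T)) ^ 2 / 2) := by
      have h4 : 16 * T ^ 2 * ((t / (2 * T)) ^ 2 / 2) = 2 * t ^ 2 := by
        field_simp
        ring
      have h5 : 0 ≤ (t / (2 * T)) ^ 2 / 2 := by positivity
      have h6 : 0 ≤ T ^ 2 := by positivity
      nlinarith [sq_nonneg (1 - t)]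
    refine h3.trans ?_
    gcongr
    linarith
  have h2 : Real.exp (-t / T) = Real.exp (-(1 / (2 * T)) * t) * Real.exp (-(1 / (2 * T)) * t) := by
    rw [← Real.exp_add]
    congr 1
    field_simp
    ring
  have h3 : Real.exp (t / (2 * T)) * Real.exp (-(1 / (2 * T)) * t) = 1 := by
    rw [← Real.exp_add]
    have : t / (2 * T) + -(1 / (2 * T)) * t = 0 := by
      field_simp
      ring
    rw [this, Real.exp_zero]
  rw [h2]
  have h4 : 0 < Real.exp (-(1 / (2 * T)) * t) := Real.exp_pos _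
  calc (1 + t) ^ 2 * (Real.exp (-(1 / (2 * T)) * t) * Real.exp (-(1 / (2 * T)) * t))
      ≤ ((2 + 16 * T ^ 2) * Real.exp (t / (2 * T))) *
        (Real.exp (-(1 / (2 * T)) * t) * Real.exp (-(1 / (2 * T)) * t)) := by gcongr
    _ = (2 + 16 * T ^ 2) * (Real.exp (t / (2 * T)) * Real.exp (-(1 / (2 * T)) * t)) *
        Real.exp (-(1 / (2 * T)) * t) := by ring
    _ = _ := by rw [h3, mul_one]

lemma Z08_bd_int {T : ℝ} (hT : 0 < T) (C : ℝ) :
    IntegrableOn (fun t => C * ((2 + 16 * T ^ 2) * Real.exp (-(1 / (2 * T)) * t))) (Ioi 0) := by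
  have h := integrableOn_exp_mul_Ioi (a := -(1 / (2 * T))) (by
    have : 0 < 1 / (2 * T) := by positivity
    linarith) 0
  exact (h.const_mul _).const_mul _

lemma Z08_int {T : ℝ} (hT : 0 < T) {f : ℝ → ℝ} (hf : Continuous f) {C : ℝ}
    (hb : ∀ t : ℝ, 0 ≤ t → |f t| ≤ C * (1 + t) ^ 2) :
    IntegrableOn (fun t => f t * Real.exp (-t / T)) (Ioi 0) := by
  have hC : 0 ≤ C := by
    have := (abs_nonneg _).trans (hb 0 le_rfl)
    simpa using this
  refine Integrable.mono' (Z08_bd_int hT C) ?_ ?_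
  · exact (hf.mul (by fun_prop)).aestronglyMeasurable
  · refine (ae_restrict_mem measurableSet_Ioi).mono fun t ht => ?_
    have ht0 : 0 ≤ t := le_of_lt ht
    rw [Real.norm_eq_abs, abs_mul, abs_of_pos (Real.exp_pos _)]
    calc |f t| * Real.exp (-t / T) ≤ C * (1 + t) ^ 2 * Real.exp (-t / T) := by
          gcongr
          exact hb t ht0
      _ = C * ((1 + t) ^ 2 * Real.exp (-t / T)) := by ring
      _ ≤ _ := mul_le_mul_of_nonneg_left (Z08_poly hT ht0) hC

lemma Z08_intC {T : ℝ} (hT : 0 < T) {f : ℝ → ℂ} (hf : Continuous f) {C : ℝ}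
    (hb : ∀ t : ℝ, 0 ≤ t → ‖f t‖ ≤ C * (1 + t) ^ 2) :
    IntegrableOn (fun t => f t * (Real.exp (-t / T) : ℂ)) (Ioi 0) := by
  have hC : 0 ≤ C := by
    have := (norm_nonneg _).trans (hb 0 le_rfl)
    simpa using this
  refine Integrable.mono' (Z08_bd_int hT C) ?_ ?_
  · have : Continuous fun t : ℝ => (Real.exp (-t / T) : ℂ) :=
      Complex.continuous_ofReal.comp (by fun_prop)
    exact (hf.mul this).aestronglyMeasurable
  · refine (ae_restrict_mem measurableSet_Ioi).mono fun t ht => ?_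
    have ht0 : 0 ≤ t := le_of_lt ht
    rw [norm_mul, Complex.norm_real, Real.norm_eq_abs, abs_of_pos (Real.exp_pos _)]
    calc ‖f t‖ * Real.exp (-t / T) ≤ C * (1 + t) ^ 2 * Real.exp (-t / T) := by
          gcongr
          exact hb t ht0
      _ = C * ((1 + t) ^ 2 * Real.exp (-t / T)) := by ring
      _ ≤ _ := mul_le_mul_of_nonneg_left (Z08_poly hT ht0) hC

lemma Z08_split {F : ℝ → ℝ} (hF : IntegrableOn F (Ioi 0)) {a b : ℝ} (ha : 0 ≤ a) (hab : a ≤ b) :
    ∫ t in Ioi 0, F t = (∫ t in Ioc 0 a, F t) + (∫ t in Ioc a b, F t) + ∫ t in Ioi b, F t := by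
  have h1 : Ioc 0 a ∪ Ioi a = Ioi (0 : ℝ) := Ioc_union_Ioi_eq_Ioi ha
  have h2 : Ioc a b ∪ Ioi b = Ioi a := Ioc_union_Ioi_eq_Ioi hab
  have hFa : IntegrableOn F (Ioi a) := hF.mono_set (Ioi_subset_Ioi ha)
  have hFb : IntegrableOn F (Ioi b) := hF.mono_set (Ioi_subset_Ioi (ha.trans hab))
  have hF0a : IntegrableOn F (Ioc 0 a) := hF.mono_set Ioc_subset_Ioi_self
  have hFab : IntegrableOn F (Ioc a b) := hFa.mono_set Ioc_subset_Ioi_self
  rw [← h1, setIntegral_union _ measurableSet_Ioi hF0a hFa]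
  · rw [← h2, setIntegral_union _ measurableSet_Ioi hFab hFb]
    · ring
    · rw [Set.disjoint_left]
      intro x hx hx'
      exact absurd hx.2 (not_le.mpr hx')
  · rw [Set.disjoint_left]
    intro x hx hx'
    exact absurd hx.2 (not_le.mpr hx')

/-- the analytic core: replacing the phase -/
lemma Z08_main {T : ℝ} (hT : 0 < T) {G : ℝ → ℝ} (hG : Continuous G) {A : ℝ}
    (hA : ∀ t : ℝ, 0 ≤ t → |G t| ≤ A * (1 + t)) {v : ℝ} (hv0 : 0 ≤ v) (hv1 : v ≤ 1)
    {P : ℝ → ℂ} (hP : Continuous P) (hP1 : ∀ t, ‖P t‖ = 1) {X : ℝ → ℂ}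
    (hX : ∀ t, ((G t * G (t + v) : ℝ) : ℂ) = P t * X t) {P₀ : ℂ} (hP₀ : ‖P₀‖ = 1)
    {s a b δ D : ℝ} (hs : 0 < s) (ha : 0 ≤ a) (hab : a ≤ b) (hδ0 : 0 ≤ δ)
    (hδ : ∀ t ∈ Ioc a b, ‖P t - P₀‖ ≤ δ)
    (h1 : T⁻¹ * ∫ t in Ioc 0 a, G t ^ 2 * Real.exp (-t / T) ≤ D * s ^ 2)
    (h2 : T⁻¹ * ∫ t in Ioi b, G t ^ 2 * Real.exp (-t / T) ≤ D * s ^ 2)
    (h3 : ER T (fun t => G t ^ 2) ≤ D) (h4 : ER T (fun t => G (t + v) ^ 2) ≤ D) :
    |ER T (fun t => G t * G (t + v))| ≤ ‖EE T X‖ + (4 * D * s + δ * D) := by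
  have hA0 : 0 ≤ A := by
    have := (abs_nonneg _).trans (hA 0 le_rfl)
    simpa using this
  -- growth bounds
  have hGv : ∀ t : ℝ, 0 ≤ t → |G (t + v)| ≤ 2 * A * (1 + t) := by
    intro t ht
    refine (hA (t + v) (by linarith)).trans ?_
    have : 1 + (t + v) ≤ 2 * (1 + t) := by linarith
    calc A * (1 + (t + v)) ≤ A * (2 * (1 + t)) := by gcongr
      _ = _ := by ring
  have hg : ∀ t : ℝ, 0 ≤ t → |G t * G (t + v)| ≤ 2 * A ^ 2 * (1 + t) ^ 2 := by
    intro t ht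
    rw [abs_mul]
    calc |G t| * |G (t + v)| ≤ (A * (1 + t)) * (2 * A * (1 + t)) :=
          mul_le_mul (hA t ht) (hGv t ht) (abs_nonneg _) (by positivity)
      _ = _ := by ring
  have hG2 : ∀ t : ℝ, 0 ≤ t → |G t ^ 2| ≤ A ^ 2 * (1 + t) ^ 2 := by
    intro t ht
    rw [abs_pow]
    calc |G t| ^ 2 ≤ (A * (1 + t)) ^ 2 := by
          gcongr
          exact hA t ht
      _ = _ := by ring
  have hGv2 : ∀ t : ℝ, 0 ≤ t → |G (t + v) ^ 2| ≤ 4 * A ^ 2 * (1 + t) ^ 2 := by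
    intro t ht
    rw [abs_pow]
    calc |G (t + v)| ^ 2 ≤ (2 * A * (1 + t)) ^ 2 := by
          gcongr
          exact hGv t ht
      _ = _ := by ring
  have hGc : Continuous fun t => G (t + v) := hG.comp (by fun_prop)
  have hX' : ∀ t, X t = conj (P t) * ((G t * G (t + v) : ℝ) : ℂ) := by
    intro t
    rw [hX, ← mul_assoc, mul_comm (conj (P t)), Complex.mul_conj, Complex.normSq_eq_norm_sq, hP1]
    simp
  have hXn : ∀ t, ‖X t‖ = |G t * G (t + v)| := by
    intro t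
    have := congrArg norm (hX t)
    rw [norm_mul, hP1, one_mul, Complex.norm_real, Real.norm_eq_abs] at this
    exact this.symm
  have hXc : Continuous X := by
    have : X = fun t => conj (P t) * ((G t * G (t + v) : ℝ) : ℂ) := funext hX'
    rw [this]
    exact (Complex.continuous_conj.comp hP).mul (Complex.continuous_ofReal.comp (hG.mul hGc))
  -- integrability
  have iG2 : IntegrableOn (fun t => G t ^ 2 * Real.exp (-t / T)) (Ioi 0) :=
    Z08_int hT (f := fun t => G t ^ 2) (hG.pow 2) hG2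
  have iGv2 : IntegrableOn (fun t => G (t + v) ^ 2 * Real.exp (-t / T)) (Ioi 0) :=
    Z08_int hT (f := fun t => G (t + v) ^ 2) (hGc.pow 2) hGv2
  have iX := Z08_intC hT hXc (C := 2 * A ^ 2) (fun t ht => by rw [hXn]; exact hg t ht)
  have ig := Z08_intC hT (f := fun t => ((G t * G (t + v) : ℝ) : ℂ))
    (Complex.continuous_ofReal.comp (hG.mul hGc)) (C := 2 * A ^ 2)
    (fun t ht => by rw [Complex.norm_real, Real.norm_eq_abs]; exact hg t ht)
  have iD : IntegrableOn (fun t => (‖P t - P₀‖ * |G t * G (t + v)|) * Real.exp (-t / T)) (Ioi 0) := by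
    refine Z08_int hT (f := fun t => ‖P t - P₀‖ * |G t * G (t + v)|) (C := 4 * A ^ 2) ?_ ?_
    · exact ((hP.sub continuous_const).norm).mul ((hG.mul hGc).abs)
    · intro t ht
      rw [abs_mul, abs_of_nonneg (norm_nonneg _), abs_abs]
      have h5 : ‖P t - P₀‖ ≤ 2 := by
        refine (norm_sub_le _ _).trans ?_
        rw [hP1, hP₀]
        norm_num
      calc ‖P t - P₀‖ * |G t * G (t + v)| ≤ 2 * (2 * A ^ 2 * (1 + t) ^ 2) :=
            mul_le_mul h5 (hg t ht) (abs_nonneg _) (by norm_num)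
        _ = _ := by ring
  -- comparison with the mean of `X`
  have hT0 : 0 < T⁻¹ := inv_pos.mpr hT
  have e1 : ((ER T (fun t => G t * G (t + v)) : ℝ) : ℂ)
      = (T : ℂ)⁻¹ * ∫ t in Ioi (0:ℝ), ((G t * G (t + v) : ℝ) : ℂ) * (Real.exp (-t / T) : ℂ) := by
    unfold ER
    rw [Complex.ofReal_mul, Complex.ofReal_inv, ← integral_complex_ofReal]
    congr 1
    refine integral_congr_ae (Eventually.of_forall fun t => ?_)
    simp only [Complex.ofReal_mul]
  have e2 : ((ER T (fun t => G t * G (t + v)) : ℝ) : ℂ) - P₀ * EE T X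
      = (T : ℂ)⁻¹ * ∫ t in Ioi (0:ℝ), ((P t - P₀) * X t) * (Real.exp (-t / T) : ℂ) := by
    rw [e1]
    unfold EE
    have h5 : P₀ * ((T : ℂ)⁻¹ * ∫ t in Ioi (0:ℝ), X t * (Real.exp (-t / T) : ℂ))
        = (T : ℂ)⁻¹ * ∫ t in Ioi (0:ℝ), P₀ * (X t * (Real.exp (-t / T) : ℂ)) := by
      rw [integral_const_mul]
      ring
    rw [h5, ← mul_sub, ← integral_sub ig (iX.const_mul P₀)]
    congr 1
    refine integral_congr_ae (Eventually.of_forall fun t => ?_)
    simp only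
    rw [hX t]
    ring
  have e3 : ‖((ER T (fun t => G t * G (t + v)) : ℝ) : ℂ) - P₀ * EE T X‖
      ≤ T⁻¹ * ∫ t in Ioi (0:ℝ), (‖P t - P₀‖ * |G t * G (t + v)|) * Real.exp (-t / T) := by
    rw [e2, norm_mul, norm_inv, Complex.norm_real, Real.norm_eq_abs, abs_of_pos hT]
    apply mul_le_mul_of_nonneg_left _ hT0.le
    refine (norm_integral_le_integral_norm _).trans (le_of_eq ?_)
    refine integral_congr_ae (Eventually.of_forall fun t => ?_)
    simp only
    rw [norm_mul, norm_mul, hXn, Complex.norm_real, Real.norm_eq_abs, abs_of_pos (Real.exp_pos _)]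
  -- pointwise bounds
  have amgm : ∀ (c : ℝ), 0 < c → ∀ t, |G t * G (t + v)| ≤ (c⁻¹ * G t ^ 2 + c * G (t + v) ^ 2) / 2 := by
    intro c hc t
    rw [abs_mul]
    have h5 : 0 ≤ c⁻¹ * (|G t| - c * |G (t + v)|) ^ 2 := by positivity
    have h6 : c⁻¹ * (|G t| - c * |G (t + v)|) ^ 2
        = c⁻¹ * |G t| ^ 2 + c * |G (t + v)| ^ 2 - 2 * (|G t| * |G (t + v)|) := by
      field_simp
      ring
    rw [h6, sq_abs, sq_abs] at h5
    linarith
  have hP2 : ∀ t, ‖P t - P₀‖ ≤ 2 := by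
    intro t
    refine (norm_sub_le _ _).trans ?_
    rw [hP1, hP₀]
    norm_num
  -- the generic estimate on a measurable subset
  have piece : ∀ (S : Set ℝ), MeasurableSet S → S ⊆ Ioi 0 → ∀ (c ρ : ℝ), 0 < c → 0 ≤ ρ →
      (∀ t ∈ S, ‖P t - P₀‖ ≤ ρ) →
      ∫ t in S, (‖P t - P₀‖ * |G t * G (t + v)|) * Real.exp (-t / T)
        ≤ ρ / 2 * (c⁻¹ * (∫ t in S, G t ^ 2 * Real.exp (-t / T)) +
          c * ∫ t in Ioi 0, G (t + v) ^ 2 * Real.exp (-t / T)) := by
    intro S hS hS0 c ρ hc hρ hb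
    have j1 := iG2.mono_set hS0
    have j2 := iGv2.mono_set hS0
    have j3 : IntegrableOn (fun t => ρ / 2 * (c⁻¹ * (G t ^ 2 * Real.exp (-t / T)) +
        c * (G (t + v) ^ 2 * Real.exp (-t / T)))) S :=
      ((j1.const_mul c⁻¹).add (j2.const_mul c)).const_mul (ρ / 2)
    have h5 : ∫ t in S, (‖P t - P₀‖ * |G t * G (t + v)|) * Real.exp (-t / T)
        ≤ ∫ t in S, ρ / 2 * (c⁻¹ * (G t ^ 2 * Real.exp (-t / T)) +
        c * (G (t + v) ^ 2 * Real.exp (-t / T))) := by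
      refine setIntegral_mono_on (iD.mono_set hS0) j3 hS fun t ht => ?_
      have h6 := amgm c hc t
      have h7 := hb t ht
      have h8 : 0 < Real.exp (-t / T) := Real.exp_pos _
      calc ‖P t - P₀‖ * |G t * G (t + v)| * Real.exp (-t / T)
          ≤ ρ * ((c⁻¹ * G t ^ 2 + c * G (t + v) ^ 2) / 2) * Real.exp (-t / T) := by gcongr
        _ = _ := by ring
    refine h5.trans ?_
    rw [integral_const_mul, integral_add (j1.const_mul c⁻¹) (j2.const_mul c), integral_const_mul,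
      integral_const_mul]
    have h6 : ∫ t in S, G (t + v) ^ 2 * Real.exp (-t / T)
        ≤ ∫ t in Ioi 0, G (t + v) ^ 2 * Real.exp (-t / T) := by
      refine setIntegral_mono_set iGv2 (Eventually.of_forall fun t => ?_) (Eventually.of_forall hS0)
      simp only [Pi.zero_apply]
      positivity
    gcongr
  -- the three parts
  have hE3 : ∫ t in Ioi 0, G t ^ 2 * Real.exp (-t / T) ≤ D * T := by
    unfold ER at h3
    rw [inv_mul_le_iff₀ hT] at h3
    linarith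
  have hE4 : ∫ t in Ioi 0, G (t + v) ^ 2 * Real.exp (-t / T) ≤ D * T := by
    unfold ER at h4
    rw [inv_mul_le_iff₀ hT] at h4
    linarith
  rw [inv_mul_le_iff₀ hT] at h1 h2
  have p1 := piece (Ioc 0 a) measurableSet_Ioc Ioc_subset_Ioi_self s 2 hs (by norm_num)
    (fun t _ => hP2 t)
  have p2 := piece (Ioc a b) measurableSet_Ioc
    (Ioc_subset_Ioi_self.trans (Ioi_subset_Ioi ha)) 1 δ one_pos hδ0 hδ
  have p3 := piece (Ioi b) measurableSet_Ioi (Ioi_subset_Ioi (ha.trans hab)) s 2 hs (by norm_num)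
    (fun t _ => hP2 t)
  have q1 : ∫ t in Ioc 0 a, (‖P t - P₀‖ * |G t * G (t + v)|) * Real.exp (-t / T) ≤ T * (2 * D * s) := by
    refine p1.trans ?_
    have : (2 : ℝ) / 2 * (s⁻¹ * (∫ t in Ioc 0 a, G t ^ 2 * Real.exp (-t / T)) +
          s * ∫ t in Ioi 0, G (t + v) ^ 2 * Real.exp (-t / T))
        ≤ 2 / 2 * (s⁻¹ * (T * (D * s ^ 2)) + s * (D * T)) := by gcongr
    refine this.trans (le_of_eq ?_)
    field_simp
    ring
  have q3 : ∫ t in Ioi b, (‖P t - P₀‖ * |G t * G (t + v)|) * Real.exp (-t / T) ≤ T * (2 * D * s) := by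
    refine p3.trans ?_
    have : (2 : ℝ) / 2 * (s⁻¹ * (∫ t in Ioi b, G t ^ 2 * Real.exp (-t / T)) +
          s * ∫ t in Ioi 0, G (t + v) ^ 2 * Real.exp (-t / T))
        ≤ 2 / 2 * (s⁻¹ * (T * (D * s ^ 2)) + s * (D * T)) := by gcongr
    refine this.trans (le_of_eq ?_)
    field_simp
    ring
  have q2 : ∫ t in Ioc a b, (‖P t - P₀‖ * |G t * G (t + v)|) * Real.exp (-t / T) ≤ T * (δ * D) := by
    refine p2.trans ?_
    have h6 : ∫ t in Ioc a b, G t ^ 2 * Real.exp (-t / T) ≤ D * T := by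
      refine le_trans (setIntegral_mono_set iG2 (Eventually.of_forall fun t => ?_)
        (Eventually.of_forall (Ioc_subset_Ioi_self.trans (Ioi_subset_Ioi ha)))) hE3
      simp only [Pi.zero_apply]
      positivity
    have : δ / 2 * ((1 : ℝ)⁻¹ * (∫ t in Ioc a b, G t ^ 2 * Real.exp (-t / T)) +
          1 * ∫ t in Ioi 0, G (t + v) ^ 2 * Real.exp (-t / T))
        ≤ δ / 2 * ((1 : ℝ)⁻¹ * (D * T) + 1 * (D * T)) := by gcongr
    refine this.trans (le_of_eq ?_)
    ring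
  rw [Z08_split iD ha hab] at e3
  have e4 : ‖((ER T (fun t => G t * G (t + v)) : ℝ) : ℂ) - P₀ * EE T X‖ ≤ 4 * D * s + δ * D := by
    refine e3.trans ?_
    rw [inv_mul_le_iff₀ hT]
    linarith
  have e5 : |ER T (fun t => G t * G (t + v))| = ‖((ER T (fun t => G t * G (t + v)) : ℝ) : ℂ)‖ := by
    rw [Complex.norm_real, Real.norm_eq_abs]
  rw [e5]
  have e6 : ((ER T (fun t => G t * G (t + v)) : ℝ) : ℂ)
      = P₀ * EE T X + (((ER T (fun t => G t * G (t + v)) : ℝ) : ℂ) - P₀ * EE T X) := by ring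
  rw [e6]
  refine (norm_add_le _ _).trans ?_
  rw [norm_mul, hP₀, one_mul]
  linarith

lemma Z08_exp (x y : ℝ) : ‖exp (-(x : ℂ) * I) - exp (-(y : ℂ) * I)‖ ≤ |x - y| := by
  have h1 : exp (-(x : ℂ) * I) - exp (-(y : ℂ) * I)
      = exp (((-y : ℝ) : ℂ) * I) * (exp (I * ((y - x : ℝ) : ℂ)) - 1) := by
    rw [mul_sub, mul_one, ← Complex.exp_add]
    congr 2
    · push_cast
      ring
    · push_cast
      ring
  rw [h1, norm_mul, Complex.norm_exp_ofReal_mul_I, one_mul]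
  refine (Real.norm_exp_I_mul_ofReal_sub_one_le).trans (le_of_eq ?_)
  rw [Real.norm_eq_abs, abs_sub_comm]

lemma Z08_K {T l L C1 C2 v Λ : ℝ} (hL : 0 < L) (hC1 : 0 ≤ C1) (hC2 : 0 ≤ C2) (hv0 : 0 ≤ v)
    (hv : v ≤ Λ / L)
    (h1 : 1 / L ≤ v → v ≤ Λ / L → ‖KK T l v‖ ≤ C1 / Real.sqrt (L * v))
    (h2 : v ≤ 1 / L → ‖KK T l v‖ ≤ C2) :
    ‖KK T l v‖ ≤ Real.sqrt 2 * (C1 + C2) / Real.sqrt (1 + v * L) := by
  have hq0 : 0 < Real.sqrt (1 + v * L) := Real.sqrt_pos.mpr (by positivity)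
  have h20 : 0 < Real.sqrt 2 := Real.sqrt_pos.mpr (by norm_num)
  rcases le_total (1 / L) v with h | h
  · have hvL : 1 ≤ v * L := by
      rw [div_le_iff₀ hL] at h
      exact h
    have h3 := h1 h hv
    have h4 : Real.sqrt (1 + v * L) ≤ Real.sqrt 2 * Real.sqrt (L * v) := by
      rw [← Real.sqrt_mul (by norm_num)]
      apply Real.sqrt_le_sqrt
      nlinarith
    have h5 : 0 < Real.sqrt (L * v) := Real.sqrt_pos.mpr (by nlinarith)
    refine h3.trans ?_
    rw [div_le_div_iff₀ h5 hq0]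
    calc C1 * Real.sqrt (1 + v * L) ≤ C1 * (Real.sqrt 2 * Real.sqrt (L * v)) := by gcongr
      _ ≤ (C1 + C2) * (Real.sqrt 2 * Real.sqrt (L * v)) := by
          apply mul_le_mul_of_nonneg_right _ (by positivity)
          linarith
      _ = _ := by ring
  · have hvL : v * L ≤ 1 := by
      rw [le_div_iff₀ hL] at h
      exact h
    refine (h2 h).trans ?_
    rw [le_div_iff₀ hq0]
    have h4 : Real.sqrt (1 + v * L) ≤ Real.sqrt 2 := by
      apply Real.sqrt_le_sqrt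
      linarith
    calc C2 * Real.sqrt (1 + v * L) ≤ C2 * Real.sqrt 2 := by gcongr
      _ ≤ (C1 + C2) * Real.sqrt 2 := by
          apply mul_le_mul_of_nonneg_right _ (by positivity)
          linarith
      _ = _ := by ring

/-- the phase on the middle range -/
lemma Z08_phase {C3 : ℝ} (hC3 : 0 < C3)
    (hph : ∀ t v : ℝ, 8 ≤ t → 0 ≤ v → v ≤ 1 →
      ‖uu t * conj (uu (t + v)) - exp (-(v / 2 * Real.log (t / (2 * Real.pi)) : ℝ) * I)‖ ≤ C3 / t)
    {T v s Λ D : ℝ} (hT : 0 < T) (hs : 0 < s) (hΛ : 0 < Λ) (hD : 0 < D) (hv0 : 0 ≤ v) (hv1 : v ≤ 1)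
    (hL : 0 < Real.log T) (hv : v ≤ Λ / Real.log T) (h8 : 8 ≤ s ^ 2 * T)
    (hc : 4 * D * Λ * C3 ≤ s ^ 2 * T)
    (hM : 2 * Λ ^ 2 * D * (|Real.log (s ^ 2)| + |Real.log (4 / s)| + |Real.log (2 * Real.pi)|)
      ≤ Real.log T) :
    ∀ t ∈ Ioc (s ^ 2 * T) (4 / s * T),
      ‖uu t * conj (uu (t + v)) - exp (-((v / 2 * Real.log T : ℝ) : ℂ) * I)‖ ≤ 1 / (2 * D * Λ) := by
  intro t ht
  have ht8 : 8 ≤ t := h8.trans ht.1.le
  have ht0 : 0 < t := by linarith
  set M := |Real.log (s ^ 2)| + |Real.log (4 / s)| + |Real.log (2 * Real.pi)| with hMdef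
  have hM0 : 0 ≤ M := by positivity
  have h1 := hph t v ht8 hv0 hv1
  have h2 := Z08_exp (v / 2 * Real.log (t / (2 * Real.pi))) (v / 2 * Real.log T)
  have h3 : C3 / t ≤ 1 / (4 * D * Λ) := by
    rw [div_le_div_iff₀ ht0 (by positivity)]
    nlinarith [ht.1]
  have hr1 : s ^ 2 ≤ t / T := by
    rw [le_div_iff₀ hT]
    exact ht.1.le
  have hr2 : t / T ≤ 4 / s := by
    rw [div_le_iff₀ hT]
    exact ht.2
  have h4 : |Real.log (t / T)| ≤ |Real.log (s ^ 2)| + |Real.log (4 / s)| := by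
    have k1 : Real.log (s ^ 2) ≤ Real.log (t / T) := Real.log_le_log (by positivity) hr1
    have k2 : Real.log (t / T) ≤ Real.log (4 / s) := Real.log_le_log (by positivity) hr2
    rw [abs_le]
    constructor
    · have := neg_abs_le (Real.log (s ^ 2))
      have := abs_nonneg (Real.log (4 / s))
      linarith
    · have := le_abs_self (Real.log (4 / s))
      have := abs_nonneg (Real.log (s ^ 2))
      linarith
  have h5 : Real.log (t / (2 * Real.pi)) - Real.log T = Real.log (t / T) - Real.log (2 * Real.pi) := by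
    rw [Real.log_div ht0.ne' (by positivity), Real.log_div ht0.ne' hT.ne']
    ring
  have h6 : |v / 2 * Real.log (t / (2 * Real.pi)) - v / 2 * Real.log T| ≤ v / 2 * M := by
    rw [← mul_sub, h5, abs_mul, abs_of_nonneg (by positivity)]
    apply mul_le_mul_of_nonneg_left _ (by positivity)
    refine (abs_sub _ _).trans ?_
    rw [hMdef]
    linarith
  have h7 : v / 2 * M ≤ 1 / (4 * D * Λ) := by
    have k1 : v / 2 * M ≤ Λ / Real.log T / 2 * M := by gcongr
    refine k1.trans ?_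
    rw [div_div, div_mul_eq_mul_div, div_le_div_iff₀ (by positivity) (by positivity)]
    nlinarith
  calc ‖uu t * conj (uu (t + v)) - exp (-((v / 2 * Real.log T : ℝ) : ℂ) * I)‖
      ≤ ‖uu t * conj (uu (t + v)) - exp (-(v / 2 * Real.log (t / (2 * Real.pi)) : ℝ) * I)‖
        + ‖exp (-(v / 2 * Real.log (t / (2 * Real.pi)) : ℝ) * I)
          - exp (-((v / 2 * Real.log T : ℝ) : ℂ) * I)‖ := norm_sub_le_norm_sub_add_norm_sub _ _ _
    _ ≤ 1 / (4 * D * Λ) + 1 / (4 * D * Λ) :=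
        add_le_add (h1.trans h3) (h2.trans (h6.trans h7))
    _ = 1 / (2 * D * Λ) := by
        field_simp
        norm_num

/-- (5.3). EE T of XX is KK (K_large for v log T >= 1, K_small below). On [eta T, B T] the phase is exp(-i(v/2)log T) +
O(Lambda(|log eta| + log B + 2)/log T) + O(1/(eta T)) (uu_phase); outside Cauchy-Schwarz with G_trunc, G_sq and ER_shift;
choose eta and B depending on Lambda. -/
theorem G_corr : ∃ C : ℝ, 0 < C ∧ ∀ Λ : ℝ, 1 ≤ Λ → ∃ T0 : ℝ, 2 ≤ T0 ∧ ∀ T : ℝ, T0 ≤ T → ∀ v : ℝ, 0 ≤ v →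
    v ≤ Λ / Real.log T →
    |ER T (fun t => GG (Real.log T / 1500) t * GG (Real.log T / 1500) (t + v))| ≤
      C / Real.sqrt (1 + v * Real.log T) + 1 / Λ := by
  obtain ⟨C1, hC1, hK1⟩ := K_large
  obtain ⟨C2, T2, hC2, hT2, hK2⟩ := K_small
  obtain ⟨C3, hC3, hph⟩ := uu_phase
  obtain ⟨C4, T4, hC4, hT4, hsq⟩ := G_sq
  obtain ⟨C5, hC5, htr⟩ := G_trunc
  obtain ⟨hGc, hGabs, hGX, C6, hC6, hGgr⟩ := GG_facts
  obtain ⟨hu1, huc, -⟩ := uu_facts
  obtain ⟨D, hDdef⟩ : ∃ D, D = C5 + Real.exp 1 * C4 := ⟨_, rfl⟩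
  have he1 : 1 ≤ Real.exp 1 := Real.one_le_exp (by norm_num)
  have hD : 0 < D := by
    rw [hDdef]
    positivity
  have hD5 : C5 ≤ D := by
    rw [hDdef]
    have : 0 ≤ Real.exp 1 * C4 := by positivity
    linarith
  have hD4e : Real.exp 1 * C4 ≤ D := by
    rw [hDdef]
    linarith
  have hD4 : C4 ≤ D := by nlinarith
  refine ⟨Real.sqrt 2 * (C1 + C2), by positivity, fun Λ hΛ => ?_⟩
  have hΛ0 : 0 < Λ := by linarith
  obtain ⟨T1, hT1, hK1⟩ := hK1 Λ hΛ
  obtain ⟨s, hsdef⟩ : ∃ s, s = 1 / (8 * D * Λ + 1) := ⟨_, rfl⟩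
  have hs0 : 0 < s := by
    rw [hsdef]
    positivity
  have hs1 : s ≤ 1 := by
    rw [hsdef, div_le_one (by positivity)]
    have : 0 ≤ 8 * D * Λ := by positivity
    linarith
  have hsb : 4 * D * s ≤ 1 / (2 * Λ) := by
    rw [hsdef, mul_one_div, div_le_div_iff₀ (by positivity) (by positivity)]
    linarith
  have hs2 : s ^ 2 ≤ 1 := pow_le_one₀ hs0.le hs1
  have h4s : 1 ≤ 4 / s := by
    rw [le_div_iff₀ hs0]
    linarith
  obtain ⟨T5, hT5, htr⟩ := htr (s ^ 2) (4 / s) (by positivity) hs2 h4s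
  obtain ⟨M, hMdef⟩ : ∃ M, M = |Real.log (s ^ 2)| + |Real.log (4 / s)| + |Real.log (2 * Real.pi)| :=
    ⟨_, rfl⟩
  refine ⟨T1 + T2 + T4 + T5 + Real.exp Λ + 8 / s ^ 2 + 4 * D * Λ * C3 / s ^ 2 +
    Real.exp (2 * Λ ^ 2 * D * M), ?_, fun T hT v hv0 hv => ?_⟩
  · have k1 : 0 < Real.exp Λ := Real.exp_pos _
    have k2 : 0 ≤ 8 / s ^ 2 := by positivity
    have k3 : 0 ≤ 4 * D * Λ * C3 / s ^ 2 := by positivity
    have k4 : 0 < Real.exp (2 * Λ ^ 2 * D * M) := Real.exp_pos _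
    linarith
  have k1 : 0 < Real.exp Λ := Real.exp_pos _
  have k2 : 0 ≤ 8 / s ^ 2 := by positivity
  have k3 : 0 ≤ 4 * D * Λ * C3 / s ^ 2 := by positivity
  have k4 : 0 < Real.exp (2 * Λ ^ 2 * D * M) := Real.exp_pos _
  have hTT1 : T1 ≤ T := by linarith
  have hTT2 : T2 ≤ T := by linarith
  have hTT4 : T4 ≤ T := by linarith
  have hTT5 : T5 ≤ T := by linarith
  have hTpos : 0 < T := by linarith
  have hT1' : 1 ≤ T := by linarith
  have hLΛ : Λ ≤ Real.log T := by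
    rw [Real.le_log_iff_exp_le hTpos]
    linarith
  have hLM : 2 * Λ ^ 2 * D * M ≤ Real.log T := by
    rw [Real.le_log_iff_exp_le hTpos]
    linarith
  have hL0 : 0 < Real.log T := by linarith
  have h8 : 8 ≤ s ^ 2 * T := by
    have : 8 / s ^ 2 ≤ T := by linarith
    rw [div_le_iff₀ (by positivity)] at this
    linarith
  have hc : 4 * D * Λ * C3 ≤ s ^ 2 * T := by
    have : 4 * D * Λ * C3 / s ^ 2 ≤ T := by linarith
    rw [div_le_iff₀ (by positivity)] at this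
    linarith
  have hv1 : v ≤ 1 := by
    refine hv.trans ?_
    rw [div_le_one hL0]
    exact hLΛ
  obtain ⟨htr1, htr2⟩ := htr T hTT5
  have hl0 : 0 < Real.log T / 1500 := by positivity
  have hsqT := hsq T hTT4 (Real.log T / 1500) (by linarith) (by linarith)
  have hgr : ∀ t : ℝ, 0 ≤ t → |GG (Real.log T / 1500) t| ≤
      C6 * Real.exp (2 * (Real.log T / 1500)) * (1 + t) := fun t ht => hGgr _ t hl0 ht
  have hshift : ER T (fun t => GG (Real.log T / 1500) (t + v) ^ 2) ≤ D := by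
    have j1 := ER_shift hTpos (f := fun t => GG (Real.log T / 1500) t ^ 2) ((hGc _).pow 2)
      (C := (C6 * Real.exp (2 * (Real.log T / 1500))) ^ 2) (fun t ht => by
        rw [abs_pow]
        calc |GG (Real.log T / 1500) t| ^ 2
            ≤ (C6 * Real.exp (2 * (Real.log T / 1500)) * (1 + t)) ^ 2 := by
              gcongr
              exact hgr t ht
          _ = _ := by ring) hv0
    rw [j1]
    have j2 : 0 ≤ ∫ t in (0:ℝ)..v, GG (Real.log T / 1500) t ^ 2 * Real.exp (-t / T) := by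
      apply intervalIntegral.integral_nonneg hv0
      intro t _
      positivity
    have j3 : Real.exp (v / T) ≤ Real.exp 1 := by
      apply Real.exp_le_exp.mpr
      rw [div_le_one hTpos]
      linarith
    have j4 : 0 ≤ T⁻¹ * ∫ t in (0:ℝ)..v, GG (Real.log T / 1500) t ^ 2 * Real.exp (-t / T) := by
      positivity
    have j5 : 0 ≤ ER T (fun t => GG (Real.log T / 1500) t ^ 2) := by
      unfold ER
      apply mul_nonneg (by positivity)
      apply setIntegral_nonneg measurableSet_Ioi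
      intro t _
      positivity
    calc Real.exp (v / T) * (ER T (fun t => GG (Real.log T / 1500) t ^ 2) -
        T⁻¹ * ∫ t in (0:ℝ)..v, GG (Real.log T / 1500) t ^ 2 * Real.exp (-t / T))
        ≤ Real.exp (v / T) * ER T (fun t => GG (Real.log T / 1500) t ^ 2) := by
          apply mul_le_mul_of_nonneg_left _ (Real.exp_pos _).le
          linarith
      _ ≤ Real.exp 1 * C4 := mul_le_mul j3 hsqT j5 (Real.exp_pos _).le
      _ ≤ D := hD4e
  have htr2' : T⁻¹ * ∫ t in Ioi (4 / s * T), GG (Real.log T / 1500) t ^ 2 * Real.exp (-t / T)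
      ≤ D * s ^ 2 := by
    refine htr2.trans ?_
    have j1 : Real.exp (-(4 / s) / 2) ≤ s ^ 2 := by
      have j2 : 1 / s ≤ Real.exp (1 / s) := by
        have := Real.add_one_le_exp (1 / s)
        linarith
      have j3 : Real.exp (-(1 / s)) ≤ s := by
        rw [Real.exp_neg, inv_le_comm₀ (Real.exp_pos _) hs0, ← one_div]
        exact j2
      have j4 : Real.exp (-(4 / s) / 2) = Real.exp (-(1 / s)) ^ 2 := by
        rw [← Real.exp_nat_mul]
        congr 1
        push_cast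
        ring
      rw [j4]
      gcongr
    exact mul_le_mul hD5 j1 (Real.exp_pos _).le hD.le
  have htr1' : T⁻¹ * ∫ t in Ioc 0 (s ^ 2 * T), GG (Real.log T / 1500) t ^ 2 * Real.exp (-t / T)
      ≤ D * s ^ 2 := by
    refine htr1.trans ?_
    gcongr
  have hP0 : ‖exp (-((v / 2 * Real.log T : ℝ) : ℂ) * I)‖ = 1 := by
    have : -((v / 2 * Real.log T : ℝ) : ℂ) * I = ((-(v / 2 * Real.log T) : ℝ) : ℂ) * I := by
      push_cast
      ring
    rw [this, Complex.norm_exp_ofReal_mul_I]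
  have hab : s ^ 2 * T ≤ 4 / s * T := by
    gcongr
    exact hs2.trans h4s
  have hmain := Z08_main hTpos (hGc (Real.log T / 1500)) hgr hv0 hv1
    (P := fun t => uu t * conj (uu (t + v)))
    (huc.mul (Complex.continuous_conj.comp (huc.comp (by fun_prop))))
    (fun t => by rw [norm_mul, hu1, RCLike.norm_conj, hu1, one_mul])
    (X := XX (fun _ => 1/2) (Real.log T / 1500) 0 (-(v * I)) ![0, v * I, 0, -(v * I)])
    (fun t => hGX (Real.log T / 1500) t v)
    (P₀ := exp (-((v / 2 * Real.log T : ℝ) : ℂ) * I)) hP0 hs0 (a := s ^ 2 * T) (b := 4 / s * T)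
    (δ := 1 / (2 * D * Λ)) (D := D) (by positivity) hab (by positivity)
    (Z08_phase hC3 hph hTpos hs0 hΛ0 hD hv0 hv1 hL0 hv h8 hc (by rw [← hMdef]; exact hLM))
    htr1' htr2' (hsqT.trans hD4) hshift
  have hKK := Z08_K (T := T) (l := Real.log T / 1500) hL0 hC1.le hC2.le hv0 hv
    (fun h1 h2 => by
      have hn : ‖(v : ℂ)‖ = v := by
        rw [Complex.norm_real, Real.norm_eq_abs, abs_of_nonneg hv0]
      have := hK1 T hTT1 (Real.log T / 1500) (by linarith) (by linarith) (v : ℂ)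
        (by rw [Complex.ofReal_im, abs_zero]; positivity) (by rw [hn]; exact h1) (by rw [hn]; exact h2)
      rwa [hn] at this)
    (fun h1 => by
      have hn : ‖(v : ℂ)‖ = v := by
        rw [Complex.norm_real, Real.norm_eq_abs, abs_of_nonneg hv0]
      exact hK2 T hTT2 (Real.log T / 1500) (by linarith) (by linarith) (v : ℂ) (by rw [hn]; exact h1))
  have hEK : EE T (XX (fun _ => 1/2) (Real.log T / 1500) 0 (-(v * I)) ![0, v * I, 0, -(v * I)])
      = KK T (Real.log T / 1500) v := rfl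
  rw [hEK] at hmain
  refine hmain.trans ?_
  have hfin : 1 / (2 * D * Λ) * D = 1 / (2 * Λ) := by
    field_simp
  have hfin2 : 1 / (2 * Λ) + 1 / (2 * Λ) = 1 / Λ := by
    field_simp
    norm_num
  rw [hfin]
  linarith

end LZ
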