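import Pool.Agent.Lib.MP_0f5a55_nt.D0
import Pool.Agent.Lib.MP_0f5a55_nt.Z04

open Complex MeasureTheory Set Filter Topology
open scoped ComplexConjugate

namespace LZ

theorem Z13_Mol (s : ℂ) : Mol (1/2) 0 s = 1 := by
  have h1 : PP ⌊Real.exp 0⌋₊ = ∅ := by
    rw [Real.exp_zero, Nat.floor_one]
    ext p
    simp only [PP, Finset.mem_filter, Finset.mem_range, Finset.notMem_empty, iff_false, not_and]
    intro h hp
    have := hp.two_le
    omega
  rw [Mol, h1]
  simp [cf, nS, wt]

theorem Z13_GG (l x : ℝ) : GG l x = GG 0 x * ‖Mol (1/2) l (1/2 + x * I)‖ ^ 2 := by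
  rw [GG, GG, Z13_Mol]
  simp

/-- a strict inequality forces a sign change of GG, hence a zero of uu t * zeta(1/2+it) (if there were none in the closed
interval, by continuity uu*zeta is real of constant sign there and GG >= 0 or <= 0). -/
theorem zero_in (l t h : ℝ) (hh : 0 ≤ h)
    (hlt : |∫ x in t..(t + h), GG l x| < ∫ x in t..(t + h), |GG l x|) : ∃ g ∈ Gam, g ∈ Icc t (t + h) := by
  by_contra hcon
  push Not at hcon
  obtain ⟨hc, habs, -, -⟩ := GG_facts
  have hth : t ≤ t + h := by linarith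
  have hne : ∀ x ∈ Icc t (t + h), GG 0 x ≠ 0 := by
    intro x hx h0
    have h1 := habs 0 x
    rw [h0, abs_zero, Z13_Mol, one_pow, mul_one] at h1
    exact hcon x (norm_eq_zero.mp h1.symm) hx
  have ht : t ∈ Icc t (t + h) := ⟨le_refl _, hth⟩
  have huIcc : uIcc t (t + h) = Icc t (t + h) := uIcc_of_le hth
  rcases lt_or_gt_of_ne (hne t ht) with hneg | hpos
  · have hall : ∀ x ∈ Icc t (t + h), GG 0 x < 0 := by
      intro x hx
      by_contra hx0
      have hx1 : 0 ≤ GG 0 x := not_lt.mp hx0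
      obtain ⟨z, hz, hz0⟩ := intermediate_value_Icc hx.1 (hc 0).continuousOn ⟨hneg.le, hx1⟩
      exact hne z ⟨hz.1, hz.2.trans hx.2⟩ hz0
    have h1 : ∀ x ∈ Icc t (t + h), GG l x ≤ 0 := by
      intro x hx
      rw [Z13_GG]
      exact mul_nonpos_of_nonpos_of_nonneg (hall x hx).le (by positivity)
    have h2 : ∫ x in t..(t + h), |GG l x| = ∫ x in t..(t + h), -GG l x := by
      refine intervalIntegral.integral_congr fun x hx => ?_
      rw [huIcc] at hx
      exact abs_of_nonpos (h1 x hx)
    rw [h2, intervalIntegral.integral_neg] at hlt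
    have := neg_abs_le (∫ x in t..(t + h), GG l x)
    linarith [neg_abs_le (∫ x in t..(t + h), GG l x), le_abs_self (∫ x in t..(t + h), GG l x)]
  · have hall : ∀ x ∈ Icc t (t + h), 0 < GG 0 x := by
      intro x hx
      by_contra hx0
      have hx1 : GG 0 x ≤ 0 := not_lt.mp hx0
      obtain ⟨z, hz, hz0⟩ := intermediate_value_Icc' hx.1 (hc 0).continuousOn ⟨hx1, hpos.le⟩
      exact hne z ⟨hz.1, hz.2.trans hx.2⟩ hz0
    have h1 : ∀ x ∈ Icc t (t + h), 0 ≤ GG l x := by
      intro x hx
      rw [Z13_GG]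
      exact mul_nonneg (hall x hx).le (by positivity)
    have h2 : ∫ x in t..(t + h), |GG l x| = ∫ x in t..(t + h), GG l x := by
      refine intervalIntegral.integral_congr fun x hx => ?_
      rw [huIcc] at hx
      exact abs_of_nonneg (h1 x hx)
    rw [h2] at hlt
    linarith [le_abs_self (∫ x in t..(t + h), GG l x)]

end LZ
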