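import Pool.Agent.Lib.MP_0f5a55_nt.D0

open Complex MeasureTheory Set Filter Topology
open scoped ComplexConjugate

namespace LZ

theorem Z14_measure {p : ℝ} (hp : 0 < p) (hp1 : p ≤ 1) {T : ℝ} (hT : 1 ≤ T) {S : Set ℝ}
    (hS : MeasurableSet S) (h : p ≤ ER T (S.indicator (fun _ => 1))) :
    p / 2 * T ≤ volume.real (S ∩ Ioc (p / 4 * T) (Real.log (4 / p) * T)) := by
  have hT0 : 0 < T := by linarith
  obtain ⟨B, hB⟩ : ∃ B : ℝ, B = Real.log (4 / p) := ⟨_, rfl⟩
  have hB0 : 0 < B := by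
    rw [hB]
    refine Real.log_pos ?_
    rw [lt_div_iff₀ hp]
    linarith
  have hexpB : Real.exp (-B) = p / 4 := by
    rw [hB, Real.exp_neg, Real.exp_log (by positivity), inv_div]
  rw [← hB]
  have hne : volume (S ∩ Ioc (p / 4 * T) (B * T)) ≠ ⊤ :=
    ((measure_mono inter_subset_right).trans_lt measure_Ioc_lt_top).ne
  have hSm : MeasurableSet (S ∩ Ioc (p / 4 * T) (B * T)) := hS.inter measurableSet_Ioc
  have hc : -T⁻¹ < 0 := by
    have : 0 < T⁻¹ := by positivity
    linarith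
  have i1 : IntegrableOn ((Ioc (0 : ℝ) (p / 4 * T)).indicator (fun _ => (1 : ℝ))) (Ioi 0) :=
    ((integrable_indicator_iff measurableSet_Ioc).2 (integrableOn_const (by simp))).integrableOn
  have i2 : IntegrableOn ((S ∩ Ioc (p / 4 * T) (B * T)).indicator (fun _ => (1 : ℝ))) (Ioi 0) :=
    ((integrable_indicator_iff hSm).2 (integrableOn_const hne)).integrableOn
  have i3 : IntegrableOn ((Ioi (B * T)).indicator (fun t => Real.exp (-T⁻¹ * t))) (Ioi 0) :=
    ((integrable_indicator_iff measurableSet_Ioi).2 (integrableOn_exp_mul_Ioi hc _)).integrableOn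
  have key : ∫ t in Ioi (0:ℝ), S.indicator (fun _ => (1 : ℝ)) t * Real.exp (-t / T) ≤
      ∫ t in Ioi (0:ℝ), ((Ioc (0 : ℝ) (p / 4 * T)).indicator (fun _ => (1 : ℝ)) t +
        (S ∩ Ioc (p / 4 * T) (B * T)).indicator (fun _ => (1 : ℝ)) t +
        (Ioi (B * T)).indicator (fun t => Real.exp (-T⁻¹ * t)) t) := by
    refine integral_mono_of_nonneg ?_ ((i1.add i2).add i3) ?_
    · refine Eventually.of_forall fun t => ?_
      exact mul_nonneg (indicator_nonneg (fun _ _ => zero_le_one) t) (Real.exp_pos _).le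
    · filter_upwards [ae_restrict_mem measurableSet_Ioi] with t ht
      have ht : 0 < t := ht
      have e0 : -t / T = -T⁻¹ * t := by field_simp
      have hle1 : Real.exp (-T⁻¹ * t) ≤ 1 := by
        rw [Real.exp_le_one_iff]
        have : 0 < T⁻¹ * t := by positivity
        linarith
      have n1 : 0 ≤ (Ioc (0 : ℝ) (p / 4 * T)).indicator (fun _ => (1 : ℝ)) t :=
        indicator_nonneg (fun _ _ => zero_le_one) t
      have n2 : 0 ≤ (S ∩ Ioc (p / 4 * T) (B * T)).indicator (fun _ => (1 : ℝ)) t :=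
        indicator_nonneg (fun _ _ => zero_le_one) t
      have n3 : 0 ≤ (Ioi (B * T)).indicator (fun t => Real.exp (-T⁻¹ * t)) t :=
        indicator_nonneg (fun _ _ => (Real.exp_pos _).le) t
      rw [e0]
      by_cases hts : t ∈ S
      · rw [indicator_of_mem hts, one_mul]
        by_cases h1 : t ≤ p / 4 * T
        · have : (Ioc (0 : ℝ) (p / 4 * T)).indicator (fun _ => (1 : ℝ)) t = 1 :=
            indicator_of_mem (show t ∈ Ioc (0 : ℝ) (p / 4 * T) from ⟨ht, h1⟩) _
          linarith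
        · by_cases h2 : t ≤ B * T
          · have : (S ∩ Ioc (p / 4 * T) (B * T)).indicator (fun _ => (1 : ℝ)) t = 1 :=
              indicator_of_mem (show t ∈ S ∩ Ioc (p / 4 * T) (B * T) from
                ⟨hts, lt_of_not_ge h1, h2⟩) _
            linarith
          · have : (Ioi (B * T)).indicator (fun t => Real.exp (-T⁻¹ * t)) t =
                Real.exp (-T⁻¹ * t) :=
              indicator_of_mem (show t ∈ Ioi (B * T) from lt_of_not_ge h2) _
            linarith
      · rw [indicator_of_notMem hts, zero_mul]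
        linarith
  have v1 : ∫ t in Ioi (0:ℝ), (Ioc (0 : ℝ) (p / 4 * T)).indicator (fun _ => (1 : ℝ)) t =
      p / 4 * T := by
    rw [setIntegral_indicator measurableSet_Ioc, inter_eq_right.2 Ioc_subset_Ioi_self,
      setIntegral_const, Real.volume_real_Ioc_of_le (by positivity)]
    simp
  have v2 : ∫ t in Ioi (0:ℝ), (S ∩ Ioc (p / 4 * T) (B * T)).indicator (fun _ => (1 : ℝ)) t ≤
      volume.real (S ∩ Ioc (p / 4 * T) (B * T)) := by
    rw [setIntegral_indicator hSm, setIntegral_const, smul_eq_mul, mul_one]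
    exact measureReal_mono inter_subset_right hne
  have v3 : ∫ t in Ioi (0:ℝ), (Ioi (B * T)).indicator (fun t => Real.exp (-T⁻¹ * t)) t =
      p / 4 * T := by
    rw [setIntegral_indicator measurableSet_Ioi,
      inter_eq_right.2 (Ioi_subset_Ioi (by positivity)), integral_exp_mul_Ioi hc]
    have e : -T⁻¹ * (B * T) = -B := by field_simp
    rw [e, hexpB]
    field_simp
  have i12 : IntegrableOn (fun t => (Ioc (0 : ℝ) (p / 4 * T)).indicator (fun _ => (1 : ℝ)) t +
      (S ∩ Ioc (p / 4 * T) (B * T)).indicator (fun _ => (1 : ℝ)) t) (Ioi 0) := i1.add i2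
  rw [integral_add i12 i3, integral_add i1 i2, v1, v3] at key
  have h' : p * T ≤ ∫ t in Ioi (0:ℝ), S.indicator (fun _ => (1 : ℝ)) t * Real.exp (-t / T) := by
    rw [ER, inv_mul_eq_div, le_div_iff₀ hT0] at h
    exact h
  linarith

theorem Z14_pigeon (F : Finset ℕ) : ∃ r : ℕ, F.card ≤ 3 * (F.filter (fun m => m % 3 = r)).card := by
  by_contra hcon
  push Not at hcon
  have h1 : F.card = ∑ r ∈ Finset.range 3, (F.filter (fun m => m % 3 = r)).card :=
    Finset.card_eq_sum_card_fiberwise (fun m _ => by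
      simp only [Finset.coe_range, Set.mem_Iio]
      exact Nat.mod_lt _ (by norm_num))
  have h2 := hcon 0
  have h3 := hcon 1
  have h4 := hcon 2
  simp only [Finset.sum_range_succ, Finset.sum_range_zero] at h1
  omega

/-- extraction: the part of S in t <= (p/4)T or t > BT, exp(-B) = p/4, has mean <= p/2; cells of length h, every third. -/
theorem extract (p : ℝ) (hp : 0 < p) (hp1 : p ≤ 1) : ∃ c B : ℝ, 0 < c ∧ 1 ≤ B ∧ ∀ (T h : ℝ), 1 ≤ T → 0 < h → h ≤ 1 →
    ∀ (S G : Set ℝ), MeasurableSet S → p ≤ ER T (S.indicator (fun _ => 1)) →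
    (∀ t ∈ S, 0 < t → ∃ g ∈ G, g ∈ Icc t (t + h)) → c * T / h ≥ 1 →
    ∃ Y : Finset ℝ, (∀ y ∈ Y, y ∈ G ∧ p / 4 * T ≤ y ∧ y ≤ B * T) ∧ Sep h Y ∧ c * T / h ≤ Y.card := by
  classical
  have hlog : 0 < Real.log (4 / p) := by
    refine Real.log_pos ?_
    rw [lt_div_iff₀ hp]
    linarith
  refine ⟨p / 6, Real.log (4 / p) + 1, by positivity, by linarith, ?_⟩
  intro T h hT hh hh1 S G hS hmean hG _
  have hT0 : 0 < T := by linarith
  have hm := Z14_measure hp hp1 hT hS hmean
  obtain ⟨S', hS'⟩ : ∃ S' : Set ℝ, S' = S ∩ Ioc (p / 4 * T) (Real.log (4 / p) * T) := ⟨_, rfl⟩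
  rw [← hS'] at hm
  have hpos : ∀ t ∈ S', 0 < t := by
    intro t ht
    rw [hS'] at ht
    have : 0 < p / 4 * T := by positivity
    linarith [ht.2.1]
  obtain ⟨F, hF⟩ : ∃ F : Finset ℕ, F = (Finset.range (⌊Real.log (4 / p) * T / h⌋₊ + 1)).filter
    (fun m : ℕ => ∃ t ∈ S', (m : ℝ) * h ≤ t ∧ t < ((m : ℝ) + 1) * h) := ⟨_, rfl⟩
  have hcov : S' ⊆ ⋃ m ∈ F, Ico ((m : ℝ) * h) (((m : ℝ) + 1) * h) := by
    intro t ht
    have ht0 := hpos t ht
    have e1 : (⌊t / h⌋₊ : ℝ) * h ≤ t := by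
      rw [← le_div_iff₀ hh]
      exact Nat.floor_le (by positivity)
    have e2 : t < ((⌊t / h⌋₊ : ℝ) + 1) * h := by
      rw [← div_lt_iff₀ hh]
      exact Nat.lt_floor_add_one _
    simp only [mem_iUnion, exists_prop]
    refine ⟨⌊t / h⌋₊, ?_, e1, e2⟩
    rw [hF, Finset.mem_filter, Finset.mem_range]
    refine ⟨?_, t, ht, e1, e2⟩
    rw [Nat.lt_succ_iff]
    refine Nat.floor_le_floor ?_
    rw [hS'] at ht
    have := ht.2.2
    gcongr
  have hvol : volume.real S' ≤ F.card * h := by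
    have h1 : volume.real S' ≤ ∑ m ∈ F, volume.real (Ico ((m : ℝ) * h) (((m : ℝ) + 1) * h)) := by
      refine (measureReal_mono hcov ?_).trans (measureReal_biUnion_finset_le _ _)
      exact ((measure_biUnion_finset_le _ _).trans_lt
        (ENNReal.sum_lt_top.2 fun m _ => measure_Ico_lt_top)).ne
    refine h1.trans (le_of_eq ?_)
    rw [Finset.sum_congr rfl (g := fun _ => h), Finset.sum_const, nsmul_eq_mul]
    intro m _
    rw [Real.volume_real_Ico_of_le (by nlinarith)]
    ring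
  obtain ⟨r, hr⟩ := Z14_pigeon F
  have hch : ∀ m : ℕ, ∃ g : ℝ, m ∈ F → g ∈ G ∧ p / 4 * T ≤ g ∧
      g ≤ (Real.log (4 / p) + 1) * T ∧ (m : ℝ) * h ≤ g ∧ g < ((m : ℝ) + 2) * h := by
    intro m
    by_cases hmF : m ∈ F
    · have hmF' := hmF
      rw [hF, Finset.mem_filter] at hmF'
      obtain ⟨-, t, ht, ht1, ht2⟩ := hmF'
      have ht0 := hpos t ht
      rw [hS'] at ht
      obtain ⟨g, hg, hg1, hg2⟩ := hG t ht.1 ht0
      refine ⟨g, fun _ => ⟨hg, by linarith [ht.2.1], ?_, by linarith, by linarith⟩⟩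
      have := ht.2.2
      nlinarith
    · exact ⟨0, fun hmF' => absurd hmF' hmF⟩
  choose g hg using hch
  have hsep : ∀ m ∈ F.filter (fun m => m % 3 = r), ∀ m' ∈ F.filter (fun m => m % 3 = r), m < m' →
      h < g m' - g m := by
    intro m hm1 m' hm2 hlt
    rw [Finset.mem_filter] at hm1 hm2
    obtain ⟨-, -, -, -, a2⟩ := hg m hm1.1
    obtain ⟨-, -, -, a1, -⟩ := hg m' hm2.1
    have h3 : m + 3 ≤ m' := by omega
    have h3' : (m : ℝ) + 3 ≤ m' := by exact_mod_cast h3
    have h4 : ((m : ℝ) + 3) * h ≤ m' * h := by gcongr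
    linarith
  have hinj : Set.InjOn g (F.filter (fun m => m % 3 = r) : Finset ℕ) := by
    intro m hm1 m' hm2 he
    rcases lt_trichotomy m m' with h1 | h1 | h1
    · have := hsep m hm1 m' hm2 h1
      linarith
    · exact h1
    · have := hsep m' hm2 m hm1 h1
      linarith
  refine ⟨(F.filter (fun m => m % 3 = r)).image g, ?_, ?_, ?_⟩
  · intro y hy
    obtain ⟨m, hm1, rfl⟩ := Finset.mem_image.1 hy
    obtain ⟨b1, b2, b3, -, -⟩ := hg m (Finset.mem_filter.1 hm1).1
    exact ⟨b1, b2, b3⟩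
  · intro a ha b hb hab
    obtain ⟨m, hm1, rfl⟩ := Finset.mem_image.1 ha
    obtain ⟨m', hm2, rfl⟩ := Finset.mem_image.1 hb
    rcases lt_trichotomy m m' with h1 | h1 | h1
    · have := hsep m hm1 m' hm2 h1
      rw [abs_sub_comm]
      exact this.le.trans (le_abs_self _)
    · exact absurd (by rw [h1]) hab
    · have := hsep m' hm2 m hm1 h1
      exact this.le.trans (le_abs_self _)
  · rw [Finset.card_image_of_injOn hinj, div_le_iff₀ hh]
    have h1 : (F.card : ℝ) ≤ 3 * ((F.filter (fun m => m % 3 = r)).card : ℝ) := by exact_mod_cast hr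
    have h2 : (F.card : ℝ) * h ≤ 3 * ((F.filter (fun m => m % 3 = r)).card : ℝ) * h := by gcongr
    linarith

end LZ
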