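import Pool.Agent.Lib.MP_0f5a55_nt.D0
import Pool.Agent.Lib.MP_0f5a55_nt.F06
import Pool.Agent.Lib.MP_0f5a55_nt.Z15

open Complex MeasureTheory Set Filter Topology
open scoped ComplexConjugate

namespace LZ

/-- Theorem I, first two coefficients nonzero, other ordinates put into x. Counting with Set.ncard; the set is finite
(zeros of zeta in a bounded part of the line). -/
theorem thmI_two (r1 r2 : ℝ) (h1 : r1 ≠ 0) (h2 : r2 ≠ 0) (B : ℝ) (hB : 1 ≤ B) : ∃ c T0 : ℝ, 0 < c ∧ 2 ≤ T0 ∧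
    ∀ T : ℝ, T0 ≤ T → ∀ x : ℝ, |x| ≤ B * T → ∃ P : Finset (ℝ × ℝ), (∀ y ∈ P, y.1 ∈ Gam ∧ y.2 ∈ Gam ∧ 0 < y.1 ∧
      y.1 ≤ T ∧ 0 < y.2 ∧ y.2 ≤ T ∧ r1 * y.1 + r2 * y.2 + x ∉ Gam) ∧ c * (T * Real.log T) ^ 2 ≤ P.card := by
  classical
  obtain ⟨cS, d, η, TS, hcS, hd, hη, hη2, hTS, hS⟩ := selberg_sep
  obtain ⟨c, T0, hc, hT0, hR⟩ := robust r1 r2 d cS B h1 h2 hd hcS hB
  refine ⟨c, max T0 TS, hc, hT0.trans (le_max_left _ _), ?_⟩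
  intro T hT x hx
  have hTT0 : T0 ≤ T := (le_max_left _ _).trans hT
  have hTTS : TS ≤ T := (le_max_right _ _).trans hT
  obtain ⟨Y, hY1, hY2, hY3⟩ := hS T hTTS
  have hT2 : 0 < T := by linarith
  have hpos : ∀ y ∈ Y, 0 < y := fun y hy =>
    lt_of_lt_of_le (by positivity) (hY1 y hy).2.1
  have habs : ∀ y ∈ Y, |y| ≤ T := fun y hy => by
    rw [abs_of_pos (hpos y hy)]
    exact (hY1 y hy).2.2
  have h := hR T hTT0 Y Y habs habs hY2 hY2 hY3 hY3 x hx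
  refine ⟨_, ?_, h⟩
  intro y hy
  rw [Finset.mem_filter, Finset.mem_product] at hy
  obtain ⟨⟨hy1, hy2⟩, hy3⟩ := hy
  refine ⟨(hY1 _ hy1).1, (hY1 _ hy2).1, hpos _ hy1, (hY1 _ hy1).2.2, hpos _ hy2,
    (hY1 _ hy2).2.2, ?_⟩
  intro hg
  apply hy3
  have h5 : riemannZeta (1/2 + ((r1 * y.1 + r2 * y.2 + x : ℝ) : ℂ) * I) = 0 := hg
  rw [← h5]
  push_cast
  rfl

end LZ
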