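import Pool.Agent.Lib.MP_0f5a55_nt.D0
import Pool.Agent.Lib.MP_0f5a55_nt.X1

open Complex MeasureTheory Set Filter Topology
open scoped ComplexConjugate

namespace LZ

/-- zeros in a disc and the value at the centre -/
lemma G01_bl (R r M : ℝ) (c : ℂ) (hr : 0 < r) (hrR : r < R) : ∀ (A : Finset ℂ) (f : ℂ → ℂ),
    DifferentiableOn ℂ f (Metric.closedBall c R) → (∀ z : ℂ, ‖z - c‖ = R → ‖f z‖ ≤ M) →
    (∀ a ∈ A, f a = 0 ∧ ‖a - c‖ ≤ r) → ‖f c‖ ≤ M * (r / R) ^ A.card := by
  classical
  have hR : 0 < R := hr.trans hrR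
  intro A
  induction A using Finset.induction_on with
  | empty =>
    intro f hf hM _
    rw [Finset.card_empty, pow_zero, mul_one]
    have hd : DiffContOnCl ℂ f (Metric.ball c R) := by
      apply DifferentiableOn.diffContOnCl
      rw [closure_ball c hR.ne']
      exact hf
    refine Complex.norm_le_of_forall_mem_frontier_norm_le Metric.isBounded_ball hd ?_
      (subset_closure (Metric.mem_ball_self hR))
    intro z hz
    rw [frontier_ball c hR.ne', mem_sphere_iff_norm] at hz
    exact hM z hz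
  | insert a A ha ih =>
    intro f hf hM hA
    obtain ⟨hfa, har⟩ := hA a (Finset.mem_insert_self a A)
    have hM0 : 0 ≤ M := by
      have h1 := hM (c + R) (by simp [abs_of_pos hR])
      exact (norm_nonneg _).trans h1
    by_cases hca : c = a
    · rw [hca, hfa, norm_zero]
      positivity
    set g : ℂ → ℂ := fun z => dslope f a z * (((R : ℂ) ^ 2 - conj (a - c) * (z - c)) / R) with hg
    have hgd : DifferentiableOn ℂ g (Metric.closedBall c R) := by
      apply DifferentiableOn.mul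
      · rw [Complex.differentiableOn_dslope]
        · exact hf
        · apply mem_of_superset _ Metric.ball_subset_closedBall
          apply Metric.isOpen_ball.mem_nhds
          rw [Metric.mem_ball, dist_eq_norm]
          linarith
      · fun_prop
    have hgM : ∀ z : ℂ, ‖z - c‖ = R → ‖g z‖ ≤ M := by
      intro z hz
      have hza : z ≠ a := by
        rintro rfl
        linarith
      have hza0 : z - a ≠ 0 := sub_ne_zero.mpr hza
      have e1 : (R : ℂ) ^ 2 - conj (a - c) * (z - c) = (z - c) * conj (z - a) := by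
        have e2 : (R : ℂ) ^ 2 = (z - c) * conj (z - c) := by
          rw [Complex.mul_conj, Complex.normSq_eq_norm_sq, hz]
          push_cast
          rfl
        rw [e2]
        simp only [map_sub]
        ring
      have e3 : ‖g z‖ = ‖f z‖ := by
        rw [hg]
        simp only
        rw [norm_mul, dslope_of_ne _ hza, e1, norm_div, norm_mul, hz, slope_def_field, hfa, sub_zero,
          norm_div, RCLike.norm_conj, Complex.norm_real, Real.norm_of_nonneg hR.le]
        have : ‖z - a‖ ≠ 0 := norm_ne_zero_iff.mpr hza0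
        field_simp
      rw [e3]
      exact hM z hz
    have hgA : ∀ b ∈ A, g b = 0 ∧ ‖b - c‖ ≤ r := by
      intro b hb
      obtain ⟨hfb, hbr⟩ := hA b (Finset.mem_insert_of_mem hb)
      have hba : b ≠ a := by
        rintro rfl
        exact ha hb
      refine ⟨?_, hbr⟩
      rw [hg]
      simp only
      rw [dslope_of_ne _ hba, slope_def_field, hfb, hfa, sub_zero, zero_div, zero_mul]
    have h1 := ih g hgd hgM hgA
    rw [Finset.card_insert_of_notMem ha]
    have hca0 : ‖c - a‖ ≠ 0 := norm_ne_zero_iff.mpr (sub_ne_zero.mpr hca)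
    have e4 : ‖f c‖ = ‖g c‖ * (‖c - a‖ / R) := by
      rw [hg]
      simp only
      rw [dslope_of_ne _ hca, slope_def_field, hfa, sub_zero, sub_self, mul_zero, sub_zero, norm_mul,
        norm_div, norm_div, norm_pow, Complex.norm_real, Real.norm_of_nonneg hR.le]
      field_simp
    rw [e4, pow_succ]
    have h2 : ‖c - a‖ / R ≤ r / R := by
      rw [norm_sub_rev]
      exact div_le_div_of_nonneg_right har hR.le
    calc ‖g c‖ * (‖c - a‖ / R) ≤ (M * (r / R) ^ A.card) * (r / R) :=
          mul_le_mul h1 h2 (by positivity) (by positivity)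
      _ = _ := by ring

/-- growth in the half plane Re s >= 1/8 -/
lemma G01_growth : ∃ C : ℝ, 1 ≤ C ∧ ∀ s : ℂ, 1/8 ≤ s.re →
    ‖riemannZeta₁ s‖ ≤ 1 + C * (‖s - 1‖ * ‖s‖) := by
  set C := ∑' n : ℕ, ((n : ℝ) + 1) ^ (-(1/8 : ℝ) - 1) with hC
  have hsum := LZX.rpow_summable (show (0:ℝ) < 1/8 by norm_num)
  refine ⟨C, ?_, ?_⟩
  · have := hsum.le_tsum 0 (fun n _ => by positivity)
    simpa [hC] using this
  · intro s hs
    have hC0 : 0 ≤ C := tsum_nonneg (fun n => by positivity)
    by_cases h1 : s = 1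
    · rw [h1, riemannZeta₁_one]
      simp
    have hs0 : 0 < s.re := by linarith
    have h2 := LZX.zeta_formula hs0 h1
    rw [riemannZeta_eq_inv_sub_mul h1] at h2
    have h3 : s - 1 ≠ 0 := sub_ne_zero.2 h1
    rw [← mul_assoc, mul_inv_cancel₀ h3, one_mul] at h2
    rw [h2]
    refine (norm_add_le _ _).trans ?_
    rw [norm_one, mul_comm C]
    gcongr
    rw [hC, ← tsum_mul_left]
    refine tsum_of_norm_bounded (hsum.mul_left _).hasSum ?_
    intro n
    refine (LZX.vt_bound n s (by linarith)).trans ?_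
    have : ((n : ℝ) + 1) ^ (-s.re - 1) ≤ ((n : ℝ) + 1) ^ (-(1/8:ℝ) - 1) :=
      Real.rpow_le_rpow_of_exponent_le (by linarith [Nat.cast_nonneg (α := ℝ) n]) (by linarith)
    gcongr

/-- lower bound on the line Re s = 2 -/
lemma G01_lower (t : ℝ) : 1 / 4 ≤ ‖riemannZeta₁ (2 + t * I)‖ := by
  have hre : (2 + t * I : ℂ).re = 2 := by simp
  have hs : 1 < (2 + t * I : ℂ).re := by rw [hre]; norm_num
  have hne : (2 + t * I : ℂ) ≠ 1 := by
    intro h
    rw [h] at hre
    norm_num at hre
  have h3 : (2 + t * I : ℂ) - 1 ≠ 0 := sub_ne_zero.2 hne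
  have e1 : riemannZeta₁ (2 + t * I) = ((2 + t * I : ℂ) - 1) * riemannZeta (2 + t * I) := by
    rw [riemannZeta_eq_inv_sub_mul hne, ← mul_assoc, mul_inv_cancel₀ h3, one_mul]
  have h4 : 1 ≤ ‖(2 + t * I : ℂ) - 1‖ := by
    have := Complex.abs_re_le_norm ((2 + t * I : ℂ) - 1)
    have e : ((2 + t * I : ℂ) - 1).re = 1 := by simp; norm_num
    rw [e, abs_one] at this
    exact this
  have hz := zeta_eq_tsum_one_div_nat_add_one_cpow hs
  have hsumm : Summable (fun n : ℕ => 1 / ((n : ℝ) + 1) ^ 2) := by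
    have := (summable_nat_add_iff 1).2 (Real.summable_one_div_nat_pow.2 (show 1 < 2 by norm_num))
    simpa using this
  have hnorm : ∀ n : ℕ, ‖1 / ((n : ℂ) + 1) ^ (2 + t * I : ℂ)‖ = 1 / ((n : ℝ) + 1) ^ 2 := by
    intro n
    have e : ((n : ℂ) + 1) = (((n : ℝ) + 1 : ℝ) : ℂ) := by push_cast; rfl
    rw [norm_div, norm_one, e, Complex.norm_cpow_eq_rpow_re_of_pos (by positivity), hre]
    norm_num
  have hsummC : Summable (fun n : ℕ => 1 / ((n : ℂ) + 1) ^ (2 + t * I : ℂ)) := by
    apply Summable.of_norm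
    simp_rw [hnorm]
    exact hsumm
  have htot : ∑' n : ℕ, 1 / ((n : ℝ) + 1) ^ 2 = Real.pi ^ 2 / 6 := by
    have h := hasSum_zeta_two
    have h5 := h.tsum_eq
    rw [Summable.tsum_eq_zero_add h.summable] at h5
    simpa using h5
  have hpi : Real.pi ^ 2 / 6 ≤ 7 / 4 := by
    have := Real.pi_lt_d2
    have h6 := Real.pi_pos
    nlinarith
  have h7 : ‖riemannZeta (2 + t * I) - 1‖ ≤ 3 / 4 := by
    rw [hz, Summable.tsum_eq_zero_add hsummC]
    have e0 : 1 / (((0 : ℕ) : ℂ) + 1) ^ (2 + t * I : ℂ) = 1 := by simp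
    rw [e0, add_sub_cancel_left]
    have hs1 : Summable (fun n : ℕ => ‖1 / (((n + 1 : ℕ) : ℂ) + 1) ^ (2 + t * I : ℂ)‖) := by
      have := (summable_nat_add_iff 1).2 hsummC.norm
      exact this
    refine (norm_tsum_le_tsum_norm hs1).trans ?_
    have e2 : ∑' n : ℕ, ‖1 / (((n + 1 : ℕ) : ℂ) + 1) ^ (2 + t * I : ℂ)‖ = Real.pi ^ 2 / 6 - 1 := by
      have h8 := Summable.tsum_eq_zero_add hsumm
      rw [htot] at h8
      have h9 : ∑' n : ℕ, ‖1 / (((n + 1 : ℕ) : ℂ) + 1) ^ (2 + t * I : ℂ)‖ =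
          ∑' n : ℕ, 1 / (((n + 1 : ℕ) : ℝ) + 1) ^ 2 := tsum_congr (fun n => hnorm (n + 1))
      rw [h9, h8]
      norm_num
    rw [e2]
    linarith
  have h8 : 1 / 4 ≤ ‖riemannZeta (2 + t * I)‖ := by
    have h9 := norm_sub_norm_le (1 : ℂ) (1 - riemannZeta (2 + t * I))
    rw [norm_one, sub_sub_cancel, norm_sub_rev] at h9
    linarith
  rw [e1, norm_mul]
  nlinarith [norm_nonneg (riemannZeta (2 + t * I))]

/-- zeros near one integer -/
lemma G01_local : ∃ K : ℝ, 0 < K ∧ ∀ T : ℝ, 2 ≤ T → ∀ n : ℤ, |(n : ℝ)| ≤ T + 1 → ∀ A : Finset ℝ,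
    (∀ g ∈ A, g ∈ Gam ∧ |g - n| ≤ 1 / 2) → (A.card : ℝ) ≤ K * Real.log T := by
  classical
  obtain ⟨C, hC1, hC⟩ := G01_growth
  have hC0 : 0 < C := by linarith
  have hq : 0 < Real.log ((15 / 8) / (8 / 5)) := Real.log_pos (by norm_num)
  have hl2 : 0 < Real.log 2 := Real.log_pos (by norm_num)
  have hlC : 0 ≤ Real.log (128 * C) := Real.log_nonneg (by linarith)
  refine ⟨(Real.log (128 * C) / Real.log 2 + 2) / Real.log ((15 / 8) / (8 / 5)), by positivity, ?_⟩
  intro T hT n hn A hA
  have hT0 : 0 < T := by linarith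
  have hinj : Function.Injective (fun g : ℝ => (1 / 2 + g * I : ℂ)) := by
    intro a b hab
    have := congrArg Complex.im hab
    simpa using this
  set B : Finset ℂ := A.image (fun g : ℝ => (1 / 2 + g * I : ℂ)) with hB
  have hBc : B.card = A.card := Finset.card_image_of_injective _ hinj
  have hzero : ∀ a ∈ B, riemannZeta₁ a = 0 ∧ ‖a - (2 + (n : ℝ) * I)‖ ≤ 8 / 5 := by
    intro a ha
    rw [hB, Finset.mem_image] at ha
    obtain ⟨g, hg, rfl⟩ := ha
    obtain ⟨hg1, hg2⟩ := hA g hg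
    have hg1' : riemannZeta (1 / 2 + g * I) = 0 := hg1
    have hne : (1 / 2 + g * I : ℂ) ≠ 1 := by
      intro h
      have := congrArg Complex.re h
      simp at this
    constructor
    · rw [riemannZeta_eq_inv_sub_mul hne] at hg1'
      rcases mul_eq_zero.mp hg1' with h | h
      · exact absurd h (inv_ne_zero (sub_ne_zero.mpr hne))
      · exact h
    · rw [Complex.norm_eq_sqrt_sq_add_sq]
      apply Real.sqrt_le_iff.mpr
      constructor
      · norm_num
      · have e1 : ((1 / 2 + g * I : ℂ) - (2 + (n : ℝ) * I)).re = -(3 / 2) := by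
          simp
          norm_num
        have e2 : ((1 / 2 + g * I : ℂ) - (2 + (n : ℝ) * I)).im = g - n := by
          simp
        rw [e1, e2]
        have := abs_le.mp hg2
        nlinarith
  set M : ℝ := 2 * C * (|(n : ℝ)| + 5) ^ 2 with hM
  have hMb : ∀ z : ℂ, ‖z - (2 + (n : ℝ) * I)‖ = 15 / 8 → ‖riemannZeta₁ z‖ ≤ M := by
    intro z hz
    have h1 := Complex.abs_re_le_norm (z - (2 + (n : ℝ) * I))
    have e1 : (z - (2 + (n : ℝ) * I)).re = z.re - 2 := by simp
    rw [e1, hz] at h1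
    have h2 : 1 / 8 ≤ z.re := by
      have := (abs_le.mp h1).1
      linarith
    have h3 : ‖(2 + (n : ℝ) * I : ℂ)‖ ≤ 2 + |(n : ℝ)| := by
      refine (norm_add_le _ _).trans ?_
      rw [norm_mul, Complex.norm_real, Complex.norm_I, mul_one, Real.norm_eq_abs]
      norm_num
    have h4 : ‖z‖ ≤ |(n : ℝ)| + 4 := by
      have : ‖z‖ ≤ ‖z - (2 + (n : ℝ) * I)‖ + ‖(2 + (n : ℝ) * I : ℂ)‖ := by
        have h5 := norm_add_le (z - (2 + (n : ℝ) * I)) (2 + (n : ℝ) * I)
        rwa [sub_add_cancel] at h5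
      rw [hz] at this
      linarith
    have h5 : ‖z - 1‖ ≤ |(n : ℝ)| + 5 := by
      have := norm_sub_le z 1
      rw [norm_one] at this
      linarith
    have h6 := hC z h2
    have hn0 := abs_nonneg (n : ℝ)
    have h7 : ‖z - 1‖ * ‖z‖ ≤ (|(n : ℝ)| + 5) * (|(n : ℝ)| + 5) :=
      mul_le_mul h5 (by linarith) (norm_nonneg _) (by linarith)
    have h8 : C * (‖z - 1‖ * ‖z‖) ≤ C * ((|(n : ℝ)| + 5) * (|(n : ℝ)| + 5)) :=
      mul_le_mul_of_nonneg_left h7 hC0.le
    have h9 : 1 ≤ C * ((|(n : ℝ)| + 5) * (|(n : ℝ)| + 5)) := by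
      have : 1 * 1 ≤ C * ((|(n : ℝ)| + 5) * (|(n : ℝ)| + 5)) :=
        mul_le_mul hC1 (by nlinarith) zero_le_one hC0.le
      linarith
    rw [hM]
    nlinarith
  have hmain := G01_bl (15 / 8) (8 / 5) M (2 + (n : ℝ) * I) (by norm_num) (by norm_num) B riemannZeta₁
    differentiable_riemannZeta₁.differentiableOn hMb hzero
  have hlow := G01_lower n
  rw [hBc] at hmain
  have hM0 : 0 < M := by
    have := abs_nonneg (n : ℝ)
    positivity
  have h1 : 1 / 4 ≤ M * ((8 / 5 : ℝ) / (15 / 8)) ^ A.card := hlow.trans hmain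
  have h2 : ((15 / 8 : ℝ) / (8 / 5)) ^ A.card ≤ 4 * M := by
    have e : ((8 / 5 : ℝ) / (15 / 8)) ^ A.card * ((15 / 8 : ℝ) / (8 / 5)) ^ A.card = 1 := by
      rw [← mul_pow]
      norm_num
    have hp : 0 < ((15 / 8 : ℝ) / (8 / 5)) ^ A.card := by positivity
    have := mul_le_mul_of_nonneg_right h1 hp.le
    rw [mul_assoc, e, mul_one] at this
    linarith
  have h3 : (A.card : ℝ) * Real.log ((15 / 8) / (8 / 5)) ≤ Real.log (4 * M) := by
    rw [← Real.log_pow]
    exact Real.log_le_log (by positivity) h2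
  have h4 : 4 * M ≤ 128 * C * T ^ 2 := by
    have h5 : |(n : ℝ)| + 5 ≤ 4 * T := by linarith
    have h6 : (|(n : ℝ)| + 5) ^ 2 ≤ (4 * T) ^ 2 :=
      pow_le_pow_left₀ (by have := abs_nonneg (n : ℝ); linarith) h5 2
    rw [hM]
    nlinarith
  have h5 : Real.log (4 * M) ≤ Real.log (128 * C) + 2 * Real.log T := by
    have h6 := Real.log_le_log (by positivity) h4
    have e : Real.log (128 * C * T ^ 2) = Real.log (128 * C) + 2 * Real.log T := by
      rw [Real.log_mul (by positivity) (by positivity), Real.log_pow]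
      norm_num
    rw [e] at h6
    exact h6
  have h6 : Real.log (128 * C) ≤ Real.log (128 * C) / Real.log 2 * Real.log T := by
    have h7 : Real.log 2 ≤ Real.log T := Real.log_le_log (by norm_num) hT
    calc Real.log (128 * C) = Real.log (128 * C) / Real.log 2 * Real.log 2 := by field_simp
      _ ≤ _ := mul_le_mul_of_nonneg_left h7 (by positivity)
  have h7 : (A.card : ℝ) * Real.log ((15 / 8) / (8 / 5)) ≤
      (Real.log (128 * C) / Real.log 2 + 2) * Real.log T := by
    linarith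
  rw [div_mul_eq_mul_div, le_div_iff₀ hq]
  exact h7

/-- number of critical ordinates up to T is O(T log T), and finiteness (Jensen in discs around 2+in, or any zero counting). -/
theorem Gam_count : ∃ C T0 : ℝ, 0 < C ∧ 2 ≤ T0 ∧ ∀ T : ℝ, T0 ≤ T → (Gam ∩ Icc (-T) T).Finite ∧
    ((Gam ∩ Icc (-T) T).ncard : ℝ) ≤ C * T * Real.log T := by
  classical
  obtain ⟨K, hK, hloc⟩ := G01_local
  have key : ∀ T : ℝ, 2 ≤ T → ∀ A : Finset ℝ, ((A : Set ℝ) ⊆ Gam ∩ Icc (-T) T) →
      (A.card : ℝ) ≤ 3 * K * T * Real.log T := by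
    intro T hT A hA
    have hT0 : 0 < T := by linarith
    have hlog : 0 ≤ Real.log T := Real.log_nonneg (by linarith)
    have hround : ∀ g ∈ A, |g - (round g : ℝ)| ≤ 1 / 2 := fun g _ => abs_sub_round g
    have hfib : ∀ m ∈ A.image (fun g => round g), (A.filter (fun g => round g = m)).card ≤
        ⌊K * Real.log T⌋₊ := by
      intro m hm
      rw [Finset.mem_image] at hm
      obtain ⟨g0, hg0, rfl⟩ := hm
      apply Nat.le_floor
      apply hloc T hT (round g0)
      · have h1 := (hA hg0).2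
        have h2 := hround g0 hg0
        have h3 := abs_le.mp h2
        rw [abs_le]
        constructor <;> linarith [h1.1, h1.2, h3.1, h3.2]
      · intro g hg
        rw [Finset.mem_filter] at hg
        refine ⟨(hA hg.1).1, ?_⟩
        rw [← hg.2]
        exact hround g hg.1
    have hcard := Finset.card_le_mul_card_image A _ hfib
    have himg : (A.image (fun g => round g)) ⊆ Finset.Icc (-⌊T + 1 / 2⌋) ⌊T + 1 / 2⌋ := by
      intro m hm
      rw [Finset.mem_image] at hm
      obtain ⟨g, hg, rfl⟩ := hm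
      have h1 := (hA hg).2
      have h3 := abs_le.mp (hround g hg)
      rw [Finset.mem_Icc]
      constructor
      · rw [neg_le, Int.le_floor]
        push_cast
        linarith [h1.1, h3.2]
      · rw [Int.le_floor]
        linarith [h1.2, h3.1]
    have hic : ((A.image (fun g => round g)).card : ℝ) ≤ 3 * T := by
      have h1 : ((A.image (fun g => round g)).card : ℤ) ≤ 2 * ⌊T + 1 / 2⌋ + 1 := by
        have h2 := Finset.card_le_card himg
        rw [Int.card_Icc] at h2
        have h3 : 0 ≤ ⌊T + 1 / 2⌋ := Int.floor_nonneg.mpr (by linarith)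
        omega
      have h2 : (⌊T + 1 / 2⌋ : ℝ) ≤ T + 1 / 2 := Int.floor_le _
      have h3 : ((A.image (fun g => round g)).card : ℝ) ≤ 2 * (⌊T + 1 / 2⌋ : ℝ) + 1 := by
        exact_mod_cast h1
      linarith
    have hfl : ((⌊K * Real.log T⌋₊ : ℕ) : ℝ) ≤ K * Real.log T := Nat.floor_le (by positivity)
    calc (A.card : ℝ) ≤ ((⌊K * Real.log T⌋₊ * (A.image (fun g => round g)).card : ℕ) : ℝ) := by
          exact_mod_cast hcard
      _ = (⌊K * Real.log T⌋₊ : ℝ) * ((A.image (fun g => round g)).card : ℝ) := by push_cast; rfl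
      _ ≤ (K * Real.log T) * (3 * T) := mul_le_mul hfl hic (by positivity) (by positivity)
      _ = 3 * K * T * Real.log T := by ring
  refine ⟨3 * K, 2, by positivity, le_rfl, fun T hT => ?_⟩
  have hfin : (Gam ∩ Icc (-T) T).Finite := by
    by_contra h
    obtain ⟨A, hA, hc⟩ := Set.Infinite.exists_subset_card_eq h (⌊3 * K * T * Real.log T⌋₊ + 1)
    have h1 := key T hT A hA
    rw [hc] at h1
    have h2 := Nat.lt_floor_add_one (3 * K * T * Real.log T)
    push_cast at h1
    linarith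
  refine ⟨hfin, ?_⟩
  rw [Set.ncard_eq_toFinset_card _ hfin]
  exact key T hT _ (by simp)

end LZ
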