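import Pool.Agent.Lib.MP_0f5a55_nt.D0
import Pool.Agent.Lib.MP_0f5a55_nt.F07
import Pool.Agent.Lib.MP_0f5a55_nt.G01
import Pool.Agent.Lib.MP_0f5a55_nt.Z15

open Complex MeasureTheory Set Filter Topology
open scoped ComplexConjugate

namespace LZ


/-- extension by zero of a function on the other indices -/
private noncomputable def G02_ext {k : ℕ} (i j : Fin k) (h : {a : Fin k // a ≠ i ∧ a ≠ j} → ℝ)
    (a : Fin k) : ℝ :=
  if hh : a ≠ i ∧ a ≠ j then h ⟨a, hh⟩ else 0

/-- gluing -/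
private noncomputable def G02_glue {k : ℕ} (i j : Fin k) (h : {a : Fin k // a ≠ i ∧ a ≠ j} → ℝ)
    (y : ℝ × ℝ) (a : Fin k) : ℝ :=
  if a = i then y.1 else if a = j then y.2 else G02_ext i j h a

private theorem G02_glue_i {k : ℕ} (i j : Fin k) (h : {a : Fin k // a ≠ i ∧ a ≠ j} → ℝ)
    (y : ℝ × ℝ) : G02_glue i j h y i = y.1 := by
  unfold G02_glue
  rw [if_pos rfl]

private theorem G02_glue_j {k : ℕ} (i j : Fin k) (hij : i ≠ j)
    (h : {a : Fin k // a ≠ i ∧ a ≠ j} → ℝ)
    (y : ℝ × ℝ) : G02_glue i j h y j = y.2 := by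
  unfold G02_glue
  rw [if_neg hij.symm, if_pos rfl]

private theorem G02_glue_a {k : ℕ} (i j : Fin k) (h : {a : Fin k // a ≠ i ∧ a ≠ j} → ℝ)
    (y : ℝ × ℝ) (a : {a : Fin k // a ≠ i ∧ a ≠ j}) : G02_glue i j h y a = h a := by
  unfold G02_glue G02_ext
  rw [if_neg a.2.1, if_neg a.2.2, dif_pos a.2]

private theorem G02_sum {k : ℕ} (r : Fin k → ℝ) (i j : Fin k) (hij : i ≠ j)
    (h : {a : Fin k // a ≠ i ∧ a ≠ j} → ℝ) (y : ℝ × ℝ) :
    ∑ a, r a * G02_glue i j h y a = r i * y.1 + r j * y.2 + ∑ a, r a * G02_ext i j h a := by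
  have h1 : ∀ a, r a * G02_glue i j h y a = (if a = i then r i * y.1 else 0) +
      (if a = j then r j * y.2 else 0) + r a * G02_ext i j h a := by
    intro a
    unfold G02_glue
    by_cases ha : a = i
    · subst ha
      have h2 : G02_ext a j h a = 0 := by
        unfold G02_ext
        rw [dif_neg (fun hh => hh.1 rfl)]
      rw [if_pos rfl, if_pos rfl, if_neg hij, h2]
      ring
    · by_cases hb : a = j
      · subst hb
        have h2 : G02_ext i a h a = 0 := by
          unfold G02_ext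
          rw [dif_neg (fun hh => hh.2 rfl)]
        rw [if_neg ha, if_pos rfl, if_neg ha, if_pos rfl, h2]
        ring
      · rw [if_neg ha, if_neg hb, if_neg ha, if_neg hb]
        ring
  rw [Finset.sum_congr rfl (fun a _ => h1 a), Finset.sum_add_distrib, Finset.sum_add_distrib,
    Finset.sum_ite_eq', Finset.sum_ite_eq']
  simp

private theorem G02_card {k : ℕ} (i j : Fin k) (hij : i ≠ j) :
    Fintype.card {a : Fin k // a ≠ i ∧ a ≠ j} + 2 = k := by
  rw [Fintype.card_subtype]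
  have h1 : (Finset.univ.filter (fun a : Fin k => a ≠ i ∧ a ≠ j)) =
      (Finset.univ.erase i).erase j := by
    ext a
    simp only [Finset.mem_filter, Finset.mem_univ, true_and, Finset.mem_erase, and_true]
    tauto
  have h2 : j ∈ Finset.univ.erase i := Finset.mem_erase.mpr ⟨hij.symm, Finset.mem_univ _⟩
  have h3 := Finset.card_erase_add_one h2
  have h4 := Finset.card_erase_add_one (Finset.mem_univ i)
  rw [Finset.card_univ, Fintype.card_fin] at h4
  rw [h1]
  omega

/-- Theorem I in k variables. Reorder so that i, j are the two indices with nonzero coefficients (no reordering needed if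
counted by functions Fin k → ℝ): the other k-2 coordinates range over the set Y of selberg_sep, thmI_two with
x + sum of the others. -/
theorem thmI (k : ℕ) (r : Fin k → ℝ) (i j : Fin k) (hij : i ≠ j) (hi : r i ≠ 0) (hj : r j ≠ 0) (B : ℝ)
    (hB : 1 ≤ B) : ∃ c T0 : ℝ, 0 < c ∧ 2 ≤ T0 ∧ ∀ T : ℝ, T0 ≤ T → ∀ x : ℝ, |x| ≤ B * T →
    c * (T * Real.log T) ^ k ≤
      ({g : Fin k → ℝ | (∀ a, g a ∈ Gam ∧ 0 < g a ∧ g a ≤ T) ∧ (∑ a, r a * g a) + x ∉ Gam}.ncard : ℝ) := by
  classical
  obtain ⟨cS, dS, η, TS, hcS, hdS, hη, hη2, hTS, hS⟩ := selberg_sep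
  obtain ⟨CG, TG, hCG, hTG, hG⟩ := Gam_count
  set Rr : ℝ := ∑ a, |r a| with hRr
  have hRr0 : 0 ≤ Rr := Finset.sum_nonneg fun a _ => abs_nonneg _
  obtain ⟨c, T0, hc, hT0, hI⟩ := thmI_two (r i) (r j) hi hj (B + Rr) (by linarith)
  have hk := G02_card i j hij
  set K := Fintype.card {a : Fin k // a ≠ i ∧ a ≠ j} with hK
  refine ⟨c * cS ^ K, max T0 (max TS TG), by positivity, hT0.trans (le_max_left _ _), ?_⟩
  intro T hT x hx
  have hTT0 : T0 ≤ T := (le_max_left _ _).trans hT
  have hTTS : TS ≤ T := (le_max_left _ _).trans ((le_max_right _ _).trans hT)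
  have hTTG : TG ≤ T := (le_max_right _ _).trans ((le_max_right _ _).trans hT)
  have hT2 : 2 ≤ T := hT0.trans hTT0
  have hTpos : 0 < T := by linarith
  have hlog : 0 < Real.log T := Real.log_pos (by linarith)
  obtain ⟨Y, hY1, hY2, hY3⟩ := hS T hTTS
  have hfin := (hG T hTTG).1
  have hYb : ∀ y ∈ Y, y ∈ Gam ∧ 0 < y ∧ y ≤ T := by
    intro y hy
    obtain ⟨h1, h2, h3⟩ := hY1 y hy
    exact ⟨h1, lt_of_lt_of_le (by positivity) h2, h3⟩
  have hP : ∀ h : {a : Fin k // a ≠ i ∧ a ≠ j} → ℝ, (∀ a, h a ∈ Y) → ∃ P : Finset (ℝ × ℝ),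
      (∀ y ∈ P, y.1 ∈ Gam ∧ y.2 ∈ Gam ∧ 0 < y.1 ∧ y.1 ≤ T ∧ 0 < y.2 ∧ y.2 ≤ T ∧
        r i * y.1 + r j * y.2 + (x + ∑ a, r a * G02_ext i j h a) ∉ Gam) ∧
        c * (T * Real.log T) ^ 2 ≤ P.card := by
    intro h hh
    apply hI T hTT0
    have h1 : |∑ a, r a * G02_ext i j h a| ≤ Rr * T := by
      calc |∑ a, r a * G02_ext i j h a| ≤ ∑ a, |r a * G02_ext i j h a| :=
            Finset.abs_sum_le_sum_abs _ _
        _ ≤ ∑ a, |r a| * T := by
            refine Finset.sum_le_sum fun a _ => ?_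
            rw [abs_mul]
            refine mul_le_mul_of_nonneg_left ?_ (abs_nonneg _)
            unfold G02_ext
            by_cases ha : a ≠ i ∧ a ≠ j
            · rw [dif_pos ha]
              obtain ⟨_, h2, h3⟩ := hYb _ (hh ⟨a, ha⟩)
              rw [abs_of_pos h2]
              exact h3
            · rw [dif_neg ha, abs_zero]
              exact hTpos.le
        _ = Rr * T := by rw [hRr, Finset.sum_mul]
    calc |x + ∑ a, r a * G02_ext i j h a| ≤ |x| + |∑ a, r a * G02_ext i j h a| := abs_add_le _ _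
      _ ≤ B * T + Rr * T := add_le_add hx h1
      _ = _ := by ring
  choose! P hP1 hP2 using hP
  set H := Fintype.piFinset (fun _ : {a : Fin k // a ≠ i ∧ a ≠ j} => Y) with hH
  have hHm : ∀ h ∈ H, ∀ a, h a ∈ Y := fun h hh => Fintype.mem_piFinset.mp hh
  set S : Finset (Σ _ : {a : Fin k // a ≠ i ∧ a ≠ j} → ℝ, ℝ × ℝ) := H.sigma P with hSdef
  set f : (Σ _ : {a : Fin k // a ≠ i ∧ a ≠ j} → ℝ, ℝ × ℝ) → (Fin k → ℝ) :=
    fun q => G02_glue i j q.1 q.2 with hf
  have hinj : Function.Injective f := by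
    rintro ⟨h, y⟩ ⟨h', y'⟩ he
    have e1 : h = h' := by
      funext a
      have := congrFun he a
      simp only [hf, G02_glue_a] at this
      exact this
    have e2 : y.1 = y'.1 := by
      have := congrFun he i
      simp only [hf, G02_glue_i] at this
      exact this
    have e3 : y.2 = y'.2 := by
      have := congrFun he j
      simp only [hf, G02_glue_j i j hij] at this
      exact this
    subst e1
    have e4 : y = y' := Prod.ext e2 e3
    rw [e4]
  have hsub : ((S.image f : Finset (Fin k → ℝ)) : Set (Fin k → ℝ)) ⊆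
      {g : Fin k → ℝ | (∀ a, g a ∈ Gam ∧ 0 < g a ∧ g a ≤ T) ∧ (∑ a, r a * g a) + x ∉ Gam} := by
    intro g hg
    rw [Finset.mem_coe, Finset.mem_image] at hg
    obtain ⟨⟨h, y⟩, hq, rfl⟩ := hg
    rw [hSdef, Finset.mem_sigma] at hq
    obtain ⟨hq1, hq2⟩ := hq
    have hh := hHm h hq1
    obtain ⟨a1, a2, a3, a4, a5, a6, a7⟩ := hP1 h hh y hq2
    constructor
    · intro a
      show G02_glue i j h y a ∈ Gam ∧ 0 < G02_glue i j h y a ∧ G02_glue i j h y a ≤ T
      by_cases ha : a = i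
      · subst ha
        rw [G02_glue_i]
        exact ⟨a1, a3, a4⟩
      · by_cases hb : a = j
        · subst hb
          rw [G02_glue_j i a hij]
          exact ⟨a2, a5, a6⟩
        · have := G02_glue_a i j h y ⟨a, ha, hb⟩
          simp only at this
          rw [this]
          exact hYb _ (hh _)
    · show (∑ a, r a * G02_glue i j h y a) + x ∉ Gam
      rw [G02_sum r i j hij]
      have e : r i * y.1 + r j * y.2 + ∑ a, r a * G02_ext i j h a + x =
          r i * y.1 + r j * y.2 + (x + ∑ a, r a * G02_ext i j h a) := by ring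
      rw [e]
      exact a7
  have hfinite : {g : Fin k → ℝ | (∀ a, g a ∈ Gam ∧ 0 < g a ∧ g a ≤ T) ∧
      (∑ a, r a * g a) + x ∉ Gam}.Finite := by
    refine (Set.Finite.pi (fun _ : Fin k => hfin)).subset ?_
    intro g hg
    rw [Set.mem_univ_pi]
    intro a
    obtain ⟨h1, h2, h3⟩ := hg.1 a
    exact ⟨h1, by constructor <;> linarith⟩
  have hcard1 : ((S.image f).card : ℝ) ≤
      ({g : Fin k → ℝ | (∀ a, g a ∈ Gam ∧ 0 < g a ∧ g a ≤ T) ∧
        (∑ a, r a * g a) + x ∉ Gam}.ncard : ℝ) := by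
    have := Set.ncard_le_ncard hsub hfinite
    rw [Set.ncard_coe_finset] at this
    exact_mod_cast this
  refine le_trans ?_ hcard1
  rw [Finset.card_image_of_injective _ hinj, hSdef, Finset.card_sigma]
  push_cast
  have hcardH : (H.card : ℝ) = (Y.card : ℝ) ^ K := by
    rw [hH, Fintype.card_piFinset, Finset.prod_const, Finset.card_univ]
    push_cast
    rfl
  have hTL : 0 < T * Real.log T := by positivity
  calc c * cS ^ K * (T * Real.log T) ^ k
      = (cS * T * Real.log T) ^ K * (c * (T * Real.log T) ^ 2) := by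
        rw [← hk, pow_add, mul_assoc cS T, mul_pow cS]
        ring
    _ ≤ (Y.card : ℝ) ^ K * (c * (T * Real.log T) ^ 2) := by
        refine mul_le_mul_of_nonneg_right ?_ (by positivity)
        exact pow_le_pow_left₀ (by positivity) hY3 K
    _ = ∑ _h ∈ H, c * (T * Real.log T) ^ 2 := by
        rw [Finset.sum_const, nsmul_eq_mul, hcardH]
    _ ≤ ∑ h ∈ H, ((P h).card : ℝ) := Finset.sum_le_sum fun h hh => hP2 h (hHm h hh)

end LZ
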