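import Pool.Agent.Lib.MP_0f5a55_nt.D0
import Pool.Agent.Lib.MP_0f5a55_nt.P01
import Pool.Agent.Lib.MP_0f5a55_nt.P04

open Complex MeasureTheory Set Filter Topology
open scoped ComplexConjugate

namespace LZ

theorem P07_compact (u0 : ℝ) (hu : u0 ≠ 0) : ∃ M : ℝ, 0 < M ∧ ∀ w : ℂ, 0 ≤ w.re → w.re ≤ 1 →
    |w.im - u0| ≤ |u0| / 2 → ‖riemannZeta (1 + w)‖ ≤ M ∧ ‖riemannZeta (1 + w)‖⁻¹ ≤ M := by
  have hu0 : 0 < |u0| := abs_pos.2 hu
  set S : Set ℂ := {w : ℂ | 0 ≤ w.re ∧ w.re ≤ 1 ∧ |w.im - u0| ≤ |u0| / 2} with hS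
  have hScomp : IsCompact S := by
    rw [Metric.isCompact_iff_isClosed_bounded]
    constructor
    · have h1 : IsClosed {w : ℂ | 0 ≤ w.re} := isClosed_le continuous_const Complex.continuous_re
      have h2 : IsClosed {w : ℂ | w.re ≤ 1} := isClosed_le Complex.continuous_re continuous_const
      have h3 : IsClosed {w : ℂ | |w.im - u0| ≤ |u0| / 2} :=
        isClosed_le ((Complex.continuous_im.sub continuous_const).abs) continuous_const
      exact h1.inter (h2.inter h3)
    · rw [isBounded_iff_forall_norm_le]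
      refine ⟨1 + 2 * |u0|, fun w hw => ?_⟩
      obtain ⟨h1, h2, h3⟩ := hw
      refine (Complex.norm_le_abs_re_add_abs_im w).trans ?_
      rw [abs_of_nonneg h1]
      have h4 : |w.im| ≤ |w.im - u0| + |u0| := by
        have := abs_add_le (w.im - u0) u0
        simpa using this
      linarith
  have hne : ∀ w ∈ S, (1 + w) ≠ 1 ∧ riemannZeta (1 + w) ≠ 0 := by
    rintro w ⟨h1, h2, h3⟩
    constructor
    · intro h
      have h4 : w = 0 := by
        have := congrArg (fun z => z - 1) h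
        simpa using this
      rw [h4] at h3
      simp at h3
      linarith
    · apply riemannZeta_ne_zero_of_one_le_re
      rw [Complex.add_re, Complex.one_re]
      linarith
  have hcont : ContinuousOn (fun w : ℂ => riemannZeta (1 + w)) S := by
    intro w hw
    apply ContinuousAt.continuousWithinAt
    exact ContinuousAt.comp (f := fun w : ℂ => 1 + w)
      (differentiableAt_riemannZeta (hne w hw).1).continuousAt
      (continuousAt_const.add continuousAt_id)
  obtain ⟨M1, hM1⟩ := hScomp.exists_bound_of_continuousOn hcont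
  obtain ⟨M2, hM2⟩ := hScomp.exists_bound_of_continuousOn
    (hcont.inv₀ fun w hw => (hne w hw).2)
  refine ⟨max 1 (max M1 M2), by positivity, ?_⟩
  intro w h1 h2 h3
  have hw : w ∈ S := ⟨h1, h2, h3⟩
  constructor
  · exact (hM1 w hw).trans ((le_max_left _ _).trans (le_max_right _ _))
  · have := hM2 w hw
    rw [Pi.inv_apply, norm_inv] at this
    exact this.trans ((le_max_right _ _).trans (le_max_right _ _))

/-- Away from the pole. If |v|/l <= |u0|/2 the point stays in the compact set {0<=Re w<=1, |Im w| in [|u0|/2, 3|u0|/2]}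
where zeta(1+w) is bounded above and below (R_log); otherwise exp|R| <= C/Re w <= Cl <= C'|v|. -/
theorem R_off (u0 : ℝ) (hu : u0 ≠ 0) : ∃ C l0 : ℝ, 0 < C ∧ 1 ≤ l0 ∧ ∀ l : ℝ, l0 ≤ l → ∀ η : ℂ,
    |η.re| ≤ 1 / (8 * l) → η.im = u0 → ∀ c v : ℝ, 1 ≤ c → c ≤ 2 →
    Real.exp |R (1 + η + (c + v * I) / l)| ≤ C * (1 + |v|) := by
  obtain ⟨C1, hC1, hLog⟩ := R_log
  obtain ⟨C2, hC2, hExp⟩ := R_exp
  obtain ⟨M, hM, hMz⟩ := P07_compact u0 hu
  have hu0 : 0 < |u0| := abs_pos.2 hu
  refine ⟨Real.exp C1 * M + C2 * 4 / |u0|, 3, by positivity, by norm_num, ?_⟩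
  intro l hl η hη1 hη2 c v hc1 hc2
  have hl0 : 0 < l := by linarith
  set w : ℂ := η + (c + v * I) / l with hw
  have hwre : w.re = η.re + c / l := by
    have : ((c : ℂ) + v * I) / l = ((c / l : ℝ) : ℂ) + ((v / l : ℝ) : ℂ) * I := by
      push_cast; ring
    rw [hw, this]; simp
  have hwim : w.im = u0 + v / l := by
    have : ((c : ℂ) + v * I) / l = ((c / l : ℝ) : ℂ) + ((v / l : ℝ) : ℂ) * I := by
      push_cast; ring
    rw [hw, this]; simp [hη2]
  have h1 := abs_le.1 hη1
  have h8 : 1 / (8 * l) = (1 / l) / 8 := by field_simp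
  have hil : 0 < 1 / l := by positivity
  have hil3 : 1 / l ≤ 1 / 3 := one_div_le_one_div_of_le (by norm_num) hl
  have hcl1 : 1 / l ≤ c / l := div_le_div_of_nonneg_right hc1 hl0.le
  have hcl2 : c / l ≤ 2 / l := div_le_div_of_nonneg_right hc2 hl0.le
  have h2l : 2 / l = 2 * (1 / l) := by ring
  have hre0 : (1 / l) / 2 ≤ w.re := by rw [hwre]; linarith [h1.1]
  have hre1 : w.re ≤ 1 := by rw [hwre]; linarith [h1.2]
  have hrepos : 0 < w.re := by linarith
  have e : 1 + η + (c + v * I) / l = 1 + w := by rw [hw]; ring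
  rw [e]
  have hv0 : 0 ≤ |v| := abs_nonneg v
  have hone : 1 < (1 + w).re := by rw [Complex.add_re, Complex.one_re]; linarith
  by_cases hv : |v| / l ≤ |u0| / 2
  · have h3 : |w.im - u0| ≤ |u0| / 2 := by
      rw [hwim]
      have : u0 + v / l - u0 = v / l := by ring
      rw [this, abs_div, abs_of_pos hl0]
      exact hv
    obtain ⟨g1, g2⟩ := hMz w hrepos.le hre1 h3
    have hz : riemannZeta (1 + w) ≠ 0 := riemannZeta_ne_zero_of_one_le_re hone.le
    have hzp : 0 < ‖riemannZeta (1 + w)‖ := norm_pos_iff.2 hz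
    have g3 := abs_le.1 (hLog (1 + w) hone)
    have g4 : Real.exp |R (1 + w)| ≤ Real.exp C1 * M := by
      rcases abs_cases (R (1 + w)) with ⟨h, -⟩ | ⟨h, -⟩
      · rw [h]
        calc Real.exp (R (1 + w)) ≤ Real.exp (C1 + Real.log ‖riemannZeta (1 + w)‖) :=
              Real.exp_le_exp.2 (by linarith [g3.2])
          _ = Real.exp C1 * ‖riemannZeta (1 + w)‖ := by rw [Real.exp_add, Real.exp_log hzp]
          _ ≤ _ := mul_le_mul_of_nonneg_left g1 (Real.exp_pos _).le
      · rw [h]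
        calc Real.exp (-R (1 + w)) ≤ Real.exp (C1 + -Real.log ‖riemannZeta (1 + w)‖) :=
              Real.exp_le_exp.2 (by linarith [g3.1])
          _ = Real.exp C1 * ‖riemannZeta (1 + w)‖⁻¹ := by
              rw [Real.exp_add, Real.exp_neg, Real.exp_log hzp]
          _ ≤ _ := mul_le_mul_of_nonneg_left g2 (Real.exp_pos _).le
    have g5 : 0 ≤ C2 * 4 / |u0| := by positivity
    have g6 : 0 ≤ Real.exp C1 * M := by positivity
    nlinarith
  · push Not at hv
    obtain ⟨g1, g2, -, -⟩ := hExp w hrepos hre1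
    have g3 : Real.exp |R (1 + w)| ≤ C2 / w.re := by
      rcases abs_cases (R (1 + w)) with ⟨h, -⟩ | ⟨h, -⟩
      · rw [h]; exact g1
      · rw [h]; exact g2
    have g4 : C2 / w.re ≤ C2 * (2 * l) := by
      rw [div_le_iff₀ hrepos]
      have : 1 ≤ 2 * l * w.re := by
        have := mul_le_mul_of_nonneg_left hre0 (show 0 ≤ 2 * l by positivity)
        have e2 : 2 * l * (1 / l / 2) = 1 := by field_simp
        linarith
      nlinarith
    have g5 : l < 2 * |v| / |u0| := by
      rw [lt_div_iff₀ hu0]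
      rw [div_lt_div_iff₀ (by norm_num) hl0] at hv
      linarith
    have g6 : C2 * (2 * l) ≤ C2 * 4 / |u0| * |v| := by
      have : C2 * (2 * l) ≤ C2 * (2 * (2 * |v| / |u0|)) := by
        apply mul_le_mul_of_nonneg_left _ hC2.le
        linarith
      refine this.trans (le_of_eq ?_)
      ring
    have g7 : 0 ≤ C2 * 4 / |u0| := by positivity
    have g8 : 0 ≤ Real.exp C1 * M * (1 + |v|) := by positivity
    have g9 : (Real.exp C1 * M + C2 * 4 / |u0|) * (1 + |v|) =
        Real.exp C1 * M * (1 + |v|) + C2 * 4 / |u0| + C2 * 4 / |u0| * |v| := by ring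
    rw [g9]
    linarith

end LZ
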