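import Pool.Agent.Lib.MP_0f5a55_nt.D0

open Complex MeasureTheory Set Filter Topology
open scoped ComplexConjugate

namespace LZ

theorem Q13_norm (p : ℕ) (hp : p.Prime) (A : ℂ) (hA : 1 ≤ A.re) :
    ‖(p : ℂ) ^ (-A)‖ ≤ ((p : ℝ))⁻¹ := by
  have hp1 : (1 : ℝ) ≤ p := by exact_mod_cast hp.one_lt.le
  rw [Complex.norm_natCast_cpow_of_pos hp.pos]
  calc (p : ℝ) ^ (-A).re ≤ (p : ℝ) ^ (-1 : ℝ) := by
        apply Real.rpow_le_rpow_of_exponent_le hp1
        rw [Complex.neg_re]; linarith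
    _ = ((p : ℝ))⁻¹ := Real.rpow_neg_one _

/-- local factors of R1: for Re A, Re B, Re D >= 1 each factor is 1 + O(p^(-2)) with an absolute constant. -/
theorem R1_local : ∃ K : ℝ, 0 < K ∧ ∀ p : ℕ, p.Prime → ∀ A B D : ℂ, 1 ≤ A.re → 1 ≤ B.re → 1 ≤ D.re →
    ‖(1 - (p : ℂ) ^ (-A) - (p : ℂ) ^ (-B) + (p : ℂ) ^ (-D)) * (1 - (p : ℂ) ^ (-D)) /
      ((1 - (p : ℂ) ^ (-A)) * (1 - (p : ℂ) ^ (-B))) - 1‖ ≤ K * ((p : ℝ) ^ 2)⁻¹ := by
  refine ⟨16, by norm_num, ?_⟩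
  intro p hp A B D hA hB hD
  have ha := Q13_norm p hp A hA
  have hb := Q13_norm p hp B hB
  have hd := Q13_norm p hp D hD
  generalize (p : ℂ) ^ (-A) = a at *
  generalize (p : ℂ) ^ (-B) = b at *
  generalize (p : ℂ) ^ (-D) = d at *
  have hp2 : (2 : ℝ) ≤ p := by exact_mod_cast hp.two_le
  set t : ℝ := ((p : ℝ))⁻¹ with ht
  have ht0 : 0 < t := by rw [ht]; positivity
  have ht2 : t ≤ 1 / 2 := by
    rw [ht, inv_eq_one_div]
    exact one_div_le_one_div_of_le (by norm_num) hp2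
  have h1 : ∀ z : ℂ, ‖z‖ ≤ t → 1 / 2 ≤ ‖1 - z‖ := by
    intro z hz
    have := norm_sub_norm_le (1 : ℂ) z
    rw [norm_one] at this
    linarith
  have ha1 := h1 a ha
  have hb1 := h1 b hb
  have ha0 : (1 - a) ≠ 0 := by
    intro h; rw [h, norm_zero] at ha1; linarith
  have hb0 : (1 - b) ≠ 0 := by
    intro h; rw [h, norm_zero] at hb1; linarith
  have e : (1 - a - b + d) * (1 - d) / ((1 - a) * (1 - b)) - 1 =
      (d * a + d * b - d * d - a * b) / ((1 - a) * (1 - b)) := by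
    field_simp
    ring
  rw [e, norm_div, norm_mul]
  have hnum : ‖d * a + d * b - d * d - a * b‖ ≤ 4 * t ^ 2 := by
    have hm : ∀ x y : ℂ, ‖x‖ ≤ t → ‖y‖ ≤ t → ‖x * y‖ ≤ t ^ 2 := by
      intro x y hx hy
      rw [norm_mul, sq]
      exact mul_le_mul hx hy (norm_nonneg _) ht0.le
    calc ‖d * a + d * b - d * d - a * b‖ ≤ ‖d * a + d * b - d * d‖ + ‖a * b‖ := norm_sub_le _ _
      _ ≤ (‖d * a + d * b‖ + ‖d * d‖) + ‖a * b‖ := by
          have := norm_sub_le (d * a + d * b) (d * d); linarith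
      _ ≤ ((‖d * a‖ + ‖d * b‖) + ‖d * d‖) + ‖a * b‖ := by
          have := norm_add_le (d * a) (d * b); linarith
      _ ≤ 4 * t ^ 2 := by
          have := hm d a hd ha
          have := hm d b hd hb
          have := hm d d hd hd
          have := hm a b ha hb
          linarith
  have hden : 1 / 4 ≤ ‖1 - a‖ * ‖1 - b‖ := by
    have := mul_le_mul ha1 hb1 (by norm_num) (norm_nonneg _)
    linarith
  rw [div_le_iff₀ (by linarith)]
  have e2 : ((p : ℝ) ^ 2)⁻¹ = t ^ 2 := by rw [ht, inv_pow]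
  rw [e2]
  have : 0 ≤ t ^ 2 := sq_nonneg _
  nlinarith

end LZ
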