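import Pool.Agent.Lib.MP_0f5a55_nt.D0
import Pool.Agent.Lib.MP_0f5a55_nt.Q13

open Complex MeasureTheory Set Filter Topology
open scoped ComplexConjugate

namespace LZ

/-- local factor of R1 -/
private noncomputable def Q14_F (p : ℕ) (x : ℂ × ℂ × ℂ) : ℂ :=
  (1 - (p : ℂ) ^ (-x.1) - (p : ℂ) ^ (-x.2.1) + (p : ℂ) ^ (-x.2.2)) * (1 - (p : ℂ) ^ (-x.2.2)) /
    ((1 - (p : ℂ) ^ (-x.1)) * (1 - (p : ℂ) ^ (-x.2.1)))

private lemma Q14_ne {p : ℕ} (hp : p.Prime) {w : ℂ} (hw : 1 ≤ w.re) : 1 - (p : ℂ) ^ (-w) ≠ 0 := by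
  intro h
  have h1 : (p : ℂ) ^ (-w) = 1 := (sub_eq_zero.1 h).symm
  have h2 : ‖(p : ℂ) ^ (-w)‖ = (p : ℝ) ^ (-w.re) := by
    rw [Complex.norm_natCast_cpow_of_pos hp.pos, Complex.neg_re]
  rw [h1, norm_one] at h2
  have h3 : (p : ℝ) ^ (-w.re) < 1 :=
    Real.rpow_lt_one_of_one_lt_of_neg (by exact_mod_cast hp.one_lt) (by linarith)
  linarith

private lemma Q14_F_diag {p : ℕ} (hp : p.Prime) {w : ℂ} (hw : 1 ≤ w.re) :
    Q14_F p (w, w, w) = 1 := by
  have h := Q14_ne hp hw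
  simp only [Q14_F]
  rw [div_eq_one_iff_eq (mul_ne_zero h h)]
  ring

private lemma Q14_F_cont {p : ℕ} (hp : p.Prime) {w : ℂ} (hw : 1 ≤ w.re) :
    ContinuousAt (Q14_F p) (w, w, w) := by
  have h := Q14_ne hp hw
  have hp0 : (p : ℂ) ≠ 0 := by exact_mod_cast hp.ne_zero
  unfold Q14_F
  have c1 : ContinuousAt (fun x : ℂ × ℂ × ℂ => (p : ℂ) ^ (-x.1)) (w, w, w) := by
    apply ContinuousAt.const_cpow _ (Or.inl hp0)
    fun_prop
  have c2 : ContinuousAt (fun x : ℂ × ℂ × ℂ => (p : ℂ) ^ (-x.2.1)) (w, w, w) := by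
    apply ContinuousAt.const_cpow _ (Or.inl hp0)
    fun_prop
  have c3 : ContinuousAt (fun x : ℂ × ℂ × ℂ => (p : ℂ) ^ (-x.2.2)) (w, w, w) := by
    apply ContinuousAt.const_cpow _ (Or.inl hp0)
    fun_prop
  refine ContinuousAt.div ?_ ?_ (mul_ne_zero h h)
  · exact (((continuousAt_const.sub c1).sub c2).add c3).mul (continuousAt_const.sub c3)
  · exact (continuousAt_const.sub c1).mul (continuousAt_const.sub c2)

private lemma Q14_summ : Summable (fun p : Nat.Primes => (((p : ℕ) : ℝ) ^ 2)⁻¹) := by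
  have h := (Nat.Primes.summable_rpow (r := -2)).2 (by norm_num)
  refine h.congr (fun p => ?_)
  rw [Real.rpow_neg (Nat.cast_nonneg _)]
  norm_num

/-- R1 as a limit, bounded, and close to 1 when A, B, D are close to the same point of the line Re = 1
(the local factor is exactly 1 when A = B = D; dominated convergence for the tail). -/
theorem R1_facts : ∃ K : ℝ, 0 < K ∧
    (∀ A B D : ℂ, 1 ≤ A.re → 1 ≤ B.re → 1 ≤ D.re → ‖R1 A B D‖ ≤ K) ∧
    (∀ A B D : ℂ, 1 ≤ A.re → 1 ≤ B.re → 1 ≤ D.re →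
      Tendsto (fun z : ℕ => ∏ p ∈ PP z, ((1 - (p : ℂ) ^ (-A) - (p : ℂ) ^ (-B) + (p : ℂ) ^ (-D)) *
        (1 - (p : ℂ) ^ (-D)) / ((1 - (p : ℂ) ^ (-A)) * (1 - (p : ℂ) ^ (-B))))) atTop (𝓝 (R1 A B D))) ∧
    (∀ w : ℂ, 1 ≤ w.re → ∀ δ : ℝ, 0 < δ → ∃ ρ : ℝ, 0 < ρ ∧ ∀ A B D : ℂ, 1 ≤ A.re → 1 ≤ B.re → 1 ≤ D.re →
      ‖A - w‖ ≤ ρ → ‖B - w‖ ≤ ρ → ‖D - w‖ ≤ ρ → ‖R1 A B D - 1‖ ≤ δ) := by
  obtain ⟨K, hK, hloc⟩ := R1_local
  set S : ℝ := ∑' p : Nat.Primes, (((p : ℕ) : ℝ) ^ 2)⁻¹ with hS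
  have hdom : ∀ A B D : ℂ, 1 ≤ A.re → 1 ≤ B.re → 1 ≤ D.re → ∀ p : Nat.Primes,
      ‖Q14_F p (A, B, D) - 1‖ ≤ K * (((p : ℕ) : ℝ) ^ 2)⁻¹ := by
    intro A B D hA hB hD p
    exact hloc p p.2 A B D hA hB hD
  have hsum : ∀ A B D : ℂ, 1 ≤ A.re → 1 ≤ B.re → 1 ≤ D.re →
      Summable (fun p : Nat.Primes => ‖Q14_F p (A, B, D) - 1‖) := by
    intro A B D hA hB hD
    exact Summable.of_nonneg_of_le (fun _ => norm_nonneg _) (hdom A B D hA hB hD)
      (Q14_summ.mul_left K)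
  have hR : ∀ A B D : ℂ, R1 A B D = ∏' p : Nat.Primes, (1 + (Q14_F p (A, B, D) - 1)) := by
    intro A B D
    unfold R1 Q14_F
    congr 1
    funext p
    ring
  have hprod : ∀ A B D : ℂ, 1 ≤ A.re → 1 ≤ B.re → 1 ≤ D.re →
      HasProd (fun p : Nat.Primes => (1 + (Q14_F p (A, B, D) - 1))) (R1 A B D) := by
    intro A B D hA hB hD
    rw [hR]
    exact (multipliable_one_add_of_summable (hsum A B D hA hB hD)).hasProd
  have hle : ∀ A B D : ℂ, 1 ≤ A.re → 1 ≤ B.re → 1 ≤ D.re →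
      ‖R1 A B D - 1‖ ≤ Real.exp (∑' p : Nat.Primes, ‖Q14_F p (A, B, D) - 1‖) - 1 := by
    intro A B D hA hB hD
    have h1 := (hprod A B D hA hB hD)
    have h2 : Tendsto (fun s : Finset Nat.Primes =>
        ‖∏ p ∈ s, (1 + (Q14_F p (A, B, D) - 1)) - 1‖) atTop (𝓝 ‖R1 A B D - 1‖) :=
      (Tendsto.sub_const h1 1).norm
    refine le_of_tendsto h2 (Eventually.of_forall (fun s => ?_))
    refine (Finset.norm_prod_one_add_sub_one_le s _).trans ?_
    have h3 : ∑ p ∈ s, ‖Q14_F p (A, B, D) - 1‖ ≤ ∑' p : Nat.Primes, ‖Q14_F p (A, B, D) - 1‖ :=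
      (hsum A B D hA hB hD).sum_le_tsum s (fun _ _ => norm_nonneg _)
    linarith [Real.exp_le_exp.2 h3]
  refine ⟨Real.exp (K * S), Real.exp_pos _, ?_, ?_, ?_⟩
  · intro A B D hA hB hD
    have h1 := hle A B D hA hB hD
    have h2 : ∑' p : Nat.Primes, ‖Q14_F p (A, B, D) - 1‖ ≤ K * S := by
      rw [hS, ← tsum_mul_left]
      exact (hsum A B D hA hB hD).tsum_le_tsum (hdom A B D hA hB hD) (Q14_summ.mul_left K)
    have h3 : ‖R1 A B D‖ ≤ ‖R1 A B D - 1‖ + 1 := by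
      have := norm_add_le (R1 A B D - 1) 1
      simpa using this
    linarith [Real.exp_le_exp.2 h2]
  · intro A B D hA hB hD
    have h1 := hprod A B D hA hB hD
    have hs : Tendsto (fun z : ℕ => (PP z).subtype Nat.Prime) atTop atTop := by
      apply tendsto_atTop_finset_of_monotone
      · intro a b hab x hx
        simp only [PP, Finset.mem_subtype, Finset.mem_filter, Finset.mem_range] at hx ⊢
        exact ⟨by omega, hx.2⟩
      · intro x
        refine ⟨x.1, ?_⟩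
        simp only [PP, Finset.mem_subtype, Finset.mem_filter, Finset.mem_range]
        exact ⟨by omega, x.2⟩
    have h2 := Tendsto.comp h1 hs
    refine h2.congr (fun z => ?_)
    simp only [Function.comp]
    have h3 : ∀ p : ℕ, 1 + (Q14_F p (A, B, D) - 1) =
        (1 - (p : ℂ) ^ (-A) - (p : ℂ) ^ (-B) + (p : ℂ) ^ (-D)) *
        (1 - (p : ℂ) ^ (-D)) / ((1 - (p : ℂ) ^ (-A)) * (1 - (p : ℂ) ^ (-B))) := by
      intro p
      unfold Q14_F
      ring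
    have h4 := Finset.prod_subtype_of_mem (s := PP z) (p := Nat.Prime)
      (fun p : ℕ => (1 + (Q14_F p (A, B, D) - 1)))
      (by intro x hx; exact (Finset.mem_filter.1 hx).2)
    exact Eq.trans h4 (Finset.prod_congr rfl (fun p _ => h3 p))
  · intro w hw δ hδ
    set U : Set (ℂ × ℂ × ℂ) := {x | 1 ≤ x.1.re ∧ 1 ≤ x.2.1.re ∧ 1 ≤ x.2.2.re} with hU
    have ht : Tendsto (fun x : ℂ × ℂ × ℂ => ∑' p : Nat.Primes, ‖Q14_F p x - 1‖)
        (𝓝[U] (w, w, w)) (𝓝 (∑' _ : Nat.Primes, (0 : ℝ))) := by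
      apply tendsto_tsum_of_dominated_convergence (Q14_summ.mul_left K)
      · intro p
        have h1 := (Q14_F_cont p.2 hw).tendsto
        rw [Q14_F_diag p.2 hw] at h1
        have h2 := (h1.sub_const 1).norm
        rw [sub_self, norm_zero] at h2
        exact h2.mono_left nhdsWithin_le_nhds
      · filter_upwards [self_mem_nhdsWithin] with x hx p
        rw [norm_norm]
        exact hdom x.1 x.2.1 x.2.2 hx.1 hx.2.1 hx.2.2 p
    rw [tsum_zero] at ht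
    have ht2 : Tendsto (fun x : ℂ × ℂ × ℂ => Real.exp (∑' p : Nat.Primes, ‖Q14_F p x - 1‖) - 1)
        (𝓝[U] (w, w, w)) (𝓝 0) := by
      have := (Real.continuous_exp.tendsto 0).comp ht
      rw [Real.exp_zero] at this
      simpa using this.sub_const 1
    have hev := ht2.eventually (gt_mem_nhds hδ)
    rw [eventually_nhdsWithin_iff, Metric.eventually_nhds_iff] at hev
    obtain ⟨r, hr, hrr⟩ := hev
    refine ⟨r / 2, by positivity, ?_⟩
    intro A B D hA hB hD hA1 hB1 hD1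
    have h1 : dist (A, B, D) (w, w, w) < r := by
      rw [Prod.dist_eq, Prod.dist_eq]
      simp only [dist_eq_norm]
      refine max_lt (by linarith) (max_lt (by linarith) (by linarith))
    have h2 := hrr h1 ⟨hA, hB, hD⟩
    exact (hle A B D hA hB hD).trans h2.le

end LZ
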