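import Pool.Agent.Lib.MP_0f5a55_nt.D0
import Pool.Agent.Lib.MP_0f5a55_nt.Q14

open Complex MeasureTheory Set Filter Topology
open scoped ComplexConjugate

namespace LZ

theorem Q15_zeta (s : ℂ) (hs : 1 < s.re) :
    Tendsto (fun z : ℕ => ∏ p ∈ PP z, (1 - (p : ℂ) ^ (-s))⁻¹) atTop (𝓝 (riemannZeta s)) := by
  have h := (riemannZeta_eulerProduct hs).comp (tendsto_add_atTop_nat 1)
  refine h.congr fun z => ?_
  rfl

theorem Q15_ne (s : ℂ) (hs : 1 < s.re) (p : ℕ) (hp : p.Prime) : 1 - (p : ℂ) ^ (-s) ≠ 0 := by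
  intro h
  have h1 : (p : ℂ) ^ (-s) = 1 := (sub_eq_zero.1 h).symm
  have h2 : ‖(p : ℂ) ^ (-s)‖ = 1 := by rw [h1, norm_one]
  rw [Complex.norm_natCast_cpow_of_pos hp.pos, Complex.neg_re] at h2
  have hp1 : (1 : ℝ) < p := by exact_mod_cast hp.one_lt
  have h3 : (p : ℝ) ^ (-s.re) < 1 := Real.rpow_lt_one_of_one_lt_of_neg hp1 (by linarith)
  linarith

/-- riemannZeta_eulerProduct (limit of the product over primes below n) and R1_facts. -/
theorem mu_prod (A B D : ℂ) (hA : 1 < A.re) (hB : 1 < B.re) (hD : 1 < D.re) :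
    Tendsto (fun z : ℕ => ∏ p ∈ PP z, (1 - (p : ℂ) ^ (-A) - (p : ℂ) ^ (-B) + (p : ℂ) ^ (-D))) atTop
      (𝓝 (riemannZeta D / (riemannZeta A * riemannZeta B) * R1 A B D)) := by
  obtain ⟨K, hK, hR1b, hR1t, hR1l⟩ := R1_facts
  have hzA : riemannZeta A ≠ 0 := riemannZeta_ne_zero_of_one_le_re hA.le
  have hzB : riemannZeta B ≠ 0 := riemannZeta_ne_zero_of_one_le_re hB.le
  have h1 := ((Q15_zeta D hD).div ((Q15_zeta A hA).mul (Q15_zeta B hB)) (mul_ne_zero hzA hzB)).mul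
    (hR1t A B D hA.le hB.le hD.le)
  refine h1.congr fun z => ?_
  simp only [Pi.div_apply]
  rw [← Finset.prod_mul_distrib, ← Finset.prod_div_distrib, ← Finset.prod_mul_distrib]
  apply Finset.prod_congr rfl
  intro p hp
  have hp' : p.Prime := by
    unfold PP at hp
    exact (Finset.mem_filter.1 hp).2
  have e1 := Q15_ne A hA p hp'
  have e2 := Q15_ne B hB p hp'
  have e3 := Q15_ne D hD p hp'
  field_simp

end LZ
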