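import Pool.Agent.Lib.MP_0f5a55_nt.D0
import Pool.Agent.Lib.MP_0f5a55_nt.Q15
import Pool.Agent.Lib.MP_0f5a55_nt.Q03
import Pool.Agent.Lib.MP_0f5a55_nt.Q05
import Pool.Agent.Lib.MP_0f5a55_nt.Q06
import Pool.Agent.Lib.MP_0f5a55_nt.Q07
import Pool.Agent.Lib.MP_0f5a55_nt.P03
import Pool.Agent.Lib.MP_0f5a55_nt.P04

open Complex MeasureTheory Set Filter Topology
open scoped ComplexConjugate

namespace LZ

private theorem Q16_EP {p : ℕ} (hp : p.Prime) (A : Fin 4 → ℂ) (C : ℂ) :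
    EP (fun j => -(((![1, 0, 1, 0] : Fin 4 → ℝ) j : ℝ) : ℂ) * (p : ℂ) ^ (-(A j))) ((p : ℂ) ^ C) =
      1 - (p : ℂ) ^ (-(A 0)) - (p : ℂ) ^ (-(A 2)) + (p : ℂ) ^ (-(A 0 + A 2 - C)) := by
  have hp0 : (p : ℂ) ≠ 0 := by exact_mod_cast hp.ne_zero
  have e : (p : ℂ) ^ (-(A 0 + A 2 - C)) = (p : ℂ) ^ C * ((p : ℂ) ^ (-(A 0)) * (p : ℂ) ^ (-(A 2))) := by
    rw [← cpow_add _ _ hp0, ← cpow_add _ _ hp0]
    congr 1
    ring
  rw [e]
  unfold EP
  simp
  ring

private theorem Q16_bound : ∃ K : ℝ, 0 < K ∧ ∀ (z : ℕ) (A B C : ℂ), 1 < A.re → 1 < B.re → 1 < (A + B - C).re →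
    |C.re - 1| ≤ 1 →
    ‖∏ p ∈ PP z, (1 - (p : ℂ) ^ (-A) - (p : ℂ) ^ (-B) + (p : ℂ) ^ (-(A + B - C)))‖ ≤
      K * Real.exp (R (A.re : ℂ) + R (B.re : ℂ) + R ((A + B - C).re : ℂ)) := by
  obtain ⟨K, hK, hb⟩ := prod_bound
  obtain ⟨-, -, hRz, -, -⟩ := Rz_facts
  refine ⟨K, hK, ?_⟩
  intro z A B C hA hB hD hC
  have hC' := abs_le.mp hC
  have h1 := hb z ![1, 0, 1, 0] (by intro j; fin_cases j <;> simp) ![A, 3, B, 3] C
    (by intro j; fin_cases j <;> simp <;> linarith)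
    (by simp only [Matrix.cons_val]; linarith)
    (by simp only [Matrix.cons_val, sub_re, add_re]; norm_num; linarith)
    (by simp only [Matrix.cons_val, sub_re, add_re]; norm_num; linarith)
    (by simp only [Matrix.cons_val, sub_re, add_re]; norm_num; linarith)
  have h2 : ∏ p ∈ PP z, (1 - (p : ℂ) ^ (-A) - (p : ℂ) ^ (-B) + (p : ℂ) ^ (-(A + B - C))) =
      ∏ p ∈ PP z, EP (fun j => -(((![1, 0, 1, 0] : Fin 4 → ℝ) j : ℝ) : ℂ) *
        (p : ℂ) ^ (-((![A, 3, B, 3] : Fin 4 → ℂ) j))) ((p : ℂ) ^ C) := by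
    refine Finset.prod_congr rfl (fun p hp => ?_)
    have hp' : p.Prime := (Finset.mem_filter.mp hp).2
    rw [Q16_EP hp']
    simp
  rw [h2]
  refine h1.trans ?_
  refine mul_le_mul_of_nonneg_left ?_ hK.le
  refine Real.exp_le_exp.mpr ?_
  have h3 : SR (Rz z) ![1, 0, 1, 0] ![A, 3, B, 3] C = -(Rz z A + Rz z B) + Rz z (A + B - C) := by
    unfold SR
    simp [Fin.sum_univ_four]
  rw [h3]
  have r1 := abs_le.mp (hRz z A hA)
  have r2 := abs_le.mp (hRz z B hB)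
  have r3 := abs_le.mp (hRz z (A + B - C) hD)
  linarith

/-- limit z to infinity in QQ_integral for lam = (1,0,1,0): EP = 1-p^(-A)-p^(-B)+p^(-D), D = A+B-C; domination as in
QQ_bound. The variables u 1, u 3 do not occur; keep the integral over Fin 4 → ℝ. -/
theorem QQ_mu_integral : ∃ l0 : ℝ, 1 ≤ l0 ∧ ∀ l : ℝ, l0 ≤ l → ∀ (e : Fin 4 → ℂ) (e4 : ℂ),
    |(e 0).re| ≤ 1 / (8 * l) → |(e 2).re| ≤ 1 / (8 * l) → |e4.re| ≤ 1 / (8 * l) →
    QQ ⌊Real.exp l⌋₊ ![1, 0, 1, 0] l e e4 = ∫ u : Fin 4 → ℝ, (∏ j, kk (u j)) *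
      (riemannZeta (Aex l e u 0 + Aex l e u 2 - (1 + e4)) /
        (riemannZeta (Aex l e u 0) * riemannZeta (Aex l e u 2)) *
        R1 (Aex l e u 0) (Aex l e u 2) (Aex l e u 0 + Aex l e u 2 - (1 + e4))) := by
  obtain ⟨K, hK, hb⟩ := Q16_bound
  obtain ⟨hkc, hki⟩ := kk_facts
  refine ⟨1, le_rfl, ?_⟩
  intro l hl e e4 h0 h2 h4
  have hl0 : 0 < l := by linarith
  have h0' := abs_le.mp h0
  have h2' := abs_le.mp h2
  have h4' := abs_le.mp h4
  have h8 : 1 / (8 * l) = 1 / l / 8 := by field_simp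
  have hl1 : 0 < 1 / l := by positivity
  have hl2 : 1 / l ≤ 1 := by rw [div_le_one hl0]; exact hl
  rw [h8] at h0' h2' h4'
  have hAre : ∀ (u : Fin 4 → ℝ) (j : Fin 4), (Aex l e u j).re = 1 + (e j).re + 1 / l := by
    intro u j
    unfold Aex
    rw [add_re, add_re, one_re, div_ofReal_re, add_re, one_re, re_ofReal_mul, I_re]
    ring
  have hDre : ∀ (u : Fin 4 → ℝ), (Aex l e u 0 + Aex l e u 2 - (1 + e4)).re =
      1 + (e 0).re + (e 2).re - e4.re + 2 / l := by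
    intro u
    rw [sub_re, add_re, add_re, one_re, hAre, hAre]
    ring
  have h2l : 2 / l = 2 * (1 / l) := by ring
  set F : ℕ → (Fin 4 → ℝ) → ℂ := fun z u => (∏ j, kk (u j)) *
    ∏ p ∈ PP z, (1 - (p : ℂ) ^ (-(Aex l e u 0)) - (p : ℂ) ^ (-(Aex l e u 2)) +
      (p : ℂ) ^ (-(Aex l e u 0 + Aex l e u 2 - (1 + e4)))) with hF
  have hFQ : ∀ z : ℕ, QQ z ![1, 0, 1, 0] l e e4 = ∫ u, F z u := by
    intro z
    rw [QQ_integral z _ l hl0 e e4]
    refine integral_congr_ae (Eventually.of_forall (fun u => ?_))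
    simp only [hF]
    congr 1
    refine Finset.prod_congr rfl (fun p hp => ?_)
    exact Q16_EP (Finset.mem_filter.mp hp).2 _ _
  have hAc : ∀ j : Fin 4, Continuous (fun u : Fin 4 → ℝ => Aex l e u j) := by
    intro j
    unfold Aex
    fun_prop
  have hFc : ∀ z : ℕ, Continuous (F z) := by
    intro z
    have h1 : Continuous (fun u : Fin 4 → ℝ => ∏ j, kk (u j)) :=
      continuous_finsetProd _ (fun j _ => hkc.comp (continuous_apply j))
    refine h1.mul (continuous_finsetProd _ (fun p hp => ?_))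
    have hp0 : (p : ℂ) ≠ 0 := by exact_mod_cast (Finset.mem_filter.mp hp).2.ne_zero
    have c1 : Continuous (fun u : Fin 4 → ℝ => (p : ℂ) ^ (-(Aex l e u 0))) :=
      Continuous.const_cpow (hAc 0).neg (Or.inl hp0)
    have c2 : Continuous (fun u : Fin 4 → ℝ => (p : ℂ) ^ (-(Aex l e u 2))) :=
      Continuous.const_cpow (hAc 2).neg (Or.inl hp0)
    have c3 : Continuous (fun u : Fin 4 → ℝ => (p : ℂ) ^ (-(Aex l e u 0 + Aex l e u 2 - (1 + e4)))) :=
      Continuous.const_cpow (((hAc 0).add (hAc 2)).sub continuous_const).neg (Or.inl hp0)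
    exact ((continuous_const.sub c1).sub c2).add c3
  set M : ℝ := K * Real.exp (R (((1 + (e 0).re + 1 / l : ℝ)) : ℂ) + R ((1 + (e 2).re + 1 / l : ℝ) : ℂ) +
    R ((1 + (e 0).re + (e 2).re - e4.re + 2 / l : ℝ) : ℂ)) with hM
  have hki2 : Integrable (fun u : ℝ => ‖kk u‖) := by
    refine Integrable.mono' hki hkc.norm.aestronglyMeasurable (Eventually.of_forall (fun u => ?_))
    rw [norm_norm]
    have : (1:ℝ) ≤ (1 + |u|) ^ 16 := one_le_pow₀ (by linarith [abs_nonneg u])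
    nlinarith [norm_nonneg (kk u)]
  have hbi : Integrable (fun u : Fin 4 → ℝ => (∏ j, ‖kk (u j)‖) * M) :=
    (Integrable.fintype_prod (f := fun _ : Fin 4 => fun x : ℝ => ‖kk x‖) (fun _ => hki2)).mul_const M
  have hFb : ∀ z : ℕ, ∀ u : Fin 4 → ℝ, ‖F z u‖ ≤ (∏ j, ‖kk (u j)‖) * M := by
    intro z u
    simp only [hF]
    rw [norm_mul, norm_prod]
    refine mul_le_mul_of_nonneg_left ?_ (Finset.prod_nonneg (fun j _ => norm_nonneg _))
    have h5 := hb z (Aex l e u 0) (Aex l e u 2) (1 + e4) (by rw [hAre]; linarith) (by rw [hAre]; linarith)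
      (by rw [hDre, h2l]; linarith) (by
        rw [add_re, one_re, add_sub_cancel_left]
        rw [abs_le]
        constructor <;> linarith)
    rw [hAre, hAre, hDre] at h5
    exact h5
  have hlim : ∀ u : Fin 4 → ℝ, Tendsto (fun z => F z u) atTop (𝓝 ((∏ j, kk (u j)) *
      (riemannZeta (Aex l e u 0 + Aex l e u 2 - (1 + e4)) /
        (riemannZeta (Aex l e u 0) * riemannZeta (Aex l e u 2)) *
        R1 (Aex l e u 0) (Aex l e u 2) (Aex l e u 0 + Aex l e u 2 - (1 + e4))))) := by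
    intro u
    exact (mu_prod (Aex l e u 0) (Aex l e u 2) (Aex l e u 0 + Aex l e u 2 - (1 + e4))
      (by rw [hAre]; linarith) (by rw [hAre]; linarith) (by rw [hDre, h2l]; linarith)).const_mul _
  have key := tendsto_integral_of_dominated_convergence _ (fun z => (hFc z).aestronglyMeasurable) hbi
    (fun z => Eventually.of_forall (hFb z)) (Eventually.of_forall hlim)
  have hconst : Tendsto (fun z => ∫ u, F z u) atTop (𝓝 (QQ ⌊Real.exp l⌋₊ ![1, 0, 1, 0] l e e4)) := by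
    refine tendsto_const_nhds.congr' ?_
    filter_upwards [eventually_ge_atTop ⌊Real.exp l⌋₊] with z hz
    rw [← hFQ z]
    exact (QQ_stable z _ l hl0 e e4 hz).symm
  exact tendsto_nhds_unique hconst key

end LZ
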