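import Pool.Agent.Lib.MP_0f5a55_nt.D0
import Pool.Agent.Lib.MP_0f5a55_nt.Q04
import Pool.Agent.Lib.MP_0f5a55_nt.Q05
import Pool.Agent.Lib.MP_0f5a55_nt.Q14
import Pool.Agent.Lib.MP_0f5a55_nt.Q16
import Pool.Agent.Lib.MP_0f5a55_nt.P07
import Pool.Agent.Lib.MP_0f5a55_nt.P01

open Complex MeasureTheory Set Filter Topology
open scoped ComplexConjugate

namespace LZ

theorem Q17_kk_one : ∫ u : ℝ, kk u = 1 := by
  have h := wt_eq 0
  have h1 : ∀ u : ℝ, kk u * exp (-((1 + u * I) * ((0 : ℝ) : ℂ))) = kk u := by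
    intro u
    rw [Complex.ofReal_zero, mul_zero, neg_zero, Complex.exp_zero, mul_one]
  simp_rw [h1] at h
  rw [← h]
  unfold wt
  norm_num

theorem Q17_zeta_cont (s : ℂ) (hs : s ≠ 1) : ContinuousAt riemannZeta s :=
  (differentiableAt_riemannZeta hs).continuousAt

theorem Q17_re_ne (s : ℂ) (hs : 1 < s.re) : s ≠ 1 := by
  rintro rfl
  simp at hs

/-- bounds from `R_log` -/
theorem Q17_zeta_bd (C : ℝ) (hC : ∀ s : ℂ, 1 < s.re → |R s - Real.log ‖riemannZeta s‖| ≤ C)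
    (s : ℂ) (hs : 1 < s.re) : ‖riemannZeta s‖ ≤ Real.exp C * Real.exp |R s| ∧
      ‖riemannZeta s‖⁻¹ ≤ Real.exp C * Real.exp |R s| := by
  have hne : riemannZeta s ≠ 0 := riemannZeta_ne_zero_of_one_le_re hs.le
  have hpos : 0 < ‖riemannZeta s‖ := norm_pos_iff.2 hne
  have h1 := abs_le.1 (hC s hs)
  have h2 := abs_le.1 (le_refl |R s|)
  constructor
  · rw [← Real.exp_add]
    calc ‖riemannZeta s‖ = Real.exp (Real.log ‖riemannZeta s‖) := (Real.exp_log hpos).symm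
      _ ≤ Real.exp (C + |R s|) := Real.exp_le_exp.2 (by linarith [h1.1, h2.2])
  · rw [← Real.exp_add]
    calc ‖riemannZeta s‖⁻¹ = Real.exp (-Real.log ‖riemannZeta s‖) := by
          rw [Real.exp_neg, Real.exp_log hpos]
      _ ≤ Real.exp (C + |R s|) := Real.exp_le_exp.2 (by linarith [h1.2, h2.1])

/-- the exponents -/
noncomputable def Q17_A (l : ℝ) (η : ℂ) (c v : ℝ) : ℂ := 1 + η + ((c : ℂ) + v * I) / l

theorem Q17_A_re (l : ℝ) (η : ℂ) (c v : ℝ) : (Q17_A l η c v).re = 1 + η.re + c / l := by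
  unfold Q17_A
  have : ((c : ℂ) + v * I) / l = ((c / l : ℝ) : ℂ) + ((v / l : ℝ) : ℂ) * I := by
    push_cast; ring
  rw [this]
  simp

theorem Q17_A_lt (l : ℝ) (hl : 1 ≤ l) (η : ℂ) (hη : |η.re| ≤ 1 / (8 * l)) (c v : ℝ) (hc : 1 ≤ c) :
    1 < (Q17_A l η c v).re := by
  rw [Q17_A_re]
  have h1 := (abs_le.1 hη).1
  have h2 : 1 / l ≤ c / l := div_le_div_of_nonneg_right hc (by linarith)
  have h3 : 1 / (8 * l) = (1 / l) / 8 := by field_simp
  have h4 : 0 < 1 / l := by positivity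
  linarith

theorem Q17_A_cont (l : ℝ) (η : ℂ) (c : ℝ) : Continuous fun v : ℝ => Q17_A l η c v := by
  unfold Q17_A
  fun_prop

theorem Q17_A_tendsto (u0 : ℝ) (l : ℕ → ℝ) (η : ℕ → ℂ) (hl : ∀ n : ℕ, (n : ℝ) + 1 ≤ l n)
    (hη : ∀ n, |(η n).re| ≤ 1 / (8 * l n)) (hη2 : ∀ n, (η n).im = u0) (c v : ℝ) :
    Tendsto (fun n => Q17_A (l n) (η n) c v) atTop (𝓝 (1 + u0 * I)) := by
  have hlt : Tendsto l atTop atTop := by
    apply tendsto_atTop_mono hl
    exact tendsto_atTop_add_const_right _ _ tendsto_natCast_atTop_atTop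
  have hli : Tendsto (fun n => (l n)⁻¹) atTop (𝓝 0) := tendsto_inv_atTop_zero.comp hlt
  have hliC : Tendsto (fun n => (((l n)⁻¹ : ℝ) : ℂ)) atTop (𝓝 ((0 : ℝ) : ℂ)) :=
    (Complex.continuous_ofReal.tendsto 0).comp hli
  have hre : Tendsto (fun n => (η n).re) atTop (𝓝 0) := by
    apply squeeze_zero_norm (a := fun n => (l n)⁻¹) _ hli
    intro n
    rw [Real.norm_eq_abs]
    refine (hη n).trans ?_
    have h0 : 0 < l n := lt_of_lt_of_le (by positivity) (hl n)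
    rw [one_div]
    apply inv_anti₀ h0
    linarith
  have hηt : Tendsto η atTop (𝓝 (u0 * I)) := by
    have h1 : ∀ n, η n = (((η n).re : ℝ) : ℂ) + u0 * I := by
      intro n
      rw [← hη2 n]
      exact (Complex.re_add_im _).symm
    have h2 : Tendsto (fun n => (((η n).re : ℝ) : ℂ) + u0 * I) atTop
        (𝓝 (((0 : ℝ) : ℂ) + u0 * I)) :=
      ((Complex.continuous_ofReal.tendsto 0).comp hre).add_const _
    rw [Complex.ofReal_zero, zero_add] at h2
    exact h2.congr fun n => (h1 n).symm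
  have h3 : Tendsto (fun n => (1 + η n) + ((c : ℂ) + v * I) * (((l n)⁻¹ : ℝ) : ℂ)) atTop
      (𝓝 ((1 + u0 * I) + ((c : ℂ) + v * I) * ((0 : ℝ) : ℂ))) :=
    (hηt.const_add 1).add (hliC.const_mul _)
  rw [Complex.ofReal_zero, mul_zero, add_zero] at h3
  refine h3.congr fun n => ?_
  unfold Q17_A
  push_cast
  rw [div_eq_mul_inv]

/-- the integrand -/
noncomputable def Q17_F (l : ℝ) (η : ℂ) (u : Fin 4 → ℝ) : ℂ :=
  riemannZeta (Q17_A l η 2 (u 0 + u 2)) /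
    (riemannZeta (Q17_A l η 1 (u 0)) * riemannZeta (Q17_A l η 1 (u 2))) *
    R1 (Q17_A l η 1 (u 0)) (Q17_A l η 1 (u 2)) (Q17_A l η 2 (u 0 + u 2))

theorem Q17_F_meas (l : ℝ) (hl : 1 ≤ l) (η : ℂ) (hη : |η.re| ≤ 1 / (8 * l)) :
    Measurable (Q17_F l η) := by
  obtain ⟨K, hK, hR1b, hR1t, hR1l⟩ := R1_facts
  have hc : ∀ (c : ℝ) (w : (Fin 4 → ℝ) → ℝ), Continuous w → Continuous fun u => Q17_A l η c (w u) :=
    fun c w hw => (Q17_A_cont l η c).comp hw
  have hz : ∀ (c : ℝ) (w : (Fin 4 → ℝ) → ℝ), 1 ≤ c → Continuous w →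
      Continuous fun u => riemannZeta (Q17_A l η c (w u)) := by
    intro c w h1 hw
    rw [continuous_iff_continuousAt]
    intro u
    exact ContinuousAt.comp (Q17_zeta_cont _ (Q17_re_ne _ (Q17_A_lt l hl η hη c (w u) h1)))
      (hc c w hw).continuousAt
  have hw0 : Continuous fun u : Fin 4 → ℝ => u 0 := continuous_apply 0
  have hw2 : Continuous fun u : Fin 4 → ℝ => u 2 := continuous_apply 2
  have hw02 : Continuous fun u : Fin 4 → ℝ => u 0 + u 2 := hw0.add hw2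
  unfold Q17_F
  apply Measurable.mul
  · apply Measurable.div
    · exact (hz 2 _ (by norm_num) hw02).measurable
    · exact ((hz 1 _ le_rfl hw0).mul (hz 1 _ le_rfl hw2)).measurable
  · apply measurable_of_tendsto_metrizable (f := fun (z : ℕ) (u : Fin 4 → ℝ) =>
      ∏ p ∈ PP z, ((1 - (p : ℂ) ^ (-(Q17_A l η 1 (u 0))) - (p : ℂ) ^ (-(Q17_A l η 1 (u 2))) +
        (p : ℂ) ^ (-(Q17_A l η 2 (u 0 + u 2)))) * (1 - (p : ℂ) ^ (-(Q17_A l η 2 (u 0 + u 2)))) /
        ((1 - (p : ℂ) ^ (-(Q17_A l η 1 (u 0)))) * (1 - (p : ℂ) ^ (-(Q17_A l η 1 (u 2)))))))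
    · intro z
      apply Finset.measurable_prod
      intro p hp
      have hp0 : (p : ℂ) ≠ 0 := by
        have : p.Prime := by
          unfold PP at hp
          exact (Finset.mem_filter.1 hp).2
        exact_mod_cast this.ne_zero
      have hpw : ∀ (c : ℝ) (w : (Fin 4 → ℝ) → ℝ), Continuous w →
          Measurable fun u => (p : ℂ) ^ (-(Q17_A l η c (w u))) := by
        intro c w hw
        apply Continuous.measurable
        exact ((hc c w hw).neg).const_cpow (Or.inl hp0)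
      have m0 := hpw 1 _ hw0
      have m2 := hpw 1 _ hw2
      have m02 := hpw 2 _ hw02
      exact (((((measurable_const.sub m0).sub m2).add m02).mul (measurable_const.sub m02))).div
        ((measurable_const.sub m0).mul (measurable_const.sub m2))
    · rw [tendsto_pi_nhds]
      intro u
      exact hR1t _ _ _ (Q17_A_lt l hl η hη 1 _ le_rfl).le (Q17_A_lt l hl η hη 1 _ le_rfl).le
        (Q17_A_lt l hl η hη 2 _ (by norm_num)).le

/-- (2.6). A = 1+eta+(1+iu0)/l, B = 1+eta+(1+iu2)/l, D = 1+eta+(2+i(u0+u2))/l. The integrand times zeta(1+eta) tends to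
prod kk(u j) pointwise and is dominated by C prod |kk(u j)|(1+|u j|)^3 (R_off, R_log, R1_facts); the integral of kk is
wt 0 = 1. Use sequences / a filter argument (contradiction) for uniformity in eta. -/
theorem QQ_lim (u0 : ℝ) (hu : u0 ≠ 0) : ∀ δ : ℝ, 0 < δ → ∃ l0 : ℝ, 1 ≤ l0 ∧ ∀ l : ℝ, l0 ≤ l → ∀ η : ℂ,
    |η.re| ≤ 1 / (8 * l) → η.im = u0 → ∀ e : Fin 4 → ℂ, e 0 = η → e 2 = η →
    ‖riemannZeta (1 + η) * QQ ⌊Real.exp l⌋₊ ![1, 0, 1, 0] l e η - 1‖ ≤ δ := by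
  intro δ hδ
  by_contra hcon
  push Not at hcon
  obtain ⟨lq, hlq, hQ⟩ := QQ_mu_integral
  obtain ⟨Cr, lr, hCr, hlr, hR⟩ := R_off u0 hu
  obtain ⟨Cl, hCl, hLog⟩ := R_log
  obtain ⟨K, hK, hR1b, hR1t, hR1l⟩ := R1_facts
  have hseq : ∀ n : ℕ, ∃ (l : ℝ) (η : ℂ) (e : Fin 4 → ℂ), lq ≤ l ∧ lr ≤ l ∧ (n : ℝ) + 1 ≤ l ∧
      |η.re| ≤ 1 / (8 * l) ∧ η.im = u0 ∧ e 0 = η ∧ e 2 = η ∧
      δ < ‖riemannZeta (1 + η) * QQ ⌊Real.exp l⌋₊ ![1, 0, 1, 0] l e η - 1‖ := by
    intro n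
    obtain ⟨l, h1, η, h2, h3, e, h4, h5, h6⟩ := hcon (max lq (max lr ((n : ℝ) + 1)))
      (hlq.trans (le_max_left _ _))
    exact ⟨l, η, e, (le_max_left _ _).trans h1,
      ((le_max_left _ _).trans (le_max_right _ _)).trans h1,
      ((le_max_right _ _).trans (le_max_right _ _)).trans h1, h2, h3, h4, h5, h6⟩
  choose l η e h1 h2 h3 h4 h5 h6 h7 h8 using hseq
  have hl1 : ∀ n, 1 ≤ l n := fun n => hlq.trans (h1 n)
  -- the integral formula
  have hform : ∀ n, QQ ⌊Real.exp (l n)⌋₊ ![1, 0, 1, 0] (l n) (e n) (η n) =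
      ∫ u : Fin 4 → ℝ, (∏ j, kk (u j)) * Q17_F (l n) (η n) u := by
    intro n
    rw [hQ (l n) (h1 n) (e n) (η n) (by rw [h6]; exact h4 n) (by rw [h7]; exact h4 n) (h4 n)]
    congr 1
    funext u
    have e0 : Aex (l n) (e n) u 0 = Q17_A (l n) (η n) 1 (u 0) := by
      unfold Aex Q17_A
      rw [h6]; push_cast; rfl
    have e2 : Aex (l n) (e n) u 2 = Q17_A (l n) (η n) 1 (u 2) := by
      unfold Aex Q17_A
      rw [h7]; push_cast; rfl
    have e4 : Aex (l n) (e n) u 0 + Aex (l n) (e n) u 2 - (1 + η n) =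
        Q17_A (l n) (η n) 2 (u 0 + u 2) := by
      rw [e0, e2]
      unfold Q17_A
      push_cast
      ring
    rw [e4, e0, e2]
    rfl
  set w : ℂ := 1 + u0 * I with hw
  have hw1 : w ≠ 1 := by
    intro h
    have := congrArg Complex.im h
    rw [hw] at this
    simp at this
    exact hu this
  have hwz : riemannZeta w ≠ 0 := riemannZeta_ne_zero_of_one_le_re (by rw [hw]; simp)
  -- pointwise limit
  have hAt : ∀ c v : ℝ, Tendsto (fun n => Q17_A (l n) (η n) c v) atTop (𝓝 w) :=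
    fun c v => Q17_A_tendsto u0 l η h3 h4 h5 c v
  have hzt : ∀ c v : ℝ, Tendsto (fun n => riemannZeta (Q17_A (l n) (η n) c v)) atTop
      (𝓝 (riemannZeta w)) := fun c v => (Q17_zeta_cont w hw1).tendsto.comp (hAt c v)
  have hlim : ∀ u : Fin 4 → ℝ, Tendsto (fun n => (∏ j, kk (u j)) * Q17_F (l n) (η n) u) atTop
      (𝓝 ((∏ j, kk (u j)) * (riemannZeta w)⁻¹)) := by
    intro u
    apply Tendsto.const_mul
    have hR1 : Tendsto (fun n => R1 (Q17_A (l n) (η n) 1 (u 0)) (Q17_A (l n) (η n) 1 (u 2))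
        (Q17_A (l n) (η n) 2 (u 0 + u 2))) atTop (𝓝 1) := by
      rw [Metric.tendsto_atTop]
      intro ε hε
      obtain ⟨ρ, hρ, hρ2⟩ := hR1l w (by rw [hw]; simp) (ε / 2) (by positivity)
      have a1 := (Metric.tendsto_atTop.1 (hAt 1 (u 0))) ρ hρ
      have a2 := (Metric.tendsto_atTop.1 (hAt 1 (u 2))) ρ hρ
      have a3 := (Metric.tendsto_atTop.1 (hAt 2 (u 0 + u 2))) ρ hρ
      obtain ⟨N1, hN1⟩ := a1
      obtain ⟨N2, hN2⟩ := a2
      obtain ⟨N3, hN3⟩ := a3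
      refine ⟨max N1 (max N2 N3), fun n hn => ?_⟩
      have b1 := hN1 n ((le_max_left _ _).trans hn)
      have b2 := hN2 n (((le_max_left _ _).trans (le_max_right _ _)).trans hn)
      have b3 := hN3 n (((le_max_right _ _).trans (le_max_right _ _)).trans hn)
      rw [dist_eq_norm] at b1 b2 b3 ⊢
      have := hρ2 _ _ _ (Q17_A_lt _ (hl1 n) _ (h4 n) 1 (u 0) le_rfl).le
        (Q17_A_lt _ (hl1 n) _ (h4 n) 1 (u 2) le_rfl).le
        (Q17_A_lt _ (hl1 n) _ (h4 n) 2 (u 0 + u 2) (by norm_num)).le b1.le b2.le b3.le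
      linarith
    have hq : Tendsto (fun n => riemannZeta (Q17_A (l n) (η n) 2 (u 0 + u 2)) /
        (riemannZeta (Q17_A (l n) (η n) 1 (u 0)) * riemannZeta (Q17_A (l n) (η n) 1 (u 2)))) atTop
        (𝓝 (riemannZeta w / (riemannZeta w * riemannZeta w))) :=
      (hzt 2 _).div ((hzt 1 _).mul (hzt 1 _)) (mul_ne_zero hwz hwz)
    have := hq.mul hR1
    have e1 : riemannZeta w / (riemannZeta w * riemannZeta w) * 1 = (riemannZeta w)⁻¹ := by
      field_simp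
    rw [e1] at this
    exact this
  -- domination
  set E : ℝ := Real.exp Cl with hE
  have hE0 : 0 < E := Real.exp_pos _
  have hbd : ∀ n (u : Fin 4 → ℝ), ‖(∏ j, kk (u j)) * Q17_F (l n) (η n) u‖ ≤
      (E * Cr) ^ 3 * K * ∏ j, (‖kk (u j)‖ * (1 + |u j|) ^ 16) := by
    intro n u
    have hz : ∀ c v : ℝ, 1 ≤ c → c ≤ 2 → ‖riemannZeta (Q17_A (l n) (η n) c v)‖ ≤ E * (Cr * (1 + |v|)) ∧
        ‖riemannZeta (Q17_A (l n) (η n) c v)‖⁻¹ ≤ E * (Cr * (1 + |v|)) := by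
      intro c v hc1 hc2
      obtain ⟨g1, g2⟩ := Q17_zeta_bd Cl hLog _ (Q17_A_lt _ (hl1 n) _ (h4 n) c v hc1)
      have g3 := hR (l n) (h2 n) (η n) (h4 n) (h5 n) c v hc1 hc2
      have g4 : Real.exp |R (Q17_A (l n) (η n) c v)| ≤ Cr * (1 + |v|) := g3
      exact ⟨g1.trans (mul_le_mul_of_nonneg_left g4 hE0.le),
        g2.trans (mul_le_mul_of_nonneg_left g4 hE0.le)⟩
    have g0 := (hz 1 (u 0) le_rfl (by norm_num)).2
    have g2 := (hz 1 (u 2) le_rfl (by norm_num)).2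
    have g3 := (hz 2 (u 0 + u 2) (by norm_num) le_rfl).1
    have g4 := hR1b (Q17_A (l n) (η n) 1 (u 0)) (Q17_A (l n) (η n) 1 (u 2))
      (Q17_A (l n) (η n) 2 (u 0 + u 2)) (Q17_A_lt _ (hl1 n) _ (h4 n) 1 (u 0) le_rfl).le
        (Q17_A_lt _ (hl1 n) _ (h4 n) 1 (u 2) le_rfl).le
        (Q17_A_lt _ (hl1 n) _ (h4 n) 2 (u 0 + u 2) (by norm_num)).le
    have a0 : 1 ≤ 1 + |u 0| := by linarith [abs_nonneg (u 0)]
    have a1 : 1 ≤ 1 + |u 1| := by linarith [abs_nonneg (u 1)]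
    have a2 : 1 ≤ 1 + |u 2| := by linarith [abs_nonneg (u 2)]
    have a3 : 1 ≤ 1 + |u 3| := by linarith [abs_nonneg (u 3)]
    have g5 : 1 + |u 0 + u 2| ≤ (1 + |u 0|) * (1 + |u 2|) := by
      have := abs_add_le (u 0) (u 2)
      nlinarith [abs_nonneg (u 0), abs_nonneg (u 2), mul_nonneg (abs_nonneg (u 0)) (abs_nonneg (u 2))]
    have g6 : ‖riemannZeta (Q17_A (l n) (η n) 2 (u 0 + u 2))‖ ≤
        E * (Cr * ((1 + |u 0|) * (1 + |u 2|))) :=
      g3.trans (mul_le_mul_of_nonneg_left (mul_le_mul_of_nonneg_left g5 hCr.le) hE0.le)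
    have hF : ‖Q17_F (l n) (η n) u‖ ≤ (E * Cr) ^ 3 * K * ((1 + |u 0|) ^ 2 * (1 + |u 2|) ^ 2) := by
      unfold Q17_F
      rw [norm_mul, norm_div, norm_mul, div_eq_mul_inv, mul_inv]
      calc _ ≤ (E * (Cr * ((1 + |u 0|) * (1 + |u 2|)))) * ((E * (Cr * (1 + |u 0|))) *
            (E * (Cr * (1 + |u 2|)))) * K := by
            apply mul_le_mul _ g4 (norm_nonneg _) (by positivity)
            apply mul_le_mul g6 _ (by positivity) (by positivity)
            exact mul_le_mul g0 g2 (by positivity) (by positivity)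
        _ = _ := by ring
    rw [norm_mul, norm_prod]
    have hprod : ∏ j, (‖kk (u j)‖ * (1 + |u j|) ^ 16) = (∏ j, ‖kk (u j)‖) * ∏ j, (1 + |u j|) ^ 16 :=
      Finset.prod_mul_distrib
    rw [hprod]
    have hpow : (1 + |u 0|) ^ 2 * (1 + |u 2|) ^ 2 ≤ ∏ j : Fin 4, (1 + |u j|) ^ 16 := by
      rw [Fin.prod_univ_four]
      have b0 : (1 + |u 0|) ^ 2 ≤ (1 + |u 0|) ^ 16 := pow_le_pow_right₀ a0 (by norm_num)
      have b2 : (1 + |u 2|) ^ 2 ≤ (1 + |u 2|) ^ 16 := pow_le_pow_right₀ a2 (by norm_num)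
      have b1 : 1 ≤ (1 + |u 1|) ^ 16 := one_le_pow₀ a1
      have b3 : 1 ≤ (1 + |u 3|) ^ 16 := one_le_pow₀ a3
      calc (1 + |u 0|) ^ 2 * (1 + |u 2|) ^ 2 = (1 + |u 0|) ^ 2 * 1 * (1 + |u 2|) ^ 2 * 1 := by ring
        _ ≤ (1 + |u 0|) ^ 16 * (1 + |u 1|) ^ 16 * (1 + |u 2|) ^ 16 * (1 + |u 3|) ^ 16 := by
            apply mul_le_mul _ b3 (by norm_num) (by positivity)
            apply mul_le_mul _ b2 (by positivity) (by positivity)
            exact mul_le_mul b0 b1 (by norm_num) (by positivity)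
    have hk0 : 0 ≤ ∏ j, ‖kk (u j)‖ := Finset.prod_nonneg fun _ _ => norm_nonneg _
    calc (∏ j, ‖kk (u j)‖) * ‖Q17_F (l n) (η n) u‖ ≤
        (∏ j, ‖kk (u j)‖) * ((E * Cr) ^ 3 * K * ∏ j : Fin 4, (1 + |u j|) ^ 16) := by
          apply mul_le_mul_of_nonneg_left _ hk0
          exact hF.trans (mul_le_mul_of_nonneg_left hpow (by positivity))
      _ = _ := by ring
  have hint : Integrable (fun u : Fin 4 → ℝ => (E * Cr) ^ 3 * K *
      ∏ j, (‖kk (u j)‖ * (1 + |u j|) ^ 16)) := by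
    apply Integrable.const_mul
    exact Integrable.fintype_prod (f := fun (_ : Fin 4) (v : ℝ) => ‖kk v‖ * (1 + |v|) ^ 16)
      (fun _ => kk_facts.2)
  have hkm : Measurable fun u : Fin 4 → ℝ => ∏ j, kk (u j) := by
    apply Finset.measurable_prod
    intro j _
    exact kk_facts.1.measurable.comp (measurable_pi_apply j)
  have hmeas : ∀ n, AEStronglyMeasurable (fun u : Fin 4 → ℝ =>
      (∏ j, kk (u j)) * Q17_F (l n) (η n) u) volume := by
    intro n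
    exact (hkm.mul (Q17_F_meas (l n) (hl1 n) (η n) (h4 n))).aestronglyMeasurable
  have hDCT := tendsto_integral_of_dominated_convergence _ hmeas hint
    (fun n => Eventually.of_forall fun u => hbd n u) (Eventually.of_forall hlim)
  have hval : ∫ u : Fin 4 → ℝ, (∏ j, kk (u j)) * (riemannZeta w)⁻¹ = (riemannZeta w)⁻¹ := by
    rw [integral_mul_const]
    have : ∫ u : Fin 4 → ℝ, ∏ j, kk (u j) = ∏ j : Fin 4, ∫ v : ℝ, kk v :=
      integral_fintype_prod_volume_eq_prod (fun _ : Fin 4 => kk)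
    rw [this, Q17_kk_one]
    simp
  rw [hval] at hDCT
  have hz1 : Tendsto (fun n => riemannZeta (1 + η n)) atTop (𝓝 (riemannZeta w)) := by
    have h := hzt 0 0
    refine h.congr fun n => ?_
    congr 1
    unfold Q17_A
    simp
  have hfin := hz1.mul hDCT
  rw [mul_inv_cancel₀ hwz] at hfin
  have hfin2 := (hfin.sub_const 1).norm
  rw [sub_self, norm_zero] at hfin2
  obtain ⟨n, hn⟩ := ((tendsto_order.1 hfin2).2 δ hδ).exists
  have := h8 n
  rw [hform n] at this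
  linarith

end LZ
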