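import Pool.Agent.Lib.MP_0f5a55_nt.D0
import Pool.Agent.Lib.MP_0f5a55_nt.M04
import Pool.Agent.Lib.MP_0f5a55_nt.M08
import Pool.Agent.Lib.MP_0f5a55_nt.Q17
import Pool.Agent.Lib.MP_0f5a55_nt.Q10
import Pool.Agent.Lib.MP_0f5a55_nt.A15

open Complex MeasureTheory Set Filter Topology
open scoped ComplexConjugate

namespace LZ

/-- a power of a small number with a small exponent -/
theorem M10_pow {T : ℝ} (hT : 2 * Real.pi ≤ T) {η : ℂ} {B : ℝ} (h : |η.re| ≤ B / Real.log T) :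
    ‖((2 * Real.pi / T : ℝ) : ℂ) ^ η‖ ≤ Real.exp B := by
  have hpi : (0 : ℝ) < 2 * Real.pi := Real.two_pi_pos
  have hT0 : 0 < T := hpi.trans_le hT
  have hpi1 : (1 : ℝ) < 2 * Real.pi := by linarith [Real.pi_gt_three]
  have hL : 0 < Real.log T := Real.log_pos (hpi1.trans_le hT)
  rw [Complex.norm_cpow_eq_rpow_re_of_pos (div_pos hpi hT0), Real.rpow_def_of_pos (div_pos hpi hT0),
    Real.exp_le_exp]
  have h1 : |Real.log (2 * Real.pi / T)| ≤ Real.log T := by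
    rw [Real.log_div hpi.ne' hT0.ne', abs_le]
    have h2 : 0 < Real.log (2 * Real.pi) := Real.log_pos hpi1
    have h3 : Real.log (2 * Real.pi) ≤ Real.log T := Real.log_le_log hpi hT
    constructor
    · linarith
    · linarith
  calc Real.log (2 * Real.pi / T) * η.re ≤ |Real.log (2 * Real.pi / T) * η.re| := le_abs_self _
    _ = |Real.log (2 * Real.pi / T)| * |η.re| := abs_mul _ _
    _ ≤ Real.log T * (B / Real.log T) := mul_le_mul h1 h (abs_nonneg _) hL.le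
    _ = B := by field_simp

/-- (4.2): master with eta = 2 sigma + i(u1-u2), QQ_lim for the first term, QQ_mu for the second (C/l -> 0). -/
theorem F_cross (u1 u2 : ℝ) (h : u1 ≠ u2) : ∀ δ : ℝ, 0 < δ → ∃ T0 : ℝ, 2 ≤ T0 ∧ ∀ T : ℝ, T0 ≤ T → ∀ l : ℝ,
    Real.log T / 2000 ≤ l → l ≤ Real.log T / 1000 → ∀ σ : ℝ, |σ| ≤ 1 / Real.log T →
    ‖EE T (fun t => FF l (1/2 + σ + (t + u1) * I) * conj (FF l (1/2 + σ + (t + u2) * I))) - 1‖ ≤ δ := by
  intro δ hδ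
  obtain ⟨C, T1, hC, hT1, hmaster⟩ := master (max |u1| |u2|) (le_max_of_le_left (abs_nonneg _))
  obtain ⟨l0, hl0, hlim⟩ := QQ_lim (u1 - u2) (sub_ne_zero.mpr h) (δ / 3) (by linarith)
  obtain ⟨K, l1, hK, hl1, hmu⟩ := QQ_mu
  obtain ⟨CA, hCA, hzA⟩ := zA_bounds |u1 - u2| (abs_nonneg _)
  have hu : 0 < |u1 - u2| := abs_pos.mpr (sub_ne_zero.mpr h)
  obtain ⟨D, hD⟩ : ∃ D, D = 1 + 1 / |u1 - u2| := ⟨_, rfl⟩
  have hD0 : 0 < D := by rw [hD]; positivity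
  have hev : ∀ᶠ T : ℝ in atTop, (T1 ≤ T ∧ 2 * Real.pi ≤ T) ∧
      (16 ≤ Real.log T ∧ 2000 * l0 ≤ Real.log T ∧ 2000 * l1 ≤ Real.log T) ∧
      (Real.exp 2 * (CA * D) * K * 2000 ≤ δ / 3 * Real.log T) ∧
      C * D * T ^ (-(1/4) : ℝ) ≤ δ / 3 := by
    refine Filter.Eventually.and ?_ (Filter.Eventually.and ?_ (Filter.Eventually.and ?_ ?_))
    · exact (eventually_ge_atTop T1).and (eventually_ge_atTop _)
    · exact (Real.tendsto_log_atTop.eventually_ge_atTop _).and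
        ((Real.tendsto_log_atTop.eventually_ge_atTop _).and
          (Real.tendsto_log_atTop.eventually_ge_atTop _))
    · filter_upwards [Real.tendsto_log_atTop.eventually_ge_atTop
        ((Real.exp 2 * (CA * D) * K * 2000) / (δ / 3))] with T hT
      rw [div_le_iff₀ (by positivity)] at hT
      linarith
    · have h1 : Tendsto (fun T : ℝ => C * D * T ^ (-(1/4) : ℝ)) atTop (𝓝 (C * D * 0)) :=
        (tendsto_rpow_neg_atTop (by norm_num)).const_mul _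
      rw [mul_zero] at h1
      exact (h1.eventually_le_const (by positivity))
  obtain ⟨T0, hT0⟩ := Filter.eventually_atTop.mp hev
  refine ⟨max T0 2, le_max_right _ _, ?_⟩
  intro T hT l hl hl' σ hσ
  obtain ⟨⟨hT1', hTpi⟩, ⟨hL16, hLl0, hLl1⟩, hLK, hTC⟩ := hT0 T ((le_max_left _ _).trans hT)
  have hL : 0 < Real.log T := by linarith
  have hl00 : 0 < l := by linarith
  obtain ⟨α, hα⟩ : ∃ α : ℂ, α = (σ : ℂ) + u1 * I := ⟨_, rfl⟩
  obtain ⟨β, hβ⟩ : ∃ β : ℂ, β = (σ : ℂ) - u2 * I := ⟨_, rfl⟩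
  have hαre : α.re = σ := by rw [hα]; simp
  have hαim : α.im = u1 := by rw [hα]; simp
  have hβre : β.re = σ := by rw [hβ]; simp
  have hβim : β.im = -u2 := by rw [hβ]; simp
  have hηre : (α + β).re = 2 * σ := by rw [Complex.add_re, hαre, hβre]; ring
  have hηim : (α + β).im = u1 - u2 := by rw [Complex.add_im, hαim, hβim]; ring
  have hη0 : α + β ≠ 0 := by
    intro h0
    rw [h0, Complex.zero_im] at hηim
    exact sub_ne_zero.mpr h hηim.symm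
  have hfun : (fun t : ℝ => FF l (1/2 + σ + (t + u1) * I) * conj (FF l (1/2 + σ + (t + u2) * I))) =
      XX ![1, 0, 1, 0] l α β ![α, 0, β, 0] := by
    funext t
    rw [hα, hβ]
    exact (conj_facts.2.2.2 l hl00 σ u1 u2 t).symm
  rw [hfun]
  have hσ16 : |σ| ≤ 1 / 16 := hσ.trans (by
    rw [div_le_div_iff₀ hL (by norm_num)]
    linarith)
  have hm := hmaster T hT1' l hl00 hl' ![1, 0, 1, 0] (by
    intro j
    fin_cases j <;> simp) α β ![α, 0, β, 0] (by rw [hαre]; exact hσ16) (by rw [hβre]; exact hσ16)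
    (by rw [hαim]; exact le_max_left _ _) (by rw [hβim, abs_neg]; exact le_max_right _ _) (by
    intro j
    fin_cases j
    · show |α.re| ≤ 1 / 16
      rw [hαre]
      exact hσ16
    · show |(0 : ℂ).re| ≤ 1 / 16
      norm_num
    · show |β.re| ≤ 1 / 16
      rw [hβre]
      exact hσ16
    · show |(0 : ℂ).re| ≤ 1 / 16
      norm_num) hη0
  have hre8 : |(α + β).re| ≤ 1 / (8 * l) := by
    rw [hηre, abs_mul, abs_two]
    calc 2 * |σ| ≤ 2 * (1 / Real.log T) := by linarith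
      _ ≤ 1 / (8 * l) := by
        rw [mul_one_div, div_le_div_iff₀ hL (by positivity)]
        linarith
  have h1 := hlim l (by linarith) (α + β) hre8 hηim
    ![(![α, 0, β, 0] : Fin 4 → ℂ) 0 + β, (![α, 0, β, 0] : Fin 4 → ℂ) 1 + β,
      (![α, 0, β, 0] : Fin 4 → ℂ) 2 + α, (![α, 0, β, 0] : Fin 4 → ℂ) 3 + α] rfl (add_comm _ _)
  have h2 := hmu l (by linarith)
    ![(![α, 0, β, 0] : Fin 4 → ℂ) 0 - α, (![α, 0, β, 0] : Fin 4 → ℂ) 1 - α,
      (![α, 0, β, 0] : Fin 4 → ℂ) 2 - β, (![α, 0, β, 0] : Fin 4 → ℂ) 3 - β] (-(α + β)) (by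
      show ‖α - α‖ ≤ _
      rw [sub_self, norm_zero]
      positivity) (by
      show ‖β - β‖ ≤ _
      rw [sub_self, norm_zero]
      positivity) (by
      rw [Complex.neg_re, abs_neg]
      exact hre8)
  have hnorm : |u1 - u2| ≤ ‖α + β‖ := by
    rw [← hηim]
    exact Complex.abs_im_le_norm _
  have hDη : 1 + 1 / ‖α + β‖ ≤ D := by
    rw [hD]
    have := one_div_le_one_div_of_le hu hnorm
    linarith
  have h3 := (hzA (α + β) (by
    rw [hηre, abs_mul, abs_two]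
    linarith) (by rw [hηim]) hη0).2
  have h4 : ‖Ac (α + β)‖ ≤ CA * D := h3.trans (mul_le_mul_of_nonneg_left hDη hCA.le)
  have h5 : ‖((2 * Real.pi / T : ℝ) : ℂ) ^ (α + β)‖ ≤ Real.exp 2 := M10_pow hTpi (by
    rw [hηre, abs_mul, abs_two]
    calc 2 * |σ| ≤ 2 * (1 / Real.log T) := by linarith
      _ = 2 / Real.log T := by ring)
  obtain ⟨Q1, hQ1⟩ : ∃ Q1, Q1 = riemannZeta (1 + (α + β)) * QQ ⌊Real.exp l⌋₊ ![1, 0, 1, 0] l
    ![(![α, 0, β, 0] : Fin 4 → ℂ) 0 + β, (![α, 0, β, 0] : Fin 4 → ℂ) 1 + β,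
      (![α, 0, β, 0] : Fin 4 → ℂ) 2 + α, (![α, 0, β, 0] : Fin 4 → ℂ) 3 + α] (α + β) := ⟨_, rfl⟩
  obtain ⟨Q2, hQ2⟩ : ∃ Q2, Q2 = QQ ⌊Real.exp l⌋₊ ![1, 0, 1, 0] l
    ![(![α, 0, β, 0] : Fin 4 → ℂ) 0 - α, (![α, 0, β, 0] : Fin 4 → ℂ) 1 - α,
      (![α, 0, β, 0] : Fin 4 → ℂ) 2 - β, (![α, 0, β, 0] : Fin 4 → ℂ) 3 - β] (-(α + β)) :=
    ⟨_, rfl⟩
  rw [← hQ1] at h1 hm
  rw [← hQ2] at h2 hm
  have h6 : ‖((2 * Real.pi / T : ℝ) : ℂ) ^ (α + β) * Ac (α + β) * Q2‖ ≤ δ / 3 := by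
    rw [norm_mul, norm_mul]
    have h7 : K / l ≤ K * 2000 / Real.log T := by
      rw [div_le_div_iff₀ hl00 hL]
      nlinarith
    calc ‖((2 * Real.pi / T : ℝ) : ℂ) ^ (α + β)‖ * ‖Ac (α + β)‖ * ‖Q2‖
        ≤ Real.exp 2 * (CA * D) * (K * 2000 / Real.log T) := by
          refine mul_le_mul (mul_le_mul h5 h4 (norm_nonneg _) (Real.exp_pos 2).le) (h2.trans h7)
            (norm_nonneg _) (by positivity)
      _ = (Real.exp 2 * (CA * D) * K * 2000) / Real.log T := by ring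
      _ ≤ δ / 3 := by
          rw [div_le_iff₀ hL]
          exact hLK
  have h8 : C * (1 + 1 / ‖α + β‖) * T ^ (-(1/4) : ℝ) ≤ δ / 3 := by
    refine le_trans ?_ hTC
    refine mul_le_mul_of_nonneg_right ?_ (Real.rpow_nonneg (by linarith [Real.pi_pos]) _)
    exact mul_le_mul_of_nonneg_left hDη hC.le
  have h9 := hm.trans h8
  obtain ⟨E, hE⟩ : ∃ E, E = EE T (XX ![1, 0, 1, 0] l α β ![α, 0, β, 0]) := ⟨_, rfl⟩
  rw [← hE] at h9 ⊢
  obtain ⟨R, hR⟩ : ∃ R, R = ((2 * Real.pi / T : ℝ) : ℂ) ^ (α + β) * Ac (α + β) * Q2 := ⟨_, rfl⟩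
  rw [← hR] at h9 h6
  calc ‖E - 1‖ = ‖(E - (Q1 + R)) + (Q1 - 1) + R‖ := by
        congr 1
        ring
    _ ≤ ‖(E - (Q1 + R)) + (Q1 - 1)‖ + ‖R‖ := norm_add_le _ _
    _ ≤ ‖E - (Q1 + R)‖ + ‖Q1 - 1‖ + ‖R‖ := add_le_add (norm_add_le _ _) le_rfl
    _ ≤ δ / 3 + δ / 3 + δ / 3 := add_le_add (add_le_add h9 h1) h6
    _ = δ := by ring

end LZ
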