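import Pool.Agent.Lib.MP_0f5a55_nt.D0
import Pool.Agent.Lib.MP_0f5a55_nt.M09
import Pool.Agent.Lib.MP_0f5a55_nt.M10
import Pool.Agent.Lib.MP_0f5a55_nt.M11
import Pool.Agent.Lib.MP_0f5a55_nt.M03
import Pool.Agent.Lib.MP_0f5a55_nt.A03

open Complex MeasureTheory Set Filter Topology
open scoped ComplexConjugate

namespace LZ

/-! ### integrability -/

private theorem G03_exp (T : ℝ) (hT : 0 < T) (t : ℝ) (ht : 0 ≤ t) :
    (1 + t) ^ 2 * Real.exp (-t / T) ≤ (4 * (1 + T)) ^ 2 * Real.exp (-(1 / (2 * T)) * t) := by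
  have e1 : Real.exp (-t / T) = Real.exp (-(1 / (4 * T)) * t) ^ 2 * Real.exp (-(1 / (2 * T)) * t) := by
    rw [← Real.exp_nat_mul, ← Real.exp_add]
    congr 1
    push_cast
    field_simp
    ring
  have e2 : (1 + t) * Real.exp (-(1 / (4 * T)) * t) ≤ 4 * (1 + T) := by
    have h1 : 1 + t ≤ 4 * (1 + T) * Real.exp (1 / (4 * T) * t) := by
      have := Real.add_one_le_exp (1 / (4 * T) * t)
      have h2 : 4 * (1 + T) * (1 / (4 * T) * t + 1) ≤ 4 * (1 + T) * Real.exp (1 / (4 * T) * t) := by
        gcongr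
      have h3 : 4 * (1 + T) * (1 / (4 * T) * t + 1) = t / T + t + 4 * (1 + T) := by
        field_simp
      have h4 : 0 ≤ t / T := by positivity
      linarith
    calc (1 + t) * Real.exp (-(1 / (4 * T)) * t)
        ≤ (4 * (1 + T) * Real.exp (1 / (4 * T) * t)) * Real.exp (-(1 / (4 * T)) * t) := by
          gcongr
      _ = 4 * (1 + T) := by
          rw [mul_assoc, ← Real.exp_add]
          have : 1 / (4 * T) * t + -(1 / (4 * T)) * t = 0 := by ring
          rw [this, Real.exp_zero, mul_one]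
  calc (1 + t) ^ 2 * Real.exp (-t / T)
      = ((1 + t) * Real.exp (-(1 / (4 * T)) * t)) ^ 2 * Real.exp (-(1 / (2 * T)) * t) := by
        rw [e1]; ring
    _ ≤ _ := by
        have : 0 ≤ (1 + t) * Real.exp (-(1 / (4 * T)) * t) := by positivity
        gcongr

/-- integrability against the exponential weight -/
private def IE (T : ℝ) (f : ℝ → ℂ) : Prop :=
  IntegrableOn (fun t : ℝ => f t * (Real.exp (-t / T) : ℂ)) (Ioi 0)

private theorem G03_IE (T : ℝ) (hT : 0 < T) (f : ℝ → ℂ) (hf : Continuous f) (K : ℝ)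
    (hb : ∀ t : ℝ, ‖f t‖ ≤ K * (1 + |t|) ^ 2) : IE T f := by
  have hK : 0 ≤ K := by
    have := hb 0
    simp at this
    exact le_trans (norm_nonneg _) this
  unfold IE
  refine Integrable.mono' ((exp_neg_integrableOn_Ioi 0 (by positivity :
    (0 : ℝ) < 1 / (2 * T))).const_mul (K * (4 * (1 + T)) ^ 2)) ?_ ?_
  · exact (by fun_prop : Continuous (fun t : ℝ =>
      f t * (Real.exp (-t / T) : ℂ))).aestronglyMeasurable
  · refine ae_restrict_of_forall_mem measurableSet_Ioi ?_
    intro t ht
    have ht' : (0 : ℝ) < t := ht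
    rw [norm_mul, Complex.norm_real, Real.norm_eq_abs, abs_of_pos (Real.exp_pos _)]
    have h1 := hb t
    rw [abs_of_pos ht'] at h1
    calc ‖f t‖ * Real.exp (-t / T) ≤ (K * (1 + t) ^ 2) * Real.exp (-t / T) := by gcongr
      _ = K * ((1 + t) ^ 2 * Real.exp (-t / T)) := by ring
      _ ≤ K * ((4 * (1 + T)) ^ 2 * Real.exp (-(1 / (2 * T)) * t)) := by
          gcongr K * ?_
          exact G03_exp T hT t ht'.le
      _ = _ := by ring

private theorem G03_EE_add (T : ℝ) (f g : ℝ → ℂ) (hf : IE T f) (hg : IE T g) :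
    EE T (fun t => f t + g t) = EE T f + EE T g ∧ IE T (fun t => f t + g t) := by
  have e : (fun t : ℝ => (f t + g t) * (Real.exp (-t / T) : ℂ)) =
      fun t : ℝ => f t * (Real.exp (-t / T) : ℂ) + g t * (Real.exp (-t / T) : ℂ) := by
    funext t; ring
  constructor
  · unfold EE
    rw [e, integral_add hf hg, mul_add]
  · unfold IE
    rw [e]
    exact hf.add hg

private theorem G03_EE_sub (T : ℝ) (f g : ℝ → ℂ) (hf : IE T f) (hg : IE T g) :
    EE T (fun t => f t - g t) = EE T f - EE T g ∧ IE T (fun t => f t - g t) := by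
  have e : (fun t : ℝ => (f t - g t) * (Real.exp (-t / T) : ℂ)) =
      fun t : ℝ => f t * (Real.exp (-t / T) : ℂ) - g t * (Real.exp (-t / T) : ℂ) := by
    funext t; ring
  constructor
  · unfold EE
    rw [e, integral_sub hf hg, mul_sub]
  · unfold IE
    rw [e]
    exact hf.sub hg

private theorem G03_EE_sum {ι : Type} (T : ℝ) (s : Finset ι) (f : ι → ℝ → ℂ)
    (hf : ∀ i ∈ s, IE T (f i)) :
    EE T (fun t => ∑ i ∈ s, f i t) = ∑ i ∈ s, EE T (f i) := by
  have e : (fun t : ℝ => (∑ i ∈ s, f i t) * (Real.exp (-t / T) : ℂ)) =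
      fun t : ℝ => ∑ i ∈ s, f i t * (Real.exp (-t / T) : ℂ) := by
    funext t; rw [Finset.sum_mul]
  unfold EE
  rw [e, integral_finsetSum s hf, Finset.mul_sum]

private theorem G03_EE_conj (T : ℝ) (f : ℝ → ℂ) :
    EE T (fun t => conj (f t)) = conj (EE T f) := by
  unfold EE
  rw [map_mul, ← integral_conj]
  congr 1
  · simp
  · refine integral_congr_ae (Filter.Eventually.of_forall ?_)
    intro t
    simp only
    rw [map_mul, Complex.conj_ofReal]

private theorem G03_ER_EE (T : ℝ) (f : ℝ → ℝ) : ((ER T f : ℝ) : ℂ) = EE T (fun t => (f t : ℂ)) := by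
  unfold ER EE
  rw [Complex.ofReal_mul, Complex.ofReal_inv, ← integral_complex_ofReal]
  congr 1
  refine integral_congr_ae (Filter.Eventually.of_forall ?_)
  intro t
  simp

private theorem G03_one (T : ℝ) (hT : 0 < T) : EE T (fun _ => 1) = 1 := by
  have h := G03_ER_EE T (fun _ => 1)
  simp only [Complex.ofReal_one] at h
  rw [← h]
  have h2 : ER T (fun _ => 1) = 1 := by
    unfold ER
    have h3 := integral_exp_mul_Ioi (a := -(1 / T)) (by
      have : 0 < 1 / T := by positivity
      linarith) 0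
    have h4 : ∫ t in Ioi (0 : ℝ), (1 : ℝ) * Real.exp (-t / T) =
        ∫ t in Ioi (0 : ℝ), Real.exp (-(1 / T) * t) := by
      refine integral_congr_ae (Filter.Eventually.of_forall ?_)
      intro t
      simp only [one_mul]
      congr 1
      ring
    rw [h4, h3]
    simp
    field_simp
  rw [h2]
  simp

/-! ### the shift of the mean -/

private theorem G03_shift (g : ℝ → ℝ) (hg : Continuous g) (hg0 : ∀ t, 0 ≤ g t) (T u K B : ℝ)
    (hT : 0 < T) (hb : ∀ t : ℝ, g t ≤ K * (1 + |t|) ^ 2)
    (hB : ∀ t : ℝ, |t| ≤ |u| → g t ≤ B) (hB0 : 0 ≤ B) :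
    ER T (fun t => g (t + u)) ≤ Real.exp (|u| / T) * ER T g + T⁻¹ * (|u| * B) := by
  have hint : ∀ w : ℝ, IntegrableOn (fun t : ℝ => g t * Real.exp (-t / T)) (Ioi w) := by
    intro w
    have h0 : IntegrableOn (fun t : ℝ => g t * Real.exp (-t / T)) (Ioi 0) := by
      have h := G03_IE T hT (fun t => (g t : ℂ)) (by fun_prop) K (by
        intro t
        rw [Complex.norm_real, Real.norm_eq_abs, abs_of_nonneg (hg0 t)]
        exact hb t)
      unfold IE at h
      have h2 := h.re
      refine h2.congr (Filter.Eventually.of_forall ?_)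
      intro t
      simp only
      rw [← Complex.ofReal_mul]
      exact Complex.ofReal_re _
    have h1 : IntegrableOn (fun t : ℝ => g t * Real.exp (-t / T)) (Icc w 0) :=
      (by fun_prop : Continuous (fun t : ℝ => g t * Real.exp (-t / T))).integrableOn_Icc
    refine (h1.union h0).mono_set ?_
    intro t ht
    rcases le_or_gt t 0 with h | h
    · exact Or.inl ⟨(mem_Ioi.1 ht).le, h⟩
    · exact Or.inr h
  have hsh : ∫ t in Ioi (0 : ℝ), g (t + u) * Real.exp (-t / T) =
      ∫ t in Ioi u, g t * Real.exp (-(t - u) / T) := by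
    have h := (measurePreserving_add_right (volume : Measure ℝ) u).setIntegral_preimage_emb
      (measurableEmbedding_addRight u) (fun t => g t * Real.exp (-(t - u) / T)) (Ioi u)
    have h2 : (fun x : ℝ => x + u) ⁻¹' (Ioi u) = Ioi 0 := by
      ext x
      simp
    rw [h2] at h
    rw [← h]
    refine integral_congr_ae (Filter.Eventually.of_forall ?_)
    intro t
    simp
  have hfac : ∀ t : ℝ, g t * Real.exp (-(t - u) / T) =
      Real.exp (u / T) * (g t * Real.exp (-t / T)) := by
    intro t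
    have : Real.exp (-(t - u) / T) = Real.exp (u / T) * Real.exp (-t / T) := by
      rw [← Real.exp_add]
      congr 1
      ring
    rw [this]
    ring
  have hER : ER T g = T⁻¹ * ∫ t in Ioi (0 : ℝ), g t * Real.exp (-t / T) := rfl
  have hI0 : 0 ≤ ∫ t in Ioi (0 : ℝ), g t * Real.exp (-t / T) :=
    integral_nonneg (fun t => mul_nonneg (hg0 t) (Real.exp_pos _).le)
  have key : ∫ t in Ioi u, g t * Real.exp (-(t - u) / T) ≤
      Real.exp (|u| / T) * (∫ t in Ioi (0 : ℝ), g t * Real.exp (-t / T)) + |u| * B := by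
    rcases le_or_gt 0 u with hu | hu
    · have h1 : ∫ t in Ioi u, g t * Real.exp (-(t - u) / T) =
          Real.exp (u / T) * ∫ t in Ioi u, g t * Real.exp (-t / T) := by
        rw [← integral_const_mul]
        refine integral_congr_ae (Filter.Eventually.of_forall ?_)
        intro t
        exact hfac t
      rw [h1, abs_of_nonneg hu]
      have h2 : ∫ t in Ioi u, g t * Real.exp (-t / T) ≤
          ∫ t in Ioi (0 : ℝ), g t * Real.exp (-t / T) := by
        refine setIntegral_mono_set (hint 0) ?_ ?_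
        · exact Filter.Eventually.of_forall (fun t => mul_nonneg (hg0 t) (Real.exp_pos _).le)
        · exact (Ioi_subset_Ioi hu).eventuallyLE
      have h3 : Real.exp (u / T) * ∫ t in Ioi u, g t * Real.exp (-t / T) ≤
          Real.exp (u / T) * ∫ t in Ioi (0 : ℝ), g t * Real.exp (-t / T) := by gcongr
      have h4 : 0 ≤ u * B := by positivity
      linarith
    · have hi : IntegrableOn (fun t : ℝ => g t * Real.exp (-(t - u) / T)) (Ioi u) := by
        have h := (hint u).const_mul (Real.exp (u / T))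
        refine h.congr (Filter.Eventually.of_forall ?_)
        intro t
        exact (hfac t).symm
      have hsplit : ∫ t in Ioi u, g t * Real.exp (-(t - u) / T) =
          (∫ t in Ioc u 0, g t * Real.exp (-(t - u) / T)) +
            ∫ t in Ioi (0 : ℝ), g t * Real.exp (-(t - u) / T) := by
        rw [← setIntegral_union (Ioc_disjoint_Ioi le_rfl) measurableSet_Ioi
          (hi.mono_set Ioc_subset_Ioi_self) (hi.mono_set (Ioi_subset_Ioi hu.le)),
          Ioc_union_Ioi_eq_Ioi hu.le]
      have h1 : ∫ t in Ioc u 0, g t * Real.exp (-(t - u) / T) ≤ |u| * B := by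
        calc ∫ t in Ioc u 0, g t * Real.exp (-(t - u) / T) ≤ ∫ t in Ioc u 0, B := by
              refine setIntegral_mono_on (hi.mono_set Ioc_subset_Ioi_self)
                (integrableOn_const (by simp)) measurableSet_Ioc ?_
              intro t ht
              have he : Real.exp (-(t - u) / T) ≤ 1 := by
                apply Real.exp_le_one_iff.2
                have : 0 ≤ (t - u) / T := div_nonneg (by linarith [ht.1]) hT.le
                rw [neg_div]
                linarith
              have hgt : g t ≤ B := by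
                apply hB
                rw [abs_of_nonpos ht.2, abs_of_neg hu]
                linarith [ht.1]
              calc g t * Real.exp (-(t - u) / T) ≤ B * 1 :=
                    mul_le_mul hgt he (Real.exp_pos _).le hB0
                _ = B := mul_one _
          _ = |u| * B := by
              rw [setIntegral_const, abs_of_neg hu]
              simp [hu.le]
      have h2 : ∫ t in Ioi (0 : ℝ), g t * Real.exp (-(t - u) / T) ≤
          Real.exp (|u| / T) * ∫ t in Ioi (0 : ℝ), g t * Real.exp (-t / T) := by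
        have h3 : ∫ t in Ioi (0 : ℝ), g t * Real.exp (-(t - u) / T) =
            Real.exp (u / T) * ∫ t in Ioi (0 : ℝ), g t * Real.exp (-t / T) := by
          rw [← integral_const_mul]
          refine integral_congr_ae (Filter.Eventually.of_forall ?_)
          intro t
          exact hfac t
        rw [h3]
        refine mul_le_mul_of_nonneg_right ?_ hI0
        apply Real.exp_le_exp.2
        gcongr
        exact le_abs_self u
      linarith
  have e0 : ER T (fun t => g (t + u)) = T⁻¹ * ∫ t in Ioi (0 : ℝ), g (t + u) * Real.exp (-t / T) := rfl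
  rw [e0, hsh, hER]
  calc T⁻¹ * ∫ t in Ioi u, g t * Real.exp (-(t - u) / T)
      ≤ T⁻¹ * (Real.exp (|u| / T) * (∫ t in Ioi (0 : ℝ), g t * Real.exp (-t / T)) + |u| * B) := by
        gcongr
    _ = _ := by ring

/-! ### the mollified zeta function -/

private theorem G03_nS (z : ℕ) (S : Finset ℕ) (hS : S ∈ (PP z).powerset) : 0 < nS S := by
  unfold nS
  apply Finset.prod_pos
  intro p hp
  have := Finset.mem_powerset.1 hS hp
  unfold PP at this
  exact (Finset.mem_filter.1 this).2.pos

private theorem G03_Mol (l : ℝ) (hl : 0 < l) (s : ℂ) (hs : 0 ≤ s.re) : ‖Mol 1 l s‖ ≤ Real.exp l := by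
  obtain ⟨-, -, h3⟩ := cf_sum 1 l (by norm_num) le_rfl hl ⌊Real.exp l⌋₊
  refine le_trans ?_ h3
  unfold Mol
  refine le_trans (norm_sum_le _ _) ?_
  apply Finset.sum_le_sum
  intro S hS
  rw [norm_mul, Complex.norm_real, Real.norm_eq_abs]
  have hpos := G03_nS _ S hS
  rw [Complex.norm_natCast_cpow_of_pos hpos]
  have h1 : ((nS S : ℕ) : ℝ) ^ (-s).re ≤ 1 := by
    apply Real.rpow_le_one_of_one_le_of_nonpos
    · exact_mod_cast hpos
    · simp [hs]
  calc |cf 1 l S| * ((nS S : ℕ) : ℝ) ^ (-s).re ≤ |cf 1 l S| * 1 := by gcongr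
    _ = _ := mul_one _

private theorem G03_FF (l σ : ℝ) (hσ : |σ| ≤ 1 / 8) (u : ℝ) :
    Continuous (fun t : ℝ => FF l (1/2 + σ + (t + u) * I)) := by
  unfold FF
  have hσ' := abs_le.1 hσ
  have hre : ∀ t : ℝ, ((1/2 : ℂ) + σ + (t + u) * I).re = 1 / 2 + σ := by
    intro t
    simp
  have hc : Continuous (fun t : ℝ => (1/2 : ℂ) + σ + (t + u) * I) := by fun_prop
  refine Continuous.mul ?_ ?_
  · rw [continuous_iff_continuousAt]
    intro t
    have hne : (1/2 : ℂ) + σ + (t + u) * I ≠ 1 := by
      intro h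
      have := congrArg Complex.re h
      rw [hre] at this
      simp at this
      linarith
    exact ContinuousAt.comp (f := fun t : ℝ => (1/2 : ℂ) + σ + (t + u) * I) (g := riemannZeta)
      (differentiableAt_riemannZeta hne).continuousAt hc.continuousAt
  · unfold Mol
    apply continuous_finsetSum
    intro S hS
    refine Continuous.mul continuous_const ?_
    refine Continuous.const_cpow hc.neg ?_
    left
    have := G03_nS _ S hS
    exact_mod_cast this.ne'

private theorem G03_FFb (Cz : ℝ) (hCz : 0 < Cz)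
    (hz : ∀ s : ℂ, 5/16 ≤ s.re → 1/4 ≤ ‖s - 1‖ → ‖riemannZeta s‖ ≤ Cz * (1 + |s.im|))
    (l : ℝ) (hl : 0 < l) (σ : ℝ) (hσ : |σ| ≤ 1 / 8) (u : ℝ) (t : ℝ) :
    ‖FF l (1/2 + σ + (t + u) * I)‖ ≤ Cz * Real.exp l * (1 + |t + u|) := by
  unfold FF
  have hσ' := abs_le.1 hσ
  have hre : ((1/2 : ℂ) + σ + (t + u) * I).re = 1 / 2 + σ := by
    simp
  have him : ((1/2 : ℂ) + σ + (t + u) * I).im = t + u := by
    simp
  rw [norm_mul]
  have h1 := hz ((1/2 : ℂ) + σ + (t + u) * I) (by rw [hre]; linarith) (by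
    have h := Complex.abs_re_le_norm ((1/2 : ℂ) + σ + (t + u) * I - 1)
    rw [Complex.sub_re, hre, Complex.one_re] at h
    refine le_trans ?_ h
    rw [abs_of_neg (by linarith)]
    linarith)
  rw [him] at h1
  have h2 := G03_Mol l hl ((1/2 : ℂ) + σ + (t + u) * I) (by rw [hre]; linarith)
  calc _ ≤ (Cz * (1 + |t + u|)) * Real.exp l := by
        apply mul_le_mul h1 h2 (norm_nonneg _) (by positivity)
    _ = _ := by ring

private theorem G03_growth (K : ℝ) (hK : 0 ≤ K) (u t : ℝ) :
    K * (1 + |t + u|) ≤ K * (1 + |u|) * (1 + |t|) := by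
  have := abs_add_le t u
  have h2 : 1 + |t + u| ≤ (1 + |u|) * (1 + |t|) := by
    nlinarith [abs_nonneg t, abs_nonneg u, mul_nonneg (abs_nonneg t) (abs_nonneg u)]
  calc K * (1 + |t + u|) ≤ K * ((1 + |u|) * (1 + |t|)) := by gcongr
    _ = _ := by ring

/-! ### abstract second moment -/

/-- abstract form: functions of linear growth -/
private theorem G03_abstract (T : ℝ) (hT : 0 < T) (m : ℕ) (f : ℕ → ℝ → ℂ) (K : ℝ)
    (hf : ∀ j, j < m → Continuous (f j)) (hK : ∀ j, j < m → ∀ t : ℝ, ‖f j t‖ ≤ K * (1 + |t|))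
    (δ D : ℝ) (hδ : 0 ≤ δ)
    (hcross : ∀ j, j < m → ∀ k, k < m → j ≠ k → ‖EE T (fun t => f j t * conj (f k t)) - 1‖ ≤ δ)
    (hfirst : ∀ j, j < m → ‖EE T (f j) - 1‖ ≤ δ)
    (hsec : ∀ j, j < m → ER T (fun t => ‖f j t‖ ^ 2) ≤ D) :
    ER T (fun t => ‖(∑ j ∈ Finset.range m, f j t) - m‖ ^ 2) ≤ m ^ 2 * (3 * δ) + m * (D + 1) := by
  have hIf : ∀ j, j < m → IE T (f j) := by
    intro j hj
    refine G03_IE T hT (f j) (hf j hj) K (fun t => ?_)
    have h1 := hK j hj t
    have hK0 : 0 ≤ K := by
      have := hK j hj 0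
      simp at this
      exact le_trans (norm_nonneg _) this
    calc ‖f j t‖ ≤ K * (1 + |t|) := h1
      _ ≤ K * (1 + |t|) ^ 2 := by
          have : 1 ≤ 1 + |t| := by linarith [abs_nonneg t]
          gcongr
          nlinarith
  have hIfc : ∀ j, j < m → IE T (fun t => conj (f j t)) := by
    intro j hj
    refine G03_IE T hT _ (continuous_conj.comp (hf j hj)) K (fun t => ?_)
    have h1 := hK j hj t
    have hK0 : 0 ≤ K := by
      have := hK j hj 0
      simp at this
      exact le_trans (norm_nonneg _) this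
    rw [RCLike.norm_conj]
    calc ‖f j t‖ ≤ K * (1 + |t|) := h1
      _ ≤ K * (1 + |t|) ^ 2 := by
          have : 1 ≤ 1 + |t| := by linarith [abs_nonneg t]
          gcongr
          nlinarith
  have hIff : ∀ j, j < m → ∀ k, k < m → IE T (fun t => f j t * conj (f k t)) := by
    intro j hj k hk
    refine G03_IE T hT _ ((hf j hj).mul (continuous_conj.comp (hf k hk))) (K * K) (fun t => ?_)
    have h1 := hK j hj t
    have h2 := hK k hk t
    rw [norm_mul, RCLike.norm_conj]
    calc ‖f j t‖ * ‖f k t‖ ≤ (K * (1 + |t|)) * (K * (1 + |t|)) :=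
          mul_le_mul h1 h2 (norm_nonneg _) (le_trans (norm_nonneg _) h1)
      _ = _ := by ring
  have hI1 : IE T (fun _ => 1) := by
    refine G03_IE T hT _ continuous_const 1 (fun t => ?_)
    rw [norm_one, one_mul]
    have : 1 ≤ 1 + |t| := by linarith [abs_nonneg t]
    nlinarith
  -- centred products
  have hg : ∀ j, j < m → ∀ k, k < m →
      EE T (fun t => (f j t - 1) * conj (f k t - 1)) =
        (EE T (fun t => f j t * conj (f k t)) - 1) - (EE T (f j) - 1) - conj (EE T (f k) - 1) ∧
      IE T (fun t => (f j t - 1) * conj (f k t - 1)) := by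
    intro j hj k hk
    have e : (fun t => (f j t - 1) * conj (f k t - 1)) =
        fun t => (f j t * conj (f k t) - f j t) - (conj (f k t) - 1) := by
      funext t
      rw [map_sub, map_one]
      ring
    have a1 := G03_EE_sub T _ _ (hIff j hj k hk) (hIf j hj)
    have a2 := G03_EE_sub T _ _ (hIfc k hk) hI1
    have a3 := G03_EE_sub T _ _ a1.2 a2.2
    rw [e]
    refine ⟨?_, a3.2⟩
    rw [a3.1, a1.1, a2.1, G03_EE_conj, G03_one T hT, map_sub, map_one]
    ring
  have hexp : ∀ t : ℝ, ((‖(∑ j ∈ Finset.range m, f j t) - m‖ ^ 2 : ℝ) : ℂ) =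
      ∑ p ∈ (Finset.range m) ×ˢ (Finset.range m), (f p.1 t - 1) * conj (f p.2 t - 1) := by
    intro t
    have e1 : (∑ j ∈ Finset.range m, f j t) - m = ∑ j ∈ Finset.range m, (f j t - 1) := by
      rw [Finset.sum_sub_distrib]
      simp
    rw [e1, Finset.sum_product, Complex.ofReal_pow, ← Complex.mul_conj', map_sum, Finset.sum_mul_sum]
  have hC : ((ER T (fun t => ‖(∑ j ∈ Finset.range m, f j t) - m‖ ^ 2) : ℝ) : ℂ) =
      ∑ p ∈ (Finset.range m) ×ˢ (Finset.range m),
        EE T (fun t => (f p.1 t - 1) * conj (f p.2 t - 1)) := by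
    rw [G03_ER_EE, ← G03_EE_sum]
    · congr 1
      funext t
      exact hexp t
    · intro p hp
      rw [Finset.mem_product, Finset.mem_range, Finset.mem_range] at hp
      exact (hg p.1 hp.1 p.2 hp.2).2
  -- bounds of the terms
  have hterm : ∀ p ∈ (Finset.range m) ×ˢ (Finset.range m),
      ‖EE T (fun t => (f p.1 t - 1) * conj (f p.2 t - 1))‖ ≤
        3 * δ + (if p.1 = p.2 then D + 1 else 0) := by
    intro p hp
    rw [Finset.mem_product, Finset.mem_range, Finset.mem_range] at hp
    have h := (hg p.1 hp.1 p.2 hp.2).1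
    have hf1 := hfirst p.1 hp.1
    have hf2 := hfirst p.2 hp.2
    have hcj : ‖conj (EE T (f p.2) - 1)‖ ≤ δ := by
      rw [RCLike.norm_conj]
      exact hf2
    by_cases hjk : p.1 = p.2
    · rw [if_pos hjk, h]
      have hD : ‖EE T (fun t => f p.1 t * conj (f p.2 t))‖ ≤ D := by
        have e1 : EE T (fun t => f p.1 t * conj (f p.2 t)) =
            ((ER T (fun t => ‖f p.1 t‖ ^ 2) : ℝ) : ℂ) := by
          rw [G03_ER_EE]
          congr 1
          funext t
          rw [← hjk, Complex.ofReal_pow, Complex.mul_conj']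
        rw [e1, Complex.norm_real, Real.norm_eq_abs, abs_of_nonneg]
        · exact hsec p.1 hp.1
        · unfold ER
          refine mul_nonneg (inv_nonneg.2 hT.le) (integral_nonneg (fun t => ?_))
          exact mul_nonneg (sq_nonneg _) (Real.exp_pos _).le
      calc _ ≤ ‖EE T (fun t => f p.1 t * conj (f p.2 t)) - 1 - (EE T (f p.1) - 1)‖ +
            ‖conj (EE T (f p.2) - 1)‖ := norm_sub_le _ _
        _ ≤ (‖EE T (fun t => f p.1 t * conj (f p.2 t)) - 1‖ + ‖EE T (f p.1) - 1‖) +
            ‖conj (EE T (f p.2) - 1)‖ := by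
            gcongr
            exact norm_sub_le _ _
        _ ≤ ((‖EE T (fun t => f p.1 t * conj (f p.2 t))‖ + ‖(1 : ℂ)‖) + ‖EE T (f p.1) - 1‖) +
            ‖conj (EE T (f p.2) - 1)‖ := by
            gcongr
            exact norm_sub_le _ _
        _ ≤ 3 * δ + (D + 1) := by
            rw [norm_one]
            linarith
    · rw [if_neg hjk, h, add_zero]
      have hc := hcross p.1 hp.1 p.2 hp.2 hjk
      calc _ ≤ ‖EE T (fun t => f p.1 t * conj (f p.2 t)) - 1 - (EE T (f p.1) - 1)‖ +
            ‖conj (EE T (f p.2) - 1)‖ := norm_sub_le _ _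
        _ ≤ (‖EE T (fun t => f p.1 t * conj (f p.2 t)) - 1‖ + ‖EE T (f p.1) - 1‖) +
            ‖conj (EE T (f p.2) - 1)‖ := by
            gcongr
            exact norm_sub_le _ _
        _ ≤ 3 * δ := by linarith
  have hnn : 0 ≤ ER T (fun t => ‖(∑ j ∈ Finset.range m, f j t) - m‖ ^ 2) := by
    unfold ER
    refine mul_nonneg (inv_nonneg.2 hT.le) (integral_nonneg (fun t => ?_))
    exact mul_nonneg (sq_nonneg _) (Real.exp_pos _).le
  have hE : ER T (fun t => ‖(∑ j ∈ Finset.range m, f j t) - m‖ ^ 2) =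
      ‖((ER T (fun t => ‖(∑ j ∈ Finset.range m, f j t) - m‖ ^ 2) : ℝ) : ℂ)‖ := by
    rw [Complex.norm_real, Real.norm_eq_abs, abs_of_nonneg hnn]
  rw [hE, hC]
  calc _ ≤ ∑ p ∈ (Finset.range m) ×ˢ (Finset.range m),
        ‖EE T (fun t => (f p.1 t - 1) * conj (f p.2 t - 1))‖ := norm_sum_le _ _
    _ ≤ ∑ p ∈ (Finset.range m) ×ˢ (Finset.range m),
        (3 * δ + (if p.1 = p.2 then D + 1 else 0)) := Finset.sum_le_sum hterm
    _ = m ^ 2 * (3 * δ) + m * (D + 1) := by
        rw [Finset.sum_add_distrib, Finset.sum_const, Finset.card_product, Finset.card_range,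
          Finset.sum_product]
        congr 1
        · rw [nsmul_eq_mul]
          push_cast
          ring
        · have : ∀ x ∈ Finset.range m, (∑ y ∈ Finset.range m, if x = y then D + 1 else 0) = D + 1 := by
            intro x hx
            rw [Finset.sum_ite_eq, if_pos hx]
          rw [Finset.sum_congr rfl this, Finset.sum_const, Finset.card_range, nsmul_eq_mul]

/-- E|H-m|^2 <= Cm: expand the square; off diagonal F_cross with delta = 1/m, first moments F_first with delta = 1/m.
Diagonal terms: the constant must not depend on m: F_second with u = 0 (U = 0) and a shift of the mean by (j+1)x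
(T large depending on m; the missing or extra interval of length |(j+1)x| contributes T^(-1) exp(4l) C(m) -> 0;
zeta_pol and cf_sum). -/
theorem H_mean (x : ℝ) (hx : x ≠ 0) : ∃ C : ℝ, 0 < C ∧ ∀ m : ℕ, 1 ≤ m → ∃ T0 : ℝ, 2 ≤ T0 ∧ ∀ T : ℝ, T0 ≤ T →
    ∀ σ : ℝ, |σ| ≤ 1 / Real.log T →
    ER T (fun t => ‖(∑ j ∈ Finset.range m, FF (Real.log T / 1500) (1/2 + σ + (t + (j + 1) * x) * I)) - m‖ ^ 2) ≤
      C * m := by
  obtain ⟨Cz, hCz, hz⟩ := zeta_pol
  obtain ⟨C0, T2, hC0, hT2, hsec⟩ := F_second 0 le_rfl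
  refine ⟨3 + (3 * C0 + 1), by positivity, ?_⟩
  intro m hm
  have hm0 : (0 : ℝ) < m := by exact_mod_cast hm
  have hδ : (0 : ℝ) < 1 / m := by positivity
  -- shifts
  set U : ℝ := m * |x| with hU
  have hU0 : 0 ≤ U := by positivity
  have ev1 : ∀ᶠ T : ℝ in atTop, ∀ j ∈ Finset.range m, ∀ k ∈ Finset.range m, j ≠ k →
      ∀ σ : ℝ, |σ| ≤ 1 / Real.log T →
      ‖EE T (fun t => FF (Real.log T / 1500) (1/2 + σ + (t + ((j + 1) * x : ℝ)) * I) *
        conj (FF (Real.log T / 1500) (1/2 + σ + (t + ((k + 1) * x : ℝ)) * I))) - 1‖ ≤ 1 / m := by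
    rw [Filter.eventually_all_finset]
    intro j hj
    rw [Filter.eventually_all_finset]
    intro k hk
    by_cases hjk : j = k
    · exact Filter.Eventually.of_forall (fun T h => absurd hjk h)
    · have hne : ((j : ℝ) + 1) * x ≠ ((k : ℝ) + 1) * x := by
        intro h
        have := mul_right_cancel₀ hx h
        apply hjk
        have h2 : (j : ℝ) = k := by linarith
        exact_mod_cast h2
      obtain ⟨T0, hT0, h⟩ := F_cross (((j : ℝ) + 1) * x) (((k : ℝ) + 1) * x) hne (1 / m) hδ
      filter_upwards [eventually_ge_atTop T0] with T hT _ σ hσ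
      have hL : 0 < Real.log T := Real.log_pos (by linarith)
      exact h T hT (Real.log T / 1500) (by linarith) (by linarith) σ hσ
  have ev2 : ∀ᶠ T : ℝ in atTop, ∀ j ∈ Finset.range m, ∀ σ : ℝ, |σ| ≤ 1 / Real.log T →
      ‖EE T (fun t => FF (Real.log T / 1500) (1/2 + σ + (t + ((j + 1) * x : ℝ)) * I)) - 1‖ ≤ 1 / m := by
    rw [Filter.eventually_all_finset]
    intro j hj
    obtain ⟨T0, hT0, h⟩ := F_first (((j : ℝ) + 1) * x) (1 / m) hδ
    filter_upwards [eventually_ge_atTop T0] with T hT σ hσ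
    have hL : 0 < Real.log T := Real.log_pos (by linarith)
    exact h T hT (Real.log T / 1500) (by positivity) (by linarith) σ hσ
  have ev3 : ∀ᶠ T : ℝ in atTop, T⁻¹ * (U * ((Cz * (1 + U)) ^ 2 * Real.sqrt T)) ≤ C0 := by
    have h1 : Tendsto (fun T : ℝ => (Real.sqrt T)) atTop atTop := Real.tendsto_sqrt_atTop
    filter_upwards [h1.eventually_ge_atTop (U * (Cz * (1 + U)) ^ 2 / C0), eventually_gt_atTop 0]
      with T hT hT0
    rw [div_le_iff₀ hC0] at hT
    have hs : Real.sqrt T * Real.sqrt T = T := Real.mul_self_sqrt hT0.le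
    rw [inv_mul_le_iff₀ hT0]
    have hsn := Real.sqrt_nonneg T
    nlinarith [mul_le_mul_of_nonneg_right hT hsn]
  obtain ⟨T1, hT1⟩ := Filter.eventually_atTop.1 ((ev1.and ev2).and ev3)
  refine ⟨max (max T1 T2) (max (Real.exp 8) (max (2 * U) 2)), ?_, ?_⟩
  · exact le_trans (le_max_right _ _) (le_trans (le_max_right _ _) (le_max_right _ _))
  intro T hT σ hσ
  have hTa : T1 ≤ T := le_trans (le_trans (le_max_left _ _) (le_max_left _ _)) hT
  have hTb : T2 ≤ T := le_trans (le_trans (le_max_right _ _) (le_max_left _ _)) hT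
  have hTc : Real.exp 8 ≤ T := le_trans (le_trans (le_max_left _ _) (le_max_right _ _)) hT
  have hTd : 2 * U ≤ T :=
    le_trans (le_trans (le_trans (le_max_left _ _) (le_max_right _ _)) (le_max_right _ _)) hT
  have hTe : 2 ≤ T :=
    le_trans (le_trans (le_trans (le_max_right _ _) (le_max_right _ _)) (le_max_right _ _)) hT
  have hT0 : 0 < T := by linarith
  have hL : 8 ≤ Real.log T := by
    rw [Real.le_log_iff_exp_le hT0]
    exact hTc
  have hL0 : 0 < Real.log T := by linarith
  have hσ8 : |σ| ≤ 1 / 8 := by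
    refine le_trans hσ ?_
    exact one_div_le_one_div_of_le (by norm_num) hL
  obtain ⟨⟨h1, h2⟩, h3⟩ := hT1 T hTa
  set l : ℝ := Real.log T / 1500 with hl
  have hl0 : 0 < l := by positivity
  have hexpl : Real.exp l ^ 2 ≤ Real.sqrt T := by
    rw [← Real.exp_nat_mul, Real.sqrt_eq_rpow, Real.rpow_def_of_pos hT0]
    apply Real.exp_le_exp.2
    rw [hl]
    push_cast
    linarith
  have hcast : ∀ (j : ℕ) (t : ℝ), (1/2 : ℂ) + σ + (t + (j + 1) * x) * I =
      1/2 + σ + (t + (((j + 1) * x : ℝ) : ℂ)) * I := by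
    intro j t
    push_cast
    ring
  simp only [hcast]
  have hub : ∀ j, j < m → |((j : ℝ) + 1) * x| ≤ U := by
    intro j hj
    rw [abs_mul, hU]
    have : (j : ℝ) + 1 ≤ m := by exact_mod_cast hj
    have h0 : (0 : ℝ) ≤ (j : ℝ) + 1 := by positivity
    rw [abs_of_nonneg h0]
    gcongr
  have habs := G03_abstract T hT0 m
    (fun j t => FF l (1/2 + σ + (t + (((j + 1) * x : ℝ) : ℂ)) * I))
    (Cz * Real.exp l * (1 + U)) (fun j hj => G03_FF l σ hσ8 _)
    (fun j hj t => by
      refine le_trans (G03_FFb Cz hCz hz l hl0 σ hσ8 _ t) ?_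
      refine le_trans (G03_growth _ (by positivity) _ _) ?_
      have := hub j hj
      gcongr)
    (1 / m) (3 * C0) hδ.le
    (fun j hj k hk hjk => h1 j (Finset.mem_range.2 hj) k (Finset.mem_range.2 hk) hjk σ hσ)
    (fun j hj => h2 j (Finset.mem_range.2 hj) σ hσ)
    (fun j hj => by
      -- the shift
      set u : ℝ := ((j : ℝ) + 1) * x with hu
      have huU : |u| ≤ U := hub j hj
      have hG := G03_shift (fun t => ‖FF l (1/2 + σ + (t + ((0 : ℝ) : ℂ)) * I)‖ ^ 2)
        ((G03_FF l σ hσ8 0).norm.pow 2) (fun t => sq_nonneg _) T u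
        ((Cz * Real.exp l) ^ 2) ((Cz * (1 + U)) ^ 2 * Real.sqrt T) hT0
        (by
          intro t
          have := G03_FFb Cz hCz hz l hl0 σ hσ8 0 t
          rw [add_zero] at this
          calc _ ≤ (Cz * Real.exp l * (1 + |t|)) ^ 2 := pow_le_pow_left₀ (norm_nonneg _) this 2
            _ = _ := by ring)
        (by
          intro t ht
          have := G03_FFb Cz hCz hz l hl0 σ hσ8 0 t
          rw [add_zero] at this
          calc _ ≤ (Cz * Real.exp l * (1 + |t|)) ^ 2 := pow_le_pow_left₀ (norm_nonneg _) this 2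
            _ = (Cz * (1 + |t|)) ^ 2 * Real.exp l ^ 2 := by ring
            _ ≤ (Cz * (1 + U)) ^ 2 * Real.sqrt T := by
                gcongr
                exact le_trans ht huU)
        (by positivity)
      have hs := hsec T hTb l (by rw [hl]; linarith) (by rw [hl]; linarith) σ 0 hσ (by simp)
      have e1 : ER T (fun t => ‖FF l (1/2 + σ + (t + ((u : ℝ) : ℂ)) * I)‖ ^ 2) =
          ER T (fun t => (fun t : ℝ => ‖FF l (1/2 + σ + (t + ((0 : ℝ) : ℂ)) * I)‖ ^ 2) (t + u)) := by
        congr 1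
        funext t
        simp
      rw [e1]
      refine le_trans hG ?_
      have hexp : Real.exp (|u| / T) ≤ 2 := by
        have h4 : |u| / T ≤ 1 / 2 := by
          rw [div_le_iff₀ hT0]
          linarith
        have h5 : Real.exp (1 / 2) ≤ 2 := by
          have h6 : Real.exp (1 / 2) ^ 2 ≤ 2 ^ 2 := by
            rw [← Real.exp_nat_mul]
            have := Real.exp_one_lt_d9
            norm_num at this ⊢
            linarith
          exact le_of_sq_le_sq h6 (by norm_num)
        exact le_trans (Real.exp_le_exp.2 h4) h5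
      have hlast : T⁻¹ * (|u| * ((Cz * (1 + U)) ^ 2 * Real.sqrt T)) ≤ C0 := by
        refine le_trans ?_ h3
        gcongr
      have hER0 : 0 ≤ ER T (fun t => ‖FF l (1/2 + σ + (t + ((0 : ℝ) : ℂ)) * I)‖ ^ 2) := by
        unfold ER
        refine mul_nonneg (inv_nonneg.2 hT0.le) (integral_nonneg (fun t => ?_))
        exact mul_nonneg (sq_nonneg _) (Real.exp_pos _).le
      have h7 : Real.exp (|u| / T) * ER T (fun t => ‖FF l (1/2 + σ + (t + ((0 : ℝ) : ℂ)) * I)‖ ^ 2) ≤
          2 * C0 := mul_le_mul hexp hs hER0 (by norm_num)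
      linarith)
  refine le_trans habs (le_of_eq ?_)
  field_simp

end LZ
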