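import Pool.Agent.Lib.MP_0f5a55_nt.D0
import Pool.Agent.Lib.MP_0f5a55_nt.A03
import Pool.Agent.Lib.MP_0f5a55_nt.G03
import Pool.Agent.Lib.MP_0f5a55_nt.E02
import Pool.Agent.Lib.MP_0f5a55_nt.Z15

open Complex MeasureTheory Set Filter Topology
open scoped ComplexConjugate

namespace LZ

theorem G04_nS {z : ℕ} {S : Finset ℕ} (hS : S ∈ (PP z).powerset) : 1 ≤ nS S := by
  rw [Finset.mem_powerset] at hS
  refine Nat.one_le_iff_ne_zero.2 (Finset.prod_ne_zero_iff.2 fun p hp => ?_)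
  exact (Finset.mem_filter.1 (hS hp)).2.ne_zero

theorem G04_Mol_diff (lam l : ℝ) : Differentiable ℂ (Mol lam l) := by
  unfold Mol
  refine Differentiable.fun_sum fun S hS => ?_
  refine (differentiable_const _).mul fun s => ?_
  refine DifferentiableAt.const_cpow (by fun_prop) (Or.inl ?_)
  have := G04_nS hS
  exact_mod_cast (by omega : nS S ≠ 0)

theorem G04_Mol_bound (lam l : ℝ) : ∃ M : ℝ, 0 ≤ M ∧ ∀ s : ℂ, 0 ≤ s.re → ‖Mol lam l s‖ ≤ M := by
  refine ⟨∑ S ∈ (PP ⌊Real.exp l⌋₊).powerset, |cf lam l S|, Finset.sum_nonneg fun _ _ => abs_nonneg _, fun s hs => ?_⟩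
  unfold Mol
  refine (norm_sum_le _ _).trans (Finset.sum_le_sum fun S hS => ?_)
  have h1 := G04_nS hS
  rw [norm_mul, Complex.norm_real, Real.norm_eq_abs]
  have h2 : ‖((nS S : ℕ) : ℂ) ^ (-s)‖ ≤ 1 := by
    rw [Complex.norm_natCast_cpow_of_pos (by omega), neg_re]
    exact Real.rpow_le_one_of_one_le_of_nonpos (by exact_mod_cast h1) (by linarith)
  calc |cf lam l S| * ‖((nS S : ℕ) : ℂ) ^ (-s)‖ ≤ |cf lam l S| * 1 := by gcongr
    _ = |cf lam l S| := mul_one _

/-- the function of the argument -/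
noncomputable def G04_f (x l : ℝ) (m : ℕ) (s : ℂ) : ℂ := (∑ j ∈ Finset.range m, FF l (s + (j + 1) * x * I)) - m

theorem G04_re (x : ℝ) (j : ℕ) (s : ℂ) : (s + ((j : ℂ) + 1) * x * I).re = s.re := by
  have h : ((j : ℂ) + 1) * x * I = (((j + 1) * x : ℝ) : ℂ) * I := by push_cast; ring
  rw [h, add_re, re_ofReal_mul, I_re, mul_zero, add_zero]

theorem G04_im (x : ℝ) (j : ℕ) (s : ℂ) : (s + ((j : ℂ) + 1) * x * I).im = s.im + (j + 1) * x := by
  have h : ((j : ℂ) + 1) * x * I = (((j + 1) * x : ℝ) : ℂ) * I := by push_cast; ring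
  rw [h, add_im, im_ofReal_mul, I_im, mul_one]

theorem G04_diff (x l : ℝ) (m : ℕ) {s : ℂ} (hs : s.re < 1) : DifferentiableAt ℂ (G04_f x l m) s := by
  unfold G04_f
  refine DifferentiableAt.sub_const (DifferentiableAt.fun_sum fun j _ => ?_) _
  have h1 : s + ((j : ℂ) + 1) * x * I ≠ 1 := by
    intro h
    have h2 := congrArg Complex.re h
    rw [G04_re, one_re] at h2
    linarith
  have h2 : DifferentiableAt ℂ (FF l) (s + ((j : ℂ) + 1) * x * I) := by
    unfold FF
    exact (differentiableAt_riemannZeta h1).mul (G04_Mol_diff 1 l _)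
  exact DifferentiableAt.comp (g := FF l) (f := fun s : ℂ => s + ((j : ℂ) + 1) * x * I) s h2 (by fun_prop)

theorem G04_bound (x l : ℝ) (m : ℕ) : ∃ K : ℝ, 0 ≤ K ∧ ∀ s : ℂ, 5/16 ≤ s.re → s.re ≤ 3/4 →
    ‖G04_f x l m s‖ ≤ K * (1 + |s.im|) := by
  obtain ⟨C, hC, hz⟩ := zeta_pol
  obtain ⟨M, hM, hMol⟩ := G04_Mol_bound 1 l
  refine ⟨m * (C * (1 + m * |x|) * M) + m, by positivity, fun s h1 h2 => ?_⟩
  have hone : (1 : ℝ) ≤ 1 + |s.im| := by linarith [abs_nonneg s.im]
  have hj : ∀ j ∈ Finset.range m, ‖FF l (s + ((j : ℂ) + 1) * x * I)‖ ≤ C * (1 + m * |x|) * M * (1 + |s.im|) := by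
    intro j hj
    have hjm : (j : ℝ) + 1 ≤ m := by exact_mod_cast Finset.mem_range.1 hj
    unfold FF
    rw [norm_mul]
    have a1 : ‖riemannZeta (s + ((j : ℂ) + 1) * x * I)‖ ≤ C * ((1 + m * |x|) * (1 + |s.im|)) := by
      refine (hz _ (by rw [G04_re]; exact h1) ?_).trans ?_
      · have b1 : |(s + ((j : ℂ) + 1) * x * I - 1).re| ≤ ‖s + ((j : ℂ) + 1) * x * I - 1‖ := Complex.abs_re_le_norm _
        rw [sub_re, G04_re, one_re] at b1
        have b2 : 1 - s.re ≤ |s.re - 1| := by rw [abs_sub_comm]; exact le_abs_self _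
        linarith
      · refine mul_le_mul_of_nonneg_left ?_ hC.le
        rw [G04_im]
        have b1 : |s.im + ((j : ℝ) + 1) * x| ≤ |s.im| + m * |x| := by
          refine (abs_add_le _ _).trans ?_
          rw [abs_mul, abs_of_nonneg (by positivity : (0 : ℝ) ≤ (j : ℝ) + 1)]
          gcongr
        have b2 : 0 ≤ m * |x| * |s.im| := by positivity
        nlinarith
    have a2 : ‖Mol 1 l (s + ((j : ℂ) + 1) * x * I)‖ ≤ M := hMol _ (by rw [G04_re]; linarith)
    calc ‖riemannZeta (s + ((j : ℂ) + 1) * x * I)‖ * ‖Mol 1 l (s + ((j : ℂ) + 1) * x * I)‖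
        ≤ (C * ((1 + m * |x|) * (1 + |s.im|))) * M := by gcongr
      _ = C * (1 + m * |x|) * M * (1 + |s.im|) := by ring
  unfold G04_f
  refine (norm_sub_le _ _).trans ?_
  have h3 : ‖∑ j ∈ Finset.range m, FF l (s + ((j : ℂ) + 1) * x * I)‖ ≤ m * (C * (1 + m * |x|) * M * (1 + |s.im|)) := by
    refine (norm_sum_le _ _).trans ((Finset.sum_le_sum hj).trans ?_)
    rw [Finset.sum_const, Finset.card_range, nsmul_eq_mul]
  have h4 : ‖(m : ℂ)‖ = m := by simp
  rw [h4]
  have h5 : (m : ℝ) ≤ m * (1 + |s.im|) := le_mul_of_one_le_right (by positivity) hone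
  calc ‖∑ j ∈ Finset.range m, FF l (s + ((j : ℂ) + 1) * x * I)‖ + m
      ≤ m * (C * (1 + m * |x|) * M * (1 + |s.im|)) + m * (1 + |s.im|) := add_le_add h3 h5
    _ = (m * (C * (1 + m * |x|) * M) + m) * (1 + |s.im|) := by ring

theorem G04_intg (x l T : ℝ) (hT : 0 < T) (m : ℕ) (σ : ℝ) (hσ : |σ| ≤ 3 / 16) :
    IntegrableOn (fun t : ℝ => ‖G04_f x l m (1/2 + σ + t * I)‖ ^ 2 * Real.exp (-t / T)) (Ioi 0) := by
  obtain ⟨K, hK, hb⟩ := G04_bound x l m
  have hσ' := abs_le.1 hσ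
  have hre : ∀ t : ℝ, ((1/2 : ℂ) + σ + t * I).re = 1/2 + σ := fun t => by simp
  have him : ∀ t : ℝ, ((1/2 : ℂ) + σ + t * I).im = t := fun t => by simp
  have hcont : Continuous (fun t : ℝ => ‖G04_f x l m (1/2 + σ + t * I)‖ ^ 2 * Real.exp (-t / T)) := by
    refine Continuous.mul (Continuous.pow (Continuous.norm ?_) 2) (by fun_prop)
    rw [continuous_iff_continuousAt]
    intro t
    have h1 : ContinuousAt (G04_f x l m) (1/2 + σ + t * I) := (G04_diff x l m (by rw [hre]; linarith)).continuousAt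
    exact ContinuousAt.comp (g := G04_f x l m) (f := fun t : ℝ => (1/2 + σ + t * I : ℂ)) h1 (by fun_prop)
  have hmaj : IntegrableOn (fun t : ℝ => 2 * K ^ 2 * (Real.exp (-(1 / T) * t) + t ^ (2 : ℝ) * Real.exp (-(1 / T) * t))) (Ioi 0) := by
    refine Integrable.const_mul (Integrable.add ?_ ?_) _
    · exact integrableOn_exp_mul_Ioi (by simpa using hT) 0
    · have h := integrableOn_rpow_mul_exp_neg_mul_rpow (s := 2) (p := 1) (b := 1 / T) (by norm_num) one_pos (by positivity)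
      refine h.congr_fun (fun t _ => ?_) measurableSet_Ioi
      simp only [Real.rpow_one]
  refine Integrable.mono' hmaj hcont.aestronglyMeasurable ?_
  refine (ae_restrict_iff' measurableSet_Ioi).2 (Eventually.of_forall fun t ht => ?_)
  have ht0 : (0 : ℝ) < t := ht
  have h1 := hb (1/2 + σ + t * I) (by rw [hre]; linarith) (by rw [hre]; linarith)
  rw [him, abs_of_pos ht0] at h1
  rw [Real.norm_of_nonneg (by positivity)]
  have h2 : ‖G04_f x l m (1/2 + σ + t * I)‖ ^ 2 ≤ 2 * K ^ 2 * (1 + t ^ 2) := by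
    calc ‖G04_f x l m (1/2 + σ + t * I)‖ ^ 2 ≤ (K * (1 + t)) ^ 2 := by gcongr
      _ = K ^ 2 * (1 + t) ^ 2 := by ring
      _ ≤ K ^ 2 * (2 * (1 + t ^ 2)) := by
          refine mul_le_mul_of_nonneg_left ?_ (sq_nonneg K)
          nlinarith [sq_nonneg (1 - t)]
      _ = 2 * K ^ 2 * (1 + t ^ 2) := by ring
  have h3 : -t / T = -(1 / T) * t := by ring
  rw [h3]
  calc ‖G04_f x l m (1/2 + σ + t * I)‖ ^ 2 * Real.exp (-(1 / T) * t)
      ≤ 2 * K ^ 2 * (1 + t ^ 2) * Real.exp (-(1 / T) * t) := by gcongr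
    _ = 2 * K ^ 2 * (Real.exp (-(1 / T) * t) + t ^ (2 : ℝ) * Real.exp (-(1 / T) * t)) := by
        rw [Real.rpow_two]; ring

/-- points y with y + x, .., y + mx all in Gam: at most C T log T/m of them in a separated set. sum_sep for
H(s) = sum_j FF(s+i(j+1)x) - m on [1, T], radius min(d,1)/(2 log T), |H(1/2+iy)| = m, H_mean for every sigma. -/
theorem chain_bound (x d : ℝ) (hx : x ≠ 0) (hd : 0 < d) : ∃ C : ℝ, 0 < C ∧ ∀ m : ℕ, 1 ≤ m → ∃ T0 : ℝ, 2 ≤ T0 ∧
    ∀ T : ℝ, T0 ≤ T → ∀ Y : Finset ℝ, (∀ y ∈ Y, 2 ≤ y ∧ y ≤ T) → Sep (d / Real.log T) Y →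
    (∀ y ∈ Y, ∀ j : ℕ, 1 ≤ j → j ≤ m → y + j * x ∈ Gam) → (Y.card : ℝ) * m ≤ C * T * Real.log T := by
  obtain ⟨C0, hC0, hmean⟩ := H_mean x hx
  have hd1 : 0 < min d 1 := lt_min hd one_pos
  have hpi := Real.pi_pos
  refine ⟨4 * Real.exp 2 * C0 / (Real.pi * min d 1), by positivity, fun m hm => ?_⟩
  obtain ⟨T1, hT1, hT1'⟩ := hmean m hm
  refine ⟨max T1 (Real.exp 12), le_max_of_le_left hT1, fun T hT Y hY hsep hG => ?_⟩
  have hTa : T1 ≤ T := (le_max_left _ _).trans hT
  have hTb : Real.exp 12 ≤ T := (le_max_right _ _).trans hT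
  have hT2 : 2 ≤ T := hT1.trans hTa
  have hT0 : 0 < T := by linarith
  have hL : 12 ≤ Real.log T := (Real.le_log_iff_exp_le hT0).2 hTb
  have hL0 : 0 < Real.log T := by linarith
  set L : ℝ := Real.log T with hLdef
  set l : ℝ := L / 1500 with hl
  set r : ℝ := min d 1 / (2 * L) with hr
  have hr0 : 0 < r := by positivity
  have hr1 : r ≤ 1 / (2 * L) := by
    rw [hr]; gcongr; exact min_le_right _ _
  have hr2 : r ≤ 1 / 24 := hr1.trans (by
    rw [div_le_div_iff₀ (by positivity) (by norm_num)]; linarith)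
  have hrL : r ≤ 1 / L := hr1.trans (by
    rw [div_le_div_iff₀ (by positivity) (by positivity)]; linarith)
  have hre : ∀ σ t : ℝ, ((1/2 : ℂ) + σ + t * I).re = 1/2 + σ := fun σ t => by simp
  -- the value at the points
  have hval : ∀ y ∈ Y, ‖G04_f x l m (1/2 + y * I)‖ ^ 2 = (m : ℝ) ^ 2 := by
    intro y hy
    have h1 : G04_f x l m (1/2 + y * I) = -m := by
      unfold G04_f
      rw [Finset.sum_eq_zero, zero_sub]
      intro j hj
      have h2 := hG y hy (j + 1) (by omega) (by have := Finset.mem_range.1 hj; omega)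
      unfold Gam at h2
      change riemannZeta _ = 0 at h2
      have h3 : (1/2 : ℂ) + y * I + (j + 1) * x * I = 1/2 + ((y + ((j + 1 : ℕ) : ℝ) * x : ℝ) : ℂ) * I := by
        push_cast; ring
      unfold FF
      rw [h3, h2, zero_mul]
    rw [h1, norm_neg]
    simp
  have hsep' : Sep (2 * r) Y := by
    intro a ha b hb hab
    refine le_trans ?_ (hsep a ha b hb hab)
    rw [hr]
    have : 2 * (min d 1 / (2 * L)) = min d 1 / L := by field_simp
    rw [this]
    gcongr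
    exact min_le_left _ _
  have key := sum_sep (f := G04_f x l m) hr0 hT2 Y hY hsep' (fun z hz _ _ => by
    have h1 := (abs_le.1 hz).2
    exact G04_diff x l m (by linarith))
  rw [Finset.sum_congr rfl hval, Finset.sum_const, nsmul_eq_mul] at key
  -- the inner integral
  have hin : ∀ σ : ℝ, |σ| ≤ r → ∫ t in (2 - r)..(T + r), ‖G04_f x l m (1/2 + σ + t * I)‖ ^ 2 ≤
      Real.exp 2 * T * (C0 * m) := by
    intro σ hσ
    have hI := G04_intg x l T hT0 m σ (hσ.trans (by linarith))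
    have h1 := hT1' T hTa σ (hσ.trans hrL)
    unfold ER at h1
    have h2 : ∀ t : ℝ, (∑ j ∈ Finset.range m, FF (Real.log T / 1500) (1/2 + σ + (t + (j + 1) * x) * I)) - m =
        G04_f x l m (1/2 + σ + t * I) := by
      intro t
      unfold G04_f
      congr 1
      refine Finset.sum_congr rfl fun j _ => ?_
      congr 1
      ring
    simp only [h2] at h1
    rw [inv_mul_le_iff₀ hT0] at h1
    have hcont : Continuous (fun t : ℝ => ‖G04_f x l m (1/2 + σ + t * I)‖ ^ 2) := by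
      refine Continuous.pow (Continuous.norm ?_) 2
      rw [continuous_iff_continuousAt]
      intro t
      have hσ' := (abs_le.1 hσ).2
      have h1 : ContinuousAt (G04_f x l m) (1/2 + σ + t * I) := (G04_diff x l m (by rw [hre]; linarith)).continuousAt
      exact ContinuousAt.comp (g := G04_f x l m) (f := fun t : ℝ => (1/2 + σ + t * I : ℂ)) h1 (by fun_prop)
    have hab : 2 - r ≤ T + r := by linarith
    rw [intervalIntegral.integral_of_le hab]
    have h3 : ∫ t in Ioc (2 - r) (T + r), ‖G04_f x l m (1/2 + σ + t * I)‖ ^ 2 ≤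
        ∫ t in Ioc (2 - r) (T + r), Real.exp 2 * (‖G04_f x l m (1/2 + σ + t * I)‖ ^ 2 * Real.exp (-t / T)) := by
      refine setIntegral_mono_on ?_ ?_ measurableSet_Ioc ?_
      · exact (hcont.integrableOn_Icc).mono_set Ioc_subset_Icc_self
      · have hc2 : Continuous (fun t : ℝ => Real.exp 2 * (‖G04_f x l m (1/2 + σ + t * I)‖ ^ 2 * Real.exp (-t / T))) :=
          continuous_const.mul (hcont.mul (by fun_prop))
        exact (hc2.integrableOn_Icc).mono_set Ioc_subset_Icc_self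
      · intro t ht
        have h4 : 1 ≤ Real.exp 2 * Real.exp (-t / T) := by
          rw [← Real.exp_add]
          refine Real.one_le_exp ?_
          have h5 : t / T ≤ 2 := by
            rw [div_le_iff₀ hT0]; linarith [ht.2]
          rw [neg_div]; linarith
        have h6 : 0 ≤ ‖G04_f x l m (1/2 + σ + t * I)‖ ^ 2 := by positivity
        calc ‖G04_f x l m (1/2 + σ + t * I)‖ ^ 2 = ‖G04_f x l m (1/2 + σ + t * I)‖ ^ 2 * 1 := (mul_one _).symm
          _ ≤ ‖G04_f x l m (1/2 + σ + t * I)‖ ^ 2 * (Real.exp 2 * Real.exp (-t / T)) := by gcongr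
          _ = _ := by ring
    refine h3.trans ?_
    rw [integral_const_mul]
    have h7 : ∫ t in Ioc (2 - r) (T + r), ‖G04_f x l m (1/2 + σ + t * I)‖ ^ 2 * Real.exp (-t / T) ≤
        ∫ t in Ioi (0 : ℝ), ‖G04_f x l m (1/2 + σ + t * I)‖ ^ 2 * Real.exp (-t / T) := by
      refine setIntegral_mono_set hI ?_ ?_
      · exact Eventually.of_forall fun t => by positivity
      · exact Filter.Eventually.of_forall fun t ht => lt_of_lt_of_le (by linarith) ht.1.le
    calc Real.exp 2 * ∫ t in Ioc (2 - r) (T + r), ‖G04_f x l m (1/2 + σ + t * I)‖ ^ 2 * Real.exp (-t / T)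
        ≤ Real.exp 2 * (T * (C0 * m)) := by gcongr; exact h7.trans h1
      _ = Real.exp 2 * T * (C0 * m) := by ring
  have hout : ∫ σ in (-r)..r, ∫ t in (2 - r)..(T + r), ‖G04_f x l m (1/2 + σ + t * I)‖ ^ 2 ≤
      Real.exp 2 * T * (C0 * m) * (2 * r) := by
    have h1 := intervalIntegral.norm_integral_le_of_norm_le_const (a := -r) (b := r)
      (f := fun σ : ℝ => ∫ t in (2 - r)..(T + r), ‖G04_f x l m (1/2 + σ + t * I)‖ ^ 2) (C := Real.exp 2 * T * (C0 * m)) (by
        intro σ hσ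
        rw [uIoc_of_le (by linarith)] at hσ
        rw [Real.norm_of_nonneg (intervalIntegral.integral_nonneg (by linarith) fun t _ => by positivity)]
        exact hin σ (abs_le.2 ⟨hσ.1.le, hσ.2⟩))
    have h2 : |r - -r| = 2 * r := by rw [abs_of_nonneg (by linarith)]; ring
    rw [h2] at h1
    exact (le_abs_self _).trans h1
  have hfin : (Y.card : ℝ) * m ^ 2 ≤ (Real.pi * r ^ 2)⁻¹ * (Real.exp 2 * T * (C0 * m) * (2 * r)) :=
    key.trans (mul_le_mul_of_nonneg_left hout (by positivity))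
  have hm0 : (0 : ℝ) < m := by exact_mod_cast hm
  have e1 : (Real.pi * r ^ 2)⁻¹ * (Real.exp 2 * T * (C0 * m) * (2 * r)) =
      (4 * Real.exp 2 * C0 / (Real.pi * min d 1) * T * L) * m := by
    rw [hr]
    field_simp
    ring
  rw [e1] at hfin
  have e2 : (Y.card : ℝ) * m ^ 2 = ((Y.card : ℝ) * m) * m := by ring
  rw [e2] at hfin
  exact le_of_mul_le_mul_right hfin hm0

end LZ
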