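import Pool.Agent.Lib.MP_0f5a55_nt.D0
import Pool.Agent.Lib.MP_0f5a55_nt.G01
import Pool.Agent.Lib.MP_0f5a55_nt.Z15

open Complex MeasureTheory Set Filter Topology
open scoped ComplexConjugate

namespace LZ

theorem G07_symm (g : ℝ) (h : g ∈ Gam) : -g ∈ Gam := by
  unfold Gam at h ⊢
  rw [Set.mem_setOf_eq] at h ⊢
  have h1 : ∀ n : ℕ, (1 / 2 + (g : ℂ) * I) ≠ -n := by
    intro n hn
    have := congrArg Complex.re hn
    simp at this
    have h2 : (0 : ℝ) ≤ n := Nat.cast_nonneg n
    linarith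
  have h2 : (1 / 2 + (g : ℂ) * I) ≠ 1 := by
    intro hn
    have := congrArg Complex.re hn
    norm_num at this
  have h3 := riemannZeta_one_sub h1 h2
  rw [h, mul_zero] at h3
  rw [← h3]
  congr 1
  push_cast
  ring

theorem G07_symm_iff (g : ℝ) : -g ∈ Gam ↔ g ∈ Gam :=
  ⟨fun h => by simpa using G07_symm _ h, G07_symm g⟩

/-- the case `0 < r` -/
theorem G07_pos (r x : ℝ) (hr : r < 1) (hr0 : 0 < r) : ∃ c T0 : ℝ, 0 < c ∧ 2 ≤ T0 ∧ ∀ T : ℝ, T0 ≤ T →
    c * T * Real.log T ≤ ({g : ℝ | g ∈ Gam ∧ 0 < g ∧ g ≤ T ∧ r * g + x ∉ Gam}.ncard : ℝ) := by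
  classical
  obtain ⟨c, d, η, T0, hc, hd, hη, hη2, hT0, hS⟩ := selberg_sep
  obtain ⟨C, T1, hC, hT1, hN⟩ := Gam_count
  obtain ⟨n, hn⟩ := exists_pow_lt_of_lt_one (show 0 < c / (8 * C) by positivity) hr
  set m : ℕ := n + 1 with hm
  have hrm : r ^ m < c / (8 * C) := by
    have h1 : r ^ m ≤ r ^ n := pow_le_pow_of_le_one hr0.le hr.le (by omega)
    linarith
  have hrm0 : 0 < r ^ m := pow_pos hr0 m
  have h1r : 0 < 1 - r := by linarith
  set K : ℝ := |x| / (1 - r) with hK
  have hK0 : 0 ≤ K := by rw [hK]; positivity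
  have hKr : r * K + |x| = K := by rw [hK]; field_simp; ring
  set φ : ℝ → ℝ := fun g => r * g + x with hφ
  have hφinj : Function.Injective φ := by
    intro a b hab
    simp only [hφ] at hab
    have : r * a = r * b := by linarith
    exact mul_left_cancel₀ hr0.ne' this
  have hit : ∀ (i : ℕ) (g : ℝ), |φ^[i] g - r ^ i * g| ≤ K := by
    intro i
    induction i with
    | zero => intro g; simp [hK0]
    | succ i ih =>
      intro g
      rw [Function.iterate_succ_apply']
      have e : φ (φ^[i] g) - r ^ (i + 1) * g = r * (φ^[i] g - r ^ i * g) + x := by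
        simp only [hφ]; ring
      rw [e]
      calc |r * (φ^[i] g - r ^ i * g) + x| ≤ |r * (φ^[i] g - r ^ i * g)| + |x| := abs_add_le _ _
        _ = r * |φ^[i] g - r ^ i * g| + |x| := by rw [abs_mul, abs_of_pos hr0]
        _ ≤ r * K + |x| := by
            have := mul_le_mul_of_nonneg_left (ih g) hr0.le
            linarith
        _ = K := hKr
  refine ⟨c / (2 * m), max (max T0 T1) (max (T1 / r ^ m) (max (K / (1 - r)) (max (K / r ^ m)
    (K / (r ^ m * η) + 1)))), by positivity, ?_, ?_⟩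
  · exact hT0.trans ((le_max_left _ _).trans (le_max_left _ _))
  intro T hT
  have hTT0 : T0 ≤ T := ((le_max_left _ _).trans (le_max_left _ _)).trans hT
  have hTT1 : T1 ≤ T := ((le_max_right _ _).trans (le_max_left _ _)).trans hT
  have h2 := (le_max_right _ _).trans hT
  have hT1r : T1 / r ^ m ≤ T := (le_max_left _ _).trans h2
  have h3 := (le_max_right _ _).trans h2
  have hTK1 : K / (1 - r) ≤ T := (le_max_left _ _).trans h3
  have h4 := (le_max_right _ _).trans h3
  have hTK2 : K / r ^ m ≤ T := (le_max_left _ _).trans h4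
  have hTK3 : K / (r ^ m * η) + 1 ≤ T := (le_max_right _ _).trans h4
  have hT2 : 2 ≤ T := hT0.trans hTT0
  have hT0' : 0 < T := by linarith
  have hlT : 0 < Real.log T := Real.log_pos (by linarith)
  rw [div_le_iff₀ hrm0] at hT1r
  rw [div_le_iff₀ h1r] at hTK1
  rw [div_le_iff₀ hrm0] at hTK2
  have hTK3' : K < T * (r ^ m * η) := by
    have : K / (r ^ m * η) < T := by linarith
    rwa [div_lt_iff₀ (by positivity)] at this
  obtain ⟨Y, hY, -, hYc⟩ := hS T hTT0
  obtain ⟨hfinT, -⟩ := hN T hTT1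
  set B : Set ℝ := {g : ℝ | g ∈ Gam ∧ 0 < g ∧ g ≤ T ∧ r * g + x ∉ Gam} with hB
  have hBfin : B.Finite := by
    apply hfinT.subset
    rintro g ⟨h1, h2, h3, -⟩
    exact ⟨h1, by linarith, h3⟩
  set X : ℝ := r ^ m * T + K with hX
  have hXT1 : T1 ≤ X := by rw [hX]; linarith
  obtain ⟨hfinX, hNX⟩ := hN X hXT1
  -- the iterates
  have hpos : ∀ g ∈ Y, ∀ i ≤ m, 0 < φ^[i] g ∧ φ^[i] g ≤ T := by
    intro g hg i hi
    obtain ⟨-, hg1, hg2⟩ := hY g hg
    have hg0 : 0 < g := lt_of_lt_of_le (by positivity) hg1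
    have h1 := abs_le.1 (hit i g)
    have hri : r ^ m ≤ r ^ i := pow_le_pow_of_le_one hr0.le hr.le hi
    constructor
    · have h2 : r ^ m * (η * T) ≤ r ^ i * g :=
        mul_le_mul hri hg1 (by positivity) (by positivity)
      have h3 : r ^ m * (η * T) = T * (r ^ m * η) := by ring
      linarith [h1.1]
    · rcases Nat.eq_zero_or_pos i with h0 | h0
      · subst h0; simpa using hg2
      · have hri' : r ^ i ≤ r := by
          calc r ^ i ≤ r ^ 1 := pow_le_pow_of_le_one hr0.le hr.le h0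
            _ = r := pow_one r
        have h2 : r ^ i * g ≤ r * T := mul_le_mul hri' hg2 hg0.le hr0.le
        nlinarith [h1.2]
  -- the split
  have hcover : Y ⊆ (Y.filter fun g => φ^[m] g ∈ Gam) ∪
      (Finset.range m).biUnion fun i => Y.filter fun g => φ^[i] g ∈ B := by
    intro g hg
    rw [Finset.mem_union]
    by_cases hall : φ^[m] g ∈ Gam
    · left; exact Finset.mem_filter.2 ⟨hg, hall⟩
    · right
      have hex : ∃ i, φ^[i] g ∉ Gam := ⟨m, hall⟩
      set j := Nat.find hex with hj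
      have hj1 : φ^[j] g ∉ Gam := Nat.find_spec hex
      have hjm : j ≤ m := Nat.find_min' hex hall
      have hj0 : j ≠ 0 := by
        intro h0
        rw [h0] at hj1
        exact hj1 (hY g hg).1
      obtain ⟨i, hi⟩ := Nat.exists_eq_succ_of_ne_zero hj0
      have hilt : i < Nat.find hex := by rw [← hj, hi]; exact Nat.lt_succ_self i
      have hi1 : φ^[i] g ∈ Gam := by
        have := Nat.find_min hex hilt
        push Not at this
        exact this
      rw [Finset.mem_biUnion]
      refine ⟨i, Finset.mem_range.2 (by omega), Finset.mem_filter.2 ⟨hg, hi1, ?_, ?_, ?_⟩⟩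
      · exact (hpos g hg i (by omega)).1
      · exact (hpos g hg i (by omega)).2
      · rw [hi, Nat.succ_eq_add_one, Function.iterate_succ_apply'] at hj1
        exact hj1
  have hall : (Y.filter fun g => φ^[m] g ∈ Gam).card ≤ (Gam ∩ Icc (-X) X).ncard := by
    rw [Set.ncard_eq_toFinset_card _ hfinX]
    apply Finset.card_le_card_of_injOn (fun g => φ^[m] g)
    · intro g hg
      obtain ⟨hgY, hgG⟩ := Finset.mem_filter.1 (Finset.mem_coe.1 hg)
      rw [Finset.mem_coe, Set.Finite.mem_toFinset]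
      refine ⟨hgG, ?_, ?_⟩
      · have := (hpos g hgY m le_rfl).1
        have hX0 : 0 < X := by linarith
        show -X ≤ φ^[m] g
        linarith
      · have h1 := abs_le.1 (hit m g)
        have h2 : r ^ m * g ≤ r ^ m * T := mul_le_mul_of_nonneg_left (hY g hgY).2.2 hrm0.le
        show φ^[m] g ≤ X
        linarith [h1.2]
    · exact (hφinj.iterate m).injOn
  have hBi : ∀ i ∈ Finset.range m, (Y.filter fun g => φ^[i] g ∈ B).card ≤ B.ncard := by
    intro i _
    rw [Set.ncard_eq_toFinset_card _ hBfin]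
    apply Finset.card_le_card_of_injOn (fun g => φ^[i] g)
    · intro g hg
      rw [Finset.mem_coe, Set.Finite.mem_toFinset]
      exact (Finset.mem_filter.1 (Finset.mem_coe.1 hg)).2
    · exact (hφinj.iterate i).injOn
  have hYle : Y.card ≤ (Gam ∩ Icc (-X) X).ncard + m * B.ncard := by
    refine (Finset.card_le_card hcover).trans ((Finset.card_union_le _ _).trans ?_)
    apply add_le_add hall
    refine Finset.card_biUnion_le.trans ((Finset.sum_le_card_nsmul _ _ _ hBi).trans ?_)
    simp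
  have hYle' : (Y.card : ℝ) ≤ ((Gam ∩ Icc (-X) X).ncard : ℝ) + m * B.ncard := by exact_mod_cast hYle
  have hX0 : 0 < X := by linarith
  have hXT : X ≤ T := by
    rw [hX]
    have h1 : r ^ m ≤ r := by
      calc r ^ m ≤ r ^ 1 := pow_le_pow_of_le_one hr0.le hr.le (by omega)
        _ = r := pow_one r
    nlinarith
  have hlX : Real.log X ≤ Real.log T := Real.log_le_log hX0 hXT
  have hXlX : C * X * Real.log X ≤ c / 4 * T * Real.log T := by
    have h1 : X ≤ 2 * (r ^ m * T) := by rw [hX]; linarith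
    have h2 : C * X ≤ c / 4 * T := by
      have h3 : C * r ^ m ≤ c / 8 := by
        have := mul_le_mul_of_nonneg_left hrm.le hC.le
        have e : C * (c / (8 * C)) = c / 8 := by field_simp
        linarith
      calc C * X ≤ C * (2 * (r ^ m * T)) := mul_le_mul_of_nonneg_left h1 hC.le
        _ = 2 * (C * r ^ m) * T := by ring
        _ ≤ 2 * (c / 8) * T := by nlinarith
        _ = c / 4 * T := by ring
    have hCX : 0 ≤ C * X := by positivity
    calc C * X * Real.log X ≤ C * X * Real.log T := mul_le_mul_of_nonneg_left hlX hCX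
      _ ≤ c / 4 * T * Real.log T := mul_le_mul_of_nonneg_right h2 hlT.le
  have hm0 : (0 : ℝ) < m := by rw [hm]; positivity
  have hfin : c / 2 * T * Real.log T ≤ m * B.ncard := by
    have h1 : 0 ≤ T * Real.log T := by positivity
    nlinarith
  have e : c / (2 * m) * T * Real.log T = (c / 2 * T * Real.log T) / m := by field_simp
  rw [e, div_le_iff₀ hm0]
  linarith

/-- |r| < 1: iterate g -> r g + x m times; N(T) <= N(|r|^m T + C) + m |B|. Gam is symmetric. -/
theorem thmII_lt (r x : ℝ) (hr : |r| < 1) (hr0 : r ≠ 0) : ∃ c T0 : ℝ, 0 < c ∧ 2 ≤ T0 ∧ ∀ T : ℝ, T0 ≤ T →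
    c * T * Real.log T ≤ ({g : ℝ | g ∈ Gam ∧ 0 < g ∧ g ≤ T ∧ r * g + x ∉ Gam}.ncard : ℝ) := by
  rcases lt_or_gt_of_ne hr0 with h | h
  · obtain ⟨c, T0, hc, hT0, hmain⟩ := G07_pos (-r) (-x) (by rw [abs_of_neg h] at hr; exact hr)
      (by linarith)
    refine ⟨c, T0, hc, hT0, fun T hT => ?_⟩
    have e : {g : ℝ | g ∈ Gam ∧ 0 < g ∧ g ≤ T ∧ r * g + x ∉ Gam} =
        {g : ℝ | g ∈ Gam ∧ 0 < g ∧ g ≤ T ∧ -r * g + -x ∉ Gam} := by
      ext g
      simp only [Set.mem_setOf_eq]
      have : -r * g + -x = -(r * g + x) := by ring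
      rw [this, G07_symm_iff]
    rw [e]
    exact hmain T hT
  · exact G07_pos r x (by rw [abs_of_pos h] at hr; exact hr) h

end LZ
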