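import Pool.Agent.Lib.MP_0f5a55_nt.D0
import Pool.Agent.Lib.MP_0f5a55_nt.G06
import Pool.Agent.Lib.MP_0f5a55_nt.G07
import Pool.Agent.Lib.MP_0f5a55_nt.M08

open Complex MeasureTheory Set Filter Topology
open scoped ComplexConjugate

namespace LZ

private theorem G08_neg {g : ℝ} (h : g ∈ Gam) : -g ∈ Gam := by
  have h1 : riemannZeta (1/2 + (g : ℂ) * I) = 0 := h
  show riemannZeta (1/2 + ((-g : ℝ) : ℂ) * I) = 0
  have h2 : (1/2 + ((-g : ℝ) : ℂ) * I : ℂ) = conj (1/2 + (g : ℂ) * I) := by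
    apply Complex.ext <;> simp
  rw [h2, conj_facts.1, h1, map_zero]

/-- Theorem II. -/
theorem thmII (r x : ℝ) (hr : |r| ≤ 1) (hr0 : r ≠ 0) (hx : ¬ (|r| = 1 ∧ x = 0)) : ∃ c T0 : ℝ, 0 < c ∧ 2 ≤ T0 ∧
    ∀ T : ℝ, T0 ≤ T →
    c * T * Real.log T ≤ ({g : ℝ | g ∈ Gam ∧ 0 < g ∧ g ≤ T ∧ r * g + x ∉ Gam}.ncard : ℝ) := by
  rcases lt_or_eq_of_le hr with h | h
  · exact thmII_lt r x h hr0
  · have hx0 : x ≠ 0 := fun h0 => hx ⟨h, h0⟩
    rcases eq_or_eq_neg_of_abs_eq h with h1 | h1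
    · obtain ⟨c, T0, hc, hT0, hT⟩ := thmII_one x hx0
      refine ⟨c, T0, hc, hT0, fun T hTT => ?_⟩
      have h2 := hT T hTT
      have h3 : {g : ℝ | g ∈ Gam ∧ 0 < g ∧ g ≤ T ∧ r * g + x ∉ Gam} =
          {g : ℝ | g ∈ Gam ∧ 0 < g ∧ g ≤ T ∧ g + x ∉ Gam} := by
        rw [h1]
        simp only [one_mul]
      rw [h3]
      exact h2
    · obtain ⟨c, T0, hc, hT0, hT⟩ := thmII_one (-x) (neg_ne_zero.mpr hx0)
      refine ⟨c, T0, hc, hT0, fun T hTT => ?_⟩
      have h2 := hT T hTT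
      have h3 : {g : ℝ | g ∈ Gam ∧ 0 < g ∧ g ≤ T ∧ r * g + x ∉ Gam} =
          {g : ℝ | g ∈ Gam ∧ 0 < g ∧ g ≤ T ∧ g + -x ∉ Gam} := by
        ext g
        have h4 : r * g + x ∈ Gam ↔ g + -x ∈ Gam := by
          constructor
          · intro h5
            have h6 := G08_neg h5
            have h7 : -(r * g + x) = g + -x := by
              rw [h1]
              ring
            rwa [h7] at h6
          · intro h5
            have h6 := G08_neg h5
            have h7 : -(g + -x) = r * g + x := by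
              rw [h1]
              ring
            rwa [h7] at h6
        constructor
        · rintro ⟨a1, a2, a3, a4⟩
          exact ⟨a1, a2, a3, fun h5 => a4 (h4.mpr h5)⟩
        · rintro ⟨a1, a2, a3, a4⟩
          exact ⟨a1, a2, a3, fun h5 => a4 (h4.mp h5)⟩
      rw [h3]
      exact h2

end LZ
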